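import Pool.Agent.Lib.H17U.NE
import Pool.Agent.Lib.H74P.C1
import Pool.Agent.Lib.H74P.Data

set_option autoImplicit false

/-!
Chunk E0 (M). Derivatives of functions on the sphere along the rotation fields (for functions which are not restrictions of smooth functions).
Proof. `rt j θ` is the rotation by the angle `θ` about the axis `j`. `rt_zero`, `rt_add`: `PenroseSph.rotLin` (cosine and sine addition; `rotLin_apply`, `fin_cases j`). `rt_cont`: the formula for `rotLin` is continuous in `(θ, n)`.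
`hr_at`: `rt j (θ + h) n = rt j h (rt j θ n)`. `hr_val`: chain rule with `PenroseSph.hasDerivAt_rot` (the derivative of `rotLin (j+1) (j+2) θ x` at `θ = 0` is `rotv j x`). `hr_sfun`: `hr_val` for a smooth extension (`NShell.stdL_of`, as in `H17U/TC0.int_rl`:
`(NShell.stdL j f).1 n = rl j F n` for every smooth `F` with `F n = f.1 n` on the sphere). `hr_int`: `θ ↦ ∫ F (rt j θ n) = ∫ F` is constant (`PenroseSph.int_sphMap`) and has the derivative `∫ F' j (rt j θ n)` at `0` (`PenroseSph.hasDerivAt_int`, see the proof of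
`PenroseSph.avg_rot`). `hr_uni`: uniqueness of derivatives.
-/

open MeasureTheory Filter Topology Set
open scoped ContDiff

namespace NullQ

open NullPen (E3 S2 sm proj pd MatterData NullData)
open NullU (rl)

theorem ax_ne (j : Fin 3) : (j + 1 : Fin 3) ≠ j + 2 := by
  fin_cases j <;> decide

/-- Rotation about the axis `j`. -/
noncomputable def rt (j : Fin 3) (θ : ℝ) (n : S2) : S2 :=
  Pool.Agent.Lib.PenroseSph.sphMap (Pool.Agent.Lib.PenroseSph.rot (ax_ne j) θ) n

/-- `F' j` is the derivative of `F` along the rotation field `e_j × n`. -/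
def HR (F : S2 → ℝ) (F' : Fin 3 → S2 → ℝ) : Prop := ∀ j n, HasDerivAt (fun θ => F (rt j θ n)) (F' j n) 0

theorem rt_zero (j : Fin 3) (n : S2) : rt j 0 n = n := by
  apply Subtype.ext
  show (Pool.Agent.Lib.PenroseSph.rot (ax_ne j) 0 (n : E3)) = n
  rw [Pool.Agent.Lib.PenroseSph.rot_apply]
  ext k
  rw [Pool.Agent.Lib.PenroseSph.rotLin_apply]
  simp

theorem rt_add (j : Fin 3) (a b : ℝ) (n : S2) : rt j (a + b) n = rt j b (rt j a n) := by
  apply Subtype.ext
  show (Pool.Agent.Lib.PenroseSph.rot (ax_ne j) (a + b) (n : E3)) =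
    Pool.Agent.Lib.PenroseSph.rot (ax_ne j) b (Pool.Agent.Lib.PenroseSph.rot (ax_ne j) a (n : E3))
  simp only [Pool.Agent.Lib.PenroseSph.rot_apply]
  ext k
  simp only [Pool.Agent.Lib.PenroseSph.rotLin_apply, Real.cos_add, Real.sin_add]
  generalize Real.sin a = sa
  generalize Real.cos a = ca
  generalize Real.sin b = sb
  generalize Real.cos b = cb
  fin_cases j <;> fin_cases k <;> simp <;> ring

theorem rt_cont (j : Fin 3) : Continuous (fun p : ℝ × S2 => rt j p.1 p.2) := by
  have h : Continuous (fun p : ℝ × S2 => Pool.Agent.Lib.PenroseSph.rotLin (j + 1) (j + 2) p.1 (p.2 : E3)) := by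
    unfold Pool.Agent.Lib.PenroseSph.rotLin
    simp only [LinearMap.coe_mk, AddHom.coe_mk]
    fun_prop
  rw [continuous_induced_rng]
  exact h

theorem hr_at {F : S2 → ℝ} {F' : Fin 3 → S2 → ℝ} (h : HR F F') (j : Fin 3) (n : S2) (θ : ℝ) :
    HasDerivAt (fun θ => F (rt j θ n)) (F' j (rt j θ n)) θ := by
  have h1 := h j (rt j θ n)
  have h2 : HasDerivAt (fun s : ℝ => F (rt j (s - θ) (rt j θ n))) (F' j (rt j θ n)) θ := by
    have h3 : HasDerivAt (fun s : ℝ => s - θ) 1 θ := (hasDerivAt_id θ).sub_const θ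
    have h4 : HasDerivAt (fun s : ℝ => F (rt j s (rt j θ n))) (F' j (rt j θ n)) (θ - θ) := by
      rw [sub_self]
      exact h1
    have h5 := HasDerivAt.comp (h₂ := fun s => F (rt j s (rt j θ n))) (h := fun s : ℝ => s - θ) θ h4 h3
    rw [mul_one] at h5
    exact h5
  have h6 : (fun s : ℝ => F (rt j (s - θ) (rt j θ n))) = fun s => F (rt j s n) := by
    funext s
    rw [← rt_add, add_sub_cancel]
  rwa [h6] at h2

theorem hr_const (c : ℝ) : HR (fun _ => c) (fun _ _ => 0) := fun _ _ => hasDerivAt_const _ _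

theorem hr_add {F G : S2 → ℝ} {F' G' : Fin 3 → S2 → ℝ} (hF : HR F F') (hG : HR G G') :
    HR (fun n => F n + G n) (fun j n => F' j n + G' j n) := fun j n => (hF j n).add (hG j n)

theorem hr_sub {F G : S2 → ℝ} {F' G' : Fin 3 → S2 → ℝ} (hF : HR F F') (hG : HR G G') :
    HR (fun n => F n - G n) (fun j n => F' j n - G' j n) := fun j n => (hF j n).sub (hG j n)

theorem hr_mul {F G : S2 → ℝ} {F' G' : Fin 3 → S2 → ℝ} (hF : HR F F') (hG : HR G G') :
    HR (fun n => F n * G n) (fun j n => F' j n * G n + F n * G' j n) := by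
  intro j n
  have h := (hF j n).mul (hG j n)
  rw [rt_zero] at h
  exact h

theorem hr_sum {F : Fin 3 → S2 → ℝ} {F' : Fin 3 → Fin 3 → S2 → ℝ} (h : ∀ k, HR (F k) (F' k)) :
    HR (fun n => ∑ k, F k n) (fun j n => ∑ k, F' k j n) := fun j n => HasDerivAt.fun_sum fun k _ => h k j n

theorem hr_comp {F : S2 → ℝ} {F' : Fin 3 → S2 → ℝ} (hF : HR F F') {φ φ' : ℝ → ℝ} (h : ∀ n, HasDerivAt φ (φ' (F n)) (F n)) :
    HR (fun n => φ (F n)) (fun j n => φ' (F n) * F' j n) := by
  intro j n
  have h1 := h n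
  have h2 : HasDerivAt φ (φ' (F n)) (F (rt j 0 n)) := by
    rw [rt_zero]
    exact h1
  exact h2.comp 0 (hF j n)

theorem hr_congr {F : S2 → ℝ} {F' G' : Fin 3 → S2 → ℝ} (hF : HR F F') (h : ∀ j n, F' j n = G' j n) : HR F G' := by
  intro j n
  rw [← h j n]
  exact hF j n

theorem hr_val {G : E3 → ℝ} (hG : ∀ n : S2, DifferentiableAt ℝ G n) : HR (fun n => G n) (fun j n => rl j G n) := by
  intro j n
  exact NShell.fderiv_rot_eq (hG n) j

theorem hr_sfun (f : NShell.SFun) : HR (fun n => f.1 n) (fun j n => (NShell.stdSA.L j f).1 n) := by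
  have h : HR (fun n => (NShell.lft f) n) (fun j n => rl j (NShell.lft f) n) :=
    hr_val fun n => (NShell.lft_smooth f).differentiable (by simp) _
  have h1 : (fun n : S2 => (NShell.lft f) n) = fun n => f.1 n := by
    funext n
    exact NShell.lft_eq f n
  rw [h1] at h
  refine hr_congr h fun j n => ?_
  exact (NShell.stdL_of j f (NShell.lft f) (NShell.lft_smooth f) (fun m => (NShell.lft_eq f m).symm) n).symm

theorem hr_uni {F : S2 → ℝ} {F' G' : Fin 3 → S2 → ℝ} (h : HR F F') (h' : HR F G') (j : Fin 3) (n : S2) : F' j n = G' j n :=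
  (h j n).unique (h' j n)

theorem hr_int {F : S2 → ℝ} {F' : Fin 3 → S2 → ℝ} (h : HR F F') (cF : Continuous F) (j : Fin 3) (cF' : Continuous (F' j)) :
    ∫ n : S2, F' j n ∂sm = 0 := by
  have c1 : ∀ t : ℝ, Continuous fun n : S2 => F (rt j t n) := by
    intro t
    have h1 : Continuous fun n : S2 => rt j t n :=
      Continuous.comp (g := fun p : ℝ × S2 => rt j p.1 p.2) (f := fun n : S2 => (t, n)) (rt_cont j) (by fun_prop)
    exact cF.comp h1
  have c2 : Continuous (fun p : ℝ × S2 => F' j (rt j p.1 p.2)) := cF'.comp (rt_cont j)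
  have key := Pool.Agent.Lib.PenroseSph.hasDerivAt_int (F := fun θ n => F (rt j θ n)) (F' := fun θ n => F' j (rt j θ n))
    (t0 := 0) (ε := 1) one_pos ?_ ?_ ?_
  rotate_left
  · intro t _ n
    exact hr_at h j n t
  · intro t _
    exact c1 t
  · exact c2.continuousOn
  have hconst : (fun θ : ℝ => ∫ n : S2, F (rt j θ n) ∂Pool.Agent.Lib.PenroseSph.sm) =
      fun _ => ∫ n : S2, F n ∂Pool.Agent.Lib.PenroseSph.sm := by
    funext θ
    exact Pool.Agent.Lib.PenroseSph.int_sphMap (Pool.Agent.Lib.PenroseSph.rot (ax_ne j) θ) F cF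
  rw [hconst] at key
  have h1 := key.unique (hasDerivAt_const 0 _)
  simp only [rt_zero] at h1
  exact h1

end NullQ
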