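import Pool.Agent.Lib.H74Q.E0

set_option autoImplicit false

/-!
Chunk E0B (M). Rotation derivatives of time integrals.
Proof. `hr_tint`: `θ ↦ ∫ t in 0..S, F t (rt j θ n)`: `hasDerivAt_integral_of_dominated_loc_of_deriv_le` (or the interval version), the derivative in `θ` is `F' j t (rt j θ n)` (`hr_at`), bounded on the compact set `[0,S] × [-1,1]` (`rt_cont`).
`hr_tail`: for the integral over `(s, ∞)` with a dominating function `B`, the same theorem. `cont_tail`: continuity in `(s, n)` of `∫_s^∞ = ∫_0^∞ - ∫_0^s`, by dominated convergence in `n` (`MeasureTheory.continuous_of_dominated`) and `NullPen.cont_int`.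
-/

open MeasureTheory Filter Topology Set
open scoped ContDiff

namespace NullQ

open NullPen (E3 S2 sm proj pd MatterData NullData)

theorem E0B_time {F : ℝ → S2 → ℝ} (cF : ContinuousOn (fun p : ℝ × S2 => F p.1 p.2) (Ici 0 ×ˢ univ)) (m : S2) :
    ContinuousOn (fun t => F t m) (Ici 0) := by
  have h1 : ContinuousOn (fun t : ℝ => ((t, m) : ℝ × S2)) (Ici 0) := by fun_prop
  exact cF.comp h1 (fun t ht => ⟨ht, mem_univ _⟩)

theorem E0B_space {F : ℝ → S2 → ℝ} (cF : ContinuousOn (fun p : ℝ × S2 => F p.1 p.2) (Ici 0 ×ˢ univ)) {t : ℝ} (ht : 0 ≤ t) :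
    Continuous (fun m => F t m) := by
  have h1 : Continuous (fun m : S2 => ((t, m) : ℝ × S2)) := by fun_prop
  exact cF.comp_continuous h1 (fun m => ⟨ht, mem_univ _⟩)

theorem E0B_meas {f : ℝ → ℝ} (cf : ContinuousOn f (Ici 0)) {s : ℝ} (hs : 0 ≤ s) :
    AEStronglyMeasurable f (volume.restrict (Ioi s)) :=
  (cf.mono (fun _ ht => hs.trans (le_of_lt ht))).aestronglyMeasurable measurableSet_Ioi

theorem E0B_int {f : ℝ → ℝ} (cf : ContinuousOn f (Ici 0)) {B : ℝ → ℝ} (hB : IntegrableOn B (Ioi 0))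
    (hfB : ∀ t, 0 < t → |f t| ≤ B t) {s : ℝ} (hs : 0 ≤ s) : IntegrableOn f (Ioi s) := by
  refine Integrable.mono' (hB.mono_set (Ioi_subset_Ioi hs)) (E0B_meas cf hs) ?_
  exact (ae_restrict_iff' measurableSet_Ioi).2 (Eventually.of_forall fun t ht => hfB t (hs.trans_lt ht))

theorem E0B_eq {f : ℝ → ℝ} (cf : ContinuousOn f (Ici 0)) {B : ℝ → ℝ} (hB : IntegrableOn B (Ioi 0))
    (hfB : ∀ t, 0 < t → |f t| ≤ B t) {s : ℝ} (hs : 0 ≤ s) :
    ∫ t in Ioi s, f t = (∫ t in Ioi 0, f t) - ∫ t in (0 : ℝ)..s, f t := by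
  rw [← intervalIntegral.integral_interval_add_Ioi (E0B_int cf hB hfB le_rfl) (E0B_int cf hB hfB hs)]
  ring

theorem hr_tint {F : ℝ → S2 → ℝ} {F' : Fin 3 → ℝ → S2 → ℝ} (cF : ContinuousOn (fun p : ℝ × S2 => F p.1 p.2) (Ici 0 ×ˢ univ))
    (cF' : ∀ j, ContinuousOn (fun p : ℝ × S2 => F' j p.1 p.2) (Ici 0 ×ˢ univ))
    (h : ∀ t, 0 ≤ t → HR (F t) (fun j n => F' j t n)) {S : ℝ} (hS : 0 ≤ S) :
    HR (fun n => ∫ t in (0 : ℝ)..S, F t n) (fun j n => ∫ t in (0 : ℝ)..S, F' j t n) := by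
  intro j n
  have hK : IsCompact (Icc (0 : ℝ) S ×ˢ (univ : Set S2)) := isCompact_Icc.prod isCompact_univ
  obtain ⟨C, hC⟩ := hK.exists_bound_of_continuousOn ((cF' j).mono (prod_mono_left Icc_subset_Ici_self))
  have hI : Set.uIoc 0 S = Ioc 0 S := Set.uIoc_of_le hS
  have hm : ∀ f : ℝ → ℝ, ContinuousOn f (Ici 0) → AEStronglyMeasurable f (volume.restrict (Set.uIoc 0 S)) := by
    intro f hf
    rw [hI]
    exact (hf.mono (fun _ ht => le_of_lt ht.1)).aestronglyMeasurable measurableSet_Ioc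
  have h1 := (intervalIntegral.hasDerivAt_integral_of_dominated_loc_of_deriv_le (μ := volume) (a := 0) (b := S)
    (F := fun θ t => F t (rt j θ n)) (F' := fun θ t => F' j t (rt j θ n)) (x₀ := (0 : ℝ)) (s := univ)
    (bound := fun _ => C) univ_mem (Eventually.of_forall fun θ => hm _ (E0B_time cF _))
    ((E0B_time cF _).mono (by rw [Set.uIcc_of_le hS]; exact Icc_subset_Ici_self)).intervalIntegrable
    (hm _ (E0B_time (cF' j) _)) (Eventually.of_forall fun t ht θ _ => ?_) intervalIntegrable_const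
    (Eventually.of_forall fun t ht θ _ => ?_)).2
  · simp only [rt_zero] at h1
    exact h1
  · rw [hI] at ht
    exact hC (t, rt j θ n) ⟨⟨ht.1.le, ht.2⟩, mem_univ _⟩
  · rw [hI] at ht
    exact hr_at (h t ht.1.le) j n θ

theorem hr_tail {F : ℝ → S2 → ℝ} {F' : Fin 3 → ℝ → S2 → ℝ} (cF : ContinuousOn (fun p : ℝ × S2 => F p.1 p.2) (Ici 0 ×ˢ univ))
    (cF' : ∀ j, ContinuousOn (fun p : ℝ × S2 => F' j p.1 p.2) (Ici 0 ×ˢ univ))
    (h : ∀ t, 0 ≤ t → HR (F t) (fun j n => F' j t n)) {B : ℝ → ℝ} (hB : IntegrableOn B (Ioi 0))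
    (hFB : ∀ t, 0 < t → ∀ n, |F t n| ≤ B t) (hFB' : ∀ j t, 0 < t → ∀ n, |F' j t n| ≤ B t) {s : ℝ} (hs : 0 ≤ s) :
    HR (fun n => ∫ t in Ioi s, F t n) (fun j n => ∫ t in Ioi s, F' j t n) := by
  intro j n
  have h1 := (hasDerivAt_integral_of_dominated_loc_of_deriv_le (μ := volume.restrict (Ioi s))
    (F := fun θ t => F t (rt j θ n)) (F' := fun θ t => F' j t (rt j θ n)) (x₀ := (0 : ℝ)) (s := univ)
    (bound := B) univ_mem (Eventually.of_forall fun θ => E0B_meas (E0B_time cF _) hs)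
    (E0B_int (E0B_time cF _) hB (fun t ht => hFB t ht _) hs)
    (E0B_meas (E0B_time (cF' j) _) hs) ?_ (hB.mono_set (Ioi_subset_Ioi hs)) ?_).2
  · simp only [rt_zero] at h1
    exact h1
  · exact (ae_restrict_iff' measurableSet_Ioi).2 (Eventually.of_forall fun t ht θ _ =>
      hFB' j t (hs.trans_lt ht) _)
  · exact (ae_restrict_iff' measurableSet_Ioi).2 (Eventually.of_forall fun t ht θ _ =>
      hr_at (h t (hs.trans (le_of_lt ht))) j n θ)

theorem cont_tail {F : ℝ → S2 → ℝ} (cF : ContinuousOn (fun p : ℝ × S2 => F p.1 p.2) (Ici 0 ×ˢ univ))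
    {B : ℝ → ℝ} (hB : IntegrableOn B (Ioi 0)) (hFB : ∀ t, 0 < t → ∀ n, |F t n| ≤ B t) :
    ContinuousOn (fun p : ℝ × S2 => ∫ t in Ioi p.1, F t p.2) (Ici 0 ×ˢ univ) := by
  have h1 : Continuous (fun n : S2 => ∫ t in Ioi (0 : ℝ), F t n) := by
    refine continuous_of_dominated (bound := B) (fun n => E0B_meas (E0B_time cF n) le_rfl) (fun n => ?_) hB ?_
    · exact (ae_restrict_iff' measurableSet_Ioi).2 (Eventually.of_forall fun t ht => hFB t ht n)
    · exact (ae_restrict_iff' measurableSet_Ioi).2 (Eventually.of_forall fun t ht =>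
        E0B_space cF (le_of_lt ht))
  have h2 := NullPen.cont_int cF
  have h3 : ContinuousOn (fun p : ℝ × S2 => ∫ t in Ioi (0 : ℝ), F t p.2) (Ici 0 ×ˢ univ) :=
    (h1.comp continuous_snd).continuousOn
  refine (h3.sub h2).congr fun p hp => ?_
  exact E0B_eq (E0B_time cF p.2) hB (fun t ht => hFB t ht p.2) hp.1

theorem der_tail {F : ℝ → ℝ} (cF : ContinuousOn F (Ici 0)) {B : ℝ → ℝ} (hB : IntegrableOn B (Ioi 0))
    (hFB : ∀ t, 0 < t → |F t| ≤ B t) {s : ℝ} (hs : 0 < s) : HasDerivAt (fun s => ∫ t in Ioi s, F t) (-(F s)) s := by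
  have h1 : HasDerivAt (fun s => ∫ t in (0 : ℝ)..s, F t) (F s) s := by
    refine intervalIntegral.integral_hasDerivAt_right ?_ ?_ ?_
    · exact (cF.mono (by rw [Set.uIcc_of_le hs.le]; exact Icc_subset_Ici_self)).intervalIntegrable
    · refine ⟨Ioi 0, Ioi_mem_nhds hs, ?_⟩
      exact (cF.mono Ioi_subset_Ici_self).aestronglyMeasurable measurableSet_Ioi
    · exact cF.continuousAt (Ici_mem_nhds hs)
  have h2 := h1.const_sub (∫ t in Ioi (0 : ℝ), F t)
  refine h2.congr_of_eventuallyEq ?_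
  filter_upwards [Ioi_mem_nhds hs] with r hr
  exact E0B_eq cF hB hFB (le_of_lt hr)

end NullQ
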