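import Pool.Agent.Lib.H74Q.Eig
import Pool.Agent.Lib.H17U.DA

set_option autoImplicit false

/-!
Chunk A1 (M). The metric in an orthonormal basis `e, f` of the tangent plane at `n`; the constant is uniform in `n` and the basis.
Proof. `C = 9 |C0|`, `C0` from `AsympFlat` (`Σ proj e e = 1`, `Σ proj e f = 0`, `|e i|, |f i| <= 1`). Continuity and first derivatives: `NullU.da_gd` (`D.g` is smooth on `ℝ × E3`), for all `s`. Positivity: `g_pos`. `E H - F^2 > 0`: `g_pos` for
the vector `F e - E f` (value `E (E H - F^2)`), `F e - E f ≠ 0`. Second derivatives: `NoRadiation` contracted with `u, v`: `(Σ 2 chi u v)' = 2 (chi gi chi)(u, v) - e g(u, v)`, `m = e/2`. `chi` and `gi` are tangential and symmetric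
(`NullU.da_ctan`, `gi_tan`, `gi_symm`), so `chi i k = Σ_{u,v ∈ {e,f}} chi(u,v) u i v k` (`δ i j = e i e j + f i f j + n i n j`, proved from `Onb`: or use `Σ_k chi i k w k` with `w = gi chi v` tangential), and the matrix of `gi` in the basis is
`(H, -F; -F, E)/(E H - F^2)`, the inverse of the matrix of `g` (from `gi_inv`). So `2 (chi gi chi)(e,e) = (1/(2 (E H - F^2))) (H E1^2 - 2 F E1 F1 + E F1^2)` etc. (`E1 = 2 chi(e,e)`).
-/

open MeasureTheory Filter Topology Set
open scoped ContDiff

namespace NullQ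

open NullPen (E3 S2 sm proj pd MatterData NullData)

/-- The value of a matrix on two vectors. -/
noncomputable def a1_q (G : Fin 3 → Fin 3 → ℝ) (u v : Fin 3 → ℝ) : ℝ := ∑ i, ∑ j, G i j * u i * v j

theorem a1_delta {n : S2} {e f : Fin 3 → ℝ} (h : Onb n e f) (i j : Fin 3) :
    (if i = j then (1 : ℝ) else 0) = e i * e j + f i * f j + (n : E3) i * (n : E3) j := by
  have hn : ∑ i, (n : E3) i ^ 2 = 1 := by
    have h1 := NullU.da_norm n
    rw [EuclideanSpace.norm_eq, Real.sqrt_eq_one] at h1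
    simpa using h1
  let M : Fin 3 → Fin 3 → ℝ := ![e, f, fun i => (n : E3) i]
  have h1 := h.ee
  have h2 := h.ff
  have h3 := h.ef
  have h4 := h.en
  have h5 := h.fn
  simp only [Fin.sum_univ_three] at h1 h2 h3 h4 h5 hn
  have hM : Matrix.of M * Matrix.of (fun a b => M b a) = 1 := by
    ext a b
    rw [Matrix.mul_apply, Fin.sum_univ_three]
    simp only [Matrix.of_apply, M]
    fin_cases a <;> fin_cases b <;> simp <;> linarith
  have hM2 : Matrix.of (fun a b => M b a) * Matrix.of M = 1 := mul_eq_one_comm.1 hM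
  have h6 := congrFun (congrFun hM2 i) j
  rw [Matrix.mul_apply, Fin.sum_univ_three, Matrix.one_apply] at h6
  rw [← h6]
  rfl

theorem a1_exp {n : S2} {e f : Fin 3 → ℝ} (h : Onb n e f) {a : Fin 3 → ℝ}
    (ha : ∑ k, a k * (n : E3) k = 0) (i : Fin 3) :
    a i = (∑ k, a k * e k) * e i + (∑ k, a k * f k) * f i := by
  have h1 : a i = ∑ k, a k * (if k = i then (1 : ℝ) else 0) := by simp
  have h2 : ∑ k, a k * (if k = i then (1 : ℝ) else 0) =
      ∑ k, a k * (e k * e i + f k * f i + (n : E3) k * (n : E3) i) :=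
    Finset.sum_congr rfl fun k _ => by rw [a1_delta h k i]
  rw [h1, h2]
  simp only [Fin.sum_univ_three] at ha ⊢
  linear_combination ((n : E3) i) * ha

/-- right contraction -/
theorem a1_right {n : S2} {e f : Fin 3 → ℝ} (h : Onb n e f) {X : Fin 3 → Fin 3 → ℝ}
    (hX : ∀ i, ∑ j, X i j * (n : E3) j = 0) (u : Fin 3 → ℝ) (k : Fin 3) :
    ∑ i, X i k * u i = a1_q X u e * e k + a1_q X u f * f k := by
  have h1 := a1_exp h (a := fun k => ∑ i, X i k * u i) (by
    have h0 := hX 0
    have h1 := hX 1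
    have h2 := hX 2
    simp only [Fin.sum_univ_three] at h0 h1 h2 ⊢
    linear_combination u 0 * h0 + u 1 * h1 + u 2 * h2) k
  rw [h1]
  unfold a1_q
  simp only [Fin.sum_univ_three]
  ring

/-- left contraction -/
theorem a1_left {n : S2} {e f : Fin 3 → ℝ} (h : Onb n e f) {X : Fin 3 → Fin 3 → ℝ}
    (hX : ∀ j, ∑ i, X i j * (n : E3) i = 0) (v : Fin 3 → ℝ) (l : Fin 3) :
    ∑ j, X l j * v j = a1_q X e v * e l + a1_q X f v * f l := by
  have h1 := a1_exp h (a := fun l => ∑ j, X l j * v j) (by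
    have h0 := hX 0
    have h1 := hX 1
    have h2 := hX 2
    simp only [Fin.sum_univ_three] at h0 h1 h2 ⊢
    linear_combination v 0 * h0 + v 1 * h1 + v 2 * h2) l
  rw [h1]
  unfold a1_q
  simp only [Fin.sum_univ_three]
  ring

theorem a1_tri (X Y : Fin 3 → Fin 3 → ℝ) (u v : Fin 3 → ℝ) :
    ∑ i, ∑ j, (∑ k, ∑ l, X i k * Y k l * X l j) * u i * v j =
      ∑ k, ∑ l, Y k l * (∑ i, X i k * u i) * (∑ j, X l j * v j) := by
  simp only [Fin.sum_univ_three]
  ring

theorem a1_bil (Y : Fin 3 → Fin 3 → ℝ) (e f : Fin 3 → ℝ) (A B C D : ℝ) :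
    ∑ k, ∑ l, Y k l * (A * e k + B * f k) * (C * e l + D * f l) =
      A * C * a1_q Y e e + A * D * a1_q Y e f + B * C * a1_q Y f e + B * D * a1_q Y f f := by
  unfold a1_q
  simp only [Fin.sum_univ_three]
  ring

theorem a1_inv {n : S2} {e f : Fin 3 → ℝ} (h : Onb n e f) {G Gi : Fin 3 → Fin 3 → ℝ}
    (hG : ∀ i, ∑ j, G i j * (n : E3) j = 0)
    (hi : ∀ i j, ∑ k, G i k * Gi k j = proj n i j) (u v : Fin 3 → ℝ)
    (hu : ∑ i, (n : E3) i * u i = 0) :
    a1_q G u e * a1_q Gi e v + a1_q G u f * a1_q Gi f v = ∑ i, u i * v i := by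
  have h1 : ∑ i, ∑ j, (∑ k, G i k * Gi k j) * u i * v j = ∑ i, u i * v i := by
    simp only [hi]
    unfold proj
    simp only [Fin.sum_univ_three] at hu ⊢
    simp
    linear_combination (-((n : E3) 0 * v 0 + (n : E3) 1 * v 1 + (n : E3) 2 * v 2)) * hu
  rw [← h1]
  have h2 : ∑ i, ∑ j, (∑ k, G i k * Gi k j) * u i * v j =
      ∑ k, (∑ i, G i k * u i) * (∑ j, Gi k j * v j) := by
    simp only [Fin.sum_univ_three]
    ring
  rw [h2]
  simp only [a1_right h hG]
  unfold a1_q
  simp only [Fin.sum_univ_three]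
  ring

theorem a1_gc (D : MatterData) (n : S2) (u v : Fin 3 → ℝ) (s : ℝ) :
    gc D n u v s = a1_q (D.g s n) u v := rfl

theorem a1_gd1 (D : MatterData) (n : S2) (u v : Fin 3 → ℝ) (s : ℝ) :
    gd1 D n u v s = 2 * a1_q (D.chi s n) u v := by
  unfold gd1 a1_q
  simp only [Finset.mul_sum]
  refine Finset.sum_congr rfl fun i _ => Finset.sum_congr rfl fun j _ => ?_
  ring

theorem a1_der {D : MatterData} (hD : D.IsNull) (n : S2) (u v : Fin 3 → ℝ) (s : ℝ) :
    HasDerivAt (gc D n u v) (gd1 D n u v s) s := by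
  unfold gc gd1
  exact HasDerivAt.fun_sum fun i _ => HasDerivAt.fun_sum fun j _ =>
    ((NullU.da_gd hD n s i j).mul_const _).mul_const _

theorem a1_csymm {D : MatterData} (hD : D.IsNull) (n : S2) {s : ℝ} (hs : 0 < s) (i j : Fin 3) :
    D.chi s n i j = D.chi s n j i := by
  have h1 := NullU.da_gd hD n s i j
  have h2 := NullU.da_gd hD n s j i
  have h3 : (fun t => D.g t n i j) =ᶠ[𝓝 s] fun t => D.g t n j i := by
    filter_upwards [lt_mem_nhds hs] with t ht
    exact hD.g_symm t ht.le n i j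
  have h4 := (h3.hasDerivAt_iff.mp h1).unique h2
  linarith

theorem a1_qsymm {X : Fin 3 → Fin 3 → ℝ} (hX : ∀ i j, X i j = X j i) (u v : Fin 3 → ℝ) :
    a1_q X u v = a1_q X v u := by
  unfold a1_q
  rw [Finset.sum_comm]
  refine Finset.sum_congr rfl fun i _ => Finset.sum_congr rfl fun j _ => ?_
  rw [hX j i]
  ring

theorem a1_dd {D : MatterData} (hD : D.Quiet) {n : S2} {e f : Fin 3 → ℝ} (h : Onb n e f)
    (u v : Fin 3 → ℝ) {s : ℝ} (hs : 0 < s) :
    HasDerivAt (gd1 D n u v)
      (2 * (a1_q (D.chi s n) u e * a1_q (D.chi s n) e v * a1_q (D.gi s n) e e +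
        a1_q (D.chi s n) u e * a1_q (D.chi s n) f v * a1_q (D.gi s n) e f +
        a1_q (D.chi s n) u f * a1_q (D.chi s n) e v * a1_q (D.gi s n) f e +
        a1_q (D.chi s n) u f * a1_q (D.chi s n) f v * a1_q (D.gi s n) f f) -
        2 * (D.e s n / 2) * gc D n u v s) s := by
  have h1 : HasDerivAt (gd1 D n u v) (∑ i, ∑ j, 2 * ((∑ k, ∑ l, D.chi s n i k * D.gi s n k l *
      D.chi s n l j) - D.e s n / 2 * D.g s n i j) * u i * v j) s := by
    unfold gd1
    exact HasDerivAt.fun_sum fun i _ => HasDerivAt.fun_sum fun j _ =>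
      (((hD.free s hs n i j).const_mul 2).mul_const _).mul_const _
  refine h1.congr_deriv ?_
  have h2 := a1_tri (D.chi s n) (D.gi s n) u v
  have hct : ∀ i, ∑ j, D.chi s n i j * (n : E3) j = 0 := fun i => NullU.da_ctan hD.null n hs i
  have hct' : ∀ j, ∑ i, D.chi s n i j * (n : E3) i = 0 := by
    intro j
    rw [← hct j]
    exact Finset.sum_congr rfl fun i _ => by rw [a1_csymm hD.null n hs i j]
  simp only [a1_right h hct, a1_left h hct'] at h2
  rw [a1_bil] at h2
  rw [← h2]
  unfold gc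
  rw [Finset.mul_sum, Finset.mul_sum, ← Finset.sum_sub_distrib]
  refine Finset.sum_congr rfl fun i _ => ?_
  rw [Finset.mul_sum, Finset.mul_sum, ← Finset.sum_sub_distrib]
  refine Finset.sum_congr rfl fun j _ => ?_
  ring

theorem q2_of {D : MatterData} (hD : D.Quiet) : ∃ C : ℝ, 0 ≤ C ∧ ∀ (n : S2) (e f : Fin 3 → ℝ), Onb n e f →
    Q2 C (fun s => D.e s n / 2) (gc D n e e) (gc D n e f) (gc D n f f) (gd1 D n e e) (gd1 D n e f) (gd1 D n f f) := by
  obtain ⟨C0, hC0⟩ := hD.flat
  refine ⟨9 * |C0|, by positivity, ?_⟩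
  intro n e f h
  have hnull := hD.null
  have hcont : ∀ u v : Fin 3 → ℝ, ContinuousOn (gc D n u v) (Ici 0) := fun u v s _ =>
    (a1_der hnull n u v s).continuousAt.continuousWithinAt
  have hee := h.ee
  have hff := h.ff
  have hef := h.ef
  have hen := h.en
  have hfn := h.fn
  have he0 : e ≠ 0 := by
    rintro rfl
    simp at hee
  have hf0 : f ≠ 0 := by
    rintro rfl
    simp at hff
  have hEp : ∀ s, 0 ≤ s → 0 < gc D n e e s := fun s hs => hnull.g_pos s hs n e he0 hen
  have hHp : ∀ s, 0 ≤ s → 0 < gc D n f f s := fun s hs => hnull.g_pos s hs n f hf0 hfn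
  have hdp : ∀ s, 0 ≤ s → 0 < gc D n e e s * gc D n f f s - gc D n e f s ^ 2 := by
    intro s hs
    have hE := hEp s hs
    have h1 := hnull.g_pos s hs n (fun i => gc D n e f s * e i - gc D n e e s * f i) (by
      intro h0
      have h2 : ∑ i, (gc D n e f s * e i - gc D n e e s * f i) * f i = 0 := by
        refine Finset.sum_eq_zero fun i _ => ?_
        have h3 := congrFun h0 i
        simp only [Pi.zero_apply] at h3
        rw [h3, zero_mul]
      simp only [Fin.sum_univ_three] at h2 hef hff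
      have h4 : gc D n e e s = 0 := by
        linear_combination -h2 + gc D n e f s * hef - gc D n e e s * hff
      exact hE.ne' h4) (by
      simp only [Fin.sum_univ_three] at hen hfn ⊢
      linear_combination gc D n e f s * hen - gc D n e e s * hfn)
    have hfe : gc D n f e s = gc D n e f s := by
      rw [a1_gc, a1_gc]
      exact a1_qsymm (fun i j => hnull.g_symm s hs n i j) f e
    have h5 : ∑ i, ∑ j, D.g s n i j * (gc D n e f s * e i - gc D n e e s * f i) *
        (gc D n e f s * e j - gc D n e e s * f j) =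
        gc D n e e s * (gc D n e e s * gc D n f f s - gc D n e f s ^ 2) := by
      have h6 : ∀ A B : ℝ, ∑ i, ∑ j, D.g s n i j * (A * e i - B * f i) * (A * e j - B * f j) =
          A ^ 2 * gc D n e e s - A * B * gc D n e f s - A * B * gc D n f e s + B ^ 2 * gc D n f f s := by
        intro A B
        unfold gc
        simp only [Fin.sum_univ_three]
        ring
      rw [h6, hfe]
      ring
    rw [h5] at h1
    exact (mul_pos_iff_of_pos_left hE).1 h1
  have hent : ∀ s, 0 < s → a1_q (D.gi s n) e e * (gc D n e e s * gc D n f f s - gc D n e f s ^ 2) = gc D n f f s ∧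
      a1_q (D.gi s n) f e * (gc D n e e s * gc D n f f s - gc D n e f s ^ 2) = -gc D n e f s ∧
      a1_q (D.gi s n) e f * (gc D n e e s * gc D n f f s - gc D n e f s ^ 2) = -gc D n e f s ∧
      a1_q (D.gi s n) f f * (gc D n e e s * gc D n f f s - gc D n e f s ^ 2) = gc D n e e s := by
    intro s hs
    have hfe : gc D n f e s = gc D n e f s := by
      rw [a1_gc, a1_gc]
      exact a1_qsymm (fun i j => hnull.g_symm s hs.le n i j) f e
    have hG := hnull.g_tan s hs.le n
    have hi := hnull.gi_inv s hs.le n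
    have h1 := a1_inv h hG hi e e hen
    have h2 := a1_inv h hG hi f e hfn
    have h3 := a1_inv h hG hi e f hen
    have h4 := a1_inv h hG hi f f hfn
    simp only [← a1_gc D n] at h1 h2 h3 h4
    rw [hfe] at h2 h4
    have h5 : ∑ i, e i * e i = 1 := by
      rw [← hee]
      exact Finset.sum_congr rfl fun i _ => by ring
    have h6 : ∑ i, f i * f i = 1 := by
      rw [← hff]
      exact Finset.sum_congr rfl fun i _ => by ring
    have h7 : ∑ i, f i * e i = 0 := by
      rw [← hef]
      exact Finset.sum_congr rfl fun i _ => by ring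
    rw [h5] at h1
    rw [h7] at h2
    rw [hef] at h3
    rw [h6] at h4
    refine ⟨?_, ?_, ?_, ?_⟩
    · linear_combination gc D n f f s * h1 - gc D n e f s * h2
    · linear_combination gc D n e e s * h2 - gc D n e f s * h1
    · linear_combination gc D n f f s * h3 - gc D n e f s * h4
    · linear_combination gc D n e e s * h4 - gc D n e f s * h3
  have hasy : ∀ u v : Fin 3 → ℝ, (∀ i, |u i| ≤ 1) → (∀ i, |v i| ≤ 1) → ∑ i, (n : E3) i * u i = 0 →
      ∀ s, 1 ≤ s → |gc D n u v s - s ^ 2 * ∑ i, u i * v i| ≤ 9 * |C0| * s := by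
    intro u v hu hv hun s hs
    have h1 : gc D n u v s - s ^ 2 * ∑ i, u i * v i =
        ∑ i, ∑ j, (D.g s n i j - s ^ 2 * proj n i j) * u i * v j := by
      unfold gc proj
      simp only [Fin.sum_univ_three] at hun ⊢
      simp
      linear_combination (-s ^ 2 * ((n : E3) 0 * v 0 + (n : E3) 1 * v 1 + (n : E3) 2 * v 2)) * hun
    rw [h1]
    have h2 : ∀ i j, |(D.g s n i j - s ^ 2 * proj n i j) * u i * v j| ≤ |C0| * s := by
      intro i j
      have h3 := (hC0 s hs n i j).1
      have h4 : C0 * s ≤ |C0| * s := by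
        have := le_abs_self C0
        nlinarith
      rw [abs_mul, abs_mul]
      calc |D.g s n i j - s ^ 2 * proj n i j| * |u i| * |v j|
          ≤ |D.g s n i j - s ^ 2 * proj n i j| * 1 * 1 := by
            gcongr
            · exact hu i
            · exact hv j
        _ ≤ |C0| * s := by linarith
    calc |∑ i, ∑ j, (D.g s n i j - s ^ 2 * proj n i j) * u i * v j|
        ≤ ∑ i, ∑ j, |(D.g s n i j - s ^ 2 * proj n i j) * u i * v j| :=
          (Finset.abs_sum_le_sum_abs _ _).trans
            (Finset.sum_le_sum fun i _ => Finset.abs_sum_le_sum_abs _ _)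
      _ ≤ ∑ _i : Fin 3, ∑ _j : Fin 3, |C0| * s :=
          Finset.sum_le_sum fun i _ => Finset.sum_le_sum fun j _ => h2 i j
      _ = 9 * |C0| * s := by
          simp only [Finset.sum_const, Finset.card_univ, Fintype.card_fin, nsmul_eq_mul]
          push_cast
          ring
  have he1 : ∀ i, |e i| ≤ 1 := by
    intro i
    rw [← sq_le_one_iff_abs_le_one, ← hee]
    exact Finset.single_le_sum (f := fun i => e i ^ 2) (fun j _ => sq_nonneg _) (Finset.mem_univ i)
  have hf1 : ∀ i, |f i| ≤ 1 := by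
    intro i
    rw [← sq_le_one_iff_abs_le_one, ← hff]
    exact Finset.single_le_sum (f := fun i => f i ^ 2) (fun j _ => sq_nonneg _) (Finset.mem_univ i)
  have hsee : ∑ i, e i * e i = 1 := by
    rw [← hee]
    exact Finset.sum_congr rfl fun i _ => by ring
  have hsff : ∑ i, f i * f i = 1 := by
    rw [← hff]
    exact Finset.sum_congr rfl fun i _ => by ring
  refine
    { C0 := by positivity
      m0 := fun s hs => div_nonneg (hnull.e_nonneg s hs.le n) (by norm_num)
      Ec := hcont e e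
      Fc := hcont e f
      Hc := hcont f f
      Ep := hEp
      Hp := hHp
      dp := hdp
      Ed := fun s _ => a1_der hnull n e e s
      Fd := fun s _ => a1_der hnull n e f s
      Hd := fun s _ => a1_der hnull n f f s
      Edd := ?_
      Fdd := ?_
      Hdd := ?_
      Ea := ?_
      Fa := ?_
      Ha := ?_ }
  · intro s hs
    refine (a1_dd hD h e e hs).congr_deriv ?_
    obtain ⟨k1, k2, k3, k4⟩ := hent s hs
    have hp := (hdp s hs.le).ne'
    have hc : a1_q (D.chi s n) f e = a1_q (D.chi s n) e f :=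
      a1_qsymm (fun i j => a1_csymm hnull n hs i j) f e
    rw [a1_gd1, a1_gd1, hc]
    congr 1
    rw [eq_div_iff (mul_ne_zero two_ne_zero hp)]
    linear_combination (4 * a1_q (D.chi s n) e e ^ 2) * k1 +
      (4 * a1_q (D.chi s n) e e * a1_q (D.chi s n) e f) * k3 +
      (4 * a1_q (D.chi s n) e e * a1_q (D.chi s n) e f) * k2 +
      (4 * a1_q (D.chi s n) e f ^ 2) * k4
  · intro s hs
    refine (a1_dd hD h e f hs).congr_deriv ?_
    obtain ⟨k1, k2, k3, k4⟩ := hent s hs
    have hp := (hdp s hs.le).ne'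
    rw [a1_gd1, a1_gd1, a1_gd1]
    congr 1
    rw [eq_div_iff (mul_ne_zero two_ne_zero hp)]
    linear_combination (4 * a1_q (D.chi s n) e e * a1_q (D.chi s n) e f) * k1 +
      (4 * a1_q (D.chi s n) e e * a1_q (D.chi s n) f f) * k3 +
      (4 * a1_q (D.chi s n) e f ^ 2) * k2 +
      (4 * a1_q (D.chi s n) e f * a1_q (D.chi s n) f f) * k4
  · intro s hs
    refine (a1_dd hD h f f hs).congr_deriv ?_
    obtain ⟨k1, k2, k3, k4⟩ := hent s hs
    have hp := (hdp s hs.le).ne'
    have hc : a1_q (D.chi s n) f e = a1_q (D.chi s n) e f :=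
      a1_qsymm (fun i j => a1_csymm hnull n hs i j) f e
    rw [a1_gd1, a1_gd1, hc]
    congr 1
    rw [eq_div_iff (mul_ne_zero two_ne_zero hp)]
    linear_combination (4 * a1_q (D.chi s n) e f ^ 2) * k1 +
      (4 * a1_q (D.chi s n) e f * a1_q (D.chi s n) f f) * k3 +
      (4 * a1_q (D.chi s n) f f * a1_q (D.chi s n) e f) * k2 +
      (4 * a1_q (D.chi s n) f f ^ 2) * k4
  · intro s hs
    have h1 := hasy e e he1 he1 hen s hs
    rwa [hsee, mul_one] at h1
  · intro s hs
    have h1 := hasy e f he1 hf1 hen s hs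
    rwa [hef, mul_zero, sub_zero] at h1
  · intro s hs
    have h1 := hasy f f hf1 hf1 hfn s hs
    rwa [hsff, mul_one] at h1

end NullQ
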