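import Pool.Agent.Lib.H74Q.Eig

set_option autoImplicit false

/-!
Chunk A2 (M). The metric is diagonal in a fixed basis.
Proof. `Δ = E H - F^2`, `r = sqrt Δ`. `K1 = (H E1 - E H1)/(4 r)`, `K2 = (H F1 - F H1)/(2 r)`, `K3 = (E F1 - F E1)/(2 r)` have derivative `0` for `s > 0`: with `w = H F1 - F H1` one has `w' = w Δ'/(2 Δ)` (insert `Fdd`, `Hdd`; `field_simp; ring`),
`r' = Δ'/(2 r)`; same for the others. So they are constants `k1, k2, k3` on `(0,∞)`. Identity `E K2 - H K3 = 2 F K1`. Divide by `s^2` and let `s → ∞` (`Ea`, `Fa`, `Ha`): `k2 = k3`; so `k2 (E - H) = 2 F k1` for all `s > 0`.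
If `(k1, k2) ≠ 0`, `ρ = sqrt (k1^2 + k2^2)`: choose `c, σ` with `c^2 + σ^2 = 1`, `c^2 - σ^2 = k1/ρ`, `2 c σ = k2/ρ` (`c = cos (θ/2)`, `σ = sin (θ/2)` for `cos θ = k1/ρ`, `sin θ = k2/ρ`; or `c = sqrt((1 + k1/ρ)/2)`, `σ = ± sqrt ((1 - k1/ρ)/2)`).
Then `c σ (H - E) + (c^2 - σ^2) F = 0` for `s > 0`, and by continuity for `s = 0`. If `k1 = k2 = 0`: `(F/E)' = (E F1 - F E1)/E^2 = 0`, so `F = κ E` on `(0,∞)`, `κ = 0` by `Ea`, `Fa`; take `c = 1`, `σ = 0`.
-/

open MeasureTheory Filter Topology Set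

namespace NullQ

theorem a2_const {f : ℝ → ℝ} (hd : ∀ s, 0 < s → HasDerivAt f 0 s) {s s' : ℝ} (hs : 0 < s)
    (hs' : 0 < s') : f s = f s' := by
  refine IsOpen.is_const_of_deriv_eq_zero (𝕜 := ℝ) (s := Ioi (0 : ℝ)) isOpen_Ioi isPreconnected_Ioi ?_ ?_ hs hs'
  · intro x hx
    exact (hd x hx).differentiableAt.differentiableWithinAt
  · intro x hx
    exact (hd x hx).deriv

theorem a2_lim {x M : ℝ} (h : ∀ s : ℝ, 1 ≤ s → |x| * s ^ 2 ≤ M * s) : x = 0 := by
  by_contra hx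
  have h0 : 0 < |x| := abs_pos.2 hx
  have h1 : (1 : ℝ) ≤ max 1 (M / |x| + 1) := le_max_left _ _
  have h2 := h _ h1
  set s := max 1 (M / |x| + 1)
  have hs : 0 < s := by linarith
  have h3 : |x| * s ≤ M := by
    have h4 : |x| * s * s ≤ M * s := by
      calc |x| * s * s = |x| * s ^ 2 := by ring
        _ ≤ M * s := h2
    exact le_of_mul_le_mul_right h4 hs
  have h5 : M / |x| + 1 ≤ s := le_max_right _ _
  have h6 : |x| * (M / |x| + 1) ≤ |x| * s := mul_le_mul_of_nonneg_left h5 h0.le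
  have h7 : |x| * (M / |x| + 1) = M + |x| := by
    field_simp
  linarith

theorem a2_K {C : ℝ} {m E F H E1 F1 H1 : ℝ → ℝ} (h : Q2 C m E F H E1 F1 H1) {w : ℝ → ℝ} {s : ℝ}
    (hs : 0 < s) (hw : HasDerivAt w (w s * (E1 s * H s + E s * H1 s - 2 * F s * F1 s) /
      (2 * (E s * H s - F s ^ 2))) s) :
    HasDerivAt (fun s => w s / √(E s * H s - F s ^ 2)) 0 s := by
  have hp := h.dp s hs.le
  have hΔ : HasDerivAt (fun s => E s * H s - F s ^ 2)
      (E1 s * H s + E s * H1 s - 2 * F s * F1 s) s := by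
    have h1 := ((h.Ed s hs).mul (h.Hd s hs)).sub ((h.Fd s hs).pow 2)
    refine h1.congr_deriv ?_
    push_cast
    ring
  have hr := hΔ.sqrt hp.ne'
  have hrp : 0 < √(E s * H s - F s ^ 2) := Real.sqrt_pos.2 hp
  have hq := hw.div hr hrp.ne'
  refine hq.congr_deriv ?_
  have hsq : √(E s * H s - F s ^ 2) ^ 2 = E s * H s - F s ^ 2 := Real.sq_sqrt hp.le
  set r := √(E s * H s - F s ^ 2)
  rw [← hsq]
  field_simp
  ring

theorem diag {C : ℝ} {m E F H E1 F1 H1 : ℝ → ℝ} (h : Q2 C m E F H E1 F1 H1) : ∃ c σ : ℝ, c ^ 2 + σ ^ 2 = 1 ∧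
    ∀ s, 0 ≤ s → c * σ * (H s - E s) + (c ^ 2 - σ ^ 2) * F s = 0 := by
  let r : ℝ → ℝ := fun s => √(E s * H s - F s ^ 2)
  have hr : ∀ s, 0 ≤ s → 0 < r s := fun s hs => Real.sqrt_pos.2 (h.dp s hs)
  have hd1 : ∀ s, 0 < s → HasDerivAt (fun s => (H s * E1 s - E s * H1 s) / r s) 0 s := by
    intro s hs
    apply a2_K h hs
    have h1 := ((h.Hd s hs).mul (h.Edd s hs)).sub ((h.Ed s hs).mul (h.Hdd s hs))
    refine h1.congr_deriv ?_
    have hp := (h.dp s hs.le).ne'
    field_simp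
    ring
  have hd2 : ∀ s, 0 < s → HasDerivAt (fun s => (H s * F1 s - F s * H1 s) / r s) 0 s := by
    intro s hs
    apply a2_K h hs
    have h1 := ((h.Hd s hs).mul (h.Fdd s hs)).sub ((h.Fd s hs).mul (h.Hdd s hs))
    refine h1.congr_deriv ?_
    have hp := (h.dp s hs.le).ne'
    field_simp
    ring
  have hd3 : ∀ s, 0 < s → HasDerivAt (fun s => (E s * F1 s - F s * E1 s) / r s) 0 s := by
    intro s hs
    apply a2_K h hs
    have h1 := ((h.Ed s hs).mul (h.Fdd s hs)).sub ((h.Fd s hs).mul (h.Edd s hs))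
    refine h1.congr_deriv ?_
    have hp := (h.dp s hs.le).ne'
    field_simp
    ring
  obtain ⟨k1, hk1⟩ : ∃ k1, ∀ s, 0 < s → (H s * E1 s - E s * H1 s) / r s = k1 :=
    ⟨_, fun s hs => a2_const hd1 hs one_pos⟩
  obtain ⟨k2, hk2⟩ : ∃ k2, ∀ s, 0 < s → (H s * F1 s - F s * H1 s) / r s = k2 :=
    ⟨_, fun s hs => a2_const hd2 hs one_pos⟩
  obtain ⟨k3, hk3⟩ : ∃ k3, ∀ s, 0 < s → (E s * F1 s - F s * E1 s) / r s = k3 :=
    ⟨_, fun s hs => a2_const hd3 hs one_pos⟩
  have hid : ∀ s, 0 < s → E s * k2 - H s * k3 = F s * k1 := by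
    intro s hs
    rw [← hk1 s hs, ← hk2 s hs, ← hk3 s hs]
    have := (hr s hs.le).ne'
    field_simp
    ring
  have hk23 : k2 = k3 := by
    have h1 : k2 - k3 = 0 := by
      apply a2_lim (M := C * (|k1| + |k2| + |k3|))
      intro s hs
      have h2 := hid s (by linarith)
      have h3 : (k2 - k3) * s ^ 2 = F s * k1 - (E s - s ^ 2) * k2 + (H s - s ^ 2) * k3 := by
        linear_combination h2
      have h4 : |k2 - k3| * s ^ 2 = |(k2 - k3) * s ^ 2| := by
        rw [abs_mul, abs_of_nonneg (sq_nonneg s)]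
      rw [h4, h3]
      have hE := h.Ea s hs
      have hF := h.Fa s hs
      have hH := h.Ha s hs
      calc |F s * k1 - (E s - s ^ 2) * k2 + (H s - s ^ 2) * k3|
          ≤ |F s * k1 - (E s - s ^ 2) * k2| + |(H s - s ^ 2) * k3| := abs_add_le _ _
        _ ≤ |F s * k1| + |(E s - s ^ 2) * k2| + |(H s - s ^ 2) * k3| := by
            have := abs_sub (F s * k1) ((E s - s ^ 2) * k2)
            linarith
        _ = |F s| * |k1| + |E s - s ^ 2| * |k2| + |H s - s ^ 2| * |k3| := by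
            rw [abs_mul, abs_mul, abs_mul]
        _ ≤ C * s * |k1| + C * s * |k2| + C * s * |k3| := by gcongr
        _ = C * (|k1| + |k2| + |k3|) * s := by ring
    linarith
  have hid2 : ∀ s, 0 < s → k2 * (E s - H s) = F s * k1 := by
    intro s hs
    have := hid s hs
    rw [← hk23] at this
    linarith
  -- closure to the origin
  have hclos : ∀ c σ : ℝ, (∀ s, 0 < s → c * σ * (H s - E s) + (c ^ 2 - σ ^ 2) * F s = 0) →
      ∀ s, 0 ≤ s → c * σ * (H s - E s) + (c ^ 2 - σ ^ 2) * F s = 0 := by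
    intro c σ hcs s hs
    rcases hs.eq_or_lt with h0 | h0
    · subst h0
      have hcont : ContinuousOn (fun s => c * σ * (H s - E s) + (c ^ 2 - σ ^ 2) * F s) (Ici 0) :=
        (continuousOn_const.mul (h.Hc.sub h.Ec)).add (continuousOn_const.mul h.Fc)
      have h1 : Tendsto (fun s => c * σ * (H s - E s) + (c ^ 2 - σ ^ 2) * F s) (𝓝[>] 0)
          (𝓝 (c * σ * (H 0 - E 0) + (c ^ 2 - σ ^ 2) * F 0)) :=
        (hcont 0 (by simp)).mono_left (nhdsWithin_mono _ Ioi_subset_Ici_self)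
      have h2 : Tendsto (fun s => c * σ * (H s - E s) + (c ^ 2 - σ ^ 2) * F s) (𝓝[>] 0) (𝓝 0) := by
        refine tendsto_const_nhds.congr' ?_
        filter_upwards [self_mem_nhdsWithin] with x hx
        exact (hcs x hx).symm
      exact tendsto_nhds_unique h1 h2
    · exact hcs s h0
  by_cases hk : k1 = 0 ∧ k2 = 0
  · obtain ⟨hk1', hk2'⟩ := hk
    have hw3 : ∀ s, 0 < s → E s * F1 s - F s * E1 s = 0 := by
      intro s hs
      have h1 := hk3 s hs
      rw [← hk23, hk2', div_eq_zero_iff] at h1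
      exact h1.resolve_right (hr s hs.le).ne'
    have hd4 : ∀ s, 0 < s → HasDerivAt (fun s => F s / E s) 0 s := by
      intro s hs
      have hE := (h.Ep s hs.le).ne'
      refine ((h.Fd s hs).div (h.Ed s hs) hE).congr_deriv ?_
      have h1 := hw3 s hs
      have h2 : F1 s * E s - F s * E1 s = 0 := by linarith
      rw [h2, zero_div]
    obtain ⟨κ, hκ⟩ : ∃ κ, ∀ s, 0 < s → F s / E s = κ := ⟨_, fun s hs => a2_const hd4 hs one_pos⟩
    have hFk : ∀ s, 0 < s → F s = κ * E s := by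
      intro s hs
      rw [← hκ s hs, div_mul_cancel₀ _ (h.Ep s hs.le).ne']
    have hκ0 : κ = 0 := by
      apply a2_lim (M := C * (1 + |κ|))
      intro s hs
      have h2 := hFk s (by linarith)
      have h3 : κ * s ^ 2 = F s - κ * (E s - s ^ 2) := by linear_combination -h2
      have h4 : |κ| * s ^ 2 = |κ * s ^ 2| := by
        rw [abs_mul, abs_of_nonneg (sq_nonneg s)]
      rw [h4, h3]
      have hE := h.Ea s hs
      have hF := h.Fa s hs
      calc |F s - κ * (E s - s ^ 2)| ≤ |F s| + |κ * (E s - s ^ 2)| := abs_sub _ _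
        _ = |F s| + |κ| * |E s - s ^ 2| := by rw [abs_mul]
        _ ≤ C * s + |κ| * (C * s) := by gcongr
        _ = C * (1 + |κ|) * s := by ring
    refine ⟨1, 0, by norm_num, hclos 1 0 ?_⟩
    intro s hs
    rw [hFk s hs, hκ0]
    ring
  · let z : ℂ := ⟨k1, 2 * k2⟩
    have hz : z ≠ 0 := by
      intro h0
      apply hk
      have h1 := congrArg Complex.re h0
      have h2 := congrArg Complex.im h0
      have h1' : k1 = 0 := h1
      have h2' : 2 * k2 = 0 := h2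
      exact ⟨h1', by linarith⟩
    have hρ : 0 < ‖z‖ := norm_pos_iff.2 hz
    have hc : Real.cos (2 * (z.arg / 2)) = k1 / ‖z‖ := by
      rw [mul_div_cancel₀ _ (two_ne_zero)]
      exact Complex.cos_arg hz
    have hsn : Real.sin (2 * (z.arg / 2)) = 2 * k2 / ‖z‖ := by
      rw [mul_div_cancel₀ _ (two_ne_zero)]
      exact Complex.sin_arg z
    rw [Real.cos_two_mul'] at hc
    rw [Real.sin_two_mul] at hsn
    refine ⟨Real.cos (z.arg / 2), Real.sin (z.arg / 2), Real.cos_sq_add_sin_sq _, hclos _ _ ?_⟩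
    intro s hs
    rw [hc]
    have h1 : Real.cos (z.arg / 2) * Real.sin (z.arg / 2) = k2 / ‖z‖ := by
      have h2 : 2 * (Real.cos (z.arg / 2) * Real.sin (z.arg / 2)) = 2 * (k2 / ‖z‖) := by
        rw [← mul_div_assoc, ← hsn]
        ring
      linarith
    rw [h1]
    have h3 := hid2 s hs
    field_simp
    linarith

end NullQ
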