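import Pool.Agent.Lib.H74Q.Eig

set_option autoImplicit false

/-!
Chunk A3 (M). The square roots of the eigenvalues.
Proof. `F = 0` on `[0,∞)`, so `F1 = 0` for `s > 0` (unique derivative), `Edd`: `E1' = E1^2/(2 E) - 2 m E`. `p = sqrt E`, `p' = E1/(2 p)`, `p'' = E1'/(2 p) - E1 p'/(2 p^2) = - m p`. Same for `H`.
`p1`: `p'` is nonincreasing on `(0,∞)` (`p'' = - m p <= 0`); if `p' s0 < 1` then `p s <= p s0 + p' s0 (s - s0)` for `s >= s0`, but `p s ^ 2 = E s >= s^2 - C s` gives `p s >= s - C` for `s >= max C 1`: contradiction for large `s`.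
`pK`: for `s >= 1`: `p^2 <= s^2 + C s <= (s + C)^2`; for `s <= 1`: `p s <= p 1 - (1 - s) <= 1 + C - (1 - s)` (`p' >= 1`).
-/

open MeasureTheory Filter Topology Set

namespace NullQ

structure A3One (C : ℝ) (m E E1 : ℝ → ℝ) : Prop where
  C0 : 0 ≤ C
  m0 : ∀ s, 0 < s → 0 ≤ m s
  c : ContinuousOn E (Ici 0)
  p : ∀ s, 0 ≤ s → 0 < E s
  d : ∀ s, 0 < s → HasDerivAt E (E1 s) s
  dd : ∀ s, 0 < s → HasDerivAt E1 (E1 s ^ 2 / (2 * E s) - 2 * m s * E s) s
  a : ∀ s, 1 ≤ s → |E s - s ^ 2| ≤ C * s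

theorem a3_d {C : ℝ} {m E E1 : ℝ → ℝ} (h : A3One C m E E1) {s : ℝ} (hs : 0 < s) :
    HasDerivAt (fun s => Real.sqrt (E s)) (E1 s / (2 * Real.sqrt (E s))) s :=
  (h.d s hs).sqrt (h.p s hs.le).ne'

theorem a3_dd {C : ℝ} {m E E1 : ℝ → ℝ} (h : A3One C m E E1) {s : ℝ} (hs : 0 < s) :
    HasDerivAt (fun s => E1 s / (2 * Real.sqrt (E s))) (-(m s * Real.sqrt (E s))) s := by
  have hp := h.p s hs.le
  have hr : 0 < Real.sqrt (E s) := Real.sqrt_pos.2 hp
  have h1 := (h.dd s hs).div ((a3_d h hs).const_mul 2) (by positivity)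
  refine h1.congr_deriv ?_
  have hsq : Real.sqrt (E s) ^ 2 = E s := Real.sq_sqrt hp.le
  generalize Real.sqrt (E s) = r at hr hsq
  rw [← hsq]
  field_simp
  ring

theorem a3_cont {C : ℝ} {m E E1 : ℝ → ℝ} (h : A3One C m E E1) :
    ContinuousOn (fun s => Real.sqrt (E s)) (Ici 0) :=
  Real.continuous_sqrt.comp_continuousOn h.c

theorem a3_anti {C : ℝ} {m E E1 : ℝ → ℝ} (h : A3One C m E E1) :
    AntitoneOn (fun s => E1 s / (2 * Real.sqrt (E s))) (Ioi 0) := by
  apply antitoneOn_of_deriv_nonpos (convex_Ioi 0)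
  · intro x hx
    exact (a3_dd h hx).continuousAt.continuousWithinAt
  · rw [interior_Ioi]
    intro x hx
    exact (a3_dd h hx).differentiableAt.differentiableWithinAt
  · rw [interior_Ioi]
    intro x hx
    rw [(a3_dd h hx).deriv]
    have h1 := mul_nonneg (h.m0 x hx) (Real.sqrt_nonneg (E x))
    linarith

theorem a3_low {C : ℝ} {m E E1 : ℝ → ℝ} (h : A3One C m E E1) {s : ℝ} (h1 : 1 ≤ s) (hC : C ≤ s) :
    s - C ≤ Real.sqrt (E s) := by
  apply Real.le_sqrt_of_sq_le
  have h2 := (abs_le.1 (h.a s h1)).1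
  nlinarith [mul_nonneg h.C0 (sub_nonneg.2 hC)]

theorem a3_one {C : ℝ} {m E E1 : ℝ → ℝ} (h : A3One C m E E1) {s : ℝ} (hs : 0 < s) :
    1 ≤ E1 s / (2 * Real.sqrt (E s)) := by
  by_contra hlt
  push Not at hlt
  set a := E1 s / (2 * Real.sqrt (E s)) with ha
  have hub : ∀ t, s ≤ t → Real.sqrt (E t) - Real.sqrt (E s) ≤ a * (t - s) := by
    intro t ht
    have h1 := Convex.image_sub_le_mul_sub_of_deriv_le (convex_Ici s)
      (f := fun s => Real.sqrt (E s)) ((a3_cont h).mono (Ici_subset_Ici.2 hs.le)) (by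
        rw [interior_Ici]
        intro x hx
        exact (a3_d h (hs.trans hx)).differentiableAt.differentiableWithinAt) (C := a) (by
        rw [interior_Ici]
        intro x hx
        rw [(a3_d h (hs.trans hx)).deriv]
        exact a3_anti h hs (hs.trans hx) (le_of_lt hx))
    exact h1 s self_mem_Ici t ht ht
  have h1a : 0 < 1 - a := by linarith
  set t := max (max s (max 1 C)) ((Real.sqrt (E s) + C - a * s) / (1 - a) + 1) with ht
  have ht1 : s ≤ t := (le_max_left s _).trans (le_max_left _ _)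
  have ht2 : 1 ≤ t := ((le_max_left 1 C).trans (le_max_right s _)).trans (le_max_left _ _)
  have ht3 : C ≤ t := ((le_max_right 1 C).trans (le_max_right s _)).trans (le_max_left _ _)
  have ht4 : (Real.sqrt (E s) + C - a * s) / (1 - a) + 1 ≤ t := le_max_right _ _
  have h2 := hub t ht1
  have h3 := a3_low h ht2 ht3
  have h4 : (1 - a) * t ≤ Real.sqrt (E s) + C - a * s := by nlinarith
  have h5 : t ≤ (Real.sqrt (E s) + C - a * s) / (1 - a) := by
    rw [le_div_iff₀ h1a]
    linarith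
  linarith

theorem a3_K {C : ℝ} {m E E1 : ℝ → ℝ} (h : A3One C m E E1) {s : ℝ} (hs : 0 ≤ s) :
    Real.sqrt (E s) ≤ s + C := by
  have hbig : ∀ t, 1 ≤ t → Real.sqrt (E t) ≤ t + C := by
    intro t ht
    have h2 := (abs_le.1 (h.a t ht)).2
    have h0 := h.C0
    apply Real.sqrt_le_iff.2
    constructor
    · linarith
    · nlinarith [mul_nonneg h0 (by linarith : (0 : ℝ) ≤ t)]
  rcases le_total 1 s with h1 | h1
  · exact hbig s h1
  · have h2 := Convex.mul_sub_le_image_sub_of_le_deriv (convex_Ici 0)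
      (f := fun s => Real.sqrt (E s)) (a3_cont h) (by
        rw [interior_Ici]
        intro x hx
        exact (a3_d h hx).differentiableAt.differentiableWithinAt) (C := 1) (by
        rw [interior_Ici]
        intro x hx
        rw [(a3_d h hx).deriv]
        exact a3_one h hx) s hs 1 (mem_Ici.2 zero_le_one) h1
    have h3 := hbig 1 le_rfl
    have h4 : 1 * (1 - s) ≤ Real.sqrt (E 1) - Real.sqrt (E s) := h2
    linarith

theorem ry_of {C : ℝ} {m E F H E1 F1 H1 : ℝ → ℝ} (h : Q2 C m E F H E1 F1 H1) (hF : ∀ s, 0 ≤ s → F s = 0) :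
    Ry C m (fun s => Real.sqrt (E s)) (fun s => Real.sqrt (H s)) (fun s => E1 s / (2 * Real.sqrt (E s)))
      (fun s => H1 s / (2 * Real.sqrt (H s))) := by
  have hF1 : ∀ s, 0 < s → F1 s = 0 := by
    intro s hs
    have h1 : HasDerivAt F 0 s := by
      have h2 : HasDerivAt (fun _ : ℝ => (0 : ℝ)) 0 s := hasDerivAt_const s 0
      refine h2.congr_of_eventuallyEq ?_
      filter_upwards [Ioi_mem_nhds hs] with x hx
      exact hF x (le_of_lt hx)
    exact (h.Fd s hs).unique h1
  have hE : A3One C m E E1 :=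
    { C0 := h.C0
      m0 := h.m0
      c := h.Ec
      p := h.Ep
      d := h.Ed
      dd := by
        intro s hs
        refine (h.Edd s hs).congr_deriv ?_
        rw [hF s hs.le, hF1 s hs]
        have h1 := (h.Ep s hs.le).ne'
        have h2 := (h.Hp s hs.le).ne'
        field_simp
        ring
      a := h.Ea }
  have hH : A3One C m H H1 :=
    { C0 := h.C0
      m0 := h.m0
      c := h.Hc
      p := h.Hp
      d := h.Hd
      dd := by
        intro s hs
        refine (h.Hdd s hs).congr_deriv ?_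
        rw [hF s hs.le, hF1 s hs]
        have h1 := (h.Ep s hs.le).ne'
        have h2 := (h.Hp s hs.le).ne'
        field_simp
        ring
      a := h.Ha }
  exact
    { K0 := h.C0
      m0 := h.m0
      pc := a3_cont hE
      qc := a3_cont hH
      pp := fun s hs => Real.sqrt_pos.2 (hE.p s hs)
      qp := fun s hs => Real.sqrt_pos.2 (hH.p s hs)
      pd := fun s hs => a3_d hE hs
      qd := fun s hs => a3_d hH hs
      pdd := fun s hs => a3_dd hE hs
      qdd := fun s hs => a3_dd hH hs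
      p1 := fun s hs => a3_one hE hs
      q1 := fun s hs => a3_one hH hs
      pK := fun s hs => a3_K hE hs
      qK := fun s hs => a3_K hH hs }

end NullQ
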