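import Pool.Agent.Lib.H74Q.A1
import Pool.Agent.Lib.H74Q.A2
import Pool.Agent.Lib.H74Q.A3
import Pool.Agent.Lib.H17U.BF2

set_option autoImplicit false

/-!
Chunk A4 (M). Existence of eigenframes, with a uniform constant.
-/

open MeasureTheory Filter Topology Set
open scoped ContDiff

namespace NullQ

open NullPen (E3 S2 sm proj pd MatterData NullData)

theorem a4_nn (n : S2) : ∑ i, (n : E3) i ^ 2 = 1 := by
  have h : ‖(n : E3)‖ = 1 := by simp
  have h2 := EuclideanSpace.norm_sq_eq (n : E3)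
  rw [h] at h2
  simp only [Real.norm_eq_abs, sq_abs] at h2
  linarith

theorem a4_delta {n : S2} {e f : Fin 3 → ℝ} (h : Onb n e f) (i j : Fin 3) :
    e i * e j + f i * f j + (n : E3) i * (n : E3) j = if i = j then 1 else 0 := by
  have h1 := h.ee
  have h2 := h.ff
  have h3 := h.ef
  have h4 := h.en
  have h5 := h.fn
  have h6 := a4_nn n
  simp only [Fin.sum_univ_three] at h1 h2 h3 h4 h5 h6
  set Q : Matrix (Fin 3) (Fin 3) ℝ := Matrix.of ![fun i => e i, fun i => f i, fun i => (n : E3) i] with hQ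
  have hQQ : Q * Q.transpose = 1 := by
    ext a b
    rw [Matrix.mul_apply]
    simp only [Matrix.transpose_apply, Fin.sum_univ_three, hQ, Matrix.of_apply]
    fin_cases a <;> fin_cases b <;> simp <;> linarith
  have hQ2 : Q.transpose * Q = 1 := mul_eq_one_comm.1 hQQ
  have h7 := congrFun (congrFun hQ2 i) j
  rw [Matrix.mul_apply, Matrix.one_apply] at h7
  rw [← h7]
  simp only [Matrix.transpose_apply, Fin.sum_univ_three, hQ, Matrix.of_apply]
  simp

theorem proj_ef {n : S2} {e f : Fin 3 → ℝ} (h : Onb n e f) (i j : Fin 3) : proj n i j = e i * e j + f i * f j := by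
  unfold proj
  rw [← a4_delta h i j]
  ring

theorem a4_exp {n : S2} {e f : Fin 3 → ℝ} (h : Onb n e f) (v : Fin 3 → ℝ) (i : Fin 3) :
    v i = e i * (∑ k, e k * v k) + f i * (∑ k, f k * v k) + (n : E3) i * ∑ k, (n : E3) k * v k := by
  have e1 : v i = ∑ k, (if i = k then 1 else 0) * v k := by simp
  rw [e1, Finset.mul_sum, Finset.mul_sum, Finset.mul_sum, ← Finset.sum_add_distrib, ← Finset.sum_add_distrib]
  refine Finset.sum_congr rfl fun k _ => ?_
  rw [← a4_delta h i k]
  ring

theorem a4_onb (n : S2) : ∃ a b : Fin 3 → ℝ, Onb n a b := by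
  have hn : ‖(n : E3)‖ = 1 := by simp
  obtain ⟨Q, hQ, hQn⟩ := NullU.NA3_basis hn
  have hQ2 : Q * Q.transpose = 1 := mul_eq_one_comm.1 hQ
  have key : ∀ i j, ∑ k, Q i k * Q j k = if i = j then 1 else 0 := by
    intro i j
    have h7 := congrFun (congrFun hQ2 i) j
    rw [Matrix.mul_apply, Matrix.one_apply] at h7
    exact h7
  refine ⟨fun i => Q 0 i, fun i => Q 1 i, ?_, ?_, ?_, ?_, ?_⟩
  · have := key 0 0
    rw [if_pos rfl] at this
    rw [← this]
    exact Finset.sum_congr rfl fun k _ => by ring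
  · have := key 1 1
    rw [if_pos rfl] at this
    rw [← this]
    exact Finset.sum_congr rfl fun k _ => by ring
  · have := key 0 1
    rw [if_neg (by decide)] at this
    exact this
  · have := key 2 0
    rw [if_neg (by decide)] at this
    rw [← this]
    exact Finset.sum_congr rfl fun k _ => by rw [hQn]
  · have := key 2 1
    rw [if_neg (by decide)] at this
    rw [← this]
    exact Finset.sum_congr rfl fun k _ => by rw [hQn]

theorem a4_gsym {D : MatterData} (hD : D.IsNull) {n : S2} {s : ℝ} (hs : 0 ≤ s) (u v : Fin 3 → ℝ) : gc D n u v s = gc D n v u s := by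
  unfold gc
  rw [Finset.sum_comm]
  refine Finset.sum_congr rfl fun i _ => Finset.sum_congr rfl fun j _ => ?_
  rw [hD.g_symm s hs n j i]
  ring

/-- Expansion of the metric in the basis. -/
theorem a4_g {D : MatterData} (hD : D.IsNull) {n : S2} {e f : Fin 3 → ℝ} (h : Onb n e f) {s : ℝ} (hs : 0 ≤ s)
    (hF : gc D n e f s = 0) (i j : Fin 3) : D.g s n i j = gc D n e e s * (e i * e j) + gc D n f f s * (f i * f j) := by
  have hnl : ∀ j, ∑ i, (n : E3) i * D.g s n i j = 0 := by
    intro j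
    rw [← hD.g_tan s hs n j]
    exact Finset.sum_congr rfl fun k _ => by rw [hD.g_symm s hs n k j]; ring
  -- vectors g e, g f
  have hv : ∀ (u : Fin 3 → ℝ) (i : Fin 3), ∑ l, u l * D.g s n i l = e i * gc D n e u s + f i * gc D n f u s := by
    intro u i
    have h1 := a4_exp h (fun i => ∑ l, u l * D.g s n i l) i
    simp only at h1
    have h2 : ∑ k, (n : E3) k * ∑ l, u l * D.g s n k l = 0 := by
      have : ∑ k, (n : E3) k * ∑ l, u l * D.g s n k l = ∑ l, u l * ∑ k, (n : E3) k * D.g s n k l := by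
        simp only [Finset.mul_sum]
        rw [Finset.sum_comm]
        exact Finset.sum_congr rfl fun k _ => Finset.sum_congr rfl fun l _ => by ring
      rw [this]
      simp [hnl]
    have h3 : ∀ w : Fin 3 → ℝ, ∑ k, w k * ∑ l, u l * D.g s n k l = gc D n w u s := by
      intro w
      unfold gc
      refine Finset.sum_congr rfl fun k _ => ?_
      rw [Finset.mul_sum]
      exact Finset.sum_congr rfl fun l _ => by ring
    rw [h1, h2, h3, h3]
    ring
  have h4 := a4_exp h (fun j => D.g s n i j) j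
  simp only at h4
  have h5 : ∑ k, (n : E3) k * D.g s n i k = 0 := by
    rw [← hD.g_tan s hs n i]
    exact Finset.sum_congr rfl fun k _ => by ring
  have hF' : gc D n f e s = 0 := by rw [a4_gsym hD hs, hF]
  rw [h4, h5, hv e i, hv f i, hF, hF']
  ring

theorem exists_eig {D : MatterData} (hD : D.Quiet) : ∃ K : ℝ, 0 ≤ K ∧ ∀ n : S2, ∃ (e f : Fin 3 → ℝ) (p q dp dq : ℝ → ℝ),
    Eig D n e f p q ∧ Ry K (fun s => D.e s n / 2) p q dp dq := by
  obtain ⟨C, hC, hq⟩ := q2_of hD
  refine ⟨C, hC, fun n => ?_⟩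
  obtain ⟨a, b, hab⟩ := a4_onb n
  obtain ⟨c, σ, hc, hd⟩ := diag (hq n a b hab)
  have k1 := hab.ee
  have k2 := hab.ff
  have k3 := hab.ef
  have k4 := hab.en
  have k5 := hab.fn
  have hef : Onb n (fun i => c * a i + σ * b i) (fun i => -σ * a i + c * b i) := by
    simp only [Fin.sum_univ_three] at k1 k2 k3 k4 k5
    refine ⟨?_, ?_, ?_, ?_, ?_⟩ <;> simp only [Fin.sum_univ_three]
    · linear_combination c ^ 2 * k1 + σ ^ 2 * k2 + 2 * c * σ * k3 + hc
    · linear_combination σ ^ 2 * k1 + c ^ 2 * k2 - 2 * c * σ * k3 + hc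
    · linear_combination (-(c * σ)) * k1 + (c * σ) * k2 + (c ^ 2 - σ ^ 2) * k3
    · linear_combination c * k4 + σ * k5
    · linear_combination (-σ) * k4 + c * k5
  have hF : ∀ s, 0 ≤ s → gc D n (fun i => c * a i + σ * b i) (fun i => -σ * a i + c * b i) s = 0 := by
    intro s hs
    have h1 := hd s hs
    have h2 := a4_gsym hD.null (n := n) hs b a
    have h3 : gc D n (fun i => c * a i + σ * b i) (fun i => -σ * a i + c * b i) s =
        -(c * σ) * gc D n a a s + c ^ 2 * gc D n a b s - σ ^ 2 * gc D n b a s + c * σ * gc D n b b s := by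
      unfold gc
      simp only [Fin.sum_univ_three]
      ring
    rw [h3, h2]
    linear_combination h1
  have hQ := hq n _ _ hef
  have hR := ry_of hQ hF
  refine ⟨_, _, _, _, _, _, ⟨hef, fun s hs i j => ?_⟩, hR⟩
  rw [Real.sq_sqrt (hQ.Ep s hs).le, Real.sq_sqrt (hQ.Hp s hs).le]
  exact a4_g hD.null hef hs (hF s hs) i j

theorem dA_pq {D : MatterData} (hD : D.Quiet) {n : S2} {e f : Fin 3 → ℝ} {K : ℝ} {m p q dp dq : ℝ → ℝ} (h : Eig D n e f p q)
    (hr : Ry K m p q dp dq) {s : ℝ} (hs : 0 ≤ s) : D.dA s n = p s * q s := by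
  have h1 := NullU.da_sq hD.null n hs
  have h2 := h.g s hs
  have k1 := h.ee
  have k2 := h.ff
  have k3 := h.ef
  have e1 : ∑ i, D.g s n i i = p s ^ 2 + q s ^ 2 := by
    simp only [h2]
    simp only [Fin.sum_univ_three] at k1 k2 ⊢
    linear_combination p s ^ 2 * k1 + q s ^ 2 * k2
  have e2 : ∑ i, ∑ j, D.g s n i j ^ 2 = p s ^ 4 + q s ^ 4 := by
    have g1 : ∑ i, ∑ j, D.g s n i j ^ 2 = p s ^ 4 * ((∑ i, e i ^ 2) * ∑ i, e i ^ 2) + q s ^ 4 * ((∑ i, f i ^ 2) * ∑ i, f i ^ 2) +
        2 * p s ^ 2 * q s ^ 2 * ((∑ i, e i * f i) * ∑ i, e i * f i) := by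
      simp only [h2, Fin.sum_univ_three]
      ring
    rw [g1, k1, k2, k3]
    ring
  rw [e1, e2] at h1
  have h3 := NullU.dA_pos hD.null n hs
  have h4 := mul_pos (hr.pp s hs) (hr.qp s hs)
  have h5 : D.dA s n ^ 2 = (p s * q s) ^ 2 := by
    rw [h1]
    ring
  exact (pow_left_inj₀ h3.le h4.le two_ne_zero).1 h5

end NullQ
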