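import Pool.Agent.Lib.H74Q.Ry

set_option autoImplicit false

/-!
Chunk B1 (M). The integral `∫_s^∞ T^{-2}`, `T = p + q`.
Proof. `T' = dp + dq >= 2` for `s > 0` and `T` is continuous on `[0,∞)`, so `T t >= T s + 2 (t - s) > 0` for `0 <= s <= t` (monotonicity of `T t - 2 t`: `NullPen.g1_mono`). So `1/T^2 <= 1/(T s + 2 (t - s))^2`, integrable on `(s,∞)` with integral
`1/(2 T s)` (`If_le`). `T t <= 2 (t + K)` gives `If_ge` (`∫_s^∞ 1/(4 (t+K)^2) = 1/(4 (s+K))`; `0 < s + K` as `0 < p s <= s + K`). `T` is concave (`T'' = - m T <= 0`), so `T' t <= T' s` for `t >= s > 0` and `T t <= T s + T' s (t - s)`: `If_ge'`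
(`∫_s^∞ 1/(T s + T' s (t-s))^2 = 1/(T s T' s)`). `If s = If 0 - ∫_0^s 1/T^2` for `s >= 0` gives continuity and the derivative (`NullPen.g1_int_cont`, `g1_int_der`).
-/

open MeasureTheory Filter Topology Set

namespace NullQ

variable {K : ℝ} {m p q dp dq : ℝ → ℝ} {s : ℝ}

theorem b1_cont (h : Ry K m p q dp dq) : ContinuousOn (fun t => p t + q t) (Ici 0) := h.pc.add h.qc

theorem b1_pos (h : Ry K m p q dp dq) {t : ℝ} (ht : 0 ≤ t) : 0 < p t + q t :=
  add_pos (h.pp t ht) (h.qp t ht)

theorem b1_der (h : Ry K m p q dp dq) {t : ℝ} (ht : 0 < t) :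
    HasDerivAt (fun t => p t + q t) (dp t + dq t) t := (h.pd t ht).add (h.qd t ht)

theorem b1_fc (h : Ry K m p q dp dq) : ContinuousOn (fun t => 1 / (p t + q t) ^ 2) (Ici 0) := by
  refine continuousOn_const.div ((b1_cont h).pow 2) fun t ht => ?_
  exact pow_ne_zero 2 (b1_pos h ht).ne'

theorem b1_int {a b s : ℝ} (ha : 0 < a) (hb : 0 < b) :
    IntegrableOn (fun t => 1 / (a + b * (t - s)) ^ 2) (Ioi s) ∧
      ∫ t in Ioi s, 1 / (a + b * (t - s)) ^ 2 = 1 / (a * b) := by
  have hpos : ∀ t, s ≤ t → 0 < a + b * (t - s) := by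
    intro t ht
    have : 0 ≤ b * (t - s) := mul_nonneg hb.le (by linarith)
    linarith
  have hd : ∀ t ∈ Ici s, HasDerivAt (fun t => -(1 / b) * (a + b * (t - s))⁻¹)
      (1 / (a + b * (t - s)) ^ 2) t := by
    intro t ht
    have h0 := (hpos t ht).ne'
    have h1 : HasDerivAt (fun t => a + b * (t - s)) (b * 1) t :=
      (((hasDerivAt_id t).sub_const s).const_mul b).const_add a
    have h2 := (h1.inv h0).const_mul (-(1 / b))
    have h3 : -(1 / b) * (-(b * 1) / (a + b * (t - s)) ^ 2) = 1 / (a + b * (t - s)) ^ 2 := by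
      field_simp
    rw [h3] at h2
    exact h2
  have hn : ∀ t ∈ Ioi s, 0 ≤ 1 / (a + b * (t - s)) ^ 2 := by
    intro t _
    positivity
  have ht : Tendsto (fun t => -(1 / b) * (a + b * (t - s))⁻¹) atTop (𝓝 0) := by
    have h1 : Tendsto (fun t : ℝ => a + b * (t - s)) atTop atTop := by
      refine tendsto_atTop_add_const_left _ a (Tendsto.const_mul_atTop hb ?_)
      exact tendsto_atTop_add_const_right _ (-s) tendsto_id
    have h2 := (tendsto_inv_atTop_zero.comp h1).const_mul (-(1 / b))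
    rw [mul_zero] at h2
    exact h2
  refine ⟨integrableOn_Ioi_deriv_of_nonneg' hd hn ht, ?_⟩
  rw [integral_Ioi_of_hasDerivAt_of_nonneg' hd hn ht]
  simp only [sub_self, mul_zero, add_zero, zero_sub]
  field_simp

theorem T_ge (h : Ry K m p q dp dq) {t : ℝ} (hs : 0 ≤ s) (hst : s ≤ t) : p s + q s + 2 * (t - s) ≤ p t + q t := by
  have h1 : MonotoneOn (fun t => p t + q t - 2 * t) (Ici 0) := by
    refine NullPen.g1_mono (F' := fun t => dp t + dq t - 2 * 1)
      ((b1_cont h).sub (continuousOn_const.mul continuousOn_id))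
      (fun t ht => (b1_der h ht).sub ((hasDerivAt_id t).const_mul 2)) (fun t ht => ?_)
    have := h.p1 t ht
    have := h.q1 t ht
    linarith
  have h2 := h1 hs (hs.trans hst) hst
  simp only at h2
  linarith

theorem sK_pos (h : Ry K m p q dp dq) (hs : 0 ≤ s) : 0 < s + K :=
  (h.pp s hs).trans_le (h.pK s hs)

theorem If_int (h : Ry K m p q dp dq) (hs : 0 ≤ s) : IntegrableOn (fun t => 1 / (p t + q t) ^ 2) (Ioi s) := by
  refine Integrable.mono' (b1_int (b1_pos h hs) two_pos).1 ?_ ?_
  · refine ContinuousOn.aestronglyMeasurable ?_ measurableSet_Ioi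
    exact (b1_fc h).mono fun t ht => hs.trans (le_of_lt ht)
  · refine ae_restrict_of_forall_mem measurableSet_Ioi fun t ht => ?_
    have ht' : s ≤ t := le_of_lt ht
    have h1 := T_ge h hs ht'
    have h2 := b1_pos h hs
    rw [Real.norm_of_nonneg (by positivity)]
    refine one_div_le_one_div_of_le (by have : 0 ≤ t - s := by linarith
                                        positivity) ?_
    exact pow_le_pow_left₀ (by linarith) h1 2

theorem If_le (h : Ry K m p q dp dq) (hs : 0 ≤ s) : If p q s ≤ 1 / (2 * (p s + q s)) := by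
  have h0 := b1_int (s := s) (b1_pos h hs) two_pos
  rw [mul_comm 2, ← h0.2]
  refine setIntegral_mono_on (If_int h hs) h0.1 measurableSet_Ioi fun t ht => ?_
  have ht' : s ≤ t := le_of_lt ht
  have h1 := T_ge h hs ht'
  have h2 := b1_pos h hs
  refine one_div_le_one_div_of_le (by have : 0 ≤ t - s := by linarith
                                      positivity) ?_
  exact pow_le_pow_left₀ (by linarith) h1 2

theorem b1_ge (h : Ry K m p q dp dq) (hs : 0 ≤ s) {a b : ℝ} (ha : 0 < a) (hb : 0 < b)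
    (hab : ∀ t, s < t → p t + q t ≤ a + b * (t - s)) : 1 / (a * b) ≤ If p q s := by
  have h0 := b1_int (s := s) ha hb
  rw [← h0.2]
  refine setIntegral_mono_on h0.1 (If_int h hs) measurableSet_Ioi fun t ht => ?_
  have h2 := b1_pos h (hs.trans (le_of_lt ht))
  exact one_div_le_one_div_of_le (by positivity) (pow_le_pow_left₀ h2.le (hab t ht) 2)

theorem If_ge (h : Ry K m p q dp dq) (hs : 0 ≤ s) : 1 / (4 * (s + K)) ≤ If p q s := by
  have h0 := sK_pos h hs
  have h1 := b1_ge h hs (a := 2 * (s + K)) (b := 2) (by linarith) two_pos (fun t ht => by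
    have := h.pK t (hs.trans ht.le)
    have := h.qK t (hs.trans ht.le)
    linarith)
  have h2 : 4 * (s + K) = 2 * (s + K) * 2 := by ring
  rw [h2]
  exact h1

theorem b1_anti (h : Ry K m p q dp dq) {t : ℝ} (hs : 0 < s) (hst : s ≤ t) :
    dp t + dq t ≤ dp s + dq s := by
  have hd : ∀ t ∈ Ioi (0 : ℝ), HasDerivAt (fun t => dp t + dq t) (-(m t * p t) + -(m t * q t)) t :=
    fun t ht => (h.pdd t ht).add (h.qdd t ht)
  have h1 : AntitoneOn (fun t => dp t + dq t) (Ioi 0) := by
    refine antitoneOn_of_deriv_nonpos (convex_Ioi 0)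
      (fun t ht => (hd t ht).continuousAt.continuousWithinAt) ?_ ?_
    · intro t ht
      rw [interior_Ioi] at ht
      exact (hd t ht).differentiableAt.differentiableWithinAt
    · intro t ht
      rw [interior_Ioi] at ht
      rw [(hd t ht).deriv]
      have ht0 : 0 < t := ht
      have h3 := mul_nonneg (h.m0 t ht) (h.pp t ht0.le).le
      have h4 := mul_nonneg (h.m0 t ht) (h.qp t ht0.le).le
      linarith
  exact h1 (show s ∈ Ioi 0 from hs) (show t ∈ Ioi 0 from hs.trans_le hst) hst

theorem If_ge' (h : Ry K m p q dp dq) (hs : 0 < s) : 1 / ((p s + q s) * (dp s + dq s)) ≤ If p q s := by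
  have hp1 := h.p1 s hs
  have hq1 := h.q1 s hs
  refine b1_ge h hs.le (b1_pos h hs.le) (by linarith) fun t ht => ?_
  have hd : ∀ t, s ≤ t → HasDerivAt (fun t => (dp s + dq s) * (t - s) - (p t + q t))
      ((dp s + dq s) * 1 - (dp t + dq t)) t := by
    intro t ht
    exact (((hasDerivAt_id t).sub_const s).const_mul _).sub (b1_der h (hs.trans_le ht))
  have h1 : MonotoneOn (fun t => (dp s + dq s) * (t - s) - (p t + q t)) (Ici s) := by
    refine monotoneOn_of_deriv_nonneg (convex_Ici s)
      (fun t ht => (hd t ht).continuousAt.continuousWithinAt) ?_ ?_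
    · intro t ht
      rw [interior_Ici] at ht
      exact (hd t (le_of_lt ht)).differentiableAt.differentiableWithinAt
    · intro t ht
      rw [interior_Ici] at ht
      rw [(hd t (le_of_lt ht)).deriv]
      have := b1_anti h hs (le_of_lt ht)
      linarith
  have h2 := h1 (show s ∈ Ici s from le_refl s) (show t ∈ Ici s from ht.le) ht.le
  simp only [sub_self, mul_zero] at h2
  linarith

theorem If_pos (h : Ry K m p q dp dq) (hs : 0 ≤ s) : 0 < If p q s := by
  have h0 := sK_pos h hs
  exact lt_of_lt_of_le (by positivity) (If_ge h hs)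

theorem b1_eq (h : Ry K m p q dp dq) (hs : 0 ≤ s) :
    If p q s = If p q 0 - ∫ t in (0 : ℝ)..s, 1 / (p t + q t) ^ 2 := by
  have h1 := intervalIntegral.integral_interval_add_Ioi (If_int h le_rfl) (If_int h hs)
  unfold If
  rw [← h1]
  ring

theorem If_cont (h : Ry K m p q dp dq) : ContinuousOn (If p q) (Ici 0) := by
  have h1 : ContinuousOn (fun s => If p q 0 - ∫ t in (0 : ℝ)..s, 1 / (p t + q t) ^ 2) (Ici 0) :=
    continuousOn_const.sub (NullPen.g1_int_cont (b1_fc h))
  exact h1.congr fun s hs => b1_eq h hs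

theorem If_der (h : Ry K m p q dp dq) (hs : 0 < s) : HasDerivAt (If p q) (-(1 / (p s + q s) ^ 2)) s := by
  have h1 := (NullPen.g1_int_der (b1_fc h) hs).const_sub (If p q 0)
  refine h1.congr_of_eventuallyEq ?_
  filter_upwards [lt_mem_nhds hs] with t ht
  exact b1_eq h ht.le

end NullQ
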