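import Mathlib

set_option autoImplicit false

/-!
H74Q, scalar part: functions along a generator. Definitions. See PROOF.md, section 3.
-/

open MeasureTheory Filter Topology Set

namespace NullQ

/-- Clock data on a generator: `z` is nonincreasing with values in `[0,1)`, `t' = 1/(1-z)`. -/
structure ZT (z dz t : ℝ → ℝ) : Prop where
  zc : ContinuousOn z (Ici 0)
  zd : ∀ s, 0 < s → HasDerivAt z (dz s) s
  zm : ∀ s, 0 < s → dz s ≤ 0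
  z0 : ∀ s, 0 ≤ s → 0 ≤ z s
  z1 : ∀ s, 0 ≤ s → z s < 1
  tc : ContinuousOn t (Ici 0)
  td : ∀ s, 0 < s → HasDerivAt t (1 / (1 - z s)) s
  t0 : 0 < t 0

/-- `g = (1-z)^2 (1 + a z)`. -/
def gg (a z : ℝ) : ℝ := (1 - z) ^ 2 * (1 + a * z)

/-- `W = t^{-2} ∫_0^s t (1-z) (1 + a z)`. -/
noncomputable def WW (a : ℝ) (z t : ℝ → ℝ) (s : ℝ) : ℝ :=
  (∫ r in (0 : ℝ)..s, t r * ((1 - z r) * (1 + a * z r))) / t s ^ 2

/-- `P = (g - 2 W) / (1 - z)`. -/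
noncomputable def PP (a : ℝ) (z t : ℝ → ℝ) (s : ℝ) : ℝ := (gg a (z s) - 2 * WW a z t s) / (1 - z s)

/-- `κ`. -/
noncomputable def kap (a : ℝ) (z : ℝ → ℝ) (s : ℝ) : ℝ :=
  ∫ r in (0 : ℝ)..s, z r ^ 2 * (1 - a / 2 + a / 2 * z r) / (1 - z r)

/-- `β`. -/
noncomputable def bet (a : ℝ) (z : ℝ → ℝ) (s : ℝ) : ℝ := ∫ r in (0 : ℝ)..s, (z r + a / 2 * z r ^ 2)

/-- `ϖ`. -/
noncomputable def vph (z : ℝ → ℝ) (s : ℝ) : ℝ := ∫ r in (0 : ℝ)..s, z r ^ 2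

/-- The density `3 P^2 + 2 G P`, `G = (2-a) z + (3/2) a z^2`. -/
noncomputable def cst (a : ℝ) (z t : ℝ → ℝ) (s : ℝ) : ℝ :=
  3 * PP a z t s ^ 2 + 2 * ((2 - a) * z s + 3 / 2 * a * z s ^ 2) * PP a z t s

/-- The density of `R`: with `q = 1 - 2 W`, `π = g - 2 W`, `Y = t 0 / t`:
`((1 - g) q + (1 - Y) π z ((1 + a) - 3 (2 W) / (1 - z))) / (1 - z)`. -/
noncomputable def Rd (a : ℝ) (z t : ℝ → ℝ) (s : ℝ) : ℝ :=
  ((1 - gg a (z s)) * (1 - 2 * WW a z t s) + (1 - t 0 / t s) * (gg a (z s) - 2 * WW a z t s) * z s *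
    ((1 + a) - 3 * (2 * WW a z t s) / (1 - z s))) / (1 - z s)

/-- `R`. -/
noncomputable def RR (a : ℝ) (z t : ℝ → ℝ) (s : ℝ) : ℝ := ∫ r in (0 : ℝ)..s, Rd a z t r

/-- The polynomial of the certificate `S = x (q^(m+1) ((al - be Y) q - c x) + γ q Y)`: `x Tp = A kd + ν bd - r - (S + 2 π ∂_ε S - Y ∂_Y S)`, where
`q = 1 - (1-x) w`, `π = (1-x) ((1-x) (1+a x) - w)`. -/
noncomputable def Tp (a A ν : ℝ) (m : ℕ) (al be c γ x w Y : ℝ) : ℝ :=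
  A * (x * (1 - a / 2 + a / 2 * x)) + ν * ((1 - x) * (1 + a / 2 * x))
    - (((2 - a) + (2 * a - 1) * x - a * x ^ 2) * (1 - (1 - x) * w)
      + (1 - Y) * ((1 - x) * ((1 - x) * (1 + a * x) - w)) * ((1 + a) - 3 * w))
    - (al * (1 - (1 - x) * w) ^ (m + 2) - c * x * (1 - (1 - x) * w) ^ (m + 1)
      - 2 * ((1 - x) * ((1 - x) * (1 + a * x) - w)) *
        (((m : ℝ) + 2) * (al - be * Y) * (1 - (1 - x) * w) ^ (m + 1) - c * ((m : ℝ) + 1) * x * (1 - (1 - x) * w) ^ m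
          + γ * Y))

end NullQ
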