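import Pool.Agent.Lib.H74Q.B1
import Pool.Agent.Lib.H74Q.Sc

set_option autoImplicit false

/-!
Chunk B2 (M). The clock `ϑ`, `ta`, `z` and the constant `b`.
Proof. `T = p + q`. `th_pos`, `th_le` (`If_le`), `th_ge`: `ϑ >= 2 T/(4 (s+K)) >= s/(s+K)` (`If_ge`, `T >= 2 s` by `T_ge`), so `1 - ϑ <= K/(s+K)`. `th_der`: product rule, `If_der`. `dth_nonneg`: `If_ge'`. `dth_der`: `ϑ'' = - m ϑ`:
derivative of `2 T' If - 2/T` is `2 T'' If - 2 T'/T^2 + 2 T'/T^2`. `ta_der`: `ta' = (1/(4 If^2 T^2)) = 1/ϑ^2`. `ta_ge`: `ta >= T/2` (`If_le`), `ta_le`: `If_ge`. `th_ta`: `T = 2 ϑ ta`.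
`b_const`: `F = (p - q)/ϑ`, `F' = w/ϑ^2` with `w = (dp - dq) ϑ - (p - q) dth`, `w' = 0` for `s > 0` (`T'' = -m T`, `ϑ'' = - m ϑ`), so `w` is constant on `(0,∞)`; if `w = c ≠ 0`, then `|F s - F 1| >= |c| (s - 1)` (`ϑ <= 1`), unbounded, but
`|p - q| <= K` (`s <= p, q <= s + K`: `p s >= p 0 + s`) and `ϑ >= s/(s+K) >= 1/(1+K)` for `s >= 1`. So `F' = 0`, and `F` is continuous on `[0,∞)` (`ϑ > 0`): `F = F 0 = 2 b`. `p_eq`, `q_eq`: `p + q = 2 ϑ ta`, `p - q = 2 ϑ b`.
-/

open MeasureTheory Filter Topology Set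

namespace NullQ

variable {K : ℝ} {m p q dp dq : ℝ → ℝ} {s : ℝ}

theorem th_pos (h : Ry K m p q dp dq) (hs : 0 ≤ s) : 0 < thf p q s := by
  unfold thf
  have h1 := b1_pos h hs
  have h2 := If_pos h hs
  positivity

theorem th_le (h : Ry K m p q dp dq) (hs : 0 ≤ s) : thf p q s ≤ 1 := by
  unfold thf
  have h1 := b1_pos h hs
  have h2 := If_le h hs
  calc 2 * (p s + q s) * If p q s ≤ 2 * (p s + q s) * (1 / (2 * (p s + q s))) := by gcongr
    _ = 1 := by field_simp

theorem b2_th_ge (h : Ry K m p q dp dq) (hs : 0 ≤ s) : s / (s + K) ≤ thf p q s := by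
  have h0 := sK_pos h hs
  have h1 := b1_pos h hs
  have h2 := If_ge h hs
  have h3 := T_ge h (s := 0) le_rfl hs
  have h4 := b1_pos h (t := 0) le_rfl
  unfold thf
  calc s / (s + K) = 2 * (2 * s) * (1 / (4 * (s + K))) := by field_simp; ring
    _ ≤ 2 * (p s + q s) * If p q s := by
      have h5 : 2 * s ≤ p s + q s := by linarith
      have h6 : 0 ≤ 1 / (4 * (s + K)) := by positivity
      gcongr

theorem th_ge (h : Ry K m p q dp dq) (hs : 0 ≤ s) : 1 - thf p q s ≤ K / (s + K) := by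
  have h0 := sK_pos h hs
  have h1 := b2_th_ge h hs
  have h2 : s / (s + K) + K / (s + K) = 1 := by field_simp
  linarith

theorem th_cont (h : Ry K m p q dp dq) : ContinuousOn (thf p q) (Ici 0) := by
  unfold thf
  exact (continuousOn_const.mul (b1_cont h)).mul (If_cont h)

theorem th_der (h : Ry K m p q dp dq) (hs : 0 < s) : HasDerivAt (thf p q) (dth p q dp dq s) s := by
  have h1 := ((b1_der h hs).const_mul 2).mul (If_der h hs)
  have h2 := b1_pos h hs.le
  refine h1.congr_deriv ?_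
  unfold dth
  field_simp
  ring

theorem dth_nonneg (h : Ry K m p q dp dq) (hs : 0 < s) : 0 ≤ dth p q dp dq s := by
  have h1 := b1_pos h hs.le
  have h2 := If_ge' h hs
  have h3 := h.p1 s hs
  have h4 := h.q1 s hs
  unfold dth
  have h5 : 2 / (p s + q s) = 2 * (dp s + dq s) * (1 / ((p s + q s) * (dp s + dq s))) := by
    have : dp s + dq s ≠ 0 := by linarith
    field_simp
  rw [h5]
  have h6 : 0 ≤ 2 * (dp s + dq s) := by linarith
  have h7 := mul_le_mul_of_nonneg_left h2 h6
  linarith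

theorem dth_der (h : Ry K m p q dp dq) (hs : 0 < s) : HasDerivAt (dth p q dp dq) (-(m s * thf p q s)) s := by
  have h2 := b1_pos h hs.le
  have h3 := (((h.pdd s hs).add (h.qdd s hs)).const_mul 2).mul (If_der h hs)
  have h4 := (hasDerivAt_const s (2 : ℝ)).div (b1_der h hs) h2.ne'
  refine (h3.sub h4).congr_deriv ?_
  unfold thf
  simp only [Pi.add_apply]
  field_simp
  ring

theorem ta_cont (h : Ry K m p q dp dq) : ContinuousOn (taf p q) (Ici 0) := by
  unfold taf
  refine continuousOn_const.div (continuousOn_const.mul (If_cont h)) fun t ht => ?_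
  have := If_pos h (s := t) ht
  positivity

theorem ta_der (h : Ry K m p q dp dq) (hs : 0 < s) : HasDerivAt (taf p q) (1 / thf p q s ^ 2) s := by
  have h1 := If_pos h hs.le
  have h2 := b1_pos h hs.le
  have h3 := (hasDerivAt_const s (1 : ℝ)).div ((If_der h hs).const_mul 4) (by positivity)
  refine h3.congr_deriv ?_
  unfold thf
  field_simp
  ring

theorem th_ta (h : Ry K m p q dp dq) (hs : 0 ≤ s) : p s + q s = 2 * thf p q s * taf p q s := by
  have h1 := If_pos h hs
  unfold thf taf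
  field_simp
  ring

theorem ta_ge (h : Ry K m p q dp dq) (hs : 0 ≤ s) : (p s + q s) / 2 ≤ taf p q s := by
  have h1 := th_ta h hs
  have h2 := th_le h hs
  have h3 := th_pos h hs
  have h4 := b1_pos h hs
  have h5 : 0 < taf p q s := by
    unfold taf
    have := If_pos h hs
    positivity
  nlinarith

theorem ta_le (h : Ry K m p q dp dq) (hs : 0 ≤ s) : taf p q s ≤ s + K := by
  have h0 := sK_pos h hs
  have h1 := If_pos h hs
  have h2 := If_ge h hs
  unfold taf
  rw [div_le_iff₀ (by positivity)]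
  rw [div_le_iff₀ (by positivity)] at h2
  linarith

theorem b2_lin {y dy : ℝ → ℝ} (hc : ContinuousOn y (Ici 0)) (hd : ∀ s, 0 < s → HasDerivAt y (dy s) s)
    (h1 : ∀ s, 0 < s → 1 ≤ dy s) (h0 : 0 < y 0) (hs : 0 ≤ s) : s ≤ y s := by
  have h2 : MonotoneOn (fun t => y t - t) (Ici 0) :=
    NullPen.g1_mono (F' := fun t => dy t - 1) (hc.sub continuousOn_id)
      (fun t ht => (hd t ht).sub (hasDerivAt_id t)) (fun t ht => by have := h1 t ht; linarith)
  have h3 := h2 (mem_Ici.2 le_rfl) (mem_Ici.2 hs) hs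
  simp only at h3
  linarith

theorem b2_w (h : Ry K m p q dp dq) (hs : 0 < s) :
    HasDerivAt (fun t => (dp t - dq t) * thf p q t - (p t - q t) * dth p q dp dq t) 0 s := by
  have h1 := ((h.pdd s hs).sub (h.qdd s hs)).mul (th_der h hs)
  have h2 := ((h.pd s hs).sub (h.qd s hs)).mul (dth_der h hs)
  refine (h1.sub h2).congr_deriv ?_
  simp only [Pi.sub_apply]
  ring

theorem b2_F (h : Ry K m p q dp dq) (hs : 0 < s) :
    HasDerivAt (fun t => (p t - q t) / thf p q t)
      (((dp s - dq s) * thf p q s - (p s - q s) * dth p q dp dq s) / thf p q s ^ 2) s :=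
  ((h.pd s hs).sub (h.qd s hs)).div (th_der h hs) (th_pos h hs.le).ne'

theorem b2_Fb (h : Ry K m p q dp dq) (hs : 1 ≤ s) :
    |(p s - q s) / thf p q s| ≤ K * (1 + K) := by
  have hs0 : 0 ≤ s := by linarith
  have h1 := b2_lin h.pc h.pd h.p1 (h.pp 0 le_rfl) hs0
  have h2 := b2_lin h.qc h.qd h.q1 (h.qp 0 le_rfl) hs0
  have h3 := h.pK s hs0
  have h4 := h.qK s hs0
  have h5 : |p s - q s| ≤ K := abs_le.2 ⟨by linarith, by linarith⟩
  have h6 := th_pos h hs0
  have h7 := b2_th_ge h hs0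
  have hK := h.K0
  have h8 : 1 / (1 + K) ≤ thf p q s := by
    refine le_trans ?_ h7
    rw [div_le_div_iff₀ (by linarith) (by linarith)]
    nlinarith
  rw [abs_div, abs_of_pos h6, div_le_iff₀ h6]
  have h9 : 1 ≤ (1 + K) * thf p q s := by
    rw [div_le_iff₀ (by linarith)] at h8
    linarith
  calc |p s - q s| ≤ K := h5
    _ = K * 1 := by ring
    _ ≤ K * ((1 + K) * thf p q s) := by gcongr
    _ = K * (1 + K) * thf p q s := by ring

theorem b2_wconst (h : Ry K m p q dp dq) (hs : 0 < s) :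
    (dp s - dq s) * thf p q s - (p s - q s) * dth p q dp dq s =
      (dp 1 - dq 1) * thf p q 1 - (p 1 - q 1) * dth p q dp dq 1 := by
  have h1 : ∀ x ∈ Ioi (0 : ℝ), HasDerivAt
      (fun t => (dp t - dq t) * thf p q t - (p t - q t) * dth p q dp dq t) 0 x := fun x hx =>
    b2_w h hx
  have h2 := (convex_Ioi (0 : ℝ)).is_const_of_fderivWithin_eq_zero (𝕜 := ℝ)
    (f := fun t => (dp t - dq t) * thf p q t - (p t - q t) * dth p q dp dq t)
    (fun x hx => (h1 x hx).differentiableAt.differentiableWithinAt)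
    (fun x hx => by
      rw [fderivWithin_of_isOpen isOpen_Ioi hx]
      have := (h1 x hx).hasFDerivAt.fderiv
      rw [this]
      ext
      simp)
    (mem_Ioi.2 hs) (mem_Ioi.2 one_pos)
  exact h2

theorem b2_w0 (h : Ry K m p q dp dq) :
    (dp 1 - dq 1) * thf p q 1 - (p 1 - q 1) * dth p q dp dq 1 = 0 := by
  by_contra hc
  obtain ⟨c, hcd⟩ : ∃ c, c = (dp 1 - dq 1) * thf p q 1 - (p 1 - q 1) * dth p q dp dq 1 := ⟨_, rfl⟩
  rw [← hcd] at hc
  have hFc : ContinuousOn (fun t => (p t - q t) / thf p q t) (Ici 0) :=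
    (h.pc.sub h.qc).div (th_cont h) fun t ht => (th_pos h ht).ne'
  have hFd : ∀ t, 0 < t → HasDerivAt (fun t => (p t - q t) / thf p q t) (c / thf p q t ^ 2) t := by
    intro t ht
    have := b2_F h ht
    rw [b2_wconst h ht, ← hcd] at this
    exact this
  have hth : ∀ t, 0 < t → 1 ≤ 1 / thf p q t ^ 2 := by
    intro t ht
    have h1 := th_pos h ht.le
    have h2 := th_le h ht.le
    rw [le_div_iff₀ (by positivity)]
    nlinarith
  have hK := h.K0
  rcases lt_or_gt_of_ne hc with hneg | hpos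
  · have h1 : MonotoneOn (fun t => c * t - (p t - q t) / thf p q t) (Ici 0) := by
      refine NullPen.g1_mono (F' := fun t => c * 1 - c / thf p q t ^ 2)
        ((continuousOn_const.mul continuousOn_id).sub hFc)
        (fun t ht => ((hasDerivAt_id t).const_mul c).sub (hFd t ht)) (fun t ht => ?_)
      have h2 := hth t ht
      have h3 : c / thf p q t ^ 2 = c * (1 / thf p q t ^ 2) := by ring
      rw [h3]
      nlinarith
    have hs1 : 1 ≤ 1 + (2 * (K * (1 + K)) + 1) / (-c) := by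
      have : 0 ≤ (2 * (K * (1 + K)) + 1) / (-c) := div_nonneg (by positivity) (by linarith)
      linarith
    have h4 := h1 (mem_Ici.2 (zero_le_one (α := ℝ))) (mem_Ici.2 (zero_le_one.trans hs1)) hs1
    simp only at h4
    have h5 := abs_le.1 (b2_Fb h (s := 1) le_rfl)
    have h6 := abs_le.1 (b2_Fb h hs1)
    have h7 : c * (1 + (2 * (K * (1 + K)) + 1) / (-c)) = c - (2 * (K * (1 + K)) + 1) := by
      have : c ≠ 0 := hc
      field_simp
      ring
    rw [h7] at h4
    linarith [h5.1, h5.2, h6.1, h6.2]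
  · have h1 : MonotoneOn (fun t => (p t - q t) / thf p q t - c * t) (Ici 0) := by
      refine NullPen.g1_mono (F' := fun t => c / thf p q t ^ 2 - c * 1)
        (hFc.sub (continuousOn_const.mul continuousOn_id))
        (fun t ht => (hFd t ht).sub ((hasDerivAt_id t).const_mul c)) (fun t ht => ?_)
      have h2 := hth t ht
      have h3 : c / thf p q t ^ 2 = c * (1 / thf p q t ^ 2) := by ring
      rw [h3]
      nlinarith
    have hs1 : 1 ≤ 1 + (2 * (K * (1 + K)) + 1) / c := by
      have : 0 ≤ (2 * (K * (1 + K)) + 1) / c := div_nonneg (by positivity) (by linarith)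
      linarith
    have h4 := h1 (mem_Ici.2 (zero_le_one (α := ℝ))) (mem_Ici.2 (zero_le_one.trans hs1)) hs1
    simp only at h4
    have h5 := abs_le.1 (b2_Fb h (s := 1) le_rfl)
    have h6 := abs_le.1 (b2_Fb h hs1)
    have h7 : c * (1 + (2 * (K * (1 + K)) + 1) / c) = c + (2 * (K * (1 + K)) + 1) := by
      have : c ≠ 0 := hc
      field_simp
    rw [h7] at h4
    linarith [h5.1, h5.2, h6.1, h6.2]

theorem b_const (h : Ry K m p q dp dq) (hs : 0 ≤ s) : p s - q s = 2 * thf p q s * bf p q := by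
  have hFc : ContinuousOn (fun t => (p t - q t) / thf p q t) (Ici 0) :=
    (h.pc.sub h.qc).div (th_cont h) fun t ht => (th_pos h ht).ne'
  have hFd : ∀ t, 0 < t → HasDerivAt (fun t => (p t - q t) / thf p q t) 0 t := by
    intro t ht
    have := b2_F h ht
    rw [b2_wconst h ht, b2_w0 h, zero_div] at this
    exact this
  have h1 : MonotoneOn (fun t => (p t - q t) / thf p q t) (Ici 0) :=
    NullPen.g1_mono (F' := fun _ => 0) hFc hFd (fun t ht => le_rfl)
  have h2 : MonotoneOn (fun t => -((p t - q t) / thf p q t)) (Ici 0) :=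
    NullPen.g1_mono (F' := fun _ => -0) hFc.neg (fun t ht => (hFd t ht).neg) (fun t ht => by simp)
  have h3 := h1 (mem_Ici.2 le_rfl) (mem_Ici.2 hs) hs
  have h4 := h2 (mem_Ici.2 le_rfl) (mem_Ici.2 hs) hs
  simp only at h3 h4
  have h5 : (p s - q s) / thf p q s = (p 0 - q 0) / thf p q 0 := le_antisymm (by linarith) h3
  have h6 := th_pos h hs
  have h7 := th_pos h (s := 0) le_rfl
  unfold bf
  rw [div_eq_iff h6.ne'] at h5
  rw [h5]
  field_simp

theorem p_eq (h : Ry K m p q dp dq) (hs : 0 ≤ s) : p s = thf p q s * (taf p q s + bf p q) := by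
  have h1 := th_ta h hs
  have h2 := b_const h hs
  linarith

theorem q_eq (h : Ry K m p q dp dq) (hs : 0 ≤ s) : q s = thf p q s * (taf p q s - bf p q) := by
  have h1 := th_ta h hs
  have h2 := b_const h hs
  linarith

end NullQ
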