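import Pool.Agent.Lib.H74Q.B2

set_option autoImplicit false

/-!
Chunk B3 (S/M). The clock data for the scalar part.
Proof. `z = 1 - ϑ^2`, `z' = - 2 ϑ ϑ' <= 0`, `1 - z = ϑ^2`, `0 <= z < 1` (`0 < ϑ <= 1`), `(ta ± b)' = 1/ϑ^2 = 1/(1-z)`, `ta 0 ± b > 0` from `p_eq`, `q_eq` at `s = 0` (`p 0, q 0 > 0`, `ϑ > 0`). `z_le`: `1 - ϑ^2 = (1-ϑ)(1+ϑ) <= 2 (1 - ϑ)`.
`t_lim`: `ta s - s <= K` (`ta_le`), and `|b| <= K`: `ta 0 ± b > 0` gives `|b| < ta 0 <= K`.
-/

open MeasureTheory Filter Topology Set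

namespace NullQ

variable {K : ℝ} {m p q dp dq : ℝ → ℝ} {s : ℝ}

theorem b3_tp (h : Ry K m p q dp dq) : 0 < taf p q 0 + bf p q := by
  have h1 := p_eq h le_rfl
  have h2 := h.pp 0 le_rfl
  rw [h1] at h2
  exact (pos_iff_pos_of_mul_pos h2).1 (th_pos h le_rfl)

theorem b3_tq (h : Ry K m p q dp dq) : 0 < taf p q 0 - bf p q := by
  have h1 := q_eq h le_rfl
  have h2 := h.qp 0 le_rfl
  rw [h1] at h2
  exact (pos_iff_pos_of_mul_pos h2).1 (th_pos h le_rfl)

theorem b3_zc (h : Ry K m p q dp dq) : ContinuousOn (zf p q) (Ici 0) :=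
  continuousOn_const.sub ((th_cont h).pow 2)

theorem b3_zd (h : Ry K m p q dp dq) (hs : 0 < s) :
    HasDerivAt (zf p q) (-(2 * thf p q s * dth p q dp dq s)) s := by
  have h1 := ((th_der h hs).fun_pow 2).const_sub 1
  refine h1.congr_deriv ?_
  norm_num

theorem b3_td (h : Ry K m p q dp dq) (b : ℝ) (hs : 0 < s) :
    HasDerivAt (fun s => taf p q s + b) (1 / (1 - zf p q s)) s := by
  have h1 := (ta_der h hs).add_const b
  refine h1.congr_deriv ?_
  unfold zf
  rw [sub_sub_cancel]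

theorem b3_z0 (h : Ry K m p q dp dq) (hs : 0 ≤ s) : 0 ≤ zf p q s := by
  have h1 := th_pos h hs
  have h2 := th_le h hs
  unfold zf
  nlinarith

theorem b3_z1 (h : Ry K m p q dp dq) (hs : 0 ≤ s) : zf p q s < 1 := by
  have h1 := th_pos h hs
  unfold zf
  nlinarith

theorem b3_zm (h : Ry K m p q dp dq) (hs : 0 < s) :
    -(2 * thf p q s * dth p q dp dq s) ≤ 0 := by
  have h1 := th_pos h hs.le
  have h2 := dth_nonneg h hs
  have h3 : 0 ≤ 2 * thf p q s * dth p q dp dq s := mul_nonneg (by linarith) h2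
  linarith

theorem zt1 (h : Ry K m p q dp dq) :
    ZT (zf p q) (fun s => -(2 * thf p q s * dth p q dp dq s)) (fun s => taf p q s + bf p q) where
  zc := b3_zc h
  zd := fun _ hs => b3_zd h hs
  zm := fun _ hs => b3_zm h hs
  z0 := fun _ hs => b3_z0 h hs
  z1 := fun _ hs => b3_z1 h hs
  tc := (ta_cont h).add continuousOn_const
  td := fun _ hs => b3_td h _ hs
  t0 := b3_tp h

theorem zt2 (h : Ry K m p q dp dq) :
    ZT (zf p q) (fun s => -(2 * thf p q s * dth p q dp dq s)) (fun s => taf p q s - bf p q) where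
  zc := b3_zc h
  zd := fun _ hs => b3_zd h hs
  zm := fun _ hs => b3_zm h hs
  z0 := fun _ hs => b3_z0 h hs
  z1 := fun _ hs => b3_z1 h hs
  tc := (ta_cont h).sub continuousOn_const
  td := fun s hs => by
    have h1 := b3_td h (-(bf p q)) hs
    simpa only [sub_eq_add_neg] using h1
  t0 := b3_tq h

theorem z_le (h : Ry K m p q dp dq) (hs : 0 ≤ s) : zf p q s ≤ 2 * K / (s + K) := by
  have h1 := th_pos h hs
  have h2 := th_le h hs
  have h3 := th_ge h hs
  have h4 : zf p q s ≤ 2 * (1 - thf p q s) := by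
    unfold zf
    nlinarith
  calc zf p q s ≤ 2 * (1 - thf p q s) := h4
    _ ≤ 2 * (K / (s + K)) := by linarith
    _ = 2 * K / (s + K) := by ring

theorem b_le (h : Ry K m p q dp dq) : |bf p q| ≤ K := by
  have h1 := b3_tp h
  have h2 := b3_tq h
  have h3 := ta_le h (le_refl (0 : ℝ))
  rw [abs_le]
  constructor <;> linarith

/-- `dA 0 <= t1 t2`. -/
theorem pq_le (h : Ry K m p q dp dq) : p 0 * q 0 ≤ (taf p q 0 + bf p q) * (taf p q 0 - bf p q) := by
  have h1 := th_pos h (le_refl (0 : ℝ))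
  have h2 := th_le h (le_refl (0 : ℝ))
  have h3 := mul_pos (b3_tp h) (b3_tq h)
  rw [p_eq h le_rfl, q_eq h le_rfl]
  have h4 : thf p q 0 * thf p q 0 ≤ 1 := by nlinarith
  calc thf p q 0 * (taf p q 0 + bf p q) * (thf p q 0 * (taf p q 0 - bf p q)) =
      (thf p q 0 * thf p q 0) * ((taf p q 0 + bf p q) * (taf p q 0 - bf p q)) := by ring
    _ ≤ 1 * ((taf p q 0 + bf p q) * (taf p q 0 - bf p q)) :=
      mul_le_mul_of_nonneg_right h4 h3.le
    _ = _ := one_mul _

end NullQ
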