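import Pool.Agent.Lib.H74Q.Dt
import Pool.Agent.Lib.H74Q.A4
import Pool.Agent.Lib.H74Q.B3

set_option autoImplicit false

/-!
Chunk C1 (M). The clock on a generator.
Proof. `exists_full`: from `exists_eig`, with `dp` replaced by `gd1 D n e e s / (2 p s)` (equal to `dp` for `s > 0`: derivative of `p^2 = gc D n e e`, `NullU.da_gd`; continuous on `[0,∞)` because `chi` is continuous along the generator
(`NullU.da_chic`) and `p > 0`); the fields of `Ry` only involve `s > 0` (`HasDerivAt.congr_of_eventuallyEq`).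
`TT_eq`: `hh = tr g + 2 dA = p^2 + q^2 + 2 p q` (`dA_pq`, `Σ e^2 = Σ f^2 = 1`). `II_eq`: the integrands agree on `(s, ∞)`. `Bo_eq`: `g - (tr g/2) P = ((p^2 - q^2)/2) (e e - f f)` (`proj_ef`), and
`(p^2 - q^2)/(2 (p + q) ϑ) = (p - q)/(2 ϑ) = b` at `s = 0`.
-/

open MeasureTheory Filter Topology Set
open scoped ContDiff

namespace NullQ

open NullPen (E3 S2 sm proj pd MatterData NullData)

variable {D : MatterData} {K : ℝ} {n : S2} {e f : Fin 3 → ℝ} {p q dp dq : ℝ → ℝ} {s : ℝ}

theorem c1_gc_der (hD : D.Quiet) (n : S2) (u : Fin 3 → ℝ) (s : ℝ) :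
    HasDerivAt (gc D n u u) (gd1 D n u u s) s := by
  have h : ∀ i j : Fin 3, HasDerivAt (fun t => D.g t n i j * u i * u j)
      (2 * D.chi s n i j * u i * u j) s := fun i j =>
    ((NullU.da_gd hD.null n s i j).mul_const (u i)).mul_const (u j)
  exact HasDerivAt.fun_sum fun i _ => HasDerivAt.fun_sum fun j _ => h i j

theorem c1_gd1_cont (hD : D.Quiet) (n : S2) (u : Fin 3 → ℝ) : Continuous (gd1 D n u u) := by
  unfold gd1
  refine continuous_finsetSum _ fun i _ => continuous_finsetSum _ fun j _ => ?_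
  have h : Continuous (fun s : ℝ => D.chi s n i j) :=
    (NullU.da_chic hD.null i j).comp (continuous_id.prodMk (continuous_const (y := n)))
  exact ((continuous_const.mul h).mul continuous_const).mul continuous_const

theorem c1_gc_e (h : Eig D n e f p q) (hs : 0 ≤ s) : gc D n e e s = p s ^ 2 := by
  unfold gc
  have h1 := h.ee
  have h2 := h.ef
  simp only [h.g s hs, Fin.sum_univ_three] at h1 h2 ⊢
  have e1 : (p s ^ 2 * (e 0 * e 0) + q s ^ 2 * (f 0 * f 0)) * e 0 * e 0 +
      (p s ^ 2 * (e 0 * e 1) + q s ^ 2 * (f 0 * f 1)) * e 0 * e 1 +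
      (p s ^ 2 * (e 0 * e 2) + q s ^ 2 * (f 0 * f 2)) * e 0 * e 2 +
      ((p s ^ 2 * (e 1 * e 0) + q s ^ 2 * (f 1 * f 0)) * e 1 * e 0 +
      (p s ^ 2 * (e 1 * e 1) + q s ^ 2 * (f 1 * f 1)) * e 1 * e 1 +
      (p s ^ 2 * (e 1 * e 2) + q s ^ 2 * (f 1 * f 2)) * e 1 * e 2) +
      ((p s ^ 2 * (e 2 * e 0) + q s ^ 2 * (f 2 * f 0)) * e 2 * e 0 +
      (p s ^ 2 * (e 2 * e 1) + q s ^ 2 * (f 2 * f 1)) * e 2 * e 1 +
      (p s ^ 2 * (e 2 * e 2) + q s ^ 2 * (f 2 * f 2)) * e 2 * e 2) =
      p s ^ 2 * (e 0 ^ 2 + e 1 ^ 2 + e 2 ^ 2) ^ 2 +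
        q s ^ 2 * (e 0 * f 0 + e 1 * f 1 + e 2 * f 2) ^ 2 := by ring
  rw [e1, h1, h2]
  ring

theorem c1_swap (h : Eig D n e f p q) : Eig D n f e q p where
  ee := h.ff
  ff := h.ee
  ef := by
    rw [← h.ef]
    exact Finset.sum_congr rfl fun i _ => mul_comm _ _
  en := h.fn
  fn := h.en
  g := fun s hs i j => by rw [h.g s hs i j]; ring

theorem c1_dp (hD : D.Quiet) (h : Eig D n e f p q) (hp : 0 < p s) (hd : HasDerivAt p (dp s) s)
    (hs : 0 < s) : gd1 D n e e s / (2 * p s) = dp s := by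
  have h1 : HasDerivAt (fun t => p t ^ 2) (gd1 D n e e s) s := by
    refine (c1_gc_der hD n e s).congr_of_eventuallyEq ?_
    filter_upwards [lt_mem_nhds hs] with t ht
    exact (c1_gc_e h (le_of_lt ht)).symm
  have h2 := hd.fun_pow 2
  have h3 := h1.unique h2
  rw [h3]
  field_simp
  norm_num
  try ring

theorem exists_full (hD : D.Quiet) : ∃ K : ℝ, 0 ≤ K ∧ ∀ n : S2, ∃ (e f : Fin 3 → ℝ) (p q dp dq : ℝ → ℝ), Full D K n e f p q dp dq := by
  obtain ⟨K, hK, h⟩ := exists_eig hD
  refine ⟨K, hK, fun n => ?_⟩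
  obtain ⟨e, f, p, q, dp, dq, h1, h2⟩ := h n
  have hp : ∀ s, 0 < s → gd1 D n e e s / (2 * p s) = dp s := fun s hs =>
    c1_dp hD h1 (h2.pp s hs.le) (h2.pd s hs) hs
  have hq : ∀ s, 0 < s → gd1 D n f f s / (2 * q s) = dq s := fun s hs =>
    c1_dp hD (c1_swap h1) (h2.qp s hs.le) (h2.qd s hs) hs
  refine ⟨e, f, p, q, fun s => gd1 D n e e s / (2 * p s), fun s => gd1 D n f f s / (2 * q s), ?_⟩
  have hR : Ry K (fun s => D.e s n / 2) p q (fun s => gd1 D n e e s / (2 * p s))
      (fun s => gd1 D n f f s / (2 * q s)) :=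
    { K0 := h2.K0
      m0 := h2.m0
      pc := h2.pc
      qc := h2.qc
      pp := h2.pp
      qp := h2.qp
      pd := fun s hs => by
        have := h2.pd s hs
        rw [← hp s hs] at this
        exact this
      qd := fun s hs => by
        have := h2.qd s hs
        rw [← hq s hs] at this
        exact this
      pdd := fun s hs => by
        refine (h2.pdd s hs).congr_of_eventuallyEq ?_
        filter_upwards [lt_mem_nhds hs] with t ht
        exact hp t ht
      qdd := fun s hs => by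
        refine (h2.qdd s hs).congr_of_eventuallyEq ?_
        filter_upwards [lt_mem_nhds hs] with t ht
        exact hq t ht
      p1 := fun s hs => by
        show 1 ≤ gd1 D n e e s / (2 * p s)
        rw [hp s hs]
        exact h2.p1 s hs
      q1 := fun s hs => by
        show 1 ≤ gd1 D n f f s / (2 * q s)
        rw [hq s hs]
        exact h2.q1 s hs
      pK := h2.pK
      qK := h2.qK }
  exact
    { toEig := h1
      toRy := hR
      cdp := (c1_gd1_cont hD n e).continuousOn.div (continuousOn_const.mul h2.pc)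
        fun s hs => by
          have := h2.pp s hs
          positivity
      cdq := (c1_gd1_cont hD n f).continuousOn.div (continuousOn_const.mul h2.qc)
        fun s hs => by
          have := h2.qp s hs
          positivity }

theorem c1_tr (h : Eig D n e f p q) (hs : 0 ≤ s) : ∑ i, D.g s n i i = p s ^ 2 + q s ^ 2 := by
  have h1 := h.ee
  have h2 := h.ff
  have h3 : ∀ i : Fin 3, D.g s n i i = p s ^ 2 * e i ^ 2 + q s ^ 2 * f i ^ 2 := fun i => by
    rw [h.g s hs i i]
    ring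
  simp only [h3]
  rw [Finset.sum_add_distrib, ← Finset.mul_sum, ← Finset.mul_sum, h1, h2]
  ring

theorem TT_eq (hD : D.Quiet) (h : Full D K n e f p q dp dq) (hs : 0 ≤ s) : TT D s n = p s + q s := by
  have h1 := dA_pq hD h.toEig h.toRy hs
  have h2 := c1_tr h.toEig hs
  have hp := h.pp s hs
  have hq := h.qp s hs
  unfold TT NullU.hh
  rw [h1, h2]
  have e1 : p s ^ 2 + q s ^ 2 + 2 * (p s * q s) = (p s + q s) ^ 2 := by ring
  rw [e1]
  exact Real.sqrt_sq (by linarith)

theorem II_eq (hD : D.Quiet) (h : Full D K n e f p q dp dq) (hs : 0 ≤ s) : II D s n = If p q s := by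
  unfold II If
  refine setIntegral_congr_fun measurableSet_Ioi fun t ht => ?_
  have ht' : 0 ≤ t := hs.trans (le_of_lt ht)
  show 1 / TT D t n ^ 2 = 1 / (p t + q t) ^ 2
  rw [TT_eq hD h ht']

theorem th_eq (hD : D.Quiet) (h : Full D K n e f p q dp dq) (hs : 0 ≤ s) : th D s n = thf p q s := by
  unfold th thf
  rw [TT_eq hD h hs, II_eq hD h hs]

theorem ta_eq (hD : D.Quiet) (h : Full D K n e f p q dp dq) (hs : 0 ≤ s) : ta D s n = taf p q s := by
  unfold ta taf
  rw [II_eq hD h hs]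

theorem zz_eq (hD : D.Quiet) (h : Full D K n e f p q dp dq) (hs : 0 ≤ s) : zz D s n = zf p q s := by
  unfold zz zf
  rw [th_eq hD h hs]

theorem Bo_eq (hD : D.Quiet) (h : Full D K n e f p q dp dq) (i j : Fin 3) :
    Bo D i j n = bf p q * (e i * e j - f i * f j) := by
  have hp := h.pp 0 le_rfl
  have hq := h.qp 0 le_rfl
  have ht := th_pos h.toRy (s := 0) le_rfl
  unfold Bo bf
  rw [TT_eq hD h le_rfl, th_eq hD h le_rfl, c1_tr h.toEig le_rfl, h.g 0 le_rfl i j,
    proj_ef h.toOnb i j]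
  have h1 : p 0 + q 0 ≠ 0 := by linarith
  field_simp
  ring

end NullQ
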