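import Pool.Agent.Lib.H74Q.C1

set_option autoImplicit false

/-!
Chunk C2 (S/M). Uniform facts about the clock. Proof. For each `n` take `exists_full` and translate (`TT_eq`, ...): `th_pos`, `th_le`, `th_ge`, `ta_ge`, `ta_le`, `T_ge` (B1), `b_le`, `pq_le`, `If_pos`. `c2_root`: the root of the metric `(g + dA P)/T`
is `p e e + q f f` (`g = p^2 ee + q^2 ff`, `dA = p q`, `proj_ef`, `T = p + q`), `= ϑ (ta P + Bo)` by `p_eq`, `q_eq`, `Bo_eq`. `c2_Bo`: trace, symmetry, tangency, norm `Σ Bo^2 = 2 b^2`; `c2_t12`: `ta 0^2 - Σ Bo^2/2 = (ta+b)(ta-b) >= p q = dA`.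
`c2_gap`: `0 <= 2 ta - T` and `2 ta - T = 2 (1 - ϑ) ta -> 0` as `s → ∞` for each `n`: the function `T s - 2 s` is nondecreasing and bounded, with a limit `c`; `T t <= 2 t + c`, so `II >= 1/(2 (2 s + c))` and `2 ta <= 2 s + c`; so
`0 <= 2 ta - T <= c - (T - 2 s) → 0`.
-/

open MeasureTheory Filter Topology Set
open scoped ContDiff

namespace NullQ

open NullPen (E3 S2 sm proj pd MatterData NullData)

variable {D : MatterData}

theorem clock (hD : D.Quiet) : ∃ K : ℝ, 0 < K ∧ ∀ s, 0 ≤ s → ∀ n : S2, 0 < TT D s n ∧ 2 * s ≤ TT D s n ∧ TT D s n ≤ 2 * (s + K) ∧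
    0 < II D s n ∧ 0 < th D s n ∧ th D s n ≤ 1 ∧ 1 - th D s n ≤ K / (s + K) ∧ TT D s n ≤ 2 * ta D s n ∧ ta D s n ≤ s + K ∧
    0 ≤ zz D s n ∧ zz D s n < 1 ∧ zz D s n ≤ 2 * K / (s + K) := by
  obtain ⟨K, hK0, hK⟩ := exists_full hD
  refine ⟨K + 1, by linarith, fun s hs n => ?_⟩
  obtain ⟨e, f, p, q, dp, dq, h⟩ := hK n
  have hr := h.toRy
  have hsK := sK_pos hr hs
  have h1 := b1_pos hr hs
  have h2 := T_ge hr (s := 0) le_rfl hs
  have h3 := b1_pos hr (le_refl (0 : ℝ))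
  have h4 := hr.pK s hs
  have h5 := hr.qK s hs
  have hmono : K / (s + K) ≤ (K + 1) / (s + (K + 1)) := by
    rw [div_le_div_iff₀ hsK (by linarith)]
    nlinarith
  rw [TT_eq hD h hs, II_eq hD h hs, th_eq hD h hs, ta_eq hD h hs, zz_eq hD h hs]
  refine ⟨h1, by linarith, by linarith, If_pos hr hs, th_pos hr hs, th_le hr hs,
    (th_ge hr hs).trans hmono, ?_, (ta_le hr hs).trans (by linarith), b3_z0 hr hs, b3_z1 hr hs, ?_⟩
  · have := ta_ge hr hs
    linarith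
  · refine (z_le hr hs).trans ?_
    rw [mul_div_assoc, mul_div_assoc]
    linarith

theorem c2_root (hD : D.Quiet) {s : ℝ} (hs : 0 ≤ s) (n : S2) (i j : Fin 3) :
    (D.g s n i j + D.dA s n * proj n i j) / Real.sqrt ((∑ i, D.g s n i i) + 2 * D.dA s n) =
      th D s n * (ta D s n * proj n i j + Bo D i j n) := by
  obtain ⟨K, hK0, hK⟩ := exists_full hD
  obtain ⟨e, f, p, q, dp, dq, h⟩ := hK n
  have hr := h.toRy
  have h1 := b1_pos hr hs
  have hT : Real.sqrt ((∑ i, D.g s n i i) + 2 * D.dA s n) = p s + q s := TT_eq hD h hs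
  have hp := p_eq hr hs
  have hq := q_eq hr hs
  rw [hT, th_eq hD h hs, ta_eq hD h hs, Bo_eq hD h, h.g s hs, dA_pq hD h.toEig hr hs,
    proj_ef h.toOnb, div_eq_iff h1.ne']
  have e1 : thf p q s * (taf p q s * (e i * e j + f i * f j) + bf p q * (e i * e j - f i * f j)) =
      (thf p q s * (taf p q s + bf p q)) * (e i * e j) + (thf p q s * (taf p q s - bf p q)) * (f i * f j) := by
    ring
  rw [e1, ← hp, ← hq]
  ring

theorem c2_sym (hD : D.Quiet) (n : S2) (i j : Fin 3) : Bo D i j n = Bo D j i n := by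
  obtain ⟨K, hK0, hK⟩ := exists_full hD
  obtain ⟨e, f, p, q, dp, dq, h⟩ := hK n
  rw [Bo_eq hD h, Bo_eq hD h]
  ring

theorem c2_tan (hD : D.Quiet) (n : S2) (i : Fin 3) : ∑ j, Bo D i j n * (n : E3) j = 0 := by
  obtain ⟨K, hK0, hK⟩ := exists_full hD
  obtain ⟨e, f, p, q, dp, dq, h⟩ := hK n
  have h1 : ∀ j, Bo D i j n * (n : E3) j = bf p q * e i * ((n : E3) j * e j) - bf p q * f i * ((n : E3) j * f j) := by
    intro j
    rw [Bo_eq hD h]
    ring
  rw [Finset.sum_congr rfl fun j _ => h1 j, Finset.sum_sub_distrib, ← Finset.mul_sum, ← Finset.mul_sum,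
    h.en, h.fn]
  ring

theorem c2_tr (hD : D.Quiet) (n : S2) : ∑ i, Bo D i i n = 0 := by
  obtain ⟨K, hK0, hK⟩ := exists_full hD
  obtain ⟨e, f, p, q, dp, dq, h⟩ := hK n
  have h1 : ∀ i, Bo D i i n = bf p q * e i ^ 2 - bf p q * f i ^ 2 := by
    intro i
    rw [Bo_eq hD h]
    ring
  rw [Finset.sum_congr rfl fun i _ => h1 i, Finset.sum_sub_distrib, ← Finset.mul_sum, ← Finset.mul_sum,
    h.ee, h.ff]
  ring

theorem c2_t12 (hD : D.Quiet) (n : S2) : D.dA 0 n ≤ ta D 0 n ^ 2 - (∑ i, ∑ j, Bo D i j n ^ 2) / 2 := by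
  obtain ⟨K, hK0, hK⟩ := exists_full hD
  obtain ⟨e, f, p, q, dp, dq, h⟩ := hK n
  have hr := h.toRy
  have h0 : (0 : ℝ) ≤ 0 := le_rfl
  have h1 : ∀ i j, Bo D i j n ^ 2 = bf p q ^ 2 * (e i ^ 2 * e j ^ 2) + bf p q ^ 2 * (f i ^ 2 * f j ^ 2)
      - 2 * bf p q ^ 2 * ((e i * f i) * (e j * f j)) := by
    intro i j
    rw [Bo_eq hD h]
    ring
  have h2 : ∑ i, ∑ j, Bo D i j n ^ 2 = 2 * bf p q ^ 2 := by
    have h3 : ∀ i, ∑ j, Bo D i j n ^ 2 = bf p q ^ 2 * e i ^ 2 + bf p q ^ 2 * f i ^ 2 := by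
      intro i
      rw [Finset.sum_congr rfl fun j _ => h1 i j, Finset.sum_sub_distrib, Finset.sum_add_distrib,
        ← Finset.mul_sum, ← Finset.mul_sum, ← Finset.mul_sum, ← Finset.mul_sum, ← Finset.mul_sum,
        ← Finset.mul_sum, h.ee, h.ff, h.ef]
      ring
    rw [Finset.sum_congr rfl fun i _ => h3 i, Finset.sum_add_distrib, ← Finset.mul_sum, ← Finset.mul_sum,
      h.ee, h.ff]
    ring
  rw [h2, ta_eq hD h h0, dA_pq hD h.toEig hr h0, p_eq hr h0, q_eq hr h0]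
  have h3 := b3_tp hr
  have h4 := b3_tq hr
  have h5 := th_le hr h0
  have h6 := th_pos hr h0
  have h7 : thf p q 0 ^ 2 ≤ 1 := by nlinarith
  have h8 := mul_pos h3 h4
  nlinarith [mul_le_mul_of_nonneg_right h7 h8.le]

theorem c2_gap (hD : D.Quiet) (n : S2) : Tendsto (fun s => 2 * ta D s n - TT D s n) atTop (𝓝 0) := by
  obtain ⟨K, hK0, hK⟩ := exists_full hD
  obtain ⟨e, f, p, q, dp, dq, h⟩ := hK n
  have hr := h.toRy
  have hmono : ∀ s t : ℝ, 0 ≤ s → s ≤ t → p s + q s - 2 * s ≤ p t + q t - 2 * t := by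
    intro s t hs hst
    have := T_ge hr hs hst
    linarith
  have hbd : ∀ s : ℝ, 0 ≤ s → p s + q s - 2 * s ≤ 2 * K := by
    intro s hs
    have := hr.pK s hs
    have := hr.qK s hs
    linarith
  obtain ⟨u, hu⟩ : ∃ u : ℝ → ℝ, u = fun s => p (max s 0) + q (max s 0) - 2 * max s 0 := ⟨_, rfl⟩
  have hum : Monotone u := by
    intro s t hst
    rw [hu]
    exact hmono _ _ (le_max_right _ _) (max_le_max_right 0 hst)
  have hub : BddAbove (range u) := by
    refine ⟨2 * K, ?_⟩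
    rintro _ ⟨s, rfl⟩
    rw [hu]
    exact hbd _ (le_max_right _ _)
  obtain ⟨c, hc⟩ : ∃ c, c = ⨆ s, u s := ⟨_, rfl⟩
  have hlim : Tendsto u atTop (𝓝 c) := by
    rw [hc]
    exact tendsto_atTop_ciSup hum hub
  have hle : ∀ s, 0 ≤ s → p s + q s ≤ 2 * s + c := by
    intro s hs
    have h1 : u s ≤ c := by
      rw [hc]
      exact le_ciSup hub s
    rw [hu] at h1
    simp only [max_eq_left hs] at h1
    linarith
  have hlim2 : Tendsto (fun s => c - u s) atTop (𝓝 0) := by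
    have h1 := hlim.const_sub c
    rw [sub_self] at h1
    exact h1
  refine tendsto_of_tendsto_of_tendsto_of_le_of_le' tendsto_const_nhds hlim2 ?_ ?_
  · filter_upwards [eventually_ge_atTop 0] with s hs
    rw [ta_eq hD h hs, TT_eq hD h hs]
    have := ta_ge hr hs
    linarith
  · filter_upwards [eventually_ge_atTop 0] with s hs
    rw [ta_eq hD h hs, TT_eq hD h hs, hu]
    simp only [max_eq_left hs]
    have h1 := b1_pos hr hs
    have h2 : 0 < 2 * s + c := h1.trans_le (hle s hs)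
    have h3 := b1_ge hr hs h2 two_pos (fun t ht => by
      have := hle t (hs.trans ht.le)
      linarith)
    have h4 := If_pos hr hs
    have h5 : taf p q s ≤ (2 * s + c) / 2 := by
      unfold taf
      rw [div_le_iff₀ (by linarith)]
      rw [div_le_iff₀ (by linarith)] at h3
      nlinarith
    linarith

end NullQ
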