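import Pool.Agent.Lib.H74Q.Eig
import Pool.Agent.Lib.H74Q.Sc
import Pool.Agent.Lib.H74Q.E0

set_option autoImplicit false

/-!
H74Q: the clock function of a null hypersurface and its derivatives along the rotation fields. Definitions. See PROOF.md, section 2.
-/

open MeasureTheory Filter Topology Set
open scoped ContDiff

namespace NullQ

open NullPen (E3 S2 sm proj pd MatterData NullData)
open NullU (rl crs hh)

variable (D : MatterData)

/-- `T = sqrt (tr g + 2 dA)`, the trace of the root of the metric. -/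
noncomputable def TT (s : ℝ) (n : S2) : ℝ := Real.sqrt (hh D s n)

/-- `∫_s^∞ T^{-2}`. -/
noncomputable def II (s : ℝ) (n : S2) : ℝ := ∫ t in Ioi s, 1 / TT D t n ^ 2

/-- `ϑ`. -/
noncomputable def th (s : ℝ) (n : S2) : ℝ := 2 * TT D s n * II D s n

/-- `ta = 1 / (4 ∫_s^∞ T^{-2})`. -/
noncomputable def ta (s : ℝ) (n : S2) : ℝ := 1 / (4 * II D s n)

/-- `z = 1 - ϑ^2`. -/
noncomputable def zz (s : ℝ) (n : S2) : ℝ := 1 - th D s n ^ 2

/-- The constant trace-free tensor: `root of the metric = ϑ (ta P + Bo)`. -/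
noncomputable def Bo (i j : Fin 3) (n : S2) : ℝ :=
  (D.g 0 n i j - (∑ k, D.g 0 n k k) / 2 * proj n i j) / (TT D 0 n * th D 0 n)

/-- Rotation derivative of `T`. -/
noncomputable def rT (j : Fin 3) (s : ℝ) (n : S2) : ℝ := rl j (fun y => hh D s y) n / (2 * TT D s n)

/-- Rotation derivative of `II`. -/
noncomputable def rI (j : Fin 3) (s : ℝ) (n : S2) : ℝ := ∫ t in Ioi s, -(2 * rT D j t n / TT D t n ^ 3)

/-- Rotation derivative of `ϑ`. -/
noncomputable def rth (j : Fin 3) (s : ℝ) (n : S2) : ℝ := 2 * (rT D j s n * II D s n + TT D s n * rI D j s n)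

/-- Rotation derivative of `ta`. -/
noncomputable def rta (j : Fin 3) (s : ℝ) (n : S2) : ℝ := -(rI D j s n / (4 * II D s n ^ 2))

/-- Rotation derivative of `z`. -/
noncomputable def rz (j : Fin 3) (s : ℝ) (n : S2) : ℝ := -(2 * th D s n * rth D j s n)

/-- Rotation derivative of `Bo k l`. -/
noncomputable def rB (j k l : Fin 3) (n : S2) : ℝ :=
  (rl j (fun y => D.g 0 y k l - (∑ i, D.g 0 y i i) / 2 * proj y k l) n -
    Bo D k l n * (rT D j 0 n * th D 0 n + TT D 0 n * rth D j 0 n)) / (TT D 0 n * th D 0 n)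

/-- Gradient: `r × n`, `r` the rotation derivatives. -/
noncomputable def gdv (r : Fin 3 → ℝ) (n : S2) (k : Fin 3) : ℝ := crs r (fun i => (n : E3) i) k

/-- `cc Bo`. -/
noncomputable def cB (n : S2) (k : Fin 3) : ℝ := gdv (fun i => ∑ j, rB D j i j n) n k

/-- `cc` of the root of the metric. -/
noncomputable def DD (s : ℝ) (n : S2) (k : Fin 3) : ℝ :=
  th D s n * (gdv (fun j => rta D j s n) n k + cB D n k) + ta D s n * gdv (fun j => rth D j s n) n k
    - ∑ l, Bo D k l n * gdv (fun j => rth D j s n) n l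

/-- All the data along the generator through `n`. -/
structure Full (D : MatterData) (K : ℝ) (n : S2) (e f : Fin 3 → ℝ) (p q dp dq : ℝ → ℝ) : Prop extends
    Eig D n e f p q, Ry K (fun s => D.e s n / 2) p q dp dq where
  cdp : ContinuousOn dp (Ici 0)
  cdq : ContinuousOn dq (Ici 0)

end NullQ
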