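import Pool.Agent.Lib.H74Q.Dt
import Pool.Agent.Lib.H17U.DA
import Pool.Agent.Lib.H17U.TC0
import Pool.Agent.Lib.H17U.AS2

set_option autoImplicit false

/-!
Chunk E1 (M). Continuity of `T` and of its rotation derivatives.
Proof. `R (s, y) = ((tr g)^2 - Σ g^2)/2` is smooth on `ℝ × E3` (`smooth_g`) and positive at `(s, n)`, `s >= 0`, `n` on the sphere (`NullU.AS2_p`), `dA = sqrt R`, so `y ↦ hh D s y = tr g + 2 sqrt R` is differentiable at `n`
(`Real.sqrt`, `HasFDerivAt.sqrt`), with `rl j hh = rl j (tr g) + rl j R/dA`. These are continuous in `(s, n)` on `[0,∞) × S2`: `rl j` of a smooth function of `(s, y)` is smooth (`NullU.TC0_rlsm`), `dA > 0` (`NullU.dA_pos`, `NullU.dA_cont`). `hh > 0` (`NullU.tr_pos`).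
`hr_TT`: `hr_val` for `hh D s` and `hr_comp` with `Real.sqrt`.
-/

open MeasureTheory Filter Topology Set
open scoped ContDiff

namespace NullQ

open NullPen (E3 S2 sm proj pd MatterData NullData)
open NullU (rl crs hh)

variable {D : MatterData}

theorem E1_smA (hD : D.IsNull) : ContDiff ℝ ∞ (fun p : ℝ × E3 => ∑ i, D.g p.1 p.2 i i) :=
  ContDiff.sum fun i _ => hD.smooth_g i i

theorem E1_smR (hD : D.IsNull) :
    ContDiff ℝ ∞ (fun p : ℝ × E3 => ((∑ i, D.g p.1 p.2 i i) ^ 2 - ∑ i, ∑ k, D.g p.1 p.2 i k ^ 2) / 2) :=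
  (((E1_smA hD).pow 2).sub (ContDiff.sum fun i _ => ContDiff.sum fun k _ => (hD.smooth_g i k).pow 2)).div_const 2

theorem E1_slice {L : ℝ × E3 → ℝ} (hL : ContDiff ℝ ∞ L) (s : ℝ) (y : E3) :
    DifferentiableAt ℝ (fun z => L (s, z)) y := by
  have h1 : ContDiff ℝ ∞ (fun z => L (s, z)) := hL.comp (contDiff_const.prodMk contDiff_id)
  exact (h1.differentiable (by simp)) y

theorem E1_fd (hD : D.IsNull) {s : ℝ} (hs : 0 ≤ s) (n : S2) :
    HasFDerivAt (fun y => hh D s y) (fderiv ℝ (fun y => ∑ i, D.g s y i i) (n : E3) +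
      (2 : ℝ) • ((1 / (2 * D.dA s n)) • fderiv ℝ (fun y => ((∑ i, D.g s y i i) ^ 2 - ∑ i, ∑ k, D.g s y i k ^ 2) / 2) (n : E3)))
      (n : E3) := by
  have h1 := (E1_slice (E1_smA hD) s (n : E3)).hasFDerivAt
  have h2 := (E1_slice (E1_smR hD) s (n : E3)).hasFDerivAt
  have h3 := h2.sqrt (NullU.AS2_p hD hs n).ne'
  exact h1.add (h3.const_mul 2)

theorem hh_pos (hD : D.IsNull) {s : ℝ} (hs : 0 ≤ s) (n : S2) : 0 < hh D s n := by
  have h1 := NullU.tr_pos hD n hs
  have h2 := NullU.dA_pos hD n hs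
  unfold NullU.hh
  linarith

theorem hh_diff (hD : D.IsNull) {s : ℝ} (hs : 0 ≤ s) (n : S2) : DifferentiableAt ℝ (fun y => hh D s y) (n : E3) := by
  exact (E1_fd hD hs n).differentiableAt

/-- Formula for the rotation derivative. -/
theorem rl_hh (hD : D.IsNull) {s : ℝ} (hs : 0 ≤ s) (j : Fin 3) (n : S2) : rl j (fun y => hh D s y) n * D.dA s n =
    rl j (fun y => ∑ i, D.g s y i i) n * D.dA s n + rl j (fun y => ((∑ i, D.g s y i i) ^ 2 - ∑ i, ∑ k, D.g s y i k ^ 2) / 2) n := by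
  have h2 := (NullU.dA_pos hD n hs).ne'
  unfold NullU.rl
  rw [(E1_fd hD hs n).fderiv]
  simp only [_root_.add_apply, _root_.smul_apply, smul_eq_mul]
  field_simp

theorem c_TT (hD : D.IsNull) : ContinuousOn (fun p : ℝ × S2 => TT D p.1 p.2) (Ici 0 ×ˢ univ) := by
  have h1 : ContinuousOn (fun p : ℝ × S2 => hh D p.1 p.2) (Ici 0 ×ˢ univ) := by
    unfold NullU.hh
    refine ContinuousOn.add ?_ ((NullU.dA_cont hD).const_smul (2 : ℝ))
    exact (continuous_finsetSum _ fun i _ => NullU.da_gc hD i i).continuousOn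
  exact Real.continuous_sqrt.comp_continuousOn h1

theorem c_rT (hD : D.IsNull) (j : Fin 3) : ContinuousOn (fun p : ℝ × S2 => rT D j p.1 p.2) (Ici 0 ×ˢ univ) := by
  have hc : ∀ {L : ℝ × E3 → ℝ}, ContDiff ℝ ∞ L →
      Continuous (fun p : ℝ × S2 => rl j (fun z => L (p.1, z)) (p.2 : E3)) := by
    intro L hL
    exact (NullU.TC0_rlsm hL j).continuous.comp (continuous_fst.prodMk (continuous_subtype_val.comp continuous_snd))
  have h1 := hc (E1_smA hD)
  have h2 := hc (E1_smR hD)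
  have h3 : ContinuousOn (fun p : ℝ × S2 => (rl j (fun y => ∑ i, D.g p.1 y i i) p.2 * D.dA p.1 p.2 +
      rl j (fun y => ((∑ i, D.g p.1 y i i) ^ 2 - ∑ i, ∑ k, D.g p.1 y i k ^ 2) / 2) p.2) / D.dA p.1 p.2 /
      (2 * TT D p.1 p.2)) (Ici 0 ×ˢ univ) := by
    refine ((((h1.continuousOn).mul (NullU.dA_cont hD)).add h2.continuousOn).div (NullU.dA_cont hD) ?_).div
      (continuousOn_const.mul (c_TT hD)) ?_
    · intro p hp
      exact (NullU.dA_pos hD p.2 hp.1).ne'
    · intro p hp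
      have h4 := Real.sqrt_pos.2 (hh_pos hD hp.1 p.2)
      unfold TT
      positivity
  refine h3.congr fun p hp => ?_
  have h4 := (NullU.dA_pos hD p.2 hp.1).ne'
  beta_reduce
  unfold rT
  rw [← rl_hh hD hp.1 j p.2, mul_div_cancel_right₀ _ h4]

theorem hr_TT (hD : D.IsNull) {s : ℝ} (hs : 0 ≤ s) : HR (TT D s) (fun j n => rT D j s n) := by
  have h1 : HR (fun n => hh D s n) (fun j n => rl j (fun y => hh D s y) n) := hr_val fun n => hh_diff hD hs n
  have h2 := hr_comp h1 (φ := Real.sqrt) (φ' := fun y => 1 / (2 * Real.sqrt y))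
    (fun n => Real.hasDerivAt_sqrt (hh_pos hD hs n).ne')
  refine hr_congr h2 fun j n => ?_
  unfold rT TT
  ring

end NullQ
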