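import Pool.Agent.Lib.H74Q.E1

set_option autoImplicit false

/-!
Chunk E1B (M). The rotation derivatives of `T` are bounded.
Proof. On `[0,1] × S2`: compactness (`c_rT`). For `s >= 1`: `v = rotv j n` is tangential, `|v| <= 1` (`NullU.AS2_vn`, `AS2_v2`), `rl j F n = fderiv F n v`. `NullU.AS2_K`: `fderiv (g i k) v = s^2 P' i k + O(s)`, `P' = fderiv (proj i k) v = -(v i n k + n i v k)` (`AS2_fproj`), and
`g i k = s^2 P i k + O(s)`; `NullU.AS2_pbound` (with `NullU.AS2_PP1`): `|rl j R| <= C s^3` and `|rl j (tr g)| <= C s` for `R = ((tr g)^2 - Σ g^2)/2`. `dA >= c s^2` (`NullU.AS2_low`), so by `rl_hh` `|rl j hh| <= C' s`. `T >= c' s`: `T^2 = hh >= 2 dA >= 2 c s^2`.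
So `|rT| = |rl j hh|/(2 T) <= C''`. See the proof of `NullU.asy2` in `H17U/AS2.lean`, where exactly this is done. `TT_low`: `T >= c (1 + s)`: for `s >= 1` as above, for `s <= 1` compactness (`T > 0` continuous).
-/

open MeasureTheory Filter Topology Set
open scoped ContDiff

namespace NullQ

open NullPen (E3 S2 sm proj pd MatterData NullData)
open NullU (rl crs hh)

variable {D : MatterData}

theorem e1b_sq (hD : D.IsNull) {s : ℝ} (hs : 0 ≤ s) (n : S2) : TT D s n ^ 2 = hh D s n :=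
  Real.sq_sqrt (hh_pos hD hs n).le

theorem e1b_pos (hD : D.IsNull) {s : ℝ} (hs : 0 ≤ s) (n : S2) : 0 < TT D s n :=
  Real.sqrt_pos.2 (hh_pos hD hs n)

theorem e1b_low (hD : D.IsNull) (hA : D.AsympFlat) : ∃ c : ℝ, 0 < c ∧ ∀ s, 1 ≤ s → ∀ n : S2,
    c * s ^ 2 ≤ D.dA s n ∧ Real.sqrt (4 * c) * s ≤ TT D s n := by
  obtain ⟨C5, hC5, h5⟩ := NullU.asy1 hD hA
  obtain ⟨c, hc, hlow⟩ := NullU.AS2_low hD hC5 fun s hs n => (h5 s hs n).1
  refine ⟨c, hc, fun s hs n => ⟨hlow s hs n, ?_⟩⟩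
  have hs0 : 0 < s := zero_lt_one.trans_le hs
  have htr := NullU.tr_ge hD n hs0.le
  have h1 := hlow s hs n
  refine Real.le_sqrt_of_sq_le ?_
  rw [mul_pow, Real.sq_sqrt (by positivity)]
  unfold hh
  linarith

theorem TT_low (hD : D.IsNull) (hA : D.AsympFlat) : ∃ c : ℝ, 0 < c ∧ ∀ s, 0 ≤ s → ∀ n : S2, c * (1 + s) ≤ TT D s n := by
  obtain ⟨c, hc, hlow⟩ := e1b_low hD hA
  obtain ⟨M, hM⟩ := ((isCompact_Icc (a := (0 : ℝ)) (b := 1)).prod
    (isCompact_univ (X := S2))).exists_bound_of_continuousOn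
    (f := fun p : ℝ × S2 => (TT D p.1 p.2)⁻¹) (((c_TT hD).mono
      (prod_mono_left Icc_subset_Ici_self)).inv₀ (by
      rintro ⟨s, n⟩ ⟨hs, -⟩
      exact (e1b_pos hD hs.1 n).ne'))
  set N : ℝ := max M 1 with hN
  have hN0 : 0 < N := lt_max_of_lt_right one_pos
  have hk0 : 0 < Real.sqrt (4 * c) := Real.sqrt_pos.2 (by positivity)
  refine ⟨min (Real.sqrt (4 * c) / 2) (1 / (2 * N)), lt_min (by positivity) (by positivity), ?_⟩
  intro s hs n
  have hp := e1b_pos hD hs n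
  rcases le_or_gt s 1 with h | h
  · have h1 := hM (s, n) ⟨⟨hs, h⟩, mem_univ _⟩
    rw [Real.norm_of_nonneg (inv_nonneg.2 hp.le)] at h1
    have h2 : (TT D s n)⁻¹ ≤ N := h1.trans (le_max_left _ _)
    have h3 : 1 / N ≤ TT D s n := by
      rw [one_div]
      exact inv_le_of_inv_le₀ hp h2
    refine le_trans ?_ h3
    calc min (Real.sqrt (4 * c) / 2) (1 / (2 * N)) * (1 + s) ≤ 1 / (2 * N) * 2 :=
          mul_le_mul (min_le_right _ _) (by linarith) (by positivity) (by positivity)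
      _ = 1 / N := by field_simp
  · have h1 := (hlow s h.le n).2
    refine le_trans ?_ h1
    calc min (Real.sqrt (4 * c) / 2) (1 / (2 * N)) * (1 + s) ≤ Real.sqrt (4 * c) / 2 * (2 * s) :=
          mul_le_mul (min_le_left _ _) (by linarith) (by positivity) (by positivity)
      _ = Real.sqrt (4 * c) * s := by ring

theorem TT_upp (hD : D.IsNull) (hA : D.AsympFlat) : ∃ C : ℝ, 0 < C ∧ ∀ s, 0 ≤ s → ∀ n : S2, TT D s n ≤ C * (1 + s) := by
  obtain ⟨C5, hC5, h5⟩ := NullU.asy1 hD hA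
  obtain ⟨M, hM⟩ := ((isCompact_Icc (a := (0 : ℝ)) (b := 1)).prod
    (isCompact_univ (X := S2))).exists_bound_of_continuousOn
    (f := fun p : ℝ × S2 => TT D p.1 p.2) ((c_TT hD).mono
      (prod_mono_left Icc_subset_Ici_self))
  refine ⟨|M| + 3 * (1 + C5), by positivity, ?_⟩
  intro s hs n
  have hp := e1b_pos hD hs n
  rcases le_or_gt s 1 with h | h
  · have h1 := hM (s, n) ⟨⟨hs, h⟩, mem_univ _⟩
    rw [Real.norm_of_nonneg hp.le] at h1
    have h2 := le_abs_self M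
    have h3 : 0 ≤ |M| * s := by positivity
    have h4 : 0 ≤ 3 * (1 + C5) * (1 + s) := by positivity
    change TT D s n ≤ M at h1
    nlinarith
  · have hs0 : 0 < s := zero_lt_one.trans h
    have hdp := NullU.dA_pos hD n hs
    obtain ⟨h1, h2⟩ := h5 s h.le n
    have h3 := (abs_le.1 h1).2
    have h4 : Real.sqrt (D.dA s n) ≤ (1 + C5) * s := by nlinarith
    have h5' : D.dA s n ≤ ((1 + C5) * s) ^ 2 := by
      rw [← Real.sq_sqrt hdp.le]
      exact pow_le_pow_left₀ (Real.sqrt_nonneg _) h4 2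
    have h6 : TT D s n ≤ 3 * (1 + C5) * s := by
      refine Real.sqrt_le_iff.2 ⟨by positivity, ?_⟩
      unfold hh
      have h7 : C5 ≤ ((1 + C5) * s) ^ 2 := by
        have h8 : 1 + C5 ≤ (1 + C5) * s := le_mul_of_one_le_right (by positivity) h.le
        nlinarith
      nlinarith
    have h9 : 0 ≤ |M| * (1 + s) := by positivity
    nlinarith

theorem e1b_rlR (hD : D.IsNull) {s : ℝ} (n : S2) (v : E3) :
    fderiv ℝ (fun y => ((∑ i, D.g s y i i) ^ 2 - ∑ i, ∑ k, D.g s y i k ^ 2) / 2) n v =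
    (∑ i, D.g s n i i) * (∑ i, fderiv ℝ (fun y => D.g s y i i) n v) -
      ∑ i, ∑ l, D.g s n i l * fderiv ℝ (fun y => D.g s y i l) n v := by
  have dg := fun i l => NullU.AS2_dg hD s i l (n : E3)
  have dtr : DifferentiableAt ℝ (fun y : E3 => ∑ i, D.g s y i i) n :=
    DifferentiableAt.fun_sum fun i _ => dg i i
  have d2 : DifferentiableAt ℝ (fun y : E3 => ∑ i, ∑ l, D.g s y i l ^ 2) n :=
    DifferentiableAt.fun_sum fun i _ => DifferentiableAt.fun_sum fun l _ => (dg i l).pow 2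
  have d1 : DifferentiableAt ℝ (fun y : E3 => (∑ i, D.g s y i i) ^ 2) n := dtr.pow 2
  have dp : DifferentiableAt ℝ (fun y : E3 => ((∑ i, D.g s y i i) ^ 2 -
      ∑ i, ∑ l, D.g s y i l ^ 2) / 2) n := by
    simp only [div_eq_mul_inv]
    exact (d1.fun_sub d2).mul_const _
  have lg := fun i l => NullU.AS2_line (v := v) (dg i l)
  have ltr : HasDerivAt (fun t : ℝ => ∑ i, D.g s ((n : E3) + t • v) i i)
      (∑ i, fderiv ℝ (fun y => D.g s y i i) n v) 0 := HasDerivAt.fun_sum fun i _ => lg i i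
  have lp : HasDerivAt (fun t : ℝ => ((∑ i, D.g s ((n : E3) + t • v) i i) ^ 2 -
      ∑ i, ∑ l, D.g s ((n : E3) + t • v) i l ^ 2) / 2)
      ((∑ i, D.g s n i i) * (∑ i, fderiv ℝ (fun y => D.g s y i i) n v) -
      ∑ i, ∑ l, D.g s n i l * fderiv ℝ (fun y => D.g s y i l) n v) 0 := by
    have h1 := ((ltr.fun_pow 2).sub (HasDerivAt.fun_sum (u := Finset.univ) fun i _ =>
      HasDerivAt.fun_sum (u := Finset.univ) fun l _ => (lg i l).fun_pow 2)).div_const 2
    refine h1.congr_deriv ?_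
    simp only [zero_smul, add_zero, Nat.cast_ofNat, Nat.add_one_sub_one, pow_one]
    rw [Finset.sum_congr rfl fun i _ => Finset.sum_congr rfl fun l _ =>
      (mul_assoc 2 (D.g s n i l) (fderiv ℝ (fun y => D.g s y i l) n v))]
    simp only [← Finset.mul_sum]
    ring
  exact (NullU.AS2_line (v := v) dp).unique lp

theorem e1b_rltr (hD : D.IsNull) {s : ℝ} (n : S2) (v : E3) :
    fderiv ℝ (fun y => ∑ i, D.g s y i i) n v = ∑ i, fderiv ℝ (fun y => D.g s y i i) n v := by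
  have dg := fun i l => NullU.AS2_dg hD s i l (n : E3)
  have dtr : DifferentiableAt ℝ (fun y : E3 => ∑ i, D.g s y i i) n :=
    DifferentiableAt.fun_sum fun i _ => dg i i
  have lg := fun i l => NullU.AS2_line (v := v) (dg i l)
  have ltr : HasDerivAt (fun t : ℝ => ∑ i, D.g s ((n : E3) + t • v) i i)
      (∑ i, fderiv ℝ (fun y => D.g s y i i) n v) 0 := HasDerivAt.fun_sum fun i _ => lg i i
  exact (NullU.AS2_line (v := v) dtr).unique ltr

theorem rT_bd (hD : D.IsNull) (hA : D.AsympFlat) : ∃ C : ℝ, 0 ≤ C ∧ ∀ j s, 0 ≤ s → ∀ n : S2, |rT D j s n| ≤ C := by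
  obtain ⟨c, hc, hlow⟩ := e1b_low hD hA
  have hAF := hA
  obtain ⟨C', hC'⟩ := hAF
  set C0 : ℝ := |C'| with hC0d
  have hC0 : 0 ≤ C0 := abs_nonneg _
  set C1 : ℝ := 9 * (1 + C0) * C0 + 9 * (3 * C0 + C0 ^ 2) with hC1
  have hC10 : 0 ≤ C1 := by positivity
  set κ : ℝ := Real.sqrt (4 * c) with hκ
  have hκ0 : 0 < κ := Real.sqrt_pos.2 (by positivity)
  have hM : ∀ j : Fin 3, ∃ M : ℝ, ∀ p ∈ Icc (0 : ℝ) 1 ×ˢ (univ : Set S2), ‖rT D j p.1 p.2‖ ≤ M := fun j =>
    ((isCompact_Icc (a := (0 : ℝ)) (b := 1)).prod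
      (isCompact_univ (X := S2))).exists_bound_of_continuousOn
      ((c_rT hD j).mono (prod_mono_left Icc_subset_Ici_self))
  choose M hM using hM
  have hbig : 0 ≤ (3 * C0 + C1 / c) / (2 * κ) := by positivity
  have hMs : ∀ j, |M j| ≤ |M 0| + |M 1| + |M 2| := by
    intro j
    have h0 := abs_nonneg (M 0)
    have h1 := abs_nonneg (M 1)
    have h2 := abs_nonneg (M 2)
    fin_cases j
    · show |M 0| ≤ _
      linarith
    · show |M 1| ≤ _
      linarith
    · show |M 2| ≤ _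
      linarith
  refine ⟨(3 * C0 + C1 / c) / (2 * κ) + (|M 0| + |M 1| + |M 2|), by positivity, ?_⟩
  intro j s hs n
  rcases le_or_gt s 1 with h | h
  · have h1 := hM j (s, n) ⟨⟨hs, h⟩, mem_univ _⟩
    rw [Real.norm_eq_abs] at h1
    change |rT D j s n| ≤ M j at h1
    have h2 := le_abs_self (M j)
    have h3 := hMs j
    linarith
  · have hs1 : 1 ≤ s := h.le
    have hs0 : 0 < s := zero_lt_one.trans h
    have hle : C' * s ≤ C0 * s := mul_le_mul_of_nonneg_right (le_abs_self _) hs0.le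
    have hCs : 0 ≤ C0 * s := mul_nonneg hC0 hs0.le
    have hpos := NullU.dA_pos hD n hs0.le
    obtain ⟨hdlow, hTlow⟩ := hlow s hs1 n
    have hK : ∀ i l, |D.g s n i l - s ^ 2 * proj (n : E3) i l| ≤ C0 * s := fun i l =>
      (hC' s hs1 n i l).1.trans hle
    set v : E3 := NShell.rotv j n with hv
    have hvn : ∑ k, (n : E3) k * v k = 0 := NullU.AS2_vn j n
    have hv2 : ∑ k, v k ^ 2 ≤ 1 := NullU.AS2_v2 j n
    set G : Fin 3 → Fin 3 → ℝ := fun i l => fderiv ℝ (fun y => D.g s y i l) n v with hG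
    set P1 : Fin 3 → Fin 3 → ℝ := fun i l => -(v i * (n : E3) l + (n : E3) i * v l) with hP1
    have hK' : ∀ i l, |G i l - s ^ 2 * P1 i l| ≤ C0 * s := by
      intro i l
      have h1 := NullU.AS2_K hD (C0 := C0) (s := s) n i l (fun w hw1 hw2 =>
        ((hC' s hs1 n i l).2 w hw1 hw2).trans hle) hCs v hvn hv2
      rwa [NullU.AS2_fproj] at h1
    have hP1b : ∀ i l, |P1 i l| ≤ 2 := by
      intro i l
      simp only [hP1, abs_neg]
      refine (abs_add_le _ _).trans ?_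
      rw [abs_mul, abs_mul]
      have h1 := mul_le_one₀ (NullU.AS2_v j n i) (abs_nonneg _) (NullU.AS2_n n l)
      have h2 := mul_le_one₀ (NullU.AS2_n n i) (abs_nonneg _) (NullU.AS2_v j n l)
      linarith
    have htr1 : ∑ i, P1 i i = 0 := by
      rw [Fin.sum_univ_three] at hvn ⊢
      simp only [hP1]
      linear_combination (-2) * hvn
    obtain ⟨hb1, hb2⟩ := NullU.AS2_pbound hs1 hC0 (fun i l => proj (n : E3) i l) P1
      (fun i l => D.g s n i l - s ^ 2 * proj (n : E3) i l) (fun i l => G i l - s ^ 2 * P1 i l)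
      (NullU.AS2_P n) hP1b hK hK' (NullU.AS2_PP1 n v hvn) htr1
    simp only [add_sub_cancel] at hb1 hb2
    have hR : rl j (fun y => ((∑ i, D.g s y i i) ^ 2 - ∑ i, ∑ k, D.g s y i k ^ 2) / 2) n =
        (∑ i, D.g s n i i) * (∑ i, G i i) - ∑ i, ∑ l, D.g s n i l * G i l := e1b_rlR hD n v
    have hT : rl j (fun y => ∑ i, D.g s y i i) n = ∑ i, G i i := e1b_rltr hD n v
    have hmain := rl_hh hD hs0.le j n
    rw [hR, hT] at hmain
    have hb3 : |rl j (fun y => hh D s y) n| ≤ (3 * C0 + C1 / c) * s := by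
      have e1 : rl j (fun y => hh D s y) n = (∑ i, G i i) +
          ((∑ i, D.g s n i i) * (∑ i, G i i) - ∑ i, ∑ l, D.g s n i l * G i l) / D.dA s n := by
        field_simp
        linarith
      rw [e1]
      refine (abs_add_le _ _).trans ?_
      have e2 : |((∑ i, D.g s n i i) * (∑ i, G i i) - ∑ i, ∑ l, D.g s n i l * G i l) / D.dA s n| ≤
          C1 / c * s := by
        rw [abs_div, abs_of_pos hpos, div_le_iff₀ hpos]
        calc |(∑ i, D.g s n i i) * (∑ i, G i i) - ∑ i, ∑ l, D.g s n i l * G i l| ≤ C1 * s ^ 3 := hb1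
          _ = C1 / c * s * (c * s ^ 2) := by field_simp
          _ ≤ C1 / c * s * D.dA s n := mul_le_mul_of_nonneg_left hdlow (by positivity)
      linarith
    have hTp := e1b_pos hD hs0.le n
    have hfin : |rT D j s n| ≤ (3 * C0 + C1 / c) / (2 * κ) := by
      unfold rT
      rw [abs_div, abs_of_pos (by positivity : 0 < 2 * TT D s n), div_le_div_iff₀ (by positivity) (by positivity)]
      have h0 : 0 ≤ 3 * C0 + C1 / c := by positivity
      calc |rl j (fun y => hh D s y) n| * (2 * κ) ≤ (3 * C0 + C1 / c) * s * (2 * κ) :=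
            mul_le_mul_of_nonneg_right hb3 (by positivity)
        _ = (3 * C0 + C1 / c) * (2 * (κ * s)) := by ring
        _ ≤ (3 * C0 + C1 / c) * (2 * TT D s n) := mul_le_mul_of_nonneg_left (by linarith) h0
    have h0 := abs_nonneg (M 0)
    have h1 := abs_nonneg (M 1)
    have h2 := abs_nonneg (M 2)
    linarith

end NullQ
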