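import Pool.Agent.Lib.H74Q.E1B
import Pool.Agent.Lib.H74Q.E0B

set_option autoImplicit false

/-!
Chunk E2 (M). The integral `II` and its rotation derivatives.
Proof. `1/T^2 <= 1/(c^2 (1+s)^2)`, `|2 rT/T^3| <= 2 C/(c^3 (1+s)^3)` (`TT_low`, `rT_bd`), dominated by `B = C'/(1+s)^2`, integrable on `(0,∞)`. `cont_tail`, `hr_tail` (`HR` of `1/T^2`: `hr_comp`, `hr_TT`), `der_tail`. `II_low`, `II_upp`: integrate
`1/(C^2 (1+t)^2) <= 1/T^2 <= 1/(c^2 (1+t)^2)` over `(s,∞)`. `rI_bd`: `∫_s^∞ 2 C/(c^3 (1+t)^3) = C/(c^3 (1+s)^2)`.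
-/

open MeasureTheory Filter Topology Set
open scoped ContDiff

namespace NullQ

open NullPen (E3 S2 sm proj pd MatterData NullData)

variable {D : MatterData}

theorem E2_pow {m : ℕ} (hm : 0 < m) {s : ℝ} (hs : 0 ≤ s) :
    IntegrableOn (fun t : ℝ => 1 / (1 + t) ^ (m + 1)) (Ioi s) ∧
      ∫ t in Ioi s, 1 / (1 + t) ^ (m + 1) = 1 / (m * (1 + s) ^ m) := by
  have hm0 : (m : ℝ) ≠ 0 := Nat.cast_ne_zero.2 hm.ne'
  have hd : ∀ x : ℝ, 0 ≤ x → HasDerivAt (fun t : ℝ => -(1 / (m * (1 + t) ^ m))) (1 / (1 + x) ^ (m + 1)) x := by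
    intro x hx
    have h1 : (1 + x) ≠ 0 := by positivity
    have h2 : HasDerivAt (fun t : ℝ => m * (1 + t) ^ m) (m * (m * (1 + x) ^ (m - 1) * 1)) x :=
      (((hasDerivAt_id x).const_add 1).fun_pow m).const_mul (m : ℝ)
    have h3 : (m * (1 + x) ^ m : ℝ) ≠ 0 := by positivity
    have h4 := ((hasDerivAt_const x (1 : ℝ)).fun_div h2 h3).fun_neg
    refine h4.congr_deriv ?_
    obtain ⟨k, rfl⟩ : ∃ k, m = k + 1 := ⟨m - 1, by omega⟩
    rw [Nat.add_sub_cancel]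
    field_simp
    ring
  have hc : ContinuousWithinAt (fun t : ℝ => -(1 / (m * (1 + t) ^ m))) (Ici s) s :=
    (hd s hs).continuousAt.continuousWithinAt
  have ht : Tendsto (fun t : ℝ => -(1 / (m * (1 + t) ^ m))) atTop (𝓝 0) := by
    have h1 : Tendsto (fun t : ℝ => (m * (1 + t) ^ m : ℝ)) atTop atTop := by
      refine Tendsto.const_mul_atTop (by positivity) ?_
      exact (tendsto_pow_atTop hm.ne').comp (tendsto_atTop_add_const_left _ 1 tendsto_id)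
    have h2 := (h1.inv_tendsto_atTop).neg
    rw [neg_zero] at h2
    refine h2.congr fun t => ?_
    simp
  have hn : ∀ x ∈ Ioi s, (0 : ℝ) ≤ 1 / (1 + x) ^ (m + 1) := by
    intro x hx
    have h0 : 0 < x := lt_of_le_of_lt hs hx
    positivity
  refine ⟨integrableOn_Ioi_deriv_of_nonneg hc (fun x hx => hd x (hs.trans (le_of_lt hx))) hn ht, ?_⟩
  rw [integral_Ioi_of_hasDerivAt_of_nonneg hc (fun x hx => hd x (hs.trans (le_of_lt hx))) hn ht]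
  ring

theorem E2_K (K : ℝ) : IntegrableOn (fun t : ℝ => K / (1 + t) ^ 2) (Ioi 0) := by
  have h := ((E2_pow (m := 1) one_pos le_rfl).1).const_mul K
  have e : (fun t : ℝ => K / (1 + t) ^ 2) = fun t => K * (1 / (1 + t) ^ (1 + 1)) := by
    funext t
    ring
  rw [e]
  exact h

theorem E2_TT (hD : D.IsNull) {s : ℝ} (hs : 0 ≤ s) (n : S2) : 0 < TT D s n :=
  Real.sqrt_pos.2 (hh_pos hD hs n)

theorem E2_cF (hD : D.IsNull) : ContinuousOn (fun p : ℝ × S2 => 1 / TT D p.1 p.2 ^ 2) (Ici 0 ×ˢ univ) :=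
  continuousOn_const.div ((c_TT hD).pow 2) fun p hp => pow_ne_zero 2 (E2_TT hD hp.1 p.2).ne'

theorem E2_cF' (hD : D.IsNull) (j : Fin 3) :
    ContinuousOn (fun p : ℝ × S2 => -(2 * rT D j p.1 p.2 / TT D p.1 p.2 ^ 3)) (Ici 0 ×ˢ univ) :=
  ((continuousOn_const.mul (c_rT hD j)).div ((c_TT hD).pow 3) fun p hp =>
    pow_ne_zero 3 (E2_TT hD hp.1 p.2).ne').neg

theorem E2_hr (hD : D.IsNull) {t : ℝ} (ht : 0 ≤ t) :
    HR (fun n => 1 / TT D t n ^ 2) (fun j n => -(2 * rT D j t n / TT D t n ^ 3)) := by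
  have h2 := hr_comp (hr_TT hD ht) (φ := fun y => 1 / y ^ 2) (φ' := fun y => -(2 / y ^ 3)) (fun n => ?_)
  · refine hr_congr h2 fun j n => ?_
    ring
  · have h0 := (E2_TT hD ht n).ne'
    have h4 : HasDerivAt (fun y : ℝ => y ^ 2) (2 * TT D t n) (TT D t n) := by
      have h5 := (hasDerivAt_id (TT D t n)).fun_pow 2
      refine h5.congr_deriv ?_
      simp
    have h3 := (hasDerivAt_const (TT D t n) (1 : ℝ)).fun_div h4 (pow_ne_zero 2 h0)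
    refine h3.congr_deriv ?_
    field_simp
    ring

theorem E2_F3 (hD : D.IsNull) (hA : D.AsympFlat) : ∃ K : ℝ, 0 ≤ K ∧ ∀ j t, 0 ≤ t → ∀ n : S2,
    |-(2 * rT D j t n / TT D t n ^ 3)| ≤ K / (1 + t) ^ 3 := by
  obtain ⟨c, hc, hcT⟩ := TT_low hD hA
  obtain ⟨C, hC, hCT⟩ := rT_bd hD hA
  refine ⟨2 * C / c ^ 3, by positivity, ?_⟩
  intro j t ht n
  have h1 := hcT t ht n
  have h2 := hCT j t ht n
  have h3 : 0 < 1 + t := by positivity
  rw [abs_neg, abs_div, abs_mul, abs_of_pos (a := (2 : ℝ)) two_pos, abs_of_pos (pow_pos (E2_TT hD ht n) 3)]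
  calc 2 * |rT D j t n| / TT D t n ^ 3 ≤ 2 * C / (c * (1 + t)) ^ 3 := by gcongr
    _ = 2 * C / c ^ 3 / (1 + t) ^ 3 := by
      rw [mul_pow, div_div]

theorem E2_F2 (hD : D.IsNull) (hA : D.AsympFlat) : ∃ K : ℝ, 0 < K ∧ ∀ t, 0 ≤ t → ∀ n : S2,
    1 / TT D t n ^ 2 ≤ K / (1 + t) ^ 2 := by
  obtain ⟨c, hc, hcT⟩ := TT_low hD hA
  refine ⟨1 / c ^ 2, by positivity, ?_⟩
  intro t ht n
  have h1 := hcT t ht n
  have h3 : 0 < 1 + t := by positivity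
  calc 1 / TT D t n ^ 2 ≤ 1 / (c * (1 + t)) ^ 2 := by gcongr
    _ = 1 / c ^ 2 / (1 + t) ^ 2 := by
      rw [mul_pow, div_div]

theorem E2_bd (hD : D.IsNull) (hA : D.AsympFlat) : ∃ K : ℝ, (∀ t, 0 < t → ∀ n : S2, |1 / TT D t n ^ 2| ≤ K / (1 + t) ^ 2) ∧
    ∀ j t, 0 < t → ∀ n : S2, |-(2 * rT D j t n / TT D t n ^ 3)| ≤ K / (1 + t) ^ 2 := by
  obtain ⟨K, hK, h1⟩ := E2_F2 hD hA
  obtain ⟨L, hL, h2⟩ := E2_F3 hD hA
  refine ⟨K + L, ?_, ?_⟩
  · intro t ht n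
    have h3 := E2_TT hD ht.le n
    rw [abs_of_pos (by positivity)]
    refine (h1 t ht.le n).trans ?_
    gcongr
    linarith
  · intro j t ht n
    refine (h2 j t ht.le n).trans ?_
    have h5 : L / (1 + t) ^ 3 ≤ L / (1 + t) ^ 2 := by
      refine div_le_div_of_nonneg_left hL (by positivity) ?_
      exact pow_le_pow_right₀ (by linarith) (by norm_num)
    refine h5.trans ?_
    gcongr
    linarith

theorem c_II (hD : D.IsNull) (hA : D.AsympFlat) : ContinuousOn (fun p : ℝ × S2 => II D p.1 p.2) (Ici 0 ×ˢ univ) := by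
  obtain ⟨K, h1, h2⟩ := E2_bd hD hA
  exact cont_tail (F := fun t n => 1 / TT D t n ^ 2) (E2_cF hD) (E2_K K) h1

theorem c_rI (hD : D.IsNull) (hA : D.AsympFlat) (j : Fin 3) : ContinuousOn (fun p : ℝ × S2 => rI D j p.1 p.2) (Ici 0 ×ˢ univ) := by
  obtain ⟨K, h1, h2⟩ := E2_bd hD hA
  exact cont_tail (F := fun t n => -(2 * rT D j t n / TT D t n ^ 3)) (E2_cF' hD j) (E2_K K) (h2 j)

theorem hr_II (hD : D.IsNull) (hA : D.AsympFlat) {s : ℝ} (hs : 0 ≤ s) : HR (II D s) (fun j n => rI D j s n) := by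
  obtain ⟨K, h1, h2⟩ := E2_bd hD hA
  exact hr_tail (F := fun t n => 1 / TT D t n ^ 2) (F' := fun j t n => -(2 * rT D j t n / TT D t n ^ 3))
    (E2_cF hD) (E2_cF' hD) (fun t ht => E2_hr hD ht) (E2_K K) h1 h2 hs

theorem II_der (hD : D.IsNull) (hA : D.AsympFlat) {s : ℝ} (hs : 0 < s) (n : S2) :
    HasDerivAt (fun t => II D t n) (-(1 / TT D s n ^ 2)) s := by
  obtain ⟨K, h1, h2⟩ := E2_bd hD hA
  exact der_tail (F := fun t => 1 / TT D t n ^ 2) (E0B_time (F := fun t n => 1 / TT D t n ^ 2) (E2_cF hD) n)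
    (E2_K K) (fun t ht => h1 t ht n) hs

theorem rI_der (hD : D.IsNull) (hA : D.AsympFlat) {s : ℝ} (hs : 0 < s) (j : Fin 3) (n : S2) :
    HasDerivAt (fun t => rI D j t n) (2 * rT D j s n / TT D s n ^ 3) s := by
  obtain ⟨K, h1, h2⟩ := E2_bd hD hA
  have h := der_tail (F := fun t => -(2 * rT D j t n / TT D t n ^ 3))
    (E0B_time (F := fun t n => -(2 * rT D j t n / TT D t n ^ 3)) (E2_cF' hD j) n)
    (E2_K K) (fun t ht => h2 j t ht n) hs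
  rw [neg_neg] at h
  exact h

theorem II_low (hD : D.IsNull) (hA : D.AsympFlat) : ∃ c : ℝ, 0 < c ∧ ∀ s, 0 ≤ s → ∀ n : S2, c / (1 + s) ≤ II D s n := by
  obtain ⟨K, h1, h2⟩ := E2_bd hD hA
  obtain ⟨C, hC, hCT⟩ := TT_upp hD hA
  refine ⟨1 / C ^ 2, by positivity, ?_⟩
  intro s hs n
  obtain ⟨h3, h4⟩ := E2_pow (m := 1) one_pos hs
  have h5 := E0B_int (E0B_time (F := fun t n => 1 / TT D t n ^ 2) (E2_cF hD) n) (E2_K K) (fun t ht => h1 t ht n) hs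
  have h6 : ∫ t in Ioi s, 1 / C ^ 2 * (1 / (1 + t) ^ (1 + 1)) ≤ ∫ t in Ioi s, 1 / TT D t n ^ 2 := by
    refine setIntegral_mono_on (h3.const_mul _) h5 measurableSet_Ioi fun t ht => ?_
    have h7 : 0 ≤ t := hs.trans (le_of_lt ht)
    have h8 := hCT t h7 n
    have h9 := E2_TT hD h7 n
    calc 1 / C ^ 2 * (1 / (1 + t) ^ (1 + 1)) = 1 / (C * (1 + t)) ^ 2 := by
          rw [one_div_mul_one_div, mul_pow]
      _ ≤ 1 / TT D t n ^ 2 := by gcongr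
  rw [integral_const_mul, h4] at h6
  unfold II
  refine le_trans (le_of_eq ?_) h6
  simp
  ring

theorem II_upp (hD : D.IsNull) (hA : D.AsympFlat) : ∃ C : ℝ, 0 < C ∧ ∀ s, 0 ≤ s → ∀ n : S2, II D s n ≤ C / (1 + s) := by
  obtain ⟨K, h1, h2⟩ := E2_bd hD hA
  obtain ⟨C, hC, hCT⟩ := E2_F2 hD hA
  refine ⟨C, hC, ?_⟩
  intro s hs n
  obtain ⟨h3, h4⟩ := E2_pow (m := 1) one_pos hs
  have h5 := E0B_int (E0B_time (F := fun t n => 1 / TT D t n ^ 2) (E2_cF hD) n) (E2_K K) (fun t ht => h1 t ht n) hs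
  have h6 : ∫ t in Ioi s, 1 / TT D t n ^ 2 ≤ ∫ t in Ioi s, C * (1 / (1 + t) ^ (1 + 1)) := by
    refine setIntegral_mono_on h5 (h3.const_mul _) measurableSet_Ioi fun t ht => ?_
    refine (hCT t (hs.trans (le_of_lt ht)) n).trans (le_of_eq ?_)
    ring
  rw [integral_const_mul, h4] at h6
  unfold II
  refine h6.trans (le_of_eq ?_)
  simp
  ring

theorem rI_bd (hD : D.IsNull) (hA : D.AsympFlat) : ∃ C : ℝ, 0 ≤ C ∧ ∀ j s, 0 ≤ s → ∀ n : S2, |rI D j s n| ≤ C / (1 + s) ^ 2 := by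
  obtain ⟨C, hC, hCT⟩ := E2_F3 hD hA
  refine ⟨C / 2, by positivity, ?_⟩
  intro j s hs n
  obtain ⟨h3, h4⟩ := E2_pow (m := 2) two_pos hs
  have h6 : |rI D j s n| ≤ ∫ t in Ioi s, C * (1 / (1 + t) ^ (2 + 1)) := by
    unfold rI
    rw [← Real.norm_eq_abs]
    refine norm_integral_le_of_norm_le (h3.const_mul _) ?_
    refine (ae_restrict_iff' measurableSet_Ioi).2 (Eventually.of_forall fun t ht => ?_)
    refine (hCT j t (hs.trans (le_of_lt ht)) n).trans (le_of_eq ?_)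
    ring
  rw [integral_const_mul, h4] at h6
  refine h6.trans (le_of_eq ?_)
  push_cast
  field_simp

end NullQ
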