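import Pool.Agent.Lib.H74Q.E2

set_option autoImplicit false

/-!
Chunk E3 (M). The clock functions and their rotation derivatives.
Proof. Products and quotients of `TT`, `II` (`II > 0` by `II_low`, `TT > 0` by `TT_low`, so `th > 0`), `hr_mul`, `hr_comp`, `hr_congr`; `hr_B`: quotient; the numerator is the restriction of the smooth function
`y ↦ D.g 0 y k l - (∑ i, D.g 0 y i i) / 2 * proj y k l` (`hr_val`). `rta_der`: for `s > 0`, `II' = - 1/T^2`, `rI' = 2 rT/T^3`: `(- rI/(4 II^2))' = - 2 rT/(4 T^3 II^2) - 2 rI/(4 T^2 II^3)` and `th = 2 T II`,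
`rth = 2 (rT II + T rI)`: equal to `- 2 rth/th^3` (`field_simp; ring`). Bounds: `|rta| <= C` (`rI_bd`, `II_low`), `|rth| <= C/(1+s)` (`rT_bd`, `II_upp`, `TT_upp`, `rI_bd`), `|rB| <= C` (continuous on the compact sphere).
-/

open MeasureTheory Filter Topology Set
open scoped ContDiff

namespace NullQ

open NullPen (E3 S2 sm proj pd MatterData NullData)

variable {D : MatterData}

theorem e3_TT (hD : D.IsNull) (hA : D.AsympFlat) {s : ℝ} (hs : 0 ≤ s) (n : S2) : 0 < TT D s n := by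
  obtain ⟨c, hc, h⟩ := TT_low hD hA
  exact lt_of_lt_of_le (by positivity) (h s hs n)

theorem e3_II (hD : D.IsNull) (hA : D.AsympFlat) {s : ℝ} (hs : 0 ≤ s) (n : S2) : 0 < II D s n := by
  obtain ⟨c, hc, h⟩ := II_low hD hA
  exact lt_of_lt_of_le (by positivity) (h s hs n)

theorem th0 (hD : D.IsNull) (hA : D.AsympFlat) {s : ℝ} (hs : 0 ≤ s) (n : S2) : 0 < th D s n :=
  mul_pos (mul_pos two_pos (e3_TT hD hA hs n)) (e3_II hD hA hs n)

theorem c_th (hD : D.IsNull) (hA : D.AsympFlat) : ContinuousOn (fun p : ℝ × S2 => th D p.1 p.2) (Ici 0 ×ˢ univ) :=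
  (continuousOn_const.mul (c_TT hD)).mul (c_II hD hA)

theorem c_ta (hD : D.IsNull) (hA : D.AsympFlat) : ContinuousOn (fun p : ℝ × S2 => ta D p.1 p.2) (Ici 0 ×ˢ univ) := by
  refine continuousOn_const.div (continuousOn_const.mul (c_II hD hA)) fun p hp => ?_
  have h := e3_II hD hA (s := p.1) hp.1 p.2
  positivity

theorem c_zz (hD : D.IsNull) (hA : D.AsympFlat) : ContinuousOn (fun p : ℝ × S2 => zz D p.1 p.2) (Ici 0 ×ˢ univ) :=
  continuousOn_const.sub ((c_th hD hA).pow 2)

theorem c_rth (hD : D.IsNull) (hA : D.AsympFlat) (j : Fin 3) : ContinuousOn (fun p : ℝ × S2 => rth D j p.1 p.2) (Ici 0 ×ˢ univ) :=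
  continuousOn_const.mul (((c_rT hD j).mul (c_II hD hA)).add ((c_TT hD).mul (c_rI hD hA j)))

theorem c_rta (hD : D.IsNull) (hA : D.AsympFlat) (j : Fin 3) : ContinuousOn (fun p : ℝ × S2 => rta D j p.1 p.2) (Ici 0 ×ˢ univ) := by
  refine ((c_rI hD hA j).div (continuousOn_const.mul ((c_II hD hA).pow 2)) fun p hp => ?_).neg
  have h := e3_II hD hA (s := p.1) hp.1 p.2
  show (4 * II D p.1 p.2 ^ 2) ≠ 0
  positivity

theorem c_rz (hD : D.IsNull) (hA : D.AsympFlat) (j : Fin 3) : ContinuousOn (fun p : ℝ × S2 => rz D j p.1 p.2) (Ici 0 ×ˢ univ) :=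
  ((continuousOn_const.mul (c_th hD hA)).mul (c_rth hD hA j)).neg

theorem e3_num (hD : D.IsNull) (k l : Fin 3) :
    ContDiff ℝ ∞ (fun y : E3 => D.g 0 y k l - (∑ i, D.g 0 y i i) / 2 * proj y k l) := by
  have h1 : ∀ i j, ContDiff ℝ ∞ (fun y : E3 => D.g 0 y i j) := fun i j =>
    (hD.smooth_g i j).comp (contDiff_const.prodMk contDiff_id)
  have h2 : ∀ k : Fin 3, ContDiff ℝ ∞ (fun y : E3 => y k) := fun k =>
    (EuclideanSpace.proj k : E3 →L[ℝ] ℝ).contDiff
  have h3 : ContDiff ℝ ∞ (fun y : E3 => proj y k l) := by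
    unfold NullPen.proj
    exact contDiff_const.sub ((h2 k).mul (h2 l))
  exact (h1 k l).sub (((ContDiff.sum fun i _ => h1 i i).div_const 2).mul h3)

theorem e3_den (hD : D.IsNull) (hA : D.AsympFlat) : Continuous (fun n : S2 => TT D 0 n * th D 0 n) :=
  (E0B_space (c_TT hD) le_rfl).mul (E0B_space (c_th hD hA) le_rfl)

theorem e3_den0 (hD : D.IsNull) (hA : D.AsympFlat) (n : S2) : TT D 0 n * th D 0 n ≠ 0 :=
  (mul_pos (e3_TT hD hA le_rfl n) (th0 hD hA le_rfl n)).ne'

theorem c_Bo (hD : D.IsNull) (hA : D.AsympFlat) (k l : Fin 3) : Continuous (Bo D k l) :=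
  ((e3_num hD k l).continuous.comp continuous_subtype_val).div (e3_den hD hA) (e3_den0 hD hA)

theorem c_rB (hD : D.IsNull) (hA : D.AsympFlat) (j k l : Fin 3) : Continuous (rB D j k l) := by
  have h1 : ContDiff ℝ ∞ (fun p : ℝ × E3 => D.g 0 p.2 k l - (∑ i, D.g 0 p.2 i i) / 2 * proj p.2 k l) :=
    (e3_num hD k l).comp contDiff_snd
  have h2 : Continuous (fun n : S2 =>
      NullU.rl j (fun y => D.g 0 y k l - (∑ i, D.g 0 y i i) / 2 * proj y k l) (n : E3)) :=
    (NullU.TC0_rlsm h1 j).continuous.comp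
      (continuous_const.prodMk continuous_subtype_val : Continuous fun n : S2 => ((0 : ℝ), (n : E3)))
  have h3 : Continuous (fun n : S2 => rT D j 0 n * th D 0 n + TT D 0 n * rth D j 0 n) :=
    ((E0B_space (c_rT hD j) le_rfl).mul (E0B_space (c_th hD hA) le_rfl)).add
      ((E0B_space (c_TT hD) le_rfl).mul (E0B_space (c_rth hD hA j) le_rfl))
  exact (h2.sub ((c_Bo hD hA k l).mul h3)).div (e3_den hD hA) (e3_den0 hD hA)

theorem e3_hrdiv {F G : S2 → ℝ} {F' G' : Fin 3 → S2 → ℝ} (hF : HR F F') (hG : HR G G') (h0 : ∀ n, G n ≠ 0) :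
    HR (fun n => F n / G n) (fun j n => (F' j n * G n - F n * G' j n) / G n ^ 2) := by
  intro j n
  have h := (hF j n).div (hG j n) (by rw [rt_zero]; exact h0 n)
  rw [rt_zero] at h
  exact h

theorem hr_th (hD : D.IsNull) (hA : D.AsympFlat) {s : ℝ} (hs : 0 ≤ s) : HR (th D s) (fun j n => rth D j s n) := by
  have h := hr_mul (hr_mul (hr_const 2) (hr_TT hD hs)) (hr_II hD hA hs)
  refine hr_congr h fun j n => ?_
  unfold rth
  ring

theorem hr_ta (hD : D.IsNull) (hA : D.AsympFlat) {s : ℝ} (hs : 0 ≤ s) : HR (ta D s) (fun j n => rta D j s n) := by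
  have h := e3_hrdiv (hr_const 1) (hr_mul (hr_const 4) (hr_II hD hA hs)) (fun n => by
    have := e3_II hD hA hs n
    positivity)
  refine hr_congr h fun j n => ?_
  have h1 := e3_II hD hA hs n
  unfold rta
  field_simp
  ring

theorem hr_zz (hD : D.IsNull) (hA : D.AsympFlat) {s : ℝ} (hs : 0 ≤ s) : HR (zz D s) (fun j n => rz D j s n) := by
  have h := hr_sub (hr_const 1) (hr_mul (hr_th hD hA hs) (hr_th hD hA hs))
  have e : (fun n => 1 - th D s n * th D s n) = zz D s := by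
    funext n
    unfold zz
    ring
  rw [e] at h
  refine hr_congr h fun j n => ?_
  unfold rz
  ring

theorem hr_B (hD : D.IsNull) (hA : D.AsympFlat) (k l : Fin 3) : HR (Bo D k l) (fun j n => rB D j k l n) := by
  have h1 : HR (fun n : S2 => D.g 0 (n : E3) k l - (∑ i, D.g 0 (n : E3) i i) / 2 * proj (n : E3) k l)
      (fun j n => NullU.rl j (fun y => D.g 0 y k l - (∑ i, D.g 0 y i i) / 2 * proj y k l) n) :=
    hr_val fun n => (e3_num hD k l).differentiable (by simp) _
  have h2 := hr_mul (hr_TT hD le_rfl) (hr_th hD hA le_rfl)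
  have h := e3_hrdiv h1 h2 (e3_den0 hD hA)
  refine hr_congr h fun j n => ?_
  have h3 := e3_TT hD hA le_rfl n
  have h4 := th0 hD hA le_rfl n
  unfold rB Bo
  generalize NullU.rl j (fun y => D.g 0 y k l - (∑ i, D.g 0 y i i) / 2 * proj y k l) (n : E3) = r
  field_simp

theorem rta_der (hD : D.IsNull) (hA : D.AsympFlat) {s : ℝ} (hs : 0 < s) (j : Fin 3) (n : S2) :
    HasDerivAt (fun t => rta D j t n) (-(2 * rth D j s n / th D s n ^ 3)) s := by
  have h1 := e3_II hD hA hs.le n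
  have h2 := e3_TT hD hA hs.le n
  have h3 := ((rI_der hD hA hs j n).fun_div (((II_der hD hA hs n).fun_pow 2).const_mul 4) (by positivity)).fun_neg
  refine h3.congr_deriv ?_
  unfold rth th
  field_simp
  ring

theorem bd (hD : D.IsNull) (hA : D.AsympFlat) : ∃ C : ℝ, 0 ≤ C ∧ (∀ j s, 0 ≤ s → ∀ n : S2, |rta D j s n| ≤ C ∧ |rth D j s n| ≤ C / (1 + s)) ∧
    ∀ j k l n, |rB D j k l n| ≤ C := by
  obtain ⟨c, hc, hlow⟩ := II_low hD hA
  obtain ⟨CI, hCI, hupp⟩ := II_upp hD hA
  obtain ⟨CT, hCT, hTupp⟩ := TT_upp hD hA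
  obtain ⟨C1, hC1, hrI⟩ := rI_bd hD hA
  obtain ⟨C2, hC2, hrT⟩ := rT_bd hD hA
  have h3 : ∀ j k l : Fin 3, ∃ C : ℝ, 0 ≤ C ∧ ∀ n, |rB D j k l n| ≤ C := by
    intro j k l
    obtain ⟨C, hC⟩ := isCompact_univ.exists_bound_of_continuousOn (c_rB hD hA j k l).continuousOn
    exact ⟨max C 0, le_max_right _ _, fun n => (hC n (mem_univ _)).trans (le_max_left _ _)⟩
  choose C3 hC3 hrB using h3
  set C4 := ∑ j, ∑ k, ∑ l, C3 j k l with hC4
  have hC40 : 0 ≤ C4 := Finset.sum_nonneg fun j _ => Finset.sum_nonneg fun k _ =>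
    Finset.sum_nonneg fun l _ => hC3 j k l
  have hle : ∀ j k l, C3 j k l ≤ C4 := by
    intro j k l
    refine le_trans ?_ (Finset.single_le_sum (f := fun j => ∑ k, ∑ l, C3 j k l)
      (fun j _ => Finset.sum_nonneg fun k _ => Finset.sum_nonneg fun l _ => hC3 j k l) (Finset.mem_univ j))
    refine le_trans ?_ (Finset.single_le_sum (f := fun k => ∑ l, C3 j k l)
      (fun k _ => Finset.sum_nonneg fun l _ => hC3 j k l) (Finset.mem_univ k))
    exact Finset.single_le_sum (f := fun l => C3 j k l) (fun l _ => hC3 j k l) (Finset.mem_univ l)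
  refine ⟨C1 / (4 * c ^ 2) + 2 * (C2 * CI + CT * C1) + C4, by positivity, fun j s hs n => ⟨?_, ?_⟩, ?_⟩
  · have h1 := e3_II hD hA hs n
    have h5 : |rta D j s n| ≤ C1 / (4 * c ^ 2) := by
      unfold rta
      rw [abs_neg, abs_div, abs_of_pos (by positivity : 0 < 4 * II D s n ^ 2), div_le_div_iff₀ (by positivity) (by positivity)]
      have h6 := hrI j s hs n
      have h7 := hlow s hs n
      have h8 : c / (1 + s) * (1 + s) = c := by field_simp
      have h9 : c ≤ II D s n * (1 + s) := by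
        rw [← h8]
        exact mul_le_mul_of_nonneg_right h7 (by positivity)
      have h10 : |rI D j s n| * (1 + s) ^ 2 ≤ C1 := by
        rwa [le_div_iff₀ (by positivity)] at h6
      calc |rI D j s n| * (4 * c ^ 2) ≤ |rI D j s n| * (4 * (II D s n * (1 + s)) ^ 2) := by gcongr
        _ = 4 * II D s n ^ 2 * (|rI D j s n| * (1 + s) ^ 2) := by ring
        _ ≤ 4 * II D s n ^ 2 * C1 := by gcongr
        _ = _ := by ring
    have h6 : 0 ≤ 2 * (C2 * CI + CT * C1) := by positivity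
    linarith
  · have h1 := e3_II hD hA hs n
    have h2 := e3_TT hD hA hs n
    have h5 : |rth D j s n| ≤ 2 * (C2 * CI + CT * C1) / (1 + s) := by
      unfold rth
      have e1 : |rT D j s n * II D s n| ≤ C2 * (CI / (1 + s)) := by
        rw [abs_mul, abs_of_pos h1]
        exact mul_le_mul (hrT j s hs n) (hupp s hs n) h1.le hC2
      have e2 : |TT D s n * rI D j s n| ≤ CT * (1 + s) * (C1 / (1 + s) ^ 2) := by
        rw [abs_mul, abs_of_pos h2]
        exact mul_le_mul (hTupp s hs n) (hrI j s hs n) (abs_nonneg _) (by positivity)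
      have e3 : CT * (1 + s) * (C1 / (1 + s) ^ 2) = CT * C1 / (1 + s) := by field_simp
      rw [abs_mul, abs_two]
      calc 2 * |rT D j s n * II D s n + TT D s n * rI D j s n| ≤
          2 * (|rT D j s n * II D s n| + |TT D s n * rI D j s n|) := by
            gcongr
            exact abs_add_le _ _
        _ ≤ 2 * (C2 * (CI / (1 + s)) + CT * C1 / (1 + s)) := by
            rw [e3] at e2
            gcongr
        _ = _ := by ring
    refine h5.trans ?_
    gcongr
    have h6 : 0 ≤ C1 / (4 * c ^ 2) := by positivity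
    linarith
  · intro j k l n
    have h6 : 0 ≤ C1 / (4 * c ^ 2) := by positivity
    have h7 : 0 ≤ 2 * (C2 * CI + CT * C1) := by positivity
    linarith [hrB j k l n, hle j k l]

end NullQ
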