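import Pool.Agent.Lib.H74P.G1

set_option autoImplicit false

/-!
H74Q: one generator. `p`, `q` are the square roots of the eigenvalues of the metric. Definitions. See PROOF.md, sections 1 and 2.
-/

open MeasureTheory Filter Topology Set

namespace NullQ

/-- Two positive solutions of `y'' = - m y`, `m >= 0`, with derivative `>= 1` and `y - s` bounded. -/
structure Ry (K : ℝ) (m p q dp dq : ℝ → ℝ) : Prop where
  K0 : 0 ≤ K
  m0 : ∀ s, 0 < s → 0 ≤ m s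
  pc : ContinuousOn p (Ici 0)
  qc : ContinuousOn q (Ici 0)
  pp : ∀ s, 0 ≤ s → 0 < p s
  qp : ∀ s, 0 ≤ s → 0 < q s
  pd : ∀ s, 0 < s → HasDerivAt p (dp s) s
  qd : ∀ s, 0 < s → HasDerivAt q (dq s) s
  pdd : ∀ s, 0 < s → HasDerivAt dp (-(m s * p s)) s
  qdd : ∀ s, 0 < s → HasDerivAt dq (-(m s * q s)) s
  p1 : ∀ s, 0 < s → 1 ≤ dp s
  q1 : ∀ s, 0 < s → 1 ≤ dq s
  pK : ∀ s, 0 ≤ s → p s ≤ s + K
  qK : ∀ s, 0 ≤ s → q s ≤ s + K

/-- `∫_s^∞ (p+q)^{-2}`. -/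
noncomputable def If (p q : ℝ → ℝ) (s : ℝ) : ℝ := ∫ t in Ioi s, 1 / (p t + q t) ^ 2

/-- The clock function `ϑ = 2 (p + q) ∫_s^∞ (p+q)^{-2}`. -/
noncomputable def thf (p q : ℝ → ℝ) (s : ℝ) : ℝ := 2 * (p s + q s) * If p q s

/-- `ta = 1 / (4 ∫_s^∞ (p+q)^{-2})`. -/
noncomputable def taf (p q : ℝ → ℝ) (s : ℝ) : ℝ := 1 / (4 * If p q s)

/-- `z = 1 - ϑ^2`. -/
noncomputable def zf (p q : ℝ → ℝ) (s : ℝ) : ℝ := 1 - thf p q s ^ 2

/-- Derivative of `ϑ`. -/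
noncomputable def dth (p q dp dq : ℝ → ℝ) (s : ℝ) : ℝ := 2 * (dp s + dq s) * If p q s - 2 / (p s + q s)

/-- The constant `b = (p - q) / (2 ϑ)`. -/
noncomputable def bf (p q : ℝ → ℝ) : ℝ := (p 0 - q 0) / (2 * thf p q 0)

end NullQ
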