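import Pool.Agent.Lib.H74Q.Stmt
import Pool.Agent.Lib.H74Q.Ry
import Pool.Agent.Lib.H17U.NE

set_option autoImplicit false

/-!
H74Q: eigenframes of the metric on a generator. Definitions. See PROOF.md, section 1.
-/

open MeasureTheory Filter Topology Set
open scoped ContDiff

namespace NullQ

open NullPen (E3 S2 sm proj pd MatterData NullData)

/-- Orthonormal basis of the tangent plane of the sphere at `n`. -/
structure Onb (n : S2) (e f : Fin 3 → ℝ) : Prop where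
  ee : ∑ i, e i ^ 2 = 1
  ff : ∑ i, f i ^ 2 = 1
  ef : ∑ i, e i * f i = 0
  en : ∑ i, (n : E3) i * e i = 0
  fn : ∑ i, (n : E3) i * f i = 0

/-- The metric on two vectors. -/
noncomputable def gc (D : MatterData) (n : S2) (u v : Fin 3 → ℝ) (s : ℝ) : ℝ := ∑ i, ∑ j, D.g s n i j * u i * v j

/-- Twice the null second fundamental form on two vectors. -/
noncomputable def gd1 (D : MatterData) (n : S2) (u v : Fin 3 → ℝ) (s : ℝ) : ℝ := ∑ i, ∑ j, 2 * D.chi s n i j * u i * v j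

/-- The matrix `(E, F; F, H)` of the metric in an orthonormal basis, and its derivative. -/
structure Q2 (C : ℝ) (m E F H E1 F1 H1 : ℝ → ℝ) : Prop where
  C0 : 0 ≤ C
  m0 : ∀ s, 0 < s → 0 ≤ m s
  Ec : ContinuousOn E (Ici 0)
  Fc : ContinuousOn F (Ici 0)
  Hc : ContinuousOn H (Ici 0)
  Ep : ∀ s, 0 ≤ s → 0 < E s
  Hp : ∀ s, 0 ≤ s → 0 < H s
  dp : ∀ s, 0 ≤ s → 0 < E s * H s - F s ^ 2
  Ed : ∀ s, 0 < s → HasDerivAt E (E1 s) s
  Fd : ∀ s, 0 < s → HasDerivAt F (F1 s) s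
  Hd : ∀ s, 0 < s → HasDerivAt H (H1 s) s
  Edd : ∀ s, 0 < s → HasDerivAt E1 ((H s * E1 s ^ 2 - 2 * F s * E1 s * F1 s + E s * F1 s ^ 2) /
    (2 * (E s * H s - F s ^ 2)) - 2 * m s * E s) s
  Fdd : ∀ s, 0 < s → HasDerivAt F1 ((H s * E1 s * F1 s - F s * (E1 s * H1 s + F1 s ^ 2) + E s * F1 s * H1 s) /
    (2 * (E s * H s - F s ^ 2)) - 2 * m s * F s) s
  Hdd : ∀ s, 0 < s → HasDerivAt H1 ((H s * F1 s ^ 2 - 2 * F s * F1 s * H1 s + E s * H1 s ^ 2) /
    (2 * (E s * H s - F s ^ 2)) - 2 * m s * H s) s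
  Ea : ∀ s, 1 ≤ s → |E s - s ^ 2| ≤ C * s
  Fa : ∀ s, 1 ≤ s → |F s| ≤ C * s
  Ha : ∀ s, 1 ≤ s → |H s - s ^ 2| ≤ C * s

/-- `e`, `f` are eigenvectors of the metric at all points of the generator, with eigenvalues `p^2`, `q^2`. -/
structure Eig (D : MatterData) (n : S2) (e f : Fin 3 → ℝ) (p q : ℝ → ℝ) : Prop extends Onb n e f where
  g : ∀ s, 0 ≤ s → ∀ i j, D.g s n i j = p s ^ 2 * (e i * e j) + q s ^ 2 * (f i * f j)

end NullQ
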