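import Pool.Agent.Lib.H74Q.C1
import Pool.Agent.Lib.H17U.FX

set_option autoImplicit false

/-!
Chunk F1 (M). Parallel frames are the root of the metric.
Proof. `B` a frame (`NullU.Frm`), symmetric root at `T` (`top`). Column `v s = Σ_j B s n i j e_j`. `NullU.chi_fr`: `chi = Bᵀ B'`, so `Bᵀ (B' e) = chi e = p dp e` (`2 chi = ∂_s g`, `g = p^2 ee + q^2 ff`: derivative of `Eig.g`, `NullU.da_gd`), and
`Bᵀ (B e) = g e = p^2 e` (`gram`). So `Bᵀ (B' e - (dp/p) B e) = 0`, the vector is tangential (`dB_tng`), and `Bᵀ` is injective on tangential vectors (`dtB (B s) = dA > 0`; `NullU.cf_mul`: multiply by the cofactor matrix), so `B' e = (dp/p) B e` for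
`δ < s`. Hence `(B e)/p` is constant on `[δ, T]` and equals its value at `T`: `B T e = ((g + dA P)/(p+q)) e = p e` (`TT_eq`, `dA_pq`). Same for `f`. `B n = 0` (tangency) and `B i j = Σ_k B i k δ k j`, `δ = ee + ff + nn` (`proj_ef`).
-/

open MeasureTheory Filter Topology Set
open scoped ContDiff

namespace NullQ

open NullPen (E3 S2 sm proj pd MatterData NullData)
open NullU (Frm dB)

variable {D : MatterData} {K : ℝ} {n : S2} {e f : Fin 3 → ℝ} {p q dp dq : ℝ → ℝ} {δ T : ℝ} {B : ℝ → E3 → Fin 3 → Fin 3 → ℝ}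

theorem f1_const {F : ℝ → ℝ} {a b : ℝ} (hc : ContinuousOn F (Icc a b))
    (hd : ∀ s, a < s → s < b → HasDerivAt F 0 s) {s : ℝ} (hs : a ≤ s) (hsT : s ≤ b) : F s = F b := by
  have h1 : MonotoneOn F (Icc a b) := by
    refine monotoneOn_of_deriv_nonneg (convex_Icc a b) hc ?_ ?_
    · intro x hx
      rw [interior_Icc] at hx
      exact (hd x hx.1 hx.2).differentiableAt.differentiableWithinAt
    · intro x hx
      rw [interior_Icc] at hx
      rw [(hd x hx.1 hx.2).deriv]
  have h2 : AntitoneOn F (Icc a b) := by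
    refine antitoneOn_of_deriv_nonpos (convex_Icc a b) hc ?_ ?_
    · intro x hx
      rw [interior_Icc] at hx
      exact (hd x hx.1 hx.2).differentiableAt.differentiableWithinAt
    · intro x hx
      rw [interior_Icc] at hx
      rw [(hd x hx.1 hx.2).deriv]
  exact le_antisymm (h1 ⟨hs, hsT⟩ ⟨hs.trans hsT, le_rfl⟩ hsT)
    (h2 ⟨hs, hsT⟩ ⟨hs.trans hsT, le_rfl⟩ hsT)

theorem f1_ge (h : Full D K n e f p q dp dq) {s : ℝ} (hs : 0 ≤ s) (i : Fin 3) :
    ∑ j, D.g s n i j * e j = p s ^ 2 * e i := by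
  have h1 := h.ee
  have h2 := h.ef
  simp only [Fin.sum_univ_three] at h1 h2 ⊢
  simp only [h.g s hs]
  linear_combination (p s ^ 2 * e i) * h1 + (q s ^ 2 * f i) * h2

theorem f1_gf (h : Full D K n e f p q dp dq) {s : ℝ} (hs : 0 ≤ s) (i : Fin 3) :
    ∑ j, D.g s n i j * f j = q s ^ 2 * f i := by
  have h1 := h.ff
  have h2 := h.ef
  simp only [Fin.sum_univ_three] at h1 h2 ⊢
  simp only [h.g s hs]
  linear_combination (q s ^ 2 * f i) * h1 + (p s ^ 2 * e i) * h2

theorem f1_key {u : Fin 3 → ℝ} {r dr : ℝ → ℝ} (hD : D.IsNull) (hB : Frm D δ T B)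
    (hg : ∀ s, 0 ≤ s → ∀ i, ∑ j, D.g s n i j * u j = r s ^ 2 * u i)
    (r0 : ∀ s, 0 ≤ s → 0 < r s) (rd : ∀ s, 0 < s → HasDerivAt r (dr s) s) {s : ℝ} (hs : δ < s)
    (l : Fin 3) : ∑ j, dB B s n l j * u j = dr s / r s * ∑ j, B s n l j * u j := by
  have hs0 : 0 < s := hB.pos.trans hs
  have hr := (r0 s hs0.le).ne'
  have hchi : ∀ i, ∑ j, D.chi s n i j * u j = r s * dr s * u i := by
    intro i
    have h1 : HasDerivAt (fun t => ∑ j, D.g t n i j * u j) (∑ j, 2 * D.chi s n i j * u j) s :=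
      HasDerivAt.fun_sum fun j _ => (NullU.da_gd hD n s i j).mul_const _
    have h2 : (fun t => ∑ j, D.g t n i j * u j) =ᶠ[𝓝 s] fun t => r t ^ 2 * u i := by
      filter_upwards [lt_mem_nhds hs0] with t ht
      exact hg t ht.le i
    have h3 := ((rd s hs0).fun_pow 2).mul_const (u i)
    have h4 := (h2.hasDerivAt_iff.mp h1).unique h3
    simp only [Fin.sum_univ_three] at h4 ⊢
    push_cast at h4
    linarith
  obtain ⟨w, hw⟩ : ∃ w : Fin 3 → ℝ, w = fun k => (∑ j, dB B s n k j * u j) -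
      dr s / r s * ∑ j, B s n k j * u j := ⟨_, rfl⟩
  have hBw : ∀ i, ∑ k, B s n k i * w k = 0 := by
    intro i
    have h1 : ∑ k, B s n k i * w k = (∑ j, (∑ k, B s n k i * dB B s n k j) * u j) -
        dr s / r s * ∑ j, (∑ k, B s n k i * B s n k j) * u j := by
      rw [hw]
      simp only [Fin.sum_univ_three]
      ring
    rw [h1]
    have h2 : ∑ j, (∑ k, B s n k i * dB B s n k j) * u j = r s * dr s * u i := by
      rw [← hchi i]
      refine Finset.sum_congr rfl fun j _ => ?_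
      rw [NullU.chi_fr hD hB hs n i j]
    have h3 : ∑ j, (∑ k, B s n k i * B s n k j) * u j = r s ^ 2 * u i := by
      rw [← hg s hs0.le i]
      refine Finset.sum_congr rfl fun j _ => ?_
      rw [hB.gram s hs.le n i j]
    rw [h2, h3]
    field_simp
    ring
  have t1 := NullU.dB_tng hB hs n
  have t2 := hB.tng s hs.le n
  have hnw : ∑ k, (n : E3) k * w k = 0 := by
    have h1 : ∑ k, (n : E3) k * w k = (∑ j, (∑ k, (n : E3) k * dB B s n k j) * u j) -
        dr s / r s * ∑ j, (∑ k, (n : E3) k * B s n k j) * u j := by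
      rw [hw]
      simp only [Fin.sum_univ_three]
      ring
    rw [h1]
    have h2 : ∑ j, (∑ k, (n : E3) k * dB B s n k j) * u j = 0 :=
      Finset.sum_eq_zero fun j _ => by rw [t1.l j, zero_mul]
    have h3 : ∑ j, (∑ k, (n : E3) k * B s n k j) * u j = 0 :=
      Finset.sum_eq_zero fun j _ => by rw [t2.l j, zero_mul]
    rw [h2, h3, mul_zero, sub_zero]
  have hcf : ∀ k, ∑ i, B s n k i * NullU.cf n (B s n) l i = NullU.dtB (B s n) * proj n k l :=
    fun k => NullU.cf_mul' (NullU.fx_norm n) t2 k l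
  have h5 : ∑ k, w k * (NullU.dtB (B s n) * proj n k l) = 0 := by
    have h6 : ∑ k, w k * (NullU.dtB (B s n) * proj n k l) =
        ∑ i, (∑ k, B s n k i * w k) * NullU.cf n (B s n) l i := by
      rw [Finset.sum_congr rfl fun k _ => by rw [← hcf k]]
      simp only [Fin.sum_univ_three]
      ring
    rw [h6]
    exact Finset.sum_eq_zero fun i _ => by rw [hBw i, zero_mul]
  have h7 : ∀ k, w k * (NullU.dtB (B s n) * proj n k l) =
      NullU.dtB (B s n) * ((if k = l then 1 else 0) * w k) -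
        NullU.dtB (B s n) * (n : E3) l * ((n : E3) k * w k) := by
    intro k
    unfold proj
    ring
  rw [Finset.sum_congr rfl fun k _ => h7 k, Finset.sum_sub_distrib, ← Finset.mul_sum,
    ← Finset.mul_sum, hnw, mul_zero, sub_zero] at h5
  have h8 : ∑ k, (if k = l then (1 : ℝ) else 0) * w k = w l := by simp
  rw [h8] at h5
  have h9 := NullU.dt_pos hD hB hs.le n
  have h10 : w l = 0 := by
    rcases mul_eq_zero.1 h5 with h11 | h11
    · exact absurd h11 h9.ne'
    · exact h11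
  rw [hw] at h10
  simp only at h10
  linarith

theorem f1_vec {u : Fin 3 → ℝ} {r dr : ℝ → ℝ} (hD : D.IsNull) (hB : Frm D δ T B)
    (hg : ∀ s, 0 ≤ s → ∀ i, ∑ j, D.g s n i j * u j = r s ^ 2 * u i)
    (r0 : ∀ s, 0 ≤ s → 0 < r s) (rd : ∀ s, 0 < s → HasDerivAt r (dr s) s)
    (hT : ∀ i, ∑ j, B T n i j * u j = r T * u i) {s : ℝ} (hs : δ ≤ s) (hsT : s ≤ T) (i : Fin 3) :
    ∑ j, B s n i j * u j = r s * u i := by
  have hs0 : 0 < s := hB.pos.trans_le hs
  have hT0 : 0 < T := hs0.trans_le hsT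
  have hd : ∀ t, HasDerivAt (fun t => ∑ j, B t n i j * u j) (∑ j, dB B t n i j * u j) t := by
    intro t
    exact HasDerivAt.fun_sum fun j _ => (NullU.dB_der hB t n i j).mul_const _
  have h1 : (fun t => (∑ j, B t n i j * u j) / r t) s = (fun t => (∑ j, B t n i j * u j) / r t) T := by
    refine f1_const (F := fun t => (∑ j, B t n i j * u j) / r t) ?_ ?_ hs hsT
    · intro t ht
      have ht0 : 0 < t := hB.pos.trans_le ht.1
      exact ((hd t).continuousAt.div (rd t ht0).continuousAt (r0 t ht0.le).ne').continuousWithinAt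
    · intro t ht1 ht2
      have ht0 : 0 < t := hB.pos.trans ht1
      have h2 := (hd t).div (rd t ht0) (r0 t ht0.le).ne'
      rw [f1_key hD hB hg r0 rd ht1 i] at h2
      have h3 := (r0 t ht0.le).ne'
      refine h2.congr_deriv ?_
      field_simp
      ring
  simp only at h1
  rw [hT i] at h1
  have h2 := (r0 s hs0.le).ne'
  have h3 := (r0 T hT0.le).ne'
  field_simp at h1
  linarith

theorem f1_proj {u : Fin 3 → ℝ} (hu : ∑ i, (n : E3) i * u i = 0) (i : Fin 3) :
    ∑ j, proj n i j * u j = u i := by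
  have h7 : ∀ j, proj n i j * u j = (if i = j then 1 else 0) * u j - (n : E3) i * ((n : E3) j * u j) := by
    intro j
    unfold proj
    ring
  rw [Finset.sum_congr rfl fun j _ => h7 j, Finset.sum_sub_distrib, ← Finset.mul_sum, hu]
  simp

theorem f1_top {u : Fin 3 → ℝ} {r r' : ℝ → ℝ} (hB : Frm D δ T B) (hu : ∑ i, (n : E3) i * u i = 0)
    (hg : ∀ s, 0 ≤ s → ∀ i, ∑ j, D.g s n i j * u j = r s ^ 2 * u i)
    (r0 : ∀ s, 0 ≤ s → 0 < r s) (r0' : ∀ s, 0 ≤ s → 0 < r' s) (hA : D.dA T n = r T * r' T)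
    (hh : Real.sqrt ((∑ i, D.g T n i i) + 2 * D.dA T n) = r T + r' T) (i : Fin 3) :
    ∑ j, B T n i j * u j = r T * u i := by
  have hT0 : 0 < T := hB.pos.trans hB.lt
  have h1 : ∑ j, B T n i j * u j = (∑ j, D.g T n i j * u j + D.dA T n * ∑ j, proj n i j * u j) /
      (r T + r' T) := by
    have h0 : ∀ j, B T n i j = (D.g T n i j + D.dA T n * proj n i j) / (r T + r' T) :=
      fun j => by rw [hB.top n i j, hh]
    simp only [h0, Fin.sum_univ_three]
    ring
  rw [h1, hg T hT0.le i, f1_proj hu i, hA]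
  have h2 := r0 T hT0.le
  have h3 := r0' T hT0.le
  have h4 : r T + r' T ≠ 0 := by positivity
  field_simp

theorem frm_eq (hD : D.Quiet) (h : Full D K n e f p q dp dq) (hB : Frm D δ T B) {s : ℝ} (hs : δ ≤ s) (hsT : s ≤ T) (i j : Fin 3) :
    B s n i j = p s * (e i * e j) + q s * (f i * f j) := by
  have hs0 : 0 < s := hB.pos.trans_le hs
  have hT0 : 0 < T := hs0.trans_le hsT
  have hA := dA_pq hD h.toEig h.toRy hT0.le
  have hTT : Real.sqrt ((∑ i, D.g T n i i) + 2 * D.dA T n) = p T + q T := TT_eq hD h hT0.le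
  have hge := fun s (hs : 0 ≤ s) i => f1_ge h hs i
  have hgf := fun s (hs : 0 ≤ s) i => f1_gf h hs i
  have he : ∀ i, ∑ j, B s n i j * e j = p s * e i :=
    fun i => f1_vec hD.null hB hge h.pp h.pd (f1_top hB h.en hge h.pp h.qp hA hTT) hs hsT i
  have hf : ∀ i, ∑ j, B s n i j * f j = q s * f i :=
    fun i => f1_vec hD.null hB hgf h.qp h.qd (f1_top hB h.fn hgf h.qp h.pp (by rw [hA, mul_comm])
      (by rw [hTT, add_comm])) hs hsT i
  have hn := (hB.tng s hs n).r i
  have h1 : ∀ k, B s n i k * (if k = j then 1 else 0) =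
      B s n i k * e k * e j + B s n i k * f k * f j + B s n i k * (n : E3) k * (n : E3) j := by
    intro k
    have h2 := proj_ef h.toOnb k j
    unfold proj at h2
    have h3 : (if k = j then (1 : ℝ) else 0) = e k * e j + f k * f j + (n : E3) k * (n : E3) j := by
      linarith
    rw [h3]
    ring
  have h4 : B s n i j = ∑ k, B s n i k * (if k = j then 1 else 0) := by simp
  rw [h4, Finset.sum_congr rfl fun k _ => h1 k, Finset.sum_add_distrib, Finset.sum_add_distrib,
    ← Finset.sum_mul, ← Finset.sum_mul, ← Finset.sum_mul, he i, hf i, hn]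
  ring

theorem dfrm_eq (hD : D.Quiet) (h : Full D K n e f p q dp dq) (hB : Frm D δ T B) {s : ℝ} (hs : δ < s) (hsT : s < T) (i j : Fin 3) :
    dB B s n i j = dp s * (e i * e j) + dq s * (f i * f j) := by
  have hs0 : 0 < s := hB.pos.trans hs
  have h1 := NullU.dB_der hB s n i j
  have h2 : (fun t => B t n i j) =ᶠ[𝓝 s] fun t => p t * (e i * e j) + q t * (f i * f j) := by
    filter_upwards [lt_mem_nhds hs, gt_mem_nhds hsT] with t ht1 ht2
    exact frm_eq hD h hB ht1.le ht2.le i j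
  exact (h2.hasDerivAt_iff.mp h1).unique
    (((h.pd s hs0).mul_const _).add ((h.qd s hs0).mul_const _))

end NullQ
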