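import Pool.Agent.Lib.H74Q.F1
import Pool.Agent.Lib.H74Q.C2
import Pool.Agent.Lib.H74Q.E3

set_option autoImplicit false

/-!
Chunk F2 (M). The curl of the frame.
Proof. `s ∈ [δ, T]`. On the sphere `B s n i j = th (ta P + Bo) i j` (`frm_eq` for an `exists_full` at each `n`, `Bo_eq`, `th_eq`, `ta_eq`, `p_eq`, `q_eq`, `proj_ef`). Both sides have rotation derivatives: `hr_val` for the smooth function `y ↦ B s y i j`
gives `rl j' (fun y => B s y i j) n`; the right side by `hr_mul`, `hr_add`, `hr_th`, `hr_ta`, `hr_B`, `hr_val` for `proj`. `hr_uni`: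
`rl j' (B i j) = rth j' (ta P + Bo) i j + th (rta j' P i j + ta rl j' (proj i j) + rB j' i j)`. So `Cu (B s) n i = Σ_j rl j (B i j) = ta Σ_j P i j rth j + Σ_j Bo i j rth j + th Σ_j P i j rta j + th Σ_j rB j i j`
(`Σ_j rl j (proj i j) = 0`: `NullU.AS2_fproj`, `NullU.AS2_sumP1`), and `cc = Cu × n`. `(P r) × n = r × n` (`P = δ - n n`), and for the symmetric, tangential, trace-free `Bo`: `(Bo r) × n = - Bo (r × n)` (`crs`, `c2_sym`, `c2_tan`, `c2_tr`;
or use the basis: `r = x n + ..`, `Bo = b (ee - ff)`, `e × n = ∓ f`, `f × n = ± e`). `rl` tangential: `Σ_j n_j rth j = 0` is not needed.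
-/

open MeasureTheory Filter Topology Set
open scoped ContDiff

namespace NullQ

open NullPen (E3 S2 sm proj pd MatterData NullData)
open NullU (Frm dB cc)

variable {D : MatterData} {δ T : ℝ} {B : ℝ → E3 → Fin 3 → Fin 3 → ℝ}

theorem F2_lin (A : Fin 3 → Fin 3 → ℝ) (r v : Fin 3 → ℝ) (k : Fin 3) :
    NullU.crs (fun i => ∑ j, A i j * r j) v k = (∑ i, A i i) * NullU.crs r v k -
      ∑ l, A l k * NullU.crs r v l - NullU.crs r (fun i => ∑ j, A i j * v j) k := by
  simp only [NullU.crs, Fin.sum_univ_three]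
  fin_cases k <;> simp <;> ring

theorem F2_P (n : E3) (r : Fin 3 → ℝ) (k : Fin 3) :
    NullU.crs (fun i => ∑ j, proj n i j * r j) (fun i => n i) k = NullU.crs r (fun i => n i) k := by
  simp only [NullU.crs, Fin.sum_univ_three, proj]
  fin_cases k <;> simp <;> ring

theorem F2_Bo (hD : D.Quiet) (n : S2) (r : Fin 3 → ℝ) (k : Fin 3) :
    NullU.crs (fun i => ∑ j, Bo D i j n * r j) (fun i => (n : E3) i) k =
      -∑ l, Bo D k l n * NullU.crs r (fun i => (n : E3) i) l := by
  rw [F2_lin, c2_tr hD]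
  have h1 : (fun i => ∑ j, Bo D i j n * (n : E3) j) = fun _ => (0 : ℝ) := funext fun i => c2_tan hD n i
  rw [h1]
  have h2 : NullU.crs r (fun _ => (0 : ℝ)) k = 0 := by
    unfold NullU.crs
    ring
  rw [h2, zero_mul, zero_sub, sub_zero]
  congr 1
  refine Finset.sum_congr rfl fun l _ => ?_
  rw [c2_sym hD n l k]

theorem F2_rlp (n : E3) (i : Fin 3) : ∑ j, NullU.rl j (fun y : E3 => proj y i j) n = 0 := by
  unfold NullU.rl
  simp only [NullU.AS2_fproj]
  exact NullU.AS2_sumP1 n i

theorem F2_dp (n : S2) (i j : Fin 3) : DifferentiableAt ℝ (fun y : E3 => proj y i j) n := by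
  unfold proj
  fun_prop

theorem frm_root (hD : D.Quiet) (hB : Frm D δ T B) {s : ℝ} (hs : δ ≤ s) (hsT : s ≤ T) (n : S2) (i j : Fin 3) :
    B s n i j = th D s n * (ta D s n * proj n i j + Bo D i j n) := by
  obtain ⟨K, hK0, hK⟩ := exists_full hD
  obtain ⟨e, f, p, q, dp, dq, h⟩ := hK n
  have hr := h.toRy
  have hs0 : 0 ≤ s := hB.pos.le.trans hs
  rw [frm_eq hD h hB hs hsT, th_eq hD h hs0, ta_eq hD h hs0, Bo_eq hD h, proj_ef h.toOnb,
    p_eq hr hs0, q_eq hr hs0]
  ring

theorem cc_eq (hD : D.Quiet) (hB : Frm D δ T B) {s : ℝ} (hs : δ ≤ s) (hsT : s ≤ T) (n : S2) (k : Fin 3) :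
    cc (B s) n k = DD D s n k := by
  have hs0 : 0 ≤ s := hB.pos.le.trans hs
  have hN := hD.null
  have hA := hD.flat
  have h1 : ∀ i j l : Fin 3, NullU.rl l (fun y => B s y i j) n = rth D l s n * (ta D s n * proj n i j + Bo D i j n) +
      th D s n * ((rta D l s n * proj n i j + ta D s n * NullU.rl l (fun y : E3 => proj y i j) n) + rB D l i j n) := by
    intro i j l
    have h2 : HR (fun m : S2 => B s m i j) (fun l m => NullU.rl l (fun y => B s y i j) m) := by
      refine hr_val (G := fun y => B s y i j) fun m => ?_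
      have h3 : ContDiff ℝ ∞ (fun y : E3 => B s y i j) := (hB.sm i j).comp (contDiff_const.prodMk contDiff_id)
      exact (h3.differentiable (by simp)) _
    have h4 := hr_mul (hr_th hN hA hs0) (hr_add (hr_mul (hr_ta hN hA hs0) (hr_val (G := fun y : E3 => proj y i j)
      fun m => F2_dp m i j)) (hr_B hN hA i j))
    have h5 : (fun m : S2 => B s m i j) = fun m : S2 => th D s m * (ta D s m * proj m i j + Bo D i j m) :=
      funext fun m => frm_root hD hB hs hsT m i j
    rw [h5] at h2
    exact hr_uni h2 h4 l n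
  have h6 : NullU.Cu (B s) n = fun i => (th D s n * (∑ j, proj (n : E3) i j * rta D j s n) +
      ta D s n * (∑ j, proj (n : E3) i j * rth D j s n)) + ((∑ j, Bo D i j n * rth D j s n) +
      th D s n * ∑ j, rB D j i j n) := by
    funext i
    unfold NullU.Cu
    rw [Finset.sum_congr rfl fun j _ => h1 i j j]
    have h7 := F2_rlp n i
    have h8 : ∀ j : Fin 3, rth D j s n * (ta D s n * proj n i j + Bo D i j n) +
      th D s n * ((rta D j s n * proj n i j + ta D s n * NullU.rl j (fun y : E3 => proj y i j) n) + rB D j i j n) =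
      (th D s n * (proj (n : E3) i j * rta D j s n) + ta D s n * (proj (n : E3) i j * rth D j s n)) +
      (Bo D i j n * rth D j s n + th D s n * rB D j i j n) +
      th D s n * ta D s n * NullU.rl j (fun y : E3 => proj y i j) n := fun j => by ring
    rw [Finset.sum_congr rfl fun j _ => h8 j]
    simp only [Finset.sum_add_distrib, ← Finset.mul_sum]
    rw [h7]
    ring
  have hadd : ∀ (u v w : Fin 3 → ℝ), NullU.crs (fun i => u i + v i) w k = NullU.crs u w k + NullU.crs v w k := by
    intro u v w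
    unfold NullU.crs
    ring
  have hmul : ∀ (c : ℝ) (v w : Fin 3 → ℝ), NullU.crs (fun i => c * v i) w k = c * NullU.crs v w k := by
    intro c v w
    unfold NullU.crs
    ring
  unfold NullU.cc
  rw [h6]
  rw [hadd (fun i => th D s n * (∑ j, proj (n : E3) i j * rta D j s n) +
      ta D s n * (∑ j, proj (n : E3) i j * rth D j s n)) (fun i => (∑ j, Bo D i j n * rth D j s n) +
      th D s n * ∑ j, rB D j i j n),
    hadd (fun i => th D s n * (∑ j, proj (n : E3) i j * rta D j s n)) (fun i =>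
      ta D s n * (∑ j, proj (n : E3) i j * rth D j s n)),
    hadd (fun i => ∑ j, Bo D i j n * rth D j s n) (fun i => th D s n * ∑ j, rB D j i j n),
    hmul _ (fun i => ∑ j, proj (n : E3) i j * rta D j s n), hmul _ (fun i => ∑ j, proj (n : E3) i j * rth D j s n),
    hmul _ (fun i => ∑ j, rB D j i j n), F2_P (n : E3) (fun j => rta D j s n), F2_P (n : E3) (fun j => rth D j s n),
    F2_Bo hD n (fun j => rth D j s n)]
  unfold DD cB gdv
  ring

end NullQ
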