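import Pool.Agent.Lib.H74Q.F2
import Pool.Agent.Lib.H17U.BF5
import Pool.Agent.Lib.H17U.TC3

set_option autoImplicit false

/-!
Chunk F3 (M). The torsion equation in the eigenframe.
Proof. For `s > 0` take a frame with `δ = s/2`, `T = s + 1` (`NullU.exists_frame`). Near `s`: `DD D t n k = cc (B t) n k` (`cc_eq`), so `DD` has the derivative `cc (dB B s) n k` (`NullU.cc_der`); `NullU.tor_pt` for `dA ζ_k`, contracted with `e_k`:
`Σ_k e_k (Σ_l (B l k cc(dB) l - dB l k cc(B) l) + dA j_k) = p Σ_l e_l cc(dB) l - dp Σ_l e_l cc(B) l + dA j(e)` (`frm_eq`, `dfrm_eq`, `Onb`). The derivative function is `deriv`.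
`dec_ray`: `torSq = Σ gi ζ ζ = ζ_e^2/p^2 + ζ_f^2/q^2` (`gi i j = e i e j/p^2 + f i f j/q^2`: `NullU.gi_form` or `gi_inv`), `dA = p q`, so `torSq dA = Ze^2/(p^3 q) + Zf^2/(p q^3)` with `Ze = dA ζ_e`. `dec`: `j_e^2/p^2 + j_f^2/q^2 <= e ρ`, so for all `A1, A2`:
`ρ >= 2 (j_e A1 + j_f A2) - e (p^2 A1^2 + q^2 A2^2)` (`(Σ j A)^2 <= (Σ j^2/p^2)(Σ p^2 A^2) <= e ρ Σ p^2 A^2` and `2 sqrt(e ρ w) <= ρ + e w`); take `A1 = 2 y1/p^2`, `A2 = 2 y2/q^2` and multiply by `dA`.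
-/

open MeasureTheory Filter Topology Set
open scoped ContDiff

namespace NullQ

open NullPen (E3 S2 sm proj pd MatterData NullData)

variable {D : MatterData} {K : ℝ} {n : S2} {e f : Fin 3 → ℝ} {p q dp dq : ℝ → ℝ}

/-- Component of `dA ζ`. -/
noncomputable def Zc (D : MatterData) (n : S2) (e : Fin 3 → ℝ) (s : ℝ) : ℝ := D.dA s n * ∑ k, D.ζ s n k * e k

/-- Component of `dA j`. -/
noncomputable def Jc (D : MatterData) (n : S2) (e : Fin 3 → ℝ) (s : ℝ) : ℝ := D.dA s n * ∑ k, D.j s n k * e k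

/-- Component of `DD`. -/
noncomputable def Dc (D : MatterData) (n : S2) (e : Fin 3 → ℝ) (s : ℝ) : ℝ := ∑ k, DD D s n k * e k

theorem f3_aux (hD : D.Quiet) {w : Fin 3 → ℝ} {a da δ T : ℝ} {B : ℝ → E3 → Fin 3 → Fin 3 → ℝ}
    (hB : NullU.Frm D δ T B) {s : ℝ} (hs : δ < s) (hsT : s < T)
    (h1 : ∀ l, ∑ k, B s n l k * w k = a * w l) (h2 : ∀ l, ∑ k, NullU.dB B s n l k * w k = da * w l) :
    HasDerivAt (Dc D n w) (deriv (Dc D n w) s) s ∧
    HasDerivAt (Zc D n w) (a * deriv (Dc D n w) s - da * Dc D n w s + Jc D n w s) s := by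
  have e1 : Dc D n w =ᶠ[𝓝 s] fun t => ∑ k, NullU.cc (B t) n k * w k := by
    filter_upwards [lt_mem_nhds hs, gt_mem_nhds hsT] with t ht ht'
    unfold Dc
    exact Finset.sum_congr rfl fun k _ => by rw [cc_eq hD hB ht.le ht'.le]
  have e2 : HasDerivAt (fun t => ∑ k, NullU.cc (B t) n k * w k) (∑ k, NullU.cc (NullU.dB B s) n k * w k) s :=
    HasDerivAt.fun_sum fun k _ => (NullU.cc_der hB.sm s n k).mul_const _
  have e3 : HasDerivAt (Dc D n w) (∑ k, NullU.cc (NullU.dB B s) n k * w k) s := e2.congr_of_eventuallyEq e1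
  have e4 : deriv (Dc D n w) s = ∑ k, NullU.cc (NullU.dB B s) n k * w k := e3.deriv
  refine ⟨by rw [e4]; exact e3, ?_⟩
  have e5 : Zc D n w = fun t => ∑ k, D.dA t n * D.ζ t n k * w k := by
    funext t
    unfold Zc
    rw [Finset.mul_sum]
    exact Finset.sum_congr rfl fun k _ => by ring
  have e6 : HasDerivAt (Zc D n w) (∑ k, ((∑ l, (B s n l k * NullU.cc (NullU.dB B s) n l -
      NullU.dB B s n l k * NullU.cc (B s) n l)) + D.dA s n * D.j s n k) * w k) s := by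
    rw [e5]
    exact HasDerivAt.fun_sum fun k _ => (NullU.tor_pt hD.null hB hs n k).mul_const _
  refine e6.congr_deriv ?_
  rw [e4]
  unfold Dc Jc
  have e7 : ∀ l, NullU.cc (B s) n l = DD D s n l := fun l => cc_eq hD hB hs.le hsT.le n l
  have a0 := h1 0
  have a1 := h1 1
  have a2 := h1 2
  have b0 := h2 0
  have b1 := h2 1
  have b2 := h2 2
  simp only [e7, Fin.sum_univ_three] at a0 a1 a2 b0 b1 b2 ⊢
  linear_combination (NullU.cc (NullU.dB B s) n 0) * a0 + (NullU.cc (NullU.dB B s) n 1) * a1 +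
    (NullU.cc (NullU.dB B s) n 2) * a2 - DD D s n 0 * b0 - DD D s n 1 * b1 - DD D s n 2 * b2

theorem tor_e (hD : D.Quiet) (h : Full D K n e f p q dp dq) {s : ℝ} (hs : 0 < s) :
    HasDerivAt (Dc D n e) (deriv (Dc D n e) s) s ∧
    HasDerivAt (Zc D n e) (p s * deriv (Dc D n e) s - dp s * Dc D n e s + Jc D n e s) s := by
  have hh : s / 2 < s := half_lt_self hs
  obtain ⟨B, hB⟩ := NullU.exists_frame hD.null (half_pos hs) (hh.trans (lt_add_one s))
  refine f3_aux hD hB hh (lt_add_one s) ?_ ?_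
  · intro l
    have h1 : ∀ k, B s n l k * e k = p s * e l * e k ^ 2 + q s * f l * (e k * f k) := by
      intro k
      rw [frm_eq hD h hB hh.le (lt_add_one s).le]
      ring
    rw [Finset.sum_congr rfl fun k _ => h1 k, Finset.sum_add_distrib, ← Finset.mul_sum, ← Finset.mul_sum,
      h.ee, h.ef]
    ring
  · intro l
    have h1 : ∀ k, NullU.dB B s n l k * e k = dp s * e l * e k ^ 2 + dq s * f l * (e k * f k) := by
      intro k
      rw [dfrm_eq hD h hB hh (lt_add_one s)]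
      ring
    rw [Finset.sum_congr rfl fun k _ => h1 k, Finset.sum_add_distrib, ← Finset.mul_sum, ← Finset.mul_sum,
      h.ee, h.ef]
    ring

theorem tor_f (hD : D.Quiet) (h : Full D K n e f p q dp dq) {s : ℝ} (hs : 0 < s) :
    HasDerivAt (Dc D n f) (deriv (Dc D n f) s) s ∧
    HasDerivAt (Zc D n f) (q s * deriv (Dc D n f) s - dq s * Dc D n f s + Jc D n f s) s := by
  have hh : s / 2 < s := half_lt_self hs
  obtain ⟨B, hB⟩ := NullU.exists_frame hD.null (half_pos hs) (hh.trans (lt_add_one s))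
  refine f3_aux hD hB hh (lt_add_one s) ?_ ?_
  · intro l
    have h1 : ∀ k, B s n l k * f k = p s * e l * (e k * f k) + q s * f l * f k ^ 2 := by
      intro k
      rw [frm_eq hD h hB hh.le (lt_add_one s).le]
      ring
    rw [Finset.sum_congr rfl fun k _ => h1 k, Finset.sum_add_distrib, ← Finset.mul_sum, ← Finset.mul_sum,
      h.ff, h.ef]
    ring
  · intro l
    have h1 : ∀ k, NullU.dB B s n l k * f k = dp s * e l * (e k * f k) + dq s * f l * f k ^ 2 := by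
      intro k
      rw [dfrm_eq hD h hB hh (lt_add_one s)]
      ring
    rw [Finset.sum_congr rfl fun k _ => h1 k, Finset.sum_add_distrib, ← Finset.mul_sum, ← Finset.mul_sum,
      h.ff, h.ef]
    ring

theorem f3_gi (hD : D.Quiet) (h : Full D K n e f p q dp dq) {s : ℝ} (hs : 0 ≤ s) (i j : Fin 3) :
    D.gi s n i j = e i * e j / p s ^ 2 + f i * f j / q s ^ 2 := by
  have hp := h.pp s hs
  have hq := h.qp s hs
  have h1 := NullU.gi_form hD.null n hs i j
  have h2 : ∑ k, D.g s n k k = p s ^ 2 + q s ^ 2 := by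
    have h3 : ∀ k, D.g s n k k = p s ^ 2 * e k ^ 2 + q s ^ 2 * f k ^ 2 := by
      intro k
      rw [h.g s hs]
      ring
    rw [Finset.sum_congr rfl fun k _ => h3 k, Finset.sum_add_distrib, ← Finset.mul_sum, ← Finset.mul_sum,
      h.ee, h.ff]
    ring
  rw [h2, dA_pq hD h.toEig h.toRy hs, proj_ef h.toOnb, h.g s hs] at h1
  field_simp
  linear_combination h1

theorem f3_q (hD : D.Quiet) (h : Full D K n e f p q dp dq) {s : ℝ} (hs : 0 ≤ s) (w : Fin 3 → ℝ) :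
    ∑ i, ∑ j, D.gi s n i j * w i * w j = (∑ k, w k * e k) ^ 2 / p s ^ 2 + (∑ k, w k * f k) ^ 2 / q s ^ 2 := by
  simp only [f3_gi hD h hs, Fin.sum_univ_three]
  ring

theorem tor_sq (hD : D.Quiet) (h : Full D K n e f p q dp dq) {s : ℝ} (hs : 0 ≤ s) :
    D.torSq s n * D.dA s n = Zc D n e s ^ 2 / (p s ^ 3 * q s) + Zc D n f s ^ 2 / (p s * q s ^ 3) := by
  have hp := h.pp s hs
  have hq := h.qp s hs
  have h1 : D.torSq s n = (∑ k, D.ζ s n k * e k) ^ 2 / p s ^ 2 + (∑ k, D.ζ s n k * f k) ^ 2 / q s ^ 2 :=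
    f3_q hD h hs _
  unfold Zc
  rw [h1, dA_pq hD h.toEig h.toRy hs]
  field_simp

theorem f3_alg {a b u v r c : ℝ} (hc : 0 ≤ c) (hr : 0 ≤ r) (h : a ^ 2 + b ^ 2 ≤ c * r) :
    4 * (a * u + b * v) - 4 * c * (u ^ 2 + v ^ 2) ≤ r := by
  rcases hc.eq_or_lt with h0 | h0
  · rw [← h0] at h ⊢
    have h1 : a = 0 := by nlinarith [sq_nonneg a, sq_nonneg b]
    have h2 : b = 0 := by nlinarith [sq_nonneg a, sq_nonneg b]
    rw [h1, h2]
    linarith
  · refine le_of_mul_le_mul_left ?_ h0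
    nlinarith [sq_nonneg (a - 2 * c * u), sq_nonneg (b - 2 * c * v)]

theorem dec_ray (hD : D.Quiet) (h : Full D K n e f p q dp dq) {s : ℝ} (hs : 0 ≤ s) (y1 y2 : ℝ) :
    2 * Zc D n e s ^ 2 / (p s ^ 3 * q s) + 2 * Zc D n f s ^ 2 / (p s * q s ^ 3) + 4 * Jc D n e s * y1 / p s ^ 2 +
      4 * Jc D n f s * y2 / q s ^ 2 - 8 * (D.e s n / 2) * (y1 ^ 2 * q s / p s + y2 ^ 2 * p s / q s) ≤
    2 * (D.torSq s n * D.dA s n) + D.ρ s n * D.dA s n := by
  have hp := h.pp s hs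
  have hq := h.qp s hs
  rw [tor_sq hD h hs]
  have h1 := hD.null.dec s hs n
  have h2 : ∑ i, ∑ k, D.gi s n i k * D.j s n i * D.j s n k =
      (∑ k, D.j s n k * e k) ^ 2 / p s ^ 2 + (∑ k, D.j s n k * f k) ^ 2 / q s ^ 2 := f3_q hD h hs _
  rw [h2] at h1
  have h3 : ((∑ k, D.j s n k * e k) / p s) ^ 2 + ((∑ k, D.j s n k * f k) / q s) ^ 2 ≤ D.e s n * D.ρ s n := by
    rw [div_pow, div_pow]
    exact h1
  have h4 := f3_alg (u := y1 / p s) (v := y2 / q s) (hD.null.e_nonneg s hs n) (hD.null.ρ_nonneg s hs n) h3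
  have h5 := mul_le_mul_of_nonneg_right h4 (mul_pos hp hq).le
  unfold Jc
  rw [dA_pq hD h.toEig h.toRy hs]
  refine le_trans (le_of_eq ?_) (add_le_add_right h5 _)
  field_simp
  ring

end NullQ
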