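import Pool.Agent.Lib.H74Q.M1

set_option autoImplicit false

/-!
Assembly: the null Penrose inequality for null hypersurfaces crossed by matter but not by gravitational radiation.
-/

open MeasureTheory Filter Topology Set
open scoped ContDiff

namespace NullQ

open NullPen (E3 S2 sm proj pd MatterData NullData)

theorem mainQ : (∀ D : MatterData, D.Quiet → ∀ E, D.BondiEnergy E → Real.sqrt (D.area 0 / (16 * Real.pi)) ≤ E) ∧
    ∀ (A E : ℝ) (P : Fin 3 → ℝ), (∀ (u : Fin 3 → ℝ) (γ : ℝ), 0 < γ → γ ^ 2 = 1 + ∑ i, u i ^ 2 →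
      ∃ D : MatterData, D.Quiet ∧ D.area 0 = A ∧ D.BondiEnergy (γ * E - ∑ i, u i * P i)) →
    Real.sqrt (∑ i, P i ^ 2) < E ∧ Real.sqrt (A / (16 * Real.pi)) ≤ Real.sqrt (E ^ 2 - ∑ i, P i ^ 2) := by
  refine ⟨fun D hD E hE => penrose_q hD hE, fun A E P h => ?_⟩
  have hπ := Real.pi_pos
  obtain ⟨D, hD, hA, _⟩ := h (fun _ => 0) 1 one_pos (by simp)
  have hA0 : 0 < A := hA ▸ area_pos_q hD
  refine NShell.mass_of_all E _ P (Real.sqrt_pos.2 (by positivity)) fun u γ hγ hu => ?_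
  obtain ⟨D', hD', hA', hE'⟩ := h u γ hγ hu
  rw [← hA']
  exact penrose_q hD' hE'

end NullQ
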