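import Pool.Agent.Lib.H74Q.Sc
import Pool.Agent.Lib.H74P.G1

set_option autoImplicit false

/-!
Chunk S1 (M). Elementary properties of `W` and `P`.
Proof. `t > 0`, `t s >= t 0 + s` (`t' = 1/(1-z) >= 1`; `NullPen.nonneg_of_der`). `WW_der`: the integrand `F = t (1-z)(1+az)` is continuous on `[0,∞)`; `(∫F)' = F` (`NullPen.g1_int_der`), quotient rule:
`W' = F/t^2 - 2 W t'/t = ((1-z)(1+az) - 2 W/(1-z))/t = P/t`. `PP_nonneg`: `N = g(z) t^2 - 2 ∫F` is continuous, `N 0 = g(z 0) (t 0)^2 >= 0`, `N' = ∂g/∂z z' t^2 + 2 g t/(1-z) - 2 F = ∂g/∂z z' t^2 >= 0`, as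
`∂g/∂z = -(1-z)((2-a) + 3 a z) <= 0` for `-1 <= a <= 1` (linear in `z`: values `2-a` and `2+2a`).
-/

open MeasureTheory Filter Topology Set

namespace NullQ

variable {z dz t : ℝ → ℝ} {a s : ℝ}

theorem s1_inv (h : ZT z dz t) (hs : 0 ≤ s) : 0 < 1 - z s := by
  have := h.z1 s hs
  linarith

theorem t_ge (h : ZT z dz t) (hs : 0 ≤ s) : t 0 + s ≤ t s := by
  have h1 : MonotoneOn (fun s => t s - s) (Ici 0) :=
    NullPen.g1_mono (F' := fun s => 1 / (1 - z s) - 1) (h.tc.sub continuousOn_id)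
      (fun s hs => (h.td s hs).sub (hasDerivAt_id s)) (fun s hs => by
        have h2 := s1_inv h hs.le
        have h3 := h.z0 s hs.le
        have h4 : 1 ≤ 1 / (1 - z s) := by
          rw [le_div_iff₀ h2]
          linarith
        linarith)
  have h2 := h1 (by simp : (0 : ℝ) ∈ Ici 0) hs hs
  simp only at h2
  linarith

theorem t_pos (h : ZT z dz t) (hs : 0 ≤ s) : 0 < t s := by
  have h1 := t_ge h hs
  have h2 := h.t0
  linarith

theorem s1_aff (ha : -1 ≤ a) {x : ℝ} (h0 : 0 ≤ x) (h1 : x ≤ 1) : 0 ≤ 1 + a * x := by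
  nlinarith

theorem gg_nonneg (ha : -1 ≤ a) {x : ℝ} (h0 : 0 ≤ x) (h1 : x ≤ 1) : 0 ≤ gg a x :=
  mul_nonneg (sq_nonneg _) (s1_aff ha h0 h1)

theorem gg_le (ha : -1 ≤ a) (ha1 : a ≤ 1) {x : ℝ} (h0 : 0 ≤ x) (h1 : x ≤ 1) : gg a x ≤ 1 - x := by
  unfold gg
  have h2 : (1 - x) * (1 + a * x) ≤ 1 := by
    have h3 : a * x ≤ 1 * x := mul_le_mul_of_nonneg_right ha1 h0
    have h4 : (1 - x) * (1 + a * x) ≤ (1 - x) * (1 + x) :=
      mul_le_mul_of_nonneg_left (by linarith) (by linarith)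
    nlinarith
  have h3 : 0 ≤ 1 - x := by linarith
  calc (1 - x) ^ 2 * (1 + a * x) = (1 - x) * ((1 - x) * (1 + a * x)) := by ring
    _ ≤ (1 - x) * 1 := mul_le_mul_of_nonneg_left h2 h3
    _ = 1 - x := mul_one _

theorem WW_zero (a : ℝ) (z t : ℝ → ℝ) : WW a z t 0 = 0 := by
  unfold WW
  rw [intervalIntegral.integral_same, zero_div]

theorem s1_fc (h : ZT z dz t) (a : ℝ) :
    ContinuousOn (fun r => t r * ((1 - z r) * (1 + a * z r))) (Ici 0) :=
  h.tc.mul ((continuousOn_const.sub h.zc).mul (continuousOn_const.add (continuousOn_const.mul h.zc)))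

theorem WW_cont (h : ZT z dz t) (a : ℝ) : ContinuousOn (WW a z t) (Ici 0) :=
  (NullPen.g1_int_cont (s1_fc h a)).div (h.tc.pow 2) fun _ hs => pow_ne_zero 2 (t_pos h hs).ne'

theorem WW_der (h : ZT z dz t) (a : ℝ) (hs : 0 < s) : HasDerivAt (WW a z t) (PP a z t s / t s) s := by
  have h1 := NullPen.g1_int_der (s1_fc h a) hs
  have h2 := (h.td s hs).pow 2
  have ht := (t_pos h hs.le).ne'
  have hz := (s1_inv h hs.le).ne'
  have h3 := h1.div h2 (pow_ne_zero 2 ht)
  refine HasDerivAt.congr_deriv h3 ?_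
  unfold PP WW gg
  obtain ⟨I, hI⟩ : ∃ I, I = ∫ r in (0 : ℝ)..s, t r * ((1 - z r) * (1 + a * z r)) := ⟨_, rfl⟩
  simp only [← hI]
  simp only [Pi.pow_apply]
  field_simp
  ring

theorem WW_nonneg (h : ZT z dz t) (ha : -1 ≤ a) (hs : 0 ≤ s) : 0 ≤ WW a z t s := by
  unfold WW
  refine div_nonneg (intervalIntegral.integral_nonneg hs fun r hr => ?_) (sq_nonneg _)
  exact mul_nonneg (t_pos h hr.1).le (mul_nonneg (s1_inv h hr.1).le
    (s1_aff ha (h.z0 r hr.1) (h.z1 r hr.1).le))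

theorem WW_le (h : ZT z dz t) (ha : -1 ≤ a) (ha1 : a ≤ 1) (hs : 0 ≤ s) : 2 * WW a z t s ≤ gg a (z s) := by
  have hN : 0 ≤ (fun s => gg a (z s) * t s ^ 2 -
      2 * ∫ r in (0 : ℝ)..s, t r * ((1 - z r) * (1 + a * z r))) s := by
    refine NullPen.nonneg_of_der (F := fun s => gg a (z s) * t s ^ 2 -
      2 * ∫ r in (0 : ℝ)..s, t r * ((1 - z r) * (1 + a * z r)))
      (F' := fun s => -((1 - z s) * ((2 - a) + 3 * a * z s)) * dz s * t s ^ 2) ?_ ?_ ?_ ?_ hs
    · refine ContinuousOn.sub (ContinuousOn.mul ?_ (h.tc.pow 2))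
        (continuousOn_const.mul (NullPen.g1_int_cont (s1_fc h a)))
      exact ((continuousOn_const.sub h.zc).pow 2).mul
        (continuousOn_const.add (continuousOn_const.mul h.zc))
    · intro r hr
      have hz := (s1_inv h hr.le).ne'
      have e1 : HasDerivAt (fun s => gg a (z s)) (-((1 - z r) * ((2 - a) + 3 * a * z r)) * dz r) r := by
        have e2 := (((h.zd r hr).const_sub 1).pow 2).mul (((h.zd r hr).const_mul a).const_add 1)
        refine HasDerivAt.congr_deriv e2 ?_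
        simp only [Pi.pow_apply]
        push_cast
        ring
      have e3 := (e1.mul ((h.td r hr).pow 2)).sub ((NullPen.g1_int_der (s1_fc h a) hr).const_mul 2)
      refine HasDerivAt.congr_deriv e3 ?_
      simp only [Pi.pow_apply]
      unfold gg
      push_cast
      field_simp
      ring
    · intro r hr
      have h0 := h.z0 r hr.le
      have h1 := h.z1 r hr.le
      have h2 := h.zm r hr
      have h3 : 0 ≤ (2 - a) + 3 * a * z r := by nlinarith
      have h4 : 0 ≤ (1 - z r) * ((2 - a) + 3 * a * z r) := mul_nonneg (by linarith) h3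
      have h5 : 0 ≤ -((1 - z r) * ((2 - a) + 3 * a * z r)) * dz r := by nlinarith
      exact mul_nonneg h5 (sq_nonneg _)
    · show 0 ≤ gg a (z 0) * t 0 ^ 2 - 2 * ∫ r in (0 : ℝ)..0, t r * ((1 - z r) * (1 + a * z r))
      rw [intervalIntegral.integral_same, mul_zero, sub_zero]
      exact mul_nonneg (gg_nonneg ha (h.z0 0 le_rfl) (h.z1 0 le_rfl).le) (sq_nonneg _)
  have ht := t_pos h hs
  unfold WW
  have h2 : (0 : ℝ) < t s ^ 2 := by positivity
  rw [← mul_div_assoc, div_le_iff₀ h2]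
  simp only at hN
  linarith

theorem PP_nonneg (h : ZT z dz t) (ha : -1 ≤ a) (ha1 : a ≤ 1) (hs : 0 ≤ s) : 0 ≤ PP a z t s := by
  unfold PP
  refine div_nonneg ?_ (s1_inv h hs).le
  have := WW_le h ha ha1 hs
  linarith

theorem s1_gc (h : ZT z dz t) (a : ℝ) : ContinuousOn (fun s => gg a (z s)) (Ici 0) :=
  ((continuousOn_const.sub h.zc).pow 2).mul (continuousOn_const.add (continuousOn_const.mul h.zc))

theorem PP_cont (h : ZT z dz t) (a : ℝ) : ContinuousOn (PP a z t) (Ici 0) :=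
  ((s1_gc h a).sub (continuousOn_const.mul (WW_cont h a))).div (continuousOn_const.sub h.zc)
    fun _ hs => (s1_inv h hs).ne'

theorem cst_cont (h : ZT z dz t) (a : ℝ) : ContinuousOn (cst a z t) (Ici 0) := by
  have h1 := PP_cont h a
  have h2 := h.zc
  unfold cst
  fun_prop

theorem Rd_cont (h : ZT z dz t) (a : ℝ) : ContinuousOn (Rd a z t) (Ici 0) := by
  have h1 := s1_gc h a
  have h2 := WW_cont h a
  have h3 := h.zc
  have h4 : ContinuousOn (fun s => t 0 / t s) (Ici 0) :=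
    continuousOn_const.div h.tc fun _ hs => (t_pos h hs).ne'
  have h5 : ContinuousOn (fun s => 3 * (2 * WW a z t s) / (1 - z s)) (Ici 0) :=
    (continuousOn_const.mul (continuousOn_const.mul h2)).div (continuousOn_const.sub h.zc)
      fun _ hs => (s1_inv h hs).ne'
  unfold Rd
  refine ContinuousOn.div ?_ (continuousOn_const.sub h.zc) fun _ hs => (s1_inv h hs).ne'
  refine ContinuousOn.add ((continuousOn_const.sub h1).mul
    (continuousOn_const.sub (continuousOn_const.mul h2))) ?_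
  exact (((continuousOn_const.sub h4).mul (h1.sub (continuousOn_const.mul h2))).mul h3).mul
    (continuousOn_const.sub h5)

theorem s1_aff2 (ha1 : a ≤ 1) {x : ℝ} (h0 : 0 ≤ x) (h1 : x ≤ 1) : 0 ≤ 1 - a / 2 + a / 2 * x := by
  nlinarith

theorem s1_kc (h : ZT z dz t) (a : ℝ) :
    ContinuousOn (fun r => z r ^ 2 * (1 - a / 2 + a / 2 * z r) / (1 - z r)) (Ici 0) :=
  ((h.zc.pow 2).mul (continuousOn_const.add (continuousOn_const.mul h.zc))).div
    (continuousOn_const.sub h.zc) fun _ hs => (s1_inv h hs).ne'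

theorem s1_bc (h : ZT z dz t) (a : ℝ) :
    ContinuousOn (fun r => z r + a / 2 * z r ^ 2) (Ici 0) :=
  h.zc.add (continuousOn_const.mul (h.zc.pow 2))

theorem kap_nonneg (h : ZT z dz t) (ha : -1 ≤ a) (ha1 : a ≤ 1) (hs : 0 ≤ s) : 0 ≤ kap a z s := by
  have _ := ha
  unfold kap
  refine intervalIntegral.integral_nonneg hs fun r hr => ?_
  exact div_nonneg (mul_nonneg (sq_nonneg _) (s1_aff2 ha1 (h.z0 r hr.1) (h.z1 r hr.1).le))
    (s1_inv h hr.1).le

theorem bet_nonneg (h : ZT z dz t) (ha : -1 ≤ a) (hs : 0 ≤ s) : 0 ≤ bet a z s := by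
  unfold bet
  refine intervalIntegral.integral_nonneg hs fun r hr => ?_
  have h0 := h.z0 r hr.1
  have h1 := (h.z1 r hr.1).le
  have h2 : 0 ≤ 1 + a / 2 * z r := by nlinarith
  have h3 : z r + a / 2 * z r ^ 2 = z r * (1 + a / 2 * z r) := by ring
  show 0 ≤ z r + a / 2 * z r ^ 2
  rw [h3]
  exact mul_nonneg h0 h2

theorem vph_nonneg (h : ZT z dz t) (hs : 0 ≤ s) : 0 ≤ vph z s := by
  have _ := h.t0
  exact intervalIntegral.integral_nonneg hs fun r _ => sq_nonneg _

/-- `κ >= (1 - a/2) ϖ`. -/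
theorem vph_le (h : ZT z dz t) (ha : -1 ≤ a) (ha1 : a ≤ 1) (hs : 0 ≤ s) : (1 - a / 2) * vph z s ≤ kap a z s := by
  have _ := ha
  unfold vph kap
  rw [← intervalIntegral.integral_const_mul]
  have hsub : Set.uIcc 0 s ⊆ Ici 0 := by
    rw [uIcc_of_le hs]
    exact fun x hx => hx.1
  refine intervalIntegral.integral_mono_on hs ?_ ?_ ?_
  · exact ((continuousOn_const.mul (h.zc.pow 2)).mono hsub).intervalIntegrable
  · exact ((s1_kc h a).mono hsub).intervalIntegrable
  · intro r hr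
    have h0 := h.z0 r hr.1
    have h1 := s1_inv h hr.1
    show (1 - a / 2) * z r ^ 2 ≤ z r ^ 2 * (1 - a / 2 + a / 2 * z r) / (1 - z r)
    rw [le_div_iff₀ h1]
    have h2 : (1 - a / 2) * (1 - z r) ≤ 1 - a / 2 + a / 2 * z r := by nlinarith
    calc (1 - a / 2) * z r ^ 2 * (1 - z r) = z r ^ 2 * ((1 - a / 2) * (1 - z r)) := by ring
      _ ≤ z r ^ 2 * (1 - a / 2 + a / 2 * z r) := mul_le_mul_of_nonneg_left h2 (sq_nonneg _)

/-- `t s - s - β = t 0 + κ`. -/
theorem t_eq (h : ZT z dz t) (a : ℝ) (hs : 0 ≤ s) : t s - s - bet a z s = t 0 + kap a z s := by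
  have h1 : (fun s => t s - s - bet a z s - kap a z s) s =
      (fun s => t s - s - bet a z s - kap a z s) 0 := by
    refine NullPen.const_of_der (F := fun s => t s - s - bet a z s - kap a z s) ?_ ?_ hs
    · exact ((h.tc.sub continuousOn_id).sub (NullPen.g1_int_cont (s1_bc h a))).sub
        (NullPen.g1_int_cont (s1_kc h a))
    · intro r hr
      have hz := (s1_inv h hr.le).ne'
      have e1 := (((h.td r hr).sub (hasDerivAt_id r)).sub (NullPen.g1_int_der (s1_bc h a) hr)).sub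
        (NullPen.g1_int_der (s1_kc h a) hr)
      refine HasDerivAt.congr_deriv e1 ?_
      field_simp
      ring
  have h2 : bet a z 0 = 0 := intervalIntegral.integral_same
  have h3 : kap a z 0 = 0 := intervalIntegral.integral_same
  simp only at h1
  rw [h2, h3] at h1
  linarith

end NullQ
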