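import Pool.Agent.Lib.H74Q.B3
import Pool.Agent.Lib.H74Q.S1

set_option autoImplicit false

/-!
Chunk G1 (M). The test function along one generator.
Proof. Notation `t1 = ta + b`, `t2 = ta - b` (`p = ϑ t1`, `q = ϑ t2`), `P2 = PP a z t2`, `P1 = PP a z t1`, `Γ = (2-a) z + (3/2) a z^2` (so `cst a z t = 3 P^2 + 2 Γ P`), `y1 = f1 ∫_0^s (p/q) P2`, `u1 = f1 P2/q` (so `y1' = p u1`),
`y2 = f2 ∫_0^s (q/p) P1`, `u2 = f2 P1/p`.
(i) `(P2 + Γ)' = - 2 (dq/q) P2` for `s > 0`: `P2 = ϑ^2 (1 + a z) - 2 W/ϑ^2`, `W' = P2/t2`, `dq/q = ϑ'/ϑ + 1/(ϑ^2 t2)` (from `q = ϑ t2`, `t2' = 1/ϑ^2`), `z = 1 - ϑ^2`; similarly for `P1`, `dp`.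
(ii) `Φ1 = 4 Z1 y1/p^2 - 4 D1 y1/p + 4 (q dp/p^2) y1^2 + 4 y1^2 dq/p + 4 f1 y1 (P2 + Γ)`. With `p'' = - m p`, `q'' = - m q`, `Z1' = p dD1 - dp D1 + J1`:
`Φ1' = (4 J1 y1/p^2 - 8 m y1^2 q/p) + (4 Z1 (u1/p - 2 y1 dp/p^3) + 8 q dp y1 u1/p - 8 y1^2 q dp^2/p^3) - 4 D1 u1 + 8 y1 u1 dq + 4 f1^2 (p/q) P2 (P2 + Γ) - 8 y1 u1 dq`, and
`4 Z1 (u1/p - 2 y1 dp/p^3) <= 2 Z1^2/(p^3 q) + 2 p q (u1 - 2 y1 dp/p^2)^2` (`2 x y <= x^2 + y^2`), so
`Φ1' <= 2 Z1^2/(p^3 q) + 4 J1 y1/p^2 - 8 m y1^2 q/p - 4 D1 u1 + 2 f1^2 (p/q) cst2`. Same for `Φ2` with `p, q` exchanged. Sum, `hE`: `(Φ1 + Φ2)' <= E - 4 (D1 u1 + D2 u2) + 2 f1^2 (p/q) cst2 + 2 f2^2 (q/p) cst1`, all terms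
continuous on `[0,∞)`, `Φ(0) = 0`. Integrate over `[0,S]` (`NullPen.nonneg_of_der` for `∫_0^s (..) - Φ s`). `Φ1 S >= 4 Z1 y1/p^2 - 4 D1 y1/p` as `f1 y1 >= 0` (`P2 >= 0`: `PP_nonneg`), `Γ >= 0`, `dp, dq >= 0` (at `S > 0`).
-/

open MeasureTheory Filter Topology Set

namespace NullQ

/-- The function `Φ` on one side. -/
noncomputable def g1_phi (p q dp dq Z D P G Y : ℝ → ℝ) (f : ℝ) (s : ℝ) : ℝ :=
  4 * Z s * Y s / p s ^ 2 - 4 * D s * Y s / p s + 4 * (q s * dp s / p s ^ 2) * Y s ^ 2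
    + 4 * Y s ^ 2 * dq s / p s + 4 * f * Y s * (P s + G s)

noncomputable def g1_R (m p q Z D J P G Y : ℝ → ℝ) (f : ℝ) (s : ℝ) : ℝ :=
  2 * Z s ^ 2 / (p s ^ 3 * q s) + 4 * J s * Y s / p s ^ 2 - 8 * m s * (Y s ^ 2 * q s / p s)
    - 4 * f * (D s * P s / q s) + 2 * f ^ 2 * (p s / q s * (3 * P s ^ 2 + 2 * G s * P s))

noncomputable def g1_V (p q dp Z P Y : ℝ → ℝ) (f : ℝ) (s : ℝ) : ℝ :=
  2 * (Z s - p s ^ 2 * q s * (f * P s / q s - 2 * Y s * dp s / p s ^ 2)) ^ 2 / (p s ^ 3 * q s)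

theorem g1_side {m p q dp dq Z D dD J P G Y : ℝ → ℝ} {f s : ℝ} (p0 : 0 < p s) (q0 : 0 < q s)
    (hp : HasDerivAt p (dp s) s) (hq : HasDerivAt q (dq s) s)
    (hdp : HasDerivAt dp (-(m s * p s)) s) (hdq : HasDerivAt dq (-(m s * q s)) s)
    (hZ : HasDerivAt Z (p s * dD s - dp s * D s + J s) s) (hD : HasDerivAt D (dD s) s)
    (hY : HasDerivAt Y (f * (p s / q s * P s)) s)
    (hPG : HasDerivAt (fun s => P s + G s) (-(2 * (dq s / q s) * P s)) s) :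
    HasDerivAt (g1_phi p q dp dq Z D P G Y f)
      (g1_R m p q Z D J P G Y f s - g1_V p q dp Z P Y f s) s := by
  have hp0 := p0.ne'
  have hq0 := q0.ne'
  have t1 := ((hZ.const_mul 4).mul hY).div (hp.fun_pow 2) (pow_ne_zero 2 hp0)
  have t2 := ((hD.const_mul 4).mul hY).div hp hp0
  have t3 := (((hq.mul hdp).div (hp.fun_pow 2) (pow_ne_zero 2 hp0)).const_mul 4).mul (hY.fun_pow 2)
  have t4 := (((hY.fun_pow 2).const_mul 4).mul hdq).div hp hp0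
  have t5 := (hY.const_mul (4 * f)).mul hPG
  have t := (((t1.sub t2).add t3).add t4).add t5
  refine HasDerivAt.congr_deriv (f := g1_phi p q dp dq Z D P G Y f) t ?_
  unfold g1_R g1_V
  simp only [Pi.mul_apply, Pi.div_apply, Pi.add_apply, Pi.pow_apply]
  push_cast
  field_simp
  ring

theorem g1_PG {z dz t : ℝ → ℝ} {a s th dth' y dy : ℝ} (h : ZT z dz t) (hs : 0 < s)
    (hz : 1 - z s = th ^ 2) (hth : 0 < th) (hdz : dz s = -(2 * th * dth')) (hy : y = th * t s)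
    (hdy : dy = dth' * t s + 1 / th) :
    HasDerivAt (fun s => PP a z t s + ((2 - a) * z s + 3 / 2 * a * z s ^ 2))
      (-(2 * (dy / y) * PP a z t s)) s := by
  have ht := (t_pos h hs.le).ne'
  have hth' := hth.ne'
  have hz' : z s = 1 - th ^ 2 := by linarith
  have hne : 1 - z s ≠ 0 := by
    rw [hz]
    exact pow_ne_zero 2 hth'
  have hzd := h.zd s hs
  have e1 := ((hzd.const_sub 1).fun_pow 2).mul ((hzd.const_mul a).const_add 1)
  have e2 := (e1.sub ((WW_der h a hs).const_mul 2)).div (hzd.const_sub 1) hne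
  have e3 := (hzd.const_mul (2 - a)).add ((hzd.fun_pow 2).const_mul (3 / 2 * a))
  have e4 := e2.add e3
  refine HasDerivAt.congr_deriv
    (f := fun s => PP a z t s + ((2 - a) * z s + 3 / 2 * a * z s ^ 2)) e4 ?_
  obtain ⟨w, hw⟩ : ∃ w, w = WW a z t s := ⟨_, rfl⟩
  simp only [Pi.mul_apply, Pi.sub_apply, Pi.div_apply]
  unfold PP gg
  rw [← hw, hdz, hz', hdy, hy]
  have e5 : 1 - (1 - th ^ 2) = th ^ 2 := by ring
  rw [e5]
  push_cast
  field_simp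
  ring

variable {K : ℝ} {m p q dp dq : ℝ → ℝ} {s : ℝ}

theorem g1_dq (h : Ry K m p q dp dq) (hs : 0 < s) :
    dq s = dth p q dp dq s * (taf p q s - bf p q) + 1 / thf p q s := by
  have h1 := (th_der h hs).mul ((ta_der h hs).sub_const (bf p q))
  have h2 : HasDerivAt q (dth p q dp dq s * (taf p q s - bf p q) +
      thf p q s * (1 / thf p q s ^ 2)) s := by
    refine h1.congr_of_eventuallyEq ?_
    filter_upwards [lt_mem_nhds hs] with t ht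
    exact q_eq h ht.le
  rw [(h.qd s hs).unique h2]
  have h3 := (th_pos h hs.le).ne'
  have h4 : thf p q s * (1 / thf p q s ^ 2) = 1 / thf p q s := by field_simp
  rw [h4]

theorem g1_dp (h : Ry K m p q dp dq) (hs : 0 < s) :
    dp s = dth p q dp dq s * (taf p q s + bf p q) + 1 / thf p q s := by
  have h1 := (th_der h hs).mul ((ta_der h hs).add_const (bf p q))
  have h2 : HasDerivAt p (dth p q dp dq s * (taf p q s + bf p q) +
      thf p q s * (1 / thf p q s ^ 2)) s := by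
    refine h1.congr_of_eventuallyEq ?_
    filter_upwards [lt_mem_nhds hs] with t ht
    exact p_eq h ht.le
  rw [(h.pd s hs).unique h2]
  have h3 := (th_pos h hs.le).ne'
  have h4 : thf p q s * (1 / thf p q s ^ 2) = 1 / thf p q s := by field_simp
  rw [h4]

theorem g1_PG2 (h : Ry K m p q dp dq) (a : ℝ) (hs : 0 < s) :
    HasDerivAt (fun s => PP a (zf p q) (fun s => taf p q s - bf p q) s +
      ((2 - a) * zf p q s + 3 / 2 * a * zf p q s ^ 2))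
      (-(2 * (dq s / q s) * PP a (zf p q) (fun s => taf p q s - bf p q) s)) s := by
  refine g1_PG (zt2 h) hs (th := thf p q s) (dth' := dth p q dp dq s) ?_ (th_pos h hs.le) rfl
    (q_eq h hs.le) (g1_dq h hs)
  unfold zf
  ring

theorem g1_PG1 (h : Ry K m p q dp dq) (a : ℝ) (hs : 0 < s) :
    HasDerivAt (fun s => PP a (zf p q) (fun s => taf p q s + bf p q) s +
      ((2 - a) * zf p q s + 3 / 2 * a * zf p q s ^ 2))
      (-(2 * (dp s / p s) * PP a (zf p q) (fun s => taf p q s + bf p q) s)) s := by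
  refine g1_PG (zt1 h) hs (th := thf p q s) (dth' := dth p q dp dq s) ?_ (th_pos h hs.le) rfl
    (p_eq h hs.le) (g1_dp h hs)
  unfold zf
  ring

theorem g1_phi_cont {p q dp dq Z D P G Y : ℝ → ℝ} {f : ℝ} (p0 : ∀ s, 0 ≤ s → 0 < p s)
    (cp : ContinuousOn p (Ici 0)) (cq : ContinuousOn q (Ici 0)) (cdp : ContinuousOn dp (Ici 0))
    (cdq : ContinuousOn dq (Ici 0)) (cZ : ContinuousOn Z (Ici 0)) (cD : ContinuousOn D (Ici 0))
    (cP : ContinuousOn P (Ici 0)) (cG : ContinuousOn G (Ici 0)) (cY : ContinuousOn Y (Ici 0)) :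
    ContinuousOn (g1_phi p q dp dq Z D P G Y f) (Ici 0) := by
  have n1 : ∀ s ∈ Ici (0 : ℝ), p s ≠ 0 := fun s hs => (p0 s hs).ne'
  have n2 : ∀ s ∈ Ici (0 : ℝ), p s ^ 2 ≠ 0 := fun s hs => pow_ne_zero 2 (n1 s hs)
  have c1 := ((continuousOn_const (c := (4 : ℝ))).mul cZ).mul cY |>.div (cp.pow 2) n2
  have c2 := ((continuousOn_const (c := (4 : ℝ))).mul cD).mul cY |>.div cp n1
  have c3 := ((continuousOn_const (c := (4 : ℝ))).mul ((cq.mul cdp).div (cp.pow 2) n2)).mul (cY.pow 2)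
  have c4 := (((continuousOn_const (c := (4 : ℝ))).mul (cY.pow 2)).mul cdq).div cp n1
  have c5 := ((continuousOn_const (c := 4 * f)).mul cY).mul (cP.add cG)
  exact (((c1.sub c2).add c3).add c4).add c5

theorem g1_lin {a b c d e : ℝ → ℝ} (x y u v : ℝ) {S : ℝ} (hS : 0 ≤ S) (ca : ContinuousOn a (Ici 0))
    (cb : ContinuousOn b (Ici 0)) (cc : ContinuousOn c (Ici 0)) (cd : ContinuousOn d (Ici 0))
    (ce : ContinuousOn e (Ici 0)) :
    ∫ r in (0 : ℝ)..S, (a r - x * b r - y * c r + u * d r + v * e r) =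
      (∫ r in (0 : ℝ)..S, a r) - x * (∫ r in (0 : ℝ)..S, b r) - y * (∫ r in (0 : ℝ)..S, c r)
        + u * (∫ r in (0 : ℝ)..S, d r) + v * (∫ r in (0 : ℝ)..S, e r) := by
  have hsub : Set.uIcc 0 S ⊆ Ici 0 := by
    rw [uIcc_of_le hS]
    exact fun x hx => hx.1
  have ia : IntervalIntegrable a volume 0 S := (ca.mono hsub).intervalIntegrable
  have ib : IntervalIntegrable (fun r => x * b r) volume 0 S :=
    ((cb.mono hsub).intervalIntegrable).const_mul x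
  have ic : IntervalIntegrable (fun r => y * c r) volume 0 S :=
    ((cc.mono hsub).intervalIntegrable).const_mul y
  have id' : IntervalIntegrable (fun r => u * d r) volume 0 S :=
    ((cd.mono hsub).intervalIntegrable).const_mul u
  have ie : IntervalIntegrable (fun r => v * e r) volume 0 S :=
    ((ce.mono hsub).intervalIntegrable).const_mul v
  rw [intervalIntegral.integral_add (((ia.sub ib).sub ic).add id') ie,
    intervalIntegral.integral_add ((ia.sub ib).sub ic) id',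
    intervalIntegral.integral_sub (ia.sub ib) ic, intervalIntegral.integral_sub ia ib]
  simp only [intervalIntegral.integral_const_mul]

theorem g1_V_nonneg {p q dp Z P Y : ℝ → ℝ} {f : ℝ} {s : ℝ} (p0 : 0 < p s) (q0 : 0 < q s) :
    0 ≤ g1_V p q dp Z P Y f s := by
  unfold g1_V
  positivity

theorem g1_phi_ge {p q dp dq Z D P G Y : ℝ → ℝ} {f : ℝ} {s : ℝ} (p0 : 0 < p s) (q0 : 0 < q s)
    (hdp : 0 ≤ dp s) (hdq : 0 ≤ dq s) (hY : 0 ≤ f * Y s) (hP : 0 ≤ P s) (hG : 0 ≤ G s) :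
    4 * Z s * Y s / p s ^ 2 - 4 * D s * Y s / p s ≤ g1_phi p q dp dq Z D P G Y f s := by
  unfold g1_phi
  have h1 : 0 ≤ 4 * (q s * dp s / p s ^ 2) * Y s ^ 2 := by positivity
  have h2 : 0 ≤ 4 * Y s ^ 2 * dq s / p s := by positivity
  have h3 : 0 ≤ 4 * f * Y s * (P s + G s) := by
    have h4 : 4 * f * Y s * (P s + G s) = 4 * (f * Y s) * (P s + G s) := by ring
    rw [h4]
    positivity
  linarith

theorem g1_main {K : ℝ} {m p q dp dq : ℝ → ℝ} (h : Ry K m p q dp dq) (cdp : ContinuousOn dp (Ici 0))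
    (cdq : ContinuousOn dq (Ici 0)) (f1 f2 : ℝ) {Z1 Z2 D1 D2 dD1 dD2 J1 J2 E P1 P2 G : ℝ → ℝ}
    (cZ1 : ContinuousOn Z1 (Ici 0)) (cZ2 : ContinuousOn Z2 (Ici 0)) (cD1 : ContinuousOn D1 (Ici 0))
    (cD2 : ContinuousOn D2 (Ici 0)) (cE : ContinuousOn E (Ici 0)) (cP1 : ContinuousOn P1 (Ici 0))
    (cP2 : ContinuousOn P2 (Ici 0)) (cG : ContinuousOn G (Ici 0))
    (dZ1 : ∀ s, 0 < s → HasDerivAt Z1 (p s * dD1 s - dp s * D1 s + J1 s) s)
    (dZ2 : ∀ s, 0 < s → HasDerivAt Z2 (q s * dD2 s - dq s * D2 s + J2 s) s)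
    (hD1 : ∀ s, 0 < s → HasDerivAt D1 (dD1 s) s) (hD2 : ∀ s, 0 < s → HasDerivAt D2 (dD2 s) s)
    (hPG2 : ∀ s, 0 < s → HasDerivAt (fun s => P2 s + G s) (-(2 * (dq s / q s) * P2 s)) s)
    (hPG1 : ∀ s, 0 < s → HasDerivAt (fun s => P1 s + G s) (-(2 * (dp s / p s) * P1 s)) s)
    (P2n : ∀ s, 0 ≤ s → 0 ≤ P2 s) (P1n : ∀ s, 0 ≤ s → 0 ≤ P1 s) (Gn : ∀ s, 0 ≤ s → 0 ≤ G s)
    (hE : ∀ s, 0 < s → ∀ y1 y2 : ℝ, 2 * Z1 s ^ 2 / (p s ^ 3 * q s) + 2 * Z2 s ^ 2 / (p s * q s ^ 3) + 4 * J1 s * y1 / p s ^ 2 +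
      4 * J2 s * y2 / q s ^ 2 - 8 * m s * (y1 ^ 2 * q s / p s + y2 ^ 2 * p s / q s) ≤ E s)
    {S : ℝ} (hS : 0 < S) :
    4 * Z1 S * (f1 * ∫ r in (0 : ℝ)..S, p r / q r * P2 r) / p S ^ 2
      + 4 * Z2 S * (f2 * ∫ r in (0 : ℝ)..S, q r / p r * P1 r) / q S ^ 2
      - 4 * D1 S * (f1 * ∫ r in (0 : ℝ)..S, p r / q r * P2 r) / p S
      - 4 * D2 S * (f2 * ∫ r in (0 : ℝ)..S, q r / p r * P1 r) / q S
      + 4 * f1 * (∫ r in (0 : ℝ)..S, D1 r * P2 r / q r)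
      + 4 * f2 * (∫ r in (0 : ℝ)..S, D2 r * P1 r / p r)
      - 2 * f1 ^ 2 * (∫ r in (0 : ℝ)..S, p r / q r * (3 * P2 r ^ 2 + 2 * G r * P2 r))
      - 2 * f2 ^ 2 * (∫ r in (0 : ℝ)..S, q r / p r * (3 * P1 r ^ 2 + 2 * G r * P1 r))
    ≤ ∫ r in (0 : ℝ)..S, E r := by
  have np : ∀ s ∈ Ici (0 : ℝ), p s ≠ 0 := fun s hs => (h.pp s hs).ne'
  have nq : ∀ s ∈ Ici (0 : ℝ), q s ≠ 0 := fun s hs => (h.qp s hs).ne'
  have ci1 : ContinuousOn (fun r => p r / q r * P2 r) (Ici 0) := (h.pc.div h.qc nq).mul cP2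
  have ci2 : ContinuousOn (fun r => q r / p r * P1 r) (Ici 0) := (h.qc.div h.pc np).mul cP1
  have cb : ContinuousOn (fun r => D1 r * P2 r / q r) (Ici 0) := (cD1.mul cP2).div h.qc nq
  have cc : ContinuousOn (fun r => D2 r * P1 r / p r) (Ici 0) := (cD2.mul cP1).div h.pc np
  have cq2 : ∀ {P : ℝ → ℝ}, ContinuousOn P (Ici 0) →
      ContinuousOn (fun r => 3 * P r ^ 2 + 2 * G r * P r) (Ici 0) := by
    intro P cP
    exact ((continuousOn_const (c := (3 : ℝ))).mul (cP.pow 2)).add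
      (((continuousOn_const (c := (2 : ℝ))).mul cG).mul cP)
  have cd : ContinuousOn (fun r => p r / q r * (3 * P2 r ^ 2 + 2 * G r * P2 r)) (Ici 0) :=
    (h.pc.div h.qc nq).mul (cq2 cP2)
  have ce : ContinuousOn (fun r => q r / p r * (3 * P1 r ^ 2 + 2 * G r * P1 r)) (Ici 0) :=
    (h.qc.div h.pc np).mul (cq2 cP1)
  obtain ⟨Y1, hY1⟩ : ∃ Y1 : ℝ → ℝ, Y1 = fun s => f1 * ∫ r in (0 : ℝ)..s, p r / q r * P2 r := ⟨_, rfl⟩
  obtain ⟨Y2, hY2⟩ : ∃ Y2 : ℝ → ℝ, Y2 = fun s => f2 * ∫ r in (0 : ℝ)..s, q r / p r * P1 r := ⟨_, rfl⟩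
  have cY1 : ContinuousOn Y1 (Ici 0) := by
    rw [hY1]
    exact continuousOn_const.mul (NullPen.g1_int_cont ci1)
  have cY2 : ContinuousOn Y2 (Ici 0) := by
    rw [hY2]
    exact continuousOn_const.mul (NullPen.g1_int_cont ci2)
  have dY1 : ∀ s, 0 < s → HasDerivAt Y1 (f1 * (p s / q s * P2 s)) s := by
    intro s hs
    rw [hY1]
    exact (NullPen.g1_int_der ci1 hs).const_mul f1
  have dY2 : ∀ s, 0 < s → HasDerivAt Y2 (f2 * (q s / p s * P1 s)) s := by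
    intro s hs
    rw [hY2]
    exact (NullPen.g1_int_der ci2 hs).const_mul f2
  have Y10 : Y1 0 = 0 := by
    rw [hY1]
    simp only [intervalIntegral.integral_same, mul_zero]
  have Y20 : Y2 0 = 0 := by
    rw [hY2]
    simp only [intervalIntegral.integral_same, mul_zero]
  have cI : ContinuousOn (fun r => E r - 4 * f1 * (D1 r * P2 r / q r) - 4 * f2 * (D2 r * P1 r / p r)
      + 2 * f1 ^ 2 * (p r / q r * (3 * P2 r ^ 2 + 2 * G r * P2 r))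
      + 2 * f2 ^ 2 * (q r / p r * (3 * P1 r ^ 2 + 2 * G r * P1 r))) (Ici 0) :=
    (((cE.sub (continuousOn_const.mul cb)).sub (continuousOn_const.mul cc)).add
      (continuousOn_const.mul cd)).add (continuousOn_const.mul ce)
  have hF := NullPen.nonneg_of_der (F := fun s => (∫ r in (0 : ℝ)..s,
      (E r - 4 * f1 * (D1 r * P2 r / q r) - 4 * f2 * (D2 r * P1 r / p r)
      + 2 * f1 ^ 2 * (p r / q r * (3 * P2 r ^ 2 + 2 * G r * P2 r))
      + 2 * f2 ^ 2 * (q r / p r * (3 * P1 r ^ 2 + 2 * G r * P1 r)))) -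
      (g1_phi p q dp dq Z1 D1 P2 G Y1 f1 s + g1_phi q p dq dp Z2 D2 P1 G Y2 f2 s))
    (F' := fun s => (E s - 4 * f1 * (D1 s * P2 s / q s) - 4 * f2 * (D2 s * P1 s / p s)
      + 2 * f1 ^ 2 * (p s / q s * (3 * P2 s ^ 2 + 2 * G s * P2 s))
      + 2 * f2 ^ 2 * (q s / p s * (3 * P1 s ^ 2 + 2 * G s * P1 s))) -
      ((g1_R m p q Z1 D1 J1 P2 G Y1 f1 s - g1_V p q dp Z1 P2 Y1 f1 s) +
        (g1_R m q p Z2 D2 J2 P1 G Y2 f2 s - g1_V q p dq Z2 P1 Y2 f2 s)))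
    ((NullPen.g1_int_cont cI).sub
      ((g1_phi_cont h.pp h.pc h.qc cdp cdq cZ1 cD1 cP2 cG cY1).add
        (g1_phi_cont h.qp h.qc h.pc cdq cdp cZ2 cD2 cP1 cG cY2)))
    (fun s hs => (NullPen.g1_int_der cI hs).sub
      ((g1_side (h.pp s hs.le) (h.qp s hs.le) (h.pd s hs) (h.qd s hs) (h.pdd s hs) (h.qdd s hs)
        (dZ1 s hs) (hD1 s hs) (dY1 s hs) (hPG2 s hs)).add
      (g1_side (h.qp s hs.le) (h.pp s hs.le) (h.qd s hs) (h.pd s hs) (h.qdd s hs) (h.pdd s hs)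
        (dZ2 s hs) (hD2 s hs) (dY2 s hs) (hPG1 s hs))))
    (fun s hs => by
      have e := hE s hs (Y1 s) (Y2 s)
      have v1 := g1_V_nonneg (dp := dp) (Z := Z1) (P := P2) (Y := Y1) (f := f1) (h.pp s hs.le) (h.qp s hs.le)
      have v2 := g1_V_nonneg (dp := dq) (Z := Z2) (P := P1) (Y := Y2) (f := f2) (h.qp s hs.le) (h.pp s hs.le)
      unfold g1_R
      rw [mul_comm (q s ^ 3) (p s)]
      rw [mul_add (8 * m s)] at e
      linarith)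
    (by
      show 0 ≤ _
      simp only [intervalIntegral.integral_same, g1_phi, Y10, Y20, mul_zero, zero_div, zero_mul,
        add_zero, sub_zero, ne_eq, OfNat.ofNat_ne_zero, not_false_eq_true, zero_pow, le_refl])
    hS.le
  rw [g1_lin _ _ _ _ hS.le cE cb cc cd ce] at hF
  have i1 : 0 ≤ f1 * Y1 S := by
    rw [hY1]
    have : 0 ≤ ∫ r in (0 : ℝ)..S, p r / q r * P2 r := by
      refine intervalIntegral.integral_nonneg hS.le fun r hr => ?_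
      exact mul_nonneg (div_nonneg (h.pp r hr.1).le (h.qp r hr.1).le) (P2n r hr.1)
    have h5 : f1 * (f1 * ∫ r in (0 : ℝ)..S, p r / q r * P2 r) =
        f1 ^ 2 * ∫ r in (0 : ℝ)..S, p r / q r * P2 r := by ring
    show 0 ≤ f1 * (f1 * ∫ r in (0 : ℝ)..S, p r / q r * P2 r)
    rw [h5]
    positivity
  have i2 : 0 ≤ f2 * Y2 S := by
    rw [hY2]
    have : 0 ≤ ∫ r in (0 : ℝ)..S, q r / p r * P1 r := by
      refine intervalIntegral.integral_nonneg hS.le fun r hr => ?_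
      exact mul_nonneg (div_nonneg (h.qp r hr.1).le (h.pp r hr.1).le) (P1n r hr.1)
    have h5 : f2 * (f2 * ∫ r in (0 : ℝ)..S, q r / p r * P1 r) =
        f2 ^ 2 * ∫ r in (0 : ℝ)..S, q r / p r * P1 r := by ring
    show 0 ≤ f2 * (f2 * ∫ r in (0 : ℝ)..S, q r / p r * P1 r)
    rw [h5]
    positivity
  have hp1 := h.p1 S hS
  have hq1 := h.q1 S hS
  have g1 := g1_phi_ge (Z := Z1) (D := D1) (h.pp S hS.le) (h.qp S hS.le) (by linarith : 0 ≤ dp S)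
    (by linarith : 0 ≤ dq S) i1 (P2n S hS.le) (Gn S hS.le)
  have g2 := g1_phi_ge (Z := Z2) (D := D2) (h.qp S hS.le) (h.pp S hS.le) (by linarith : 0 ≤ dq S)
    (by linarith : 0 ≤ dp S) i2 (P1n S hS.le) (Gn S hS.le)
  have e1 : Y1 S = f1 * ∫ r in (0 : ℝ)..S, p r / q r * P2 r := by rw [hY1]
  have e2 : Y2 S = f2 * ∫ r in (0 : ℝ)..S, q r / p r * P1 r := by rw [hY2]
  rw [← e1, ← e2]
  linarith

theorem test_ray {K : ℝ} {m p q dp dq : ℝ → ℝ} (h : Ry K m p q dp dq) (cdp : ContinuousOn dp (Ici 0)) (cdq : ContinuousOn dq (Ici 0))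
    {a : ℝ} (ha : -1 ≤ a) (ha1 : a ≤ 1) (f1 f2 : ℝ) {Z1 Z2 D1 D2 dD1 dD2 J1 J2 E : ℝ → ℝ}
    (cZ1 : ContinuousOn Z1 (Ici 0)) (cZ2 : ContinuousOn Z2 (Ici 0)) (cD1 : ContinuousOn D1 (Ici 0)) (cD2 : ContinuousOn D2 (Ici 0))
    (cE : ContinuousOn E (Ici 0))
    (dZ1 : ∀ s, 0 < s → HasDerivAt Z1 (p s * dD1 s - dp s * D1 s + J1 s) s)
    (dZ2 : ∀ s, 0 < s → HasDerivAt Z2 (q s * dD2 s - dq s * D2 s + J2 s) s)
    (hD1 : ∀ s, 0 < s → HasDerivAt D1 (dD1 s) s) (hD2 : ∀ s, 0 < s → HasDerivAt D2 (dD2 s) s)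
    (hE : ∀ s, 0 < s → ∀ y1 y2 : ℝ, 2 * Z1 s ^ 2 / (p s ^ 3 * q s) + 2 * Z2 s ^ 2 / (p s * q s ^ 3) + 4 * J1 s * y1 / p s ^ 2 +
      4 * J2 s * y2 / q s ^ 2 - 8 * m s * (y1 ^ 2 * q s / p s + y2 ^ 2 * p s / q s) ≤ E s)
    {S : ℝ} (hS : 0 < S) :
    4 * Z1 S * (f1 * ∫ r in (0 : ℝ)..S, p r / q r * PP a (zf p q) (fun s => taf p q s - bf p q) r) / p S ^ 2
      + 4 * Z2 S * (f2 * ∫ r in (0 : ℝ)..S, q r / p r * PP a (zf p q) (fun s => taf p q s + bf p q) r) / q S ^ 2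
      - 4 * D1 S * (f1 * ∫ r in (0 : ℝ)..S, p r / q r * PP a (zf p q) (fun s => taf p q s - bf p q) r) / p S
      - 4 * D2 S * (f2 * ∫ r in (0 : ℝ)..S, q r / p r * PP a (zf p q) (fun s => taf p q s + bf p q) r) / q S
      + 4 * f1 * (∫ r in (0 : ℝ)..S, D1 r * PP a (zf p q) (fun s => taf p q s - bf p q) r / q r)
      + 4 * f2 * (∫ r in (0 : ℝ)..S, D2 r * PP a (zf p q) (fun s => taf p q s + bf p q) r / p r)
      - 2 * f1 ^ 2 * (∫ r in (0 : ℝ)..S, p r / q r * cst a (zf p q) (fun s => taf p q s - bf p q) r)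
      - 2 * f2 ^ 2 * (∫ r in (0 : ℝ)..S, q r / p r * cst a (zf p q) (fun s => taf p q s + bf p q) r)
    ≤ ∫ r in (0 : ℝ)..S, E r := by
  have z1 := zt1 h
  have z2 := zt2 h
  have cz := z2.zc
  refine g1_main h cdp cdq f1 f2 cZ1 cZ2 cD1 cD2 cE (PP_cont z1 a) (PP_cont z2 a)
    (G := fun s => (2 - a) * zf p q s + 3 / 2 * a * zf p q s ^ 2) ?_ dZ1 dZ2 hD1 hD2
    (fun s hs => g1_PG2 h a hs) (fun s hs => g1_PG1 h a hs) (fun s hs => PP_nonneg z2 ha ha1 hs)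
    (fun s hs => PP_nonneg z1 ha ha1 hs) (fun s hs => ?_) hE hS
  · exact (continuousOn_const.mul cz).add (continuousOn_const.mul (cz.pow 2))
  · have h0 := z2.z0 s hs
    have h1 := z2.z1 s hs
    have h2 : (2 - a) * zf p q s + 3 / 2 * a * zf p q s ^ 2 =
        zf p q s * ((2 - a) + 3 / 2 * a * zf p q s) := by ring
    show 0 ≤ (2 - a) * zf p q s + 3 / 2 * a * zf p q s ^ 2
    rw [h2]
    refine mul_nonneg h0 ?_
    nlinarith

end NullQ
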