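import Pool.Agent.Lib.H74Q.S1

set_option autoImplicit false

/-!
Chunk G2 (S/M). The linear term along one generator.
Proof. `1 - z = th^2`. For `s > 0`: `(W R)' = (P/t) R - 2 W θ1/th^3` (`WW_der`), so `(th R + t θ1) P/(th t) = (P/t) R + θ1 P/th = (W R)' + (θ1/th) (P + 2 W/(1-z))`, and `P + 2 W/(1-z) = g/(1-z) = (1-z)(1+az) = th^2 (1+az)` (`PP`, `gg`).
So the integrand is `(W R)' + (1 + a z) th θ1`; `W R` is continuous on `[0,∞)` and vanishes at `0` (`WW_zero`). Use `NullPen.const_of_der` for the difference of the two sides as functions of `S` (`NullPen.g1_int_cont`, `g1_int_der`).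
-/

open MeasureTheory Filter Topology Set

namespace NullQ

theorem lin_ray {z dz t : ℝ → ℝ} (h : ZT z dz t) (a : ℝ) {th R θ1 : ℝ → ℝ} (hth : ∀ s, 0 ≤ s → 0 < th s)
    (hz : ∀ s, 0 ≤ s → th s ^ 2 = 1 - z s) (cth : ContinuousOn th (Ici 0)) (cR : ContinuousOn R (Ici 0)) (cθ : ContinuousOn θ1 (Ici 0))
    (dR : ∀ s, 0 < s → HasDerivAt R (-(2 * θ1 s / th s ^ 3)) s) {S : ℝ} (hS : 0 ≤ S) :
    ∫ r in (0 : ℝ)..S, (th r * R r + t r * θ1 r) * PP a z t r / (th r * t r) =
      WW a z t S * R S + ∫ r in (0 : ℝ)..S, (1 + a * z r) * (th r * θ1 r) := by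
  have c1 : ContinuousOn (fun r => (th r * R r + t r * θ1 r) * PP a z t r / (th r * t r)) (Ici 0) := by
    refine ContinuousOn.div (((cth.mul cR).add (h.tc.mul cθ)).mul (PP_cont h a)) (cth.mul h.tc) ?_
    intro s hs
    exact mul_ne_zero (hth s hs).ne' (t_pos h hs).ne'
  have c2 : ContinuousOn (fun r => (1 + a * z r) * (th r * θ1 r)) (Ici 0) :=
    (continuousOn_const.add (continuousOn_const.mul h.zc)).mul (cth.mul cθ)
  have key := NullPen.const_of_der
    (F := fun S => (∫ r in (0 : ℝ)..S, (th r * R r + t r * θ1 r) * PP a z t r / (th r * t r)) -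
      (WW a z t S * R S + ∫ r in (0 : ℝ)..S, (1 + a * z r) * (th r * θ1 r)))
    ((NullPen.g1_int_cont c1).sub (((WW_cont h a).mul cR).add (NullPen.g1_int_cont c2)))
    (fun s hs => by
      have e1 := NullPen.g1_int_der c1 hs
      have e2 := NullPen.g1_int_der c2 hs
      have e3 := (WW_der h a hs).mul (dR s hs)
      have e4 := e1.sub (e3.add e2)
      refine HasDerivAt.congr_deriv e4 ?_
      have ht := (t_pos h hs.le).ne'
      have hθ := (hth s hs.le).ne'
      have hz1 := hz s hs.le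
      have hPP : PP a z t s * th s ^ 2 = th s ^ 4 * (1 + a * z s) - 2 * WW a z t s := by
        unfold PP gg
        rw [hz1]
        have h5 : (1 - z s) ≠ 0 := (s1_inv h hs.le).ne'
        rw [div_mul_cancel₀ _ h5]
        have h6 : th s ^ 4 = (1 - z s) ^ 2 := by
          rw [← hz1]
          ring
        rw [h6]
      have hP2 : PP a z t s = (th s ^ 4 * (1 + a * z s) - 2 * WW a z t s) / th s ^ 2 :=
        eq_div_of_mul_eq (pow_ne_zero 2 hθ) hPP
      rw [hP2]
      field_simp
      ring) hS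
  rw [intervalIntegral.integral_same, intervalIntegral.integral_same, WW_zero] at key
  linarith

end NullQ
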