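import Pool.Agent.Lib.H74Q.F3
import Pool.Agent.Lib.H74Q.G1
import Pool.Agent.Lib.H74Q.G2

set_option autoImplicit false

/-!
Chunk G4A (M). The test function with the data along the generator through `n`, in the direction `f1 e + f2 f`: exact form.
Proof. `test_ray` with `Z1 = Zc e`, `D1 = Dc e`, `dD1 = deriv (Dc e)`, `J1 = Jc e`, `E = 2 torSq dA + ρ dA`, `m = D.e/2` (`tor_e`, `tor_f`, `dec_ray`; continuity on `[0,∞)`: `NullU.dA_cont`, `NullU.tor_cont`, smoothness of `ζ`, `cont_ρ`, and `c_th`, `c_ta`,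
`c_rth`, `c_rta` for `DD`: restrict the joint continuity to the generator). Linear terms: `Dc e = th Re + (ta - b) Te`, `Re = Rc e`, `Te = Tc e` (`Σ_k Bo k l e k = b e l`: `Bo_eq`), `q = th (ta - b)` (`q_eq`), so `lin_ray` (with `zt2`, `th = thf`, `rta_der`; `gdv` is
linear in `r` so `Re' = - 2 Te/th^3`) gives `∫ Dc e P2/q = W2(S) Re(S) + ∫ (1 + a z) th Te`; `Dc f = th Rf + (ta + b) Tf`, `p = th (ta + b)`, `zt1`. `4 f1 W2 Re = 2 f1 Re - 2 f1 (1 - 2 W2) Re`.
The functions `th D`, `ta D`, `zz D` agree with `thf`, `taf`, `zf` on `[0,∞)` (`th_eq` etc.).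
-/

open MeasureTheory Filter Topology Set
open scoped ContDiff

namespace NullQ

open NullPen (E3 S2 sm proj pd MatterData NullData)

/-- Component of `gdv rta + cB`. -/
noncomputable def Rc (D : MatterData) (n : S2) (e : Fin 3 → ℝ) (s : ℝ) : ℝ := ∑ k, (gdv (fun j => rta D j s n) n k + cB D n k) * e k

/-- Component of `gdv rth`. -/
noncomputable def Tc (D : MatterData) (n : S2) (e : Fin 3 → ℝ) (s : ℝ) : ℝ := ∑ k, gdv (fun j => rth D j s n) n k * e k

/-- `∫ (p/q) P2`. -/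
noncomputable def Ye (a : ℝ) (p q : ℝ → ℝ) (S : ℝ) : ℝ :=
  ∫ r in (0 : ℝ)..S, p r / q r * PP a (zf p q) (fun s => taf p q s - bf p q) r

/-- `∫ (q/p) P1`. -/
noncomputable def Yf (a : ℝ) (p q : ℝ → ℝ) (S : ℝ) : ℝ :=
  ∫ r in (0 : ℝ)..S, q r / p r * PP a (zf p q) (fun s => taf p q s + bf p q) r

/-- The error terms at `S`. -/
noncomputable def Er (D : MatterData) (n : S2) (e f : Fin 3 → ℝ) (p q : ℝ → ℝ) (a f1 f2 S : ℝ) : ℝ :=
  4 * Zc D n e S * (f1 * Ye a p q S) / p S ^ 2 + 4 * Zc D n f S * (f2 * Yf a p q S) / q S ^ 2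
    - 4 * Dc D n e S * (f1 * Ye a p q S) / p S - 4 * Dc D n f S * (f2 * Yf a p q S) / q S
    - 2 * f1 * (1 - 2 * WW a (zf p q) (fun s => taf p q s - bf p q) S) * Rc D n e S
    - 2 * f2 * (1 - 2 * WW a (zf p q) (fun s => taf p q s + bf p q) S) * Rc D n f S

theorem G4A_ray {F : ℝ × S2 → ℝ} (hF : ContinuousOn F (Ici 0 ×ˢ univ)) (n : S2) :
    ContinuousOn (fun s => F (s, n)) (Ici 0) :=
  hF.comp (continuous_id.prodMk continuous_const).continuousOn fun _ hs => ⟨hs, mem_univ _⟩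

theorem G4A_gdv {r : Fin 3 → ℝ → ℝ} (hr : ∀ j, ContinuousOn (r j) (Ici 0)) (n : S2) (k : Fin 3) :
    ContinuousOn (fun s => gdv (fun j => r j s) n k) (Ici 0) := by
  unfold gdv NullU.crs
  exact ((hr _).mul continuousOn_const).sub ((hr _).mul continuousOn_const)

variable {D : MatterData} {K : ℝ} {n : S2} {e f : Fin 3 → ℝ} {p q dp dq : ℝ → ℝ}

theorem G4A_cT (hD : D.Quiet) (n : S2) (e : Fin 3 → ℝ) : ContinuousOn (Tc D n e) (Ici 0) := by
  unfold Tc
  exact continuousOn_finsetSum _ fun k _ => (G4A_gdv (r := fun j s => rth D j s n)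
    (fun j => G4A_ray (c_rth hD.null hD.flat j) n) n k).mul continuousOn_const

theorem G4A_cR (hD : D.Quiet) (n : S2) (e : Fin 3 → ℝ) : ContinuousOn (Rc D n e) (Ici 0) := by
  unfold Rc
  exact continuousOn_finsetSum _ fun k _ => ((G4A_gdv (r := fun j s => rta D j s n)
    (fun j => G4A_ray (c_rta hD.null hD.flat j) n) n k).add continuousOn_const).mul
      continuousOn_const

theorem G4A_cZ (hD : D.Quiet) (n : S2) (e : Fin 3 → ℝ) : ContinuousOn (Zc D n e) (Ici 0) := by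
  unfold Zc
  refine (G4A_ray (NullU.dA_cont hD.null) n).mul (continuousOn_finsetSum _ fun k _ => ?_)
  have h1 : Continuous (fun s : ℝ => D.ζ s (n : E3) k) :=
    (hD.null.smooth_ζ k).continuous.comp (continuous_id.prodMk continuous_const)
  exact h1.continuousOn.mul continuousOn_const

theorem G4A_cE (hD : D.Quiet) (n : S2) :
    ContinuousOn (fun r => 2 * (D.torSq r n * D.dA r n) + D.ρ r n * D.dA r n) (Ici 0) := by
  have h1 : Continuous (fun s : ℝ => D.ρ s (n : E3)) :=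
    hD.null.cont_ρ.comp (continuous_id.prodMk continuous_const)
  exact (continuousOn_const.mul (G4A_ray (NullU.tor_cont hD.null) n)).add
    (h1.continuousOn.mul (G4A_ray (NullU.dA_cont hD.null) n))

theorem G4A_dR (hD : D.Quiet) (n : S2) (e : Fin 3 → ℝ) {s : ℝ} (hs : 0 < s) :
    HasDerivAt (Rc D n e) (-(2 * Tc D n e s / th D s n ^ 3)) s := by
  have h1 : ∀ j, HasDerivAt (fun t => rta D j t n) (-(2 * rth D j s n / th D s n ^ 3)) s :=
    fun j => rta_der hD.null hD.flat hs j n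
  have h2 : ∀ k, HasDerivAt (fun t => gdv (fun j => rta D j t n) n k)
      (gdv (fun j => -(2 * rth D j s n / th D s n ^ 3)) n k) s := by
    intro k
    unfold gdv NullU.crs
    exact ((h1 _).mul_const _).sub ((h1 _).mul_const _)
  have h3 := HasDerivAt.fun_sum (u := Finset.univ) fun k (_ : k ∈ Finset.univ) =>
    ((h2 k).add_const (cB D n k)).mul_const (e k)
  refine HasDerivAt.congr_deriv (f := Rc D n e) h3 ?_
  unfold Tc
  rw [Finset.mul_sum, Finset.sum_div, ← Finset.sum_neg_distrib]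
  refine Finset.sum_congr rfl fun k _ => ?_
  unfold gdv NullU.crs
  ring

theorem G4A_B (h : Onb n e f) (b : ℝ) (x : Fin 3 → ℝ) :
    ∑ k, (∑ l, b * (e k * e l - f k * f l) * x l) * e k = b * ∑ l, x l * e l := by
  have h1 := h.ee
  have h2 := h.ef
  simp only [Fin.sum_univ_three] at *
  linear_combination (b * (e 0 * x 0 + e 1 * x 1 + e 2 * x 2)) * h1 -
    (b * (f 0 * x 0 + f 1 * x 1 + f 2 * x 2)) * h2

theorem G4A_Bf (h : Onb n e f) (b : ℝ) (x : Fin 3 → ℝ) :
    ∑ k, (∑ l, b * (e k * e l - f k * f l) * x l) * f k = -(b * ∑ l, x l * f l) := by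
  have h1 := h.ff
  have h2 := h.ef
  simp only [Fin.sum_univ_three] at *
  linear_combination (-(b * (f 0 * x 0 + f 1 * x 1 + f 2 * x 2))) * h1 +
    (b * (e 0 * x 0 + e 1 * x 1 + e 2 * x 2)) * h2

theorem G4A_De (hD : D.Quiet) (h : Full D K n e f p q dp dq) {s : ℝ} (hs : 0 ≤ s) :
    Dc D n e s = thf p q s * Rc D n e s + (taf p q s - bf p q) * Tc D n e s := by
  have h1 := G4A_B h.toOnb (bf p q) (fun l => gdv (fun j => rth D j s n) n l)
  have h2 : ∀ k, ∑ l, Bo D k l n * gdv (fun j => rth D j s n) n l =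
      ∑ l, bf p q * (e k * e l - f k * f l) * gdv (fun j => rth D j s n) n l := fun k =>
    Finset.sum_congr rfl fun l _ => by rw [Bo_eq hD h]
  unfold Dc DD Rc Tc
  simp only [h2, th_eq hD h hs, ta_eq hD h hs]
  rw [sub_mul, ← h1, Finset.mul_sum, Finset.mul_sum, ← Finset.sum_sub_distrib,
    ← Finset.sum_add_distrib]
  exact Finset.sum_congr rfl fun k _ => by ring

theorem G4A_Df (hD : D.Quiet) (h : Full D K n e f p q dp dq) {s : ℝ} (hs : 0 ≤ s) :
    Dc D n f s = thf p q s * Rc D n f s + (taf p q s + bf p q) * Tc D n f s := by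
  have h1 := G4A_Bf h.toOnb (bf p q) (fun l => gdv (fun j => rth D j s n) n l)
  have h2 : ∀ k, ∑ l, Bo D k l n * gdv (fun j => rth D j s n) n l =
      ∑ l, bf p q * (e k * e l - f k * f l) * gdv (fun j => rth D j s n) n l := fun k =>
    Finset.sum_congr rfl fun l _ => by rw [Bo_eq hD h]
  have h3 : bf p q * ∑ l, gdv (fun j => rth D j s n) n l * f l =
      -(∑ k, (∑ l, bf p q * (e k * e l - f k * f l) * gdv (fun j => rth D j s n) n l) * f k) := by
    rw [h1, neg_neg]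
  unfold Dc DD Rc Tc
  simp only [h2, th_eq hD h hs, ta_eq hD h hs]
  rw [add_mul, h3, ← sub_eq_add_neg, Finset.mul_sum, Finset.mul_sum, ← Finset.sum_sub_distrib,
    ← Finset.sum_add_distrib]
  exact Finset.sum_congr rfl fun k _ => by ring

theorem G4A_cDe (hD : D.Quiet) (h : Full D K n e f p q dp dq) : ContinuousOn (Dc D n e) (Ici 0) := by
  have hr := h.toRy
  have h1 : ContinuousOn (fun s => thf p q s * Rc D n e s + (taf p q s - bf p q) * Tc D n e s) (Ici 0) :=
    ((th_cont hr).mul (G4A_cR hD n e)).add (((ta_cont hr).sub continuousOn_const).mul (G4A_cT hD n e))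
  exact h1.congr fun s hs => G4A_De hD h hs

theorem G4A_cDf (hD : D.Quiet) (h : Full D K n e f p q dp dq) : ContinuousOn (Dc D n f) (Ici 0) := by
  have hr := h.toRy
  have h1 : ContinuousOn (fun s => thf p q s * Rc D n f s + (taf p q s + bf p q) * Tc D n f s) (Ici 0) :=
    ((th_cont hr).mul (G4A_cR hD n f)).add (((ta_cont hr).add continuousOn_const).mul (G4A_cT hD n f))
  exact h1.congr fun s hs => G4A_Df hD h hs

theorem G4A_dRf (hD : D.Quiet) (h : Full D K n e f p q dp dq) (u : Fin 3 → ℝ) {s : ℝ} (hs : 0 < s) :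
    HasDerivAt (Rc D n u) (-(2 * Tc D n u s / thf p q s ^ 3)) s := by
  have h1 := G4A_dR hD n u hs
  rwa [th_eq hD h hs.le] at h1

theorem G4A_le (hD : D.Quiet) (h : Full D K n e f p q dp dq) (a : ℝ) {S : ℝ} (hS : 0 ≤ S) :
    ∫ r in (0 : ℝ)..S, Dc D n e r * PP a (zf p q) (fun s => taf p q s - bf p q) r / q r =
      WW a (zf p q) (fun s => taf p q s - bf p q) S * Rc D n e S +
        ∫ r in (0 : ℝ)..S, (1 + a * zf p q r) * (thf p q r * Tc D n e r) := by
  have hr := h.toRy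
  rw [← lin_ray (zt2 hr) a (th := thf p q) (R := Rc D n e) (θ1 := Tc D n e)
    (fun s hs => th_pos hr hs) (fun s hs => by unfold zf; ring) (th_cont hr) (G4A_cR hD n e)
    (G4A_cT hD n e) (fun s hs => G4A_dRf hD h e hs) hS]
  refine intervalIntegral.integral_congr fun r hr' => ?_
  rw [uIcc_of_le hS] at hr'
  show _ = _
  rw [G4A_De hD h hr'.1, q_eq hr hr'.1]

theorem G4A_lf (hD : D.Quiet) (h : Full D K n e f p q dp dq) (a : ℝ) {S : ℝ} (hS : 0 ≤ S) :
    ∫ r in (0 : ℝ)..S, Dc D n f r * PP a (zf p q) (fun s => taf p q s + bf p q) r / p r =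
      WW a (zf p q) (fun s => taf p q s + bf p q) S * Rc D n f S +
        ∫ r in (0 : ℝ)..S, (1 + a * zf p q r) * (thf p q r * Tc D n f r) := by
  have hr := h.toRy
  rw [← lin_ray (zt1 hr) a (th := thf p q) (R := Rc D n f) (θ1 := Tc D n f)
    (fun s hs => th_pos hr hs) (fun s hs => by unfold zf; ring) (th_cont hr) (G4A_cR hD n f)
    (G4A_cT hD n f) (fun s hs => G4A_dRf hD h f hs) hS]
  refine intervalIntegral.integral_congr fun r hr' => ?_
  rw [uIcc_of_le hS] at hr'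
  show _ = _
  rw [G4A_Df hD h hr'.1, p_eq hr hr'.1]

theorem G4A_int (hD : D.Quiet) (h : Full D K n e f p q dp dq) (a f1 f2 : ℝ) {S : ℝ} (hS : 0 ≤ S) :
    ∫ r in (0 : ℝ)..S, (1 + a * zz D r n) * (th D r n * (f1 * Tc D n e r + f2 * Tc D n f r)) =
      f1 * (∫ r in (0 : ℝ)..S, (1 + a * zf p q r) * (thf p q r * Tc D n e r)) +
        f2 * ∫ r in (0 : ℝ)..S, (1 + a * zf p q r) * (thf p q r * Tc D n f r) := by
  have hr := h.toRy
  have hsub : Set.uIcc 0 S ⊆ Ici 0 := by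
    rw [uIcc_of_le hS]
    exact fun x hx => hx.1
  have hc : ∀ u, IntervalIntegrable (fun r => (1 + a * zf p q r) * (thf p q r * Tc D n u r)) volume 0 S := by
    intro u
    have h1 : ContinuousOn (fun r => (1 + a * zf p q r) * (thf p q r * Tc D n u r)) (Ici 0) :=
      (continuousOn_const.add (continuousOn_const.mul (zt1 hr).zc)).mul
        ((th_cont hr).mul (G4A_cT hD n u))
    exact (h1.mono hsub).intervalIntegrable
  rw [← intervalIntegral.integral_const_mul, ← intervalIntegral.integral_const_mul,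
    ← intervalIntegral.integral_add ((hc e).const_mul f1) ((hc f).const_mul f2)]
  refine intervalIntegral.integral_congr fun r hr' => ?_
  have h0 : 0 ≤ r := hsub hr'
  show _ = _
  rw [zz_eq hD h h0, th_eq hD h h0]
  ring

theorem ray_E {D : MatterData} (hD : D.Quiet) {K : ℝ} {n : S2} {e f : Fin 3 → ℝ} {p q dp dq : ℝ → ℝ} (h : Full D K n e f p q dp dq)
    {a : ℝ} (ha : -1 ≤ a) (ha1 : a ≤ 1) (f1 f2 : ℝ) {S : ℝ} (hS : 0 < S) :
    2 * (f1 * Rc D n e S + f2 * Rc D n f S)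
      + 4 * (∫ r in (0 : ℝ)..S, (1 + a * zz D r n) * (th D r n * (f1 * Tc D n e r + f2 * Tc D n f r)))
      - 2 * f1 ^ 2 * (∫ r in (0 : ℝ)..S, p r / q r * cst a (zf p q) (fun s => taf p q s - bf p q) r)
      - 2 * f2 ^ 2 * (∫ r in (0 : ℝ)..S, q r / p r * cst a (zf p q) (fun s => taf p q s + bf p q) r)
      + Er D n e f p q a f1 f2 S
    ≤ ∫ r in (0 : ℝ)..S, (2 * (D.torSq r n * D.dA r n) + D.ρ r n * D.dA r n) := by
  have key := test_ray h.toRy h.cdp h.cdq ha ha1 f1 f2 (Z1 := Zc D n e) (Z2 := Zc D n f)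
    (D1 := Dc D n e) (D2 := Dc D n f) (dD1 := deriv (Dc D n e)) (dD2 := deriv (Dc D n f))
    (J1 := Jc D n e) (J2 := Jc D n f)
    (E := fun r => 2 * (D.torSq r n * D.dA r n) + D.ρ r n * D.dA r n)
    (G4A_cZ hD n e) (G4A_cZ hD n f) (G4A_cDe hD h) (G4A_cDf hD h) (G4A_cE hD n)
    (fun s hs => (tor_e hD h hs).2) (fun s hs => (tor_f hD h hs).2)
    (fun s hs => (tor_e hD h hs).1) (fun s hs => (tor_f hD h hs).1)
    (fun s hs y1 y2 => dec_ray hD h hs.le y1 y2) hS
  rw [G4A_le hD h a hS.le, G4A_lf hD h a hS.le] at key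
  rw [G4A_int hD h a f1 f2 hS.le]
  unfold Er Ye Yf
  linarith

end NullQ
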