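import Pool.Agent.Lib.H74Q.S1

set_option autoImplicit false

/-!
Chunk S5 (S/M). Decay of `q = 1 - 2 W`.
Proof. `γ = 1 - g = z ((2-a) + (2a-1) z - a z^2)`, `0 <= γ <= 3 z`, `0 <= q`, `P = v (q - γ)`, `v = 1/(1-z) = t'`, `q' = - 2 P/t`: `(t q)' = v q - 2 P = v (2 γ - q)`. `∫_0^s v z = t s - t 0 - s` (`v z = v - 1`).
`tq_le`: `(t q)' <= 6 v z`, so `t q <= t 0 + 6 (t s - t 0 - s) <= 6 (t s - s)`. `intP_le`: `P <= v q = 2 v γ - (t q)'`, so `∫ P <= 6 (t s - t 0 - s) + t 0 - t q <= 6 (t s - s)`.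
-/

open MeasureTheory Filter Topology Set

namespace NullQ

variable {z dz t : ℝ → ℝ} {a s : ℝ}

theorem q_nonneg (h : ZT z dz t) (ha : -1 ≤ a) (ha1 : a ≤ 1) (hs : 0 ≤ s) : 0 ≤ 1 - 2 * WW a z t s := by
  have h1 := WW_le h ha ha1 hs
  have h2 := gg_le ha ha1 (h.z0 s hs) (h.z1 s hs).le
  have h3 := h.z0 s hs
  linarith

/-- `γ = 1 - g <= 3 z`. -/
theorem s5_gam (ha : -1 ≤ a) (ha1 : a ≤ 1) {x : ℝ} (h0 : 0 ≤ x) (h1 : x ≤ 1) :
    1 - gg a x ≤ 3 * x := by
  have e : 3 * x - (1 - gg a x) = x * ((1 + a) * (1 - x) + x * ((1 + a) * (x - 1) + (3 - x))) := by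
    unfold gg
    ring
  have h2 : 0 ≤ (1 + a) * (1 - x) + x * ((1 + a) * (x - 1) + (3 - x)) := by
    have h3 : 0 ≤ (1 + a) * (1 - x) * (1 - x) :=
      mul_nonneg (mul_nonneg (by linarith) (by linarith)) (by linarith)
    have h4 : 0 ≤ x * (3 - x) := mul_nonneg h0 (by linarith)
    nlinarith
  have h5 := mul_nonneg h0 h2
  linarith

/-- The derivative of `t q`. -/
theorem s5_tq_der (h : ZT z dz t) (a : ℝ) (hs : 0 < s) :
    HasDerivAt (fun r => t r * (1 - 2 * WW a z t r))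
      (1 / (1 - z s) * (1 - 2 * WW a z t s) - 2 * PP a z t s) s := by
  have h1 := (h.td s hs).mul (((WW_der h a hs).const_mul 2).const_sub 1)
  have ht := t_pos h hs.le
  refine h1.congr_deriv ?_
  field_simp
  ring

theorem s5_tq_cont (h : ZT z dz t) (a : ℝ) :
    ContinuousOn (fun r => t r * (1 - 2 * WW a z t r)) (Ici 0) :=
  h.tc.mul (continuousOn_const.sub (continuousOn_const.mul (WW_cont h a)))

/-- `P = v (q - γ)`, and facts about the quantities. -/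
theorem s5_facts (h : ZT z dz t) (ha : -1 ≤ a) (ha1 : a ≤ 1) (hs : 0 ≤ s) :
    ∃ v q γ : ℝ, v = 1 / (1 - z s) ∧ q = 1 - 2 * WW a z t s ∧ PP a z t s = v * (q - γ) ∧
      0 < v ∧ v - 1 = v * z s ∧ 0 ≤ q ∧ γ ≤ 3 * z s ∧ 0 ≤ z s := by
  have h0 := h.z0 s hs
  have h1 := h.z1 s hs
  have hne : 1 - z s ≠ 0 := by linarith
  refine ⟨1 / (1 - z s), 1 - 2 * WW a z t s, 1 - gg a (z s), rfl, rfl, ?_, ?_, ?_, q_nonneg h ha ha1 hs,
    s5_gam ha ha1 h0 h1.le, h0⟩
  · unfold PP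
    field_simp
    ring
  · exact div_pos one_pos (by linarith)
  · field_simp
    ring

theorem tq_le (h : ZT z dz t) (ha : -1 ≤ a) (ha1 : a ≤ 1) (hs : 0 ≤ s) :
    t s * (1 - 2 * WW a z t s) ≤ 6 * (t s - s) := by
  have key := NullPen.nonneg_of_der (F := fun r => 6 * (t r - r) - t r * (1 - 2 * WW a z t r))
    (F' := fun r => 6 * (1 / (1 - z r) - 1) - (1 / (1 - z r) * (1 - 2 * WW a z t r) - 2 * PP a z t r))
    ((continuousOn_const.mul (h.tc.sub continuousOn_id)).sub (s5_tq_cont h a))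
    (fun r hr => (((h.td r hr).sub (hasDerivAt_id r)).const_mul 6).sub (s5_tq_der h a hr))
    (fun r hr => by
      obtain ⟨v, q, γ, hv, hq, hP, hv0, hv1, hq0, hγ, hz⟩ := s5_facts h ha ha1 hr.le
      rw [← hv, ← hq, hP, hv1]
      have e : 6 * (v * z r) - (v * q - 2 * (v * (q - γ))) = v * (6 * z r - 2 * γ + q) := by ring
      rw [e]
      exact mul_nonneg hv0.le (by linarith))
    (by
      show 0 ≤ 6 * (t 0 - 0) - t 0 * (1 - 2 * WW a z t 0)
      rw [WW_zero]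
      have := h.t0
      linarith) hs
  linarith

theorem intP_le (h : ZT z dz t) (ha : -1 ≤ a) (ha1 : a ≤ 1) (hs : 0 ≤ s) :
    ∫ r in (0 : ℝ)..s, PP a z t r ≤ 6 * (t s - s) := by
  have key := NullPen.nonneg_of_der
    (F := fun r => 6 * (t r - r) - t r * (1 - 2 * WW a z t r) - ∫ x in (0 : ℝ)..r, PP a z t x)
    (F' := fun r => 6 * (1 / (1 - z r) - 1) - (1 / (1 - z r) * (1 - 2 * WW a z t r) - 2 * PP a z t r) -
      PP a z t r)
    (((continuousOn_const.mul (h.tc.sub continuousOn_id)).sub (s5_tq_cont h a)).sub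
      (NullPen.g1_int_cont (PP_cont h a)))
    (fun r hr => ((((h.td r hr).sub (hasDerivAt_id r)).const_mul 6).sub (s5_tq_der h a hr)).sub
      (NullPen.g1_int_der (PP_cont h a) hr))
    (fun r hr => by
      obtain ⟨v, q, γ, hv, hq, hP, hv0, hv1, hq0, hγ, hz⟩ := s5_facts h ha ha1 hr.le
      rw [← hv, ← hq, hP, hv1]
      have e : 6 * (v * z r) - (v * q - 2 * (v * (q - γ))) - v * (q - γ) = v * (6 * z r - γ) := by ring
      rw [e]
      exact mul_nonneg hv0.le (by linarith))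
    (by
      show 0 ≤ 6 * (t 0 - 0) - t 0 * (1 - 2 * WW a z t 0) - ∫ x in (0 : ℝ)..0, PP a z t x
      rw [WW_zero, intervalIntegral.integral_same]
      have := h.t0
      linarith) hs
  have h1 := q_nonneg h ha ha1 hs
  have h2 := t_pos h hs
  have h3 := mul_nonneg h2.le h1
  linarith

end NullQ
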