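import Pool.Agent.Lib.H74Q.G4A
import Pool.Agent.Lib.H74Q.S5

set_option autoImplicit false

/-!
Chunk G4B (M). The error terms are small for large `S`.
Proof. `K` fixed. `dA 0 = p 0 q 0 >= c > 0` on the compact sphere (`NullU.dA_pos`, continuity) and `p 0, q 0 <= K` (`pK`, `qK` at `0`), so `p 0, q 0 >= c0 := c/K` (if `K = 0` there is no `Full`, as `0 < p 0 <= K`). `p r >= p 0 + r`, `p r <= r + K`
(`T_ge`-type monotonicity, `p' >= 1`: `NullPen.g1_mono`), so `p/q, q/p <= 1 + K/c0`. `0 <= PP` and `∫_0^S PP <= 6 (t S - S)` (`PP_nonneg`, `intP_le`), `t S = ta ± b <= S + 2 K` (`ta_le`, `b_le`): `0 <= Ye, Yf <= 12 K (1 + K/c0)`.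
`0 <= 1 - 2 W <= 12 K/S`: `q_nonneg`, `tq_le`, `t S >= S` (`t2 = q/th >= q >= S`, `th <= 1`). `|Rc e| <= C`, `|Dc e| <= C` (`bd`: `gdv` and `cB` are sums of products with `|n k| <= 1`; `th <= 1`, `ta |rth| <= (S + K) C/(1 + S)`, `|Bo| <= |b| <= K`). `p S, q S >= S`.
`Zc e ^2/(p^3 q) <= torSq dA` (`tor_sq`), so `|Zc e|/p^2 <= sqrt (q/p) sqrt (torSq dA)`. `|e k| <= 1`.
-/

open MeasureTheory Filter Topology Set
open scoped ContDiff

namespace NullQ

open NullPen (E3 S2 sm proj pd MatterData NullData)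

theorem g4b_one {u : Fin 3 → ℝ} (h : ∑ i, u i ^ 2 = 1) (i : Fin 3) : |u i| ≤ 1 := by
  have h1 : u i ^ 2 ≤ ∑ i, u i ^ 2 :=
    Finset.single_le_sum (f := fun i => u i ^ 2) (fun j _ => sq_nonneg (u j)) (Finset.mem_univ i)
  rw [h] at h1
  exact (sq_le_one_iff_abs_le_one (u i)).1 h1

theorem g4b_unit (n : S2) : ∑ i, (n : E3) i ^ 2 = 1 := by
  have h1 : ‖(n : E3)‖ = 1 := by simp
  have h2 := EuclideanSpace.norm_sq_eq (n : E3)
  rw [h1] at h2
  simp only [Real.norm_eq_abs, sq_abs] at h2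
  linarith

theorem g4b_gdv {r : Fin 3 → ℝ} {C : ℝ} (hr : ∀ j, |r j| ≤ C) (n : S2) (k : Fin 3) :
    |gdv r n k| ≤ 2 * C := by
  have h1 := g4b_one (g4b_unit n)
  have hp : ∀ i j, |r i * (n : E3) j| ≤ C := fun i j => by
    rw [abs_mul]
    have h2 := hr i
    have h3 := h1 j
    have h4 := abs_nonneg (r i)
    have h5 := abs_nonneg ((n : E3) j)
    nlinarith
  unfold gdv NullU.crs
  have h2 := abs_sub (r (k + 1) * (n : E3) (k + 2)) (r (k + 2) * (n : E3) (k + 1))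
  have h3 := hp (k + 1) (k + 2)
  have h4 := hp (k + 2) (k + 1)
  linarith

theorem g4b_sum {u : Fin 3 → ℝ} {C : ℝ} (hu : ∀ j, |u j| ≤ C) : |∑ j, u j| ≤ 3 * C := by
  refine (Finset.abs_sum_le_sum_abs _ _).trans ?_
  rw [Fin.sum_univ_three]
  have h1 := hu 0
  have h2 := hu 1
  have h3 := hu 2
  linarith

/-- lower bound of the radii -/
theorem g4b_low {D : MatterData} (hD : D.Quiet) {K : ℝ} (hK : 0 ≤ K) : ∃ c : ℝ, 0 < c ∧
    ∀ (n : S2) (e f : Fin 3 → ℝ) (p q dp dq : ℝ → ℝ), Full D K n e f p q dp dq →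
      c ≤ p 0 ∧ c ≤ q 0 := by
  have hc : Continuous (fun n : S2 => D.dA 0 n) :=
    NullPen.cont_at (F := fun s (n : S2) => D.dA s n) (NullU.dA_cont hD.null) le_rfl
  obtain ⟨c1, hc1, hc2⟩ : ∃ c1 : ℝ, 0 < c1 ∧ ∀ n : S2, c1 ≤ D.dA 0 n := by
    rcases isEmpty_or_nonempty S2 with hE | hE
    · exact ⟨1, one_pos, fun n => (hE.false n).elim⟩
    · obtain ⟨n0, -, h0⟩ := (isCompact_univ (X := S2)).exists_isMinOn univ_nonempty hc.continuousOn
      exact ⟨D.dA 0 n0, NullU.dA_pos hD.null n0 le_rfl, fun n => h0 (mem_univ n)⟩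
  refine ⟨c1 / (K + 1), by positivity, ?_⟩
  intro n e f p q dp dq h
  have hr := h.toRy
  have h1 := dA_pq hD h.toEig hr (le_refl (0 : ℝ))
  have h2 := hc2 n
  rw [h1] at h2
  have h3 := hr.pK 0 le_rfl
  have h4 := hr.qK 0 le_rfl
  have h5 := hr.pp 0 le_rfl
  have h6 := hr.qp 0 le_rfl
  have hK1 : 0 < K + 1 := by linarith
  constructor
  · rw [div_le_iff₀ hK1]
    nlinarith
  · rw [div_le_iff₀ hK1]
    nlinarith

theorem g4b_ge {K : ℝ} {m p q dp dq : ℝ → ℝ} (hr : Ry K m p q dp dq) {s : ℝ} (hs : 0 ≤ s) :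
    p 0 + s ≤ p s ∧ q 0 + s ≤ q s := by
  constructor
  · have h2 : MonotoneOn (fun t => p t - t) (Ici 0) :=
      NullPen.g1_mono (F' := fun t => dp t - 1) (hr.pc.sub continuousOn_id)
        (fun t ht => (hr.pd t ht).sub (hasDerivAt_id t)) (fun t ht => by
          have := hr.p1 t ht
          linarith)
    have h3 := h2 (mem_Ici.2 le_rfl) (mem_Ici.2 hs) hs
    simp only [sub_zero] at h3
    linarith
  · have h2 : MonotoneOn (fun t => q t - t) (Ici 0) :=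
      NullPen.g1_mono (F' := fun t => dq t - 1) (hr.qc.sub continuousOn_id)
        (fun t ht => (hr.qd t ht).sub (hasDerivAt_id t)) (fun t ht => by
          have := hr.q1 t ht
          linarith)
    have h3 := h2 (mem_Ici.2 le_rfl) (mem_Ici.2 hs) hs
    simp only [sub_zero] at h3
    linarith

theorem g4b_ratio {K c x y s : ℝ} (hK : 0 ≤ K) (hc : 0 < c) (hs : 0 ≤ s) (hx : x ≤ s + K)
    (hy : c + s ≤ y) : x / y ≤ 1 + K / c := by
  have hy0 : 0 < y := by linarith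
  rw [div_le_iff₀ hy0]
  have h1 : (1 + K / c) * (c + s) ≤ (1 + K / c) * y :=
    mul_le_mul_of_nonneg_left hy (by positivity)
  have h2 : (1 + K / c) * (c + s) = c + s + K + K / c * s := by
    field_simp
    ring
  have h3 : 0 ≤ K / c * s := by positivity
  linarith

/-- the integrals -/
theorem g4b_Y {K M : ℝ} {z dz t u v : ℝ → ℝ} (h : ZT z dz t) {a : ℝ} (ha : -1 ≤ a) (ha1 : a ≤ 1)
    {S : ℝ} (hS : 0 ≤ S) (hM : 0 ≤ M) (hu : ContinuousOn u (Ici 0)) (hv : ContinuousOn v (Ici 0))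
    (hu0 : ∀ r, 0 ≤ r → 0 < u r) (hv0 : ∀ r, 0 ≤ r → 0 < v r) (huv : ∀ r, 0 ≤ r → u r / v r ≤ M)
    (ht : t S ≤ S + 2 * K) :
    |∫ r in (0 : ℝ)..S, u r / v r * PP a z t r| ≤ 12 * K * M := by
  have hsub : uIcc 0 S ⊆ Ici 0 := by
    rw [uIcc_of_le hS]
    exact fun x hx => hx.1
  have c1 : ContinuousOn (fun r => u r / v r * PP a z t r) (Ici 0) :=
    (hu.div hv fun r hr => (hv0 r hr).ne').mul (PP_cont h a)
  have i1 : IntervalIntegrable (fun r => u r / v r * PP a z t r) volume 0 S :=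
    (c1.mono hsub).intervalIntegrable
  have i2 : IntervalIntegrable (fun r => M * PP a z t r) volume 0 S :=
    ((continuousOn_const.mul (PP_cont h a)).mono hsub).intervalIntegrable
  have h0 : 0 ≤ ∫ r in (0 : ℝ)..S, u r / v r * PP a z t r :=
    intervalIntegral.integral_nonneg hS fun r hr =>
      mul_nonneg (div_nonneg (hu0 r hr.1).le (hv0 r hr.1).le) (PP_nonneg h ha ha1 hr.1)
  rw [abs_of_nonneg h0]
  have h1 : ∫ r in (0 : ℝ)..S, u r / v r * PP a z t r ≤ ∫ r in (0 : ℝ)..S, M * PP a z t r :=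
    intervalIntegral.integral_mono_on hS i1 i2 fun r hr =>
      mul_le_mul_of_nonneg_right (huv r hr.1) (PP_nonneg h ha ha1 hr.1)
  rw [intervalIntegral.integral_const_mul] at h1
  have h2 := intP_le h ha ha1 hS
  have h3 : M * ∫ r in (0 : ℝ)..S, PP a z t r ≤ M * (12 * K) :=
    mul_le_mul_of_nonneg_left (by linarith) hM
  linarith

theorem g4b_W {K : ℝ} {z dz t : ℝ → ℝ} (h : ZT z dz t) {a : ℝ} (ha : -1 ≤ a) (ha1 : a ≤ 1)
    {S : ℝ} (hS : 1 ≤ S) (ht : t S ≤ S + 2 * K) :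
    |1 - 2 * WW a z t S| ≤ 12 * K * (1 / S) := by
  have hS0 : 0 < S := by linarith
  have h0 := q_nonneg h ha ha1 hS0.le
  rw [abs_of_nonneg h0]
  have h1 := tq_le h ha ha1 hS0.le
  have h2 := t_ge h hS0.le
  have h3 := h.t0
  have h4 : S * (1 - 2 * WW a z t S) ≤ t S * (1 - 2 * WW a z t S) :=
    mul_le_mul_of_nonneg_right (by linarith) h0
  rw [mul_one_div, le_div_iff₀ hS0]
  nlinarith

/-- the torsion term -/
theorem g4b_Z {M x y Z τ w : ℝ} (hM : 1 ≤ M) (hx : 0 < x) (hy : 0 < y) (hyx : y / x ≤ M)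
    (hw : 0 ≤ w) (hτ : τ = Z ^ 2 / (x ^ 3 * y) + w) : |Z / x ^ 2| ≤ M * Real.sqrt τ := by
  have h0 : 0 ≤ Z ^ 2 / (x ^ 3 * y) := by positivity
  have h1 : 0 ≤ τ := by rw [hτ]; linarith
  refine abs_le_of_sq_le_sq' ?_ (by positivity) |> fun h => abs_le.2 h
  rw [mul_pow, Real.sq_sqrt h1]
  have h2 : (Z / x ^ 2) ^ 2 = Z ^ 2 / (x ^ 3 * y) * (y / x) := by
    field_simp
  rw [h2]
  have h3 : 0 ≤ y / x := by positivity
  calc Z ^ 2 / (x ^ 3 * y) * (y / x) ≤ τ * M :=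
        mul_le_mul (by linarith) hyx h3 h1
    _ ≤ M ^ 2 * τ := by
        have h5 : 0 ≤ τ * M * (M - 1) :=
          mul_nonneg (mul_nonneg h1 (by linarith)) (by linarith)
        nlinarith

theorem g4b_fin {f1 Y0 M sq S CD CR KK Zp Y Dv pS W R : ℝ} (hS : 1 ≤ S) (hY : |Y| ≤ Y0) (hY0 : 0 ≤ Y0)
    (hM : 0 ≤ M) (hsq : 0 ≤ sq) (hZ : |Zp| ≤ M * sq) (hD : |Dv| ≤ CD) (hCD : 0 ≤ CD) (hp : S ≤ pS)
    (hW : |W| ≤ KK * (1 / S)) (hKK : 0 ≤ KK) (hR : |R| ≤ CR) (hCR : 0 ≤ CR) :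
    |4 * Zp * (f1 * Y)| + |4 * Dv * (f1 * Y) / pS| + |2 * f1 * W * R| ≤
      (4 * M * Y0 + 4 * CD * Y0 + 2 * KK * CR) * |f1| * (1 / S + sq) := by
  have hS0 : 0 < S := by linarith
  have hi : 0 < 1 / S := by positivity
  have hf := abs_nonneg f1
  have hpS : 0 < pS := by linarith
  have a1 : |4 * Zp * (f1 * Y)| ≤ 4 * M * Y0 * |f1| * sq := by
    rw [abs_mul, abs_mul, abs_mul, abs_of_pos (by norm_num : (0 : ℝ) < 4)]
    have e1 : |Zp| * |Y| ≤ (M * sq) * Y0 := mul_le_mul hZ hY (abs_nonneg _) (by positivity)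
    calc 4 * |Zp| * (|f1| * |Y|) = 4 * |f1| * (|Zp| * |Y|) := by ring
      _ ≤ 4 * |f1| * ((M * sq) * Y0) := mul_le_mul_of_nonneg_left e1 (by positivity)
      _ = 4 * M * Y0 * |f1| * sq := by ring
  have a2 : |4 * Dv * (f1 * Y) / pS| ≤ 4 * CD * Y0 * |f1| * (1 / S) := by
    rw [abs_div, abs_mul, abs_mul, abs_mul, abs_of_pos (by norm_num : (0 : ℝ) < 4), abs_of_pos hpS]
    have e1 : |Dv| * |Y| ≤ CD * Y0 := mul_le_mul hD hY (abs_nonneg _) hCD
    have e2 : 1 / pS ≤ 1 / S := one_div_le_one_div_of_le hS0 hp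
    have e3 : 0 ≤ 1 / pS := by positivity
    calc 4 * |Dv| * (|f1| * |Y|) / pS = 4 * |f1| * ((|Dv| * |Y|) * (1 / pS)) := by ring
      _ ≤ 4 * |f1| * ((CD * Y0) * (1 / S)) := by
        refine mul_le_mul_of_nonneg_left (mul_le_mul e1 e2 e3 (by positivity)) (by positivity)
      _ = 4 * CD * Y0 * |f1| * (1 / S) := by ring
  have a3 : |2 * f1 * W * R| ≤ 2 * KK * CR * |f1| * (1 / S) := by
    rw [abs_mul, abs_mul, abs_mul, abs_of_pos (by norm_num : (0 : ℝ) < 2)]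
    have e1 : |W| * |R| ≤ (KK * (1 / S)) * CR := mul_le_mul hW hR (abs_nonneg _) (by positivity)
    calc 2 * |f1| * |W| * |R| = 2 * |f1| * (|W| * |R|) := by ring
      _ ≤ 2 * |f1| * ((KK * (1 / S)) * CR) := mul_le_mul_of_nonneg_left e1 (by positivity)
      _ = 2 * KK * CR * |f1| * (1 / S) := by ring
  have b1 : 0 ≤ 4 * M * Y0 * |f1| * (1 / S) := by positivity
  have b2 : 0 ≤ 4 * CD * Y0 * |f1| * sq := by positivity
  have b3 : 0 ≤ 2 * KK * CR * |f1| * sq := by positivity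
  nlinarith

theorem Er_bd {D : MatterData} (hD : D.Quiet) {K : ℝ} (hK : 0 ≤ K) : ∃ C : ℝ, 0 ≤ C ∧ ∀ (n : S2) (e f : Fin 3 → ℝ) (p q dp dq : ℝ → ℝ),
    Full D K n e f p q dp dq → ∀ a, -1 ≤ a → a ≤ 1 → ∀ f1 f2 S : ℝ, 1 ≤ S →
    |Er D n e f p q a f1 f2 S| ≤ C * (|f1| + |f2|) * (1 / S + Real.sqrt (D.torSq S n * D.dA S n)) := by
  obtain ⟨c, hc, hlow⟩ := g4b_low hD hK
  obtain ⟨C, hC, hb1, hb2⟩ := bd hD.null hD.flat
  set M : ℝ := 1 + K / c with hM
  have hM1 : 1 ≤ M := by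
    have : 0 ≤ K / c := by positivity
    linarith
  have hM0 : 0 ≤ M := by linarith
  set Y0 : ℝ := 12 * K * M with hY0
  have hY00 : 0 ≤ Y0 := by positivity
  set CR : ℝ := 3 * (8 * C) with hCR
  have hCR0 : 0 ≤ CR := by positivity
  set CD : ℝ := 3 * (8 * C + (1 + K) * (2 * C) + 3 * (2 * K * (2 * C))) with hCD
  have hCD0 : 0 ≤ CD := by positivity
  refine ⟨4 * M * Y0 + 4 * CD * Y0 + 2 * (12 * K) * CR, by positivity, ?_⟩
  intro n e f p q dp dq h a ha ha1 f1 f2 S hS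
  have hS0 : 0 < S := by linarith
  have hr := h.toRy
  obtain ⟨hp0, hq0⟩ := hlow n e f p q dp dq h
  have hpge : ∀ r, 0 ≤ r → c + r ≤ p r := fun r hr' => by
    have := (g4b_ge hr hr').1
    linarith
  have hqge : ∀ r, 0 ≤ r → c + r ≤ q r := fun r hr' => by
    have := (g4b_ge hr hr').2
    linarith
  have hpq : ∀ r, 0 ≤ r → p r / q r ≤ M := fun r hr' =>
    g4b_ratio hK hc hr' (hr.pK r hr') (hqge r hr')
  have hqp : ∀ r, 0 ≤ r → q r / p r ≤ M := fun r hr' =>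
    g4b_ratio hK hc hr' (hr.qK r hr') (hpge r hr')
  have hb := b_le hr
  have hb' := abs_le.1 hb
  have hta := ta_le hr hS0.le
  have ht1 : taf p q S + bf p q ≤ S + 2 * K := by linarith [hb'.2]
  have ht2 : taf p q S - bf p q ≤ S + 2 * K := by linarith [hb'.1]
  have hYe : |Ye a p q S| ≤ Y0 :=
    g4b_Y (zt2 hr) ha ha1 hS0.le hM0 hr.pc hr.qc hr.pp hr.qp hpq ht2
  have hYf : |Yf a p q S| ≤ Y0 :=
    g4b_Y (zt1 hr) ha ha1 hS0.le hM0 hr.qc hr.pc hr.qp hr.pp hqp ht1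
  have hWe := g4b_W (zt2 hr) ha ha1 hS ht2
  have hWf := g4b_W (zt1 hr) ha ha1 hS ht1
  have htor := tor_sq hD h hS0.le
  have hpS := hr.pp S hS0.le
  have hqS := hr.qp S hS0.le
  have hZe : |Zc D n e S / p S ^ 2| ≤ M * Real.sqrt (D.torSq S n * D.dA S n) :=
    g4b_Z (w := Zc D n f S ^ 2 / (p S * q S ^ 3)) hM1 hpS hqS (hqp S hS0.le) (by positivity) htor
  have hZf : |Zc D n f S / q S ^ 2| ≤ M * Real.sqrt (D.torSq S n * D.dA S n) :=
    g4b_Z (w := Zc D n e S ^ 2 / (p S ^ 3 * q S)) hM1 hqS hpS (hpq S hS0.le) (by positivity)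
      (by rw [htor]; ring)
  -- the vectors
  have he1 : ∀ k, |e k| ≤ 1 := g4b_one h.ee
  have hf1 : ∀ k, |f k| ≤ 1 := g4b_one h.ff
  have hmul : ∀ (x y : ℝ) (A : ℝ), |x| ≤ A → |y| ≤ 1 → |x * y| ≤ A := fun x y A hx hy => by
    rw [abs_mul]
    have := abs_nonneg x
    have := abs_nonneg y
    nlinarith
  have hgc : ∀ k, |gdv (fun j => rta D j S n) n k + cB D n k| ≤ 8 * C := by
    intro k
    have h1 := g4b_gdv (fun j => (hb1 j S hS0.le n).1) n k
    have h2 : |cB D n k| ≤ 2 * (3 * C) := g4b_gdv (fun i => g4b_sum fun j => hb2 j i j n) n k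
    have h3 := abs_add_le (gdv (fun j => rta D j S n) n k) (cB D n k)
    linarith
  have hgt : ∀ k, |gdv (fun j => rth D j S n) n k| ≤ 2 * (C / (1 + S)) := fun k =>
    g4b_gdv (fun j => (hb1 j S hS0.le n).2) n k
  have hgt' : ∀ k, |gdv (fun j => rth D j S n) n k| ≤ 2 * C := fun k => by
    have h1 := hgt k
    have h2 : C / (1 + S) ≤ C := div_le_self hC (by linarith)
    linarith
  have hRc : ∀ u : Fin 3 → ℝ, (∀ k, |u k| ≤ 1) → |Rc D n u S| ≤ CR := by
    intro u hu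
    exact g4b_sum fun k => hmul _ _ _ (hgc k) (hu k)
  have hDD : ∀ k, |DD D S n k| ≤ 8 * C + (1 + K) * (2 * C) + 3 * (2 * K * (2 * C)) := by
    intro k
    have hth0 := th_pos hr hS0.le
    have hth1 := th_le hr hS0.le
    have htag := ta_ge hr hS0.le
    have h1 : |th D S n * (gdv (fun j => rta D j S n) n k + cB D n k)| ≤ 8 * C := by
      rw [mul_comm]
      refine hmul _ _ _ (hgc k) ?_
      rw [th_eq hD h hS0.le, abs_of_pos hth0]
      exact hth1
    have h2 : |ta D S n * gdv (fun j => rth D j S n) n k| ≤ (1 + K) * (2 * C) := by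
      have hta0 : 0 ≤ taf p q S := by linarith
      rw [abs_mul, ta_eq hD h hS0.le, abs_of_nonneg hta0]
      have h3 := hgt k
      calc taf p q S * |gdv (fun j => rth D j S n) n k| ≤ (S + K) * (2 * (C / (1 + S))) :=
            mul_le_mul hta h3 (abs_nonneg _) (by linarith)
        _ = (S + K) / (1 + S) * (2 * C) := by ring
        _ ≤ (1 + K) * (2 * C) := by
          refine mul_le_mul_of_nonneg_right ?_ (by positivity)
          rw [div_le_iff₀ (by linarith)]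
          nlinarith
    have h3 : |∑ l, Bo D k l n * gdv (fun j => rth D j S n) n l| ≤ 3 * (2 * K * (2 * C)) := by
      refine g4b_sum fun l => ?_
      rw [abs_mul, Bo_eq hD h]
      have h4 : |bf p q * (e k * e l - f k * f l)| ≤ 2 * K := by
        rw [abs_mul]
        have h5 : |e k * e l - f k * f l| ≤ 2 := by
          have h6 := abs_sub (e k * e l) (f k * f l)
          have h7 := hmul _ _ _ (he1 k) (he1 l)
          have h8 := hmul _ _ _ (hf1 k) (hf1 l)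
          linarith
        have := mul_le_mul hb h5 (abs_nonneg _) hK
        linarith
      exact mul_le_mul h4 (hgt' l) (abs_nonneg _) (by positivity)
    unfold DD
    have h4 := abs_sub (th D S n * (gdv (fun j => rta D j S n) n k + cB D n k) +
      ta D S n * gdv (fun j => rth D j S n) n k) (∑ l, Bo D k l n * gdv (fun j => rth D j S n) n l)
    have h5 := abs_add_le (th D S n * (gdv (fun j => rta D j S n) n k + cB D n k))
      (ta D S n * gdv (fun j => rth D j S n) n k)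
    linarith
  have hDc : ∀ u : Fin 3 → ℝ, (∀ k, |u k| ≤ 1) → |Dc D n u S| ≤ CD := by
    intro u hu
    exact g4b_sum fun k => hmul _ _ _ (hDD k) (hu k)
  have hsq := Real.sqrt_nonneg (D.torSq S n * D.dA S n)
  have hpS' : S ≤ p S := by linarith [hpge S hS0.le]
  have hqS' : S ≤ q S := by linarith [hqge S hS0.le]
  have F1 := g4b_fin (f1 := f1) hS hYe hY00 hM0 hsq hZe (hDc e he1) hCD0 hpS' hWe (by positivity)
    (hRc e he1) hCR0
  have F2 := g4b_fin (f1 := f2) hS hYf hY00 hM0 hsq hZf (hDc f hf1) hCD0 hqS' hWf (by positivity)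
    (hRc f hf1) hCR0
  have e1 : Er D n e f p q a f1 f2 S =
      4 * (Zc D n e S / p S ^ 2) * (f1 * Ye a p q S) + 4 * (Zc D n f S / q S ^ 2) * (f2 * Yf a p q S)
      - 4 * Dc D n e S * (f1 * Ye a p q S) / p S - 4 * Dc D n f S * (f2 * Yf a p q S) / q S
      - 2 * f1 * (1 - 2 * WW a (zf p q) (fun s => taf p q s - bf p q) S) * Rc D n e S
      - 2 * f2 * (1 - 2 * WW a (zf p q) (fun s => taf p q s + bf p q) S) * Rc D n f S := by
    unfold Er
    ring
  rw [e1]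
  have g : ∀ x y z w u v : ℝ, |x + y - z - w - u - v| ≤ (|x| + |z| + |u|) + (|y| + |w| + |v|) := by
    intro x y z w u v
    rw [abs_le]
    have h1 := neg_abs_le x
    have h1' := le_abs_self x
    have h2 := neg_abs_le y
    have h2' := le_abs_self y
    have h3 := neg_abs_le z
    have h3' := le_abs_self z
    have h4 := neg_abs_le w
    have h4' := le_abs_self w
    have h5 := neg_abs_le u
    have h5' := le_abs_self u
    have h6 := neg_abs_le v
    have h6' := le_abs_self v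
    constructor <;> linarith
  refine (g _ _ _ _ _ _).trans ((add_le_add F1 F2).trans (le_of_eq ?_))
  ring

end NullQ
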