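import Pool.Agent.Lib.H74Q.Jd

set_option autoImplicit false

/-!
Chunk J1 (S/M). Minimisation over `z1, z2`.
Proof. If `X = 0`, `f1 = f2 = 0`: take `α = 0`; otherwise `α = f1^2/X`. So `f1^2 = α X`, `f2^2 = (1-α) X`, `0 <= α <= 1`. With `B = 2 daX v - dfq`, `c = f1^2 - f2^2 = (2α-1) X`, `d = f1 f2`, `d^2 = α (1-α) X^2`:
`GG = α Gd(t1,t2,R2) + (1-α) Gd(t2,t1,R1) + (z1 + (t1 - t2) + B c/2)^2 + (z2 + B d)^2` (`linear_combination` with multiples of the relations).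
-/

namespace NullQ

theorem j1_red {X f1 f2 : ℝ} (hX : X = f1 ^ 2 + f2 ^ 2) (z1 z2 t1 t2 k v b R1 R2 : ℝ) :
    ∃ α : ℝ, 0 ≤ α ∧ α ≤ 1 ∧ α * Gd X t1 t2 k v b R2 + (1 - α) * Gd X t2 t1 k v b R1 ≤ GG X f1 f2 z1 z2 t1 t2 k v b R1 R2 := by
  obtain ⟨α, ha0, ha1, e1, e2⟩ : ∃ α : ℝ, 0 ≤ α ∧ α ≤ 1 ∧ f1 ^ 2 = α * X ∧ f2 ^ 2 = (1 - α) * X := by
    have h1 := sq_nonneg f1
    have h2 := sq_nonneg f2
    rcases eq_or_ne X 0 with h0 | h0
    · refine ⟨0, le_refl _, by norm_num, ?_, ?_⟩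
      · rw [h0]; nlinarith
      · rw [h0]; nlinarith
    · have hXp : 0 < X := lt_of_le_of_ne (by rw [hX]; positivity) (Ne.symm h0)
      refine ⟨f1 ^ 2 / X, by positivity, ?_, ?_, ?_⟩
      · rw [div_le_one hXp]; linarith
      · field_simp
      · field_simp
        linarith
  refine ⟨α, ha0, ha1, ?_⟩
  have hid : GG X f1 f2 z1 z2 t1 t2 k v b R1 R2 = α * Gd X t1 t2 k v b R2 + (1 - α) * Gd X t2 t1 k v b R1
      + (z1 + (t1 - t2) + (2 * daX X * v - dfq X) * (f1 ^ 2 - f2 ^ 2) / 2) ^ 2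
      + (z2 + (2 * daX X * v - dfq X) * (f1 * f2)) ^ 2 := by
    unfold GG Gd Zq
    generalize daX X = D
    generalize dfq X = F'
    generalize Phq X = Φ
    generalize aX X = a
    linear_combination (-4 * (R2 - k + t1 * (1 + a) ^ 2 / 36) - (t1 - t2) * (2 * D * v - F')) * e1
      + (-4 * (R1 - k + t2 * (1 + a) ^ 2 / 36) + (t1 - t2) * (2 * D * v - F')) * e2
      + ((2 * D * v - F') ^ 2 * (f1 ^ 2 + f2 ^ 2 + X) / 4) * hX
  rw [hid]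
  have i1 := sq_nonneg (z1 + (t1 - t2) + (2 * daX X * v - dfq X) * (f1 ^ 2 - f2 ^ 2) / 2)
  have i2 := sq_nonneg (z2 + (2 * daX X * v - dfq X) * (f1 * f2))
  linarith

end NullQ
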