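import Pool.Agent.Lib.H74Q.Jd

set_option autoImplicit false

/-!
Chunk J2 (S/M). Lower bound for `Gd`.
Proof. Facts: `1 - aX = 2/(1+y)`, `1 - aX/2 = (3+y)/(2(1+y))`, `X daX = 2 w/(1+y)^2`, so with `u = 1 - aX/2 > 0`: `ρ = X daX/u`, `λ = (1 - aX)/(2u)`; `y, w >= 0`. `Gd = slope * t1 + END`,
`slope = 4 k - 4 daX v X + dfq X + Phq - X (1+aX)^2/9`,
`END = (4 k + fq) t2 + 4 k^2 - ℓ^2 + 4 b - 4 (R - k) X + 2 daX v (X - X^2/2) - 2 daX v X (2 k - ℓ) + (3/4) X^2 + Phq (2 k - ℓ - 1 + X) - dfq X^2/2 - (2 daX v - dfq)^2 X^2/4`, `ℓ = (1 - aX) v` (`Phq - X dfq = fq`). With `η = X daX`: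
the part `4 k^2 - ℓ^2 - 4 η v k + 2 η v ℓ - η^2 v^2 = 4 k^2 - 4 η v k - ((1-aX) - η)^2 v^2 >= 4 ω k^2` as `0 <= v <= k/u`; the part linear in `v`: `η v (2 - X + dfq X) >= 0` (`h4`); `Phq (2 k - ℓ) >= 2 Phq (1 - λ) k` (`ℓ <= 2 λ k`, `Phq >= 0`);
`4 k t2 >= 0`; `slope >= 0` as `daX v X = η v <= ρ k <= k` (`h1`) and `h2`.
-/

namespace NullQ

theorem fq_nonneg {X : ℝ} (hX : 0 ≤ X) : 0 ≤ fq X := by
  unfold fq; positivity

theorem dfq_nonneg {X : ℝ} (hX : 0 ≤ X) : 0 ≤ dfq X := by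
  unfold dfq; positivity

theorem Phq_nonneg {X : ℝ} (hX : 0 ≤ X) : 0 ≤ Phq X := by
  unfold Phq
  have := fq_nonneg hX
  have := dfq_nonneg hX
  positivity

theorem j2_y {X : ℝ} (hX : 0 ≤ X) : 0 ≤ yX X := by
  unfold yX; positivity

theorem j2_w {X : ℝ} (hX : 0 ≤ X) : 0 ≤ wX X := by
  unfold wX; positivity

theorem aX_ge {X : ℝ} (hX : 0 ≤ X) : -1 ≤ aX X := by
  have hy := j2_y hX
  unfold aX
  rw [le_div_iff₀ (by linarith)]
  linarith

theorem aX_le {X : ℝ} (hX : 0 ≤ X) : aX X ≤ 1 := by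
  have hy := j2_y hX
  unfold aX
  rw [div_le_iff₀ (by linarith)]
  linarith

theorem j2_rho {X : ℝ} (hX : 0 ≤ X) : X * daX X = rhX X * (1 - aX X / 2) := by
  have hy := j2_y hX
  have hw : wX X = X * (8 + 60 * X) := by unfold wX; ring
  unfold daX rhX aX
  rw [hw]
  have h1 : (1 + yX X) ≠ 0 := by linarith
  have h2 : (yX X + 1) ≠ 0 := by linarith
  have h3 : (3 + yX X) ≠ 0 := by linarith
  field_simp
  ring

theorem j2_lam {X : ℝ} (hX : 0 ≤ X) : 1 - aX X = 2 * laX X * (1 - aX X / 2) := by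
  have hy := j2_y hX
  unfold laX aX
  have h2 : (yX X + 1) ≠ 0 := by linarith
  have h3 : (3 + yX X) ≠ 0 := by linarith
  field_simp
  ring

theorem Gd_low {X t1 t2 k v b R : ℝ} (hX : 0 ≤ X) (h1 : rhX X ≤ 1) (h2 : X * (1 + aX X) ^ 2 / 9 ≤ dfq X * X + Phq X)
    (h4 : 0 ≤ 2 - X + dfq X * X) (ht1 : 0 ≤ t1) (ht2 : 0 ≤ t2) (hk : 0 ≤ k) (hv : 0 ≤ v) (hvk : (1 - aX X / 2) * v ≤ k) :
    fq X * t2 + 4 * omX X * k ^ 2 + 2 * Phq X * (1 - laX X) * k + 4 * X * k - 4 * X * R + 4 * b + P0 X ≤ Gd X t1 t2 k v b R := by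
  have hy := j2_y hX
  have hw := j2_w hX
  have hP := Phq_nonneg hX
  have hrho0 : 0 ≤ rhX X := by unfold rhX; positivity
  have hlam0 : 0 ≤ laX X := by unfold laX; positivity
  have ha := aX_le hX
  set V : ℝ := (1 - aX X / 2) * v with hV
  have hV0 : 0 ≤ V := mul_nonneg (by linarith) hv
  have e1 : daX X * v * X = rhX X * V := by rw [hV]; linear_combination v * j2_rho hX
  have e2 : (1 - aX X) * v = 2 * laX X * V := by rw [hV]; linear_combination v * j2_lam hX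
  have hid : Gd X t1 t2 k v b R = fq X * t2 + 4 * omX X * k ^ 2 + 2 * Phq X * (1 - laX X) * k + 4 * X * k - 4 * X * R + 4 * b + P0 X
      + t1 * (4 * (k - rhX X * V) + (dfq X * X + Phq X - X * (1 + aX X) ^ 2 / 9)) + 4 * k * t2
      + 4 * rhX X * k * (k - V) + (rhX X - 2 * laX X) ^ 2 * ((k - V) * (k + V))
      + rhX X * V * (2 - X + dfq X * X) + 2 * Phq X * laX X * (k - V) := by
    unfold Gd
    rw [e2]
    unfold omX P0 Phq
    linear_combination (2 * (1 - X / 2 - (t1 + t2 + 2 * k - 2 * laX X * V)) - 2 * (t1 - t2) - (daX X * v * X + rhX X * V - dfq X * X)) * e1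
  rw [hid]
  have i1 : 0 ≤ t1 * (4 * (k - rhX X * V) + (dfq X * X + Phq X - X * (1 + aX X) ^ 2 / 9)) := by
    apply mul_nonneg ht1
    have : rhX X * V ≤ 1 * V := mul_le_mul_of_nonneg_right h1 hV0
    linarith
  have hkV : 0 ≤ k - V := by linarith
  have i2 : 0 ≤ 4 * k * t2 := by positivity
  have i3 : 0 ≤ 4 * rhX X * k * (k - V) := by positivity
  have i4 : 0 ≤ (rhX X - 2 * laX X) ^ 2 * ((k - V) * (k + V)) := by positivity
  have i5 : 0 ≤ rhX X * V * (2 - X + dfq X * X) := by positivity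
  have i6 : 0 ≤ 2 * Phq X * laX X * (k - V) := by positivity
  linarith

end NullQ
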