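import Pool.Agent.Lib.H74Q.Jd

set_option autoImplicit false
set_option maxRecDepth 4000

/-!
One-variable polynomial inequalities (Bernstein forms, generated).
-/

namespace NullQ

theorem pO2_0 {x : ℝ} (h0 : 1 / 3 ≤ x) (h1 : x ≤ 5 / 6) : 0 ≤ (73 / 20) + (3027 / 50) * x + (4068 / 25) * x ^ 2 - (67128 / 25) * x ^ 3 - (362146 / 25) * x ^ 4 + (83044 / 25) * x ^ 5 + (440112 / 5) * x ^ 6 + 318816 * x ^ 7 + 49140 * x ^ 8 - 599400 * x ^ 9 := by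
  have h : ∀ s u : ℝ, 0 ≤ s → 0 ≤ u → 0 ≤ (2402176 / 225) * u ^ 9 + (44171008 / 75) * s * u ^ 8 + (563810816 / 75) * s ^ 2 * u ^ 7 + (3386320384 / 75) * s ^ 3 * u ^ 6 + (11529062848 / 75) * s ^ 4 * u ^ 5 + (23704156544 / 75) * s ^ 5 * u ^ 4 + (9799115392 / 25) * s ^ 6 * u ^ 3 + (6836887936 / 25) * s ^ 7 * u ^ 2 + (2151883384 / 25) * s ^ 8 * u + (153842384 / 45) * s ^ 9 := by
    intro s u hs hu
    positivity
  refine le_of_le_of_eq (h (x - (1 / 3)) ((5 / 6) - x) (by linarith) (by linarith)) ?_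
  ring

theorem pO2 {x : ℝ} (h0 : 1 / 3 ≤ x) (h1 : x ≤ 5 / 6) : 0 ≤ (73 / 20) + (3027 / 50) * x + (4068 / 25) * x ^ 2 - (67128 / 25) * x ^ 3 - (362146 / 25) * x ^ 4 + (83044 / 25) * x ^ 5 + (440112 / 5) * x ^ 6 + 318816 * x ^ 7 + 49140 * x ^ 8 - 599400 * x ^ 9 := by
  exact pO2_0 h0 h1

theorem pO3_0 {x : ℝ} (h0 : 5 / 6 ≤ x) (h1 : x ≤ 6 / 5) : 0 ≤ -(2 / 5) - (2109 / 100) * x - (17328 / 25) * x ^ 2 - (203812 / 25) * x ^ 3 - (955184 / 25) * x ^ 4 - (1624974 / 25) * x ^ 5 - (202752 / 5) * x ^ 6 + 227664 * x ^ 7 + 142560 * x ^ 8 - 170100 * x ^ 9 := by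
  have h : ∀ s u : ℝ, 0 ≤ s → 0 ≤ u → 0 ≤ (7490505754687500 / 2357947691) * u ^ 9 + (1040618885109750000 / 2357947691) * s * u ^ 8 + (9906144315861600000 / 2357947691) * s ^ 2 * u ^ 7 + (42008615867612880000 / 2357947691) * s ^ 3 * u ^ 6 + (101381636264933412000 / 2357947691) * s ^ 4 * u ^ 5 + (151247007529130102400 / 2357947691) * s ^ 5 * u ^ 4 + (142073050884826060800 / 2357947691) * s ^ 6 * u ^ 3 + (81531671317973337600 / 2357947691) * s ^ 7 * u ^ 2 + (25882973016842923200 / 2357947691) * s ^ 8 * u + (3422980301490374400 / 2357947691) * s ^ 9 := by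
    intro s u hs hu
    positivity
  refine le_of_le_of_eq (h (x - (5 / 6)) ((6 / 5) - x) (by linarith) (by linarith)) ?_
  ring

theorem pO3 {x : ℝ} (h0 : 5 / 6 ≤ x) (h1 : x ≤ 6 / 5) : 0 ≤ -(2 / 5) - (2109 / 100) * x - (17328 / 25) * x ^ 2 - (203812 / 25) * x ^ 3 - (955184 / 25) * x ^ 4 - (1624974 / 25) * x ^ 5 - (202752 / 5) * x ^ 6 + 227664 * x ^ 7 + 142560 * x ^ 8 - 170100 * x ^ 9 := by
  exact pO3_0 h0 h1

theorem pO4_0 {x : ℝ} (h0 : 6 / 5 ≤ x) : 0 ≤ -(283 / 100) - (1776 / 25) * x - (30684 / 25) * x ^ 2 - (291568 / 25) * x ^ 3 - (1350578 / 25) * x ^ 4 - (567744 / 5) * x ^ 5 - 142992 * x ^ 6 + 112320 * x ^ 7 + 105300 * x ^ 8 := by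
  have h : ∀ s : ℝ, 0 ≤ s → 0 ≤ (730313813 / 62500) + (1017019392 / 625) * s + (4845878772 / 625) * s ^ 2 + (399424544 / 25) * s ^ 3 + (456341902 / 25) * s ^ 4 + 12443136 * s ^ 5 + 5046192 * s ^ 6 + 1123200 * s ^ 7 + 105300 * s ^ 8 := by
    intro s hs
    positivity
  refine le_of_le_of_eq (h (x - (6 / 5)) (by linarith)) ?_
  ring

theorem pO4 {x : ℝ} (h0 : 6 / 5 ≤ x) : 0 ≤ -(283 / 100) - (1776 / 25) * x - (30684 / 25) * x ^ 2 - (291568 / 25) * x ^ 3 - (1350578 / 25) * x ^ 4 - (567744 / 5) * x ^ 5 - 142992 * x ^ 6 + 112320 * x ^ 7 + 105300 * x ^ 8 := by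
  exact pO4_0 h0

theorem pO5_0 {x : ℝ} (h0 : 2 ≤ x) : 0 ≤ -(173 / 50) - (2112 / 25) * x - (34408 / 25) * x ^ 2 - (317216 / 25) * x ^ 3 - (1473036 / 25) * x ^ 4 - (649728 / 5) * x ^ 5 - 182304 * x ^ 6 + 51840 * x ^ 7 + 48600 * x ^ 8 := by
  have h : ∀ s : ℝ, 0 ≤ s → 0 ≤ (110073747 / 50) + (638734112 / 25) * s + (1657186232 / 25) * s ^ 2 + (2031776896 / 25) * s ^ 3 + (1416264564 / 25) * s ^ 4 + (119048832 / 5) * s ^ 5 + 5986656 * s ^ 6 + 829440 * s ^ 7 + 48600 * s ^ 8 := by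
    intro s hs
    positivity
  refine le_of_le_of_eq (h (x - 2) (by linarith)) ?_
  ring

theorem pO5 {x : ℝ} (h0 : 2 ≤ x) : 0 ≤ -(173 / 50) - (2112 / 25) * x - (34408 / 25) * x ^ 2 - (317216 / 25) * x ^ 3 - (1473036 / 25) * x ^ 4 - (649728 / 5) * x ^ 5 - 182304 * x ^ 6 + 51840 * x ^ 7 + 48600 * x ^ 8 := by
  exact pO5_0 h0

theorem pP1_0 {x : ℝ} (h0 : 0 ≤ x) (h1 : x ≤ 1 / 3) : 0 ≤ 324000 + 742500 * x - 216000 * x ^ 2 + 9000 * x ^ 3 - 1980 * x ^ 4 + 690 * x ^ 5 + 6 * x ^ 6 + 12 * x ^ 7 := by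
  have h : ∀ s u : ℝ, 0 ≤ s → 0 ≤ u → 0 ≤ 708588000 * u ^ 7 + 5501398500 * s * u ^ 6 + 18075555000 * s ^ 2 * u ^ 5 + 32658106500 * s ^ 3 * u ^ 4 + 35104212540 * s ^ 4 * u ^ 3 + 22478925330 * s ^ 5 * u ^ 2 + 7948139058 * s ^ 6 * u + 1198064280 * s ^ 7 := by
    intro s u hs hu
    positivity
  refine le_of_le_of_eq (h x ((1 / 3) - x) (by linarith) (by linarith)) ?_
  ring

theorem pP1 {x : ℝ} (h0 : 0 ≤ x) (h1 : x ≤ 1 / 3) : 0 ≤ 324000 + 742500 * x - 216000 * x ^ 2 + 9000 * x ^ 3 - 1980 * x ^ 4 + 690 * x ^ 5 + 6 * x ^ 6 + 12 * x ^ 7 := by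
  exact pP1_0 h0 h1

theorem pP2_0 {x : ℝ} (h0 : 1 / 3 ≤ x) (h1 : x ≤ 5 / 6) : 0 ≤ 113400 - 518400 * x + 757620 * x ^ 2 - 328320 * x ^ 3 + 9756 * x ^ 4 - 7596 * x ^ 5 + (3534 / 5) * x ^ 6 - (594 / 5) * x ^ 7 + (607 / 50) * x ^ 8 - (26 / 25) * x ^ 9 := by
  have h : ∀ s u : ℝ, 0 ≤ s → 0 ≤ u → 0 ≤ (3202213654784 / 492075) * u ^ 9 + (499287496448 / 18225) * s * u ^ 8 + (88205379328 / 2187) * s ^ 2 * u ^ 7 + (1351144738432 / 32805) * s ^ 3 * u ^ 6 + (27776265056 / 243) * s ^ 4 * u ^ 5 + (584974932224 / 2187) * s ^ 5 * u ^ 4 + (2142302742320 / 6561) * s ^ 6 * u ^ 3 + (156077545240 / 729) * s ^ 7 * u ^ 2 + (158378060425 / 2187) * s ^ 8 * u + (195339729275 / 19683) * s ^ 9 := by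
    intro s u hs hu
    positivity
  refine le_of_le_of_eq (h (x - (1 / 3)) ((5 / 6) - x) (by linarith) (by linarith)) ?_
  ring

theorem pP2 {x : ℝ} (h0 : 1 / 3 ≤ x) (h1 : x ≤ 5 / 6) : 0 ≤ 113400 - 518400 * x + 757620 * x ^ 2 - 328320 * x ^ 3 + 9756 * x ^ 4 - 7596 * x ^ 5 + (3534 / 5) * x ^ 6 - (594 / 5) * x ^ 7 + (607 / 50) * x ^ 8 - (26 / 25) * x ^ 9 := by
  exact pP2_0 h0 h1

theorem pP3_0 {x : ℝ} (h0 : 5 / 6 ≤ x) (h1 : x ≤ 6 / 5) : 0 ≤ 106920 - 518400 * x + 756756 * x ^ 2 - 328320 * x ^ 3 + (48564 / 5) * x ^ 4 - 7596 * x ^ 5 + (17646 / 25) * x ^ 6 - (594 / 5) * x ^ 7 + (3033 / 250) * x ^ 8 - (26 / 25) * x ^ 9 := by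
  have h : ∀ s u : ℝ, 0 ≤ s → 0 ≤ u → 0 ≤ (241750841494140625 / 2357947691) * u ^ 9 + (2641085416810546875 / 2357947691) * s * u ^ 8 + (12258076087535625000 / 2357947691) * s ^ 2 * u ^ 7 + (31831091875527750000 / 2357947691) * s ^ 3 * u ^ 6 + (51001212722507640000 / 2357947691) * s ^ 4 * u ^ 5 + (52156261913918832000 / 2357947691) * s ^ 5 * u ^ 4 + (33795817012877345280 / 2357947691) * s ^ 6 * u ^ 3 + (13167863987563095552 / 2357947691) * s ^ 7 * u ^ 2 + (67505135223589945344 / 58948692275) * s ^ 8 * u + (5018971927146467328 / 58948692275) * s ^ 9 := by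
    intro s u hs hu
    positivity
  refine le_of_le_of_eq (h (x - (5 / 6)) ((6 / 5) - x) (by linarith) (by linarith)) ?_
  ring

theorem pP3 {x : ℝ} (h0 : 5 / 6 ≤ x) (h1 : x ≤ 6 / 5) : 0 ≤ 106920 - 518400 * x + 756756 * x ^ 2 - 328320 * x ^ 3 + (48564 / 5) * x ^ 4 - 7596 * x ^ 5 + (17646 / 25) * x ^ 6 - (594 / 5) * x ^ 7 + (3033 / 250) * x ^ 8 - (26 / 25) * x ^ 9 := by
  exact pP3_0 h0 h1

theorem pP4_0 {x : ℝ} (h0 : 6 / 5 ≤ x) (h1 : x ≤ 2) : 0 ≤ -907200 + 324000 * x + 621540 * x ^ 2 - 216000 * x ^ 3 + 2952 * x ^ 4 - 1980 * x ^ 5 + (2778 / 5) * x ^ 6 + 6 * x ^ 7 + (272 / 25) * x ^ 8 := by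
  have h : ∀ s u : ℝ, 0 ≤ s → 0 ≤ u → 0 ≤ (3839897097 / 102400) * u ^ 8 + (23293379223 / 5120) * s * u ^ 7 + (30964213791 / 1024) * s ^ 2 * u ^ 6 + (89449715745 / 1024) * s ^ 3 * u ^ 5 + (286327272375 / 2048) * s ^ 4 * u ^ 4 + (136544860125 / 1024) * s ^ 5 * u ^ 3 + (77445406875 / 1024) * s ^ 6 * u ^ 2 + (24144084375 / 1024) * s ^ 7 * u + (12742765625 / 4096) * s ^ 8 := by
    intro s u hs hu
    positivity
  refine le_of_le_of_eq (h (x - (6 / 5)) (2 - x) (by linarith) (by linarith)) ?_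
  ring

theorem pP4 {x : ℝ} (h0 : 6 / 5 ≤ x) (h1 : x ≤ 2) : 0 ≤ -907200 + 324000 * x + 621540 * x ^ 2 - 216000 * x ^ 3 + 2952 * x ^ 4 - 1980 * x ^ 5 + (2778 / 5) * x ^ 6 + 6 * x ^ 7 + (272 / 25) * x ^ 8 := by
  exact pP4_0 h0 h1

theorem pP5_0 {x : ℝ} (h0 : 2 ≤ x) (h1 : x ≤ 7 / 2) : 0 ≤ -583200 + 324000 * x + 664740 * x ^ 2 - 216000 * x ^ 3 + 5112 * x ^ 4 - 1980 * x ^ 5 + (3018 / 5) * x ^ 6 + 6 * x ^ 7 + (282 / 25) * x ^ 8 := by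
  have h : ∀ s u : ℝ, 0 ≤ s → 0 ≤ u → 0 ≤ (2253819904 / 54675) * u ^ 8 + (19714635776 / 54675) * s * u ^ 7 + (72505754368 / 54675) * s ^ 2 * u ^ 6 + (146275179008 / 54675) * s ^ 3 * u ^ 5 + (35284305536 / 10935) * s ^ 4 * u ^ 4 + (129426364832 / 54675) * s ^ 5 * u ^ 3 + (55863205288 / 54675) * s ^ 6 * u ^ 2 + (12826963964 / 54675) * s ^ 7 * u + (1199453074 / 54675) * s ^ 8 := by
    intro s u hs hu
    positivity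
  refine le_of_le_of_eq (h (x - 2) ((7 / 2) - x) (by linarith) (by linarith)) ?_
  ring

theorem pP5_1 {x : ℝ} (h0 : 7 / 2 ≤ x) (h1 : x ≤ 17 / 4) : 0 ≤ -583200 + 324000 * x + 664740 * x ^ 2 - 216000 * x ^ 3 + 5112 * x ^ 4 - 1980 * x ^ 5 + (3018 / 5) * x ^ 6 + 6 * x ^ 7 + (282 / 25) * x ^ 8 := by
  have h : ∀ s u : ℝ, 0 ≤ s → 0 ≤ u → 0 ≤ (307059986944 / 54675) * u ^ 8 + (2042868455936 / 54675) * s * u ^ 7 + (5680584748288 / 54675) * s ^ 2 * u ^ 6 + (8492422049408 / 54675) * s ^ 3 * u ^ 5 + (1459125608576 / 10935) * s ^ 4 * u ^ 4 + (3570046134752 / 54675) * s ^ 5 * u ^ 3 + (954826385968 / 54675) * s ^ 6 * u ^ 2 + (159848948024 / 54675) * s ^ 7 * u + (27087040774 / 54675) * s ^ 8 := by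
    intro s u hs hu
    positivity
  refine le_of_le_of_eq (h (x - (7 / 2)) ((17 / 4) - x) (by linarith) (by linarith)) ?_
  ring

theorem pP5_2 {x : ℝ} (h0 : 17 / 4 ≤ x) (h1 : x ≤ 5) : 0 ≤ -583200 + 324000 * x + 664740 * x ^ 2 - 216000 * x ^ 3 + 5112 * x ^ 4 - 1980 * x ^ 5 + (3018 / 5) * x ^ 6 + 6 * x ^ 7 + (282 / 25) * x ^ 8 := by
  have h : ∀ s u : ℝ, 0 ≤ s → 0 ≤ u → 0 ≤ (27087040774 / 54675) * u ^ 8 + (54708740872 / 10935) * s * u ^ 7 + (350137936064 / 10935) * s ^ 2 * u ^ 6 + (263822125184 / 2187) * s ^ 3 * u ^ 5 + (578581202944 / 2187) * s ^ 4 * u ^ 4 + (754701793280 / 2187) * s ^ 5 * u ^ 3 + (579890053120 / 2187) * s ^ 6 * u ^ 2 + (243131187200 / 2187) * s ^ 7 * u + (43014553600 / 2187) * s ^ 8 := by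
    intro s u hs hu
    positivity
  refine le_of_le_of_eq (h (x - (17 / 4)) (5 - x) (by linarith) (by linarith)) ?_
  ring

theorem pP5_3 {x : ℝ} (h0 : 5 ≤ x) : 0 ≤ -583200 + 324000 * x + 664740 * x ^ 2 - 216000 * x ^ 3 + 5112 * x ^ 4 - 1980 * x ^ 5 + (3018 / 5) * x ^ 6 + 6 * x ^ 7 + (282 / 25) * x ^ 8 := by
  have h : ∀ s : ℝ, 0 ≤ s → 0 ≤ 1969050 + 6163650 * s + 6704040 * s ^ 2 + 3005490 * s ^ 3 + 701712 * s ^ 4 + 98238 * s ^ 5 + (43548 / 5) * s ^ 6 + (2286 / 5) * s ^ 7 + (282 / 25) * s ^ 8 := by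
    intro s hs
    positivity
  refine le_of_le_of_eq (h (x - 5) (by linarith)) ?_
  ring

theorem pP5 {x : ℝ} (h0 : 2 ≤ x) : 0 ≤ -583200 + 324000 * x + 664740 * x ^ 2 - 216000 * x ^ 3 + 5112 * x ^ 4 - 1980 * x ^ 5 + (3018 / 5) * x ^ 6 + 6 * x ^ 7 + (282 / 25) * x ^ 8 := by
  rcases le_total x (7 / 2) with c0 | c0
  · exact pP5_0 h0 c0
  rcases le_total x (17 / 4) with c1 | c1
  · exact pP5_1 c0 c1
  rcases le_total x 5 with c2 | c2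
  · exact pP5_2 c1 c2
  exact pP5_3 c2

theorem pH2_0 {x : ℝ} (h0 : 1 / 3 ≤ x) (h1 : x ≤ 5 / 6) : 0 ≤ 3600 - 1200 * x + 13110 * x ^ 2 - 85040 * x ^ 3 + 90247 * x ^ 4 + (45896 / 3) * x ^ 5 + (17194 / 5) * x ^ 6 + (1264 / 5) * x ^ 7 + 48 * x ^ 8 := by
  have h : ∀ s u : ℝ, 0 ≤ s → 0 ≤ u → 0 ≤ (278795008 / 405) * u ^ 8 + (17084985856 / 3645) * s * u ^ 7 + (48069829504 / 3645) * s ^ 2 * u ^ 6 + (5103797120 / 243) * s ^ 3 * u ^ 5 + (18235401808 / 729) * s ^ 4 * u ^ 4 + (20748000160 / 729) * s ^ 5 * u ^ 3 + (6484623320 / 243) * s ^ 6 * u ^ 2 + (10828408400 / 729) * s ^ 7 * u + (2499763400 / 729) * s ^ 8 := by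
    intro s u hs hu
    positivity
  refine le_of_le_of_eq (h (x - (1 / 3)) ((5 / 6) - x) (by linarith) (by linarith)) ?_
  ring

theorem pH2 {x : ℝ} (h0 : 1 / 3 ≤ x) (h1 : x ≤ 5 / 6) : 0 ≤ 3600 - 1200 * x + 13110 * x ^ 2 - 85040 * x ^ 3 + 90247 * x ^ 4 + (45896 / 3) * x ^ 5 + (17194 / 5) * x ^ 6 + (1264 / 5) * x ^ 7 + 48 * x ^ 8 := by
  exact pH2_0 h0 h1

theorem pH3_0 {x : ℝ} (h0 : 5 / 6 ≤ x) (h1 : x ≤ 6 / 5) : 0 ≤ (102600 / 7) + (112680 / 7) * x + (636606 / 7) * x ^ 2 - (1458552 / 7) * x ^ 3 + (2998767 / 35) * x ^ 4 + (245678 / 35) * x ^ 5 + (503381 / 175) * x ^ 6 + (20036 / 175) * x ^ 7 + (186 / 5) * x ^ 8 := by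
  have h : ∀ s u : ℝ, 0 ≤ s → 0 ≤ u → 0 ≤ (85614433593750 / 1771561) * u ^ 8 + (46021090518750000 / 136410197) * s * u ^ 7 + (136988816676187500 / 136410197) * s ^ 2 * u ^ 6 + (227994560113050000 / 136410197) * s ^ 3 * u ^ 5 + (235537347896874000 / 136410197) * s ^ 4 * u ^ 4 + (160478571302265600 / 136410197) * s ^ 5 * u ^ 3 + (75187489640501376 / 136410197) * s ^ 6 * u ^ 2 + (118198743864846336 / 682050985) * s ^ 7 * u + (19140050906062848 / 682050985) * s ^ 8 := by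
    intro s u hs hu
    positivity
  refine le_of_le_of_eq (h (x - (5 / 6)) ((6 / 5) - x) (by linarith) (by linarith)) ?_
  ring

theorem pH3 {x : ℝ} (h0 : 5 / 6 ≤ x) (h1 : x ≤ 6 / 5) : 0 ≤ (102600 / 7) + (112680 / 7) * x + (636606 / 7) * x ^ 2 - (1458552 / 7) * x ^ 3 + (2998767 / 35) * x ^ 4 + (245678 / 35) * x ^ 5 + (503381 / 175) * x ^ 6 + (20036 / 175) * x ^ 7 + (186 / 5) * x ^ 8 := by
  exact pH3_0 h0 h1

theorem pH4_0 {x : ℝ} (h0 : 6 / 5 ≤ x) (h1 : x ≤ 2) : 0 ≤ (102600 / 7) + (141408 / 7) * x + (689778 / 7) * x ^ 2 - (6159264 / 35) * x ^ 3 + (1844691 / 35) * x ^ 4 + (1603828 / 175) * x ^ 5 + (114258 / 175) * x ^ 6 + (5256 / 35) * x ^ 7 := by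
  have h : ∀ s u : ℝ, 0 ≤ s → 0 ≤ u → 0 ≤ (482211711 / 8960) * u ^ 7 + (658505547 / 2560) * s * u ^ 6 + (2650220217 / 3584) * s ^ 2 * u ^ 5 + (1036852575 / 448) * s ^ 3 * u ^ 4 + (301256625 / 56) * s ^ 4 * u ^ 3 + (3557084375 / 512) * s ^ 5 * u ^ 2 + (16075920625 / 3584) * s ^ 6 * u + (291690625 / 256) * s ^ 7 := by
    intro s u hs hu
    positivity
  refine le_of_le_of_eq (h (x - (6 / 5)) (2 - x) (by linarith) (by linarith)) ?_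
  ring

theorem pH4 {x : ℝ} (h0 : 6 / 5 ≤ x) (h1 : x ≤ 2) : 0 ≤ (102600 / 7) + (141408 / 7) * x + (689778 / 7) * x ^ 2 - (6159264 / 35) * x ^ 3 + (1844691 / 35) * x ^ 4 + (1603828 / 175) * x ^ 5 + (114258 / 175) * x ^ 6 + (5256 / 35) * x ^ 7 := by
  exact pH4_0 h0 h1

theorem pH5_0 {x : ℝ} (h0 : 2 ≤ x) : 0 ≤ 29160 + 50760 * x + 222894 * x ^ 2 - 255096 * x ^ 3 + (304737 / 5) * x ^ 4 + (18942 / 5) * x ^ 5 + 790 * x ^ 6 + 60 * x ^ 7 := by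
  have h : ∀ s : ℝ, 0 ≤ s → 0 ≤ (680576 / 5) + (1565664 / 5) * s + (3440238 / 5) * s ^ 2 + (2720096 / 5) * s ^ 3 + (815157 / 5) * s ^ 4 + (91542 / 5) * s ^ 5 + 1630 * s ^ 6 + 60 * s ^ 7 := by
    intro s hs
    positivity
  refine le_of_le_of_eq (h (x - 2) (by linarith)) ?_
  ring

theorem pH5 {x : ℝ} (h0 : 2 ≤ x) : 0 ≤ 29160 + 50760 * x + 222894 * x ^ 2 - 255096 * x ^ 3 + (304737 / 5) * x ^ 4 + (18942 / 5) * x ^ 5 + 790 * x ^ 6 + 60 * x ^ 7 := by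
  exact pH5_0 h0

theorem pC2_0 {x : ℝ} (h0 : 1 / 3 ≤ x) (h1 : x ≤ 5 / 6) : 0 ≤ 60 - 180 * x + 137 * x ^ 2 + 48 * x ^ 3 := by
  have h : ∀ s u : ℝ, 0 ≤ s → 0 ≤ u → 0 ≤ 136 * u ^ 3 + (352 / 3) * s * u ^ 2 + (590 / 3) * s ^ 2 * u + (790 / 3) * s ^ 3 := by
    intro s u hs hu
    positivity
  refine le_of_le_of_eq (h (x - (1 / 3)) ((5 / 6) - x) (by linarith) (by linarith)) ?_
  ring

theorem pC2 {x : ℝ} (h0 : 1 / 3 ≤ x) (h1 : x ≤ 5 / 6) : 0 ≤ 60 - 180 * x + 137 * x ^ 2 + 48 * x ^ 3 := by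
  exact pC2_0 h0 h1

theorem pC3_0 {x : ℝ} (h0 : 5 / 6 ≤ x) (h1 : x ≤ 2) : 0 ≤ (216 / 7) - (1716 / 35) * x + (561 / 35) * x ^ 2 + (764 / 175) * x ^ 3 := by
  have h : ∀ s u : ℝ, 0 ≤ s → 0 ≤ u → 0 ≤ (28440 / 16807) * u ^ 5 + (15912 / 12005) * s * u ^ 4 + (449352 / 84035) * s ^ 2 * u ^ 3 + (11856456 / 420175) * s ^ 3 * u ^ 2 + (15645312 / 420175) * s ^ 4 * u + (6189696 / 420175) * s ^ 5 := by
    intro s u hs hu
    positivity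
  refine le_of_le_of_eq (h (x - (5 / 6)) (2 - x) (by linarith) (by linarith)) ?_
  ring

theorem pC3 {x : ℝ} (h0 : 5 / 6 ≤ x) (h1 : x ≤ 2) : 0 ≤ (216 / 7) - (1716 / 35) * x + (561 / 35) * x ^ 2 + (764 / 175) * x ^ 3 := by
  exact pC3_0 h0 h1

theorem pC5_0 {x : ℝ} (h0 : 2 ≤ x) (h1 : x ≤ 5 / 2) : 0 ≤ (984 / 5) - 132 * x + (539 / 25) * x ^ 2 + (8 / 5) * x ^ 3 := by
  have h : ∀ s u : ℝ, 0 ≤ s → 0 ≤ u → 0 ≤ (6368 / 25) * u ^ 3 + (16448 / 25) * s * u ^ 2 + 614 * s ^ 2 * u + (1062 / 5) * s ^ 3 := by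
    intro s u hs hu
    positivity
  refine le_of_le_of_eq (h (x - 2) ((5 / 2) - x) (by linarith) (by linarith)) ?_
  ring

theorem pC5_1 {x : ℝ} (h0 : 5 / 2 ≤ x) : 0 ≤ (984 / 5) - 132 * x + (539 / 25) * x ^ 2 + (8 / 5) * x ^ 3 := by
  have h : ∀ s : ℝ, 0 ≤ s → 0 ≤ (531 / 20) + (29 / 5) * s + (839 / 25) * s ^ 2 + (8 / 5) * s ^ 3 := by
    intro s hs
    positivity
  refine le_of_le_of_eq (h (x - (5 / 2)) (by linarith)) ?_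
  ring

theorem pC5 {x : ℝ} (h0 : 2 ≤ x) : 0 ≤ (984 / 5) - 132 * x + (539 / 25) * x ^ 2 + (8 / 5) * x ^ 3 := by
  rcases le_total x (5 / 2) with c0 | c0
  · exact pC5_0 h0 c0
  exact pC5_1 c0

theorem pQ1_0 {x : ℝ} (h0 : 0 ≤ x) (h1 : x ≤ 1 / 10) : 0 ≤ 3 - 56 * x ^ 2 + 480 * x ^ 3 + 900 * x ^ 4 := by
  have h : ∀ s u : ℝ, 0 ≤ s → 0 ≤ u → 0 ≤ 30000 * u ^ 4 + 120000 * s * u ^ 3 + 174400 * s ^ 2 * u ^ 2 + 113600 * s ^ 3 * u + 30100 * s ^ 4 := by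
    intro s u hs hu
    positivity
  refine le_of_le_of_eq (h x ((1 / 10) - x) (by linarith) (by linarith)) ?_
  ring

theorem pQ1_1 {x : ℝ} (h0 : 1 / 10 ≤ x) : 0 ≤ 3 - 56 * x ^ 2 + 480 * x ^ 3 + 900 * x ^ 4 := by
  have h : ∀ s : ℝ, 0 ≤ s → 0 ≤ (301 / 100) + (34 / 5) * s + 142 * s ^ 2 + 840 * s ^ 3 + 900 * s ^ 4 := by
    intro s hs
    positivity
  refine le_of_le_of_eq (h (x - (1 / 10)) (by linarith)) ?_
  ring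

theorem pQ1 {x : ℝ} (h0 : 0 ≤ x) : 0 ≤ 3 - 56 * x ^ 2 + 480 * x ^ 3 + 900 * x ^ 4 := by
  rcases le_total x (1 / 10) with c0 | c0
  · exact pQ1_0 h0 c0
  exact pQ1_1 c0

theorem pQ2_0 {x : ℝ} (h0 : 0 ≤ x) (h1 : x ≤ 1 / 4) : 0 ≤ 20250 - 125460 * x - 763425 * x ^ 2 + 4617762 * x ^ 3 + 23457132 * x ^ 4 + 9858376 * x ^ 5 + 195420 * x ^ 6 + 138600 * x ^ 7 := by
  have h : ∀ s u : ℝ, 0 ≤ s → 0 ≤ u → 0 ≤ 1327104000 * u ^ 8 + 8561295360 * s * u ^ 7 + 19643166720 * s ^ 2 * u ^ 6 + 17118210048 * s ^ 3 * u ^ 5 + 3696632832 * s ^ 4 * u ^ 4 + 11771187712 * s ^ 5 * u ^ 3 + 32299783104 * s ^ 6 * u ^ 2 + 27028803360 * s ^ 7 * u + 7512809824 * s ^ 8 := by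
    intro s u hs hu
    positivity
  refine le_of_le_of_eq (h x ((1 / 4) - x) (by linarith) (by linarith)) ?_
  ring

theorem pQ2_1 {x : ℝ} (h0 : 1 / 4 ≤ x) : 0 ≤ 20250 - 125460 * x - 763425 * x ^ 2 + 4617762 * x ^ 3 + 23457132 * x ^ 4 + 9858376 * x ^ 5 + 195420 * x ^ 6 + 138600 * x ^ 7 := by
  have h : ∀ s : ℝ, 0 ≤ s → 0 ≤ (234775307 / 2048) + (1033552351 / 512) * s + (1670526083 / 128) * s ^ 2 + (1098124703 / 32) * s ^ 3 + (288312841 / 8) * s ^ 4 + (20666837 / 2) * s ^ 5 + 437970 * s ^ 6 + 138600 * s ^ 7 := by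
    intro s hs
    positivity
  refine le_of_le_of_eq (h (x - (1 / 4)) (by linarith)) ?_
  ring

theorem pQ2 {x : ℝ} (h0 : 0 ≤ x) : 0 ≤ 20250 - 125460 * x - 763425 * x ^ 2 + 4617762 * x ^ 3 + 23457132 * x ^ 4 + 9858376 * x ^ 5 + 195420 * x ^ 6 + 138600 * x ^ 7 := by
  rcases le_total x (1 / 4) with c0 | c0
  · exact pQ2_0 h0 c0
  exact pQ2_1 c0

theorem pQ4_0 {x : ℝ} (h0 : 0 ≤ x) (h1 : x ≤ 1) : 0 ≤ 1800 - 900 * x + 570 * x ^ 2 + 210 * x ^ 3 + 2 * x ^ 4 + 2 * x ^ 5 := by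
  have h : ∀ s u : ℝ, 0 ≤ s → 0 ≤ u → 0 ≤ 1800 * u ^ 5 + 8100 * s * u ^ 4 + 14970 * s ^ 2 * u ^ 3 + 14520 * s ^ 3 * u ^ 2 + 7532 * s ^ 4 * u + 1684 * s ^ 5 := by
    intro s u hs hu
    positivity
  refine le_of_le_of_eq (h x (1 - x) (by linarith) (by linarith)) ?_
  ring

theorem pQ4_1 {x : ℝ} (h0 : 1 ≤ x) : 0 ≤ 1800 - 900 * x + 570 * x ^ 2 + 210 * x ^ 3 + 2 * x ^ 4 + 2 * x ^ 5 := by
  have h : ∀ s : ℝ, 0 ≤ s → 0 ≤ 1684 + 888 * s + 1232 * s ^ 2 + 238 * s ^ 3 + 12 * s ^ 4 + 2 * s ^ 5 := by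
    intro s hs
    positivity
  refine le_of_le_of_eq (h (x - 1) (by linarith)) ?_
  ring

theorem pQ4 {x : ℝ} (h0 : 0 ≤ x) : 0 ≤ 1800 - 900 * x + 570 * x ^ 2 + 210 * x ^ 3 + 2 * x ^ 4 + 2 * x ^ 5 := by
  rcases le_total x 1 with c0 | c0
  · exact pQ4_0 h0 c0
  exact pQ4_1 c0

end NullQ
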