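import Pool.Agent.Lib.H74Q.J2
import Pool.Agent.Lib.H74Q.J3

set_option autoImplicit false

/-!
The four ranges of `X`. See PROOF.md, section 5.
-/

namespace NullQ

theorem yX_nn {X : ℝ} (hX : 0 ≤ X) : 0 ≤ yX X := by
  unfold yX
  positivity

theorem om_key {X c : ℝ} (hX : 0 ≤ X) (h : 0 ≤ (5 + 96 * X + 624 * X ^ 2 + 1088 * X ^ 3 + 6856 * X ^ 4 + 90240 * X ^ 5 +
    345600 * X ^ 6 + 864000 * X ^ 7 + 810000 * X ^ 8) - c * ((1 + 8 * X + 30 * X ^ 2) ^ 2 * (3 + 8 * X + 30 * X ^ 2) ^ 2)) :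
    c ≤ omX X := by
  have h1 : 0 < 1 + 8 * X + 30 * X ^ 2 := by positivity
  have h3 : 0 < 3 + 8 * X + 30 * X ^ 2 := by positivity
  have e : omX X - c = ((5 + 96 * X + 624 * X ^ 2 + 1088 * X ^ 3 + 6856 * X ^ 4 + 90240 * X ^ 5 +
    345600 * X ^ 6 + 864000 * X ^ 7 + 810000 * X ^ 8) - c * ((1 + 8 * X + 30 * X ^ 2) ^ 2 * (3 + 8 * X + 30 * X ^ 2) ^ 2)) /
      ((1 + 8 * X + 30 * X ^ 2) ^ 2 * (3 + 8 * X + 30 * X ^ 2) ^ 2) := by
    unfold omX rhX laX yX wX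
    rw [show 1 + (8 * X + 30 * X ^ 2) = 1 + 8 * X + 30 * X ^ 2 by ring, show 3 + (8 * X + 30 * X ^ 2) = 3 + 8 * X + 30 * X ^ 2 by ring]
    field_simp
    ring
  have h4 : 0 ≤ omX X - c := by
    rw [e]
    positivity
  linarith

theorem P0_key {X c : ℝ} (h : 0 ≤ (324000 * X ^ 3 + 742500 * X ^ 4 - 216000 * X ^ 5 + 9000 * X ^ 6 - 1980 * X ^ 7 + 690 * X ^ 8 +
    6 * X ^ 9 + 12 * X ^ 10) - 4 * c * (30 + X ^ 2) ^ 4) : c ≤ P0 X := by
  have h1 : 0 < 30 + X ^ 2 := by positivity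
  have e : P0 X - c = ((324000 * X ^ 3 + 742500 * X ^ 4 - 216000 * X ^ 5 + 9000 * X ^ 6 - 1980 * X ^ 7 + 690 * X ^ 8 +
    6 * X ^ 9 + 12 * X ^ 10) - 4 * c * (30 + X ^ 2) ^ 4) / (4 * (30 + X ^ 2) ^ 4) := by
    unfold P0 Phq fq dfq
    field_simp
    ring
  have h4 : 0 ≤ P0 X - c := by
    rw [e]
    positivity
  linarith

theorem Ph_key {X c : ℝ} (hX : 0 ≤ X) (h : 0 ≤ c * ((30 + X ^ 2) ^ 2 * (3 + 8 * X + 30 * X ^ 2)) +
    (1350 * X ^ 2 + 720 * X ^ 3 + 15 * X ^ 4 + 12 * X ^ 5) * (1 + 8 * X + 30 * X ^ 2)) : -c ≤ 2 * Phq X * (1 - laX X) := by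
  have h1 : 0 < 30 + X ^ 2 := by positivity
  have h3 : 0 < 3 + 8 * X + 30 * X ^ 2 := by positivity
  have e : 2 * Phq X * (1 - laX X) + c = (c * ((30 + X ^ 2) ^ 2 * (3 + 8 * X + 30 * X ^ 2)) +
    (1350 * X ^ 2 + 720 * X ^ 3 + 15 * X ^ 4 + 12 * X ^ 5) * (1 + 8 * X + 30 * X ^ 2)) /
      ((30 + X ^ 2) ^ 2 * (3 + 8 * X + 30 * X ^ 2)) := by
    unfold Phq fq dfq laX yX
    rw [show 3 + (8 * X + 30 * X ^ 2) = 3 + 8 * X + 30 * X ^ 2 by ring]
    field_simp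
    ring
  have h4 : 0 ≤ 2 * Phq X * (1 - laX X) + c := by
    rw [e]
    positivity
  linarith

theorem fq_key {X c : ℝ} (h : 0 ≤ (15 * X ^ 2 + 6 * X ^ 3) - 2 * c * (30 + X ^ 2)) : c ≤ fq X := by
  have h1 : 0 < 30 + X ^ 2 := by positivity
  have e : fq X - c = ((15 * X ^ 2 + 6 * X ^ 3) - 2 * c * (30 + X ^ 2)) / (2 * (30 + X ^ 2)) := by
    unfold fq
    field_simp
    ring
  have h4 : 0 ≤ fq X - c := by
    rw [e]
    positivity
  linarith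

theorem om_nn {X : ℝ} (hX : 0 ≤ X) : 0 ≤ omX X := by
  refine om_key hX ?_
  rw [zero_mul, sub_zero]
  positivity

theorem rh_le {X : ℝ} (hX : 0 ≤ X) : rhX X ≤ 1 := by
  unfold rhX yX wX
  rw [div_le_one (by positivity)]
  have h := pQ1 hX
  nlinarith [h]

theorem q2 {X : ℝ} (hX : 0 ≤ X) : X * (1 + aX X) ^ 2 / 9 ≤ dfq X * X + Phq X := by
  have h1 : 0 < 30 + X ^ 2 := by positivity
  have h2 : 0 < 1 + 8 * X + 30 * X ^ 2 := by positivity
  have h3 : 0 < 8 * X + 30 * X ^ 2 + 1 := by positivity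
  have e : dfq X * X + Phq X - X * (1 + aX X) ^ 2 / 9 =
      (9 * (X ^ 2 * (2250 + 1260 * X + 15 * X ^ 2 + 18 * X ^ 3)) * (1 + 8 * X + 30 * X ^ 2) ^ 2 -
        8 * (X * (8 * X + 30 * X ^ 2) ^ 2) * (30 + X ^ 2) ^ 2) / (18 * (1 + 8 * X + 30 * X ^ 2) ^ 2 * (30 + X ^ 2) ^ 2) := by
    unfold aX Phq fq dfq yX
    rw [show 8 * X + 30 * X ^ 2 + 1 = 1 + 8 * X + 30 * X ^ 2 by ring]
    field_simp
    ring
  have h4 : 0 ≤ 9 * (X ^ 2 * (2250 + 1260 * X + 15 * X ^ 2 + 18 * X ^ 3)) * (1 + 8 * X + 30 * X ^ 2) ^ 2 -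
        8 * (X * (8 * X + 30 * X ^ 2) ^ 2) * (30 + X ^ 2) ^ 2 := by
    refine le_of_le_of_eq (mul_nonneg (pow_nonneg hX 2) (pQ2 hX)) ?_
    ring
  have h5 : 0 ≤ dfq X * X + Phq X - X * (1 + aX X) ^ 2 / 9 := by
    rw [e]
    positivity
  linarith

theorem q4 {X : ℝ} (hX : 0 ≤ X) : 0 ≤ 2 - X + dfq X * X := by
  have h1 : 0 < 30 + X ^ 2 := by positivity
  have e : 2 - X + dfq X * X = ((2 - X) * (30 + X ^ 2) ^ 2 + X * (450 * X + 270 * X ^ 2 + 3 * X ^ 4)) / (30 + X ^ 2) ^ 2 := by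
    unfold dfq
    field_simp
  have h4 : 0 ≤ (2 - X) * (30 + X ^ 2) ^ 2 + X * (450 * X + 270 * X ^ 2 + 3 * X ^ 4) := by
    refine le_of_le_of_eq (pQ4 hX) ?_
    ring
  rw [e]
  positivity

theorem la_le {X : ℝ} (hX : 0 ≤ X) : laX X ≤ 1 := by
  unfold laX
  have := yX_nn hX
  rw [div_le_one (by linarith)]
  linarith

theorem aX_thr {X c : ℝ} (hX : 0 ≤ X) (h : c * (yX X + 1) ≤ yX X - 1) : c ≤ aX X := by
  unfold aX
  rw [le_div_iff₀ (by linarith [yX_nn hX])]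
  exact h

/-- The quadratic in `k`. -/
theorem quad_k {X k ω π E : ℝ} (hω : 0 < ω) (hE : E ^ 2 ≤ ω * π) : 0 ≤ 4 * ω * k ^ 2 - 4 * X * E * k + X ^ 2 * π := by
  have h : 0 ≤ ω * (4 * ω * k ^ 2 - 4 * X * E * k + X ^ 2 * π) := by
    have h2 : 0 ≤ X ^ 2 * (ω * π - E ^ 2) := mul_nonneg (sq_nonneg X) (by linarith)
    nlinarith [sq_nonneg (2 * ω * k - X * E)]
  exact nonneg_of_mul_nonneg_right h hω

/-- One range. -/
theorem range {X t2 k b R ω π E κ c : ℝ} (ht2 : 0 ≤ t2) (hk : 0 ≤ k) (hω : 0 < ω) (hE : E ^ 2 ≤ ω * π)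
    (h1 : ω ≤ omX X) (h2 : X ^ 2 * π ≤ P0 X) (h3 : κ - 4 * X - 4 * X * E ≤ 2 * Phq X * (1 - laX X)) (h4 : c ≤ fq X)
    (hR : 4 * X * R ≤ κ * k + 4 * b + c * t2) :
    0 ≤ fq X * t2 + 4 * omX X * k ^ 2 + 2 * Phq X * (1 - laX X) * k + 4 * X * k - 4 * X * R + 4 * b + P0 X := by
  have g1 : 0 ≤ (fq X - c) * t2 := mul_nonneg (by linarith) ht2
  have g2 : 0 ≤ (omX X - ω) * k ^ 2 := mul_nonneg (by linarith) (sq_nonneg k)
  have g3 : 0 ≤ (2 * Phq X * (1 - laX X) - (κ - 4 * X - 4 * X * E)) * k := mul_nonneg (by linarith) hk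
  have g4 := quad_k (X := X) (k := k) hω hE
  linarith

theorem end_nonneg {X t2 k b R : ℝ} (hX : 0 ≤ X) (ht2 : 0 ≤ t2) (hk : 0 ≤ k) (hb : 0 ≤ b) (hR : Nodes (aX X) k b t2 R) :
    0 ≤ fq X * t2 + 4 * omX X * k ^ 2 + 2 * Phq X * (1 - laX X) * k + 4 * X * k - 4 * X * R + 4 * b + P0 X := by
  obtain ⟨n0, n1, n2, n3⟩ := hR
  rcases le_total X (1 / 3) with c0 | c0
  · have g1 := mul_nonneg (fq_nonneg hX) ht2
    have g2 := mul_nonneg (om_nn hX) (sq_nonneg k)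
    have g3 := mul_nonneg (mul_nonneg (Phq_nonneg hX) (sub_nonneg.2 (la_le hX))) hk
    have g4 : 0 ≤ P0 X := by
      refine P0_key ?_
      refine le_of_le_of_eq (mul_nonneg (pow_nonneg hX 3) (pP1 hX c0)) ?_
      ring
    have g5 : 0 ≤ X * (k + 3 * b - R) := mul_nonneg hX (by linarith)
    have g6 : 0 ≤ b * (1 - 3 * X) := mul_nonneg hb (by linarith)
    nlinarith [g1, g2, g3, g4, g5, g6]
  · have t1 : 5 / 7 ≤ aX X := aX_thr hX (by unfold yX; nlinarith)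
    have m1 := n1 t1
    rcases le_total X (5 / 6) with c1 | c1
    · refine range (ω := 3 / 20 + 37 / 50 * X) (π := 26 / 100 * X - 35 / 1000) (E := 2 / 5 * X) (κ := 8 * X - 4 / 3)
        (c := (3 * X - 1) / 9) ht2 hk (by positivity) ?_ ?_ ?_ ?_ ?_ ?_
      · nlinarith
      · refine om_key hX (le_of_le_of_eq (pO2 c0 c1) ?_)
        ring
      · refine P0_key (le_of_le_of_eq (mul_nonneg (pow_nonneg hX 2) (pP2 c0 c1)) ?_)
        ring
      · have h := Ph_key (c := 4 / 3 - 4 * X + 8 / 5 * X ^ 2) hX (le_of_le_of_eq (pH2 c0 c1) (by ring))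
        linarith
      · refine fq_key (le_of_le_of_eq (mul_nonneg (by norm_num : (0 : ℝ) ≤ 1 / 9) (pC2 c0 c1)) ?_)
        ring
      · have g1 : 0 ≤ (5 - 6 * X) * (k + 3 * b - R) := mul_nonneg (by linarith) (by linarith)
        have g2 : 0 ≤ (15 * X - 5) * (8 / 5 * k + 6 / 5 * b + 1 / 20 * t2 - R) := mul_nonneg (by linarith) (by linarith)
        linarith
    · have t2' : 53 / 57 ≤ aX X := aX_thr hX (by unfold yX; nlinarith)
      have m2 := n2 t2'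
      rcases le_total X 2 with c2 | c2
      · have g1 : 0 ≤ (10 - 5 * X) * (8 / 5 * k + 6 / 5 * b + 1 / 20 * t2 - R) := mul_nonneg (by linarith) (by linarith)
        have g2 : 0 ≤ (12 * X - 10) * (51 / 20 * k + 1 / 2 * b + 7 / 50 * t2 - R) := mul_nonneg (by linarith) (by linarith)
        have hR' : 4 * X * R ≤ (904 / 70 * X - 38 / 7) * k + 4 * b + (572 / 700 * X - 36 / 70) * t2 := by linarith
        have hc : 572 / 700 * X - 36 / 70 ≤ fq X := by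
          refine fq_key (le_of_le_of_eq (pC3 c1 c2) ?_)
          ring
        rcases le_total X (6 / 5) with c3 | c3
        · refine range (ω := 3 / 5 + 21 / 100 * X) (π := 26 / 100 * X - 33 / 1000) (E := 1 / 10 + 31 / 100 * X)
            ht2 hk (by positivity) ?_ ?_ ?_ ?_ hc hR'
          · nlinarith
          · refine om_key hX (le_of_le_of_eq (pO3 c1 c3) ?_)
            ring
          · refine P0_key (le_of_le_of_eq (mul_nonneg (pow_nonneg hX 2) (pP3 c1 c3)) ?_)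
            ring
          · have h := Ph_key (c := X * (4 / 10 + 124 / 100 * X) + 38 / 7 - 904 / 70 * X + 4 * X) hX
              (le_of_le_of_eq (pH3 c1 c3) (by ring))
            linarith
        · refine range (ω := 87 / 100) (π := 28 / 100) (E := 48 / 100) ht2 hk (by norm_num) (by norm_num) ?_ ?_ ?_ hc hR'
          · refine om_key hX (le_of_le_of_eq (pO4 c3) ?_)
            ring
          · refine P0_key (le_of_le_of_eq (mul_nonneg (pow_nonneg hX 2) (pP4 c3 c2)) ?_)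
            ring
          · have h := Ph_key (c := 192 / 100 * X + 38 / 7 - 904 / 70 * X + 4 * X) hX (le_of_le_of_eq (pH4 c3 c2) (by ring))
            linarith
      · have t3 : 135 / 137 ≤ aX X := aX_thr hX (by unfold yX; nlinarith)
        have m3 := n3 t3
        refine range (ω := 94 / 100) (π := 18 / 100) (E := 4 / 10) (κ := 156 / 10 * X - 108 / 10) (c := 22 / 10 * X - 328 / 100)
          ht2 hk (by norm_num) (by norm_num) ?_ ?_ ?_ ?_ ?_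
        · refine om_key hX (le_of_le_of_eq (pO5 c2) ?_)
          ring
        · refine P0_key (le_of_le_of_eq (mul_nonneg (pow_nonneg hX 2) (pP5 c2)) ?_)
          ring
        · have h := Ph_key (c := 108 / 10 + (16 / 10 - 156 / 10 + 4) * X) hX (le_of_le_of_eq (pH5 c2) (by ring))
          linarith
        · refine fq_key (le_of_le_of_eq (pC5 c2) ?_)
          ring
        · have g2 : 0 ≤ (X - 2) * (39 / 10 * k + 11 / 20 * t2 - R) := mul_nonneg (by linarith) (by linarith)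
          linarith

theorem gd_nonneg {X t1 t2 k v b R : ℝ} (hX : 0 ≤ X) (ht1 : 0 ≤ t1) (ht2 : 0 ≤ t2) (hk : 0 ≤ k) (hv : 0 ≤ v) (hb : 0 ≤ b)
    (hvk : (1 - aX X / 2) * v ≤ k) (hR : Nodes (aX X) k b t2 R) : 0 ≤ Gd X t1 t2 k v b R :=
  (end_nonneg hX ht2 hk hb hR).trans (Gd_low hX (rh_le hX) (q2 hX) (q4 hX) ht1 ht2 hk hv hvk)

end NullQ
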