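import Pool.Agent.Lib.H74Q.J1
import Pool.Agent.Lib.H74Q.J2
import Pool.Agent.Lib.H74Q.J4

set_option autoImplicit false

/-!
The final pointwise inequality.
-/

namespace NullQ

theorem fin_q {X f1 f2 : ℝ} (hX : X = f1 ^ 2 + f2 ^ 2) (z1 z2 : ℝ) {t1 t2 k v b R1 R2 : ℝ} (ht1 : 0 ≤ t1) (ht2 : 0 ≤ t2)
    (hk : 0 ≤ k) (hv : 0 ≤ v) (hb : 0 ≤ b) (hvk : (1 - aX X / 2) * v ≤ k) (h1 : Nodes (aX X) k b t1 R1) (h2 : Nodes (aX X) k b t2 R2) :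
    0 ≤ GG X f1 f2 z1 z2 t1 t2 k v b R1 R2 := by
  obtain ⟨α, h0, h1', hG⟩ := j1_red hX z1 z2 t1 t2 k v b R1 R2
  have hX0 : 0 ≤ X := by rw [hX]; positivity
  have g1 := gd_nonneg hX0 ht1 ht2 hk hv hb hvk h2
  have g2 := gd_nonneg hX0 ht2 ht1 hk hv hb hvk h1
  have := mul_nonneg h0 g1
  have := mul_nonneg (sub_nonneg.2 h1') g2
  linarith

end NullQ
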