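import Mathlib

set_option autoImplicit false

/-!
H74Q: the final pointwise inequality. Definitions. `X = |grad f|^2`. See PROOF.md, section 5.
-/

namespace NullQ

/-- `y = 8 X + 30 X^2`. -/
def yX (X : ℝ) : ℝ := 8 * X + 30 * X ^ 2

/-- `w = X y'`. -/
def wX (X : ℝ) : ℝ := 8 * X + 60 * X ^ 2

/-- The parameter `a`. -/
noncomputable def aX (X : ℝ) : ℝ := (yX X - 1) / (yX X + 1)

/-- Its derivative. -/
noncomputable def daX (X : ℝ) : ℝ := 2 * (8 + 60 * X) / (1 + yX X) ^ 2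

/-- The multiplier `φ`. -/
noncomputable def fq (X : ℝ) : ℝ := 3 * X ^ 2 * (5 + 2 * X) / (2 * (30 + X ^ 2))

/-- `φ'`. -/
noncomputable def dfq (X : ℝ) : ℝ := (450 * X + 270 * X ^ 2 + 3 * X ^ 4) / (30 + X ^ 2) ^ 2

/-- `Φ = φ + X φ'`. -/
noncomputable def Phq (X : ℝ) : ℝ := fq X + X * dfq X

/-- The bounds for `R`. -/
structure Nodes (a k b t R : ℝ) : Prop where
  n0 : R ≤ k + 3 * b
  n1 : 5 / 7 ≤ a → R ≤ 8 / 5 * k + 6 / 5 * b + 1 / 20 * t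
  n2 : 53 / 57 ≤ a → R ≤ 51 / 20 * k + 1 / 2 * b + 7 / 50 * t
  n3 : 135 / 137 ≤ a → R ≤ 39 / 10 * k + 11 / 20 * t

/-- `Z(grad f, grad f)`. -/
def Zq (f1 f2 z1 z2 : ℝ) : ℝ := z1 * (f1 ^ 2 - f2 ^ 2) + 2 * z2 * (f1 * f2)

/-- The final pointwise expression; `r` is the weight for `a = 1`. -/
noncomputable def GG (X f1 f2 z1 z2 t1 t2 k v b R1 R2 : ℝ) : ℝ :=
  2 * (t1 + t2 + 2 * k) * (t1 + t2 + 2 * k - (1 - aX X) * v) - (t1 + t2 + 2 * k - (1 - aX X) * v) ^ 2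
    + 2 * (t1 - t2) * z1 + 4 * b
    - 4 * ((R2 - k + t1 * (1 + aX X) ^ 2 / 36) * f1 ^ 2 + (R1 - k + t2 * (1 + aX X) ^ 2 / 36) * f2 ^ 2)
    + 2 * daX X * v * (Zq f1 f2 z1 z2 + X - X ^ 2 / 2 - (t1 + t2 + 2 * k - (1 - aX X) * v) * X)
    + (z1 ^ 2 + z2 ^ 2) + 3 / 4 * X ^ 2 - 4 * t1 * t2
    + Phq X * (t1 + t2 + 2 * k - (1 - aX X) * v - 1 + X) - dfq X * (Zq f1 f2 z1 z2 + X ^ 2 / 2)

/-- The same after minimisation over `z1, z2`, in the direction `e`. -/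
noncomputable def Gd (X t1 t2 k v b R : ℝ) : ℝ :=
  2 * (t1 + t2 + 2 * k) * (t1 + t2 + 2 * k - (1 - aX X) * v) - (t1 + t2 + 2 * k - (1 - aX X) * v) ^ 2
    + 4 * b - 4 * (R - k + t1 * (1 + aX X) ^ 2 / 36) * X
    + 2 * daX X * v * (X - X ^ 2 / 2 - (t1 + t2 + 2 * k - (1 - aX X) * v) * X)
    + 3 / 4 * X ^ 2 - (t1 + t2) ^ 2
    + Phq X * (t1 + t2 + 2 * k - (1 - aX X) * v - 1 + X) - dfq X * X ^ 2 / 2
    - (t1 - t2) * (2 * daX X * v - dfq X) * X - (2 * daX X * v - dfq X) ^ 2 * X ^ 2 / 4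

/-- `ρ`. -/
noncomputable def rhX (X : ℝ) : ℝ := 4 * wX X / ((1 + yX X) * (3 + yX X))

/-- `λ`. -/
noncomputable def laX (X : ℝ) : ℝ := 2 / (3 + yX X)

/-- `ω = 1 - ρ - (ρ/2 - λ)^2`. -/
noncomputable def omX (X : ℝ) : ℝ := 1 - rhX X - (rhX X / 2 - laX X) ^ 2

/-- `P_0`. -/
noncomputable def P0 (X : ℝ) : ℝ := 3 / 4 * X ^ 2 - Phq X * (1 - X) - dfq X * X ^ 2 / 2 - dfq X ^ 2 * X ^ 2 / 4

end NullQ
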