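import Pool.Agent.Lib.H74Q.Kd
import Pool.Agent.Lib.H74P.L0B
import Pool.Agent.Lib.H74Q.C2
import Pool.Agent.Lib.H74Q.E3

set_option autoImplicit false

/-!
Chunk K1 (M). Integration by parts with rotation derivatives, pointwise identities.
Proof. `green_hr`: `HR` of the product `F L_j f` (`hr_mul`, `hr_sfun`), `hr_int`, sum over `j` (`lap f = Σ L_j L_j f`). `green_B`: the same with `Bo i j * L_i f` (`hr_B`). `gr_gdv`: `gr f = (L f) × n` (`gr f n k = Σ_i L_i f (e_i × n)_k`), `gdv r = r × n`, so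
`gr . gdv r = Lf . r - (Lf . n)(r . n) = Σ_j r_j L_j f` because `Lf . n = 0` (`NShell.std_rad`). `gr_cB`: the same with `r_i = Σ_j rB j i j`. `BZ_eq`: `ZZ_ij = 2 hes_ij - L_i f L_j f - (..) pr_ij`, `hes f i j = L_i L_j f + x_j (..)_i`; `Bo` is symmetric, tangential and trace-free
(`c2_sym`, `c2_tan`, `c2_tr`): `Σ Bo hes = BL`, `Σ Bo pr = 0`, `Σ Bo_ij L_i f L_j f = - Bo(grad f, grad f)` (`Lf = n × grad f`, and for a symmetric tangential trace-free `Bo`: `Bo(n × v, n × v) = - Bo(v, v)`).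
-/

open MeasureTheory Filter Topology Set
open scoped ContDiff

namespace NullQ

open NullPen (E3 S2 sm proj pd MatterData NullData gr rr XX la Z2 Zg)
open NShell (SFun stdSA)

variable {D : MatterData}

theorem k1_int {g : S2 → ℝ} (hg : Continuous g) : Integrable g sm := NShell.stdFr.integrable g hg

theorem k1_sq (n : S2) : (n : E3) 0 * (n : E3) 0 + (n : E3) 1 * (n : E3) 1 + (n : E3) 2 * (n : E3) 2 = 1 := by
  have h : ‖(n : E3)‖ = 1 := by simp
  have h2 := EuclideanSpace.norm_sq_eq (n : E3)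
  rw [h, Fin.sum_univ_three] at h2
  simp only [Real.norm_eq_abs, sq_abs] at h2
  linarith

theorem k1_rad (f : SFun) (n : S2) : (n : E3) 0 * (stdSA.L 0 f).1 n + (n : E3) 1 * (stdSA.L 1 f).1 n
    + (n : E3) 2 * (stdSA.L 2 f).1 n = 0 := by
  have h := NShell.std_rad f
  have h2 := congrArg (fun g : SFun => g.1 n) h
  exact h2

theorem k1_la (f : SFun) (n : S2) : la f n = ∑ j, (stdSA.L j (stdSA.L j f)).1 n := by
  unfold NullPen.la NShell.SA.lap
  rw [← NShell.evS_apply]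
  simp only [map_sum, NShell.evS_apply]

theorem k1_im {F g : S2 → ℝ} (hF : Continuous F) (hg : Continuous g) : Integrable (fun n : S2 => F n * g n) sm :=
  k1_int (hF.mul hg)

theorem green_hr {F : S2 → ℝ} {F' : Fin 3 → S2 → ℝ} (h : HR F F') (cF : Continuous F) (cF' : ∀ j, Continuous (F' j)) (f : SFun) :
    ∫ n : S2, (∑ j, F' j n * (stdSA.L j f).1 n) ∂sm = - ∫ n : S2, F n * la f n ∂sm := by
  have cs : ∀ g : SFun, Continuous g.1 := fun g => NShell.SFun_cont g
  have i1 : ∀ j, Integrable (fun n : S2 => F' j n * (stdSA.L j f).1 n) sm := fun j => k1_im (cF' j) (cs _)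
  have i2 : ∀ j, Integrable (fun n : S2 => F n * (stdSA.L j (stdSA.L j f)).1 n) sm := fun j => k1_im cF (cs _)
  have h1 : ∀ j, (∫ n : S2, F' j n * (stdSA.L j f).1 n ∂sm) = - ∫ n : S2, F n * (stdSA.L j (stdSA.L j f)).1 n ∂sm := by
    intro j
    have h2 := hr_int (hr_mul h (hr_sfun (stdSA.L j f))) (cF.mul (cs _)) j
      (((cF' j).mul (cs _)).add (cF.mul (cs _)))
    have h3 := integral_add (i1 j) (i2 j)
    have h4 : (∫ n : S2, (F' j n * (stdSA.L j f).1 n + F n * (stdSA.L j (stdSA.L j f)).1 n) ∂sm) = 0 := h2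
    linarith
  have e1 := integral_finsetSum (μ := sm) Finset.univ fun j _ => i1 j
  have e2 := integral_finsetSum (μ := sm) Finset.univ fun j _ => i2 j
  have e3 : (∫ n : S2, F n * la f n ∂sm) = ∫ n : S2, (∑ j, F n * (stdSA.L j (stdSA.L j f)).1 n) ∂sm := by
    refine integral_congr_ae (Filter.Eventually.of_forall fun n => ?_)
    simp only
    rw [k1_la, Finset.mul_sum]
  rw [e1, e3, e2, Finset.sum_congr rfl fun j _ => h1 j, Finset.sum_neg_distrib]

theorem green_B (hD : D.Quiet) (f : SFun) :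
    ∫ n : S2, (∑ i, (∑ j, rB D j i j n) * (stdSA.L i f).1 n) ∂sm = - ∫ n : S2, BL D f n ∂sm := by
  have cs : ∀ g : SFun, Continuous g.1 := fun g => NShell.SFun_cont g
  have cB := c_Bo hD.null hD.flat
  have crB := c_rB hD.null hD.flat
  have i1 : ∀ i j, Integrable (fun n : S2 => rB D j i j n * (stdSA.L i f).1 n) sm := fun i j => k1_im (crB j i j) (cs _)
  have i2 : ∀ i j, Integrable (fun n : S2 => Bo D i j n * (stdSA.L j (stdSA.L i f)).1 n) sm := fun i j =>
    k1_im (cB i j) (cs _)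
  have h1 : ∀ i j, (∫ n : S2, rB D j i j n * (stdSA.L i f).1 n ∂sm) =
      - ∫ n : S2, Bo D i j n * (stdSA.L j (stdSA.L i f)).1 n ∂sm := by
    intro i j
    have h2 := hr_int (hr_mul (hr_B hD.null hD.flat i j) (hr_sfun (stdSA.L i f))) ((cB i j).mul (cs _)) j
      (((crB j i j).mul (cs _)).add ((cB i j).mul (cs _)))
    have h3 := integral_add (i1 i j) (i2 i j)
    have h4 : (∫ n : S2, (rB D j i j n * (stdSA.L i f).1 n + Bo D i j n * (stdSA.L j (stdSA.L i f)).1 n) ∂sm) = 0 := h2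
    linarith
  have e1 : ∀ n : S2, (∑ i, (∑ j, rB D j i j n) * (stdSA.L i f).1 n) = ∑ i, ∑ j, rB D j i j n * (stdSA.L i f).1 n :=
    fun n => Finset.sum_congr rfl fun i _ => Finset.sum_mul _ _ _
  have j1 : ∀ i, Integrable (fun n : S2 => ∑ j, rB D j i j n * (stdSA.L i f).1 n) sm := fun i =>
    integrable_finsetSum _ fun j _ => i1 i j
  have j2 : ∀ i, Integrable (fun n : S2 => ∑ j, Bo D i j n * (stdSA.L j (stdSA.L i f)).1 n) sm := fun i =>
    integrable_finsetSum _ fun j _ => i2 i j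
  have a1 := integral_finsetSum (μ := sm) Finset.univ fun i _ => j1 i
  have a2 := integral_finsetSum (μ := sm) Finset.univ fun i _ => j2 i
  have b1 := fun i => integral_finsetSum (μ := sm) Finset.univ fun j _ => i1 i j
  have b2 := fun i => integral_finsetSum (μ := sm) Finset.univ fun j _ => i2 i j
  simp only [e1]
  unfold BL
  rw [a1, a2, ← Finset.sum_neg_distrib]
  refine Finset.sum_congr rfl fun i _ => ?_
  rw [b1 i, b2 i, ← Finset.sum_neg_distrib]
  exact Finset.sum_congr rfl fun j _ => h1 i j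

theorem k1_rotv (i k : Fin 3) (n : E3) : NShell.rotv i n k =
    n (i + 1) * (if k = i + 2 then 1 else 0) - n (i + 2) * (if k = i + 1 then 1 else 0) := by
  unfold NShell.rotv
  simp

theorem k1_gr (f : SFun) (n : S2) (k : Fin 3) :
    gr f n k = (stdSA.L (k + 1) f).1 n * (n : E3) (k + 2) - (stdSA.L (k + 2) f).1 n * (n : E3) (k + 1) := by
  unfold NullPen.gr
  rw [Fin.sum_univ_three, k1_rotv, k1_rotv, k1_rotv]
  fin_cases k
  · simp
    ring
  · simp
    ring
  · simp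
    ring

theorem gr_gdv (f : SFun) (r : Fin 3 → ℝ) (n : S2) : ∑ k, gr f n k * gdv r n k = ∑ j, r j * (stdSA.L j f).1 n := by
  have h1 := k1_sq n
  have h2 := k1_rad f n
  simp only [k1_gr, gdv, NullU.crs]
  rw [Fin.sum_univ_three, Fin.sum_univ_three]
  simp only [show (0 : Fin 3) + 1 = 1 from rfl, show (0 : Fin 3) + 2 = 2 from rfl,
    show (1 : Fin 3) + 1 = 2 from rfl, show (1 : Fin 3) + 2 = 0 from rfl,
    show (2 : Fin 3) + 1 = 0 from rfl, show (2 : Fin 3) + 2 = 1 from rfl]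
  generalize (stdSA.L 0 f).1 n = a0 at *
  generalize (stdSA.L 1 f).1 n = a1 at *
  generalize (stdSA.L 2 f).1 n = a2 at *
  linear_combination (r 0 * a0 + r 1 * a1 + r 2 * a2) * h1 -
    (r 0 * (n : E3) 0 + r 1 * (n : E3) 1 + r 2 * (n : E3) 2) * h2

theorem gr_cB (D : MatterData) (f : SFun) (n : S2) : ∑ k, gr f n k * cB D n k = ∑ i, (∑ j, rB D j i j n) * (stdSA.L i f).1 n := by
  unfold cB
  exact gr_gdv f _ n

/-- For a symmetric tangential trace-free matrix. -/
theorem k1_alg (B : Fin 3 → Fin 3 → ℝ) (n a : Fin 3 → ℝ) (hs : ∀ i j, B i j = B j i) (ht : ∀ i, ∑ j, B i j * n j = 0)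
    (htr : ∑ i, B i i = 0) (hn : n 0 * n 0 + n 1 * n 1 + n 2 * n 2 = 1) (ha : n 0 * a 0 + n 1 * a 1 + n 2 * a 2 = 0) :
    ∑ i, ∑ j, B i j * (a (i + 1) * n (i + 2) - a (i + 2) * n (i + 1)) * (a (j + 1) * n (j + 2) - a (j + 2) * n (j + 1)) =
      - ∑ i, ∑ j, B i j * a i * a j := by
  have t0 := ht 0
  have t1 := ht 1
  have t2 := ht 2
  simp only [Fin.sum_univ_three] at t0 t1 t2 htr ⊢
  simp only [show (0 : Fin 3) + 1 = 1 from rfl, show (0 : Fin 3) + 2 = 2 from rfl,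
    show (1 : Fin 3) + 1 = 2 from rfl, show (1 : Fin 3) + 2 = 0 from rfl,
    show (2 : Fin 3) + 1 = 0 from rfl, show (2 : Fin 3) + 2 = 1 from rfl]
  rw [hs 1 0, hs 2 0, hs 2 1]
  rw [hs 1 0] at t1
  rw [hs 2 0, hs 2 1] at t2
  linear_combination ((a 0 ^ 2 + a 1 ^ 2 + a 2 ^ 2) * (n 0 ^ 2 + n 1 ^ 2 + n 2 ^ 2) -
      (n 0 * a 0 + n 1 * a 1 + n 2 * a 2) ^ 2) * htr -
    (B 0 0 * a 0 * a 0 + B 1 1 * a 1 * a 1 + B 2 2 * a 2 * a 2 + 2 * B 0 1 * a 0 * a 1 + 2 * B 0 2 * a 0 * a 2 +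
      2 * B 1 2 * a 1 * a 2) * hn - (a 0 ^ 2 + a 1 ^ 2 + a 2 ^ 2) * (n 0 * t0 + n 1 * t1 + n 2 * t2) +
    2 * (n 0 * a 0 + n 1 * a 1 + n 2 * a 2) * (a 0 * t0 + a 1 * t1 + a 2 * t2)

theorem BZ_eq (hD : D.Quiet) (f : SFun) (n : S2) : BZ D f n = 2 * BL D f n + BF D f n := by
  have hs : ∀ i j, Bo D i j n = Bo D j i n := fun i j => c2_sym hD n i j
  have ht : ∀ i, ∑ j, Bo D i j n * (n : E3) j = 0 := fun i => c2_tan hD n i
  have htr := c2_tr hD n
  have h1 := k1_sq n
  have h2 := k1_rad f n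
  have hF : BF D f n = - ∑ i, ∑ j, Bo D i j n * (stdSA.L i f).1 n * (stdSA.L j f).1 n := by
    unfold BF
    simp only [k1_gr]
    exact k1_alg (fun i j => Bo D i j n) (fun i => (n : E3) i) (fun i => (stdSA.L i f).1 n) hs ht htr h1 h2
  have hZ : ∀ i j, (stdSA.ZZ f i j).1 n = 2 * ((stdSA.L i (stdSA.L j f)).1 n + (n : E3) j *
      (NShell.cr stdSA.x (fun k => stdSA.L k f) i).1 n) - (stdSA.L i f).1 n * (stdSA.L j f).1 n -
      (stdSA.lap f - (1 / 2 : ℝ) • stdSA.gam f f).1 n * ((if i = j then 1 else 0) - (n : E3) i * (n : E3) j) := by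
    intro i j
    unfold NShell.SA.ZZ NShell.SA.hes NShell.SA.pr
    rw [← NShell.evS_apply]
    have hx : ∀ i, NShell.evS n (stdSA.x i) = (n : E3) i := fun i => rfl
    have hi : NShell.evS n (if i = j then 1 else 0) = if i = j then 1 else 0 := by
      split_ifs
      · exact map_one _
      · exact map_zero _
    simp only [map_sub, map_mul, map_add, hx, hi, map_ofNat]
    rfl
  have hL : BL D f n = ∑ i, ∑ j, Bo D i j n * (stdSA.L i (stdSA.L j f)).1 n := by
    unfold BL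
    rw [Finset.sum_comm]
    exact Finset.sum_congr rfl fun i _ => Finset.sum_congr rfl fun j _ => by rw [hs]
  rw [hF, hL]
  unfold BZ
  simp only [hZ]
  generalize (stdSA.lap f - (1 / 2 : ℝ) • stdSA.gam f f).1 n = μ
  obtain ⟨c, hc⟩ : ∃ c : Fin 3 → ℝ, c = fun i => (NShell.cr stdSA.x (fun k => stdSA.L k f) i).1 n := ⟨_, rfl⟩
  have hc' : ∀ i, (NShell.cr stdSA.x (fun k => stdSA.L k f) i).1 n = c i := fun i => by rw [hc]
  simp only [hc']
  have e : ∀ i, ∑ j, Bo D i j n * (2 * ((stdSA.L i (stdSA.L j f)).1 n + (n : E3) j * c i) -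
      (stdSA.L i f).1 n * (stdSA.L j f).1 n - μ * ((if i = j then 1 else 0) - (n : E3) i * (n : E3) j)) =
      2 * ∑ j, Bo D i j n * (stdSA.L i (stdSA.L j f)).1 n + (2 * c i + μ * (n : E3) i) * ∑ j, Bo D i j n * (n : E3) j -
      ∑ j, Bo D i j n * (stdSA.L i f).1 n * (stdSA.L j f).1 n - μ * Bo D i i n := by
    intro i
    have e1 : μ * Bo D i i n = ∑ j, Bo D i j n * (μ * (if i = j then 1 else 0)) := by
      rw [Finset.sum_eq_single i]
      · rw [if_pos rfl]
        ring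
      · intro j _ hj
        rw [if_neg (Ne.symm hj)]
        ring
      · intro h
        exact absurd (Finset.mem_univ i) h
    rw [e1, Finset.mul_sum, Finset.mul_sum, ← Finset.sum_add_distrib, ← Finset.sum_sub_distrib,
      ← Finset.sum_sub_distrib]
    exact Finset.sum_congr rfl fun j _ => by ring
  rw [Finset.sum_congr rfl fun i _ => e i]
  simp only [ht, mul_zero, add_zero]
  rw [Finset.sum_sub_distrib, Finset.sum_sub_distrib, ← Finset.mul_sum, ← Finset.mul_sum, htr]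
  ring

end NullQ
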