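import Pool.Agent.Lib.H74Q.K1

set_option autoImplicit false

/-!
Chunk K2 (M). The rotation derivative of `β` and continuity.
Proof. Continuity in `n` of `zi`, `vi` (`NullPen.cont_int`, `cont_at`, `c_zz`), `aX`, `daX`, `dfq`, `Phq` are continuous on `[0,∞)` (rational, positive denominators), `XX >= 0` continuous. `hr_zi`, `hr_vi`: `hr_tint` with `hr_zz` (and `hr_comp` for the square).
`hr_bh`: product rule; `aX' = daX` (`aX_der`), `HR (XX f)` with `L_j (gam f f)` (`hr_sfun`). `bh_der`: `Σ_j (∫ rz_j + a ∫ z rz_j) L_j f = ∫ (1 + a z) Σ_j rz_j L_j f`.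
-/

open MeasureTheory Filter Topology Set
open scoped ContDiff

namespace NullQ

open NullPen (E3 S2 sm proj pd MatterData NullData gr rr XX la Z2 Zg)
open NShell (SFun stdSA)

variable {D : MatterData}

theorem aX_der {X : ℝ} (hX : 0 ≤ X) : HasDerivAt aX (daX X) X := by
  have hy : 0 < yX X + 1 := by
    have : 0 ≤ yX X := by unfold yX; positivity
    linarith
  have h1 : HasDerivAt yX (8 + 60 * X) X := by
    have h := ((hasDerivAt_id X).const_mul 8).add (((hasDerivAt_id X).pow 2).const_mul 30)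
    have e : (fun x : ℝ => 8 * id x) + (fun x : ℝ => 30 * (id ^ 2) x) = yX := by
      funext x
      simp [yX]
    have h2 := h.congr_deriv (g' := 8 + 60 * X) (by simp; ring)
    rw [← e]
    exact h2
  have h2 := (h1.sub_const 1).div (h1.add_const 1) hy.ne'
  have h3 : (fun x => (yX x - 1) / (yX x + 1)) = aX := rfl
  refine HasDerivAt.congr_deriv (f := aX) h2 ?_
  unfold daX
  have hy2 : (1 + yX X) ≠ 0 := by linarith
  have hy3 := hy.ne'
  field_simp
  ring

theorem k2_y {X : ℝ} (hX : 0 ≤ X) : 0 ≤ yX X := by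
  unfold yX
  positivity

theorem c_aX (f : SFun) : Continuous (Af f) := by
  have hX := NullPen.XX_cont f
  have hy : Continuous (fun n => yX (XX f n)) := by
    unfold yX
    fun_prop
  have h0 : ∀ n, yX (XX f n) + 1 ≠ 0 := fun n => by
    have := k2_y (NullPen.XX_nonneg f n)
    linarith
  unfold Af aX
  exact (hy.sub continuous_const).div (hy.add continuous_const) h0

theorem c_daX (f : SFun) : Continuous (fun n => daX (XX f n)) := by
  have hX := NullPen.XX_cont f
  have hy : Continuous (fun n => yX (XX f n)) := by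
    unfold yX
    fun_prop
  have h0 : ∀ n, (1 + yX (XX f n)) ^ 2 ≠ 0 := fun n => by
    have := k2_y (NullPen.XX_nonneg f n)
    positivity
  unfold daX
  exact Continuous.div (by fun_prop) (by fun_prop) h0

theorem c_dfq (f : SFun) : Continuous (fun n => dfq (XX f n)) := by
  have hX := NullPen.XX_cont f
  have h0 : ∀ n, (30 + XX f n ^ 2) ^ 2 ≠ 0 := fun n => by positivity
  unfold dfq
  exact Continuous.div (by fun_prop) (by fun_prop) h0

theorem c_Phq (f : SFun) : Continuous (fun n => Phq (XX f n)) := by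
  have hX := NullPen.XX_cont f
  have h0 : ∀ n, 2 * (30 + XX f n ^ 2) ≠ 0 := fun n => by positivity
  have h1 : Continuous (fun n => fq (XX f n)) := by
    unfold fq
    exact Continuous.div (by fun_prop) (by fun_prop) h0
  have h2 := c_dfq f
  unfold Phq
  exact h1.add (hX.mul h2)

theorem k2_sq (hD : D.Quiet) : ContinuousOn (fun p : ℝ × S2 => zz D p.1 p.2 ^ 2) (Ici 0 ×ˢ univ) :=
  (c_zz hD.null hD.flat).pow 2

theorem c_zi (hD : D.Quiet) {S : ℝ} (hS : 0 ≤ S) : Continuous (zi D S) :=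
  NullPen.cont_at (F := fun S n => ∫ s in (0 : ℝ)..S, zz D s n) (NullPen.cont_int (c_zz hD.null hD.flat)) hS

theorem c_vi (hD : D.Quiet) {S : ℝ} (hS : 0 ≤ S) : Continuous (vi D S) :=
  NullPen.cont_at (F := fun S n => ∫ s in (0 : ℝ)..S, zz D s n ^ 2)
    (NullPen.cont_int (F := fun s n => zz D s n ^ 2) (k2_sq hD)) hS

theorem c_ta' (hD : D.Quiet) {S : ℝ} (hS : 0 ≤ S) : Continuous (ta D S) :=
  NullPen.cont_at (c_ta hD.null hD.flat) hS

theorem hr_zi (hD : D.Quiet) {S : ℝ} (hS : 0 ≤ S) : HR (zi D S) (fun j n => ∫ s in (0 : ℝ)..S, rz D j s n) :=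
  hr_tint (c_zz hD.null hD.flat) (fun j => c_rz hD.null hD.flat j) (fun t ht => hr_zz hD.null hD.flat ht) hS

theorem k2_c2 (hD : D.Quiet) (j : Fin 3) :
    ContinuousOn (fun p : ℝ × S2 => 2 * zz D p.1 p.2 * rz D j p.1 p.2) (Ici 0 ×ˢ univ) :=
  (continuousOn_const.mul (c_zz hD.null hD.flat)).mul (c_rz hD.null hD.flat j)

theorem hr_vi (hD : D.Quiet) {S : ℝ} (hS : 0 ≤ S) : HR (vi D S) (fun j n => ∫ s in (0 : ℝ)..S, 2 * zz D s n * rz D j s n) := by
  refine hr_tint (F := fun s n => zz D s n ^ 2) (F' := fun j s n => 2 * zz D s n * rz D j s n) (k2_sq hD) (fun j => k2_c2 hD j) (fun t ht => ?_) hS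
  have h := hr_mul (hr_zz hD.null hD.flat ht) (hr_zz hD.null hD.flat ht)
  have e : (fun n => zz D t n * zz D t n) = fun n => zz D t n ^ 2 := by
    funext n
    ring
  rw [e] at h
  refine hr_congr h fun j n => ?_
  ring

theorem k2_t {F : ℝ → S2 → ℝ} (cF : ContinuousOn (fun p : ℝ × S2 => F p.1 p.2) (Ici 0 ×ˢ univ)) {S : ℝ} (hS : 0 ≤ S) (n : S2) :
    IntervalIntegrable (fun s => F s n) volume 0 S :=
  ((E0B_time cF n).mono (by rw [Set.uIcc_of_le hS]; exact Icc_subset_Ici_self)).intervalIntegrable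

theorem hr_bh (hD : D.Quiet) (f : SFun) {S : ℝ} (hS : 0 ≤ S) : HR (bh D f S) (fun j n =>
    (∫ s in (0 : ℝ)..S, (1 + Af f n * zz D s n) * rz D j s n) +
      daX (XX f n) / 2 * vi D S n * (stdSA.L j (stdSA.gam f f)).1 n) := by
  have h1 : HR (Af f) (fun j n => daX (XX f n) * (stdSA.L j (stdSA.gam f f)).1 n) :=
    hr_comp (F := XX f) (hr_sfun (stdSA.gam f f)) (φ := aX) (φ' := daX) fun n => aX_der (NullPen.XX_nonneg f n)
  have h2 := hr_add (hr_zi hD hS) (hr_mul (hr_mul h1 (hr_const (1 / 2))) (hr_vi hD hS))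
  have e : (fun n => zi D S n + Af f n * (1 / 2) * vi D S n) = bh D f S := by
    funext n
    unfold bh
    ring
  rw [e] at h2
  refine hr_congr h2 fun j n => ?_
  have i1 := k2_t (c_rz hD.null hD.flat j) hS n
  have i2 := k2_t (F := fun s n => 2 * zz D s n * rz D j s n) (k2_c2 hD j) hS n
  have e2 : ∫ s in (0 : ℝ)..S, (1 + Af f n * zz D s n) * rz D j s n =
      (∫ s in (0 : ℝ)..S, rz D j s n) + Af f n / 2 * ∫ s in (0 : ℝ)..S, 2 * zz D s n * rz D j s n := by
    rw [← intervalIntegral.integral_const_mul, ← intervalIntegral.integral_add i1 (i2.const_mul _)]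
    refine intervalIntegral.integral_congr fun s _ => ?_
    ring
  rw [e2]
  ring

theorem c_hr_bh (hD : D.Quiet) (f : SFun) {S : ℝ} (hS : 0 ≤ S) (j : Fin 3) : Continuous (fun n =>
    (∫ s in (0 : ℝ)..S, (1 + Af f n * zz D s n) * rz D j s n) +
      daX (XX f n) / 2 * vi D S n * (stdSA.L j (stdSA.gam f f)).1 n) := by
  have h1 : ContinuousOn (fun p : ℝ × S2 => (1 + Af f p.2 * zz D p.1 p.2) * rz D j p.1 p.2) (Ici 0 ×ˢ univ) := by
    refine ContinuousOn.mul (ContinuousOn.add continuousOn_const (ContinuousOn.mul ?_ (c_zz hD.null hD.flat))) (c_rz hD.null hD.flat j)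
    exact ((c_aX f).comp continuous_snd).continuousOn
  have h2 : Continuous (fun n => ∫ s in (0 : ℝ)..S, (1 + Af f n * zz D s n) * rz D j s n) :=
    NullPen.cont_at (F := fun S n => ∫ s in (0 : ℝ)..S, (1 + Af f n * zz D s n) * rz D j s n)
      (NullPen.cont_int (F := fun s n => (1 + Af f n * zz D s n) * rz D j s n) h1) hS
  have h3 : Continuous (fun n => (stdSA.L j (stdSA.gam f f)).1 n) := NShell.SFun_cont _
  exact h2.add ((((c_daX f).div_const 2).mul (c_vi hD hS)).mul h3)

end NullQ
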