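import Pool.Agent.Lib.H74Q.K2
import Pool.Agent.Lib.H74P.FA2

set_option autoImplicit false

open MeasureTheory Filter Topology Set
open scoped ContDiff

namespace NullQ

open NullPen (E3 S2 sm proj pd MatterData NullData gr rr XX la Z2 Zg)
open NShell (SFun stdSA)

variable {D : MatterData}

theorem k3_gamv (F G : SFun) (n : S2) : (stdSA.gam F G).1 n = ∑ i, (stdSA.L i F).1 n * (stdSA.L i G).1 n := by
  unfold NShell.SA.gam
  rw [← NShell.evS_apply]
  simp only [map_sum, map_mul, NShell.evS_apply]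

theorem k3_gam (f : SFun) (n : S2) : (stdSA.gam (stdSA.gam f f) f).1 n =
    Zg f n + XX f n * la f n + XX f n ^ 2 / 2 := by
  have h1 := congrArg (NShell.evS n) (stdSA.hes_grad f)
  have h2 := congrArg (NShell.evS n) (stdSA.grad_pr f)
  have hz : Zg f n = NShell.evS n (∑ i, ∑ j, stdSA.ZZ f i j * stdSA.L i f * stdSA.L j f) := by
    unfold NullPen.Zg
    simp only [map_sum, map_mul, NShell.evS_apply]
  rw [stdSA.gam_comm, hz]
  have hX : XX f n = NShell.evS n (stdSA.gam f f) := rfl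
  have hl : la f n = NShell.evS n (stdSA.lap f) := rfl
  rw [hX, hl]
  change NShell.evS n (stdSA.gam f (stdSA.gam f f)) = _
  rw [← h1]
  have h3 : NShell.evS n (stdSA.L 0 f) * NShell.evS n (stdSA.L 0 f) + NShell.evS n (stdSA.L 1 f) * NShell.evS n (stdSA.L 1 f) +
      NShell.evS n (stdSA.L 2 f) * NShell.evS n (stdSA.L 2 f) = NShell.evS n (stdSA.gam f f) := by
    unfold NShell.SA.gam
    rw [Fin.sum_univ_three, map_add, map_add, map_mul, map_mul, map_mul]
  unfold NShell.SA.ZZ
  simp only [Fin.sum_univ_three, map_add, map_sub, map_mul, map_smul, smul_eq_mul, map_ofNat] at h2 ⊢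
  linear_combination ((NShell.evS n (stdSA.lap f) - (1 / 2 : ℝ) * NShell.evS n (stdSA.gam f f))) * h2 +
    (NShell.evS n (stdSA.L 0 f) * NShell.evS n (stdSA.L 0 f) + NShell.evS n (stdSA.L 1 f) * NShell.evS n (stdSA.L 1 f) +
      NShell.evS n (stdSA.L 2 f) * NShell.evS n (stdSA.L 2 f) + NShell.evS n (stdSA.gam f f)) * h3

theorem gam_X (f : SFun) (n : S2) : ∑ j, (stdSA.L j (stdSA.gam f f)).1 n * (stdSA.L j f).1 n =
    Zg f n + XX f n * la f n + XX f n ^ 2 / 2 := by
  rw [← k3_gam, k3_gamv]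

/-- the derivative of `bh` -/
noncomputable def k3d (D : MatterData) (f : SFun) (S : ℝ) (j : Fin 3) (n : S2) : ℝ :=
  (∫ s in (0 : ℝ)..S, (1 + Af f n * zz D s n) * rz D j s n) +
      daX (XX f n) / 2 * vi D S n * (stdSA.L j (stdSA.gam f f)).1 n

theorem k3_LIN (hD : D.Quiet) (f : SFun) {S : ℝ} (hS : 0 ≤ S) (n : S2) : LIN D f S n =
    2 * (∑ j, rta D j S n * (stdSA.L j f).1 n) + 2 * (∑ i, (∑ j, rB D j i j n) * (stdSA.L i f).1 n)
    - 2 * (∑ j, k3d D f S j n * (stdSA.L j f).1 n)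
    + daX (XX f n) * vi D S n * (Zg f n + XX f n * la f n + XX f n ^ 2 / 2)
    - tw D f S n * XX f n - BF D f n := by
  have e1 : ∑ k, gr f n k * (gdv (fun j => rta D j S n) n k + cB D n k) =
      (∑ j, rta D j S n * (stdSA.L j f).1 n) + ∑ i, (∑ j, rB D j i j n) * (stdSA.L i f).1 n := by
    rw [← gr_cB D f n, ← gr_gdv f (fun j => rta D j S n) n, ← Finset.sum_add_distrib]
    exact Finset.sum_congr rfl fun k _ => mul_add _ _ _
  have hz : ∀ j, IntervalIntegrable (fun r => (1 + Af f n * zz D r n) * rz D j r n) volume 0 S := by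
    intro j
    have h1 : ContinuousOn (fun r => zz D r n) (Ici 0) := by
      have h := c_zz hD.null hD.flat
      exact h.comp (f := fun r : ℝ => (r, n)) (by fun_prop) fun r hr => ⟨hr, mem_univ _⟩
    have h2 : ContinuousOn (fun r => rz D j r n) (Ici 0) := by
      have h := c_rz hD.null hD.flat j
      exact h.comp (f := fun r : ℝ => (r, n)) (by fun_prop) fun r hr => ⟨hr, mem_univ _⟩
    have h3 : ContinuousOn (fun r => (1 + Af f n * zz D r n) * rz D j r n) (uIcc 0 S) := by
      rw [uIcc_of_le hS]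
      exact (((continuousOn_const.add (continuousOn_const.mul h1)).mul h2)).mono fun r hr => hr.1
    exact h3.intervalIntegrable
  have e2 : (∫ r in (0 : ℝ)..S, (1 + Af f n * zz D r n) * (th D r n * ∑ k, gr f n k * gdv (fun j => rth D j r n) n k)) =
      -(1 / 2) * ∑ j, (∫ r in (0 : ℝ)..S, (1 + Af f n * zz D r n) * rz D j r n) * (stdSA.L j f).1 n := by
    have h1 : (∑ j, (∫ r in (0 : ℝ)..S, (1 + Af f n * zz D r n) * rz D j r n) * (stdSA.L j f).1 n) =
        ∫ r in (0 : ℝ)..S, ∑ j, (1 + Af f n * zz D r n) * rz D j r n * (stdSA.L j f).1 n := by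
      rw [intervalIntegral.integral_finsetSum fun j _ => (hz j).mul_const _]
      exact Finset.sum_congr rfl fun j _ => (intervalIntegral.integral_mul_const _ _).symm
    rw [h1, ← intervalIntegral.integral_const_mul]
    congr 1
    funext r
    rw [gr_gdv f (fun j => rth D j r n) n, Finset.mul_sum, Finset.mul_sum, Finset.mul_sum]
    refine Finset.sum_congr rfl fun j _ => ?_
    unfold rz
    ring
  have e3 : (∑ j, k3d D f S j n * (stdSA.L j f).1 n) =
      (∑ j, (∫ r in (0 : ℝ)..S, (1 + Af f n * zz D r n) * rz D j r n) * (stdSA.L j f).1 n) +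
      daX (XX f n) / 2 * vi D S n * (Zg f n + XX f n * la f n + XX f n ^ 2 / 2) := by
    rw [← gam_X, Finset.mul_sum, ← Finset.sum_add_distrib]
    refine Finset.sum_congr rfl fun j _ => ?_
    unfold k3d
    ring
  unfold LIN
  rw [e1, e2, e3]
  ring

theorem k3_cL (F : SFun) : Continuous (fun n => F.1 n) := NShell.SFun_cont F

theorem k3_cr (hD : D.Quiet) (j : Fin 3) {S : ℝ} (hS : 0 ≤ S) : Continuous (fun n => rta D j S n) :=
  NullPen.cont_at (c_rta hD.null hD.flat j) hS

theorem k3_c1 (hD : D.Quiet) (f : SFun) {S : ℝ} (hS : 0 ≤ S) :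
    Continuous (fun n => ∑ j, rta D j S n * (stdSA.L j f).1 n) :=
  continuous_finsetSum _ fun j _ => (k3_cr hD j hS).mul (k3_cL _)

theorem k3_c2 (hD : D.Quiet) (f : SFun) :
    Continuous (fun n => ∑ i, (∑ j, rB D j i j n) * (stdSA.L i f).1 n) :=
  continuous_finsetSum _ fun i _ => (continuous_finsetSum _ fun j _ => c_rB hD.null hD.flat j i j).mul (k3_cL _)

theorem k3_c3 (hD : D.Quiet) (f : SFun) {S : ℝ} (hS : 0 ≤ S) :
    Continuous (fun n => ∑ j, k3d D f S j n * (stdSA.L j f).1 n) :=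
  continuous_finsetSum _ fun j _ => (c_hr_bh hD f hS j).mul (k3_cL _)

theorem k3_bh (hD : D.Quiet) (f : SFun) {S : ℝ} (hS : 0 ≤ S) : Continuous (bh D f S) :=
  (c_zi hD hS).add (((c_aX f).div_const 2).mul (c_vi hD hS))

theorem k3_tw (hD : D.Quiet) (f : SFun) {S : ℝ} (hS : 0 ≤ S) : Continuous (tw D f S) :=
  ((continuous_const.mul (c_ta' hD hS)).sub continuous_const).sub (continuous_const.mul (k3_bh hD f hS))

theorem k3_gr (f : SFun) (k : Fin 3) : Continuous (fun n => gr f n k) := NullPen.gr_cont f k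

theorem k3_BF (hD : D.Quiet) (f : SFun) : Continuous (BF D f) :=
  continuous_finsetSum _ fun i _ => continuous_finsetSum _ fun j _ =>
    ((c_Bo hD.null hD.flat i j).mul (k3_gr f i)).mul (k3_gr f j)

theorem k3_BL (hD : D.Quiet) (f : SFun) : Continuous (BL D f) :=
  continuous_finsetSum _ fun i _ => continuous_finsetSum _ fun j _ =>
    (c_Bo hD.null hD.flat i j).mul (k3_cL _)

theorem k3_BZ (hD : D.Quiet) (f : SFun) : Continuous (BZ D f) :=
  continuous_finsetSum _ fun i _ => continuous_finsetSum _ fun j _ =>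
    (c_Bo hD.null hD.flat i j).mul (k3_cL _)

theorem c_LIN (hD : D.Quiet) (f : SFun) {S : ℝ} (hS : 0 ≤ S) : Continuous (LIN D f S) := by
  have h1 : LIN D f S = fun n => 2 * (∑ j, rta D j S n * (stdSA.L j f).1 n) + 2 * (∑ i, (∑ j, rB D j i j n) * (stdSA.L i f).1 n)
    - 2 * (∑ j, k3d D f S j n * (stdSA.L j f).1 n)
    + daX (XX f n) * vi D S n * (Zg f n + XX f n * la f n + XX f n ^ 2 / 2)
    - tw D f S n * XX f n - BF D f n := by
    funext n
    exact k3_LIN hD f hS n
  rw [h1]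
  have cX := NullPen.XX_cont f
  have cl := NullPen.la_cont f
  have cZ := NullPen.Zg_cont f
  exact ((((continuous_const.mul (k3_c1 hD f hS)).add (continuous_const.mul (k3_c2 hD f))).sub
    (continuous_const.mul (k3_c3 hD f hS))).add (((c_daX f).mul (c_vi hD hS)).mul
      ((cZ.add (cX.mul cl)).add ((cX.pow 2).div_const 2)))).sub ((k3_tw hD f hS).mul cX) |>.sub (k3_BF hD f)

theorem k3_int {g : S2 → ℝ} (hg : Continuous g) : Integrable g sm := NShell.stdFr.integrable g hg

theorem k3_zero {F G : S2 → ℝ} (cF : Continuous F) (cG : Continuous G)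
    (h : ∫ n : S2, F n ∂sm = - ∫ n : S2, G n ∂sm) : ∫ n : S2, (F n + G n) ∂sm = 0 := by
  rw [integral_add (k3_int cF) (k3_int cG), h, neg_add_cancel]

theorem k3_lin {R A B C L : S2 → ℝ} (s : ℝ) (cR : Continuous R) (cA : Continuous A) (cB : Continuous B)
    (cC : Continuous C) (cL : Continuous L) (zA : ∫ n : S2, A n ∂sm = 0) (zB : ∫ n : S2, B n ∂sm = 0)
    (zC : ∫ n : S2, C n ∂sm = 0) (zL : ∫ n : S2, L n ∂sm = 0) :
    ∫ n : S2, (R n + (2 * A n + 2 * B n - 2 * C n - s * L n)) ∂sm = ∫ n : S2, R n ∂sm := by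
  have iA : Integrable (fun n => 2 * A n) sm := (k3_int cA).const_mul 2
  have iB : Integrable (fun n => 2 * B n) sm := (k3_int cB).const_mul 2
  have iC : Integrable (fun n => 2 * C n) sm := (k3_int cC).const_mul 2
  have iL : Integrable (fun n => s * L n) sm := (k3_int cL).const_mul s
  have i1 : Integrable (fun n => 2 * A n + 2 * B n) sm := iA.add iB
  have i2 : Integrable (fun n => 2 * A n + 2 * B n - 2 * C n) sm := i1.sub iC
  have i3 : Integrable (fun n => 2 * A n + 2 * B n - 2 * C n - s * L n) sm := i2.sub iL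
  rw [integral_add (k3_int cR) i3, integral_sub i2 iL, integral_sub i1 iC, integral_add iA iB,
    integral_const_mul, integral_const_mul, integral_const_mul, integral_const_mul, zA, zB, zC, zL]
  ring

theorem lin_int (hD : D.Quiet) (f : SFun) {S : ℝ} (hS : 0 ≤ S) :
    ∫ n : S2, (2 * ta D S n - 2 * S + LIN D f S n) ∂sm =
      ∫ n : S2, (tw D f S n * rr f n + 2 * bh D f S n - BZ D f n +
        daX (XX f n) * vi D S n * (Zg f n + XX f n - XX f n ^ 2 / 2 - rr f n * XX f n)) ∂sm := by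
  have cX := NullPen.XX_cont f
  have cl := NullPen.la_cont f
  have cZ := NullPen.Zg_cont f
  have cr := NullPen.rr_cont f
  have cta := c_ta' hD hS
  have g1 := green_hr (hr_ta hD.null hD.flat hS) cta (fun j => k3_cr hD j hS) f
  have g2 := green_B hD f
  have g3 := green_hr (hr_bh hD f hS) (k3_bh hD f hS) (fun j => c_hr_bh hD f hS j) f
  have z1 := k3_zero (k3_c1 hD f hS) (cta.mul cl) g1
  have z2 := k3_zero (k3_c2 hD f) (k3_BL hD f) g2
  have z3 := k3_zero (k3_c3 hD f hS) ((k3_bh hD f hS).mul cl) g3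
  have z4 := NullPen.la_zero f
  have e : ∀ n : S2, 2 * ta D S n - 2 * S + LIN D f S n =
      (tw D f S n * rr f n + 2 * bh D f S n - BZ D f n +
        daX (XX f n) * vi D S n * (Zg f n + XX f n - XX f n ^ 2 / 2 - rr f n * XX f n)) +
      (2 * ((∑ j, rta D j S n * (stdSA.L j f).1 n) + ta D S n * la f n) +
       2 * ((∑ i, (∑ j, rB D j i j n) * (stdSA.L i f).1 n) + BL D f n) -
       2 * ((∑ j, k3d D f S j n * (stdSA.L j f).1 n) + bh D f S n * la f n) - 2 * S * la f n) := by
    intro n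
    rw [k3_LIN hD f hS n, BZ_eq hD f n, NullPen.rr_eq]
    unfold tw
    ring
  simp only [e]
  have c1 : Continuous (fun n => tw D f S n * rr f n + 2 * bh D f S n - BZ D f n +
        daX (XX f n) * vi D S n * (Zg f n + XX f n - XX f n ^ 2 / 2 - rr f n * XX f n)) :=
    ((((k3_tw hD f hS).mul cr).add (continuous_const.mul (k3_bh hD f hS))).sub (k3_BZ hD f)).add
      (((c_daX f).mul (c_vi hD hS)).mul (((cZ.add cX).sub ((cX.pow 2).div_const 2)).sub (cr.mul cX)))
  exact k3_lin (2 * S) c1 ((k3_c1 hD f hS).add (cta.mul cl)) ((k3_c2 hD f).add (k3_BL hD f))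
    ((k3_c3 hD f hS).add ((k3_bh hD f hS).mul cl)) cl z1 z2 z3 z4

end NullQ
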