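import Pool.Agent.Lib.H74Q.Jd
import Pool.Agent.Lib.H74P.FDefs
import Pool.Agent.Lib.H74P.FA2

set_option autoImplicit false

/-!
Chunk K4 (M). The multiplier identity for the new `φ`. Proof. Copy of `Lib/H74P/FA.lean` (`id_phi`) with `φ = fq`, `φ' = dfq`, `Phq = fq + X dfq` (`SFun_comp` for `t = 1 + gam f f > 0`, `φ(t) = fq (t - 1)`, smooth on `t > 0`; `fq_der`: `fq' = dfq`).
-/

open MeasureTheory Filter Topology Set
open scoped ContDiff

namespace NullQ

open NullPen (E3 S2 sm proj pd MatterData NullData gr rr XX la Z2 Zg)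
open NShell (SFun stdSA)

theorem fq_der (X : ℝ) : HasDerivAt fq (dfq X) X := by
  have h1 : HasDerivAt (fun X : ℝ => 3 * X ^ 2 * (5 + 2 * X)) (30 * X + 18 * X ^ 2) X := by
    have h := (((hasDerivAt_id X).pow 2).const_mul 3).mul (((hasDerivAt_id X).const_mul 2).const_add 5)
    refine h.congr_deriv ?_
    simp
    ring
  have h2 : HasDerivAt (fun X : ℝ => 2 * (30 + X ^ 2)) (4 * X) X := by
    have h := (((hasDerivAt_id X).pow 2).const_add 30).const_mul 2
    refine h.congr_deriv ?_
    simp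
    ring
  have h3 : (2 * (30 + X ^ 2) : ℝ) ≠ 0 := by positivity
  refine (h1.div h2 h3).congr_deriv ?_
  unfold dfq
  have h4 : (30 + X ^ 2 : ℝ) ≠ 0 := by positivity
  field_simp
  ring

private theorem k4_int {g : S2 → ℝ} (hg : Continuous g) : Integrable g sm := NShell.stdFr.integrable g hg

private theorem k4_gamv (F G : SFun) (n : S2) : (stdSA.gam F G).1 n = ∑ i, (stdSA.L i F).1 n * (stdSA.L i G).1 n := by
  unfold NShell.SA.gam
  rw [← NShell.evS_apply]
  simp only [map_sum, map_mul, NShell.evS_apply]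

private theorem k4_gam (f : SFun) (n : S2) : (stdSA.gam (stdSA.gam f f) f).1 n =
    Zg f n + XX f n * la f n + XX f n ^ 2 / 2 := by
  have h1 := congrArg (NShell.evS n) (stdSA.hes_grad f)
  have h2 := congrArg (NShell.evS n) (stdSA.grad_pr f)
  have hz : Zg f n = NShell.evS n (∑ i, ∑ j, stdSA.ZZ f i j * stdSA.L i f * stdSA.L j f) := by
    unfold Zg
    simp only [map_sum, map_mul, NShell.evS_apply]
  rw [stdSA.gam_comm, hz]
  have hX : XX f n = NShell.evS n (stdSA.gam f f) := rfl
  have hl : la f n = NShell.evS n (stdSA.lap f) := rfl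
  rw [hX, hl]
  change NShell.evS n (stdSA.gam f (stdSA.gam f f)) = _
  rw [← h1]
  have h3 : NShell.evS n (stdSA.L 0 f) * NShell.evS n (stdSA.L 0 f) +
      NShell.evS n (stdSA.L 1 f) * NShell.evS n (stdSA.L 1 f) +
      NShell.evS n (stdSA.L 2 f) * NShell.evS n (stdSA.L 2 f) = NShell.evS n (stdSA.gam f f) := by
    unfold NShell.SA.gam
    rw [Fin.sum_univ_three, map_add, map_add, map_mul, map_mul, map_mul]
  unfold NShell.SA.ZZ
  simp only [Fin.sum_univ_three, map_add, map_sub, map_mul, map_smul, smul_eq_mul, map_ofNat] at h2 ⊢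
  linear_combination ((NShell.evS n (stdSA.lap f) - (1 / 2 : ℝ) * NShell.evS n (stdSA.gam f f))) * h2 +
    (NShell.evS n (stdSA.L 0 f) * NShell.evS n (stdSA.L 0 f) +
      NShell.evS n (stdSA.L 1 f) * NShell.evS n (stdSA.L 1 f) +
      NShell.evS n (stdSA.L 2 f) * NShell.evS n (stdSA.L 2 f) + NShell.evS n (stdSA.gam f f)) * h3

private theorem k4_phi (f : SFun) : ∃ g : SFun, (∀ n, g.1 n = fq (XX f n)) ∧
    ∀ i n, (stdSA.L i g).1 n = dfq (XX f n) * (stdSA.L i (stdSA.gam f f)).1 n := by
  set t : SFun := 1 + stdSA.gam f f with ht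
  have htv : ∀ n, t.1 n = 1 + XX f n := fun n => rfl
  have htp : ∀ n, 0 < t.1 n := by
    intro n
    rw [htv]
    have := NullPen.XX_nonneg f n
    positivity
  have htL : ∀ i n, (stdSA.L i t).1 n = (stdSA.L i (stdSA.gam f f)).1 n := by
    intro i n
    rw [ht, map_add, Derivation.map_one_eq_zero, zero_add]
  obtain ⟨g, hg1, hg2⟩ := NullPen.SFun_comp t htp (φ := fun t => fq (t - 1))
    (φ' := fun t => dfq (t - 1)) (by
      unfold fq
      refine ContDiffOn.div (by fun_prop) (by fun_prop) ?_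
      intro x hx
      positivity) (by
      intro x hx
      have h1 := (fq_der (x - 1)).comp x ((hasDerivAt_id x).sub_const 1)
      rw [mul_one] at h1
      exact h1)
  refine ⟨g, fun n => ?_, fun i n => ?_⟩
  · rw [hg1, htv]
    simp only [add_sub_cancel_left]
  · rw [hg2, htL, htv]
    simp only [add_sub_cancel_left]

theorem id_q (f : SFun) : ∫ n : S2, Phq (XX f n) * (rr f n - 1 + XX f n) ∂sm =
    ∫ n : S2, dfq (XX f n) * (Zg f n + XX f n ^ 2 / 2) ∂sm := by
  obtain ⟨g, hg1, hg2⟩ := k4_phi f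
  have hgam : ∀ n, (stdSA.gam g f).1 n = dfq (XX f n) * (Zg f n + XX f n * la f n + XX f n ^ 2 / 2) := by
    intro n
    rw [← k4_gam, k4_gamv, k4_gamv, Finset.mul_sum]
    exact Finset.sum_congr rfl fun i _ => by rw [hg2, mul_assoc]
  have hgr := NullPen.green' g f
  have hX := NullPen.XX_nonneg f
  have cX := NullPen.XX_cont f
  have cl := NullPen.la_cont f
  have cps : Continuous fun n => dfq (XX f n) := by
    unfold dfq
    refine Continuous.div (by fun_prop) (by fun_prop) ?_
    intro n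
    positivity
  have i1 : Integrable (fun n : S2 => g.1 n * la f n) sm := k4_int ((NShell.SFun_cont g).mul cl)
  have i2 : Integrable (fun n : S2 => XX f n * dfq (XX f n) * la f n) sm := k4_int ((cX.mul cps).mul cl)
  have i3 : Integrable (fun n : S2 => (stdSA.gam g f).1 n) sm := k4_int (NShell.SFun_cont _)
  have e1 : ∀ n, Phq (XX f n) * (rr f n - 1 + XX f n) =
      - (g.1 n * la f n) - XX f n * dfq (XX f n) * la f n := by
    intro n
    unfold Phq
    rw [hg1, NullPen.rr_eq]
    ring
  have e2 : ∀ n, dfq (XX f n) * (Zg f n + XX f n ^ 2 / 2) =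
      (stdSA.gam g f).1 n - XX f n * dfq (XX f n) * la f n := by
    intro n
    rw [hgam]
    ring
  simp only [e1, e2]
  have i4 : Integrable (fun n : S2 => - (g.1 n * la f n)) sm := i1.neg
  rw [integral_sub i4 i2, integral_sub i3 i2, integral_neg, ← hgr]

end NullQ
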