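import Pool.Agent.Lib.H74Q.Kd
import Pool.Agent.Lib.H74Q.C1
import Pool.Agent.Lib.H74P.FA2

set_option autoImplicit false

/-!
Chunk K5 (M). The invariants in an orthonormal basis `e, f` of the tangent plane at `n`: linear algebra.
Proof. `δ i j = e i e j + f i f j + n i n j` (`proj_ef`). `gr_ef`: `gr F` is tangential (`NullPen.gr_tan`). `XX_ef`: `NullPen.gr_sq`. Let `z1 = - ΣZZ e e`, `z2 = - Σ ZZ e f`; `ZZ` is symmetric, tangential, trace-free (see the proof of `NullPen.Zg_sq` in `H74P/FA2.lean`), so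
`ZZ = - z1 (ee - ff) - z2 (ef + fe)`; `Z2 = 2 (z1^2 + z2^2)`. `Zg = ZZ(LF, LF)`, `LF = n × gr F` (`gr F = LF × n`, `LF` tangential), `n × e = ± f`, `n × f = ∓ e` (same sign), so `LF = ± (f1 f - f2 e)` and
`Zg = f2^2 ZZ(e,e) - 2 f1 f2 ZZ(e,f) + f1^2 ZZ(f,f) = z1 (f1^2 - f2^2) + 2 z2 f1 f2`. For `Bo = b (ee - ff)`: `BF = b (f1^2 - f2^2)`, `BZ = - 2 b z1`, `Σ Bo^2 = 2 b^2`.
-/

open MeasureTheory Filter Topology Set
open scoped ContDiff

namespace NullQ

open NullPen (E3 S2 sm proj pd MatterData NullData gr rr XX la Z2 Zg)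
open NShell (SFun stdSA)

/-- Component of the gradient. -/
noncomputable def gx (F : SFun) (n : S2) (e : Fin 3 → ℝ) : ℝ := ∑ k, gr F n k * e k

/-- Component of `- ZZ`. -/
noncomputable def zx (F : SFun) (n : S2) (e f : Fin 3 → ℝ) : ℝ := - ∑ i, ∑ j, (stdSA.ZZ F i j).1 n * e i * f j

variable {n : S2} {e f : Fin 3 → ℝ}

section K5Alg

variable {x : Fin 3 → ℝ}

private structure K5F (x e f : Fin 3 → ℝ) : Prop where
  xx : ∑ i, x i ^ 2 = 1
  ee : ∑ i, e i ^ 2 = 1
  ff : ∑ i, f i ^ 2 = 1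
  ef : ∑ i, e i * f i = 0
  en : ∑ i, x i * e i = 0
  fn : ∑ i, x i * f i = 0
  co : ∀ i j, (if i = j then (1 : ℝ) else 0) = e i * e j + f i * f j + x i * x j

private theorem k5_exp (h : K5F x e f) (v : Fin 3 → ℝ) (i : Fin 3) :
    v i = (∑ j, v j * e j) * e i + (∑ j, v j * f j) * f i + (∑ j, v j * x j) * x i := by
  have h1 : v i = ∑ j, v j * (if i = j then (1 : ℝ) else 0) := by simp
  rw [h1]
  simp only [h.co]
  simp only [Fin.sum_univ_three]
  ring

private theorem k5_tan (h : K5F x e f) (v : Fin 3 → ℝ) (hv : ∑ j, x j * v j = 0) (i : Fin 3) :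
    v i = (∑ j, v j * e j) * e i + (∑ j, v j * f j) * f i := by
  have h1 := k5_exp h v i
  have h2 : ∑ j, v j * x j = 0 := by
    rw [← hv]
    exact Finset.sum_congr rfl fun j _ => mul_comm _ _
  rw [h2] at h1
  linarith

private theorem k5_sq (h : K5F x e f) (a b : ℝ) : ∑ i, (a * e i + b * f i) ^ 2 = a ^ 2 + b ^ 2 := by
  have h1 := h.ee
  have h2 := h.ff
  have h3 := h.ef
  simp only [Fin.sum_univ_three] at h1 h2 h3 ⊢
  linear_combination a ^ 2 * h1 + b ^ 2 * h2 + 2 * a * b * h3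

private theorem k5_form (h : K5F x e f) (B : Fin 3 → Fin 3 → ℝ) (hs : ∀ i j, B i j = B j i)
    (hB : ∀ i, ∑ j, B i j * x j = 0) (ht : ∑ i, B i i = 0) :
    ∀ i j, B i j = (∑ i, ∑ j, B i j * e i * e j) * (e i * e j - f i * f j)
      + (∑ i, ∑ j, B i j * e i * f j) * (e i * f j + f i * e j) := by
  intro i j
  have hb : ∀ i, ∑ j, x j * B i j = 0 := fun i => by
    rw [← hB i]
    exact Finset.sum_congr rfl fun j _ => mul_comm _ _
  have h1 := k5_tan h (B i) (hb i) j
  have he : ∑ k, x k * (∑ j, B k j * e j) = 0 := by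
    have h3 : ∑ k, x k * (∑ j, B k j * e j) = ∑ j, (∑ k, x k * B j k) * e j := by
      simp only [Finset.mul_sum, Finset.sum_mul]
      rw [Finset.sum_comm]
      refine Finset.sum_congr rfl fun j _ => Finset.sum_congr rfl fun k _ => ?_
      rw [hs k j]; ring
    rw [h3]
    simp [hb]
  have hf : ∑ k, x k * (∑ j, B k j * f j) = 0 := by
    have h3 : ∑ k, x k * (∑ j, B k j * f j) = ∑ j, (∑ k, x k * B j k) * f j := by
      simp only [Finset.mul_sum, Finset.sum_mul]
      rw [Finset.sum_comm]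
      refine Finset.sum_congr rfl fun j _ => Finset.sum_congr rfl fun k _ => ?_
      rw [hs k j]; ring
    rw [h3]
    simp [hb]
  have h2 := k5_tan h (fun i => ∑ j, B i j * e j) he i
  have h3 := k5_tan h (fun i => ∑ j, B i j * f j) hf i
  have e1 : ∑ i, (∑ j, B i j * e j) * e i = ∑ i, ∑ j, B i j * e i * e j := by
    refine Finset.sum_congr rfl fun i _ => ?_
    rw [Finset.sum_mul]
    exact Finset.sum_congr rfl fun j _ => by ring
  have e2 : ∑ i, (∑ j, B i j * f j) * e i = ∑ i, ∑ j, B i j * e i * f j := by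
    refine Finset.sum_congr rfl fun i _ => ?_
    rw [Finset.sum_mul]
    exact Finset.sum_congr rfl fun j _ => by ring
  have e3 : ∑ i, (∑ j, B i j * e j) * f i = ∑ i, ∑ j, B i j * e i * f j := by
    simp only [Finset.sum_mul]
    rw [Finset.sum_comm]
    refine Finset.sum_congr rfl fun i _ => Finset.sum_congr rfl fun j _ => ?_
    rw [hs j i]
  have e4 : ∑ i, (∑ j, B i j * f j) * f i = - ∑ i, ∑ j, B i j * e i * e j := by
    have h4 : ∑ i, B i i = ∑ i, ∑ j, B i j * (if i = j then (1 : ℝ) else 0) := by simp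
    rw [ht] at h4
    simp only [h.co] at h4
    have h5 : ∑ i, ∑ j, B i j * (e i * e j + f i * f j + x i * x j)
        = (∑ i, ∑ j, B i j * e i * e j) + (∑ i, (∑ j, B i j * f j) * f i) + ∑ i, x i * (∑ j, B i j * x j) := by
      simp only [Fin.sum_univ_three]
      ring
    rw [h5] at h4
    simp only [hB] at h4
    simp at h4
    linarith
  rw [e1, e3] at h2
  rw [e2, e4] at h3
  rw [h1, h2, h3]
  ring

private theorem k5_bb (h : K5F x e f) (a b : ℝ) :
    ∑ i, ∑ j, (a * (e i * e j - f i * f j) + b * (e i * f j + f i * e j)) ^ 2 = 2 * (a ^ 2 + b ^ 2) := by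
  have h1 := h.ee
  have h2 := h.ff
  have h3 := h.ef
  have h4 : ∑ i, ∑ j, (a * (e i * e j - f i * f j) + b * (e i * f j + f i * e j)) ^ 2
      = (a ^ 2) * ((∑ i, e i ^ 2) ^ 2 + (∑ i, f i ^ 2) ^ 2 - 2 * (∑ i, e i * f i) ^ 2)
        + b ^ 2 * (2 * (∑ i, e i ^ 2) * (∑ i, f i ^ 2) + 2 * (∑ i, e i * f i) ^ 2)
        + 4 * a * b * ((∑ i, e i ^ 2) * (∑ i, e i * f i) - (∑ i, f i ^ 2) * (∑ i, e i * f i)) := by
    simp only [Fin.sum_univ_three]
    ring
  rw [h4, h1, h2, h3]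
  ring

private theorem k5_quad (h : K5F x e f) (a b p q : ℝ) :
    ∑ i, ∑ j, (a * (e i * e j - f i * f j) + b * (e i * f j + f i * e j)) * (p * e i + q * f i) * (p * e j + q * f j)
      = a * (p ^ 2 - q ^ 2) + 2 * b * (p * q) := by
  have h1 := h.ee
  have h2 := h.ff
  have h3 := h.ef
  have h4 : ∑ i, ∑ j, (a * (e i * e j - f i * f j) + b * (e i * f j + f i * e j)) * (p * e i + q * f i) * (p * e j + q * f j)
      = a * ((p * (∑ i, e i ^ 2) + q * (∑ i, e i * f i)) ^ 2 - (p * (∑ i, e i * f i) + q * (∑ i, f i ^ 2)) ^ 2)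
        + 2 * b * ((p * (∑ i, e i ^ 2) + q * (∑ i, e i * f i)) * (p * (∑ i, e i * f i) + q * (∑ i, f i ^ 2))) := by
    simp only [Fin.sum_univ_three]
    ring
  rw [h4, h1, h2, h3]
  ring

private theorem k5_pair (h : K5F x e f) (a b c : ℝ) :
    ∑ i, ∑ j, (c * (e i * e j - f i * f j)) * (a * (e i * e j - f i * f j) + b * (e i * f j + f i * e j))
      = 2 * c * a := by
  have h1 := h.ee
  have h2 := h.ff
  have h3 := h.ef
  have h4 : ∑ i, ∑ j, (c * (e i * e j - f i * f j)) * (a * (e i * e j - f i * f j) + b * (e i * f j + f i * e j))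
      = c * a * ((∑ i, e i ^ 2) ^ 2 + (∑ i, f i ^ 2) ^ 2 - 2 * (∑ i, e i * f i) ^ 2)
        + 2 * c * b * ((∑ i, e i ^ 2) * (∑ i, e i * f i) - (∑ i, f i ^ 2) * (∑ i, e i * f i)) := by
    simp only [Fin.sum_univ_three]
    ring
  rw [h4, h1, h2, h3]
  ring

private noncomputable def k5_det (x e f : Fin 3 → ℝ) : ℝ :=
  f 0 * (x 1 * e 2 - x 2 * e 1) + f 1 * (x 2 * e 0 - x 0 * e 2) + f 2 * (x 0 * e 1 - x 1 * e 0)

private theorem k5_det_sq (h : K5F x e f) : k5_det x e f ^ 2 = 1 := by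
  have h1 := h.ee
  have h2 := h.ff
  have h3 := h.ef
  have h4 := h.en
  have h5 := h.fn
  have h6 := h.xx
  have hd : k5_det x e f ^ 2 = (∑ i, x i ^ 2) * (∑ i, e i ^ 2) * (∑ i, f i ^ 2)
      + 2 * (∑ i, x i * e i) * (∑ i, x i * f i) * (∑ i, e i * f i)
      - (∑ i, x i ^ 2) * (∑ i, e i * f i) ^ 2 - (∑ i, e i ^ 2) * (∑ i, x i * f i) ^ 2
      - (∑ i, f i ^ 2) * (∑ i, x i * e i) ^ 2 := by
    unfold k5_det
    simp only [Fin.sum_univ_three]
    ring
  rw [hd, h1, h2, h3, h4, h5, h6]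
  ring

private theorem k5_cross (h : K5F x e f) (l : Fin 3 → ℝ) :
    (l 1 * x 2 - l 2 * x 1) * e 0 + (l 2 * x 0 - l 0 * x 2) * e 1 + (l 0 * x 1 - l 1 * x 0) * e 2
      = k5_det x e f * ∑ i, l i * f i := by
  have e0 : x 1 * e 2 - x 2 * e 1 = k5_det x e f * f 0 := by
    have h0 := k5_exp h ![x 1 * e 2 - x 2 * e 1, x 2 * e 0 - x 0 * e 2, x 0 * e 1 - x 1 * e 0] 0
    simp only [Fin.sum_univ_three] at h0
    simp at h0
    unfold k5_det
    linear_combination h0
  have e1 : x 2 * e 0 - x 0 * e 2 = k5_det x e f * f 1 := by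
    have h0 := k5_exp h ![x 1 * e 2 - x 2 * e 1, x 2 * e 0 - x 0 * e 2, x 0 * e 1 - x 1 * e 0] 1
    simp only [Fin.sum_univ_three] at h0
    simp at h0
    unfold k5_det
    linear_combination h0
  have e2 : x 0 * e 1 - x 1 * e 0 = k5_det x e f * f 2 := by
    have h0 := k5_exp h ![x 1 * e 2 - x 2 * e 1, x 2 * e 0 - x 0 * e 2, x 0 * e 1 - x 1 * e 0] 2
    simp only [Fin.sum_univ_three] at h0
    simp at h0
    unfold k5_det
    linear_combination h0
  simp only [Fin.sum_univ_three]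
  linear_combination l 0 * e0 + l 1 * e1 + l 2 * e2

end K5Alg

private theorem k5_nrm (n : S2) : ∑ i, (n : E3) i ^ 2 = 1 := by
  have h := congrArg (NShell.evS n) stdSA.sq
  simp only [map_add, map_mul, map_one, NShell.evS_apply] at h
  rw [Fin.sum_univ_three]
  have h2 : ∀ i, (stdSA.x i).1 n = (n : E3) i := fun i => rfl
  simp only [h2] at h
  linarith

private theorem k5_fr (h : Onb n e f) : K5F (fun i => (n : E3) i) e f where
  xx := k5_nrm n
  ee := h.ee
  ff := h.ff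
  ef := h.ef
  en := h.en
  fn := h.fn
  co := fun i j => by
    have h1 := proj_ef h i j
    unfold proj at h1
    linarith

private theorem k5_fr' (h : Onb n e f) : K5F (fun i => (n : E3) i) f e where
  xx := k5_nrm n
  ee := h.ff
  ff := h.ee
  ef := by
    rw [← h.ef]
    exact Finset.sum_congr rfl fun j _ => mul_comm _ _
  en := h.fn
  fn := h.en
  co := fun i j => by
    have h1 := proj_ef h i j
    unfold proj at h1
    linarith

private theorem k5_zsym (F : SFun) : ∀ i j, stdSA.ZZ F i j = stdSA.ZZ F j i := by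
  intro i j
  unfold NShell.SA.ZZ
  rw [stdSA.hes_symm F i j, stdSA.pr_symm i j, mul_comm (stdSA.L i F)]

private theorem k5_zx (F : SFun) : ∀ i, ∑ j, stdSA.ZZ F i j * stdSA.x j = 0 := by
  intro i
  have h1 := stdSA.hes_x F i
  have h2 := stdSA.pr_x i
  have h3 := stdSA.rad F
  unfold NShell.SA.ZZ
  simp only [Fin.sum_univ_three] at h1 h2 ⊢
  linear_combination 2 * h1 - stdSA.L i F * h3 - (stdSA.lap F - (1 / 2 : ℝ) • stdSA.gam F F) * h2

private theorem k5_ztr (F : SFun) : ∑ i, stdSA.ZZ F i i = 0 := by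
  rw [← stdSA.pr_tr (fun i j => stdSA.ZZ F i j) (k5_zsym F) (k5_zx F)]
  exact stdSA.Z_tr F

private theorem k5_z (F : SFun) (h : Onb n e f) (i j : Fin 3) :
    (stdSA.ZZ F i j).1 n = -zx F n e e * (e i * e j - f i * f j) + -zx F n e f * (e i * f j + f i * e j) := by
  have h1 := k5_form (k5_fr h) (fun i j => (stdSA.ZZ F i j).1 n) (fun i j => by rw [k5_zsym]) (fun i => ?_) ?_ i j
  · rw [h1]
    unfold zx
    ring
  · have h := congrArg (NShell.evS n) (k5_zx F i)
    simp only [map_sum, map_mul, map_zero, NShell.evS_apply] at h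
    exact h
  · have h := congrArg (NShell.evS n) (k5_ztr F)
    simp only [map_sum, map_zero, NShell.evS_apply] at h
    exact h

private theorem k5_rad (F : SFun) (n : S2) : ∑ i, (n : E3) i * (stdSA.L i F).1 n = 0 := by
  have h := congrArg (NShell.evS n) (stdSA.rad F)
  simp only [map_add, map_mul, map_zero, NShell.evS_apply] at h
  rw [Fin.sum_univ_three]
  exact h

private theorem k5_gr (F : SFun) (n : S2) :
    gr F n 0 = (stdSA.L 1 F).1 n * (n : E3) 2 - (stdSA.L 2 F).1 n * (n : E3) 1 ∧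
    gr F n 1 = (stdSA.L 2 F).1 n * (n : E3) 0 - (stdSA.L 0 F).1 n * (n : E3) 2 ∧
    gr F n 2 = (stdSA.L 0 F).1 n * (n : E3) 1 - (stdSA.L 1 F).1 n * (n : E3) 0 := by
  unfold gr NShell.rotv
  refine ⟨?_, ?_, ?_⟩ <;>
  · simp only [Fin.sum_univ_three]
    simp
    try ring

theorem gr_ef (F : SFun) (h : Onb n e f) (k : Fin 3) : gr F n k = gx F n e * e k + gx F n f * f k :=
  k5_tan (k5_fr h) (gr F n) (NullPen.gr_tan F n) k

theorem XX_ef (F : SFun) (h : Onb n e f) : XX F n = gx F n e ^ 2 + gx F n f ^ 2 := by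
  rw [← NullPen.gr_sq F n, ← k5_sq (k5_fr h)]
  exact Finset.sum_congr rfl fun k _ => by rw [gr_ef F h k]

theorem Z2_ef (F : SFun) (h : Onb n e f) : Z2 F n / 2 = zx F n e e ^ 2 + zx F n e f ^ 2 := by
  unfold Z2
  simp only [k5_z F h]
  rw [k5_bb (k5_fr h)]
  ring

theorem Zg_ef (F : SFun) (h : Onb n e f) : Zg F n = Zq (gx F n e) (gx F n f) (zx F n e e) (zx F n e f) := by
  have hl := fun i => k5_tan (k5_fr h) (fun i => (stdSA.L i F).1 n) (k5_rad F n) i
  set p := ∑ j, (stdSA.L j F).1 n * e j with hp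
  set q := ∑ j, (stdSA.L j F).1 n * f j with hq
  have g := k5_gr F n
  have g1 : gx F n e = k5_det (fun i => (n : E3) i) e f * q := by
    rw [hq, ← k5_cross (k5_fr h)]
    unfold gx
    rw [Fin.sum_univ_three, g.1, g.2.1, g.2.2]
  have g2 : gx F n f = -(k5_det (fun i => (n : E3) i) e f * p) := by
    have h5 := k5_cross (k5_fr' h) (fun i => (stdSA.L i F).1 n)
    have h6 : k5_det (fun i => (n : E3) i) f e = - k5_det (fun i => (n : E3) i) e f := by
      unfold k5_det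
      ring
    rw [h6] at h5
    rw [hp]
    unfold gx
    rw [Fin.sum_univ_three, g.1, g.2.1, g.2.2]
    linarith
  have hd := k5_det_sq (k5_fr h)
  unfold Zg
  simp only [k5_z F h, hl]
  rw [k5_quad (k5_fr h)]
  unfold Zq
  rw [g1, g2]
  linear_combination (-(zx F n e e) * (q ^ 2 - p ^ 2) + 2 * zx F n e f * (p * q)) * hd

theorem BF_ef {D : MatterData} (F : SFun) (h : Onb n e f) {b : ℝ} (hB : ∀ i j, Bo D i j n = b * (e i * e j - f i * f j)) :
    BF D F n = b * (gx F n e ^ 2 - gx F n f ^ 2) := by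
  unfold BF
  simp only [hB, gr_ef F h]
  have h1 := k5_quad (k5_fr h) b 0 (gx F n e) (gx F n f)
  simp only [zero_mul, add_zero, mul_zero] at h1
  exact h1

theorem BZ_ef {D : MatterData} (F : SFun) (h : Onb n e f) {b : ℝ} (hB : ∀ i j, Bo D i j n = b * (e i * e j - f i * f j)) :
    BZ D F n = -(2 * b * zx F n e e) := by
  unfold BZ
  simp only [hB, k5_z F h]
  rw [k5_pair (k5_fr h)]
  ring

theorem Bo2_ef {D : MatterData} (h : Onb n e f) {b : ℝ} (hB : ∀ i j, Bo D i j n = b * (e i * e j - f i * f j)) :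
    ∑ i, ∑ j, Bo D i j n ^ 2 = 2 * b ^ 2 := by
  simp only [hB]
  have h1 := k5_bb (k5_fr h) b 0
  simp only [zero_mul, add_zero] at h1
  rw [h1]
  ring

end NullQ
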