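import Pool.Agent.Lib.H74Q.Dt
import Pool.Agent.Lib.H74Q.Jd
import Pool.Agent.Lib.H74P.FDefs

set_option autoImplicit false

/-!
H74Q: functions on the sphere in the integrated inequality. Definitions. See PROOF.md, sections 4 and 6.
-/

open MeasureTheory Filter Topology Set
open scoped ContDiff

namespace NullQ

open NullPen (E3 S2 sm proj pd MatterData NullData gr rr XX la Z2 Zg)
open NShell (SFun stdSA)

variable (D : MatterData)

/-- `∫_0^S z`. -/
noncomputable def zi (S : ℝ) (n : S2) : ℝ := ∫ s in (0 : ℝ)..S, zz D s n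

/-- `∫_0^S z^2`. -/
noncomputable def vi (S : ℝ) (n : S2) : ℝ := ∫ s in (0 : ℝ)..S, zz D s n ^ 2

/-- `a(|grad f|^2)`. -/
noncomputable def Af (f : SFun) (n : S2) : ℝ := aX (XX f n)

/-- `β = ∫_0^S (z + (a/2) z^2)`. -/
noncomputable def bh (f : SFun) (S : ℝ) (n : S2) : ℝ := zi D S n + Af f n / 2 * vi D S n

/-- `t = 2 ta - 2 S - 2 β`. -/
noncomputable def tw (f : SFun) (S : ℝ) (n : S2) : ℝ := 2 * ta D S n - 2 * S - 2 * bh D f S n

/-- The weight (`t` for `a = 1`). -/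
noncomputable def wt (S : ℝ) (n : S2) : ℝ := 2 * ta D S n - 2 * S - 2 * zi D S n - vi D S n

/-- `Bo(grad f, grad f)`. -/
noncomputable def BF (f : SFun) (n : S2) : ℝ := ∑ i, ∑ j, Bo D i j n * gr f n i * gr f n j

/-- `Σ Bo ZZ`. -/
noncomputable def BZ (f : SFun) (n : S2) : ℝ := ∑ i, ∑ j, Bo D i j n * (stdSA.ZZ f i j).1 n

/-- `Σ Bo L_j L_i f`. -/
noncomputable def BL (f : SFun) (n : S2) : ℝ := ∑ i, ∑ j, Bo D i j n * (stdSA.L j (stdSA.L i f)).1 n

/-- The energy density `2 |ζ|^2 dA + ρ dA`. -/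
noncomputable def Ed (s : ℝ) (n : S2) : ℝ := 2 * (D.torSq s n * D.dA s n) + D.ρ s n * D.dA s n

/-- The linear terms at `S`. -/
noncomputable def LIN (f : SFun) (S : ℝ) (n : S2) : ℝ :=
  2 * (∑ k, gr f n k * (gdv (fun j => rta D j S n) n k + cB D n k))
    + 4 * (∫ r in (0 : ℝ)..S, (1 + Af f n * zz D r n) * (th D r n * ∑ k, gr f n k * gdv (fun j => rth D j r n) n k))
    - tw D f S n * XX f n - BF D f n

/-- The right side of the final pointwise inequality for the weight `r`. -/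
noncomputable def RH (f : SFun) (μ r S : ℝ) (n : S2) : ℝ :=
  2 * μ * tw D f S n * r - r ^ 2 - 2 * μ * BZ D f n + 4 * μ * bh D f S n
    + 2 * daX (XX f n) * (μ * vi D S n) * (Zg f n + XX f n - XX f n ^ 2 / 2 - r * XX f n)
    + Z2 f n / 2 + 3 / 4 * XX f n ^ 2 - 4 * μ ^ 2 * (ta D 0 n ^ 2 - (∑ i, ∑ j, Bo D i j n ^ 2) / 2)
    + Phq (XX f n) * (r - 1 + XX f n) - dfq (XX f n) * (Zg f n + XX f n ^ 2 / 2)

end NullQ
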