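import Pool.Agent.Lib.H74Q.K2
import Pool.Agent.Lib.H17U.EN2
import Pool.Agent.Lib.H17U.LM1

set_option autoImplicit false

/-!
Chunk L1 (M). The energy.
Proof. `Th S = Th 0 + 8 pi S - ∫_0^S (2 tt + ∫ ρ dA)` (`NullU.theta_eq`), `Th 0 <= 0` (trapped, `dA >= 0`), and `∫_0^S (2 tt + ∫ ρ dA) = ∫_0^S ∫ Ed` (`tt` is `∫ torSq dA`). Area: `(∫ sqrt dA)^2 <= 4 pi area` (`NullPen.MatterData.EN_cs`), so
`sqrt (16 pi area) >= 2 ∫ sqrt dA`; on a generator `dA = p q`, `T = p + q` (`exists_full`, `dA_pq`, `TT_eq`) and `T - 2 sqrt (p q) = (p - q)^2/(sqrt p + sqrt q)^2 <= K^2/S` (`|p - q| <= K`, `p, q >= S`). So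
`sqrt (16 pi area S) >= ∫ TT - 4 pi K^2/S`. Fubini: `NullPen.fub` (`Ed` is continuous on `[0,∞) × S2`: `NullU.tor_cont`, `NullU.en2_rc`).
-/

open MeasureTheory Filter Topology Set
open scoped ContDiff

namespace NullQ

open NullPen (E3 S2 sm proj pd MatterData NullData Th)

variable {D : MatterData}

theorem c_Ed (hD : D.Quiet) : ContinuousOn (fun p : ℝ × S2 => Ed D p.1 p.2) (Ici 0 ×ˢ univ) := by
  unfold Ed
  exact (continuousOn_const.mul (NullU.tor_cont hD.null)).add (NullU.en2_rc hD.null).continuousOn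

theorem L1_Ei (hD : D.Quiet) {t : ℝ} (ht : 0 ≤ t) : ∫ n : S2, Ed D t n ∂sm =
    2 * NullU.tt D t + ∫ n : S2, D.ρ t n * D.dA t n ∂sm := by
  have i1 : Integrable (fun n : S2 => 2 * (D.torSq t n * D.dA t n)) sm :=
    (NullPen.integrable_sm (NullPen.cont_at (F := fun s n => D.torSq s n * D.dA s n)
      (NullU.tor_cont hD.null) ht)).const_mul 2
  have i2 : Integrable (fun n : S2 => D.ρ t n * D.dA t n) sm :=
    NullPen.integrable_sm (NullPen.cont_at (F := fun s n => D.ρ s n * D.dA s n)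
      (NullU.en2_rc hD.null).continuousOn ht)
  unfold Ed
  rw [integral_add (f := fun n : S2 => 2 * (D.torSq t n * D.dA t n)) i1 i2, integral_const_mul]
  rfl

theorem L1_Th0 (hD : D.Quiet) : Th D 0 ≤ 0 := by
  unfold NullPen.Th
  refine integral_nonpos fun n => ?_
  exact mul_nonpos_of_nonpos_of_nonneg (hD.trapped n) (NullU.dA_pos hD.null n le_rfl).le

theorem L1_pt (hD : D.Quiet) {K : ℝ} {n : S2} {e f : Fin 3 → ℝ} {p q dp dq : ℝ → ℝ}
    (h : Full D K n e f p q dp dq) {S : ℝ} (hS : 1 ≤ S) :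
    TT D S n ≤ 2 * Real.sqrt (D.dA S n) + K ^ 2 / S := by
  have hS0 : 0 ≤ S := by linarith
  have hSp : 0 < S := by linarith
  have hr := h.toRy
  rw [TT_eq hD h hS0, dA_pq hD h.toEig hr hS0]
  have hp := b2_lin hr.pc hr.pd hr.p1 (hr.pp 0 le_rfl) hS0
  have hq := b2_lin hr.qc hr.qd hr.q1 (hr.qp 0 le_rfl) hS0
  have hp2 := hr.pK S hS0
  have hq2 := hr.qK S hS0
  have hp0 := hr.pp S hS0
  have hq0 := hr.qp S hS0
  rw [Real.sqrt_mul hp0.le]
  have ex := Real.sq_sqrt hp0.le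
  have ey := Real.sq_sqrt hq0.le
  have x0 := Real.sqrt_nonneg (p S)
  have y0 := Real.sqrt_nonneg (q S)
  generalize Real.sqrt (p S) = x at *
  generalize Real.sqrt (q S) = y at *
  have h1 : (x - y) ^ 2 ≤ K ^ 2 / S := by
    rw [le_div_iff₀ hSp]
    have h2 : S ≤ (x + y) ^ 2 := by nlinarith
    have h3 : (x - y) ^ 2 * (x + y) ^ 2 = (p S - q S) ^ 2 := by
      rw [← ex, ← ey]
      ring
    have h4 : (p S - q S) ^ 2 ≤ K ^ 2 := by
      apply sq_le_sq'
      · linarith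
      · linarith
    calc (x - y) ^ 2 * S ≤ (x - y) ^ 2 * (x + y) ^ 2 := mul_le_mul_of_nonneg_left h2 (sq_nonneg _)
      _ ≤ K ^ 2 := h3.trans_le h4
  nlinarith

theorem energy_q (hD : D.Quiet) : ∃ C : ℝ, 0 ≤ C ∧ ∀ S, 1 ≤ S →
    (∫ n : S2, (TT D S n - 2 * S) ∂sm) + (∫ n : S2, (∫ r in (0 : ℝ)..S, Ed D r n) ∂sm) - C / S ≤
      Real.sqrt (16 * Real.pi * D.area S) - Th D S := by
  obtain ⟨K, hK0, hK⟩ := exists_full hD
  refine ⟨4 * Real.pi * K ^ 2, by positivity, fun S hS => ?_⟩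
  have hS0 : 0 ≤ S := by linarith
  have hfin : IsFiniteMeasure sm := NullPen.MatterData.EN_fin
  have hsm : sm.real Set.univ = 4 * Real.pi := Pool.Agent.Lib.PenroseSph.sm_univ
  -- the expansion
  have e1 := NullU.theta_eq hD.null hS0
  have e2 : ∫ t in (0 : ℝ)..S, (2 * NullU.tt D t + ∫ n : S2, D.ρ t n * D.dA t n ∂sm) =
      ∫ n : S2, (∫ r in (0 : ℝ)..S, Ed D r n) ∂sm := by
    rw [← NullPen.fub (F := fun t n => Ed D t n) (c_Ed hD) hS0]
    refine intervalIntegral.integral_congr fun t ht => ?_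
    rw [uIcc_of_le hS0] at ht
    exact (L1_Ei hD ht.1).symm
  rw [e2] at e1
  have e3 := L1_Th0 hD
  -- the area
  have cT : Continuous (fun n : S2 => TT D S n) := NullPen.cont_at (F := fun s n => TT D s n) (c_TT hD.null) hS0
  have cA : Continuous (fun n : S2 => D.dA S n) :=
    NullPen.cont_at (F := fun s n => D.dA s n) (NullU.dA_cont hD.null) hS0
  have cs : Continuous (fun n : S2 => Real.sqrt (D.dA S n)) := Real.continuous_sqrt.comp cA
  have a1 := NullPen.MatterData.EN_cs cs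
  have a2 : ∫ n : S2, Real.sqrt (D.dA S n) ^ 2 ∂sm = D.area S := by
    unfold NullPen.NullData.area
    refine integral_congr_ae (Eventually.of_forall fun n => ?_)
    exact Real.sq_sqrt (NullU.dA_pos hD.null n hS0).le
  rw [a2] at a1
  have a3 : 2 * (∫ n : S2, Real.sqrt (D.dA S n) ∂sm) ≤ Real.sqrt (16 * Real.pi * D.area S) := by
    refine Real.le_sqrt_of_sq_le ?_
    nlinarith
  have iT : Integrable (fun n : S2 => TT D S n) sm := NullPen.integrable_sm cT
  have is : Integrable (fun n : S2 => Real.sqrt (D.dA S n)) sm := NullPen.integrable_sm cs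
  have a4 : ∫ n : S2, TT D S n ∂sm ≤ ∫ n : S2, (2 * Real.sqrt (D.dA S n) + K ^ 2 / S) ∂sm := by
    refine integral_mono iT ((is.const_mul 2).add (integrable_const _)) fun n => ?_
    obtain ⟨e, f, p, q, dp, dq, h⟩ := hK n
    exact L1_pt hD h hS
  rw [integral_add (is.const_mul 2) (integrable_const _), integral_const_mul, integral_const, hsm,
    smul_eq_mul] at a4
  have a5 : ∫ n : S2, (TT D S n - 2 * S) ∂sm = (∫ n : S2, TT D S n ∂sm) - 8 * Real.pi * S := by
    rw [integral_sub iT (integrable_const _), integral_const, hsm, smul_eq_mul]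
    ring
  have a6 : 4 * Real.pi * (K ^ 2 / S) = 4 * Real.pi * K ^ 2 / S := by ring
  rw [a5, e1]
  linarith

end NullQ
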