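import Pool.Agent.Lib.H74Q.K2

set_option autoImplicit false

/-!
Chunk L2 (M). The weight, the gap `2 ta - T`, bounds.
Proof. `K` from `clock`. `wt D S n`: derivative in `S > 0`: `2/th^2 - 2 - 2 z - z^2 = z^2 (1+z)/(1-z) >= 0` (`th^2 = 1 - z`; `ta' = 1/th^2`: from `II_der`, `ta = 1/(4 II)`, `th = 2 TT II`), continuous on `[0,∞)`: nondecreasing (`wt_mono`), `wt D 0 = 2 ta 0 >= TT 0 >= c` (`wt_low`,
`TT_low`). For `s >= 1`: `z <= 2 K/(s+K)`, `1 - z = th^2 >= (s/(s+K))^2 >= 1/(1+K)^2`, so the derivative is `<= 8 K^2 (1+K)^2/(s+K)^2`, `wt S - wt S1 <= 8 K^2 (1+K)^2/(S1 + K) <= C/S1` (`wt_incr`; compare with the function `- C/s`, `NullPen.g1_mono` or the mean value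
inequality on `[S1, S]`). `wt_upp`: `wt S <= 2 ta S - 2 S <= 2 K` (`zi, vi >= 0`). `vi_bd`: `vi >= 0`, and from `wt S >= 0`: `vi S <= 2 ta S - 2 S <= 2 K`. `gap`: `∫ (2 ta - TT) -> 0`: dominated convergence (`0 <= 2 ta - TT <= 2 K` as `TT >= 2 s`; `c2_gap`), with a filter `atTop` on `ℝ`
(`tendsto_integral_filter_of_dominated_convergence`; measurability: continuity in `n`).
-/

open MeasureTheory Filter Topology Set
open scoped ContDiff

namespace NullQ

open NullPen (E3 S2 sm proj pd MatterData NullData gr rr XX la Z2 Zg)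
open NShell (SFun stdSA)

variable {D : MatterData}

/-- the weight on a generator -/
noncomputable def l2_w (p q : ℝ → ℝ) (S : ℝ) : ℝ :=
  2 * taf p q S - 2 * S - 2 * (∫ s in (0 : ℝ)..S, zf p q s) - ∫ s in (0 : ℝ)..S, zf p q s ^ 2

theorem l2_zi (hD : D.Quiet) {K : ℝ} {n : S2} {e f : Fin 3 → ℝ} {p q dp dq : ℝ → ℝ}
    (h : Full D K n e f p q dp dq) {S : ℝ} (hS : 0 ≤ S) :
    zi D S n = ∫ s in (0 : ℝ)..S, zf p q s := by
  unfold zi
  refine intervalIntegral.integral_congr fun s hs => ?_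
  rw [uIcc_of_le hS] at hs
  exact zz_eq hD h hs.1

theorem l2_vi (hD : D.Quiet) {K : ℝ} {n : S2} {e f : Fin 3 → ℝ} {p q dp dq : ℝ → ℝ}
    (h : Full D K n e f p q dp dq) {S : ℝ} (hS : 0 ≤ S) :
    vi D S n = ∫ s in (0 : ℝ)..S, zf p q s ^ 2 := by
  unfold vi
  refine intervalIntegral.integral_congr fun s hs => ?_
  rw [uIcc_of_le hS] at hs
  show zz D s n ^ 2 = zf p q s ^ 2
  rw [zz_eq hD h hs.1]

theorem l2_eq (hD : D.Quiet) {K : ℝ} {n : S2} {e f : Fin 3 → ℝ} {p q dp dq : ℝ → ℝ}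
    (h : Full D K n e f p q dp dq) {S : ℝ} (hS : 0 ≤ S) : wt D S n = l2_w p q S := by
  unfold wt l2_w
  rw [l2_zi hD h hS, l2_vi hD h hS, ta_eq hD h hS]

theorem l2_cont {K : ℝ} {m p q dp dq : ℝ → ℝ} (h : Ry K m p q dp dq) :
    ContinuousOn (l2_w p q) (Ici 0) :=
  (((continuousOn_const.mul (ta_cont h)).sub (continuousOn_const.mul continuousOn_id)).sub
    (continuousOn_const.mul (NullPen.g1_int_cont (b3_zc h)))).sub
      (NullPen.g1_int_cont ((b3_zc h).pow 2))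

theorem l2_der {K : ℝ} {m p q dp dq : ℝ → ℝ} (h : Ry K m p q dp dq) {s : ℝ} (hs : 0 < s) :
    HasDerivAt (l2_w p q) (zf p q s ^ 2 * (1 + zf p q s) / thf p q s ^ 2) s := by
  have h1 := ((((ta_der h hs).const_mul 2).sub ((hasDerivAt_id s).const_mul 2)).sub
    ((NullPen.g1_int_der (b3_zc h) hs).const_mul 2)).sub
      (NullPen.g1_int_der (f := fun s => zf p q s ^ 2) ((b3_zc h).pow 2) hs)
  refine h1.congr_deriv ?_
  have h2 := (th_pos h hs.le).ne'
  unfold zf
  field_simp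
  ring

theorem l2_mono {K : ℝ} {m p q dp dq : ℝ → ℝ} (h : Ry K m p q dp dq) :
    MonotoneOn (l2_w p q) (Ici 0) :=
  NullPen.g1_mono (l2_cont h) (fun s hs => l2_der h hs) fun s hs => by
    have h1 := b3_z0 h hs.le
    have h2 := th_pos h hs.le
    positivity

theorem l2_zero (p q : ℝ → ℝ) : l2_w p q 0 = 2 * taf p q 0 := by
  unfold l2_w
  rw [intervalIntegral.integral_same, intervalIntegral.integral_same]
  ring

theorem l2_incr {K : ℝ} {m p q dp dq : ℝ → ℝ} (h : Ry K m p q dp dq) {S1 S : ℝ} (h1 : 1 ≤ S1)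
    (hS : S1 ≤ S) : l2_w p q S - l2_w p q S1 ≤ 8 * K ^ 2 * (1 + K) ^ 2 / S1 := by
  have hK := h.K0
  set C : ℝ := 8 * K ^ 2 * (1 + K) ^ 2 with hC
  have hC0 : 0 ≤ C := by positivity
  have hm : MonotoneOn (fun s => -(C / s) - l2_w p q s) (Ici 1) := by
    have hd : ∀ s : ℝ, 0 < s → HasDerivAt (fun s => -(C / s) - l2_w p q s)
        (C / s ^ 2 - zf p q s ^ 2 * (1 + zf p q s) / thf p q s ^ 2) s := by
      intro s hs
      have e1 : HasDerivAt (fun s : ℝ => -(C / s)) (C / s ^ 2) s := by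
        have e2 := ((hasDerivAt_inv hs.ne').const_mul C).neg
        refine (e2.congr_deriv ?_).congr_of_eventuallyEq (Eventually.of_forall fun t => ?_)
        · field_simp
        · simp [div_eq_mul_inv]
      exact e1.sub (l2_der h hs)
    apply monotoneOn_of_deriv_nonneg (convex_Ici 1)
    · intro s hs
      have hs0 : (0 : ℝ) < s := lt_of_lt_of_le one_pos hs
      exact (hd s hs0).continuousAt.continuousWithinAt
    · intro s hs
      rw [interior_Ici] at hs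
      have hs0 : (0 : ℝ) < s := one_pos.trans hs
      exact (hd s hs0).differentiableAt.differentiableWithinAt
    · intro s hs
      rw [interior_Ici] at hs
      have hs1 : (1 : ℝ) ≤ s := le_of_lt hs
      have hs0 : (0 : ℝ) < s := one_pos.trans hs
      rw [(hd s hs0).deriv]
      have z0 := b3_z0 h hs0.le
      have z1 := b3_z1 h hs0.le
      have z2 := z_le h hs0.le
      have t1 := b2_th_ge h hs0.le
      have t0 := th_pos h hs0.le
      have hsK := sK_pos h hs0.le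
      have t2 : s / (s + K) ≥ 1 / (1 + K) := by
        rw [ge_iff_le, div_le_div_iff₀ (by linarith) hsK]
        nlinarith
      have t3 : 1 / (1 + K) ≤ thf p q s := le_trans t2 t1
      have t4 : (1 : ℝ) ≤ (1 + K) ^ 2 * thf p q s ^ 2 := by
        have t5 : 1 ≤ (1 + K) * thf p q s := by
          rw [div_le_iff₀ (by linarith)] at t3
          linarith
        have t6 : (1 : ℝ) ≤ ((1 + K) * thf p q s) ^ 2 := one_le_pow₀ t5
        rw [mul_pow] at t6
        exact t6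
      have z3 : zf p q s ≤ 2 * K / s :=
        z2.trans (div_le_div_of_nonneg_left (by linarith) hs0 (by linarith))
      have z4 : zf p q s ^ 2 ≤ 4 * K ^ 2 / s ^ 2 := by
        have := pow_le_pow_left₀ z0 z3 2
        calc zf p q s ^ 2 ≤ (2 * K / s) ^ 2 := this
          _ = 4 * K ^ 2 / s ^ 2 := by ring
      have z5 : zf p q s ^ 2 * (1 + zf p q s) ≤ 4 * K ^ 2 / s ^ 2 * 2 :=
        mul_le_mul z4 (by linarith) (by linarith) (by positivity)
      have z6 : zf p q s ^ 2 * (1 + zf p q s) / thf p q s ^ 2 ≤ C / s ^ 2 := by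
        rw [div_le_iff₀ (by positivity)]
        calc zf p q s ^ 2 * (1 + zf p q s) ≤ 4 * K ^ 2 / s ^ 2 * 2 * 1 := by linarith
          _ ≤ 4 * K ^ 2 / s ^ 2 * 2 * ((1 + K) ^ 2 * thf p q s ^ 2) :=
            mul_le_mul_of_nonneg_left t4 (by positivity)
          _ = C / s ^ 2 * thf p q s ^ 2 := by
            rw [hC]
            ring
      linarith
  have h2 := hm (mem_Ici.2 h1) (mem_Ici.2 (h1.trans hS)) hS
  simp only at h2
  have h3 : 0 ≤ C / S := div_nonneg hC0 (by linarith)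
  linarith

theorem c_wt (hD : D.Quiet) {S : ℝ} (hS : 0 ≤ S) : Continuous (wt D S) :=
  (((continuous_const.mul (c_ta' hD hS)).sub continuous_const).sub
    (continuous_const.mul (c_zi hD hS))).sub (c_vi hD hS)

theorem wt_mono (hD : D.Quiet) {S S' : ℝ} (hS : 0 ≤ S) (hSS : S ≤ S') (n : S2) : wt D S n ≤ wt D S' n := by
  obtain ⟨K, hK0, hK⟩ := exists_full hD
  obtain ⟨e, f, p, q, dp, dq, h⟩ := hK n
  rw [l2_eq hD h hS, l2_eq hD h (hS.trans hSS)]
  exact l2_mono h.toRy (mem_Ici.2 hS) (mem_Ici.2 (hS.trans hSS)) hSS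

theorem wt_low (hD : D.Quiet) : ∃ c : ℝ, 0 < c ∧ ∀ S, 0 ≤ S → ∀ n : S2, c ≤ wt D S n := by
  obtain ⟨c, hc, hT⟩ := TT_low hD.null hD.flat
  obtain ⟨K, hK0, hK⟩ := clock hD
  refine ⟨c, hc, fun S hS n => ?_⟩
  refine le_trans ?_ (wt_mono hD le_rfl hS n)
  obtain ⟨K', hK0', hK'⟩ := exists_full hD
  obtain ⟨e, f, p, q, dp, dq, h⟩ := hK' n
  rw [l2_eq hD h le_rfl, l2_zero, ← ta_eq hD h le_rfl]
  have h1 := hT 0 le_rfl n
  have h2 := (hK 0 le_rfl n).2.2.2.2.2.2.2.1
  linarith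

theorem wt_incr (hD : D.Quiet) : ∃ C : ℝ, 0 ≤ C ∧ ∀ S1 S, 1 ≤ S1 → S1 ≤ S → ∀ n : S2, wt D S n - wt D S1 n ≤ C / S1 := by
  obtain ⟨K, hK0, hK⟩ := exists_full hD
  refine ⟨8 * K ^ 2 * (1 + K) ^ 2, by positivity, fun S1 S h1 hS n => ?_⟩
  obtain ⟨e, f, p, q, dp, dq, h⟩ := hK n
  rw [l2_eq hD h (by linarith), l2_eq hD h (by linarith)]
  exact l2_incr h.toRy h1 hS

theorem wt_upp (hD : D.Quiet) : ∃ C : ℝ, 0 ≤ C ∧ ∀ S, 0 ≤ S → ∀ n : S2, wt D S n ≤ C ∧ 0 ≤ vi D S n ∧ vi D S n ≤ C ∧ 0 ≤ zi D S n := by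
  obtain ⟨K, hK0, hK⟩ := exists_full hD
  obtain ⟨c, hc, hlow⟩ := wt_low hD
  refine ⟨2 * K, by positivity, fun S hS n => ?_⟩
  obtain ⟨e, f, p, q, dp, dq, h⟩ := hK n
  have hz : 0 ≤ zi D S n := by
    rw [l2_zi hD h hS]
    exact intervalIntegral.integral_nonneg hS fun s hs => b3_z0 h.toRy hs.1
  have hv : 0 ≤ vi D S n := by
    unfold vi
    exact intervalIntegral.integral_nonneg hS fun s _ => sq_nonneg _
  have h1 := ta_le h.toRy hS
  rw [← ta_eq hD h hS] at h1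
  have h2 := hlow S hS n
  have h3 : wt D S n = 2 * ta D S n - 2 * S - 2 * zi D S n - vi D S n := rfl
  refine ⟨by linarith, hv, by linarith, hz⟩

theorem tw_eq (D : MatterData) (f : SFun) (S : ℝ) (n : S2) : tw D f S n = wt D S n + (1 - Af f n) * vi D S n := by
  unfold tw wt bh
  ring

theorem gap (hD : D.Quiet) : Tendsto (fun S => ∫ n : S2, (2 * ta D S n - TT D S n) ∂sm) atTop (𝓝 0) := by
  have hfin : IsFiniteMeasure sm := NullPen.c1_fin
  obtain ⟨K, hK0, hK⟩ := clock hD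
  have h0 : (0 : ℝ) = ∫ _ : S2, (0 : ℝ) ∂sm := by simp
  rw [h0]
  refine tendsto_integral_filter_of_dominated_convergence (fun _ => 2 * K) ?_ ?_ ?_ ?_
  · filter_upwards [eventually_ge_atTop (0 : ℝ)] with S hS
    exact ((continuous_const.mul (c_ta' hD hS)).sub
      (NullPen.cont_at (F := fun s (n : S2) => TT D s n) (c_TT hD.null) hS)).aestronglyMeasurable
  · filter_upwards [eventually_ge_atTop (0 : ℝ)] with S hS
    refine Eventually.of_forall fun n => ?_
    obtain ⟨-, h1, -, -, -, -, -, h2, h3, -⟩ := hK S hS n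
    rw [Real.norm_eq_abs, abs_of_nonneg (by linarith)]
    linarith
  · exact integrable_const _
  · exact Eventually.of_forall fun n => c2_gap hD n

end NullQ
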