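import Pool.Agent.Lib.H74Q.N1A
import Pool.Agent.Lib.H74Q.J5
import Pool.Agent.Lib.H74Q.K5
import Pool.Agent.Lib.H74Q.G4B

set_option autoImplicit false

/-!
Chunk NB (M). The pointwise inequality at `n`.
Proof. `K` from `exists_full`, `C0` from `Er_bd`; `C = 2 C0`. At `n`: `e, f, p, q, dp, dq` (`Full`), `f1 = gx F n e`, `f2 = gx F n f`, `X = XX F n = f1^2 + f2^2` (`XX_ef`), `a = Af F n = aX X` (`aX_ge`, `aX_le`), `b = bf p q` (`Bo_eq`).
`ray_E` for these; `|Er| <= C0 (|f1| + |f2|) (1/S + sqrt ..)`, `|f1| + |f2| <= 2 sqrt X`. The linear terms: `Σ_k gr k (gdv rta + cB) k = f1 Rc e + f2 Rc f` (`gr_ef`), same for `Tc`. So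
`∫ Ed >= (first two terms of LIN) - C sqrt X (..) - [2 f1^2 ∫ + 2 f2^2 ∫]`. `quad_sum`; `tw D F S n = 2 taf S - 2 S - 2 bet` (`zz_eq`, `ta_eq`, `bh = ∫ (z + (a/2) z^2) = bet`), `vi = vph`, `BF = b (f1^2 - f2^2)` (`BF_ef`). It remains
`4 μ ((RR2 - κ + ..) f1^2 + (RR1 - κ + ..) f2^2) <= RH D F μ (μ wt) S n`: this is `fin_q` for `(μ t1, μ t2, μ κ, μ v, μ β, μ RR1, μ RR2)`, `t1 = taf 0 + b`, `t2 = taf 0 - b`, `z1 = zx F n e e`, `z2 = zx F n e f` (`Nodes` is homogeneous; `vph_le`, `kap_nonneg`,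
`bet_nonneg`, `vph_nonneg`, `zt1`, `zt2`), with `μ (t1 + t2 + 2 κ) = μ tw` (`tsum_eq`), `μ wt = μ tw - (1 - a) μ vi` (definitions), `- 2 μ BZ = 2 μ (t1 - t2) z1` (`BZ_ef`), `4 μ^2 t1 t2 = 4 μ^2 (ta 0^2 - Σ Bo^2/2)` (`Bo2_ef`), `Z2/2`, `Zg` (`Z2_ef`, `Zg_ef`).
-/

open MeasureTheory Filter Topology Set
open scoped ContDiff

namespace NullQ

open NullPen (E3 S2 sm proj pd MatterData NullData gr rr XX la Z2 Zg)
open NShell (SFun stdSA)

theorem nb_zi {D : MatterData} (hD : D.Quiet) {K : ℝ} {n : S2} {e f : Fin 3 → ℝ} {p q dp dq : ℝ → ℝ}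
    (h : Full D K n e f p q dp dq) {S : ℝ} (hS : 0 ≤ S) :
    zi D S n = ∫ r in (0 : ℝ)..S, zf p q r := by
  unfold zi
  refine intervalIntegral.integral_congr fun r hr => ?_
  rw [uIcc_of_le hS] at hr
  exact zz_eq hD h hr.1

theorem nb_vi {D : MatterData} (hD : D.Quiet) {K : ℝ} {n : S2} {e f : Fin 3 → ℝ} {p q dp dq : ℝ → ℝ}
    (h : Full D K n e f p q dp dq) {S : ℝ} (hS : 0 ≤ S) :
    vi D S n = vph (zf p q) S := by
  unfold vi vph
  refine intervalIntegral.integral_congr fun r hr => ?_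
  rw [uIcc_of_le hS] at hr
  show zz D r n ^ 2 = zf p q r ^ 2
  rw [zz_eq hD h hr.1]

theorem nb_bh {D : MatterData} (hD : D.Quiet) {K : ℝ} {n : S2} {e f : Fin 3 → ℝ} {p q dp dq : ℝ → ℝ}
    (h : Full D K n e f p q dp dq) (F : SFun) {S : ℝ} (hS : 0 ≤ S) :
    bh D F S n = bet (Af F n) (zf p q) S := by
  have hsub : uIcc 0 S ⊆ Ici 0 := by
    rw [uIcc_of_le hS]
    exact Icc_subset_Ici_self
  have hzc := (zt1 h.toRy).zc
  have i1 : IntervalIntegrable (zf p q) volume 0 S := (hzc.mono hsub).intervalIntegrable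
  have i2 : IntervalIntegrable (fun r => Af F n / 2 * zf p q r ^ 2) volume 0 S :=
    ((continuousOn_const.mul (hzc.pow 2)).mono hsub).intervalIntegrable
  unfold bh bet
  rw [nb_zi hD h hS, nb_vi hD h hS, intervalIntegral.integral_add i1 i2,
    intervalIntegral.integral_const_mul]
  rfl

theorem nb_nodes {a k b t R μ : ℝ} (h : Nodes a k b t R) (hμ : 0 < μ) :
    Nodes a (μ * k) (μ * b) (μ * t) (μ * R) := by
  refine ⟨?_, fun h5 => ?_, fun h5 => ?_, fun h5 => ?_⟩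
  · have := mul_le_mul_of_nonneg_left h.n0 hμ.le
    linarith
  · have := mul_le_mul_of_nonneg_left (h.n1 h5) hμ.le
    linarith
  · have := mul_le_mul_of_nonneg_left (h.n2 h5) hμ.le
    linarith
  · have := mul_le_mul_of_nonneg_left (h.n3 h5) hμ.le
    linarith

theorem nb_lin (F : SFun) {n : S2} {e f : Fin 3 → ℝ} (h : Onb n e f) (G : Fin 3 → ℝ) :
    ∑ k, gr F n k * G k = gx F n e * (∑ k, G k * e k) + gx F n f * (∑ k, G k * f k) := by
  rw [Finset.mul_sum, Finset.mul_sum, ← Finset.sum_add_distrib]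
  refine Finset.sum_congr rfl fun k _ => ?_
  rw [gr_ef F h k]
  ring

theorem nb_abs (x y : ℝ) : |x| + |y| ≤ 2 * Real.sqrt (x ^ 2 + y ^ 2) := by
  have h1 : |x| ≤ Real.sqrt (x ^ 2 + y ^ 2) :=
    Real.abs_le_sqrt (by nlinarith [sq_nonneg y])
  have h2 : |y| ≤ Real.sqrt (x ^ 2 + y ^ 2) :=
    Real.abs_le_sqrt (by nlinarith [sq_nonneg x])
  linarith

/-- The final pointwise inequality for the data. -/
theorem nb_fin {D : MatterData} (hD : D.Quiet) {K : ℝ} {n : S2} {e f : Fin 3 → ℝ} {p q dp dq : ℝ → ℝ}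
    (h : Full D K n e f p q dp dq) (F : SFun) {S μ : ℝ} (hS : 0 ≤ S) (hμ : 0 < μ) :
    4 * μ * ((RR (Af F n) (zf p q) (fun s => taf p q s - bf p q) S - kap (Af F n) (zf p q) S
          + (taf p q 0 + bf p q) * (1 + Af F n) ^ 2 / 36) * gx F n e ^ 2
        + (RR (Af F n) (zf p q) (fun s => taf p q s + bf p q) S - kap (Af F n) (zf p q) S
          + (taf p q 0 - bf p q) * (1 + Af F n) ^ 2 / 36) * gx F n f ^ 2)
      ≤ RH D F μ (μ * wt D S n) S n := by
  have hXe := XX_ef F h.toOnb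
  have hX0 : 0 ≤ XX F n := by
    rw [hXe]
    positivity
  have ha : -1 ≤ Af F n := aX_ge hX0
  have ha1 : Af F n ≤ 1 := aX_le hX0
  have hr := h.toRy
  have n1 := nb_nodes (nodes_of (zt1 hr) ha ha1 hS) hμ
  have n2 := nb_nodes (nodes_of (zt2 hr) ha ha1 hS) hμ
  have hk := mul_nonneg hμ.le (kap_nonneg (zt1 hr) ha ha1 hS)
  have hb := mul_nonneg hμ.le (bet_nonneg (zt1 hr) ha hS)
  have hv := mul_nonneg hμ.le (vph_nonneg (zt1 hr) hS)
  have hvk : (1 - aX (XX F n) / 2) * (μ * vph (zf p q) S) ≤ μ * kap (Af F n) (zf p q) S := by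
    have h1 := mul_le_mul_of_nonneg_left (vph_le (zt1 hr) ha ha1 hS) hμ.le
    have h2 : Af F n = aX (XX F n) := rfl
    rw [← h2]
    linarith
  have key := fin_q hXe (zx F n e e) (zx F n e f) (mul_nonneg hμ.le (b3_tp hr).le)
    (mul_nonneg hμ.le (b3_tq hr).le) hk hv hb hvk n1 n2
  have hts := tsum_eq hr (Af F n) hS
  have htw : tw D F S n = (taf p q 0 + bf p q) + (taf p q 0 - bf p q) + 2 * kap (Af F n) (zf p q) S := by
    unfold tw
    rw [nb_bh hD h F hS, ta_eq hD h hS]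
    exact hts
  have hwt : wt D S n = tw D F S n - (1 - Af F n) * vi D S n := by
    unfold wt tw bh
    ring
  have hBZ := BZ_ef F h.toOnb (fun i j => Bo_eq hD h i j)
  have hBo := Bo2_ef h.toOnb (fun i j => Bo_eq hD h i j)
  have hZ2 := Z2_ef F h.toOnb
  have hZg := Zg_ef F h.toOnb
  have hA : aX (XX F n) = Af F n := rfl
  unfold RH
  rw [hBZ, hBo, hZ2, hZg, hwt, htw, nb_bh hD h F hS, nb_vi hD h hS, ta_eq hD h le_rfl]
  unfold GG at key
  rw [hA] at key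
  linear_combination key

theorem pt {D : MatterData} (hD : D.Quiet) : ∃ C : ℝ, 0 ≤ C ∧ ∀ (F : SFun) (S : ℝ), 1 ≤ S → ∀ μ : ℝ, 0 < μ → ∀ n : S2,
    2 * μ * LIN D F S n - RH D F μ (μ * wt D S n) S n
      - 2 * μ * (C * Real.sqrt (XX F n) * (1 / S + Real.sqrt (D.torSq S n * D.dA S n))) ≤ 2 * μ * ∫ r in (0 : ℝ)..S, Ed D r n := by
  obtain ⟨K, hK, hfull⟩ := exists_full hD
  obtain ⟨C, hC, hEr⟩ := Er_bd hD hK
  refine ⟨2 * C, by linarith, fun F S hS μ hμ n => ?_⟩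
  obtain ⟨e, f, p, q, dp, dq, h⟩ := hfull n
  have hS0 : 0 < S := by linarith
  have hXe := XX_ef F h.toOnb
  have hX0 : 0 ≤ XX F n := by
    rw [hXe]
    positivity
  have ha : -1 ≤ Af F n := aX_ge hX0
  have ha1 : Af F n ≤ 1 := aX_le hX0
  have h1 := ray_E hD h ha ha1 (gx F n e) (gx F n f) hS0
  have h2 := quad_sum h.toRy ha ha1 (gx F n e) (gx F n f) hS0.le
  have h3 := nb_fin hD h F hS0.le hμ
  have h4 := hEr n e f p q dp dq h (Af F n) ha ha1 (gx F n e) (gx F n f) S hS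
  have h5 := nb_abs (gx F n e) (gx F n f)
  rw [← hXe] at h5
  have hE : 0 ≤ 1 / S + Real.sqrt (D.torSq S n * D.dA S n) := by positivity
  have h6 : C * (|gx F n e| + |gx F n f|) * (1 / S + Real.sqrt (D.torSq S n * D.dA S n)) ≤
      2 * C * Real.sqrt (XX F n) * (1 / S + Real.sqrt (D.torSq S n * D.dA S n)) := by
    refine mul_le_mul_of_nonneg_right ?_ hE
    have := mul_le_mul_of_nonneg_left h5 hC
    linarith
  have h7 := (abs_le.1 (h4.trans h6)).1
  have hL1 : ∑ k, gr F n k * (gdv (fun j => rta D j S n) n k + cB D n k) =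
      gx F n e * Rc D n e S + gx F n f * Rc D n f S :=
    nb_lin F h.toOnb (fun k => gdv (fun j => rta D j S n) n k + cB D n k)
  have hL2 : ∫ r in (0 : ℝ)..S, (1 + Af F n * zz D r n) *
        (th D r n * ∑ k, gr F n k * gdv (fun j => rth D j r n) n k) =
      ∫ r in (0 : ℝ)..S, (1 + Af F n * zz D r n) *
        (th D r n * (gx F n e * Tc D n e r + gx F n f * Tc D n f r)) := by
    refine intervalIntegral.integral_congr fun r _ => ?_
    show (1 + Af F n * zz D r n) * (th D r n * ∑ k, gr F n k * gdv (fun j => rth D j r n) n k) =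
      (1 + Af F n * zz D r n) * (th D r n * (gx F n e * Tc D n e r + gx F n f * Tc D n f r))
    rw [nb_lin F h.toOnb (fun k => gdv (fun j => rth D j r n) n k)]
    rfl
  have hBF := BF_ef F h.toOnb (fun i j => Bo_eq hD h i j)
  have htw : tw D F S n = 2 * taf p q S - 2 * S - 2 * bet (Af F n) (zf p q) S := by
    unfold tw
    rw [nb_bh hD h F hS0.le, ta_eq hD h hS0.le]
  have hLIN : LIN D F S n = 2 * (gx F n e * Rc D n e S + gx F n f * Rc D n f S)
      + 4 * (∫ r in (0 : ℝ)..S, (1 + Af F n * zz D r n) *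
        (th D r n * (gx F n e * Tc D n e r + gx F n f * Tc D n f r)))
      - (2 * taf p q S - 2 * S - 2 * bet (Af F n) (zf p q) S) * (gx F n e ^ 2 + gx F n f ^ 2)
      - bf p q * (gx F n e ^ 2 - gx F n f ^ 2) := by
    unfold LIN
    rw [hL1, hL2, hBF, htw, ← hXe]
  have hEd : ∫ r in (0 : ℝ)..S, Ed D r n =
      ∫ r in (0 : ℝ)..S, (2 * (D.torSq r n * D.dA r n) + D.ρ r n * D.dA r n) := rfl
  rw [hEd]
  have h8 : LIN D F S n
      - 2 * ((RR (Af F n) (zf p q) (fun s => taf p q s - bf p q) S - kap (Af F n) (zf p q) S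
          + (taf p q 0 + bf p q) * (1 + Af F n) ^ 2 / 36) * gx F n e ^ 2
        + (RR (Af F n) (zf p q) (fun s => taf p q s + bf p q) S - kap (Af F n) (zf p q) S
          + (taf p q 0 - bf p q) * (1 + Af F n) ^ 2 / 36) * gx F n f ^ 2)
      - 2 * C * Real.sqrt (XX F n) * (1 / S + Real.sqrt (D.torSq S n * D.dA S n))
      ≤ ∫ r in (0 : ℝ)..S, (2 * (D.torSq r n * D.dA r n) + D.ρ r n * D.dA r n) := by
    rw [hLIN]
    linarith
  have h9 := mul_le_mul_of_nonneg_left h8 (by linarith : (0 : ℝ) ≤ 2 * μ)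
  linarith

end NullQ
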