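import Pool.Agent.Lib.H74Q.K3
import Pool.Agent.Lib.H74Q.K4
import Pool.Agent.Lib.H74Q.L2
import Pool.Agent.Lib.H74Q.N2A
import Pool.Agent.Lib.H74Q.L1
import Pool.Agent.Lib.H74Q.J2

set_option autoImplicit false

/-!
Chunk L3 (M). The integrated inequality at `S`.
Proof. Integrate `pt` over the sphere. `r' = μ wt`, `r = rr F`. Pointwise, with `A' = daX XX`, `v = vi`: let `Q = 2 μ (tw r + 2 bh - BZ + A' v (Zg + XX - XX^2/2 - r XX))` (the integrand of `lin_int`, times `2 μ`). Then (algebra)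
`Q - RH(r') = 2 μ tw (r - r') - 2 μ A' v XX (r - r') + r'^2 - Z2/2 - (3/4) XX^2 + 4 μ^2 (ta 0^2 - Σ Bo^2/2) - Phq (r' - 1 + XX) + dfq (Zg + XX^2/2)`, and with `r'^2 = r^2 - (r - r')(r + r')`, `Phq r' = Phq r - Phq (r - r')`:
`>= (r^2 - Z2/2 - (3/4) XX^2) - (Phq (r - 1 + XX) - dfq (Zg + XX^2/2)) + 4 μ^2 dA 0 - |r - r'| (2 μ tw + 2 μ A' v XX + r + r' + Phq)` (`c2_t12`; `tw >= 0`, `A' >= 0`, `v >= 0`, `r >= 0`, `r' >= 0`). Integrals: `id_boch` (`NullPen.id_boch`), `id_q`,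
`∫ dA 0 = area 0`. Bounds: `tw <= C` (`tw_eq`, `wt_upp`, `-1 <= a <= 1`), `X daX X <= C` (`X daX X = 2 (8 X + 60 X^2)/(1+y)^2 <= 2 (8 X + 60 X^2)/(1+y) <= 4`), `v <= C`, `Phq X <= C (1 + X)` (`fq <= 3 (5 X^2 + 2 X^3)/(2 (30 + X^2)) <= 1 + 3 X..`), so with `|r - r'| <= δ`:
the error is `<= δ (C (1+μ) + r + C (1 + XX))`, and `∫ r = 4 pi - ∫ XX`, `∫ XX <= 4 pi` (`NullPen.int_rr`, `r >= 0`): `<= C' (1 + μ) δ`. Torsion term: `sqrt XX (1/S + sqrt τ) <= (1 + XX)/S + (η XX + τ/η)/2`, `∫ τ = NullU.tt D S`. `∫ (2 ta - 2 S) + LIN`: `lin_int`.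
-/

open MeasureTheory Filter Topology Set
open scoped ContDiff

namespace NullQ

open NullPen (E3 S2 sm proj pd MatterData NullData gr rr XX la Z2 Zg)
open NShell (SFun stdSA)

private theorem l3_int {g : S2 → ℝ} (hg : Continuous g) : Integrable g sm := NShell.stdFr.integrable g hg

private theorem l3_const (r : ℝ) : ∫ _ : S2, r ∂sm = 4 * Real.pi * r := by
  rw [integral_const, NullPen.sm_univ', smul_eq_mul]

private theorem l3_addc {f g : S2 → ℝ} (cf : Continuous f) (cg : Continuous g) (c : ℝ) :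
    ∫ n : S2, (f n + c * g n) ∂sm = (∫ n : S2, f n ∂sm) + c * ∫ n : S2, g n ∂sm := by
  rw [integral_add (l3_int cf) (l3_int (by fun_prop)), integral_const_mul]

private theorem l3_lin {a b p q d r X τ : S2 → ℝ} (ca : Continuous a) (cb : Continuous b) (cp : Continuous p)
    (cq : Continuous q) (cd : Continuous d) (cr : Continuous r) (cX : Continuous X) (cτ : Continuous τ)
    (c1 c2 c3 c4 c5 c6 c7 : ℝ) :
    ∫ n : S2, (a n - 3 / 4 * b n - p n + q n + c1 * d n - c2 * (c3 + r n + 15 * (1 + X n)) -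
        c4 * ((1 + X n) * c5 + (c6 * X n + τ n * c7) / 2)) ∂sm =
      (∫ n : S2, a n ∂sm) - 3 / 4 * (∫ n : S2, b n ∂sm) - (∫ n : S2, p n ∂sm) + (∫ n : S2, q n ∂sm) +
        c1 * (∫ n : S2, d n ∂sm) -
        c2 * (4 * Real.pi * c3 + (∫ n : S2, r n ∂sm) + 15 * (4 * Real.pi + ∫ n : S2, X n ∂sm)) -
        c4 * ((4 * Real.pi + ∫ n : S2, X n ∂sm) * c5 + (c6 * (∫ n : S2, X n ∂sm) + (∫ n : S2, τ n ∂sm) * c7) / 2) := by
  have e : ∀ n : S2, a n - 3 / 4 * b n - p n + q n + c1 * d n - c2 * (c3 + r n + 15 * (1 + X n)) -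
        c4 * ((1 + X n) * c5 + (c6 * X n + τ n * c7) / 2) =
      (((((((a n + (-(3 / 4)) * b n) + (-1) * p n) + 1 * q n) + c1 * d n) + (-c2) * r n) +
        (-(15 * c2) - c4 * c5 - c4 * c6 / 2) * X n) + (-(c4 * c7 / 2)) * τ n) +
        (-(c2 * (c3 + 15)) - c4 * c5) * 1 := fun n => by ring
  simp only [e]
  rw [l3_addc (by fun_prop) continuous_const, l3_addc (by fun_prop) cτ, l3_addc (by fun_prop) cX,
    l3_addc (by fun_prop) cr, l3_addc (by fun_prop) cd, l3_addc (by fun_prop) cq, l3_addc (by fun_prop) cp,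
    l3_addc ca cb, l3_const]
  ring

private theorem l3_alg {μ t r r' A v Z X B b Zt a0 d0 Ph df δ : ℝ} (hμ : 0 < μ) (ht : 0 ≤ t) (hr : 0 ≤ r) (hr' : 0 ≤ r')
    (hA : 0 ≤ A) (hv : 0 ≤ v) (hX : 0 ≤ X) (hPh : 0 ≤ Ph) (h : |r - r'| ≤ δ) (hd : d0 ≤ a0) :
    (r ^ 2 - Zt / 2) - 3 / 4 * X ^ 2 - Ph * (r - 1 + X) + df * (Z + X ^ 2 / 2) + 4 * μ ^ 2 * d0 -
        δ * (2 * μ * t + 2 * μ * (A * v * X) + r + r' + Ph) ≤
      2 * μ * (t * r + 2 * b - B + A * v * (Z + X - X ^ 2 / 2 - r * X)) -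
        (2 * μ * t * r' - r' ^ 2 - 2 * μ * B + 4 * μ * b + 2 * A * (μ * v) * (Z + X - X ^ 2 / 2 - r' * X) + Zt / 2 +
          3 / 4 * X ^ 2 - 4 * μ ^ 2 * a0 + Ph * (r' - 1 + X) - df * (Z + X ^ 2 / 2)) := by
  have hAvX : 0 ≤ A * v * X := by positivity
  have h1 : |2 * μ * t - 2 * μ * (A * v * X) - (r + r') + Ph| ≤ 2 * μ * t + 2 * μ * (A * v * X) + r + r' + Ph := by
    have g1 : 0 ≤ 2 * μ * t := by positivity
    have g2 : 0 ≤ 2 * μ * (A * v * X) := by positivity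
    rw [abs_le]
    constructor <;> linarith
  have h2 : |(r - r') * (2 * μ * t - 2 * μ * (A * v * X) - (r + r') + Ph)| ≤
      δ * (2 * μ * t + 2 * μ * (A * v * X) + r + r' + Ph) := by
    rw [abs_mul]
    exact mul_le_mul h h1 (abs_nonneg _) ((abs_nonneg _).trans h)
  have h3 := (abs_le.1 h2).1
  have h4 : 4 * μ ^ 2 * d0 ≤ 4 * μ ^ 2 * a0 := mul_le_mul_of_nonneg_left hd (by positivity)
  nlinarith [h3, h4]

private theorem l3_Ph {X : ℝ} (hX : 0 ≤ X) : Phq X ≤ 15 * (1 + X) := by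
  unfold Phq fq dfq
  have h1 : 3 * X ^ 2 * (5 + 2 * X) / (2 * (30 + X ^ 2)) ≤ 15 / 2 + 3 * X := by
    rw [div_le_iff₀ (by positivity)]
    nlinarith
  have h2 : X * ((450 * X + 270 * X ^ 2 + 3 * X ^ 4) / (30 + X ^ 2) ^ 2) ≤ 15 / 2 + 15 / 2 * X := by
    rw [← mul_div_assoc, div_le_iff₀ (by positivity)]
    have g1 : 0 ≤ X ^ 3 := by positivity
    have g2 : 0 ≤ X ^ 4 := by positivity
    have g3 : 0 ≤ X ^ 5 := by positivity
    have g4 : 0 ≤ X ^ 2 := by positivity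
    nlinarith
  linarith

private theorem l3_dX {X : ℝ} (hX : 0 ≤ X) : 0 ≤ daX X ∧ daX X * X ≤ 4 := by
  have hy := j2_y hX
  refine ⟨?_, ?_⟩
  · unfold daX
    positivity
  · unfold daX
    rw [div_mul_eq_mul_div, div_le_iff₀ (by positivity)]
    unfold yX at *
    nlinarith [sq_nonneg (8 * X + 30 * X ^ 2)]

private theorem l3_sq {X τ S η : ℝ} (hX : 0 ≤ X) (hτ : 0 ≤ τ) (hS : 0 < S) (hη : 0 < η) :
    Real.sqrt X * (1 / S + Real.sqrt τ) ≤ (1 + X) * S⁻¹ + (η * X + τ * η⁻¹) / 2 := by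
  have g1 := Real.sq_sqrt hX
  have g2 := Real.sq_sqrt hτ
  have g3 : Real.sqrt X ≤ 1 + X := by nlinarith [sq_nonneg (Real.sqrt X - 1)]
  have g4 : Real.sqrt X * Real.sqrt τ ≤ (η * X + τ * η⁻¹) / 2 := by
    have h1 : 0 ≤ η⁻¹ * (η * Real.sqrt X - Real.sqrt τ) ^ 2 := by positivity
    have h2 : η⁻¹ * (η * Real.sqrt X - Real.sqrt τ) ^ 2 =
        η * Real.sqrt X ^ 2 - 2 * (Real.sqrt X * Real.sqrt τ) + Real.sqrt τ ^ 2 * η⁻¹ := by
      field_simp
      ring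
    rw [h2, g1, g2] at h1
    linarith
  have g5 : Real.sqrt X * S⁻¹ ≤ (1 + X) * S⁻¹ := mul_le_mul_of_nonneg_right g3 (by positivity)
  rw [mul_add, one_div]
  linarith

theorem int_S {D : MatterData} (hD : D.Quiet) : ∃ C : ℝ, 0 ≤ C ∧ ∀ (F : SFun), (∀ n, 0 ≤ rr F n) → ∀ S, 1 ≤ S → ∀ μ δ η : ℝ, 0 < μ → 0 ≤ δ → 0 < η →
    (∀ n, |rr F n - μ * wt D S n| ≤ δ) →
    4 * Real.pi + 4 * μ ^ 2 * D.area 0 - C * (1 + μ) * δ - C * μ * (1 / S + η + NullU.tt D S / η) ≤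
      2 * μ * ((∫ n : S2, (2 * ta D S n - 2 * S) ∂sm) + ∫ n : S2, (∫ r in (0 : ℝ)..S, Ed D r n) ∂sm) := by
  have hπ := Real.pi_pos
  obtain ⟨C0, hC0, hpt⟩ := pt hD
  obtain ⟨C, hC, hup⟩ := wt_upp hD
  obtain ⟨c, hc, hlow⟩ := wt_low hD
  refine ⟨60 * Real.pi * C + 124 * Real.pi + 16 * Real.pi * C0, by positivity, ?_⟩
  intro F hF0 S hS μ δ η hμ hδ hη hF
  have hS0 : 0 ≤ S := by linarith
  have hSp : 0 < S := by linarith
  -- continuity
  have cr := NullPen.rr_cont F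
  have cX := NullPen.XX_cont F
  have cZ2 := NullPen.Z2_cont F
  have cZg := NullPen.Zg_cont F
  have cPh := c_Phq F
  have cdf := c_dfq F
  have cda := c_daX F
  have cA := c_aX F
  have cz := c_zi hD hS0
  have cv := c_vi hD hS0
  have cta := c_ta' hD hS0
  have cLIN := c_LIN hD F hS0
  have cdA : Continuous (fun n : S2 => D.dA 0 n) := NullU.dA_cont_at hD.null le_rfl
  have cτ : Continuous (fun n : S2 => D.torSq S n * D.dA S n) :=
    NullPen.cont_at (F := fun s (n : S2) => D.torSq s n * D.dA s n) (NullU.tor_cont hD.null) hS0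
  have cEd : Continuous (fun n : S2 => ∫ r in (0 : ℝ)..S, Ed D r n) :=
    NullPen.cont_at (F := fun s (n : S2) => ∫ r in (0 : ℝ)..s, Ed D r n) (NullPen.cont_int (c_Ed hD)) hS0
  have cbh : Continuous (bh D F S) := by
    unfold bh
    fun_prop
  have ctw : Continuous (tw D F S) := by
    unfold tw
    fun_prop
  have cBZ : Continuous (BZ D F) := by
    unfold BZ
    refine continuous_finsetSum _ fun i _ => continuous_finsetSum _ fun j _ => ?_
    exact (c_Bo hD.null hD.flat i j).mul (NShell.SFun_cont _)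
  have cQ : Continuous (fun n : S2 => tw D F S n * rr F n + 2 * bh D F S n - BZ D F n +
        daX (XX F n) * vi D S n * (Zg F n + XX F n - XX F n ^ 2 / 2 - rr F n * XX F n)) := by fun_prop
  have hX := NullPen.XX_nonneg F
  -- the pointwise inequality
  have hpw : ∀ n : S2, ((rr F n ^ 2 - Z2 F n / 2) - 3 / 4 * XX F n ^ 2 - Phq (XX F n) * (rr F n - 1 + XX F n) +
        dfq (XX F n) * (Zg F n + XX F n ^ 2 / 2) + 4 * μ ^ 2 * D.dA 0 n -
        δ * (15 * C * μ + rr F n + 15 * (1 + XX F n)) -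
        2 * μ * C0 * ((1 + XX F n) * S⁻¹ + (η * XX F n + (D.torSq S n * D.dA S n) * η⁻¹) / 2)) +
        2 * μ * (2 * ta D S n - 2 * S + LIN D F S n) +
        (-(2 * μ)) * (tw D F S n * rr F n + 2 * bh D F S n - BZ D F n +
        daX (XX F n) * vi D S n * (Zg F n + XX F n - XX F n ^ 2 / 2 - rr F n * XX F n)) ≤
      2 * μ * (2 * ta D S n - 2 * S) + 2 * μ * (∫ r in (0 : ℝ)..S, Ed D r n) := by
    intro n
    have h1 := hpt F S hS μ hμ n
    obtain ⟨w1, w2, w3, w4⟩ := hup S hS0 n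
    have w5 := hlow S hS0 n
    have hXn := hX n
    have a1 := aX_ge hXn
    have a2 := aX_le hXn
    have htw : tw D F S n = wt D S n + (1 - aX (XX F n)) * vi D S n := tw_eq D F S n
    have ht0 : 0 ≤ tw D F S n := by
      rw [htw]
      have : 0 ≤ (1 - aX (XX F n)) * vi D S n := mul_nonneg (by linarith) w2
      linarith
    have ht1 : tw D F S n ≤ 3 * C := by
      rw [htw]
      have g1 : (1 - aX (XX F n)) * vi D S n ≤ 2 * C := by
        calc (1 - aX (XX F n)) * vi D S n ≤ 2 * vi D S n := mul_le_mul_of_nonneg_right (by linarith) w2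
          _ ≤ 2 * C := by linarith
      linarith
    obtain ⟨A0, A1⟩ := l3_dX hXn
    have hr'0 : 0 ≤ μ * wt D S n := mul_nonneg hμ.le (by linarith)
    have hPh0 := Phq_nonneg hXn
    have h2 := l3_alg (Zt := Z2 F n) (Z := Zg F n) (B := BZ D F n) (b := bh D F S n) (df := dfq (XX F n))
      hμ ht0 (hF0 n) hr'0 A0 w2 hXn hPh0 (hF n) (c2_t12 hD n)
    have hτ : 0 ≤ D.torSq S n * D.dA S n := mul_nonneg (NullU.tor_nonneg hD.null n hS0) (Real.sqrt_nonneg _)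
    have h3 := l3_sq hXn hτ hSp hη
    have h4 : 2 * μ * (C0 * Real.sqrt (XX F n) * (1 / S + Real.sqrt (D.torSq S n * D.dA S n))) ≤
        2 * μ * C0 * ((1 + XX F n) * S⁻¹ + (η * XX F n + (D.torSq S n * D.dA S n) * η⁻¹) / 2) := by
      have e1 : 2 * μ * (C0 * Real.sqrt (XX F n) * (1 / S + Real.sqrt (D.torSq S n * D.dA S n))) =
          2 * μ * C0 * (Real.sqrt (XX F n) * (1 / S + Real.sqrt (D.torSq S n * D.dA S n))) := by ring
      rw [e1]
      exact mul_le_mul_of_nonneg_left h3 (by positivity)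
    have h5 : δ * (2 * μ * tw D F S n + 2 * μ * (daX (XX F n) * vi D S n * XX F n) + rr F n + μ * wt D S n +
        Phq (XX F n)) ≤ δ * (15 * C * μ + rr F n + 15 * (1 + XX F n)) := by
      refine mul_le_mul_of_nonneg_left ?_ hδ
      have g1 : 2 * μ * tw D F S n ≤ 2 * μ * (3 * C) := mul_le_mul_of_nonneg_left ht1 (by positivity)
      have g2 : daX (XX F n) * vi D S n * XX F n ≤ 4 * C := by
        have e1 : daX (XX F n) * vi D S n * XX F n = (daX (XX F n) * XX F n) * vi D S n := by ring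
        rw [e1]
        exact mul_le_mul A1 w3 w2 (by norm_num)
      have g3 : 2 * μ * (daX (XX F n) * vi D S n * XX F n) ≤ 2 * μ * (4 * C) :=
        mul_le_mul_of_nonneg_left g2 (by positivity)
      have g4 : μ * wt D S n ≤ μ * C := mul_le_mul_of_nonneg_left w1 hμ.le
      have g5 := l3_Ph hXn
      linarith
    unfold RH at h1
    linarith
  have hI := integral_mono (μ := sm) (l3_int (by fun_prop)) (l3_int (by fun_prop)) hpw
  rw [l3_addc (by fun_prop) cQ, l3_addc (by fun_prop) (by fun_prop), lin_int hD F hS0] at hI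
  have hI2 : ∫ n : S2, (2 * μ * (2 * ta D S n - 2 * S) + 2 * μ * (∫ r in (0 : ℝ)..S, Ed D r n)) ∂sm =
      2 * μ * ((∫ n : S2, (2 * ta D S n - 2 * S) ∂sm) + ∫ n : S2, (∫ r in (0 : ℝ)..S, Ed D r n) ∂sm) := by
    rw [l3_addc (by fun_prop) cEd, integral_const_mul]
    ring
  rw [hI2, l3_lin (a := fun n => rr F n ^ 2 - Z2 F n / 2) (b := fun n => XX F n ^ 2)
    (p := fun n => Phq (XX F n) * (rr F n - 1 + XX F n)) (q := fun n => dfq (XX F n) * (Zg F n + XX F n ^ 2 / 2))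
    (d := fun n => D.dA 0 n) (r := rr F) (X := XX F) (τ := fun n => D.torSq S n * D.dA S n)
    (by fun_prop) (by fun_prop) (by fun_prop) (by fun_prop) cdA cr cX cτ, NullPen.id_boch, id_q, NullPen.int_rr] at hI
  have hA : ∫ n : S2, D.dA 0 n ∂sm = D.area 0 := rfl
  have hT : ∫ n : S2, D.torSq S n * D.dA S n ∂sm = NullU.tt D S := rfl
  rw [hA, hT] at hI
  have IX0 : 0 ≤ ∫ n : S2, XX F n ∂sm := integral_nonneg hX
  have IX1 : ∫ n : S2, XX F n ∂sm ≤ 4 * Real.pi := by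
    have h1 : 0 ≤ ∫ n : S2, rr F n ∂sm := integral_nonneg hF0
    rw [NullPen.int_rr] at h1
    linarith
  have ht0 := NullU.tt_nonneg hD.null hS0
  refine le_trans ?_ hI
  have k1 : δ * (4 * Real.pi * (15 * C * μ) + (4 * Real.pi - ∫ n : S2, XX F n ∂sm) +
      15 * (4 * Real.pi + ∫ n : S2, XX F n ∂sm)) ≤ (60 * Real.pi * C + 124 * Real.pi) * (1 + μ) * δ := by
    have g1 : 4 * Real.pi * (15 * C * μ) + (4 * Real.pi - ∫ n : S2, XX F n ∂sm) +
      15 * (4 * Real.pi + ∫ n : S2, XX F n ∂sm) ≤ (60 * Real.pi * C + 124 * Real.pi) * (1 + μ) := by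
      have g2 : 0 ≤ Real.pi * C := by positivity
      have g3 : 0 ≤ Real.pi * μ := by positivity
      nlinarith
    rw [mul_comm _ δ]
    exact mul_le_mul_of_nonneg_left g1 hδ
  have k2 : 2 * μ * C0 * ((4 * Real.pi + ∫ n : S2, XX F n ∂sm) * S⁻¹ + (η * (∫ n : S2, XX F n ∂sm) +
      NullU.tt D S * η⁻¹) / 2) ≤ 16 * Real.pi * C0 * μ * (1 / S + η + NullU.tt D S / η) := by
    have g1 : (4 * Real.pi + ∫ n : S2, XX F n ∂sm) * S⁻¹ ≤ 8 * Real.pi * (1 / S) := by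
      rw [one_div]
      exact mul_le_mul_of_nonneg_right (by linarith) (by positivity)
    have g2 : η * (∫ n : S2, XX F n ∂sm) ≤ 16 * Real.pi * η := by nlinarith
    have g3 : NullU.tt D S * η⁻¹ ≤ 16 * Real.pi * (NullU.tt D S / η) := by
      rw [← div_eq_mul_inv]
      have : 0 ≤ NullU.tt D S / η := by positivity
      have h3 := Real.pi_gt_three
      nlinarith
    have g4 : (4 * Real.pi + ∫ n : S2, XX F n ∂sm) * S⁻¹ + (η * (∫ n : S2, XX F n ∂sm) +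
      NullU.tt D S * η⁻¹) / 2 ≤ 8 * Real.pi * (1 / S + η + NullU.tt D S / η) := by linarith
    have g5 := mul_le_mul_of_nonneg_left g4 (by positivity : 0 ≤ 2 * μ * C0)
    linarith
  have k3 : 0 ≤ 16 * Real.pi * C0 * (1 + μ) * δ := by positivity
  have k4 : 0 ≤ (60 * Real.pi * C + 124 * Real.pi) * μ * (1 / S + η + NullU.tt D S / η) := by positivity
  linarith

end NullQ
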