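import Pool.Agent.Lib.H74Q.L1
import Pool.Agent.Lib.H74Q.L3
import Pool.Agent.Lib.H17U.LM1

set_option autoImplicit false

/-!
Chunk L4 (M). The limit `S → ∞`.
Proof. `S1 >= 1`, `S >= S1`: `|rr - μ wt S| <= δ + μ C/S1 =: δ'` (`wt_mono`, `wt_incr`). `int_S` with `δ'`, and `energy_q`, `∫ (TT - 2 S) = ∫ (2 ta - 2 S) - ∫ (2 ta - TT)`: for all `S >= S1`
`4 pi + 4 μ^2 area 0 - C (1+μ) δ' - C μ (1/S + η + tt S/η) <= 2 μ (sqrt (16 pi area S) - Th S + C/S + ∫ (2 ta - TT))`. Given `ε`: choose `η = ε`, then `S` large with `tt S <= ε^2` (`NullU.tor_small`: `S tt S < ε^2`, `S >= 1`), `sqrt (16 pi area S) - Th S <= 16 pi E + ε` (`BondiEnergy`),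
`∫ (2 ta - TT) <= ε` (`gap`), `1/S <= ε`. Let `ε → 0`.
-/

open MeasureTheory Filter Topology Set
open scoped ContDiff

namespace NullQ

open NullPen (E3 S2 sm proj pd MatterData NullData gr rr XX la Z2 Zg)
open NShell (SFun stdSA)

private theorem l4_int {g : S2 → ℝ} (hg : Continuous g) : Integrable g sm := NShell.stdFr.integrable g hg

private theorem l4_cTT {D : MatterData} (hD : D.Quiet) {S : ℝ} (hS : 0 ≤ S) : Continuous (fun n : S2 => TT D S n) :=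
  NullPen.cont_at (F := fun s (n : S2) => TT D s n) (c_TT hD.null) hS

private theorem l4_wt {D : MatterData} (hD : D.Quiet) {C3 : ℝ}
    (h3 : ∀ S1 S, 1 ≤ S1 → S1 ≤ S → ∀ n : S2, wt D S n - wt D S1 n ≤ C3 / S1)
    {S1 S : ℝ} (hS1 : 1 ≤ S1) (hS : S1 ≤ S) {F : SFun} {μ δ : ℝ} (hμ : 0 < μ)
    (hF : ∀ n, |rr F n - μ * wt D S1 n| ≤ δ) (n : S2) :
    |rr F n - μ * wt D S n| ≤ δ + μ * (C3 / S1) := by
  have a1 := hF n
  have a2 := h3 S1 S hS1 hS n
  have a3 := wt_mono hD (by linarith : 0 ≤ S1) hS n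
  have a4 : μ * (wt D S n - wt D S1 n) ≤ μ * (C3 / S1) := mul_le_mul_of_nonneg_left a2 hμ.le
  have a5 : 0 ≤ μ * (wt D S n - wt D S1 n) := mul_nonneg hμ.le (by linarith)
  have a6 : rr F n - μ * wt D S n = (rr F n - μ * wt D S1 n) - μ * (wt D S n - wt D S1 n) := by ring
  rw [abs_le] at a1 ⊢
  rw [a6]
  constructor
  · linarith [a1.1]
  · linarith [a1.2]

private theorem l4_ev {D : MatterData} (hD : D.Quiet) {E : ℝ} (hE : D.BondiEnergy E) (S1 : ℝ) {ε : ℝ} (hε : 0 < ε) :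
    ∃ S, S1 ≤ S ∧ 1 ≤ S ∧ NullU.tt D S ≤ ε ^ 2 ∧ Real.sqrt (16 * Real.pi * D.area S) - NullPen.Th D S ≤ 16 * Real.pi * (E + ε) ∧
      (∫ n : S2, (2 * ta D S n - TT D S n) ∂sm) ≤ ε ∧ 1 / S ≤ ε := by
  have hπ := Real.pi_pos
  have h1 : ∀ᶠ S in atTop, (Real.sqrt (16 * Real.pi * D.area S) - ∫ n : S2, D.θ S n * D.dA S n ∂sm)
      / (16 * Real.pi) < E + ε := hE.eventually_lt_const (by linarith)
  have h2 : ∀ᶠ S in atTop, (∫ n : S2, (2 * ta D S n - TT D S n) ∂sm) < ε := (gap hD).eventually_lt_const hε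
  have h3 : ∀ᶠ S : ℝ in atTop, 1 / ε ≤ S := eventually_ge_atTop _
  obtain ⟨S0, hS0⟩ := (((h1.and h2).and h3).and (eventually_ge_atTop S1)).exists_forall_of_atTop
  obtain ⟨T, hT, hT1, hT2⟩ := NullU.tor_small hD.null hD.flat hD.trapped hE (pow_pos hε 2) S0
  obtain ⟨⟨⟨b1, b2⟩, b3⟩, b4⟩ := hS0 T hT
  refine ⟨T, b4, hT1, ?_, ?_, b2.le, ?_⟩
  · have h4 := NullU.tt_nonneg hD.null (by linarith : 0 ≤ T)
    nlinarith
  · have b1' : (Real.sqrt (16 * Real.pi * D.area T) - NullPen.Th D T) / (16 * Real.pi) < E + ε := b1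
    rw [div_lt_iff₀ (by positivity)] at b1'
    linarith
  · rw [div_le_iff₀ hε] at b3
    rw [div_le_iff₀ (by linarith)]
    linarith

theorem lim_q {D : MatterData} (hD : D.Quiet) : ∃ C : ℝ, 0 ≤ C ∧ ∀ E, D.BondiEnergy E → ∀ S1, 1 ≤ S1 → ∀ F : SFun, (∀ n, 0 ≤ rr F n) →
    ∀ μ δ : ℝ, 0 < μ → 0 ≤ δ → (∀ n, |rr F n - μ * wt D S1 n| ≤ δ) →
    4 * Real.pi + 4 * μ ^ 2 * D.area 0 ≤ 32 * Real.pi * μ * E + C * (1 + μ) * (δ + μ / S1) := by
  have hπ := Real.pi_pos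
  obtain ⟨C1, hC1, h1⟩ := int_S hD
  obtain ⟨C2, hC2, h2⟩ := energy_q hD
  obtain ⟨C3, hC3, h3⟩ := wt_incr hD
  refine ⟨C1 * (1 + C3), by positivity, ?_⟩
  intro E hE S1 hS1 F hF0 μ δ hμ hδ hF
  have hS1' : 0 < S1 := by linarith
  have key : 4 * Real.pi + 4 * μ ^ 2 * D.area 0 ≤ 32 * Real.pi * μ * E + C1 * (1 + μ) * (δ + μ * (C3 / S1)) := by
    refine le_of_forall_pos_le_add fun η hη => ?_
    set M := 3 * C1 * μ + 2 * μ * (16 * Real.pi + C2 + 1) with hM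
    have hM0 : 0 < M := by positivity
    have hε : 0 < η / M := by positivity
    obtain ⟨S, c1, c2, c3, c4, c5, c6⟩ := l4_ev hD hE S1 hε
    have hS : 0 ≤ S := by linarith
    set ε := η / M with hεd
    have d1 := h1 F hF0 S c2 μ (δ + μ * (C3 / S1)) ε hμ (by positivity) hε (l4_wt hD h3 hS1 c1 hμ hF)
    have d2 := h2 S c2
    have e1 : ∫ n : S2, (2 * ta D S n - 2 * S) ∂sm =
        (∫ n : S2, (TT D S n - 2 * S) ∂sm) + ∫ n : S2, (2 * ta D S n - TT D S n) ∂sm := by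
      have cT := l4_cTT hD hS
      have ct := c_ta' hD hS
      rw [← integral_add (l4_int (by fun_prop)) (l4_int (by fun_prop))]
      refine integral_congr_ae (Eventually.of_forall fun n => ?_)
      change 2 * ta D S n - 2 * S = (TT D S n - 2 * S) + (2 * ta D S n - TT D S n)
      ring
    have e2 : C2 / S ≤ C2 * ε := by
      have : C2 / S = C2 * (1 / S) := by ring
      rw [this]
      exact mul_le_mul_of_nonneg_left c6 hC2
    have e3 : NullU.tt D S / ε ≤ ε := by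
      rw [div_le_iff₀ hε]
      linarith [c3, sq ε]
    have e4 : C1 * μ * (1 / S + ε + NullU.tt D S / ε) ≤ C1 * μ * (3 * ε) :=
      mul_le_mul_of_nonneg_left (by linarith) (by positivity)
    rw [e1] at d1
    have e5 : 2 * μ * ((∫ n : S2, (TT D S n - 2 * S) ∂sm) + (∫ n : S2, (2 * ta D S n - TT D S n) ∂sm) +
        ∫ n : S2, (∫ r in (0 : ℝ)..S, Ed D r n) ∂sm) ≤ 2 * μ * (16 * Real.pi * (E + ε) + C2 * ε + ε) :=
      mul_le_mul_of_nonneg_left (by linarith) (by positivity)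
    have e6 : ε * M = η := by
      rw [hεd]
      field_simp
    have e7 : 2 * μ * (16 * Real.pi * (E + ε) + C2 * ε + ε) + C1 * μ * (3 * ε) = 32 * Real.pi * μ * E + ε * M := by
      rw [hM]
      ring
    linarith
  refine key.trans ?_
  have f1 : δ + μ * (C3 / S1) ≤ (1 + C3) * (δ + μ / S1) := by
    have g1 : 0 ≤ C3 * δ := by positivity
    have g2 : 0 ≤ μ / S1 := by positivity
    have g3 : μ * (C3 / S1) = C3 * (μ / S1) := by ring
    nlinarith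
  have f2 : C1 * (1 + μ) * (δ + μ * (C3 / S1)) ≤ C1 * (1 + μ) * ((1 + C3) * (δ + μ / S1)) :=
    mul_le_mul_of_nonneg_left f1 (by positivity)
  have f3 : C1 * (1 + μ) * ((1 + C3) * (δ + μ / S1)) = C1 * (1 + C3) * (1 + μ) * (δ + μ / S1) := by ring
  linarith

end NullQ
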