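import Pool.Agent.Lib.H74Q.L4
import Pool.Agent.Lib.H74P.PE
import Pool.Agent.Lib.H74P.SW
import Pool.Agent.Lib.NullShell.RV

set_option autoImplicit false

/-!
Chunk M1 (M). The final inequality.
Proof (compare `Lib/H74P/FF.lean`). `c` from `wt_low`. `S1 >= 1`, `0 < δ0 <= c/2`: `s` an `SFun` with `|s - wt S1| <= δ0` (`NullPen.approx`, `c_wt`), `s >= c/2 > 0`; `μ` from `NullPen.perr`; `ε = min (μ δ0) 1` and `F` with `|rr F - μ s| <= ε`. `rr F >= μ s - ε >= μ c/2 - μ δ0 >= 0`.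
`|rr F - μ wt S1| <= δ := ε + μ δ0 <= 2 μ δ0`. `μ c/2 * 4 pi <= ∫ μ s <= ∫ (rr F + ε) <= 4 pi + 4 pi` (`int_rr`: `∫ rr F = 4 pi - ∫ XX <= 4 pi`), so `μ <= 4/c`. `lim_q`: `8 μ sqrt (pi area 0) <= 4 pi + 4 μ^2 area 0 <= 32 pi μ E + C (1+μ) μ (2 δ0 + 1/S1)`; divide by `μ`:
`8 sqrt (pi area 0) <= 32 pi E + C (1 + 4/c) (2 δ0 + 1/S1)`. Let `δ0 → 0`, `S1 → ∞`. `sqrt (area 0/(16 pi)) = sqrt (pi area 0)/(4 pi)`.
-/

open MeasureTheory Filter Topology Set
open scoped ContDiff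

namespace NullQ

open NullPen (E3 S2 sm proj pd MatterData NullData gr rr XX la Z2 Zg)
open NShell (SFun stdSA)

private theorem m1_int {g : S2 → ℝ} (hg : Continuous g) : Integrable g sm := NShell.stdFr.integrable g hg

private theorem m1_const (r : ℝ) : ∫ _ : S2, r ∂sm = 4 * Real.pi * r := by
  rw [integral_const, NullPen.sm_univ', smul_eq_mul]

private theorem m1_area {D : MatterData} (hD : D.Quiet) : 0 ≤ D.area 0 := by
  unfold NullPen.NullData.area
  exact integral_nonneg fun n => Real.sqrt_nonneg _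

private theorem m1_step {D : MatterData} (hD : D.Quiet) {E : ℝ} {c C : ℝ} (hc : 0 < c) (hC : 0 ≤ C)
    (hw : ∀ S, 0 ≤ S → ∀ n : S2, c ≤ wt D S n)
    (hL : ∀ S1, 1 ≤ S1 → ∀ F : SFun, (∀ n, 0 ≤ rr F n) →
      ∀ μ δ : ℝ, 0 < μ → 0 ≤ δ → (∀ n, |rr F n - μ * wt D S1 n| ≤ δ) →
      4 * Real.pi + 4 * μ ^ 2 * D.area 0 ≤ 32 * Real.pi * μ * E + C * (1 + μ) * (δ + μ / S1))
    {S1 δ0 : ℝ} (hS1 : 1 ≤ S1) (hδ0 : 0 < δ0) (hδc : δ0 ≤ c / 2) :
    8 * Real.sqrt (Real.pi * D.area 0) ≤ 32 * Real.pi * E + C * (1 + 4 / c) * (2 * δ0 + 1 / S1) := by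
  have hπ := Real.pi_pos
  have hS0 : 0 ≤ S1 := by linarith
  obtain ⟨s, hs⟩ := NullPen.approx (c_wt hD hS0) hδ0
  have hsm : ∀ n, c / 2 ≤ s.1 n := by
    intro n
    have h1 := (abs_le.1 (hs n)).1
    have h2 := hw S1 hS0 n
    linarith
  obtain ⟨μ, hμ, hP⟩ := NullPen.perr s fun n => lt_of_lt_of_le (by linarith) (hsm n)
  set ε : ℝ := min (μ * δ0) 1 with hε
  have hε0 : 0 < ε := lt_min (by positivity) one_pos
  have hε1 : ε ≤ μ * δ0 := min_le_left _ _
  have hε2 : ε ≤ 1 := min_le_right _ _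
  obtain ⟨F, hF⟩ := hP ε hε0
  have hrs : ∀ n, μ * s.1 n - ε ≤ rr F n := fun n => by
    have := (abs_le.1 (hF n)).1
    linarith
  have hr0 : ∀ n, 0 ≤ rr F n := by
    intro n
    have h1 := hrs n
    have h2 : μ * (c / 2) ≤ μ * s.1 n := mul_le_mul_of_nonneg_left (hsm n) hμ.le
    have h3 : μ * δ0 ≤ μ * (c / 2) := mul_le_mul_of_nonneg_left hδc hμ.le
    linarith
  have hrh : ∀ n, |rr F n - μ * wt D S1 n| ≤ 2 * (μ * δ0) := by
    intro n
    have h1 := hF n
    have h2 := hs n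
    have h3 : |μ * s.1 n - μ * wt D S1 n| ≤ μ * δ0 := by
      rw [← mul_sub, abs_mul, abs_of_pos hμ]
      exact mul_le_mul_of_nonneg_left h2 hμ.le
    have h4 := abs_sub_le (rr F n) (μ * s.1 n) (μ * wt D S1 n)
    linarith
  have hμm : μ ≤ 4 / c := by
    have cr := NullPen.rr_cont F
    have Ir := NullPen.int_rr F
    have IX0 : 0 ≤ ∫ n : S2, XX F n ∂sm := integral_nonneg (NullPen.XX_nonneg F)
    have h1 : ∫ n : S2, μ * (c / 2) ∂sm ≤ ∫ n : S2, (rr F n + 1) ∂sm := by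
      refine integral_mono (m1_int continuous_const) (m1_int (by fun_prop)) fun n => ?_
      have h2 : μ * (c / 2) ≤ μ * s.1 n := mul_le_mul_of_nonneg_left (hsm n) hμ.le
      have h3 := hrs n
      change μ * (c / 2) ≤ rr F n + 1
      linarith
    rw [m1_const, integral_add (m1_int cr) (m1_int continuous_const), m1_const] at h1
    rw [le_div_iff₀ hc]
    have h2 : 4 * Real.pi * (μ * (c / 2)) ≤ 4 * Real.pi * 2 := by linarith
    have h3 := le_of_mul_le_mul_left h2 (by positivity)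
    linarith
  have h1 := hL S1 hS1 F hr0 μ (2 * (μ * δ0)) hμ (by positivity) hrh
  have hA := m1_area hD
  have h2 : 8 * μ * Real.sqrt (Real.pi * D.area 0) ≤ 4 * Real.pi + 4 * μ ^ 2 * D.area 0 := by
    have g2 := Real.sq_sqrt hπ.le
    have g3 := Real.sq_sqrt hA
    rw [Real.sqrt_mul hπ.le]
    nlinarith [sq_nonneg (Real.sqrt Real.pi - μ * Real.sqrt (D.area 0))]
  have h3 : C * (1 + μ) * (2 * (μ * δ0) + μ / S1) ≤ μ * (C * (1 + 4 / c) * (2 * δ0 + 1 / S1)) := by
    have e : C * (1 + μ) * (2 * (μ * δ0) + μ / S1) = μ * (C * (1 + μ) * (2 * δ0 + 1 / S1)) := by ring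
    rw [e]
    have hS1' : 0 < S1 := by linarith
    gcongr
  have h4 : μ * (8 * Real.sqrt (Real.pi * D.area 0)) ≤
      μ * (32 * Real.pi * E + C * (1 + 4 / c) * (2 * δ0 + 1 / S1)) := by
    linarith
  exact le_of_mul_le_mul_left h4 hμ

theorem penrose_q {D : MatterData} (hD : D.Quiet) {E : ℝ} (hE : D.BondiEnergy E) : Real.sqrt (D.area 0 / (16 * Real.pi)) ≤ E := by
  have hπ := Real.pi_pos
  obtain ⟨c, hc, hw⟩ := wt_low hD
  obtain ⟨C, hC, hL⟩ := lim_q hD
  have hA := m1_area hD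
  have key : 8 * Real.sqrt (Real.pi * D.area 0) ≤ 32 * Real.pi * E := by
    refine le_of_forall_pos_le_add fun η hη => ?_
    set K := C * (1 + 4 / c) + 1 with hK
    have hK0 : 0 < K := by positivity
    have hd0 : 0 < min (c / 2) (η / (4 * K)) := lt_min (by positivity) (by positivity)
    have hstep := m1_step hD hc hC hw (hL E hE) (S1 := max 1 (2 * K / η)) (le_max_left _ _) hd0 (min_le_left _ _)
    refine hstep.trans ?_
    have h1 : min (c / 2) (η / (4 * K)) ≤ η / (4 * K) := min_le_right _ _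
    have h2 : 1 / max 1 (2 * K / η) ≤ η / (2 * K) := by
      rw [div_le_div_iff₀ (lt_of_lt_of_le one_pos (le_max_left _ _)) (by positivity)]
      have h3 : 2 * K / η ≤ max 1 (2 * K / η) := le_max_right _ _
      rw [div_le_iff₀ hη] at h3
      linarith
    have h3 : C * (1 + 4 / c) * (2 * min (c / 2) (η / (4 * K)) + 1 / max 1 (2 * K / η)) ≤
        K * (2 * (η / (4 * K)) + η / (2 * K)) := by
      have : C * (1 + 4 / c) ≤ K := by rw [hK]; linarith
      have h5 : 0 ≤ 2 * min (c / 2) (η / (4 * K)) + 1 / max 1 (2 * K / η) := by positivity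
      refine mul_le_mul this (by linarith) h5 hK0.le
    have h4 : K * (2 * (η / (4 * K)) + η / (2 * K)) = η := by
      field_simp
      ring
    linarith
  have h1 : Real.sqrt (Real.pi * D.area 0) ≤ 4 * Real.pi * E := by linarith
  have h2 : D.area 0 / (16 * Real.pi) = (Real.sqrt (Real.pi * D.area 0) / (4 * Real.pi)) ^ 2 := by
    rw [div_pow, Real.sq_sqrt (by positivity)]
    field_simp
    ring
  rw [h2, Real.sqrt_sq (by positivity), div_le_iff₀ (by positivity)]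
  linarith

theorem area_pos_q {D : MatterData} (hD : D.Quiet) : 0 < D.area 0 := by
  have hc := NullU.dA_cont_at hD.null (s := 0) le_rfl
  have hne : Nonempty S2 := by
    have h : (Metric.sphere (0 : E3) 1).Nonempty := NormedSpace.sphere_nonempty.2 zero_le_one
    exact h.to_subtype
  obtain ⟨m, hm⟩ := hc.exists_forall_le_of_hasCompactSupport (HasCompactSupport.of_compactSpace _)
  have h0 : 0 < D.dA 0 m := NullU.dA_pos hD.null m le_rfl
  have h2 : ∫ n : S2, D.dA 0 m ∂sm ≤ ∫ n : S2, D.dA 0 n ∂sm :=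
    integral_mono (m1_int continuous_const) (m1_int hc) hm
  rw [m1_const] at h2
  have := Real.pi_pos
  have h4 : 0 < 4 * Real.pi * D.dA 0 m := by positivity
  exact h4.trans_le h2

end NullQ
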