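import Pool.Agent.Lib.H74Q.Sc

set_option autoImplicit false
set_option maxRecDepth 4000

/-!
The polynomial of the certificate 1 is nonnegative (Bernstein forms, generated).
-/

namespace NullQ

theorem tp1_00_0_c0 {x : ℝ} (h0 : 0 ≤ x) (h1 : x ≤ 1) : 0 ≤ (18 / 25) - (1879 / 980) * x + (222 / 245) * x ^ 2 + (232 / 245) * x ^ 3 - (2 / 7) * x ^ 4 := by
  have h : ∀ s u : ℝ, 0 ≤ s → 0 ≤ u → 0 ≤ (18 / 25) * u ^ 9 + (22357 / 4900) * s * u ^ 8 + (14072 / 1225) * s ^ 2 * u ^ 7 + (17253 / 1225) * s ^ 3 * u ^ 6 + (9522 / 1225) * s ^ 4 * u ^ 5 + (2439 / 2450) * s ^ 5 * u ^ 4 + (1108 / 1225) * s ^ 6 * u ^ 3 + (3197 / 1225) * s ^ 7 * u ^ 2 + (304 / 175) * s ^ 8 * u + (37 / 100) * s ^ 9 := by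
    intro s u hs hu
    positivity
  refine le_of_le_of_eq (h x (1 - x) (by linarith) (by linarith)) ?_
  ring

theorem tp1_00_0_c1 {x : ℝ} (h0 : 0 ≤ x) (h1 : x ≤ 1) : 0 ≤ (39 / 100) - (1003 / 1225) * x + (193 / 1225) * x ^ 2 + (614 / 1225) * x ^ 3 + (32 / 175) * x ^ 4 - (3 / 70) * x ^ 5 := by
  have h : ∀ s u : ℝ, 0 ≤ s → 0 ≤ u → 0 ≤ (39 / 100) * u ^ 6 + (3727 / 2450) * s * u ^ 5 + (9377 / 4900) * s ^ 2 * u ^ 4 + (911 / 1225) * s ^ 3 * u ^ 3 + (1441 / 4900) * s ^ 4 * u ^ 2 + (123 / 175) * s ^ 5 * u + (37 / 100) * s ^ 6 := by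
    intro s u hs hu
    positivity
  refine le_of_le_of_eq (h x (1 - x) (by linarith) (by linarith)) ?_
  ring

theorem tp1_00_0_c2 {x : ℝ} (h0 : 0 ≤ x) (h1 : x ≤ 1) : 0 ≤ (159 / 800) - (12903 / 78400) * x - (6767 / 39200) * x ^ 2 + (883 / 15680) * x ^ 3 + (159 / 350) * x ^ 4 + (9 / 2800) * x ^ 5 - (3 / 560) * x ^ 6 := by
  have h : ∀ s u : ℝ, 0 ≤ s → 0 ≤ u → 0 ≤ (159 / 800) * u ^ 6 + (80589 / 78400) * s * u ^ 5 + (155681 / 78400) * s ^ 2 * u ^ 4 + (132889 / 78400) * s ^ 3 * u ^ 3 + (72357 / 78400) * s ^ 4 * u ^ 2 + (851 / 1120) * s ^ 5 * u + (37 / 100) * s ^ 6 := by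
    intro s u hs hu
    positivity
  refine le_of_le_of_eq (h x (1 - x) (by linarith) (by linarith)) ?_
  ring

theorem tp1_00_0_c3 {x : ℝ} (h0 : 0 ≤ x) (h1 : x ≤ 1) : 0 ≤ (171 / 1600) + (29487 / 156800) * x - (42321 / 156800) * x ^ 2 - (48171 / 156800) * x ^ 3 + (2521 / 4480) * x ^ 4 + (147 / 1600) * x ^ 5 - (11 / 5600) * x ^ 6 - (1 / 2240) * x ^ 7 := by
  have h : ∀ s u : ℝ, 0 ≤ s → 0 ≤ u → 0 ≤ (171 / 1600) * u ^ 7 + (146793 / 156800) * s * u ^ 6 + (486519 / 156800) * s ^ 2 * u ^ 5 + (769059 / 156800) * s ^ 3 * u ^ 4 + (648611 / 156800) * s ^ 4 * u ^ 3 + (180549 / 78400) * s ^ 5 * u ^ 2 + (6541 / 5600) * s ^ 6 * u + (37 / 100) * s ^ 7 := by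
    intro s u hs hu
    positivity
  refine le_of_le_of_eq (h x (1 - x) (by linarith) (by linarith)) ?_
  ring

theorem tp1_00_0_c4 {x : ℝ} (h0 : 0 ≤ x) (h1 : x ≤ 1) : 0 ≤ (543 / 6400) + (425841 / 1254400) * x - (78181 / 313600) * x ^ 2 - (352081 / 627200) * x ^ 3 + (12379 / 22400) * x ^ 4 + (33479 / 179200) * x ^ 5 + (383 / 22400) * x ^ 6 - (1 / 4480) * x ^ 7 := by
  have h : ∀ s u : ℝ, 0 ≤ s → 0 ≤ u → 0 ≤ (543 / 6400) * u ^ 7 + (1170837 / 1254400) * s * u ^ 6 + (447731 / 125440) * s ^ 2 * u ^ 5 + (7844813 / 1254400) * s ^ 3 * u ^ 4 + (218473 / 39200) * s ^ 4 * u ^ 3 + (112013 / 39200) * s ^ 5 * u ^ 2 + (19 / 16) * s ^ 6 * u + (37 / 100) * s ^ 7 := by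
    intro s u hs hu
    positivity
  refine le_of_le_of_eq (h x (1 - x) (by linarith) (by linarith)) ?_
  ring

theorem tp1_00_0_c5 {x : ℝ} (h0 : 0 ≤ x) (h1 : x ≤ 1) : 0 ≤ (2829 / 25600) + (5643 / 15680) * x - (22577 / 125440) * x ^ 2 - (8857 / 12544) * x ^ 3 + (16719 / 35840) * x ^ 4 + (11839 / 44800) * x ^ 5 + (33 / 640) * x ^ 6 + (3 / 896) * x ^ 7 := by
  have h : ∀ s u : ℝ, 0 ≤ s → 0 ≤ u → 0 ≤ (2829 / 25600) * u ^ 7 + (1421787 / 1254400) * s * u ^ 6 + (5393911 / 1254400) * s ^ 2 * u ^ 5 + (1921757 / 250880) * s ^ 3 * u ^ 4 + (21663 / 3136) * s ^ 4 * u ^ 3 + (131179 / 39200) * s ^ 5 * u ^ 2 + (3327 / 2800) * s ^ 6 * u + (37 / 100) * s ^ 7 := by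
    intro s u hs hu
    positivity
  refine le_of_le_of_eq (h x (1 - x) (by linarith) (by linarith)) ?_
  ring

theorem tp1_00_0 {x w : ℝ} (h0 : 0 ≤ x) (h1 : x ≤ 1) (h2 : 0 ≤ w) (h3 : w ≤ 1 / 4) :
    0 ≤ Tp (5 / 7) (8 / 5) (6 / 5) 3 (7 / 25) (9 / 50) (1 / 20) 0 x w 0 := by
  have hp : 0 ≤ w := by linarith
  have hr : 0 ≤ ((1 / 4) - w) := by linarith
  have b0 := tp1_00_0_c0 h0 h1
  have m0 : 0 ≤ 1024 * ((1 / 4) - w) ^ 5 := by positivity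
  have b1 := tp1_00_0_c1 h0 h1
  have m1 : 0 ≤ 5120 * w * ((1 / 4) - w) ^ 4 := by positivity
  have b2 := tp1_00_0_c2 h0 h1
  have m2 : 0 ≤ 10240 * w ^ 2 * ((1 / 4) - w) ^ 3 := by positivity
  have b3 := tp1_00_0_c3 h0 h1
  have m3 : 0 ≤ 10240 * w ^ 3 * ((1 / 4) - w) ^ 2 := by positivity
  have b4 := tp1_00_0_c4 h0 h1
  have m4 : 0 ≤ 5120 * w ^ 4 * ((1 / 4) - w) := by positivity
  have b5 := tp1_00_0_c5 h0 h1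
  have m5 : 0 ≤ 1024 * w ^ 5 := by positivity
  have e : Tp (5 / 7) (8 / 5) (6 / 5) 3 (7 / 25) (9 / 50) (1 / 20) 0 x w 0 = (1024 * ((1 / 4) - w) ^ 5) * ((18 / 25) - (1879 / 980) * x + (222 / 245) * x ^ 2 + (232 / 245) * x ^ 3 - (2 / 7) * x ^ 4) +
      (5120 * w * ((1 / 4) - w) ^ 4) * ((39 / 100) - (1003 / 1225) * x + (193 / 1225) * x ^ 2 + (614 / 1225) * x ^ 3 + (32 / 175) * x ^ 4 - (3 / 70) * x ^ 5) +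
      (10240 * w ^ 2 * ((1 / 4) - w) ^ 3) * ((159 / 800) - (12903 / 78400) * x - (6767 / 39200) * x ^ 2 + (883 / 15680) * x ^ 3 + (159 / 350) * x ^ 4 + (9 / 2800) * x ^ 5 - (3 / 560) * x ^ 6) +
      (10240 * w ^ 3 * ((1 / 4) - w) ^ 2) * ((171 / 1600) + (29487 / 156800) * x - (42321 / 156800) * x ^ 2 - (48171 / 156800) * x ^ 3 + (2521 / 4480) * x ^ 4 + (147 / 1600) * x ^ 5 - (11 / 5600) * x ^ 6 - (1 / 2240) * x ^ 7) +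
      (5120 * w ^ 4 * ((1 / 4) - w)) * ((543 / 6400) + (425841 / 1254400) * x - (78181 / 313600) * x ^ 2 - (352081 / 627200) * x ^ 3 + (12379 / 22400) * x ^ 4 + (33479 / 179200) * x ^ 5 + (383 / 22400) * x ^ 6 - (1 / 4480) * x ^ 7) +
      (1024 * w ^ 5) * ((2829 / 25600) + (5643 / 15680) * x - (22577 / 125440) * x ^ 2 - (8857 / 12544) * x ^ 3 + (16719 / 35840) * x ^ 4 + (11839 / 44800) * x ^ 5 + (33 / 640) * x ^ 6 + (3 / 896) * x ^ 7) := by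
    unfold Tp
    push_cast
    ring
  rw [e]
  exact add_nonneg (add_nonneg (add_nonneg (add_nonneg (add_nonneg (mul_nonneg m0 b0) (mul_nonneg m1 b1)) (mul_nonneg m2 b2)) (mul_nonneg m3 b3)) (mul_nonneg m4 b4)) (mul_nonneg m5 b5)

theorem tp1_00_1_c0 {x : ℝ} (h0 : 0 ≤ x) (h1 : x ≤ 1) : 0 ≤ (2829 / 25600) + (5643 / 15680) * x - (22577 / 125440) * x ^ 2 - (8857 / 12544) * x ^ 3 + (16719 / 35840) * x ^ 4 + (11839 / 44800) * x ^ 5 + (33 / 640) * x ^ 6 + (3 / 896) * x ^ 7 := by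
  have h : ∀ s u : ℝ, 0 ≤ s → 0 ≤ u → 0 ≤ (2829 / 25600) * u ^ 7 + (1421787 / 1254400) * s * u ^ 6 + (5393911 / 1254400) * s ^ 2 * u ^ 5 + (1921757 / 250880) * s ^ 3 * u ^ 4 + (21663 / 3136) * s ^ 4 * u ^ 3 + (131179 / 39200) * s ^ 5 * u ^ 2 + (3327 / 2800) * s ^ 6 * u + (37 / 100) * s ^ 7 := by
    intro s u hs hu
    positivity
  refine le_of_le_of_eq (h x (1 - x) (by linarith) (by linarith)) ?_
  ring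

theorem tp1_00_1_c1 {x : ℝ} (h0 : 0 ≤ x) (h1 : x ≤ 1) : 0 ≤ (1743 / 12800) + (477039 / 1254400) * x - (2169 / 19600) * x ^ 2 - (533619 / 627200) * x ^ 3 + (34079 / 89600) * x ^ 4 + (61233 / 179200) * x ^ 5 + (1927 / 22400) * x ^ 6 + (31 / 4480) * x ^ 7 := by
  have h : ∀ s u : ℝ, 0 ≤ s → 0 ≤ u → 0 ≤ (1743 / 12800) * u ^ 7 + (1672737 / 1254400) * s * u ^ 6 + (394407 / 78400) * s ^ 2 * u ^ 5 + (11372757 / 1254400) * s ^ 3 * u ^ 4 + (161551 / 19600) * s ^ 4 * u ^ 3 + (30069 / 7840) * s ^ 5 * u ^ 2 + (3329 / 2800) * s ^ 6 * u + (37 / 100) * s ^ 7 := by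
    intro s u hs hu
    positivity
  refine le_of_le_of_eq (h x (1 - x) (by linarith) (by linarith)) ?_
  ring

theorem tp1_00_1_c2 {x : ℝ} (h0 : 0 ≤ x) (h1 : x ≤ 1) : 0 ≤ (1341 / 6400) + (84573 / 313600) * x + (289 / 39200) * x ^ 2 - (6947 / 7840) * x ^ 3 + (9773 / 44800) * x ^ 4 + (17993 / 44800) * x ^ 5 + (761 / 5600) * x ^ 6 + (31 / 2240) * x ^ 7 := by
  have h : ∀ s u : ℝ, 0 ≤ s → 0 ≤ u → 0 ≤ (1341 / 6400) * u ^ 7 + (68067 / 39200) * s * u ^ 6 + (1889639 / 313600) * s ^ 2 * u ^ 5 + (330209 / 31360) * s ^ 3 * u ^ 4 + (1485643 / 156800) * s ^ 4 * u ^ 3 + (333877 / 78400) * s ^ 5 * u ^ 2 + (6557 / 5600) * s ^ 6 * u + (37 / 100) * s ^ 7 := by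
    intro s u hs hu
    positivity
  refine le_of_le_of_eq (h x (1 - x) (by linarith) (by linarith)) ?_
  ring

theorem tp1_00_1_c3 {x : ℝ} (h0 : 0 ≤ x) (h1 : x ≤ 1) : 0 ≤ (987 / 3200) + (30813 / 313600) * x + (8229 / 78400) * x ^ 2 - (127313 / 156800) * x ^ 3 + (501 / 22400) * x ^ 4 + (18827 / 44800) * x ^ 5 + (45 / 224) * x ^ 6 + (3 / 112) * x ^ 7 := by
  have h : ∀ s u : ℝ, 0 ≤ s → 0 ≤ u → 0 ≤ (987 / 3200) * u ^ 7 + (141579 / 62720) * s * u ^ 6 + (28113 / 3920) * s ^ 2 * u ^ 5 + (3757559 / 313600) * s ^ 3 * u ^ 4 + (165967 / 15680) * s ^ 4 * u ^ 3 + (361919 / 78400) * s ^ 5 * u ^ 2 + (6351 / 5600) * s ^ 6 * u + (37 / 100) * s ^ 7 := by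
    intro s u hs hu
    positivity
  refine le_of_le_of_eq (h x (1 - x) (by linarith) (by linarith)) ?_
  ring

theorem tp1_00_1_c4 {x : ℝ} (h0 : 0 ≤ x) (h1 : x ≤ 1) : 0 ≤ (669 / 1600) - (3683 / 39200) * x + (249 / 1568) * x ^ 2 - (12863 / 19600) * x ^ 3 - (373 / 2240) * x ^ 4 + (309 / 800) * x ^ 5 + (383 / 1400) * x ^ 6 + (1 / 20) * x ^ 7 := by
  have h : ∀ s u : ℝ, 0 ≤ s → 0 ≤ u → 0 ≤ (669 / 1600) * u ^ 7 + (222101 / 78400) * s * u ^ 6 + (131331 / 15680) * s ^ 2 * u ^ 5 + (1047643 / 78400) * s ^ 3 * u ^ 4 + (226413 / 19600) * s ^ 4 * u ^ 3 + (24051 / 4900) * s ^ 5 * u ^ 2 + (151 / 140) * s ^ 6 * u + (37 / 100) * s ^ 7 := by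
    intro s u hs hu
    positivity
  refine le_of_le_of_eq (h x (1 - x) (by linarith) (by linarith)) ?_
  ring

theorem tp1_00_1_c5 {x : ℝ} (h0 : 0 ≤ x) (h1 : x ≤ 1) : 0 ≤ (423 / 800) - (893 / 3136) * x + (327 / 1960) * x ^ 2 - (3531 / 7840) * x ^ 3 - (361 / 1120) * x ^ 4 + (3397 / 11200) * x ^ 5 + (19 / 56) * x ^ 6 + (5 / 56) * x ^ 7 := by
  have h : ∀ s u : ℝ, 0 ≤ s → 0 ≤ u → 0 ≤ (423 / 800) * u ^ 7 + (267853 / 78400) * s * u ^ 6 + (23427 / 2450) * s ^ 2 * u ^ 5 + (229221 / 15680) * s ^ 3 * u ^ 4 + (24217 / 1960) * s ^ 4 * u ^ 3 + (50321 / 9800) * s ^ 5 * u ^ 2 + (703 / 700) * s ^ 6 * u + (37 / 100) * s ^ 7 := by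
    intro s u hs hu
    positivity
  refine le_of_le_of_eq (h x (1 - x) (by linarith) (by linarith)) ?_
  ring

theorem tp1_00_1 {x w : ℝ} (h0 : 0 ≤ x) (h1 : x ≤ 1) (h2 : 1 / 4 ≤ w) (h3 : w ≤ 1 / 2) :
    0 ≤ Tp (5 / 7) (8 / 5) (6 / 5) 3 (7 / 25) (9 / 50) (1 / 20) 0 x w 0 := by
  have hp : 0 ≤ (w - (1 / 4)) := by linarith
  have hr : 0 ≤ ((1 / 2) - w) := by linarith
  have b0 := tp1_00_1_c0 h0 h1
  have m0 : 0 ≤ 1024 * ((1 / 2) - w) ^ 5 := by positivity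
  have b1 := tp1_00_1_c1 h0 h1
  have m1 : 0 ≤ 5120 * (w - (1 / 4)) * ((1 / 2) - w) ^ 4 := by positivity
  have b2 := tp1_00_1_c2 h0 h1
  have m2 : 0 ≤ 10240 * (w - (1 / 4)) ^ 2 * ((1 / 2) - w) ^ 3 := by positivity
  have b3 := tp1_00_1_c3 h0 h1
  have m3 : 0 ≤ 10240 * (w - (1 / 4)) ^ 3 * ((1 / 2) - w) ^ 2 := by positivity
  have b4 := tp1_00_1_c4 h0 h1
  have m4 : 0 ≤ 5120 * (w - (1 / 4)) ^ 4 * ((1 / 2) - w) := by positivity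
  have b5 := tp1_00_1_c5 h0 h1
  have m5 : 0 ≤ 1024 * (w - (1 / 4)) ^ 5 := by positivity
  have e : Tp (5 / 7) (8 / 5) (6 / 5) 3 (7 / 25) (9 / 50) (1 / 20) 0 x w 0 = (1024 * ((1 / 2) - w) ^ 5) * ((2829 / 25600) + (5643 / 15680) * x - (22577 / 125440) * x ^ 2 - (8857 / 12544) * x ^ 3 + (16719 / 35840) * x ^ 4 + (11839 / 44800) * x ^ 5 + (33 / 640) * x ^ 6 + (3 / 896) * x ^ 7) +
      (5120 * (w - (1 / 4)) * ((1 / 2) - w) ^ 4) * ((1743 / 12800) + (477039 / 1254400) * x - (2169 / 19600) * x ^ 2 - (533619 / 627200) * x ^ 3 + (34079 / 89600) * x ^ 4 + (61233 / 179200) * x ^ 5 + (1927 / 22400) * x ^ 6 + (31 / 4480) * x ^ 7) +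
      (10240 * (w - (1 / 4)) ^ 2 * ((1 / 2) - w) ^ 3) * ((1341 / 6400) + (84573 / 313600) * x + (289 / 39200) * x ^ 2 - (6947 / 7840) * x ^ 3 + (9773 / 44800) * x ^ 4 + (17993 / 44800) * x ^ 5 + (761 / 5600) * x ^ 6 + (31 / 2240) * x ^ 7) +
      (10240 * (w - (1 / 4)) ^ 3 * ((1 / 2) - w) ^ 2) * ((987 / 3200) + (30813 / 313600) * x + (8229 / 78400) * x ^ 2 - (127313 / 156800) * x ^ 3 + (501 / 22400) * x ^ 4 + (18827 / 44800) * x ^ 5 + (45 / 224) * x ^ 6 + (3 / 112) * x ^ 7) +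
      (5120 * (w - (1 / 4)) ^ 4 * ((1 / 2) - w)) * ((669 / 1600) - (3683 / 39200) * x + (249 / 1568) * x ^ 2 - (12863 / 19600) * x ^ 3 - (373 / 2240) * x ^ 4 + (309 / 800) * x ^ 5 + (383 / 1400) * x ^ 6 + (1 / 20) * x ^ 7) +
      (1024 * (w - (1 / 4)) ^ 5) * ((423 / 800) - (893 / 3136) * x + (327 / 1960) * x ^ 2 - (3531 / 7840) * x ^ 3 - (361 / 1120) * x ^ 4 + (3397 / 11200) * x ^ 5 + (19 / 56) * x ^ 6 + (5 / 56) * x ^ 7) := by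
    unfold Tp
    push_cast
    ring
  rw [e]
  exact add_nonneg (add_nonneg (add_nonneg (add_nonneg (add_nonneg (mul_nonneg m0 b0) (mul_nonneg m1 b1)) (mul_nonneg m2 b2)) (mul_nonneg m3 b3)) (mul_nonneg m4 b4)) (mul_nonneg m5 b5)

theorem tp1_00_2_c0 {x : ℝ} (h0 : 0 ≤ x) (h1 : x ≤ 1) : 0 ≤ (423 / 800) - (893 / 3136) * x + (327 / 1960) * x ^ 2 - (3531 / 7840) * x ^ 3 - (361 / 1120) * x ^ 4 + (3397 / 11200) * x ^ 5 + (19 / 56) * x ^ 6 + (5 / 56) * x ^ 7 := by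
  have h : ∀ s u : ℝ, 0 ≤ s → 0 ≤ u → 0 ≤ (423 / 800) * u ^ 7 + (267853 / 78400) * s * u ^ 6 + (23427 / 2450) * s ^ 2 * u ^ 5 + (229221 / 15680) * s ^ 3 * u ^ 4 + (24217 / 1960) * s ^ 4 * u ^ 3 + (50321 / 9800) * s ^ 5 * u ^ 2 + (703 / 700) * s ^ 6 * u + (37 / 100) * s ^ 7 := by
    intro s u hs hu
    positivity
  refine le_of_le_of_eq (h x (1 - x) (by linarith) (by linarith)) ?_
  ring

theorem tp1_00_2_c1 {x : ℝ} (h0 : 0 ≤ x) (h1 : x ≤ 1) : 0 ≤ (3 / 4) - (52243 / 78400) * x + (717 / 3920) * x ^ 2 - (1513 / 39200) * x ^ 3 - (71 / 112) * x ^ 4 + (1539 / 11200) * x ^ 5 + (659 / 1400) * x ^ 6 + (47 / 280) * x ^ 7 := by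
  have h : ∀ s u : ℝ, 0 ≤ s → 0 ≤ u → 0 ≤ (3 / 4) * u ^ 7 + (359357 / 78400) * s * u ^ 6 + (467841 / 39200) * s ^ 2 * u ^ 5 + (1343029 / 78400) * s ^ 3 * u ^ 4 + (68421 / 4900) * s ^ 4 * u ^ 3 + (54759 / 9800) * s ^ 5 * u ^ 2 + (599 / 700) * s ^ 6 * u + (37 / 100) * s ^ 7 := by
    intro s u hs hu
    positivity
  refine le_of_le_of_eq (h x (1 - x) (by linarith) (by linarith)) ?_
  ring

theorem tp1_00_2_c2 {x : ℝ} (h0 : 0 ≤ x) (h1 : x ≤ 1) : 0 ≤ (39 / 40) - (2043 / 1960) * x + (309 / 19600) * x ^ 2 + (2813 / 4900) * x ^ 3 - (2277 / 2800) * x ^ 4 - (157 / 700) * x ^ 5 + (201 / 350) * x ^ 6 + (87 / 280) * x ^ 7 := by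
  have h : ∀ s u : ℝ, 0 ≤ s → 0 ≤ u → 0 ≤ (39 / 40) * u ^ 7 + (5667 / 980) * s * u ^ 6 + (279039 / 19600) * s ^ 2 * u ^ 5 + (375197 / 19600) * s ^ 3 * u ^ 4 + (292409 / 19600) * s ^ 4 * u ^ 3 + (113249 / 19600) * s ^ 5 * u ^ 2 + (177 / 280) * s ^ 6 * u + (37 / 100) * s ^ 7 := by
    intro s u hs hu
    positivity
  refine le_of_le_of_eq (h x (1 - x) (by linarith) (by linarith)) ?_
  ring

theorem tp1_00_2_c3 {x : ℝ} (h0 : 0 ≤ x) (h1 : x ≤ 1) : 0 ≤ (9 / 8) - (2421 / 1960) * x - (86 / 245) * x ^ 2 + (22291 / 19600) * x ^ 3 - (911 / 1400) * x ^ 4 - (301 / 400) * x ^ 5 + (373 / 700) * x ^ 6 + (79 / 140) * x ^ 7 := by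
  have h : ∀ s u : ℝ, 0 ≤ s → 0 ≤ u → 0 ≤ (9 / 8) * u ^ 7 + (6507 / 980) * s * u ^ 6 + (31091 / 1960) * s ^ 2 * u ^ 5 + (396491 / 19600) * s ^ 3 * u ^ 4 + (7379 / 490) * s ^ 4 * u ^ 3 + (22367 / 3920) * s ^ 5 * u ^ 2 + (467 / 1400) * s ^ 6 * u + (37 / 100) * s ^ 7 := by
    intro s u hs hu
    positivity
  refine le_of_le_of_eq (h x (1 - x) (by linarith) (by linarith)) ?_
  ring

theorem tp1_00_2_c4 {x : ℝ} (h0 : 0 ≤ x) (h1 : x ≤ 1) : 0 ≤ (6 / 5) - (663 / 490) * x - (291 / 490) * x ^ 2 + (66 / 49) * x ^ 3 - (29 / 175) * x ^ 4 - (33 / 28) * x ^ 5 + (4 / 35) * x ^ 6 + 1 * x ^ 7 := by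
  have h : ∀ s u : ℝ, 0 ≤ s → 0 ≤ u → 0 ≤ (6 / 5) * u ^ 8 + (4041 / 490) * s * u ^ 7 + (5766 / 245) * s ^ 2 * u ^ 6 + (17919 / 490) * s ^ 3 * u ^ 5 + (42022 / 1225) * s ^ 4 * u ^ 4 + (96007 / 4900) * s ^ 5 * u ^ 3 + (26123 / 4900) * s ^ 6 * u ^ 2 + (33 / 100) * s ^ 7 * u + (37 / 100) * s ^ 8 := by
    intro s u hs hu
    positivity
  refine le_of_le_of_eq (h x (1 - x) (by linarith) (by linarith)) ?_
  ring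

theorem tp1_00_2_c5 {x : ℝ} (h0 : 0 ≤ x) (h1 : x ≤ 1) : 0 ≤ (6 / 5) - (342 / 245) * x - (41 / 49) * x ^ 2 + (80 / 49) * x ^ 3 - (641 / 700) * x ^ 5 - (36 / 35) * x ^ 6 + (12 / 7) * x ^ 7 := by
  have h : ∀ s u : ℝ, 0 ≤ s → 0 ≤ u → 0 ≤ (6 / 5) * u ^ 9 + (2304 / 245) * s * u ^ 8 + (7643 / 245) * s ^ 2 * u ^ 7 + (2817 / 49) * s ^ 3 * u ^ 6 + (15987 / 245) * s ^ 4 * u ^ 5 + (234093 / 4900) * s ^ 5 * u ^ 4 + (26098 / 1225) * s ^ 6 * u ^ 3 + (10209 / 2450) * s ^ 7 * u ^ 2 + (44 / 175) * s ^ 8 * u + (37 / 100) * s ^ 9 := by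
    intro s u hs hu
    positivity
  refine le_of_le_of_eq (h x (1 - x) (by linarith) (by linarith)) ?_
  ring

theorem tp1_00_2 {x w : ℝ} (h0 : 0 ≤ x) (h1 : x ≤ 1) (h2 : 1 / 2 ≤ w) (h3 : w ≤ 1) :
    0 ≤ Tp (5 / 7) (8 / 5) (6 / 5) 3 (7 / 25) (9 / 50) (1 / 20) 0 x w 0 := by
  have hp : 0 ≤ (w - (1 / 2)) := by linarith
  have hr : 0 ≤ (1 - w) := by linarith
  have b0 := tp1_00_2_c0 h0 h1
  have m0 : 0 ≤ 32 * (1 - w) ^ 5 := by positivity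
  have b1 := tp1_00_2_c1 h0 h1
  have m1 : 0 ≤ 160 * (w - (1 / 2)) * (1 - w) ^ 4 := by positivity
  have b2 := tp1_00_2_c2 h0 h1
  have m2 : 0 ≤ 320 * (w - (1 / 2)) ^ 2 * (1 - w) ^ 3 := by positivity
  have b3 := tp1_00_2_c3 h0 h1
  have m3 : 0 ≤ 320 * (w - (1 / 2)) ^ 3 * (1 - w) ^ 2 := by positivity
  have b4 := tp1_00_2_c4 h0 h1
  have m4 : 0 ≤ 160 * (w - (1 / 2)) ^ 4 * (1 - w) := by positivity
  have b5 := tp1_00_2_c5 h0 h1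
  have m5 : 0 ≤ 32 * (w - (1 / 2)) ^ 5 := by positivity
  have e : Tp (5 / 7) (8 / 5) (6 / 5) 3 (7 / 25) (9 / 50) (1 / 20) 0 x w 0 = (32 * (1 - w) ^ 5) * ((423 / 800) - (893 / 3136) * x + (327 / 1960) * x ^ 2 - (3531 / 7840) * x ^ 3 - (361 / 1120) * x ^ 4 + (3397 / 11200) * x ^ 5 + (19 / 56) * x ^ 6 + (5 / 56) * x ^ 7) +
      (160 * (w - (1 / 2)) * (1 - w) ^ 4) * ((3 / 4) - (52243 / 78400) * x + (717 / 3920) * x ^ 2 - (1513 / 39200) * x ^ 3 - (71 / 112) * x ^ 4 + (1539 / 11200) * x ^ 5 + (659 / 1400) * x ^ 6 + (47 / 280) * x ^ 7) +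
      (320 * (w - (1 / 2)) ^ 2 * (1 - w) ^ 3) * ((39 / 40) - (2043 / 1960) * x + (309 / 19600) * x ^ 2 + (2813 / 4900) * x ^ 3 - (2277 / 2800) * x ^ 4 - (157 / 700) * x ^ 5 + (201 / 350) * x ^ 6 + (87 / 280) * x ^ 7) +
      (320 * (w - (1 / 2)) ^ 3 * (1 - w) ^ 2) * ((9 / 8) - (2421 / 1960) * x - (86 / 245) * x ^ 2 + (22291 / 19600) * x ^ 3 - (911 / 1400) * x ^ 4 - (301 / 400) * x ^ 5 + (373 / 700) * x ^ 6 + (79 / 140) * x ^ 7) +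
      (160 * (w - (1 / 2)) ^ 4 * (1 - w)) * ((6 / 5) - (663 / 490) * x - (291 / 490) * x ^ 2 + (66 / 49) * x ^ 3 - (29 / 175) * x ^ 4 - (33 / 28) * x ^ 5 + (4 / 35) * x ^ 6 + 1 * x ^ 7) +
      (32 * (w - (1 / 2)) ^ 5) * ((6 / 5) - (342 / 245) * x - (41 / 49) * x ^ 2 + (80 / 49) * x ^ 3 - (641 / 700) * x ^ 5 - (36 / 35) * x ^ 6 + (12 / 7) * x ^ 7) := by
    unfold Tp
    push_cast
    ring
  rw [e]
  exact add_nonneg (add_nonneg (add_nonneg (add_nonneg (add_nonneg (mul_nonneg m0 b0) (mul_nonneg m1 b1)) (mul_nonneg m2 b2)) (mul_nonneg m3 b3)) (mul_nonneg m4 b4)) (mul_nonneg m5 b5)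

theorem tp1_00 {x w : ℝ} (h0 : 0 ≤ x) (h1 : x ≤ 1) (h2 : 0 ≤ w) (h3 : w ≤ 1) :
    0 ≤ Tp (5 / 7) (8 / 5) (6 / 5) 3 (7 / 25) (9 / 50) (1 / 20) 0 x w 0 := by
  rcases le_total w (1 / 4) with k | k
  · exact tp1_00_0 (by linarith) (by linarith) (by linarith) (by linarith)
  · rcases le_total w (1 / 2) with k | k
    · exact tp1_00_1 (by linarith) (by linarith) (by linarith) (by linarith)
    · exact tp1_00_2 (by linarith) (by linarith) (by linarith) (by linarith)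

theorem tp1_01_0_c0 {x : ℝ} (h0 : 0 ≤ x) (h1 : x ≤ 1) : 0 ≤ (111 / 175) - (253 / 140) * x + (33 / 35) * x ^ 2 + (31 / 35) * x ^ 3 - (2 / 7) * x ^ 4 := by
  have h : ∀ s u : ℝ, 0 ≤ s → 0 ≤ u → 0 ≤ (111 / 175) * u ^ 11 + (517 / 100) * s * u ^ 10 + (1243 / 70) * s ^ 2 * u ^ 9 + (4579 / 140) * s ^ 3 * u ^ 8 + (166 / 5) * s ^ 4 * u ^ 7 + (777 / 50) * s ^ 5 * u ^ 6 + (1 / 25) * s ^ 6 * u ^ 5 + (43 / 70) * s ^ 7 * u ^ 4 + (33 / 5) * s ^ 8 * u ^ 3 + (883 / 140) * s ^ 9 * u ^ 2 + (867 / 350) * s ^ 10 * u + (37 / 100) * s ^ 11 := by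
    intro s u hs hu
    positivity
  refine le_of_le_of_eq (h x (1 - x) (by linarith) (by linarith)) ?_
  ring

theorem tp1_01_0_c1 {x : ℝ} (h0 : 0 ≤ x) (h1 : x ≤ 1) : 0 ≤ (6 / 35) + (1 / 20) * x - (14 / 25) * x ^ 2 + (8 / 25) * x ^ 3 + (14 / 25) * x ^ 4 - (6 / 35) * x ^ 5 := by
  have h : ∀ s u : ℝ, 0 ≤ s → 0 ≤ u → 0 ≤ (6 / 35) * u ^ 5 + (127 / 140) * s * u ^ 4 + (237 / 175) * s ^ 2 * u ^ 3 + (229 / 350) * s ^ 3 * u ^ 2 + (101 / 175) * s ^ 4 * u + (37 / 100) * s ^ 5 := by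
    intro s u hs hu
    positivity
  refine le_of_le_of_eq (h x (1 - x) (by linarith) (by linarith)) ?_
  ring

theorem tp1_01_0_c2 {x : ℝ} (h0 : 0 ≤ x) (h1 : x ≤ 1) : 0 ≤ (3 / 7) - (18 / 35) * x + (181 / 350) * x ^ 2 - (379 / 700) * x ^ 3 + (9 / 35) * x ^ 4 + (54 / 175) * x ^ 5 - (3 / 35) * x ^ 6 := by
  have h : ∀ s u : ℝ, 0 ≤ s → 0 ≤ u → 0 ≤ (3 / 7) * u ^ 6 + (72 / 35) * s * u ^ 5 + (1531 / 350) * s ^ 2 * u ^ 4 + (3469 / 700) * s ^ 3 * u ^ 3 + (423 / 140) * s ^ 4 * u ^ 2 + (887 / 700) * s ^ 5 * u + (37 / 100) * s ^ 6 := by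
    intro s u hs hu
    positivity
  refine le_of_le_of_eq (h x (1 - x) (by linarith) (by linarith)) ?_
  ring

theorem tp1_01_0_c3 {x : ℝ} (h0 : 0 ≤ x) (h1 : x ≤ 1) : 0 ≤ (24 / 35) - (24 / 35) * x + (6 / 35) * x ^ 2 + (9 / 28) * x ^ 3 - (193 / 350) * x ^ 4 + (57 / 175) * x ^ 5 + (23 / 175) * x ^ 6 - (1 / 35) * x ^ 7 := by
  have h : ∀ s u : ℝ, 0 ≤ s → 0 ≤ u → 0 ≤ (24 / 35) * u ^ 7 + (144 / 35) * s * u ^ 6 + (366 / 35) * s ^ 2 * u ^ 5 + (417 / 28) * s ^ 3 * u ^ 4 + (4457 / 350) * s ^ 4 * u ^ 3 + (45 / 7) * s ^ 5 * u ^ 2 + (137 / 70) * s ^ 6 * u + (37 / 100) * s ^ 7 := by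
    intro s u hs hu
    positivity
  refine le_of_le_of_eq (h x (1 - x) (by linarith) (by linarith)) ?_
  ring

theorem tp1_01_0_c4 {x : ℝ} (h0 : 0 ≤ x) (h1 : x ≤ 1) : 0 ≤ (33 / 35) - (6 / 7) * x - (2 / 35) * x ^ 2 + (4 / 7) * x ^ 3 - (7 / 25) * x ^ 4 - (253 / 700) * x ^ 5 + (67 / 175) * x ^ 6 + (1 / 35) * x ^ 7 := by
  have h : ∀ s u : ℝ, 0 ≤ s → 0 ≤ u → 0 ≤ (33 / 35) * u ^ 7 + (201 / 35) * s * u ^ 6 + (73 / 5) * s ^ 2 * u ^ 5 + (143 / 7) * s ^ 3 * u ^ 4 + (3026 / 175) * s ^ 4 * u ^ 3 + (6019 / 700) * s ^ 5 * u ^ 2 + (797 / 350) * s ^ 6 * u + (37 / 100) * s ^ 7 := by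
    intro s u hs hu
    positivity
  refine le_of_le_of_eq (h x (1 - x) (by linarith) (by linarith)) ?_
  ring

theorem tp1_01_0_c5 {x : ℝ} (h0 : 0 ≤ x) (h1 : x ≤ 1) : 0 ≤ (6 / 5) - (36 / 35) * x - (2 / 7) * x ^ 2 + (5 / 7) * x ^ 3 - (281 / 700) * x ^ 5 - (9 / 35) * x ^ 6 + (3 / 7) * x ^ 7 := by
  have h : ∀ s u : ℝ, 0 ≤ s → 0 ≤ u → 0 ≤ (6 / 5) * u ^ 7 + (258 / 35) * s * u ^ 6 + (656 / 35) * s ^ 2 * u ^ 5 + (181 / 7) * s ^ 3 * u ^ 4 + (150 / 7) * s ^ 4 * u ^ 3 + (7559 / 700) * s ^ 5 * u ^ 2 + (909 / 350) * s ^ 6 * u + (37 / 100) * s ^ 7 := by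
    intro s u hs hu
    positivity
  refine le_of_le_of_eq (h x (1 - x) (by linarith) (by linarith)) ?_
  ring

theorem tp1_01_0 {x w : ℝ} (h0 : 0 ≤ x) (h1 : x ≤ 1) (h2 : 0 ≤ w) (h3 : w ≤ 1) :
    0 ≤ Tp (5 / 7) (8 / 5) (6 / 5) 3 (7 / 25) (9 / 50) (1 / 20) 0 x w 1 := by
  have hp : 0 ≤ w := by linarith
  have hr : 0 ≤ (1 - w) := by linarith
  have b0 := tp1_01_0_c0 h0 h1
  have m0 : 0 ≤ 1 * (1 - w) ^ 5 := by positivity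
  have b1 := tp1_01_0_c1 h0 h1
  have m1 : 0 ≤ 5 * w * (1 - w) ^ 4 := by positivity
  have b2 := tp1_01_0_c2 h0 h1
  have m2 : 0 ≤ 10 * w ^ 2 * (1 - w) ^ 3 := by positivity
  have b3 := tp1_01_0_c3 h0 h1
  have m3 : 0 ≤ 10 * w ^ 3 * (1 - w) ^ 2 := by positivity
  have b4 := tp1_01_0_c4 h0 h1
  have m4 : 0 ≤ 5 * w ^ 4 * (1 - w) := by positivity
  have b5 := tp1_01_0_c5 h0 h1
  have m5 : 0 ≤ 1 * w ^ 5 := by positivity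
  have e : Tp (5 / 7) (8 / 5) (6 / 5) 3 (7 / 25) (9 / 50) (1 / 20) 0 x w 1 = (1 * (1 - w) ^ 5) * ((111 / 175) - (253 / 140) * x + (33 / 35) * x ^ 2 + (31 / 35) * x ^ 3 - (2 / 7) * x ^ 4) +
      (5 * w * (1 - w) ^ 4) * ((6 / 35) + (1 / 20) * x - (14 / 25) * x ^ 2 + (8 / 25) * x ^ 3 + (14 / 25) * x ^ 4 - (6 / 35) * x ^ 5) +
      (10 * w ^ 2 * (1 - w) ^ 3) * ((3 / 7) - (18 / 35) * x + (181 / 350) * x ^ 2 - (379 / 700) * x ^ 3 + (9 / 35) * x ^ 4 + (54 / 175) * x ^ 5 - (3 / 35) * x ^ 6) +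
      (10 * w ^ 3 * (1 - w) ^ 2) * ((24 / 35) - (24 / 35) * x + (6 / 35) * x ^ 2 + (9 / 28) * x ^ 3 - (193 / 350) * x ^ 4 + (57 / 175) * x ^ 5 + (23 / 175) * x ^ 6 - (1 / 35) * x ^ 7) +
      (5 * w ^ 4 * (1 - w)) * ((33 / 35) - (6 / 7) * x - (2 / 35) * x ^ 2 + (4 / 7) * x ^ 3 - (7 / 25) * x ^ 4 - (253 / 700) * x ^ 5 + (67 / 175) * x ^ 6 + (1 / 35) * x ^ 7) +
      (1 * w ^ 5) * ((6 / 5) - (36 / 35) * x - (2 / 7) * x ^ 2 + (5 / 7) * x ^ 3 - (281 / 700) * x ^ 5 - (9 / 35) * x ^ 6 + (3 / 7) * x ^ 7) := by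
    unfold Tp
    push_cast
    ring
  rw [e]
  exact add_nonneg (add_nonneg (add_nonneg (add_nonneg (add_nonneg (mul_nonneg m0 b0) (mul_nonneg m1 b1)) (mul_nonneg m2 b2)) (mul_nonneg m3 b3)) (mul_nonneg m4 b4)) (mul_nonneg m5 b5)

theorem tp1_01 {x w : ℝ} (h0 : 0 ≤ x) (h1 : x ≤ 1) (h2 : 0 ≤ w) (h3 : w ≤ 1) :
    0 ≤ Tp (5 / 7) (8 / 5) (6 / 5) 3 (7 / 25) (9 / 50) (1 / 20) 0 x w 1 := by
  exact tp1_01_0 h0 h1 h2 h3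

theorem tp1_10_0_c0 {x : ℝ} (h0 : 0 ≤ x) (h1 : x ≤ 1) : 0 ≤ (18 / 25) - (39 / 20) * x + (4 / 5) * x ^ 2 + (6 / 5) * x ^ 3 - (2 / 5) * x ^ 4 := by
  have h : ∀ s u : ℝ, 0 ≤ s → 0 ≤ u → 0 ≤ (18 / 25) * u ^ 13 + (741 / 100) * s * u ^ 12 + (839 / 25) * s ^ 2 * u ^ 11 + (4361 / 50) * s ^ 3 * u ^ 10 + (707 / 5) * s ^ 4 * u ^ 9 + (14379 / 100) * s ^ 5 * u ^ 8 + (2118 / 25) * s ^ 6 * u ^ 7 + (543 / 25) * s ^ 7 * u ^ 6 + (96 / 25) * s ^ 8 * u ^ 5 + (303 / 20) * s ^ 9 * u ^ 4 + (483 / 25) * s ^ 10 * u ^ 3 + (553 / 50) * s ^ 11 * u ^ 2 + (79 / 25) * s ^ 12 * u + (37 / 100) * s ^ 13 := by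
    intro s u hs hu
    positivity
  refine le_of_le_of_eq (h x (1 - x) (by linarith) (by linarith)) ?_
  ring

theorem tp1_10_0_c1 {x : ℝ} (h0 : 0 ≤ x) (h1 : x ≤ 1) : 0 ≤ (39 / 100) - (47 / 50) * x + (21 / 50) * x ^ 2 + (7 / 25) * x ^ 3 + (7 / 25) * x ^ 4 - (3 / 50) * x ^ 5 := by
  have h : ∀ s u : ℝ, 0 ≤ s → 0 ≤ u → 0 ≤ (39 / 100) * u ^ 6 + (7 / 5) * s * u ^ 5 + (157 / 100) * s ^ 2 * u ^ 4 + (9 / 25) * s ^ 3 * u ^ 3 + (9 / 100) * s ^ 4 * u ^ 2 + (33 / 50) * s ^ 5 * u + (37 / 100) * s ^ 6 := by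
    intro s u hs hu
    positivity
  refine le_of_le_of_eq (h x (1 - x) (by linarith) (by linarith)) ?_
  ring

theorem tp1_10_0_c2 {x : ℝ} (h0 : 0 ≤ x) (h1 : x ≤ 1) : 0 ≤ (159 / 800) - (551 / 1600) * x + (269 / 800) * x ^ 2 - (721 / 1600) * x ^ 3 + (63 / 100) * x ^ 4 + (3 / 400) * x ^ 5 - (3 / 400) * x ^ 6 := by
  have h : ∀ s u : ℝ, 0 ≤ s → 0 ≤ u → 0 ≤ (159 / 800) * u ^ 6 + (1357 / 1600) * s * u ^ 5 + (2553 / 1600) * s ^ 2 * u ^ 4 + (2281 / 1600) * s ^ 3 * u ^ 3 + (1333 / 1600) * s ^ 4 * u ^ 2 + (117 / 160) * s ^ 5 * u + (37 / 100) * s ^ 6 := by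
    intro s u hs hu
    positivity
  refine le_of_le_of_eq (h x (1 - x) (by linarith) (by linarith)) ?_
  ring

theorem tp1_10_0_c3 {x : ℝ} (h0 : 0 ≤ x) (h1 : x ≤ 1) : 0 ≤ (171 / 1600) - (81 / 3200) * x + (1243 / 3200) * x ^ 2 - (3079 / 3200) * x ^ 3 + (471 / 640) * x ^ 4 + (207 / 1600) * x ^ 5 - (1 / 400) * x ^ 6 - (1 / 1600) * x ^ 7 := by
  have h : ∀ s u : ℝ, 0 ≤ s → 0 ≤ u → 0 ≤ (171 / 1600) * u ^ 7 + (2313 / 3200) * s * u ^ 6 + (7939 / 3200) * s ^ 2 * u ^ 5 + (13891 / 3200) * s ^ 3 * u ^ 4 + (12819 / 3200) * s ^ 4 * u ^ 3 + (3701 / 1600) * s ^ 5 * u ^ 2 + (923 / 800) * s ^ 6 * u + (37 / 100) * s ^ 7 := by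
    intro s u hs hu
    positivity
  refine le_of_le_of_eq (h x (1 - x) (by linarith) (by linarith)) ?_
  ring

theorem tp1_10_0_c4 {x : ℝ} (h0 : 0 ≤ x) (h1 : x ≤ 1) : 0 ≤ (543 / 6400) + (2897 / 25600) * x + (3091 / 6400) * x ^ 2 - (16233 / 12800) * x ^ 3 + (2181 / 3200) * x ^ 4 + (6449 / 25600) * x ^ 5 + (77 / 3200) * x ^ 6 - (1 / 3200) * x ^ 7 := by
  have h : ∀ s u : ℝ, 0 ≤ s → 0 ≤ u → 0 ≤ (543 / 6400) * u ^ 7 + (18101 / 25600) * s * u ^ 6 + (37679 / 12800) * s ^ 2 * u ^ 5 + (148829 / 25600) * s ^ 3 * u ^ 4 + (4537 / 800) * s ^ 4 * u ^ 3 + (2397 / 800) * s ^ 5 * u ^ 2 + (19 / 16) * s ^ 6 * u + (37 / 100) * s ^ 7 := by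
    intro s u hs hu
    positivity
  refine le_of_le_of_eq (h x (1 - x) (by linarith) (by linarith)) ?_
  ring

theorem tp1_10_0_c5 {x : ℝ} (h0 : 0 ≤ x) (h1 : x ≤ 1) : 0 ≤ (2829 / 25600) + (11 / 80) * x + (291 / 512) * x ^ 2 - (1793 / 1280) * x ^ 3 + (549 / 1024) * x ^ 4 + (2197 / 6400) * x ^ 5 + (9 / 128) * x ^ 6 + (3 / 640) * x ^ 7 := by
  have h : ∀ s u : ℝ, 0 ≤ s → 0 ≤ u → 0 ≤ (2829 / 25600) * u ^ 7 + (23323 / 25600) * s * u ^ 6 + (95079 / 25600) * s ^ 2 * u ^ 5 + (37741 / 5120) * s ^ 3 * u ^ 4 + (463 / 64) * s ^ 4 * u ^ 3 + (2891 / 800) * s ^ 5 * u ^ 2 + (481 / 400) * s ^ 6 * u + (37 / 100) * s ^ 7 := by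
    intro s u hs hu
    positivity
  refine le_of_le_of_eq (h x (1 - x) (by linarith) (by linarith)) ?_
  ring

theorem tp1_10_0 {x w : ℝ} (h0 : 0 ≤ x) (h1 : x ≤ 1) (h2 : 0 ≤ w) (h3 : w ≤ 1 / 4) :
    0 ≤ Tp 1 (8 / 5) (6 / 5) 3 (7 / 25) (9 / 50) (1 / 20) 0 x w 0 := by
  have hp : 0 ≤ w := by linarith
  have hr : 0 ≤ ((1 / 4) - w) := by linarith
  have b0 := tp1_10_0_c0 h0 h1
  have m0 : 0 ≤ 1024 * ((1 / 4) - w) ^ 5 := by positivity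
  have b1 := tp1_10_0_c1 h0 h1
  have m1 : 0 ≤ 5120 * w * ((1 / 4) - w) ^ 4 := by positivity
  have b2 := tp1_10_0_c2 h0 h1
  have m2 : 0 ≤ 10240 * w ^ 2 * ((1 / 4) - w) ^ 3 := by positivity
  have b3 := tp1_10_0_c3 h0 h1
  have m3 : 0 ≤ 10240 * w ^ 3 * ((1 / 4) - w) ^ 2 := by positivity
  have b4 := tp1_10_0_c4 h0 h1
  have m4 : 0 ≤ 5120 * w ^ 4 * ((1 / 4) - w) := by positivity
  have b5 := tp1_10_0_c5 h0 h1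
  have m5 : 0 ≤ 1024 * w ^ 5 := by positivity
  have e : Tp 1 (8 / 5) (6 / 5) 3 (7 / 25) (9 / 50) (1 / 20) 0 x w 0 = (1024 * ((1 / 4) - w) ^ 5) * ((18 / 25) - (39 / 20) * x + (4 / 5) * x ^ 2 + (6 / 5) * x ^ 3 - (2 / 5) * x ^ 4) +
      (5120 * w * ((1 / 4) - w) ^ 4) * ((39 / 100) - (47 / 50) * x + (21 / 50) * x ^ 2 + (7 / 25) * x ^ 3 + (7 / 25) * x ^ 4 - (3 / 50) * x ^ 5) +
      (10240 * w ^ 2 * ((1 / 4) - w) ^ 3) * ((159 / 800) - (551 / 1600) * x + (269 / 800) * x ^ 2 - (721 / 1600) * x ^ 3 + (63 / 100) * x ^ 4 + (3 / 400) * x ^ 5 - (3 / 400) * x ^ 6) +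
      (10240 * w ^ 3 * ((1 / 4) - w) ^ 2) * ((171 / 1600) - (81 / 3200) * x + (1243 / 3200) * x ^ 2 - (3079 / 3200) * x ^ 3 + (471 / 640) * x ^ 4 + (207 / 1600) * x ^ 5 - (1 / 400) * x ^ 6 - (1 / 1600) * x ^ 7) +
      (5120 * w ^ 4 * ((1 / 4) - w)) * ((543 / 6400) + (2897 / 25600) * x + (3091 / 6400) * x ^ 2 - (16233 / 12800) * x ^ 3 + (2181 / 3200) * x ^ 4 + (6449 / 25600) * x ^ 5 + (77 / 3200) * x ^ 6 - (1 / 3200) * x ^ 7) +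
      (1024 * w ^ 5) * ((2829 / 25600) + (11 / 80) * x + (291 / 512) * x ^ 2 - (1793 / 1280) * x ^ 3 + (549 / 1024) * x ^ 4 + (2197 / 6400) * x ^ 5 + (9 / 128) * x ^ 6 + (3 / 640) * x ^ 7) := by
    unfold Tp
    push_cast
    ring
  rw [e]
  exact add_nonneg (add_nonneg (add_nonneg (add_nonneg (add_nonneg (mul_nonneg m0 b0) (mul_nonneg m1 b1)) (mul_nonneg m2 b2)) (mul_nonneg m3 b3)) (mul_nonneg m4 b4)) (mul_nonneg m5 b5)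

theorem tp1_10_1_c0 {x : ℝ} (h0 : 0 ≤ x) (h1 : x ≤ 1) : 0 ≤ (2829 / 25600) + (11 / 80) * x + (291 / 512) * x ^ 2 - (1793 / 1280) * x ^ 3 + (549 / 1024) * x ^ 4 + (2197 / 6400) * x ^ 5 + (9 / 128) * x ^ 6 + (3 / 640) * x ^ 7 := by
  have h : ∀ s u : ℝ, 0 ≤ s → 0 ≤ u → 0 ≤ (2829 / 25600) * u ^ 7 + (23323 / 25600) * s * u ^ 6 + (95079 / 25600) * s ^ 2 * u ^ 5 + (37741 / 5120) * s ^ 3 * u ^ 4 + (463 / 64) * s ^ 4 * u ^ 3 + (2891 / 800) * s ^ 5 * u ^ 2 + (481 / 400) * s ^ 6 * u + (37 / 100) * s ^ 7 := by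
    intro s u hs hu
    positivity
  refine le_of_le_of_eq (h x (1 - x) (by linarith) (by linarith)) ?_
  ring

theorem tp1_10_1_c1 {x : ℝ} (h0 : 0 ≤ x) (h1 : x ≤ 1) : 0 ≤ (1743 / 12800) + (4143 / 25600) * x + (523 / 800) * x ^ 2 - (19627 / 12800) * x ^ 3 + (5001 / 12800) * x ^ 4 + (11127 / 25600) * x ^ 5 + (373 / 3200) * x ^ 6 + (31 / 3200) * x ^ 7 := by
  have h : ∀ s u : ℝ, 0 ≤ s → 0 ≤ u → 0 ≤ (1743 / 12800) * u ^ 7 + (5709 / 5120) * s * u ^ 6 + (287 / 64) * s ^ 2 * u ^ 5 + (228581 / 25600) * s ^ 3 * u ^ 4 + (3519 / 400) * s ^ 4 * u ^ 3 + (677 / 160) * s ^ 5 * u ^ 2 + (487 / 400) * s ^ 6 * u + (37 / 100) * s ^ 7 := by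
    intro s u hs hu
    positivity
  refine le_of_le_of_eq (h x (1 - x) (by linarith) (by linarith)) ?_
  ring

theorem tp1_10_1_c2 {x : ℝ} (h0 : 0 ≤ x) (h1 : x ≤ 1) : 0 ≤ (1341 / 6400) + (461 / 6400) * x + (73 / 100) * x ^ 2 - (597 / 400) * x ^ 3 + (987 / 6400) * x ^ 4 + (3167 / 6400) * x ^ 5 + (73 / 400) * x ^ 6 + (31 / 1600) * x ^ 7 := by
  have h : ∀ s u : ℝ, 0 ≤ s → 0 ≤ u → 0 ≤ (1341 / 6400) * u ^ 7 + (1231 / 800) * s * u ^ 6 + (35599 / 6400) * s ^ 2 * u ^ 5 + (33829 / 3200) * s ^ 3 * u ^ 4 + (32827 / 3200) * s ^ 4 * u ^ 3 + (7653 / 1600) * s ^ 5 * u ^ 2 + (971 / 800) * s ^ 6 * u + (37 / 100) * s ^ 7 := by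
    intro s u hs hu
    positivity
  refine le_of_le_of_eq (h x (1 - x) (by linarith) (by linarith)) ?_
  ring

theorem tp1_10_1_c3 {x : ℝ} (h0 : 0 ≤ x) (h1 : x ≤ 1) : 0 ≤ (987 / 3200) - (419 / 6400) * x + (1193 / 1600) * x ^ 2 - (4193 / 3200) * x ^ 3 - (333 / 3200) * x ^ 4 + (3149 / 6400) * x ^ 5 + (213 / 800) * x ^ 6 + (3 / 80) * x ^ 7 := by
  have h : ∀ s u : ℝ, 0 ≤ s → 0 ≤ u → 0 ≤ (987 / 3200) * u ^ 7 + (13399 / 6400) * s * u ^ 6 + (683 / 100) * s ^ 2 * u ^ 5 + (78279 / 6400) * s ^ 3 * u ^ 4 + (3711 / 320) * s ^ 4 * u ^ 3 + (8431 / 1600) * s ^ 5 * u ^ 2 + (953 / 800) * s ^ 6 * u + (37 / 100) * s ^ 7 := by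
    intro s u hs hu
    positivity
  refine le_of_le_of_eq (h x (1 - x) (by linarith) (by linarith)) ?_
  ring

theorem tp1_10_1_c4 {x : ℝ} (h0 : 0 ≤ x) (h1 : x ≤ 1) : 0 ≤ (669 / 1600) - (171 / 800) * x + (553 / 800) * x ^ 2 - (83 / 80) * x ^ 3 - (527 / 1600) * x ^ 4 + (333 / 800) * x ^ 5 + (71 / 200) * x ^ 6 + (7 / 100) * x ^ 7 := by
  have h : ∀ s u : ℝ, 0 ≤ s → 0 ≤ u → 0 ≤ (669 / 1600) * u ^ 7 + (4341 / 1600) * s * u ^ 6 + (13103 / 1600) * s ^ 2 * u ^ 5 + (4431 / 320) * s ^ 3 * u ^ 4 + (5117 / 400) * s ^ 4 * u ^ 3 + (569 / 100) * s ^ 5 * u ^ 2 + (23 / 20) * s ^ 6 * u + (37 / 100) * s ^ 7 := by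
    intro s u hs hu
    positivity
  refine le_of_le_of_eq (h x (1 - x) (by linarith) (by linarith)) ?_
  ring

theorem tp1_10_1_c5 {x : ℝ} (h0 : 0 ≤ x) (h1 : x ≤ 1) : 0 ≤ (423 / 800) - (113 / 320) * x + (23 / 40) * x ^ 2 - (23 / 32) * x ^ 3 - (79 / 160) * x ^ 4 + (451 / 1600) * x ^ 5 + (17 / 40) * x ^ 6 + (1 / 8) * x ^ 7 := by
  have h : ∀ s u : ℝ, 0 ≤ s → 0 ≤ u → 0 ≤ (423 / 800) * u ^ 7 + (5357 / 1600) * s * u ^ 6 + (239 / 25) * s ^ 2 * u ^ 5 + (4917 / 320) * s ^ 3 * u ^ 4 + (553 / 40) * s ^ 4 * u ^ 3 + (1209 / 200) * s ^ 5 * u ^ 2 + (109 / 100) * s ^ 6 * u + (37 / 100) * s ^ 7 := by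
    intro s u hs hu
    positivity
  refine le_of_le_of_eq (h x (1 - x) (by linarith) (by linarith)) ?_
  ring

theorem tp1_10_1 {x w : ℝ} (h0 : 0 ≤ x) (h1 : x ≤ 1) (h2 : 1 / 4 ≤ w) (h3 : w ≤ 1 / 2) :
    0 ≤ Tp 1 (8 / 5) (6 / 5) 3 (7 / 25) (9 / 50) (1 / 20) 0 x w 0 := by
  have hp : 0 ≤ (w - (1 / 4)) := by linarith
  have hr : 0 ≤ ((1 / 2) - w) := by linarith
  have b0 := tp1_10_1_c0 h0 h1
  have m0 : 0 ≤ 1024 * ((1 / 2) - w) ^ 5 := by positivity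
  have b1 := tp1_10_1_c1 h0 h1
  have m1 : 0 ≤ 5120 * (w - (1 / 4)) * ((1 / 2) - w) ^ 4 := by positivity
  have b2 := tp1_10_1_c2 h0 h1
  have m2 : 0 ≤ 10240 * (w - (1 / 4)) ^ 2 * ((1 / 2) - w) ^ 3 := by positivity
  have b3 := tp1_10_1_c3 h0 h1
  have m3 : 0 ≤ 10240 * (w - (1 / 4)) ^ 3 * ((1 / 2) - w) ^ 2 := by positivity
  have b4 := tp1_10_1_c4 h0 h1
  have m4 : 0 ≤ 5120 * (w - (1 / 4)) ^ 4 * ((1 / 2) - w) := by positivity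
  have b5 := tp1_10_1_c5 h0 h1
  have m5 : 0 ≤ 1024 * (w - (1 / 4)) ^ 5 := by positivity
  have e : Tp 1 (8 / 5) (6 / 5) 3 (7 / 25) (9 / 50) (1 / 20) 0 x w 0 = (1024 * ((1 / 2) - w) ^ 5) * ((2829 / 25600) + (11 / 80) * x + (291 / 512) * x ^ 2 - (1793 / 1280) * x ^ 3 + (549 / 1024) * x ^ 4 + (2197 / 6400) * x ^ 5 + (9 / 128) * x ^ 6 + (3 / 640) * x ^ 7) +
      (5120 * (w - (1 / 4)) * ((1 / 2) - w) ^ 4) * ((1743 / 12800) + (4143 / 25600) * x + (523 / 800) * x ^ 2 - (19627 / 12800) * x ^ 3 + (5001 / 12800) * x ^ 4 + (11127 / 25600) * x ^ 5 + (373 / 3200) * x ^ 6 + (31 / 3200) * x ^ 7) +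
      (10240 * (w - (1 / 4)) ^ 2 * ((1 / 2) - w) ^ 3) * ((1341 / 6400) + (461 / 6400) * x + (73 / 100) * x ^ 2 - (597 / 400) * x ^ 3 + (987 / 6400) * x ^ 4 + (3167 / 6400) * x ^ 5 + (73 / 400) * x ^ 6 + (31 / 1600) * x ^ 7) +
      (10240 * (w - (1 / 4)) ^ 3 * ((1 / 2) - w) ^ 2) * ((987 / 3200) - (419 / 6400) * x + (1193 / 1600) * x ^ 2 - (4193 / 3200) * x ^ 3 - (333 / 3200) * x ^ 4 + (3149 / 6400) * x ^ 5 + (213 / 800) * x ^ 6 + (3 / 80) * x ^ 7) +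
      (5120 * (w - (1 / 4)) ^ 4 * ((1 / 2) - w)) * ((669 / 1600) - (171 / 800) * x + (553 / 800) * x ^ 2 - (83 / 80) * x ^ 3 - (527 / 1600) * x ^ 4 + (333 / 800) * x ^ 5 + (71 / 200) * x ^ 6 + (7 / 100) * x ^ 7) +
      (1024 * (w - (1 / 4)) ^ 5) * ((423 / 800) - (113 / 320) * x + (23 / 40) * x ^ 2 - (23 / 32) * x ^ 3 - (79 / 160) * x ^ 4 + (451 / 1600) * x ^ 5 + (17 / 40) * x ^ 6 + (1 / 8) * x ^ 7) := by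
    unfold Tp
    push_cast
    ring
  rw [e]
  exact add_nonneg (add_nonneg (add_nonneg (add_nonneg (add_nonneg (mul_nonneg m0 b0) (mul_nonneg m1 b1)) (mul_nonneg m2 b2)) (mul_nonneg m3 b3)) (mul_nonneg m4 b4)) (mul_nonneg m5 b5)

theorem tp1_10_2_c0 {x : ℝ} (h0 : 0 ≤ x) (h1 : x ≤ 1) : 0 ≤ (423 / 800) - (113 / 320) * x + (23 / 40) * x ^ 2 - (23 / 32) * x ^ 3 - (79 / 160) * x ^ 4 + (451 / 1600) * x ^ 5 + (17 / 40) * x ^ 6 + (1 / 8) * x ^ 7 := by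
  have h : ∀ s u : ℝ, 0 ≤ s → 0 ≤ u → 0 ≤ (423 / 800) * u ^ 7 + (5357 / 1600) * s * u ^ 6 + (239 / 25) * s ^ 2 * u ^ 5 + (4917 / 320) * s ^ 3 * u ^ 4 + (553 / 40) * s ^ 4 * u ^ 3 + (1209 / 200) * s ^ 5 * u ^ 2 + (109 / 100) * s ^ 6 * u + (37 / 100) * s ^ 7 := by
    intro s u hs hu
    positivity
  refine le_of_le_of_eq (h x (1 - x) (by linarith) (by linarith)) ?_
  ring

theorem tp1_10_2_c1 {x : ℝ} (h0 : 0 ≤ x) (h1 : x ≤ 1) : 0 ≤ (3 / 4) - (1011 / 1600) * x + (137 / 400) * x ^ 2 - (13 / 160) * x ^ 3 - (329 / 400) * x ^ 4 + (21 / 1600) * x ^ 5 + (113 / 200) * x ^ 6 + (47 / 200) * x ^ 7 := by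
  have h : ∀ s u : ℝ, 0 ≤ s → 0 ≤ u → 0 ≤ (3 / 4) * u ^ 7 + (7389 / 1600) * s * u ^ 6 + (9841 / 800) * s ^ 2 * u ^ 5 + (5889 / 320) * s ^ 3 * u ^ 4 + (1589 / 100) * s ^ 4 * u ^ 3 + (1351 / 200) * s ^ 5 * u ^ 2 + (97 / 100) * s ^ 6 * u + (37 / 100) * s ^ 7 := by
    intro s u hs hu
    positivity
  refine le_of_le_of_eq (h x (1 - x) (by linarith) (by linarith)) ?_
  ring

theorem tp1_10_2_c2 {x : ℝ} (h0 : 0 ≤ x) (h1 : x ≤ 1) : 0 ≤ (39 / 40) - (7 / 8) * x - (11 / 80) * x ^ 2 + (37 / 50) * x ^ 3 - (363 / 400) * x ^ 4 - (49 / 100) * x ^ 5 + (63 / 100) * x ^ 6 + (87 / 200) * x ^ 7 := by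
  have h : ∀ s u : ℝ, 0 ≤ s → 0 ≤ u → 0 ≤ (39 / 40) * u ^ 7 + (119 / 20) * s * u ^ 6 + (1207 / 80) * s ^ 2 * u ^ 5 + (8421 / 400) * s ^ 3 * u ^ 4 + (6921 / 400) * s ^ 4 * u ^ 3 + (2881 / 400) * s ^ 5 * u ^ 2 + (31 / 40) * s ^ 6 * u + (37 / 100) * s ^ 7 := by
    intro s u hs hu
    positivity
  refine le_of_le_of_eq (h x (1 - x) (by linarith) (by linarith)) ?_
  ring

theorem tp1_10_2_c3 {x : ℝ} (h0 : 0 ≤ x) (h1 : x ≤ 1) : 0 ≤ (9 / 8) - (37 / 40) * x - (4 / 5) * x ^ 2 + (111 / 80) * x ^ 3 - (21 / 40) * x ^ 4 - (89 / 80) * x ^ 5 + (43 / 100) * x ^ 6 + (79 / 100) * x ^ 7 := by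
  have h : ∀ s u : ℝ, 0 ≤ s → 0 ≤ u → 0 ≤ (9 / 8) * u ^ 7 + (139 / 20) * s * u ^ 6 + (691 / 40) * s ^ 2 * u ^ 5 + (1831 / 80) * s ^ 3 * u ^ 4 + (179 / 10) * s ^ 4 * u ^ 3 + (591 / 80) * s ^ 5 * u ^ 2 + (101 / 200) * s ^ 6 * u + (37 / 100) * s ^ 7 := by
    intro s u hs hu
    positivity
  refine le_of_le_of_eq (h x (1 - x) (by linarith) (by linarith)) ?_
  ring

theorem tp1_10_2_c4 {x : ℝ} (h0 : 0 ≤ x) (h1 : x ≤ 1) : 0 ≤ (6 / 5) - (9 / 10) * x - (13 / 10) * x ^ 2 + (8 / 5) * x ^ 3 + (3 / 25) * x ^ 4 - (27 / 20) * x ^ 5 - (2 / 5) * x ^ 6 + (7 / 5) * x ^ 7 := by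
  have h : ∀ s u : ℝ, 0 ≤ s → 0 ≤ u → 0 ≤ (6 / 5) * u ^ 7 + (15 / 2) * s * u ^ 6 + (37 / 2) * s ^ 2 * u ^ 5 + (118 / 5) * s ^ 3 * u ^ 4 + (438 / 25) * s ^ 4 * u ^ 3 + (731 / 100) * s ^ 5 * u ^ 2 + (4 / 25) * s ^ 6 * u + (37 / 100) * s ^ 7 := by
    intro s u hs hu
    positivity
  refine le_of_le_of_eq (h x (1 - x) (by linarith) (by linarith)) ?_
  ring

theorem tp1_10_2_c5 {x : ℝ} (h0 : 0 ≤ x) (h1 : x ≤ 1) : 0 ≤ (6 / 5) - (4 / 5) * x - (9 / 5) * x ^ 2 + 2 * x ^ 3 - (23 / 100) * x ^ 5 - (12 / 5) * x ^ 6 + (12 / 5) * x ^ 7 := by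
  have h : ∀ s u : ℝ, 0 ≤ s → 0 ≤ u → 0 ≤ (6 / 5) * u ^ 8 + (44 / 5) * s * u ^ 7 + (131 / 5) * s ^ 2 * u ^ 6 + (208 / 5) * s ^ 3 * u ^ 5 + 39 * s ^ 4 * u ^ 4 + (2297 / 100) * s ^ 5 * u ^ 3 + (671 / 100) * s ^ 6 * u ^ 2 + (11 / 100) * s ^ 7 * u + (37 / 100) * s ^ 8 := by
    intro s u hs hu
    positivity
  refine le_of_le_of_eq (h x (1 - x) (by linarith) (by linarith)) ?_
  ring

theorem tp1_10_2 {x w : ℝ} (h0 : 0 ≤ x) (h1 : x ≤ 1) (h2 : 1 / 2 ≤ w) (h3 : w ≤ 1) :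
    0 ≤ Tp 1 (8 / 5) (6 / 5) 3 (7 / 25) (9 / 50) (1 / 20) 0 x w 0 := by
  have hp : 0 ≤ (w - (1 / 2)) := by linarith
  have hr : 0 ≤ (1 - w) := by linarith
  have b0 := tp1_10_2_c0 h0 h1
  have m0 : 0 ≤ 32 * (1 - w) ^ 5 := by positivity
  have b1 := tp1_10_2_c1 h0 h1
  have m1 : 0 ≤ 160 * (w - (1 / 2)) * (1 - w) ^ 4 := by positivity
  have b2 := tp1_10_2_c2 h0 h1
  have m2 : 0 ≤ 320 * (w - (1 / 2)) ^ 2 * (1 - w) ^ 3 := by positivity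
  have b3 := tp1_10_2_c3 h0 h1
  have m3 : 0 ≤ 320 * (w - (1 / 2)) ^ 3 * (1 - w) ^ 2 := by positivity
  have b4 := tp1_10_2_c4 h0 h1
  have m4 : 0 ≤ 160 * (w - (1 / 2)) ^ 4 * (1 - w) := by positivity
  have b5 := tp1_10_2_c5 h0 h1
  have m5 : 0 ≤ 32 * (w - (1 / 2)) ^ 5 := by positivity
  have e : Tp 1 (8 / 5) (6 / 5) 3 (7 / 25) (9 / 50) (1 / 20) 0 x w 0 = (32 * (1 - w) ^ 5) * ((423 / 800) - (113 / 320) * x + (23 / 40) * x ^ 2 - (23 / 32) * x ^ 3 - (79 / 160) * x ^ 4 + (451 / 1600) * x ^ 5 + (17 / 40) * x ^ 6 + (1 / 8) * x ^ 7) +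
      (160 * (w - (1 / 2)) * (1 - w) ^ 4) * ((3 / 4) - (1011 / 1600) * x + (137 / 400) * x ^ 2 - (13 / 160) * x ^ 3 - (329 / 400) * x ^ 4 + (21 / 1600) * x ^ 5 + (113 / 200) * x ^ 6 + (47 / 200) * x ^ 7) +
      (320 * (w - (1 / 2)) ^ 2 * (1 - w) ^ 3) * ((39 / 40) - (7 / 8) * x - (11 / 80) * x ^ 2 + (37 / 50) * x ^ 3 - (363 / 400) * x ^ 4 - (49 / 100) * x ^ 5 + (63 / 100) * x ^ 6 + (87 / 200) * x ^ 7) +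
      (320 * (w - (1 / 2)) ^ 3 * (1 - w) ^ 2) * ((9 / 8) - (37 / 40) * x - (4 / 5) * x ^ 2 + (111 / 80) * x ^ 3 - (21 / 40) * x ^ 4 - (89 / 80) * x ^ 5 + (43 / 100) * x ^ 6 + (79 / 100) * x ^ 7) +
      (160 * (w - (1 / 2)) ^ 4 * (1 - w)) * ((6 / 5) - (9 / 10) * x - (13 / 10) * x ^ 2 + (8 / 5) * x ^ 3 + (3 / 25) * x ^ 4 - (27 / 20) * x ^ 5 - (2 / 5) * x ^ 6 + (7 / 5) * x ^ 7) +
      (32 * (w - (1 / 2)) ^ 5) * ((6 / 5) - (4 / 5) * x - (9 / 5) * x ^ 2 + 2 * x ^ 3 - (23 / 100) * x ^ 5 - (12 / 5) * x ^ 6 + (12 / 5) * x ^ 7) := by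
    unfold Tp
    push_cast
    ring
  rw [e]
  exact add_nonneg (add_nonneg (add_nonneg (add_nonneg (add_nonneg (mul_nonneg m0 b0) (mul_nonneg m1 b1)) (mul_nonneg m2 b2)) (mul_nonneg m3 b3)) (mul_nonneg m4 b4)) (mul_nonneg m5 b5)

theorem tp1_10 {x w : ℝ} (h0 : 0 ≤ x) (h1 : x ≤ 1) (h2 : 0 ≤ w) (h3 : w ≤ 1) :
    0 ≤ Tp 1 (8 / 5) (6 / 5) 3 (7 / 25) (9 / 50) (1 / 20) 0 x w 0 := by
  rcases le_total w (1 / 4) with k | k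
  · exact tp1_10_0 (by linarith) (by linarith) (by linarith) (by linarith)
  · rcases le_total w (1 / 2) with k | k
    · exact tp1_10_1 (by linarith) (by linarith) (by linarith) (by linarith)
    · exact tp1_10_2 (by linarith) (by linarith) (by linarith) (by linarith)

theorem tp1_11_0_c0 {x : ℝ} (h0 : 0 ≤ x) (h1 : x ≤ 1) : 0 ≤ (23 / 25) - (43 / 20) * x + (3 / 5) * x ^ 2 + (7 / 5) * x ^ 3 - (2 / 5) * x ^ 4 := by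
  have h : ∀ s u : ℝ, 0 ≤ s → 0 ≤ u → 0 ≤ (23 / 25) * u ^ 7 + (429 / 100) * s * u ^ 6 + (351 / 50) * s ^ 2 * u ^ 5 + (87 / 20) * s ^ 3 * u ^ 4 + (2 / 5) * s ^ 4 * u ^ 3 + (27 / 100) * s ^ 5 * u ^ 2 + (47 / 50) * s ^ 6 * u + (37 / 100) * s ^ 7 := by
    intro s u hs hu
    positivity
  refine le_of_le_of_eq (h x (1 - x) (by linarith) (by linarith)) ?_
  ring

theorem tp1_11_0_c1 {x : ℝ} (h0 : 0 ≤ x) (h1 : x ≤ 1) : 0 ≤ (2 / 5) - (7 / 20) * x - (8 / 25) * x ^ 2 + (22 / 25) * x ^ 4 - (6 / 25) * x ^ 5 := by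
  have h : ∀ s u : ℝ, 0 ≤ s → 0 ≤ u → 0 ≤ (2 / 5) * u ^ 5 + (33 / 20) * s * u ^ 4 + (57 / 25) * s ^ 2 * u ^ 3 + (47 / 50) * s ^ 3 * u ^ 2 + (13 / 25) * s ^ 4 * u + (37 / 100) * s ^ 5 := by
    intro s u hs hu
    positivity
  refine le_of_le_of_eq (h x (1 - x) (by linarith) (by linarith)) ?_
  ring

theorem tp1_11_0_c2 {x : ℝ} (h0 : 0 ≤ x) (h1 : x ≤ 1) : 0 ≤ (3 / 5) - (4 / 5) * x + (31 / 50) * x ^ 2 - (53 / 100) * x ^ 3 + (3 / 25) * x ^ 4 + (12 / 25) * x ^ 5 - (3 / 25) * x ^ 6 := by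
  have h : ∀ s u : ℝ, 0 ≤ s → 0 ≤ u → 0 ≤ (3 / 5) * u ^ 6 + (14 / 5) * s * u ^ 5 + (281 / 50) * s ^ 2 * u ^ 4 + (119 / 20) * s ^ 3 * u ^ 3 + (13 / 4) * s ^ 4 * u ^ 2 + (121 / 100) * s ^ 5 * u + (37 / 100) * s ^ 6 := by
    intro s u hs hu
    positivity
  refine le_of_le_of_eq (h x (1 - x) (by linarith) (by linarith)) ?_
  ring

theorem tp1_11_0_c3 {x : ℝ} (h0 : 0 ≤ x) (h1 : x ≤ 1) : 0 ≤ (4 / 5) - (4 / 5) * x + (63 / 100) * x ^ 3 - (39 / 50) * x ^ 4 + (9 / 25) * x ^ 5 + (1 / 5) * x ^ 6 - (1 / 25) * x ^ 7 := by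
  have h : ∀ s u : ℝ, 0 ≤ s → 0 ≤ u → 0 ≤ (4 / 5) * u ^ 7 + (24 / 5) * s * u ^ 6 + 12 * s ^ 2 * u ^ 5 + (1663 / 100) * s ^ 3 * u ^ 4 + (687 / 50) * s ^ 4 * u ^ 3 + (33 / 5) * s ^ 5 * u ^ 2 + (19 / 10) * s ^ 6 * u + (37 / 100) * s ^ 7 := by
    intro s u hs hu
    positivity
  refine le_of_le_of_eq (h x (1 - x) (by linarith) (by linarith)) ?_
  ring

theorem tp1_11_0_c4 {x : ℝ} (h0 : 0 ≤ x) (h1 : x ≤ 1) : 0 ≤ 1 - (4 / 5) * x - (2 / 5) * x ^ 2 + (4 / 5) * x ^ 3 - (3 / 25) * x ^ 4 - (67 / 100) * x ^ 5 + (13 / 25) * x ^ 6 + (1 / 25) * x ^ 7 := by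
  have h : ∀ s u : ℝ, 0 ≤ s → 0 ≤ u → 0 ≤ 1 * u ^ 7 + (31 / 5) * s * u ^ 6 + (79 / 5) * s ^ 2 * u ^ 5 + (109 / 5) * s ^ 3 * u ^ 4 + (452 / 25) * s ^ 4 * u ^ 3 + (877 / 100) * s ^ 5 * u ^ 2 + (111 / 50) * s ^ 6 * u + (37 / 100) * s ^ 7 := by
    intro s u hs hu
    positivity
  refine le_of_le_of_eq (h x (1 - x) (by linarith) (by linarith)) ?_
  ring

theorem tp1_11_0_c5 {x : ℝ} (h0 : 0 ≤ x) (h1 : x ≤ 1) : 0 ≤ (6 / 5) - (4 / 5) * x - (4 / 5) * x ^ 2 + 1 * x ^ 3 - (23 / 100) * x ^ 5 - (3 / 5) * x ^ 6 + (3 / 5) * x ^ 7 := by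
  have h : ∀ s u : ℝ, 0 ≤ s → 0 ≤ u → 0 ≤ (6 / 5) * u ^ 7 + (38 / 5) * s * u ^ 6 + (98 / 5) * s ^ 2 * u ^ 5 + 27 * s ^ 3 * u ^ 4 + 22 * s ^ 4 * u ^ 3 + (1097 / 100) * s ^ 5 * u ^ 2 + (127 / 50) * s ^ 6 * u + (37 / 100) * s ^ 7 := by
    intro s u hs hu
    positivity
  refine le_of_le_of_eq (h x (1 - x) (by linarith) (by linarith)) ?_
  ring

theorem tp1_11_0 {x w : ℝ} (h0 : 0 ≤ x) (h1 : x ≤ 1) (h2 : 0 ≤ w) (h3 : w ≤ 1) :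
    0 ≤ Tp 1 (8 / 5) (6 / 5) 3 (7 / 25) (9 / 50) (1 / 20) 0 x w 1 := by
  have hp : 0 ≤ w := by linarith
  have hr : 0 ≤ (1 - w) := by linarith
  have b0 := tp1_11_0_c0 h0 h1
  have m0 : 0 ≤ 1 * (1 - w) ^ 5 := by positivity
  have b1 := tp1_11_0_c1 h0 h1
  have m1 : 0 ≤ 5 * w * (1 - w) ^ 4 := by positivity
  have b2 := tp1_11_0_c2 h0 h1
  have m2 : 0 ≤ 10 * w ^ 2 * (1 - w) ^ 3 := by positivity
  have b3 := tp1_11_0_c3 h0 h1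
  have m3 : 0 ≤ 10 * w ^ 3 * (1 - w) ^ 2 := by positivity
  have b4 := tp1_11_0_c4 h0 h1
  have m4 : 0 ≤ 5 * w ^ 4 * (1 - w) := by positivity
  have b5 := tp1_11_0_c5 h0 h1
  have m5 : 0 ≤ 1 * w ^ 5 := by positivity
  have e : Tp 1 (8 / 5) (6 / 5) 3 (7 / 25) (9 / 50) (1 / 20) 0 x w 1 = (1 * (1 - w) ^ 5) * ((23 / 25) - (43 / 20) * x + (3 / 5) * x ^ 2 + (7 / 5) * x ^ 3 - (2 / 5) * x ^ 4) +
      (5 * w * (1 - w) ^ 4) * ((2 / 5) - (7 / 20) * x - (8 / 25) * x ^ 2 + (22 / 25) * x ^ 4 - (6 / 25) * x ^ 5) +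
      (10 * w ^ 2 * (1 - w) ^ 3) * ((3 / 5) - (4 / 5) * x + (31 / 50) * x ^ 2 - (53 / 100) * x ^ 3 + (3 / 25) * x ^ 4 + (12 / 25) * x ^ 5 - (3 / 25) * x ^ 6) +
      (10 * w ^ 3 * (1 - w) ^ 2) * ((4 / 5) - (4 / 5) * x + (63 / 100) * x ^ 3 - (39 / 50) * x ^ 4 + (9 / 25) * x ^ 5 + (1 / 5) * x ^ 6 - (1 / 25) * x ^ 7) +
      (5 * w ^ 4 * (1 - w)) * (1 - (4 / 5) * x - (2 / 5) * x ^ 2 + (4 / 5) * x ^ 3 - (3 / 25) * x ^ 4 - (67 / 100) * x ^ 5 + (13 / 25) * x ^ 6 + (1 / 25) * x ^ 7) +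
      (1 * w ^ 5) * ((6 / 5) - (4 / 5) * x - (4 / 5) * x ^ 2 + 1 * x ^ 3 - (23 / 100) * x ^ 5 - (3 / 5) * x ^ 6 + (3 / 5) * x ^ 7) := by
    unfold Tp
    push_cast
    ring
  rw [e]
  exact add_nonneg (add_nonneg (add_nonneg (add_nonneg (add_nonneg (mul_nonneg m0 b0) (mul_nonneg m1 b1)) (mul_nonneg m2 b2)) (mul_nonneg m3 b3)) (mul_nonneg m4 b4)) (mul_nonneg m5 b5)

theorem tp1_11 {x w : ℝ} (h0 : 0 ≤ x) (h1 : x ≤ 1) (h2 : 0 ≤ w) (h3 : w ≤ 1) :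
    0 ≤ Tp 1 (8 / 5) (6 / 5) 3 (7 / 25) (9 / 50) (1 / 20) 0 x w 1 := by
  exact tp1_11_0 h0 h1 h2 h3

theorem Tp1 {a x w Y : ℝ} (ha : 5 / 7 ≤ a) (ha1 : a ≤ 1) (hx : 0 ≤ x) (hx1 : x ≤ 1) (hw : 0 ≤ w) (hw1 : w ≤ 1)
    (hY : 0 ≤ Y) (hY1 : Y ≤ 1) : 0 ≤ Tp a (8 / 5) (6 / 5) 3 (7 / 25) (9 / 50) (1 / 20) 0 x w Y := by
  have e : Tp a (8 / 5) (6 / 5) 3 (7 / 25) (9 / 50) (1 / 20) 0 x w Y = (1 - a) / (1 - (5 / 7)) * ((1 - Y) * Tp (5 / 7) (8 / 5) (6 / 5) 3 (7 / 25) (9 / 50) (1 / 20) 0 x w 0 + Y * Tp (5 / 7) (8 / 5) (6 / 5) 3 (7 / 25) (9 / 50) (1 / 20) 0 x w 1) +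
      (a - (5 / 7)) / (1 - (5 / 7)) * ((1 - Y) * Tp 1 (8 / 5) (6 / 5) 3 (7 / 25) (9 / 50) (1 / 20) 0 x w 0 + Y * Tp 1 (8 / 5) (6 / 5) 3 (7 / 25) (9 / 50) (1 / 20) 0 x w 1) +
      (1 - Y) * ((1 - x) ^ 2 * x) * ((1 - a) * (a - (5 / 7))) := by
    unfold Tp
    push_cast
    ring
  rw [e]
  have b1 := tp1_00 hx hx1 hw hw1
  have b2 := tp1_01 hx hx1 hw hw1
  have b3 := tp1_10 hx hx1 hw hw1
  have b4 := tp1_11 hx hx1 hw hw1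
  have c1 : 0 ≤ 1 - Y := by linarith
  have c2 : 0 ≤ 1 - a := by linarith
  have c3 : 0 ≤ a - (5 / 7) := by linarith
  have c4 : 0 ≤ 1 - x := by linarith
  have c5 : (0 : ℝ) < 1 - (5 / 7) := by norm_num
  positivity

end NullQ
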