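import Pool.Agent.Lib.H74Q.S3

set_option autoImplicit false

/-!
Chunk S4 (M). Bound for the quadratic form.
Proof. `1 + (t1 - t 0)/t = (1 - t 0/t) + t1/t`; the second part is `t1 K_le`. First part: with `q = 1 - 2 W`, `π = g - 2 W = q - (1 - g)`, `Y = t 0/t`, `v = 1/(1-z)`:
`cst = v π (3 q + z ((1+a) - 3 (2 W) v))` (from `3 P + 2 G = 3 + (1+a) z - 6 W v`, `6 W v = 6 W + 6 W z v`), so `(1 - Y) cst - Rd = v (3 (1-Y) π q - (1-g) q)`, and with `F = - t q^2 + (3/4) (t 0) q^2`: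
`F' = v (3 q^2 - 4 (1-g) q - 3 Y q π) = (1-Y) cst - Rd` (`q' = -2 P/t`, `P = v π`, `t' = v`). So `∫ (1-Y) cst = R + F s - F 0 <= R + t 0/4` as `F s <= 0` (`t s >= t 0`), `F 0 = - t 0/4`.
-/

open MeasureTheory Filter Topology Set

namespace NullQ

variable {z dz t : ℝ → ℝ} {a s : ℝ}

/-- The algebraic identity for the derivative of `F`. -/
theorem s4_alg (z t t0 W a : ℝ) (hz : 1 - z ≠ 0) (ht : t ≠ 0) :
    (1 - t0 / t) * (3 * ((gg a z - 2 * W) / (1 - z)) ^ 2 +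
        2 * ((2 - a) * z + 3 / 2 * a * z ^ 2) * ((gg a z - 2 * W) / (1 - z))) -
      ((1 - gg a z) * (1 - 2 * W) + (1 - t0 / t) * (gg a z - 2 * W) * z *
        ((1 + a) - 3 * (2 * W) / (1 - z))) / (1 - z) =
    2 * (1 - 2 * W) * (-(2 * (((gg a z - 2 * W) / (1 - z)) / t))) * (3 / 4 * t0 - t) +
      (1 - 2 * W) ^ 2 * (-(1 / (1 - z))) := by
  obtain ⟨u, hu⟩ : ∃ u, u = 1 - z := ⟨_, rfl⟩
  have hz' : z = 1 - u := by rw [hu]; ring
  rw [← hu] at hz ⊢
  unfold gg
  rw [hz']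
  field_simp
  ring

theorem s4_der (h : ZT z dz t) (a : ℝ) (hs : 0 < s) :
    HasDerivAt (fun r => (1 - 2 * WW a z t r) ^ 2 * (3 / 4 * t 0 - t r))
      ((1 - t 0 / t s) * cst a z t s - Rd a z t s) s := by
  have hq : HasDerivAt (fun r => 1 - 2 * WW a z t r) (-(2 * (PP a z t s / t s))) s :=
    ((WW_der h a hs).const_mul 2).const_sub 1
  have h1 := (hq.pow 2).mul ((h.td s hs).const_sub (3 / 4 * t 0))
  have ht := t_pos h hs.le
  have hz : 1 - z s ≠ 0 := by
    have := h.z1 s hs.le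
    linarith
  refine h1.congr_deriv ?_
  have h2 := s4_alg (z s) (t s) (t 0) (WW a z t s) a hz ht.ne'
  unfold cst Rd PP
  rw [h2]
  norm_num

theorem s4_first (h : ZT z dz t) (a : ℝ) (hs : 0 ≤ s) :
    ∫ r in (0 : ℝ)..s, (1 - t 0 / t r) * cst a z t r ≤ RR a z t s + 1 / 4 * t 0 := by
  have hYc : ContinuousOn (fun r => t 0 / t r) (Ici 0) :=
    continuousOn_const.div h.tc fun r hr => (t_pos h hr).ne'
  have hc1 : ContinuousOn (fun r => (1 - t 0 / t r) * cst a z t r) (Ici 0) :=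
    (continuousOn_const.sub hYc).mul (cst_cont h a)
  have hFc : ContinuousOn (fun r => (1 - 2 * WW a z t r) ^ 2 * (3 / 4 * t 0 - t r)) (Ici 0) :=
    ((continuousOn_const.sub (continuousOn_const.mul (WW_cont h a))).pow 2).mul
      (continuousOn_const.sub h.tc)
  have key := NullPen.const_of_der
    (F := fun r => (∫ x in (0 : ℝ)..r, (1 - t 0 / t x) * cst a z t x) - RR a z t r -
      (1 - 2 * WW a z t r) ^ 2 * (3 / 4 * t 0 - t r))
    (((NullPen.g1_int_cont hc1).sub (NullPen.g1_int_cont (Rd_cont h a))).sub hFc)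
    (fun r hr => by
      have h1 := ((NullPen.g1_int_der hc1 hr).sub (NullPen.g1_int_der (Rd_cont h a) hr)).sub
        (s4_der h a hr)
      refine h1.congr_deriv ?_
      ring) hs
  have h0 : (∫ x in (0 : ℝ)..0, (1 - t 0 / t x) * cst a z t x) - RR a z t 0 -
      (1 - 2 * WW a z t 0) ^ 2 * (3 / 4 * t 0 - t 0) = 1 / 4 * t 0 := by
    unfold RR
    rw [WW_zero, intervalIntegral.integral_same, intervalIntegral.integral_same]
    ring
  have key' : (∫ x in (0 : ℝ)..s, (1 - t 0 / t x) * cst a z t x) - RR a z t s -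
      (1 - 2 * WW a z t s) ^ 2 * (3 / 4 * t 0 - t s) = 1 / 4 * t 0 := key.trans h0
  have h2 : (1 - 2 * WW a z t s) ^ 2 * (3 / 4 * t 0 - t s) ≤ 0 := by
    have h3 := t_ge h hs
    have h4 := h.t0
    exact mul_nonpos_of_nonneg_of_nonpos (sq_nonneg _) (by linarith)
  linarith

theorem quad_le (h : ZT z dz t) (ha : -1 ≤ a) (ha1 : a ≤ 1) {t1 : ℝ} (ht1 : 0 ≤ t1) (hs : 0 ≤ s) :
    ∫ r in (0 : ℝ)..s, (1 + (t1 - t 0) / t r) * cst a z t r ≤
      3 / 4 * t1 + 1 / 4 * t 0 + RR a z t s + t1 * (1 + a) ^ 2 / 36 := by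
  have hYc : ContinuousOn (fun r => t 0 / t r) (Ici 0) :=
    continuousOn_const.div h.tc fun r hr => (t_pos h hr).ne'
  have hc1 : ContinuousOn (fun r => (1 - t 0 / t r) * cst a z t r) (Ici 0) :=
    (continuousOn_const.sub hYc).mul (cst_cont h a)
  have hc2 : ContinuousOn (fun r => cst a z t r / t r) (Ici 0) :=
    (cst_cont h a).div h.tc fun r hr => (t_pos h hr).ne'
  have hsub : uIcc 0 s ⊆ Ici 0 := by
    rw [uIcc_of_le hs]
    exact Icc_subset_Ici_self
  have hi1 := (hc1.mono hsub).intervalIntegrable (μ := volume)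
  have hi2 := ((hc2.mono hsub).intervalIntegrable (μ := volume)).const_mul t1
  have e : ∫ r in (0 : ℝ)..s, (1 + (t1 - t 0) / t r) * cst a z t r =
      (∫ r in (0 : ℝ)..s, (1 - t 0 / t r) * cst a z t r) + t1 * ∫ r in (0 : ℝ)..s, cst a z t r / t r := by
    rw [← intervalIntegral.integral_const_mul, ← intervalIntegral.integral_add hi1 hi2]
    refine intervalIntegral.integral_congr fun r _ => ?_
    show (1 + (t1 - t 0) / t r) * cst a z t r = (1 - t 0 / t r) * cst a z t r + t1 * (cst a z t r / t r)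
    ring
  rw [e]
  have h1 := s4_first h a hs
  have h2 := mul_le_mul_of_nonneg_left (K_le h ha ha1 hs) ht1
  have h3 : t1 * (3 / 4 + (1 + a) ^ 2 / 36) = 3 / 4 * t1 + t1 * (1 + a) ^ 2 / 36 := by ring
  linarith

end NullQ
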