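import Pool.Agent.Lib.H74Q.Sc

set_option autoImplicit false
set_option maxRecDepth 4000

/-!
The polynomial of the certificate 2 is nonnegative (Bernstein forms, generated).
-/

namespace NullQ

theorem tp2_00_0_c0 {x : ℝ} (h0 : 0 ≤ x) (h1 : x ≤ 1) : 0 ≤ (233 / 100) - (2797283 / 649800) * x - (197831 / 649800) * x ^ 2 + (329801 / 81225) * x ^ 3 - (371 / 475) * x ^ 4 := by
  have h : ∀ s u : ℝ, 0 ≤ s → 0 ≤ u → 0 ≤ (233 / 100) * u ^ 5 + (4772887 / 649800) * s * u ^ 4 + (3753377 / 649800) * s ^ 2 * u ^ 3 + (401557 / 649800) * s ^ 3 * u ^ 2 + (9769 / 11400) * s ^ 4 * u + 1 * s ^ 5 := by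
    intro s u hs hu
    positivity
  refine le_of_le_of_eq (h x (1 - x) (by linarith) (by linarith)) ?_
  ring

theorem tp2_00_0_c1 {x : ℝ} (h0 : 0 ≤ x) (h1 : x ≤ 1) : 0 ≤ (599 / 400) - (5699747 / 2599200) * x - (2700539 / 2599200) * x ^ 2 + (400081 / 162450) * x ^ 3 + (1403 / 3800) * x ^ 4 - (371 / 3800) * x ^ 5 := by
  have h : ∀ s u : ℝ, 0 ≤ s → 0 ≤ u → 0 ≤ (599 / 400) * u ^ 5 + (13761763 / 2599200) * s * u ^ 4 + (13423493 / 2599200) * s ^ 2 * u ^ 3 + (3024217 / 2599200) * s ^ 3 * u ^ 2 + (40757 / 45600) * s ^ 4 * u + 1 * s ^ 5 := by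
    intro s u hs hu
    positivity
  refine le_of_le_of_eq (h x (1 - x) (by linarith) (by linarith)) ?_
  ring

theorem tp2_00_0_c2 {x : ℝ} (h0 : 0 ≤ x) (h1 : x ≤ 1) : 0 ≤ (1497 / 1600) - (178807 / 207936) * x - (6225697 / 5198400) * x ^ 2 + (5741831 / 5198400) * x ^ 3 + (3939 / 3800) * x ^ 4 - (101 / 9120) * x ^ 5 - (371 / 45600) * x ^ 6 := by
  have h : ∀ s u : ℝ, 0 ≤ s → 0 ≤ u → 0 ≤ (1497 / 1600) * u ^ 6 + (24712343 / 5198400) * s * u ^ 5 + (14793241 / 1732800) * s ^ 2 * u ^ 4 + (11137451 / 1732800) * s ^ 3 * u ^ 3 + (1689301 / 649800) * s ^ 4 * u ^ 2 + (28871 / 15200) * s ^ 5 * u + 1 * s ^ 6 := by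
    intro s u hs hu
    positivity
  refine le_of_le_of_eq (h x (1 - x) (by linarith) (by linarith)) ?_
  ring

theorem tp2_00_0_c3 {x : ℝ} (h0 : 0 ≤ x) (h1 : x ≤ 1) : 0 ≤ (3641 / 6400) - (2233487 / 41587200) * x - (1772675 / 1663488) * x ^ 2 + (2612083 / 41587200) * x ^ 3 + (63767 / 48640) * x ^ 4 + (2751 / 15200) * x ^ 5 - (53 / 12160) * x ^ 6 := by
  have h : ∀ s u : ℝ, 0 ≤ s → 0 ≤ u → 0 ≤ (3641 / 6400) * u ^ 6 + (139721821 / 41587200) * s * u ^ 5 + (2495033 / 346560) * s ^ 2 * u ^ 4 + (92064691 / 13862400) * s ^ 3 * u ^ 3 + (4031537 / 1299600) * s ^ 4 * u ^ 2 + (21361 / 11400) * s ^ 5 * u + 1 * s ^ 6 := by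
    intro s u hs hu
    positivity
  refine le_of_le_of_eq (h x (1 - x) (by linarith) (by linarith)) ?_
  ring

theorem tp2_00_0_c4 {x : ℝ} (h0 : 0 ≤ x) (h1 : x ≤ 1) : 0 ≤ (8723 / 25600) + (8369111 / 20793600) * x - (6779911 / 8317440) * x ^ 2 - (13736629 / 20793600) * x ^ 3 + (126589 / 97280) * x ^ 4 + (3039 / 7600) * x ^ 5 + (477 / 15200) * x ^ 6 := by
  have h : ∀ s u : ℝ, 0 ≤ s → 0 ≤ u → 0 ≤ (8723 / 25600) * u ^ 6 + (101761303 / 41587200) * s * u ^ 5 + (11659967 / 1848320) * s ^ 2 * u ^ 4 + (23976751 / 3465600) * s ^ 3 * u ^ 3 + (579061 / 162450) * s ^ 4 * u ^ 2 + (1657 / 912) * s ^ 5 * u + 1 * s ^ 6 := by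
    intro s u hs hu
    positivity
  refine le_of_le_of_eq (h x (1 - x) (by linarith) (by linarith)) ?_
  ring

theorem tp2_00_0 {x w : ℝ} (h0 : 0 ≤ x) (h1 : x ≤ 1) (h2 : 0 ≤ w) (h3 : w ≤ 1 / 4) :
    0 ≤ Tp (53 / 57) (51 / 20) (1 / 2) 2 (69 / 100) (41 / 100) (7 / 50) 0 x w 0 := by
  have hp : 0 ≤ w := by linarith
  have hr : 0 ≤ ((1 / 4) - w) := by linarith
  have b0 := tp2_00_0_c0 h0 h1
  have m0 : 0 ≤ 256 * ((1 / 4) - w) ^ 4 := by positivity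
  have b1 := tp2_00_0_c1 h0 h1
  have m1 : 0 ≤ 1024 * w * ((1 / 4) - w) ^ 3 := by positivity
  have b2 := tp2_00_0_c2 h0 h1
  have m2 : 0 ≤ 1536 * w ^ 2 * ((1 / 4) - w) ^ 2 := by positivity
  have b3 := tp2_00_0_c3 h0 h1
  have m3 : 0 ≤ 1024 * w ^ 3 * ((1 / 4) - w) := by positivity
  have b4 := tp2_00_0_c4 h0 h1
  have m4 : 0 ≤ 256 * w ^ 4 := by positivity
  have e : Tp (53 / 57) (51 / 20) (1 / 2) 2 (69 / 100) (41 / 100) (7 / 50) 0 x w 0 = (256 * ((1 / 4) - w) ^ 4) * ((233 / 100) - (2797283 / 649800) * x - (197831 / 649800) * x ^ 2 + (329801 / 81225) * x ^ 3 - (371 / 475) * x ^ 4) +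
      (1024 * w * ((1 / 4) - w) ^ 3) * ((599 / 400) - (5699747 / 2599200) * x - (2700539 / 2599200) * x ^ 2 + (400081 / 162450) * x ^ 3 + (1403 / 3800) * x ^ 4 - (371 / 3800) * x ^ 5) +
      (1536 * w ^ 2 * ((1 / 4) - w) ^ 2) * ((1497 / 1600) - (178807 / 207936) * x - (6225697 / 5198400) * x ^ 2 + (5741831 / 5198400) * x ^ 3 + (3939 / 3800) * x ^ 4 - (101 / 9120) * x ^ 5 - (371 / 45600) * x ^ 6) +
      (1024 * w ^ 3 * ((1 / 4) - w)) * ((3641 / 6400) - (2233487 / 41587200) * x - (1772675 / 1663488) * x ^ 2 + (2612083 / 41587200) * x ^ 3 + (63767 / 48640) * x ^ 4 + (2751 / 15200) * x ^ 5 - (53 / 12160) * x ^ 6) +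
      (256 * w ^ 4) * ((8723 / 25600) + (8369111 / 20793600) * x - (6779911 / 8317440) * x ^ 2 - (13736629 / 20793600) * x ^ 3 + (126589 / 97280) * x ^ 4 + (3039 / 7600) * x ^ 5 + (477 / 15200) * x ^ 6) := by
    unfold Tp
    push_cast
    ring
  rw [e]
  exact add_nonneg (add_nonneg (add_nonneg (add_nonneg (mul_nonneg m0 b0) (mul_nonneg m1 b1)) (mul_nonneg m2 b2)) (mul_nonneg m3 b3)) (mul_nonneg m4 b4)

theorem tp2_00_1_c0 {x : ℝ} (h0 : 0 ≤ x) (h1 : x ≤ 1) : 0 ≤ (8723 / 25600) + (8369111 / 20793600) * x - (6779911 / 8317440) * x ^ 2 - (13736629 / 20793600) * x ^ 3 + (126589 / 97280) * x ^ 4 + (3039 / 7600) * x ^ 5 + (477 / 15200) * x ^ 6 := by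
  have h : ∀ s u : ℝ, 0 ≤ s → 0 ≤ u → 0 ≤ (8723 / 25600) * u ^ 6 + (101761303 / 41587200) * s * u ^ 5 + (11659967 / 1848320) * s ^ 2 * u ^ 4 + (23976751 / 3465600) * s ^ 3 * u ^ 3 + (579061 / 162450) * s ^ 4 * u ^ 2 + (1657 / 912) * s ^ 5 * u + 1 * s ^ 6 := by
    intro s u hs hu
    positivity
  refine le_of_le_of_eq (h x (1 - x) (by linarith) (by linarith)) ?_
  ring

theorem tp2_00_1_c1 {x : ℝ} (h0 : 0 ≤ x) (h1 : x ≤ 1) : 0 ≤ (1441 / 12800) + (35709931 / 41587200) * x - (4696447 / 8317440) * x ^ 2 - (57558599 / 41587200) * x ^ 3 + (31411 / 24320) * x ^ 4 + (99 / 160) * x ^ 5 + (4081 / 60800) * x ^ 6 := by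
  have h : ∀ s u : ℝ, 0 ≤ s → 0 ≤ u → 0 ≤ (1441 / 12800) * u ^ 6 + (12760157 / 8317440) * s * u ^ 5 + (15019637 / 2772480) * s ^ 2 * u ^ 4 + (99749317 / 13862400) * s ^ 3 * u ^ 3 + (5233439 / 1299600) * s ^ 4 * u ^ 2 + (44 / 25) * s ^ 5 * u + 1 * s ^ 6 := by
    intro s u hs hu
    positivity
  refine le_of_le_of_eq (h x (1 - x) (by linarith) (by linarith)) ?_
  ring

theorem tp2_00_1_c2 {x : ℝ} (h0 : 0 ≤ x) (h1 : x ≤ 1) : 0 ≤ (147 / 6400) + (10031359 / 10396800) * x - (1017037 / 5198400) * x ^ 2 - (18601679 / 10396800) * x ^ 3 + (121323 / 121600) * x ^ 4 + (39419 / 45600) * x ^ 5 + (1537 / 11400) * x ^ 6 := by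
  have h : ∀ s u : ℝ, 0 ≤ s → 0 ≤ u → 0 ≤ (147 / 6400) * u ^ 6 + (1433021 / 1299600) * s * u ^ 5 + (11489943 / 2310400) * s ^ 2 * u ^ 4 + (5223443 / 693120) * s ^ 3 * u ^ 3 + (2891203 / 649800) * s ^ 4 * u ^ 2 + (76237 / 45600) * s ^ 5 * u + 1 * s ^ 6 := by
    intro s u hs hu
    positivity
  refine le_of_le_of_eq (h x (1 - x) (by linarith) (by linarith)) ?_
  ring

theorem tp2_00_1_c3 {x : ℝ} (h0 : 0 ≤ x) (h1 : x ≤ 1) : 0 ≤ (49 / 3200) + (9333793 / 10396800) * x + (1245307 / 10396800) * x ^ 2 - (19485977 / 10396800) * x ^ 3 + (4017 / 7600) * x ^ 4 + (8043 / 7600) * x ^ 5 + (3869 / 15200) * x ^ 6 := by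
  have h : ∀ s u : ℝ, 0 ≤ s → 0 ≤ u → 0 ≤ (49 / 3200) * u ^ 6 + (10288999 / 10396800) * s * u ^ 5 + (5589143 / 1155200) * s ^ 2 * u ^ 4 + (27339067 / 3465600) * s ^ 3 * u ^ 3 + (6279389 / 1299600) * s ^ 4 * u ^ 2 + (70793 / 45600) * s ^ 5 * u + 1 * s ^ 6 := by
    intro s u hs hu
    positivity
  refine le_of_le_of_eq (h x (1 - x) (by linarith) (by linarith)) ?_
  ring

theorem tp2_00_1_c4 {x : ℝ} (h0 : 0 ≤ x) (h1 : x ≤ 1) : 0 ≤ (83 / 1600) + (98597 / 129960) * x + (838819 / 2599200) * x ^ 2 - (1113047 / 649800) * x ^ 3 + (357 / 30400) * x ^ 4 + (2131 / 1900) * x ^ 5 + (212 / 475) * x ^ 6 := by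
  have h : ∀ s u : ℝ, 0 ≤ s → 0 ≤ u → 0 ≤ (83 / 1600) * u ^ 6 + (2780941 / 2599200) * s * u ^ 5 + (8480681 / 1732800) * s ^ 2 * u ^ 4 + (3553193 / 433200) * s ^ 3 * u ^ 3 + (1681097 / 324900) * s ^ 4 * u ^ 2 + (5327 / 3800) * s ^ 5 * u + 1 * s ^ 6 := by
    intro s u hs hu
    positivity
  refine le_of_le_of_eq (h x (1 - x) (by linarith) (by linarith)) ?_
  ring

theorem tp2_00_1 {x w : ℝ} (h0 : 0 ≤ x) (h1 : x ≤ 1) (h2 : 1 / 4 ≤ w) (h3 : w ≤ 1 / 2) :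
    0 ≤ Tp (53 / 57) (51 / 20) (1 / 2) 2 (69 / 100) (41 / 100) (7 / 50) 0 x w 0 := by
  have hp : 0 ≤ (w - (1 / 4)) := by linarith
  have hr : 0 ≤ ((1 / 2) - w) := by linarith
  have b0 := tp2_00_1_c0 h0 h1
  have m0 : 0 ≤ 256 * ((1 / 2) - w) ^ 4 := by positivity
  have b1 := tp2_00_1_c1 h0 h1
  have m1 : 0 ≤ 1024 * (w - (1 / 4)) * ((1 / 2) - w) ^ 3 := by positivity
  have b2 := tp2_00_1_c2 h0 h1
  have m2 : 0 ≤ 1536 * (w - (1 / 4)) ^ 2 * ((1 / 2) - w) ^ 2 := by positivity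
  have b3 := tp2_00_1_c3 h0 h1
  have m3 : 0 ≤ 1024 * (w - (1 / 4)) ^ 3 * ((1 / 2) - w) := by positivity
  have b4 := tp2_00_1_c4 h0 h1
  have m4 : 0 ≤ 256 * (w - (1 / 4)) ^ 4 := by positivity
  have e : Tp (53 / 57) (51 / 20) (1 / 2) 2 (69 / 100) (41 / 100) (7 / 50) 0 x w 0 = (256 * ((1 / 2) - w) ^ 4) * ((8723 / 25600) + (8369111 / 20793600) * x - (6779911 / 8317440) * x ^ 2 - (13736629 / 20793600) * x ^ 3 + (126589 / 97280) * x ^ 4 + (3039 / 7600) * x ^ 5 + (477 / 15200) * x ^ 6) +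
      (1024 * (w - (1 / 4)) * ((1 / 2) - w) ^ 3) * ((1441 / 12800) + (35709931 / 41587200) * x - (4696447 / 8317440) * x ^ 2 - (57558599 / 41587200) * x ^ 3 + (31411 / 24320) * x ^ 4 + (99 / 160) * x ^ 5 + (4081 / 60800) * x ^ 6) +
      (1536 * (w - (1 / 4)) ^ 2 * ((1 / 2) - w) ^ 2) * ((147 / 6400) + (10031359 / 10396800) * x - (1017037 / 5198400) * x ^ 2 - (18601679 / 10396800) * x ^ 3 + (121323 / 121600) * x ^ 4 + (39419 / 45600) * x ^ 5 + (1537 / 11400) * x ^ 6) +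
      (1024 * (w - (1 / 4)) ^ 3 * ((1 / 2) - w)) * ((49 / 3200) + (9333793 / 10396800) * x + (1245307 / 10396800) * x ^ 2 - (19485977 / 10396800) * x ^ 3 + (4017 / 7600) * x ^ 4 + (8043 / 7600) * x ^ 5 + (3869 / 15200) * x ^ 6) +
      (256 * (w - (1 / 4)) ^ 4) * ((83 / 1600) + (98597 / 129960) * x + (838819 / 2599200) * x ^ 2 - (1113047 / 649800) * x ^ 3 + (357 / 30400) * x ^ 4 + (2131 / 1900) * x ^ 5 + (212 / 475) * x ^ 6) := by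
    unfold Tp
    push_cast
    ring
  rw [e]
  exact add_nonneg (add_nonneg (add_nonneg (add_nonneg (mul_nonneg m0 b0) (mul_nonneg m1 b1)) (mul_nonneg m2 b2)) (mul_nonneg m3 b3)) (mul_nonneg m4 b4)

theorem tp2_00_2_c0 {x : ℝ} (h0 : 0 ≤ x) (h1 : x ≤ 1) : 0 ≤ (83 / 1600) + (98597 / 129960) * x + (838819 / 2599200) * x ^ 2 - (1113047 / 649800) * x ^ 3 + (357 / 30400) * x ^ 4 + (2131 / 1900) * x ^ 5 + (212 / 475) * x ^ 6 := by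
  have h : ∀ s u : ℝ, 0 ≤ s → 0 ≤ u → 0 ≤ (83 / 1600) * u ^ 6 + (2780941 / 2599200) * s * u ^ 5 + (8480681 / 1732800) * s ^ 2 * u ^ 4 + (3553193 / 433200) * s ^ 3 * u ^ 3 + (1681097 / 324900) * s ^ 4 * u ^ 2 + (5327 / 3800) * s ^ 5 * u + 1 * s ^ 6 := by
    intro s u hs hu
    positivity
  refine le_of_le_of_eq (h x (1 - x) (by linarith) (by linarith)) ?_
  ring

theorem tp2_00_2_c1 {x : ℝ} (h0 : 0 ≤ x) (h1 : x ≤ 1) : 0 ≤ (1 / 8) + (2497847 / 5198400) * x + (3787607 / 5198400) * x ^ 2 - (7227151 / 5198400) * x ^ 3 - (327 / 320) * x ^ 4 + (4743 / 3800) * x ^ 5 + (6307 / 7600) * x ^ 6 := by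
  have h : ∀ s u : ℝ, 0 ≤ s → 0 ≤ u → 0 ≤ (1 / 8) * u ^ 6 + (6396647 / 5198400) * s * u ^ 5 + (1445769 / 288800) * s ^ 2 * u ^ 4 + (15299249 / 1732800) * s ^ 3 * u ^ 3 + (3807193 / 649800) * s ^ 4 * u ^ 2 + (25093 / 22800) * s ^ 5 * u + 1 * s ^ 6 := by
    intro s u hs hu
    positivity
  refine le_of_le_of_eq (h x (1 - x) (by linarith) (by linarith)) ?_
  ring

theorem tp2_00_2_c2 {x : ℝ} (h0 : 0 ≤ x) (h1 : x ≤ 1) : 0 ≤ (3 / 8) - (1391 / 16245) * x + (111211 / 162450) * x ^ 2 - (1334 / 16245) * x ^ 3 - (1707 / 760) * x ^ 4 + (9719 / 11400) * x ^ 5 + (901 / 600) * x ^ 6 := by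
  have h : ∀ s u : ℝ, 0 ≤ s → 0 ≤ u → 0 ≤ (3 / 8) * u ^ 6 + (140641 / 64980) * s * u ^ 5 + (424641 / 72200) * s ^ 2 * u ^ 4 + (503593 / 54150) * s ^ 3 * u ^ 3 + (518528 / 81225) * s ^ 4 * u ^ 2 + (7687 / 11400) * s ^ 5 * u + 1 * s ^ 6 := by
    intro s u hs hu
    positivity
  refine le_of_le_of_eq (h x (1 - x) (by linarith) (by linarith)) ?_
  ring

theorem tp2_00_2_c3 {x : ℝ} (h0 : 0 ≤ x) (h1 : x ≤ 1) : 0 ≤ (1 / 2) - (4207 / 32490) * x - (18227 / 64980) * x ^ 2 + (2107901 / 1299600) * x ^ 3 - (20059 / 7600) * x ^ 4 - (66 / 95) * x ^ 5 + (2491 / 950) * x ^ 6 := by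
  have h : ∀ s u : ℝ, 0 ≤ s → 0 ≤ u → 0 ≤ (1 / 2) * u ^ 6 + (93263 / 32490) * s * u ^ 5 + (142351 / 21660) * s ^ 2 * u ^ 4 + (3987647 / 433200) * s ^ 3 * u ^ 3 + (4385287 / 649800) * s ^ 4 * u ^ 2 + (187 / 1520) * s ^ 5 * u + 1 * s ^ 6 := by
    intro s u hs hu
    positivity
  refine le_of_le_of_eq (h x (1 - x) (by linarith) (by linarith)) ?_
  ring

theorem tp2_00_2_c4 {x : ℝ} (h0 : 0 ≤ x) (h1 : x ≤ 1) : 0 ≤ (1 / 2) - (6283 / 129960) * x - (107419 / 129960) * x ^ 2 + (6254 / 3249) * x ^ 3 - (1669 / 1900) * x ^ 4 - (1911 / 475) * x ^ 5 + (2067 / 475) * x ^ 6 := by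
  have h : ∀ s u : ℝ, 0 ≤ s → 0 ≤ u → 0 ≤ (1 / 2) * u ^ 7 + (448577 / 129960) * s * u ^ 6 + (1219463 / 129960) * s ^ 2 * u ^ 5 + (15776 / 1083) * s ^ 3 * u ^ 4 + (2451163 / 162450) * s ^ 4 * u ^ 3 + (4158883 / 649800) * s ^ 5 * u ^ 2 + (5093 / 11400) * s ^ 6 * u + 1 * s ^ 7 := by
    intro s u hs hu
    positivity
  refine le_of_le_of_eq (h x (1 - x) (by linarith) (by linarith)) ?_
  ring

theorem tp2_00_2 {x w : ℝ} (h0 : 0 ≤ x) (h1 : x ≤ 1) (h2 : 1 / 2 ≤ w) (h3 : w ≤ 1) :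
    0 ≤ Tp (53 / 57) (51 / 20) (1 / 2) 2 (69 / 100) (41 / 100) (7 / 50) 0 x w 0 := by
  have hp : 0 ≤ (w - (1 / 2)) := by linarith
  have hr : 0 ≤ (1 - w) := by linarith
  have b0 := tp2_00_2_c0 h0 h1
  have m0 : 0 ≤ 16 * (1 - w) ^ 4 := by positivity
  have b1 := tp2_00_2_c1 h0 h1
  have m1 : 0 ≤ 64 * (w - (1 / 2)) * (1 - w) ^ 3 := by positivity
  have b2 := tp2_00_2_c2 h0 h1
  have m2 : 0 ≤ 96 * (w - (1 / 2)) ^ 2 * (1 - w) ^ 2 := by positivity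
  have b3 := tp2_00_2_c3 h0 h1
  have m3 : 0 ≤ 64 * (w - (1 / 2)) ^ 3 * (1 - w) := by positivity
  have b4 := tp2_00_2_c4 h0 h1
  have m4 : 0 ≤ 16 * (w - (1 / 2)) ^ 4 := by positivity
  have e : Tp (53 / 57) (51 / 20) (1 / 2) 2 (69 / 100) (41 / 100) (7 / 50) 0 x w 0 = (16 * (1 - w) ^ 4) * ((83 / 1600) + (98597 / 129960) * x + (838819 / 2599200) * x ^ 2 - (1113047 / 649800) * x ^ 3 + (357 / 30400) * x ^ 4 + (2131 / 1900) * x ^ 5 + (212 / 475) * x ^ 6) +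
      (64 * (w - (1 / 2)) * (1 - w) ^ 3) * ((1 / 8) + (2497847 / 5198400) * x + (3787607 / 5198400) * x ^ 2 - (7227151 / 5198400) * x ^ 3 - (327 / 320) * x ^ 4 + (4743 / 3800) * x ^ 5 + (6307 / 7600) * x ^ 6) +
      (96 * (w - (1 / 2)) ^ 2 * (1 - w) ^ 2) * ((3 / 8) - (1391 / 16245) * x + (111211 / 162450) * x ^ 2 - (1334 / 16245) * x ^ 3 - (1707 / 760) * x ^ 4 + (9719 / 11400) * x ^ 5 + (901 / 600) * x ^ 6) +
      (64 * (w - (1 / 2)) ^ 3 * (1 - w)) * ((1 / 2) - (4207 / 32490) * x - (18227 / 64980) * x ^ 2 + (2107901 / 1299600) * x ^ 3 - (20059 / 7600) * x ^ 4 - (66 / 95) * x ^ 5 + (2491 / 950) * x ^ 6) +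
      (16 * (w - (1 / 2)) ^ 4) * ((1 / 2) - (6283 / 129960) * x - (107419 / 129960) * x ^ 2 + (6254 / 3249) * x ^ 3 - (1669 / 1900) * x ^ 4 - (1911 / 475) * x ^ 5 + (2067 / 475) * x ^ 6) := by
    unfold Tp
    push_cast
    ring
  rw [e]
  exact add_nonneg (add_nonneg (add_nonneg (add_nonneg (mul_nonneg m0 b0) (mul_nonneg m1 b1)) (mul_nonneg m2 b2)) (mul_nonneg m3 b3)) (mul_nonneg m4 b4)

theorem tp2_00 {x w : ℝ} (h0 : 0 ≤ x) (h1 : x ≤ 1) (h2 : 0 ≤ w) (h3 : w ≤ 1) :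
    0 ≤ Tp (53 / 57) (51 / 20) (1 / 2) 2 (69 / 100) (41 / 100) (7 / 50) 0 x w 0 := by
  rcases le_total w (1 / 4) with k | k
  · exact tp2_00_0 (by linarith) (by linarith) (by linarith) (by linarith)
  · rcases le_total w (1 / 2) with k | k
    · exact tp2_00_1 (by linarith) (by linarith) (by linarith) (by linarith)
    · exact tp2_00_2 (by linarith) (by linarith) (by linarith) (by linarith)

theorem tp2_01_0_c0 {x : ℝ} (h0 : 0 ≤ x) (h1 : x ≤ 1 / 2) : 0 ≤ (1117 / 1140) - (32603 / 11400) * x + (9761 / 11400) * x ^ 2 + (3997 / 1425) * x ^ 3 - (371 / 475) * x ^ 4 := by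
  have h : ∀ s u : ℝ, 0 ≤ s → 0 ≤ u → 0 ≤ (4468 / 285) * u ^ 4 + (18919 / 475) * s * u ^ 3 + (82223 / 2850) * s ^ 2 * u ^ 2 + (3102 / 475) * s ^ 3 * u + (999 / 950) * s ^ 4 := by
    intro s u hs hu
    positivity
  refine le_of_le_of_eq (h x ((1 / 2) - x) (by linarith) (by linarith)) ?_
  ring

theorem tp2_01_0_c1 {x : ℝ} (h0 : 0 ≤ x) (h1 : x ≤ 1 / 2) : 0 ≤ (193 / 570) - (4331 / 4560) * x - (719 / 22800) * x ^ 2 + (16669 / 11400) * x ^ 3 + (357 / 950) * x ^ 4 - (371 / 1900) * x ^ 5 := by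
  have h : ∀ s u : ℝ, 0 ≤ s → 0 ≤ u → 0 ≤ (3088 / 285) * u ^ 5 + (3703 / 95) * s * u ^ 4 + (44947 / 950) * s ^ 2 * u ^ 3 + (31726 / 1425) * s ^ 3 * u ^ 2 + (14483 / 2850) * s ^ 4 * u + (10211 / 5700) * s ^ 5 := by
    intro s u hs hu
    positivity
  refine le_of_le_of_eq (h x ((1 / 2) - x) (by linarith) (by linarith)) ?_
  ring

theorem tp2_01_0_c2 {x : ℝ} (h0 : 0 ≤ x) (h1 : x ≤ 1 / 2) : 0 ≤ (129 / 1520) - (4601 / 22800) * x + (179 / 4560) * x ^ 2 + (9787 / 22800) * x ^ 3 + (4081 / 5700) * x ^ 4 - (7 / 200) * x ^ 5 - (371 / 11400) * x ^ 6 := by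
  have h : ∀ s u : ℝ, 0 ≤ s → 0 ≤ u → 0 ≤ (516 / 95) * u ^ 6 + (37238 / 1425) * s * u ^ 5 + (14197 / 285) * s ^ 2 * u ^ 4 + (142507 / 2850) * s ^ 3 * u ^ 3 + (32141 / 950) * s ^ 4 * u ^ 2 + (107011 / 5700) * s ^ 5 * u + (66091 / 11400) * s ^ 6 := by
    intro s u hs hu
    positivity
  refine le_of_le_of_eq (h x ((1 / 2) - x) (by linarith) (by linarith)) ?_
  ring

theorem tp2_01_0_c3 {x : ℝ} (h0 : 0 ≤ x) (h1 : x ≤ 1 / 2) : 0 ≤ (227 / 9120) + (1887 / 30400) * x + (23453 / 91200) * x ^ 2 - (5053 / 91200) * x ^ 3 + (9457 / 18240) * x ^ 4 + (2569 / 11400) * x ^ 5 - (371 / 11400) * x ^ 6 := by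
  have h : ∀ s u : ℝ, 0 ≤ s → 0 ≤ u → 0 ≤ (454 / 285) * u ^ 6 + (10967 / 950) * s * u ^ 5 + (216263 / 5700) * s ^ 2 * u ^ 4 + (772211 / 11400) * s ^ 3 * u ^ 3 + (1577519 / 22800) * s ^ 4 * u ^ 2 + (111767 / 2850) * s ^ 5 * u + (222133 / 22800) * s ^ 6 := by
    intro s u hs hu
    positivity
  refine le_of_le_of_eq (h x ((1 / 2) - x) (by linarith) (by linarith)) ?_
  ring

theorem tp2_01_0_c4 {x : ℝ} (h0 : 0 ≤ x) (h1 : x ≤ 1 / 2) : 0 ≤ (1127 / 18240) + (503 / 3800) * x + (715 / 1824) * x ^ 2 - (107 / 760) * x ^ 3 + (14519 / 91200) * x ^ 4 + (1883 / 5700) * x ^ 5 + (371 / 5700) * x ^ 6 := by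
  have h : ∀ s u : ℝ, 0 ≤ s → 0 ≤ u → 0 ≤ (1127 / 285) * u ^ 6 + (13282 / 475) * s * u ^ 5 + (2603 / 30) * s ^ 2 * u ^ 4 + (41441 / 285) * s ^ 3 * u ^ 3 + (3113639 / 22800) * s ^ 4 * u ^ 2 + (41129 / 600) * s ^ 5 * u + (335123 / 22800) * s ^ 6 := by
    intro s u hs hu
    positivity
  refine le_of_le_of_eq (h x ((1 / 2) - x) (by linarith) (by linarith)) ?_
  ring

theorem tp2_01_0 {x w : ℝ} (h0 : 0 ≤ x) (h1 : x ≤ 1 / 2) (h2 : 0 ≤ w) (h3 : w ≤ 1 / 2) :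
    0 ≤ Tp (53 / 57) (51 / 20) (1 / 2) 2 (69 / 100) (41 / 100) (7 / 50) 0 x w 1 := by
  have hp : 0 ≤ w := by linarith
  have hr : 0 ≤ ((1 / 2) - w) := by linarith
  have b0 := tp2_01_0_c0 h0 h1
  have m0 : 0 ≤ 16 * ((1 / 2) - w) ^ 4 := by positivity
  have b1 := tp2_01_0_c1 h0 h1
  have m1 : 0 ≤ 64 * w * ((1 / 2) - w) ^ 3 := by positivity
  have b2 := tp2_01_0_c2 h0 h1
  have m2 : 0 ≤ 96 * w ^ 2 * ((1 / 2) - w) ^ 2 := by positivity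
  have b3 := tp2_01_0_c3 h0 h1
  have m3 : 0 ≤ 64 * w ^ 3 * ((1 / 2) - w) := by positivity
  have b4 := tp2_01_0_c4 h0 h1
  have m4 : 0 ≤ 16 * w ^ 4 := by positivity
  have e : Tp (53 / 57) (51 / 20) (1 / 2) 2 (69 / 100) (41 / 100) (7 / 50) 0 x w 1 = (16 * ((1 / 2) - w) ^ 4) * ((1117 / 1140) - (32603 / 11400) * x + (9761 / 11400) * x ^ 2 + (3997 / 1425) * x ^ 3 - (371 / 475) * x ^ 4) +
      (64 * w * ((1 / 2) - w) ^ 3) * ((193 / 570) - (4331 / 4560) * x - (719 / 22800) * x ^ 2 + (16669 / 11400) * x ^ 3 + (357 / 950) * x ^ 4 - (371 / 1900) * x ^ 5) +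
      (96 * w ^ 2 * ((1 / 2) - w) ^ 2) * ((129 / 1520) - (4601 / 22800) * x + (179 / 4560) * x ^ 2 + (9787 / 22800) * x ^ 3 + (4081 / 5700) * x ^ 4 - (7 / 200) * x ^ 5 - (371 / 11400) * x ^ 6) +
      (64 * w ^ 3 * ((1 / 2) - w)) * ((227 / 9120) + (1887 / 30400) * x + (23453 / 91200) * x ^ 2 - (5053 / 91200) * x ^ 3 + (9457 / 18240) * x ^ 4 + (2569 / 11400) * x ^ 5 - (371 / 11400) * x ^ 6) +
      (16 * w ^ 4) * ((1127 / 18240) + (503 / 3800) * x + (715 / 1824) * x ^ 2 - (107 / 760) * x ^ 3 + (14519 / 91200) * x ^ 4 + (1883 / 5700) * x ^ 5 + (371 / 5700) * x ^ 6) := by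
    unfold Tp
    push_cast
    ring
  rw [e]
  exact add_nonneg (add_nonneg (add_nonneg (add_nonneg (mul_nonneg m0 b0) (mul_nonneg m1 b1)) (mul_nonneg m2 b2)) (mul_nonneg m3 b3)) (mul_nonneg m4 b4)

theorem tp2_01_1_c0 {x : ℝ} (h0 : 1 / 2 ≤ x) (h1 : x ≤ 1) : 0 ≤ (1117 / 1140) - (32603 / 11400) * x + (9761 / 11400) * x ^ 2 + (3997 / 1425) * x ^ 3 - (371 / 475) * x ^ 4 := by
  have h : ∀ s u : ℝ, 0 ≤ s → 0 ≤ u → 0 ≤ (999 / 950) * u ^ 4 + (894 / 475) * s * u ^ 3 + (42479 / 2850) * s ^ 2 * u ^ 2 + (43969 / 1425) * s ^ 3 * u + 16 * s ^ 4 := by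
    intro s u hs hu
    positivity
  refine le_of_le_of_eq (h (x - (1 / 2)) (1 - x) (by linarith) (by linarith)) ?_
  ring

theorem tp2_01_1_c1 {x : ℝ} (h0 : 1 / 2 ≤ x) (h1 : x ≤ 1) : 0 ≤ (193 / 570) - (4331 / 4560) * x - (719 / 22800) * x ^ 2 + (16669 / 11400) * x ^ 3 + (357 / 950) * x ^ 4 - (371 / 1900) * x ^ 5 := by
  have h : ∀ s u : ℝ, 0 ≤ s → 0 ≤ u → 0 ≤ (10211 / 5700) * u ^ 5 + (18286 / 1425) * s * u ^ 4 + (75904 / 1425) * s ^ 2 * u ^ 3 + (306719 / 2850) * s ^ 3 * u ^ 2 + (139067 / 1425) * s ^ 4 * u + 32 * s ^ 5 := by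
    intro s u hs hu
    positivity
  refine le_of_le_of_eq (h (x - (1 / 2)) (1 - x) (by linarith) (by linarith)) ?_
  ring

theorem tp2_01_1_c2 {x : ℝ} (h0 : 1 / 2 ≤ x) (h1 : x ≤ 1) : 0 ≤ (129 / 1520) - (4601 / 22800) * x + (179 / 4560) * x ^ 2 + (9787 / 22800) * x ^ 3 + (4081 / 5700) * x ^ 4 - (7 / 200) * x ^ 5 - (371 / 11400) * x ^ 6 := by
  have h : ∀ s u : ℝ, 0 ≤ s → 0 ≤ u → 0 ≤ (66091 / 11400) * u ^ 6 + (57907 / 1140) * s * u ^ 5 + (552733 / 2850) * s ^ 2 * u ^ 4 + (1132297 / 2850) * s ^ 3 * u ^ 3 + (8574 / 19) * s ^ 4 * u ^ 2 + (380392 / 1425) * s ^ 5 * u + 64 * s ^ 6 := by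
    intro s u hs hu
    positivity
  refine le_of_le_of_eq (h (x - (1 / 2)) (1 - x) (by linarith) (by linarith)) ?_
  ring

theorem tp2_01_1_c3 {x : ℝ} (h0 : 1 / 2 ≤ x) (h1 : x ≤ 1) : 0 ≤ (227 / 9120) + (1887 / 30400) * x + (23453 / 91200) * x ^ 2 - (5053 / 91200) * x ^ 3 + (9457 / 18240) * x ^ 4 + (2569 / 11400) * x ^ 5 - (371 / 11400) * x ^ 6 := by
  have h : ∀ s u : ℝ, 0 ≤ s → 0 ≤ u → 0 ≤ (222133 / 22800) * u ^ 6 + (88573 / 1140) * s * u ^ 5 + (5964139 / 22800) * s ^ 2 * u ^ 4 + (361719 / 760) * s ^ 3 * u ^ 3 + (234167 / 475) * s ^ 4 * u ^ 2 + (15658 / 57) * s ^ 5 * u + 64 * s ^ 6 := by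
    intro s u hs hu
    positivity
  refine le_of_le_of_eq (h (x - (1 / 2)) (1 - x) (by linarith) (by linarith)) ?_
  ring

theorem tp2_01_1_c4 {x : ℝ} (h0 : 1 / 2 ≤ x) (h1 : x ≤ 1) : 0 ≤ (1127 / 18240) + (503 / 3800) * x + (715 / 1824) * x ^ 2 - (107 / 760) * x ^ 3 + (14519 / 91200) * x ^ 4 + (1883 / 5700) * x ^ 5 + (371 / 5700) * x ^ 6 := by
  have h : ∀ s u : ℝ, 0 ≤ s → 0 ≤ u → 0 ≤ (335123 / 22800) * u ^ 6 + (1229287 / 11400) * s * u ^ 5 + (7591999 / 22800) * s ^ 2 * u ^ 4 + (1587179 / 2850) * s ^ 3 * u ^ 3 + (254402 / 475) * s ^ 4 * u ^ 2 + (402508 / 1425) * s ^ 5 * u + 64 * s ^ 6 := by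
    intro s u hs hu
    positivity
  refine le_of_le_of_eq (h (x - (1 / 2)) (1 - x) (by linarith) (by linarith)) ?_
  ring

theorem tp2_01_1 {x w : ℝ} (h0 : 1 / 2 ≤ x) (h1 : x ≤ 1) (h2 : 0 ≤ w) (h3 : w ≤ 1 / 2) :
    0 ≤ Tp (53 / 57) (51 / 20) (1 / 2) 2 (69 / 100) (41 / 100) (7 / 50) 0 x w 1 := by
  have hp : 0 ≤ w := by linarith
  have hr : 0 ≤ ((1 / 2) - w) := by linarith
  have b0 := tp2_01_1_c0 h0 h1
  have m0 : 0 ≤ 16 * ((1 / 2) - w) ^ 4 := by positivity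
  have b1 := tp2_01_1_c1 h0 h1
  have m1 : 0 ≤ 64 * w * ((1 / 2) - w) ^ 3 := by positivity
  have b2 := tp2_01_1_c2 h0 h1
  have m2 : 0 ≤ 96 * w ^ 2 * ((1 / 2) - w) ^ 2 := by positivity
  have b3 := tp2_01_1_c3 h0 h1
  have m3 : 0 ≤ 64 * w ^ 3 * ((1 / 2) - w) := by positivity
  have b4 := tp2_01_1_c4 h0 h1
  have m4 : 0 ≤ 16 * w ^ 4 := by positivity
  have e : Tp (53 / 57) (51 / 20) (1 / 2) 2 (69 / 100) (41 / 100) (7 / 50) 0 x w 1 = (16 * ((1 / 2) - w) ^ 4) * ((1117 / 1140) - (32603 / 11400) * x + (9761 / 11400) * x ^ 2 + (3997 / 1425) * x ^ 3 - (371 / 475) * x ^ 4) +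
      (64 * w * ((1 / 2) - w) ^ 3) * ((193 / 570) - (4331 / 4560) * x - (719 / 22800) * x ^ 2 + (16669 / 11400) * x ^ 3 + (357 / 950) * x ^ 4 - (371 / 1900) * x ^ 5) +
      (96 * w ^ 2 * ((1 / 2) - w) ^ 2) * ((129 / 1520) - (4601 / 22800) * x + (179 / 4560) * x ^ 2 + (9787 / 22800) * x ^ 3 + (4081 / 5700) * x ^ 4 - (7 / 200) * x ^ 5 - (371 / 11400) * x ^ 6) +
      (64 * w ^ 3 * ((1 / 2) - w)) * ((227 / 9120) + (1887 / 30400) * x + (23453 / 91200) * x ^ 2 - (5053 / 91200) * x ^ 3 + (9457 / 18240) * x ^ 4 + (2569 / 11400) * x ^ 5 - (371 / 11400) * x ^ 6) +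
      (16 * w ^ 4) * ((1127 / 18240) + (503 / 3800) * x + (715 / 1824) * x ^ 2 - (107 / 760) * x ^ 3 + (14519 / 91200) * x ^ 4 + (1883 / 5700) * x ^ 5 + (371 / 5700) * x ^ 6) := by
    unfold Tp
    push_cast
    ring
  rw [e]
  exact add_nonneg (add_nonneg (add_nonneg (add_nonneg (mul_nonneg m0 b0) (mul_nonneg m1 b1)) (mul_nonneg m2 b2)) (mul_nonneg m3 b3)) (mul_nonneg m4 b4)

theorem tp2_01_2_c0 {x : ℝ} (h0 : 0 ≤ x) (h1 : x ≤ 1) : 0 ≤ (1127 / 18240) + (503 / 3800) * x + (715 / 1824) * x ^ 2 - (107 / 760) * x ^ 3 + (14519 / 91200) * x ^ 4 + (1883 / 5700) * x ^ 5 + (371 / 5700) * x ^ 6 := by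
  have h : ∀ s u : ℝ, 0 ≤ s → 0 ≤ u → 0 ≤ (1127 / 18240) * u ^ 6 + (7647 / 15200) * s * u ^ 5 + (36127 / 18240) * s ^ 2 * u ^ 4 + (18179 / 4560) * s ^ 3 * u ^ 3 + (12367 / 2850) * s ^ 4 * u ^ 2 + (32227 / 11400) * s ^ 5 * u + 1 * s ^ 6 := by
    intro s u hs hu
    positivity
  refine le_of_le_of_eq (h x (1 - x) (by linarith) (by linarith)) ?_
  ring

theorem tp2_01_2_c1 {x : ℝ} (h0 : 0 ≤ x) (h1 : x ≤ 1) : 0 ≤ (15 / 152) + (6161 / 30400) * x + (48047 / 91200) * x ^ 2 - (20627 / 91200) * x ^ 3 - (18247 / 91200) * x ^ 4 + (4963 / 11400) * x ^ 5 + (371 / 2280) * x ^ 6 := by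
  have h : ∀ s u : ℝ, 0 ≤ s → 0 ≤ u → 0 ≤ (15 / 152) * u ^ 6 + (24161 / 30400) * s * u ^ 5 + (7249 / 2400) * s ^ 2 * u ^ 4 + (178797 / 30400) * s ^ 3 * u ^ 3 + (32999 / 5700) * s ^ 4 * u ^ 2 + (69983 / 22800) * s ^ 5 * u + 1 * s ^ 6 := by
    intro s u hs hu
    positivity
  refine le_of_le_of_eq (h x (1 - x) (by linarith) (by linarith)) ?_
  ring

theorem tp2_01_2_c2 {x : ℝ} (h0 : 0 ≤ x) (h1 : x ≤ 1) : 0 ≤ (53 / 228) + (181 / 2280) * x + (1649 / 2850) * x ^ 2 + (5 / 57) * x ^ 3 - (8221 / 11400) * x ^ 4 + (77 / 200) * x ^ 5 + (4081 / 11400) * x ^ 6 := by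
  have h : ∀ s u : ℝ, 0 ≤ s → 0 ≤ u → 0 ≤ (53 / 228) * u ^ 6 + (3361 / 2280) * s * u ^ 5 + (16957 / 3800) * s ^ 2 * u ^ 4 + (44717 / 5700) * s ^ 3 * u ^ 3 + (16631 / 2280) * s ^ 4 * u ^ 2 + (9439 / 2850) * s ^ 5 * u + 1 * s ^ 6 := by
    intro s u hs hu
    positivity
  refine le_of_le_of_eq (h x (1 - x) (by linarith) (by linarith)) ?_
  ring

theorem tp2_01_2_c3 {x : ℝ} (h0 : 0 ≤ x) (h1 : x ≤ 1) : 0 ≤ (167 / 456) + (121 / 2280) * x + (241 / 760) * x ^ 2 + (14863 / 22800) * x ^ 3 - (23441 / 22800) * x ^ 4 - (217 / 2850) * x ^ 5 + (4081 / 5700) * x ^ 6 := by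
  have h : ∀ s u : ℝ, 0 ≤ s → 0 ≤ u → 0 ≤ (167 / 456) * u ^ 6 + (5131 / 2280) * s * u ^ 5 + (13853 / 2280) * s ^ 2 * u ^ 4 + (222883 / 22800) * s ^ 3 * u ^ 3 + (100939 / 11400) * s ^ 4 * u ^ 2 + (81041 / 22800) * s ^ 5 * u + 1 * s ^ 6 := by
    intro s u hs hu
    positivity
  refine le_of_le_of_eq (h x (1 - x) (by linarith) (by linarith)) ?_
  ring

theorem tp2_01_2_c4 {x : ℝ} (h0 : 0 ≤ x) (h1 : x ≤ 1) : 0 ≤ (1 / 2) + (61 / 2280) * x + (71 / 760) * x ^ 2 + (53 / 57) * x ^ 3 - (739 / 1140) * x ^ 4 - (343 / 285) * x ^ 5 + (371 / 285) * x ^ 6 := by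
  have h : ∀ s u : ℝ, 0 ≤ s → 0 ≤ u → 0 ≤ (1 / 2) * u ^ 6 + (6901 / 2280) * s * u ^ 5 + (8809 / 1140) * s ^ 2 * u ^ 4 + (4397 / 380) * s ^ 3 * u ^ 3 + (2387 / 228) * s ^ 4 * u ^ 2 + (8657 / 2280) * s ^ 5 * u + 1 * s ^ 6 := by
    intro s u hs hu
    positivity
  refine le_of_le_of_eq (h x (1 - x) (by linarith) (by linarith)) ?_
  ring

theorem tp2_01_2 {x w : ℝ} (h0 : 0 ≤ x) (h1 : x ≤ 1) (h2 : 1 / 2 ≤ w) (h3 : w ≤ 1) :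
    0 ≤ Tp (53 / 57) (51 / 20) (1 / 2) 2 (69 / 100) (41 / 100) (7 / 50) 0 x w 1 := by
  have hp : 0 ≤ (w - (1 / 2)) := by linarith
  have hr : 0 ≤ (1 - w) := by linarith
  have b0 := tp2_01_2_c0 h0 h1
  have m0 : 0 ≤ 16 * (1 - w) ^ 4 := by positivity
  have b1 := tp2_01_2_c1 h0 h1
  have m1 : 0 ≤ 64 * (w - (1 / 2)) * (1 - w) ^ 3 := by positivity
  have b2 := tp2_01_2_c2 h0 h1
  have m2 : 0 ≤ 96 * (w - (1 / 2)) ^ 2 * (1 - w) ^ 2 := by positivity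
  have b3 := tp2_01_2_c3 h0 h1
  have m3 : 0 ≤ 64 * (w - (1 / 2)) ^ 3 * (1 - w) := by positivity
  have b4 := tp2_01_2_c4 h0 h1
  have m4 : 0 ≤ 16 * (w - (1 / 2)) ^ 4 := by positivity
  have e : Tp (53 / 57) (51 / 20) (1 / 2) 2 (69 / 100) (41 / 100) (7 / 50) 0 x w 1 = (16 * (1 - w) ^ 4) * ((1127 / 18240) + (503 / 3800) * x + (715 / 1824) * x ^ 2 - (107 / 760) * x ^ 3 + (14519 / 91200) * x ^ 4 + (1883 / 5700) * x ^ 5 + (371 / 5700) * x ^ 6) +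
      (64 * (w - (1 / 2)) * (1 - w) ^ 3) * ((15 / 152) + (6161 / 30400) * x + (48047 / 91200) * x ^ 2 - (20627 / 91200) * x ^ 3 - (18247 / 91200) * x ^ 4 + (4963 / 11400) * x ^ 5 + (371 / 2280) * x ^ 6) +
      (96 * (w - (1 / 2)) ^ 2 * (1 - w) ^ 2) * ((53 / 228) + (181 / 2280) * x + (1649 / 2850) * x ^ 2 + (5 / 57) * x ^ 3 - (8221 / 11400) * x ^ 4 + (77 / 200) * x ^ 5 + (4081 / 11400) * x ^ 6) +
      (64 * (w - (1 / 2)) ^ 3 * (1 - w)) * ((167 / 456) + (121 / 2280) * x + (241 / 760) * x ^ 2 + (14863 / 22800) * x ^ 3 - (23441 / 22800) * x ^ 4 - (217 / 2850) * x ^ 5 + (4081 / 5700) * x ^ 6) +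
      (16 * (w - (1 / 2)) ^ 4) * ((1 / 2) + (61 / 2280) * x + (71 / 760) * x ^ 2 + (53 / 57) * x ^ 3 - (739 / 1140) * x ^ 4 - (343 / 285) * x ^ 5 + (371 / 285) * x ^ 6) := by
    unfold Tp
    push_cast
    ring
  rw [e]
  exact add_nonneg (add_nonneg (add_nonneg (add_nonneg (mul_nonneg m0 b0) (mul_nonneg m1 b1)) (mul_nonneg m2 b2)) (mul_nonneg m3 b3)) (mul_nonneg m4 b4)

theorem tp2_01 {x w : ℝ} (h0 : 0 ≤ x) (h1 : x ≤ 1) (h2 : 0 ≤ w) (h3 : w ≤ 1) :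
    0 ≤ Tp (53 / 57) (51 / 20) (1 / 2) 2 (69 / 100) (41 / 100) (7 / 50) 0 x w 1 := by
  rcases le_total w (1 / 2) with k | k
  · rcases le_total x (1 / 2) with k | k
    · exact tp2_01_0 (by linarith) (by linarith) (by linarith) (by linarith)
    · exact tp2_01_1 (by linarith) (by linarith) (by linarith) (by linarith)
  · exact tp2_01_2 (by linarith) (by linarith) (by linarith) (by linarith)

theorem tp2_10_0_c0 {x : ℝ} (h0 : 0 ≤ x) (h1 : x ≤ 1) : 0 ≤ (233 / 100) - (839 / 200) * x - (131 / 200) * x ^ 2 + (109 / 25) * x ^ 3 - (21 / 25) * x ^ 4 := by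
  have h : ∀ s u : ℝ, 0 ≤ s → 0 ≤ u → 0 ≤ (233 / 100) * u ^ 5 + (1491 / 200) * s * u ^ 4 + (1173 / 200) * s ^ 2 * u ^ 3 + (21 / 40) * s ^ 3 * u ^ 2 + (157 / 200) * s ^ 4 * u + 1 * s ^ 5 := by
    intro s u hs hu
    positivity
  refine le_of_le_of_eq (h x (1 - x) (by linarith) (by linarith)) ?_
  ring

theorem tp2_10_0_c1 {x : ℝ} (h0 : 0 ≤ x) (h1 : x ≤ 1) : 0 ≤ (599 / 400) - (1707 / 800) * x - (963 / 800) * x ^ 2 + (127 / 50) * x ^ 3 + (81 / 200) * x ^ 4 - (21 / 200) * x ^ 5 := by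
  have h : ∀ s u : ℝ, 0 ≤ s → 0 ≤ u → 0 ≤ (599 / 400) * u ^ 5 + (4283 / 800) * s * u ^ 4 + (4189 / 800) * s ^ 2 * u ^ 3 + (881 / 800) * s ^ 3 * u ^ 2 + (661 / 800) * s ^ 4 * u + 1 * s ^ 5 := by
    intro s u hs hu
    positivity
  refine le_of_le_of_eq (h x (1 - x) (by linarith) (by linarith)) ?_
  ring

theorem tp2_10_0_c2 {x : ℝ} (h0 : 0 ≤ x) (h1 : x ≤ 1) : 0 ≤ (1497 / 1600) - (1343 / 1600) * x - (1961 / 1600) * x ^ 2 + (331 / 320) * x ^ 3 + (223 / 200) * x ^ 4 - (9 / 800) * x ^ 5 - (7 / 800) * x ^ 6 := by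
  have h : ∀ s u : ℝ, 0 ≤ s → 0 ≤ u → 0 ≤ (1497 / 1600) * u ^ 6 + (7639 / 1600) * s * u ^ 5 + (13779 / 1600) * s ^ 2 * u ^ 4 + (10321 / 1600) * s ^ 3 * u ^ 3 + (501 / 200) * s ^ 4 * u ^ 2 + (1469 / 800) * s ^ 5 * u + 1 * s ^ 6 := by
    intro s u hs hu
    positivity
  refine le_of_le_of_eq (h x (1 - x) (by linarith) (by linarith)) ?_
  ring

theorem tp2_10_0_c3 {x : ℝ} (h0 : 0 ≤ x) (h1 : x ≤ 1) : 0 ≤ (3641 / 6400) - (783 / 12800) * x - (12779 / 12800) * x ^ 2 - (1213 / 12800) * x ^ 3 + (17857 / 12800) * x ^ 4 + (39 / 200) * x ^ 5 - (3 / 640) * x ^ 6 := by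
  have h : ∀ s u : ℝ, 0 ≤ s → 0 ≤ u → 0 ≤ (3641 / 6400) * u ^ 6 + (42909 / 12800) * s * u ^ 5 + (11567 / 1600) * s ^ 2 * u ^ 4 + (85481 / 12800) * s ^ 3 * u ^ 3 + (1217 / 400) * s ^ 4 * u ^ 2 + (363 / 200) * s ^ 5 * u + 1 * s ^ 6 := by
    intro s u hs hu
    positivity
  refine le_of_le_of_eq (h x (1 - x) (by linarith) (by linarith)) ?_
  ring

theorem tp2_10_0_c4 {x : ℝ} (h0 : 0 ≤ x) (h1 : x ≤ 1) : 0 ≤ (8723 / 25600) + (2407 / 6400) * x - (8787 / 12800) * x ^ 2 - (5509 / 6400) * x ^ 3 + (35051 / 25600) * x ^ 4 + (171 / 400) * x ^ 5 + (27 / 800) * x ^ 6 := by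
  have h : ∀ s u : ℝ, 0 ≤ s → 0 ≤ u → 0 ≤ (8723 / 25600) * u ^ 6 + (30983 / 12800) * s * u ^ 5 + (161411 / 25600) * s ^ 2 * u ^ 4 + (22301 / 3200) * s ^ 3 * u ^ 3 + (177 / 50) * s ^ 4 * u ^ 2 + (141 / 80) * s ^ 5 * u + 1 * s ^ 6 := by
    intro s u hs hu
    positivity
  refine le_of_le_of_eq (h x (1 - x) (by linarith) (by linarith)) ?_
  ring

theorem tp2_10_0 {x w : ℝ} (h0 : 0 ≤ x) (h1 : x ≤ 1) (h2 : 0 ≤ w) (h3 : w ≤ 1 / 4) :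
    0 ≤ Tp 1 (51 / 20) (1 / 2) 2 (69 / 100) (41 / 100) (7 / 50) 0 x w 0 := by
  have hp : 0 ≤ w := by linarith
  have hr : 0 ≤ ((1 / 4) - w) := by linarith
  have b0 := tp2_10_0_c0 h0 h1
  have m0 : 0 ≤ 256 * ((1 / 4) - w) ^ 4 := by positivity
  have b1 := tp2_10_0_c1 h0 h1
  have m1 : 0 ≤ 1024 * w * ((1 / 4) - w) ^ 3 := by positivity
  have b2 := tp2_10_0_c2 h0 h1
  have m2 : 0 ≤ 1536 * w ^ 2 * ((1 / 4) - w) ^ 2 := by positivity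
  have b3 := tp2_10_0_c3 h0 h1
  have m3 : 0 ≤ 1024 * w ^ 3 * ((1 / 4) - w) := by positivity
  have b4 := tp2_10_0_c4 h0 h1
  have m4 : 0 ≤ 256 * w ^ 4 := by positivity
  have e : Tp 1 (51 / 20) (1 / 2) 2 (69 / 100) (41 / 100) (7 / 50) 0 x w 0 = (256 * ((1 / 4) - w) ^ 4) * ((233 / 100) - (839 / 200) * x - (131 / 200) * x ^ 2 + (109 / 25) * x ^ 3 - (21 / 25) * x ^ 4) +
      (1024 * w * ((1 / 4) - w) ^ 3) * ((599 / 400) - (1707 / 800) * x - (963 / 800) * x ^ 2 + (127 / 50) * x ^ 3 + (81 / 200) * x ^ 4 - (21 / 200) * x ^ 5) +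
      (1536 * w ^ 2 * ((1 / 4) - w) ^ 2) * ((1497 / 1600) - (1343 / 1600) * x - (1961 / 1600) * x ^ 2 + (331 / 320) * x ^ 3 + (223 / 200) * x ^ 4 - (9 / 800) * x ^ 5 - (7 / 800) * x ^ 6) +
      (1024 * w ^ 3 * ((1 / 4) - w)) * ((3641 / 6400) - (783 / 12800) * x - (12779 / 12800) * x ^ 2 - (1213 / 12800) * x ^ 3 + (17857 / 12800) * x ^ 4 + (39 / 200) * x ^ 5 - (3 / 640) * x ^ 6) +
      (256 * w ^ 4) * ((8723 / 25600) + (2407 / 6400) * x - (8787 / 12800) * x ^ 2 - (5509 / 6400) * x ^ 3 + (35051 / 25600) * x ^ 4 + (171 / 400) * x ^ 5 + (27 / 800) * x ^ 6) := by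
    unfold Tp
    push_cast
    ring
  rw [e]
  exact add_nonneg (add_nonneg (add_nonneg (add_nonneg (mul_nonneg m0 b0) (mul_nonneg m1 b1)) (mul_nonneg m2 b2)) (mul_nonneg m3 b3)) (mul_nonneg m4 b4)

theorem tp2_10_1_c0 {x : ℝ} (h0 : 0 ≤ x) (h1 : x ≤ 1) : 0 ≤ (8723 / 25600) + (2407 / 6400) * x - (8787 / 12800) * x ^ 2 - (5509 / 6400) * x ^ 3 + (35051 / 25600) * x ^ 4 + (171 / 400) * x ^ 5 + (27 / 800) * x ^ 6 := by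
  have h : ∀ s u : ℝ, 0 ≤ s → 0 ≤ u → 0 ≤ (8723 / 25600) * u ^ 6 + (30983 / 12800) * s * u ^ 5 + (161411 / 25600) * s ^ 2 * u ^ 4 + (22301 / 3200) * s ^ 3 * u ^ 3 + (177 / 50) * s ^ 4 * u ^ 2 + (141 / 80) * s ^ 5 * u + 1 * s ^ 6 := by
    intro s u hs hu
    positivity
  refine le_of_le_of_eq (h x (1 - x) (by linarith) (by linarith)) ?_
  ring

theorem tp2_10_1_c1 {x : ℝ} (h0 : 0 ≤ x) (h1 : x ≤ 1) : 0 ≤ (1441 / 12800) + (10411 / 12800) * x - (959 / 2560) * x ^ 2 - (20823 / 12800) * x ^ 3 + (8597 / 6400) * x ^ 4 + (33 / 50) * x ^ 5 + (231 / 3200) * x ^ 6 := by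
  have h : ∀ s u : ℝ, 0 ≤ s → 0 ≤ u → 0 ≤ (1441 / 12800) * u ^ 6 + (19057 / 12800) * s * u ^ 5 + (2755 / 512) * s ^ 2 * u ^ 4 + (92927 / 12800) * s ^ 3 * u ^ 3 + (323 / 80) * s ^ 4 * u ^ 2 + (171 / 100) * s ^ 5 * u + 1 * s ^ 6 := by
    intro s u hs hu
    positivity
  refine le_of_le_of_eq (h x (1 - x) (by linarith) (by linarith)) ?_
  ring

theorem tp2_10_1_c2 {x : ℝ} (h0 : 0 ≤ x) (h1 : x ≤ 1) : 0 ≤ (147 / 6400) + (2911 / 3200) * x + (7 / 320) * x ^ 2 - (1299 / 640) * x ^ 3 + (6473 / 6400) * x ^ 4 + (147 / 160) * x ^ 5 + (29 / 200) * x ^ 6 := by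
  have h : ∀ s u : ℝ, 0 ≤ s → 0 ≤ u → 0 ≤ (147 / 6400) * u ^ 6 + (419 / 400) * s * u ^ 5 + (6291 / 1280) * s ^ 2 * u ^ 4 + (4873 / 640) * s ^ 3 * u ^ 3 + (899 / 200) * s ^ 4 * u ^ 2 + (1301 / 800) * s ^ 5 * u + 1 * s ^ 6 := by
    intro s u hs hu
    positivity
  refine le_of_le_of_eq (h x (1 - x) (by linarith) (by linarith)) ?_
  ring

theorem tp2_10_1_c3 {x : ℝ} (h0 : 0 ≤ x) (h1 : x ≤ 1) : 0 ≤ (49 / 3200) + (2689 / 3200) * x + (1083 / 3200) * x ^ 2 - (1333 / 640) * x ^ 3 + (199 / 400) * x ^ 4 + (447 / 400) * x ^ 5 + (219 / 800) * x ^ 6 := by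
  have h : ∀ s u : ℝ, 0 ≤ s → 0 ≤ u → 0 ≤ (49 / 3200) * u ^ 6 + (2983 / 3200) * s * u ^ 5 + (15263 / 3200) * s ^ 2 * u ^ 4 + (25537 / 3200) * s ^ 3 * u ^ 3 + (393 / 80) * s ^ 4 * u ^ 2 + (1209 / 800) * s ^ 5 * u + 1 * s ^ 6 := by
    intro s u hs hu
    positivity
  refine le_of_le_of_eq (h x (1 - x) (by linarith) (by linarith)) ?_
  ring

theorem tp2_10_1_c4 {x : ℝ} (h0 : 0 ≤ x) (h1 : x ≤ 1) : 0 ≤ (83 / 1600) + (141 / 200) * x + (419 / 800) * x ^ 2 - (15 / 8) * x ^ 3 - (89 / 1600) * x ^ 4 + (117 / 100) * x ^ 5 + (12 / 25) * x ^ 6 := by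
  have h : ∀ s u : ℝ, 0 ≤ s → 0 ≤ u → 0 ≤ (83 / 1600) * u ^ 6 + (813 / 800) * s * u ^ 5 + (7723 / 1600) * s ^ 2 * u ^ 4 + (3323 / 400) * s ^ 3 * u ^ 3 + (529 / 100) * s ^ 4 * u ^ 2 + (273 / 200) * s ^ 5 * u + 1 * s ^ 6 := by
    intro s u hs hu
    positivity
  refine le_of_le_of_eq (h x (1 - x) (by linarith) (by linarith)) ?_
  ring

theorem tp2_10_1 {x w : ℝ} (h0 : 0 ≤ x) (h1 : x ≤ 1) (h2 : 1 / 4 ≤ w) (h3 : w ≤ 1 / 2) :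
    0 ≤ Tp 1 (51 / 20) (1 / 2) 2 (69 / 100) (41 / 100) (7 / 50) 0 x w 0 := by
  have hp : 0 ≤ (w - (1 / 4)) := by linarith
  have hr : 0 ≤ ((1 / 2) - w) := by linarith
  have b0 := tp2_10_1_c0 h0 h1
  have m0 : 0 ≤ 256 * ((1 / 2) - w) ^ 4 := by positivity
  have b1 := tp2_10_1_c1 h0 h1
  have m1 : 0 ≤ 1024 * (w - (1 / 4)) * ((1 / 2) - w) ^ 3 := by positivity
  have b2 := tp2_10_1_c2 h0 h1
  have m2 : 0 ≤ 1536 * (w - (1 / 4)) ^ 2 * ((1 / 2) - w) ^ 2 := by positivity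
  have b3 := tp2_10_1_c3 h0 h1
  have m3 : 0 ≤ 1024 * (w - (1 / 4)) ^ 3 * ((1 / 2) - w) := by positivity
  have b4 := tp2_10_1_c4 h0 h1
  have m4 : 0 ≤ 256 * (w - (1 / 4)) ^ 4 := by positivity
  have e : Tp 1 (51 / 20) (1 / 2) 2 (69 / 100) (41 / 100) (7 / 50) 0 x w 0 = (256 * ((1 / 2) - w) ^ 4) * ((8723 / 25600) + (2407 / 6400) * x - (8787 / 12800) * x ^ 2 - (5509 / 6400) * x ^ 3 + (35051 / 25600) * x ^ 4 + (171 / 400) * x ^ 5 + (27 / 800) * x ^ 6) +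
      (1024 * (w - (1 / 4)) * ((1 / 2) - w) ^ 3) * ((1441 / 12800) + (10411 / 12800) * x - (959 / 2560) * x ^ 2 - (20823 / 12800) * x ^ 3 + (8597 / 6400) * x ^ 4 + (33 / 50) * x ^ 5 + (231 / 3200) * x ^ 6) +
      (1536 * (w - (1 / 4)) ^ 2 * ((1 / 2) - w) ^ 2) * ((147 / 6400) + (2911 / 3200) * x + (7 / 320) * x ^ 2 - (1299 / 640) * x ^ 3 + (6473 / 6400) * x ^ 4 + (147 / 160) * x ^ 5 + (29 / 200) * x ^ 6) +
      (1024 * (w - (1 / 4)) ^ 3 * ((1 / 2) - w)) * ((49 / 3200) + (2689 / 3200) * x + (1083 / 3200) * x ^ 2 - (1333 / 640) * x ^ 3 + (199 / 400) * x ^ 4 + (447 / 400) * x ^ 5 + (219 / 800) * x ^ 6) +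
      (256 * (w - (1 / 4)) ^ 4) * ((83 / 1600) + (141 / 200) * x + (419 / 800) * x ^ 2 - (15 / 8) * x ^ 3 - (89 / 1600) * x ^ 4 + (117 / 100) * x ^ 5 + (12 / 25) * x ^ 6) := by
    unfold Tp
    push_cast
    ring
  rw [e]
  exact add_nonneg (add_nonneg (add_nonneg (add_nonneg (mul_nonneg m0 b0) (mul_nonneg m1 b1)) (mul_nonneg m2 b2)) (mul_nonneg m3 b3)) (mul_nonneg m4 b4)

theorem tp2_10_2_c0 {x : ℝ} (h0 : 0 ≤ x) (h1 : x ≤ 1) : 0 ≤ (83 / 1600) + (141 / 200) * x + (419 / 800) * x ^ 2 - (15 / 8) * x ^ 3 - (89 / 1600) * x ^ 4 + (117 / 100) * x ^ 5 + (12 / 25) * x ^ 6 := by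
  have h : ∀ s u : ℝ, 0 ≤ s → 0 ≤ u → 0 ≤ (83 / 1600) * u ^ 6 + (813 / 800) * s * u ^ 5 + (7723 / 1600) * s ^ 2 * u ^ 4 + (3323 / 400) * s ^ 3 * u ^ 3 + (529 / 100) * s ^ 4 * u ^ 2 + (273 / 200) * s ^ 5 * u + 1 * s ^ 6 := by
    intro s u hs hu
    positivity
  refine le_of_le_of_eq (h x (1 - x) (by linarith) (by linarith)) ?_
  ring

theorem tp2_10_2_c1 {x : ℝ} (h0 : 0 ≤ x) (h1 : x ≤ 1) : 0 ≤ (1 / 8) + (139 / 320) * x + (1431 / 1600) * x ^ 2 - (467 / 320) * x ^ 3 - (1859 / 1600) * x ^ 4 + (51 / 40) * x ^ 5 + (357 / 400) * x ^ 6 := by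
  have h : ∀ s u : ℝ, 0 ≤ s → 0 ≤ u → 0 ≤ (1 / 8) * u ^ 6 + (379 / 320) * s * u ^ 5 + (3953 / 800) * s ^ 2 * u ^ 4 + (14339 / 1600) * s ^ 3 * u ^ 3 + (1209 / 200) * s ^ 4 * u ^ 2 + (429 / 400) * s ^ 5 * u + 1 * s ^ 6 := by
    intro s u hs hu
    positivity
  refine le_of_le_of_eq (h x (1 - x) (by linarith) (by linarith)) ?_
  ring

theorem tp2_10_2_c2 {x : ℝ} (h0 : 0 ≤ x) (h1 : x ≤ 1) : 0 ≤ (3 / 8) - (1 / 10) * x + (37 / 50) * x ^ 2 - (97 / 40) * x ^ 4 + (159 / 200) * x ^ 5 + (323 / 200) * x ^ 6 := by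
  have h : ∀ s u : ℝ, 0 ≤ s → 0 ≤ u → 0 ≤ (3 / 8) * u ^ 6 + (43 / 20) * s * u ^ 5 + (1173 / 200) * s ^ 2 * u ^ 4 + (473 / 50) * s ^ 3 * u ^ 3 + (166 / 25) * s ^ 4 * u ^ 2 + (131 / 200) * s ^ 5 * u + 1 * s ^ 6 := by
    intro s u hs hu
    positivity
  refine le_of_le_of_eq (h x (1 - x) (by linarith) (by linarith)) ?_
  ring

theorem tp2_10_2_c3 {x : ℝ} (h0 : 0 ≤ x) (h1 : x ≤ 1) : 0 ≤ (1 / 2) - (1 / 10) * x - (7 / 20) * x ^ 2 + (717 / 400) * x ^ 3 - (1081 / 400) * x ^ 4 - (24 / 25) * x ^ 5 + (141 / 50) * x ^ 6 := by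
  have h : ∀ s u : ℝ, 0 ≤ s → 0 ≤ u → 0 ≤ (1 / 2) * u ^ 6 + (29 / 10) * s * u ^ 5 + (133 / 20) * s ^ 2 * u ^ 4 + (3757 / 400) * s ^ 3 * u ^ 3 + (283 / 40) * s ^ 4 * u ^ 2 + (9 / 80) * s ^ 5 * u + 1 * s ^ 6 := by
    intro s u hs hu
    positivity
  refine le_of_le_of_eq (h x (1 - x) (by linarith) (by linarith)) ?_
  ring

theorem tp2_10_2_c4 {x : ℝ} (h0 : 0 ≤ x) (h1 : x ≤ 1) : 0 ≤ (1 / 2) + (1 / 40) * x - (39 / 40) * x ^ 2 + 2 * x ^ 3 - (11 / 20) * x ^ 4 - (117 / 25) * x ^ 5 + (117 / 25) * x ^ 6 := by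
  have h : ∀ s u : ℝ, 0 ≤ s → 0 ≤ u → 0 ≤ (1 / 2) * u ^ 7 + (141 / 40) * s * u ^ 6 + (387 / 40) * s ^ 2 * u ^ 5 + 15 * s ^ 3 * u ^ 4 + (157 / 10) * s ^ 4 * u ^ 3 + (1359 / 200) * s ^ 5 * u ^ 2 + (89 / 200) * s ^ 6 * u + 1 * s ^ 7 := by
    intro s u hs hu
    positivity
  refine le_of_le_of_eq (h x (1 - x) (by linarith) (by linarith)) ?_
  ring

theorem tp2_10_2 {x w : ℝ} (h0 : 0 ≤ x) (h1 : x ≤ 1) (h2 : 1 / 2 ≤ w) (h3 : w ≤ 1) :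
    0 ≤ Tp 1 (51 / 20) (1 / 2) 2 (69 / 100) (41 / 100) (7 / 50) 0 x w 0 := by
  have hp : 0 ≤ (w - (1 / 2)) := by linarith
  have hr : 0 ≤ (1 - w) := by linarith
  have b0 := tp2_10_2_c0 h0 h1
  have m0 : 0 ≤ 16 * (1 - w) ^ 4 := by positivity
  have b1 := tp2_10_2_c1 h0 h1
  have m1 : 0 ≤ 64 * (w - (1 / 2)) * (1 - w) ^ 3 := by positivity
  have b2 := tp2_10_2_c2 h0 h1
  have m2 : 0 ≤ 96 * (w - (1 / 2)) ^ 2 * (1 - w) ^ 2 := by positivity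
  have b3 := tp2_10_2_c3 h0 h1
  have m3 : 0 ≤ 64 * (w - (1 / 2)) ^ 3 * (1 - w) := by positivity
  have b4 := tp2_10_2_c4 h0 h1
  have m4 : 0 ≤ 16 * (w - (1 / 2)) ^ 4 := by positivity
  have e : Tp 1 (51 / 20) (1 / 2) 2 (69 / 100) (41 / 100) (7 / 50) 0 x w 0 = (16 * (1 - w) ^ 4) * ((83 / 1600) + (141 / 200) * x + (419 / 800) * x ^ 2 - (15 / 8) * x ^ 3 - (89 / 1600) * x ^ 4 + (117 / 100) * x ^ 5 + (12 / 25) * x ^ 6) +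
      (64 * (w - (1 / 2)) * (1 - w) ^ 3) * ((1 / 8) + (139 / 320) * x + (1431 / 1600) * x ^ 2 - (467 / 320) * x ^ 3 - (1859 / 1600) * x ^ 4 + (51 / 40) * x ^ 5 + (357 / 400) * x ^ 6) +
      (96 * (w - (1 / 2)) ^ 2 * (1 - w) ^ 2) * ((3 / 8) - (1 / 10) * x + (37 / 50) * x ^ 2 - (97 / 40) * x ^ 4 + (159 / 200) * x ^ 5 + (323 / 200) * x ^ 6) +
      (64 * (w - (1 / 2)) ^ 3 * (1 - w)) * ((1 / 2) - (1 / 10) * x - (7 / 20) * x ^ 2 + (717 / 400) * x ^ 3 - (1081 / 400) * x ^ 4 - (24 / 25) * x ^ 5 + (141 / 50) * x ^ 6) +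
      (16 * (w - (1 / 2)) ^ 4) * ((1 / 2) + (1 / 40) * x - (39 / 40) * x ^ 2 + 2 * x ^ 3 - (11 / 20) * x ^ 4 - (117 / 25) * x ^ 5 + (117 / 25) * x ^ 6) := by
    unfold Tp
    push_cast
    ring
  rw [e]
  exact add_nonneg (add_nonneg (add_nonneg (add_nonneg (mul_nonneg m0 b0) (mul_nonneg m1 b1)) (mul_nonneg m2 b2)) (mul_nonneg m3 b3)) (mul_nonneg m4 b4)

theorem tp2_10 {x w : ℝ} (h0 : 0 ≤ x) (h1 : x ≤ 1) (h2 : 0 ≤ w) (h3 : w ≤ 1) :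
    0 ≤ Tp 1 (51 / 20) (1 / 2) 2 (69 / 100) (41 / 100) (7 / 50) 0 x w 0 := by
  rcases le_total w (1 / 4) with k | k
  · exact tp2_10_0 (by linarith) (by linarith) (by linarith) (by linarith)
  · rcases le_total w (1 / 2) with k | k
    · exact tp2_10_1 (by linarith) (by linarith) (by linarith) (by linarith)
    · exact tp2_10_2 (by linarith) (by linarith) (by linarith) (by linarith)

theorem tp2_11_0_c0 {x : ℝ} (h0 : 0 ≤ x) (h1 : x ≤ 1 / 2) : 0 ≤ (21 / 20) - (583 / 200) * x + (5 / 8) * x ^ 2 + (77 / 25) * x ^ 3 - (21 / 25) * x ^ 4 := by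
  have h : ∀ s u : ℝ, 0 ≤ s → 0 ≤ u → 0 ≤ (84 / 5) * u ^ 4 + (1097 / 25) * s * u ^ 3 + (1667 / 50) * s ^ 2 * u ^ 2 + (42 / 5) * s ^ 3 * u + (13 / 10) * s ^ 4 := by
    intro s u hs hu
    positivity
  refine le_of_le_of_eq (h x ((1 / 2) - x) (by linarith) (by linarith)) ?_
  ring

theorem tp2_11_0_c1 {x : ℝ} (h0 : 0 ≤ x) (h1 : x ≤ 1 / 2) : 0 ≤ (2 / 5) - (83 / 80) * x - (39 / 400) * x ^ 2 + (61 / 40) * x ^ 3 + (21 / 50) * x ^ 4 - (21 / 100) * x ^ 5 := by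
  have h : ∀ s u : ℝ, 0 ≤ s → 0 ≤ u → 0 ≤ (64 / 5) * u ^ 5 + (237 / 5) * s * u ^ 4 + (3041 / 50) * s ^ 2 * u ^ 3 + (804 / 25) * s ^ 3 * u ^ 2 + (83 / 10) * s ^ 4 * u + (43 / 20) * s ^ 5 := by
    intro s u hs hu
    positivity
  refine le_of_le_of_eq (h x ((1 / 2) - x) (by linarith) (by linarith)) ?_
  ring

theorem tp2_11_0_c2 {x : ℝ} (h0 : 0 ≤ x) (h1 : x ≤ 1 / 2) : 0 ≤ (11 / 80) - (121 / 400) * x + (23 / 400) * x ^ 2 + (163 / 400) * x ^ 3 + (77 / 100) * x ^ 4 - (7 / 200) * x ^ 5 - (7 / 200) * x ^ 6 := by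
  have h : ∀ s u : ℝ, 0 ≤ s → 0 ≤ u → 0 ≤ (44 / 5) * u ^ 6 + (1078 / 25) * s * u ^ 5 + (2113 / 25) * s ^ 2 * u ^ 4 + (4307 / 50) * s ^ 3 * u ^ 3 + (2679 / 50) * s ^ 4 * u ^ 2 + (479 / 20) * s ^ 5 * u + (251 / 40) * s ^ 6 := by
    intro s u hs hu
    positivity
  refine le_of_le_of_eq (h x ((1 / 2) - x) (by linarith) (by linarith)) ?_
  ring

theorem tp2_11_0_c3 {x : ℝ} (h0 : 0 ≤ x) (h1 : x ≤ 1 / 2) : 0 ≤ (11 / 160) - (59 / 1600) * x + (97 / 320) * x ^ 2 - (133 / 1600) * x ^ 3 + (861 / 1600) * x ^ 4 + (49 / 200) * x ^ 5 - (7 / 200) * x ^ 6 := by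
  have h : ∀ s u : ℝ, 0 ≤ s → 0 ≤ u → 0 ≤ (22 / 5) * u ^ 6 + (1261 / 50) * s * u ^ 5 + (1299 / 20) * s ^ 2 * u ^ 4 + (18987 / 200) * s ^ 3 * u ^ 3 + (33383 / 400) * s ^ 4 * u ^ 2 + (427 / 10) * s ^ 5 * u + (801 / 80) * s ^ 6 := by
    intro s u hs hu
    positivity
  refine le_of_le_of_eq (h x ((1 / 2) - x) (by linarith) (by linarith)) ?_
  ring

theorem tp2_11_0_c4 {x : ℝ} (h0 : 0 ≤ x) (h1 : x ≤ 1 / 2) : 0 ≤ (31 / 320) + (9 / 200) * x + (347 / 800) * x ^ 2 - (29 / 200) * x ^ 3 + (239 / 1600) * x ^ 4 + (7 / 20) * x ^ 5 + (7 / 100) * x ^ 6 := by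
  have h : ∀ s u : ℝ, 0 ≤ s → 0 ≤ u → 0 ≤ (31 / 5) * u ^ 6 + (966 / 25) * s * u ^ 5 + (5357 / 50) * s ^ 2 * u ^ 4 + 165 * s ^ 3 * u ^ 3 + (58463 / 400) * s ^ 4 * u ^ 2 + (2823 / 40) * s ^ 5 * u + (1183 / 80) * s ^ 6 := by
    intro s u hs hu
    positivity
  refine le_of_le_of_eq (h x ((1 / 2) - x) (by linarith) (by linarith)) ?_
  ring

theorem tp2_11_0 {x w : ℝ} (h0 : 0 ≤ x) (h1 : x ≤ 1 / 2) (h2 : 0 ≤ w) (h3 : w ≤ 1 / 2) :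
    0 ≤ Tp 1 (51 / 20) (1 / 2) 2 (69 / 100) (41 / 100) (7 / 50) 0 x w 1 := by
  have hp : 0 ≤ w := by linarith
  have hr : 0 ≤ ((1 / 2) - w) := by linarith
  have b0 := tp2_11_0_c0 h0 h1
  have m0 : 0 ≤ 16 * ((1 / 2) - w) ^ 4 := by positivity
  have b1 := tp2_11_0_c1 h0 h1
  have m1 : 0 ≤ 64 * w * ((1 / 2) - w) ^ 3 := by positivity
  have b2 := tp2_11_0_c2 h0 h1
  have m2 : 0 ≤ 96 * w ^ 2 * ((1 / 2) - w) ^ 2 := by positivity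
  have b3 := tp2_11_0_c3 h0 h1
  have m3 : 0 ≤ 64 * w ^ 3 * ((1 / 2) - w) := by positivity
  have b4 := tp2_11_0_c4 h0 h1
  have m4 : 0 ≤ 16 * w ^ 4 := by positivity
  have e : Tp 1 (51 / 20) (1 / 2) 2 (69 / 100) (41 / 100) (7 / 50) 0 x w 1 = (16 * ((1 / 2) - w) ^ 4) * ((21 / 20) - (583 / 200) * x + (5 / 8) * x ^ 2 + (77 / 25) * x ^ 3 - (21 / 25) * x ^ 4) +
      (64 * w * ((1 / 2) - w) ^ 3) * ((2 / 5) - (83 / 80) * x - (39 / 400) * x ^ 2 + (61 / 40) * x ^ 3 + (21 / 50) * x ^ 4 - (21 / 100) * x ^ 5) +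
      (96 * w ^ 2 * ((1 / 2) - w) ^ 2) * ((11 / 80) - (121 / 400) * x + (23 / 400) * x ^ 2 + (163 / 400) * x ^ 3 + (77 / 100) * x ^ 4 - (7 / 200) * x ^ 5 - (7 / 200) * x ^ 6) +
      (64 * w ^ 3 * ((1 / 2) - w)) * ((11 / 160) - (59 / 1600) * x + (97 / 320) * x ^ 2 - (133 / 1600) * x ^ 3 + (861 / 1600) * x ^ 4 + (49 / 200) * x ^ 5 - (7 / 200) * x ^ 6) +
      (16 * w ^ 4) * ((31 / 320) + (9 / 200) * x + (347 / 800) * x ^ 2 - (29 / 200) * x ^ 3 + (239 / 1600) * x ^ 4 + (7 / 20) * x ^ 5 + (7 / 100) * x ^ 6) := by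
    unfold Tp
    push_cast
    ring
  rw [e]
  exact add_nonneg (add_nonneg (add_nonneg (add_nonneg (mul_nonneg m0 b0) (mul_nonneg m1 b1)) (mul_nonneg m2 b2)) (mul_nonneg m3 b3)) (mul_nonneg m4 b4)

theorem tp2_11_1_c0 {x : ℝ} (h0 : 1 / 2 ≤ x) (h1 : x ≤ 1) : 0 ≤ (21 / 20) - (583 / 200) * x + (5 / 8) * x ^ 2 + (77 / 25) * x ^ 3 - (21 / 25) * x ^ 4 := by
  have h : ∀ s u : ℝ, 0 ≤ s → 0 ≤ u → 0 ≤ (13 / 10) * u ^ 4 + 2 * s * u ^ 3 + (707 / 50) * s ^ 2 * u ^ 2 + (757 / 25) * s ^ 3 * u + 16 * s ^ 4 := by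
    intro s u hs hu
    positivity
  refine le_of_le_of_eq (h (x - (1 / 2)) (1 - x) (by linarith) (by linarith)) ?_
  ring

theorem tp2_11_1_c1 {x : ℝ} (h0 : 1 / 2 ≤ x) (h1 : x ≤ 1) : 0 ≤ (2 / 5) - (83 / 80) * x - (39 / 400) * x ^ 2 + (61 / 40) * x ^ 3 + (21 / 50) * x ^ 4 - (21 / 100) * x ^ 5 := by
  have h : ∀ s u : ℝ, 0 ≤ s → 0 ≤ u → 0 ≤ (43 / 20) * u ^ 5 + (66 / 5) * s * u ^ 4 + (1294 / 25) * s ^ 2 * u ^ 3 + (5247 / 50) * s ^ 3 * u ^ 2 + (2411 / 25) * s ^ 4 * u + 32 * s ^ 5 := by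
    intro s u hs hu
    positivity
  refine le_of_le_of_eq (h (x - (1 / 2)) (1 - x) (by linarith) (by linarith)) ?_
  ring

theorem tp2_11_1_c2 {x : ℝ} (h0 : 1 / 2 ≤ x) (h1 : x ≤ 1) : 0 ≤ (11 / 80) - (121 / 400) * x + (23 / 400) * x ^ 2 + (163 / 400) * x ^ 3 + (77 / 100) * x ^ 4 - (7 / 200) * x ^ 5 - (7 / 200) * x ^ 6 := by
  have h : ∀ s u : ℝ, 0 ≤ s → 0 ≤ u → 0 ≤ (251 / 40) * u ^ 6 + (1027 / 20) * s * u ^ 5 + (9529 / 50) * s ^ 2 * u ^ 4 + (777 / 2) * s ^ 3 * u ^ 3 + (2218 / 5) * s ^ 4 * u ^ 2 + (6616 / 25) * s ^ 5 * u + 64 * s ^ 6 := by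
    intro s u hs hu
    positivity
  refine le_of_le_of_eq (h (x - (1 / 2)) (1 - x) (by linarith) (by linarith)) ?_
  ring

theorem tp2_11_1_c3 {x : ℝ} (h0 : 1 / 2 ≤ x) (h1 : x ≤ 1) : 0 ≤ (11 / 160) - (59 / 1600) * x + (97 / 320) * x ^ 2 - (133 / 1600) * x ^ 3 + (861 / 1600) * x ^ 4 + (49 / 200) * x ^ 5 - (7 / 200) * x ^ 6 := by
  have h : ∀ s u : ℝ, 0 ≤ s → 0 ≤ u → 0 ≤ (801 / 80) * u ^ 6 + (1549 / 20) * s * u ^ 5 + (102883 / 400) * s ^ 2 * u ^ 4 + (18669 / 40) * s ^ 3 * u ^ 3 + (12133 / 25) * s ^ 4 * u ^ 2 + (1362 / 5) * s ^ 5 * u + 64 * s ^ 6 := by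
    intro s u hs hu
    positivity
  refine le_of_le_of_eq (h (x - (1 / 2)) (1 - x) (by linarith) (by linarith)) ?_
  ring

theorem tp2_11_1_c4 {x : ℝ} (h0 : 1 / 2 ≤ x) (h1 : x ≤ 1) : 0 ≤ (31 / 320) + (9 / 200) * x + (347 / 800) * x ^ 2 - (29 / 200) * x ^ 3 + (239 / 1600) * x ^ 4 + (7 / 20) * x ^ 5 + (7 / 100) * x ^ 6 := by
  have h : ∀ s u : ℝ, 0 ≤ s → 0 ≤ u → 0 ≤ (1183 / 80) * u ^ 6 + (855 / 8) * s * u ^ 5 + (131063 / 400) * s ^ 2 * u ^ 4 + (27363 / 50) * s ^ 3 * u ^ 3 + (13198 / 25) * s ^ 4 * u ^ 2 + (7004 / 25) * s ^ 5 * u + 64 * s ^ 6 := by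
    intro s u hs hu
    positivity
  refine le_of_le_of_eq (h (x - (1 / 2)) (1 - x) (by linarith) (by linarith)) ?_
  ring

theorem tp2_11_1 {x w : ℝ} (h0 : 1 / 2 ≤ x) (h1 : x ≤ 1) (h2 : 0 ≤ w) (h3 : w ≤ 1 / 2) :
    0 ≤ Tp 1 (51 / 20) (1 / 2) 2 (69 / 100) (41 / 100) (7 / 50) 0 x w 1 := by
  have hp : 0 ≤ w := by linarith
  have hr : 0 ≤ ((1 / 2) - w) := by linarith
  have b0 := tp2_11_1_c0 h0 h1
  have m0 : 0 ≤ 16 * ((1 / 2) - w) ^ 4 := by positivity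
  have b1 := tp2_11_1_c1 h0 h1
  have m1 : 0 ≤ 64 * w * ((1 / 2) - w) ^ 3 := by positivity
  have b2 := tp2_11_1_c2 h0 h1
  have m2 : 0 ≤ 96 * w ^ 2 * ((1 / 2) - w) ^ 2 := by positivity
  have b3 := tp2_11_1_c3 h0 h1
  have m3 : 0 ≤ 64 * w ^ 3 * ((1 / 2) - w) := by positivity
  have b4 := tp2_11_1_c4 h0 h1
  have m4 : 0 ≤ 16 * w ^ 4 := by positivity
  have e : Tp 1 (51 / 20) (1 / 2) 2 (69 / 100) (41 / 100) (7 / 50) 0 x w 1 = (16 * ((1 / 2) - w) ^ 4) * ((21 / 20) - (583 / 200) * x + (5 / 8) * x ^ 2 + (77 / 25) * x ^ 3 - (21 / 25) * x ^ 4) +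
      (64 * w * ((1 / 2) - w) ^ 3) * ((2 / 5) - (83 / 80) * x - (39 / 400) * x ^ 2 + (61 / 40) * x ^ 3 + (21 / 50) * x ^ 4 - (21 / 100) * x ^ 5) +
      (96 * w ^ 2 * ((1 / 2) - w) ^ 2) * ((11 / 80) - (121 / 400) * x + (23 / 400) * x ^ 2 + (163 / 400) * x ^ 3 + (77 / 100) * x ^ 4 - (7 / 200) * x ^ 5 - (7 / 200) * x ^ 6) +
      (64 * w ^ 3 * ((1 / 2) - w)) * ((11 / 160) - (59 / 1600) * x + (97 / 320) * x ^ 2 - (133 / 1600) * x ^ 3 + (861 / 1600) * x ^ 4 + (49 / 200) * x ^ 5 - (7 / 200) * x ^ 6) +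
      (16 * w ^ 4) * ((31 / 320) + (9 / 200) * x + (347 / 800) * x ^ 2 - (29 / 200) * x ^ 3 + (239 / 1600) * x ^ 4 + (7 / 20) * x ^ 5 + (7 / 100) * x ^ 6) := by
    unfold Tp
    push_cast
    ring
  rw [e]
  exact add_nonneg (add_nonneg (add_nonneg (add_nonneg (mul_nonneg m0 b0) (mul_nonneg m1 b1)) (mul_nonneg m2 b2)) (mul_nonneg m3 b3)) (mul_nonneg m4 b4)

theorem tp2_11_2_c0 {x : ℝ} (h0 : 0 ≤ x) (h1 : x ≤ 1) : 0 ≤ (31 / 320) + (9 / 200) * x + (347 / 800) * x ^ 2 - (29 / 200) * x ^ 3 + (239 / 1600) * x ^ 4 + (7 / 20) * x ^ 5 + (7 / 100) * x ^ 6 := by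
  have h : ∀ s u : ℝ, 0 ≤ s → 0 ≤ u → 0 ≤ (31 / 320) * u ^ 6 + (501 / 800) * s * u ^ 5 + (3379 / 1600) * s ^ 2 * u ^ 4 + (1591 / 400) * s ^ 3 * u ^ 3 + (211 / 50) * s ^ 4 * u ^ 2 + (551 / 200) * s ^ 5 * u + 1 * s ^ 6 := by
    intro s u hs hu
    positivity
  refine le_of_le_of_eq (h x (1 - x) (by linarith) (by linarith)) ?_
  ring

theorem tp2_11_2_c1 {x : ℝ} (h0 : 0 ≤ x) (h1 : x ≤ 1) : 0 ≤ (1 / 8) + (203 / 1600) * x + (903 / 1600) * x ^ 2 - (331 / 1600) * x ^ 3 - (383 / 1600) * x ^ 4 + (91 / 200) * x ^ 5 + (7 / 40) * x ^ 6 := by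
  have h : ∀ s u : ℝ, 0 ≤ s → 0 ≤ u → 0 ≤ (1 / 8) * u ^ 6 + (1403 / 1600) * s * u ^ 5 + (2459 / 800) * s ^ 2 * u ^ 4 + (9311 / 1600) * s ^ 3 * u ^ 3 + (567 / 100) * s ^ 4 * u ^ 2 + (1199 / 400) * s ^ 5 * u + 1 * s ^ 6 := by
    intro s u hs hu
    positivity
  refine le_of_le_of_eq (h x (1 - x) (by linarith) (by linarith)) ?_
  ring

theorem tp2_11_2_c2 {x : ℝ} (h0 : 0 ≤ x) (h1 : x ≤ 1) : 0 ≤ (1 / 4) + (1 / 40) * x + (29 / 50) * x ^ 2 + (4 / 25) * x ^ 3 - (157 / 200) * x ^ 4 + (77 / 200) * x ^ 5 + (77 / 200) * x ^ 6 := by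
  have h : ∀ s u : ℝ, 0 ≤ s → 0 ≤ u → 0 ≤ (1 / 4) * u ^ 6 + (61 / 40) * s * u ^ 5 + (891 / 200) * s ^ 2 * u ^ 4 + (773 / 100) * s ^ 3 * u ^ 3 + (287 / 40) * s ^ 4 * u ^ 2 + (81 / 25) * s ^ 5 * u + 1 * s ^ 6 := by
    intro s u hs hu
    positivity
  refine le_of_le_of_eq (h x (1 - x) (by linarith) (by linarith)) ?_
  ring

theorem tp2_11_2_c3 {x : ℝ} (h0 : 0 ≤ x) (h1 : x ≤ 1) : 0 ≤ (3 / 8) + (1 / 40) * x + (11 / 40) * x ^ 2 + (303 / 400) * x ^ 3 - (17 / 16) * x ^ 4 - (7 / 50) * x ^ 5 + (77 / 100) * x ^ 6 := by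
  have h : ∀ s u : ℝ, 0 ≤ s → 0 ≤ u → 0 ≤ (3 / 8) * u ^ 6 + (91 / 40) * s * u ^ 5 + (241 / 40) * s ^ 2 * u ^ 4 + (3843 / 400) * s ^ 3 * u ^ 3 + (1747 / 200) * s ^ 4 * u ^ 2 + (1393 / 400) * s ^ 5 * u + 1 * s ^ 6 := by
    intro s u hs hu
    positivity
  refine le_of_le_of_eq (h x (1 - x) (by linarith) (by linarith)) ?_
  ring

theorem tp2_11_2_c4 {x : ℝ} (h0 : 0 ≤ x) (h1 : x ≤ 1) : 0 ≤ (1 / 2) + (1 / 40) * x + (1 / 40) * x ^ 2 + 1 * x ^ 3 - (11 / 20) * x ^ 4 - (7 / 5) * x ^ 5 + (7 / 5) * x ^ 6 := by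
  have h : ∀ s u : ℝ, 0 ≤ s → 0 ≤ u → 0 ≤ (1 / 2) * u ^ 6 + (121 / 40) * s * u ^ 5 + (153 / 20) * s ^ 2 * u ^ 4 + (227 / 20) * s ^ 3 * u ^ 3 + (207 / 20) * s ^ 4 * u ^ 2 + (149 / 40) * s ^ 5 * u + 1 * s ^ 6 := by
    intro s u hs hu
    positivity
  refine le_of_le_of_eq (h x (1 - x) (by linarith) (by linarith)) ?_
  ring

theorem tp2_11_2 {x w : ℝ} (h0 : 0 ≤ x) (h1 : x ≤ 1) (h2 : 1 / 2 ≤ w) (h3 : w ≤ 1) :
    0 ≤ Tp 1 (51 / 20) (1 / 2) 2 (69 / 100) (41 / 100) (7 / 50) 0 x w 1 := by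
  have hp : 0 ≤ (w - (1 / 2)) := by linarith
  have hr : 0 ≤ (1 - w) := by linarith
  have b0 := tp2_11_2_c0 h0 h1
  have m0 : 0 ≤ 16 * (1 - w) ^ 4 := by positivity
  have b1 := tp2_11_2_c1 h0 h1
  have m1 : 0 ≤ 64 * (w - (1 / 2)) * (1 - w) ^ 3 := by positivity
  have b2 := tp2_11_2_c2 h0 h1
  have m2 : 0 ≤ 96 * (w - (1 / 2)) ^ 2 * (1 - w) ^ 2 := by positivity
  have b3 := tp2_11_2_c3 h0 h1
  have m3 : 0 ≤ 64 * (w - (1 / 2)) ^ 3 * (1 - w) := by positivity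
  have b4 := tp2_11_2_c4 h0 h1
  have m4 : 0 ≤ 16 * (w - (1 / 2)) ^ 4 := by positivity
  have e : Tp 1 (51 / 20) (1 / 2) 2 (69 / 100) (41 / 100) (7 / 50) 0 x w 1 = (16 * (1 - w) ^ 4) * ((31 / 320) + (9 / 200) * x + (347 / 800) * x ^ 2 - (29 / 200) * x ^ 3 + (239 / 1600) * x ^ 4 + (7 / 20) * x ^ 5 + (7 / 100) * x ^ 6) +
      (64 * (w - (1 / 2)) * (1 - w) ^ 3) * ((1 / 8) + (203 / 1600) * x + (903 / 1600) * x ^ 2 - (331 / 1600) * x ^ 3 - (383 / 1600) * x ^ 4 + (91 / 200) * x ^ 5 + (7 / 40) * x ^ 6) +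
      (96 * (w - (1 / 2)) ^ 2 * (1 - w) ^ 2) * ((1 / 4) + (1 / 40) * x + (29 / 50) * x ^ 2 + (4 / 25) * x ^ 3 - (157 / 200) * x ^ 4 + (77 / 200) * x ^ 5 + (77 / 200) * x ^ 6) +
      (64 * (w - (1 / 2)) ^ 3 * (1 - w)) * ((3 / 8) + (1 / 40) * x + (11 / 40) * x ^ 2 + (303 / 400) * x ^ 3 - (17 / 16) * x ^ 4 - (7 / 50) * x ^ 5 + (77 / 100) * x ^ 6) +
      (16 * (w - (1 / 2)) ^ 4) * ((1 / 2) + (1 / 40) * x + (1 / 40) * x ^ 2 + 1 * x ^ 3 - (11 / 20) * x ^ 4 - (7 / 5) * x ^ 5 + (7 / 5) * x ^ 6) := by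
    unfold Tp
    push_cast
    ring
  rw [e]
  exact add_nonneg (add_nonneg (add_nonneg (add_nonneg (mul_nonneg m0 b0) (mul_nonneg m1 b1)) (mul_nonneg m2 b2)) (mul_nonneg m3 b3)) (mul_nonneg m4 b4)

theorem tp2_11 {x w : ℝ} (h0 : 0 ≤ x) (h1 : x ≤ 1) (h2 : 0 ≤ w) (h3 : w ≤ 1) :
    0 ≤ Tp 1 (51 / 20) (1 / 2) 2 (69 / 100) (41 / 100) (7 / 50) 0 x w 1 := by
  rcases le_total w (1 / 2) with k | k
  · rcases le_total x (1 / 2) with k | k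
    · exact tp2_11_0 (by linarith) (by linarith) (by linarith) (by linarith)
    · exact tp2_11_1 (by linarith) (by linarith) (by linarith) (by linarith)
  · exact tp2_11_2 (by linarith) (by linarith) (by linarith) (by linarith)

theorem Tp2 {a x w Y : ℝ} (ha : 53 / 57 ≤ a) (ha1 : a ≤ 1) (hx : 0 ≤ x) (hx1 : x ≤ 1) (hw : 0 ≤ w) (hw1 : w ≤ 1)
    (hY : 0 ≤ Y) (hY1 : Y ≤ 1) : 0 ≤ Tp a (51 / 20) (1 / 2) 2 (69 / 100) (41 / 100) (7 / 50) 0 x w Y := by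
  have e : Tp a (51 / 20) (1 / 2) 2 (69 / 100) (41 / 100) (7 / 50) 0 x w Y = (1 - a) / (1 - (53 / 57)) * ((1 - Y) * Tp (53 / 57) (51 / 20) (1 / 2) 2 (69 / 100) (41 / 100) (7 / 50) 0 x w 0 + Y * Tp (53 / 57) (51 / 20) (1 / 2) 2 (69 / 100) (41 / 100) (7 / 50) 0 x w 1) +
      (a - (53 / 57)) / (1 - (53 / 57)) * ((1 - Y) * Tp 1 (51 / 20) (1 / 2) 2 (69 / 100) (41 / 100) (7 / 50) 0 x w 0 + Y * Tp 1 (51 / 20) (1 / 2) 2 (69 / 100) (41 / 100) (7 / 50) 0 x w 1) +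
      (1 - Y) * ((1 - x) ^ 2 * x) * ((1 - a) * (a - (53 / 57))) := by
    unfold Tp
    push_cast
    ring
  rw [e]
  have b1 := tp2_00 hx hx1 hw hw1
  have b2 := tp2_01 hx hx1 hw hw1
  have b3 := tp2_10 hx hx1 hw hw1
  have b4 := tp2_11 hx hx1 hw hw1
  have c1 : 0 ≤ 1 - Y := by linarith
  have c2 : 0 ≤ 1 - a := by linarith
  have c3 : 0 ≤ a - (53 / 57) := by linarith
  have c4 : 0 ≤ 1 - x := by linarith
  have c5 : (0 : ℝ) < 1 - (53 / 57) := by norm_num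
  positivity

end NullQ
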