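import Pool.Agent.Lib.H74Q.Sc

set_option autoImplicit false
set_option maxRecDepth 4000

/-!
The polynomial of the certificate 3 is nonnegative (Bernstein forms, generated).
-/

namespace NullQ

theorem tp3_00_0_c0 {x : ℝ} (h0 : 0 ≤ x) (h1 : x ≤ 1) : 0 ≤ (21 / 20) - (564343 / 187690) * x + (265803 / 375380) * x ^ 2 + (831961 / 187690) * x ^ 3 - (297 / 274) * x ^ 4 := by
  have h : ∀ s u : ℝ, 0 ≤ s → 0 ≤ u → 0 ≤ (21 / 20) * u ^ 9 + (483731 / 75076) * s * u ^ 8 + (5425679 / 375380) * s ^ 2 * u ^ 7 + (5029851 / 375380) * s ^ 3 * u ^ 6 + (1614863 / 375380) * s ^ 4 * u ^ 5 + (2882239 / 375380) * s ^ 5 * u ^ 4 + (1682949 / 75076) * s ^ 6 * u ^ 3 + (9057949 / 375380) * s ^ 7 * u ^ 2 + (7897 / 685) * s ^ 8 * u + (21 / 10) * s ^ 9 := by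
    intro s u hs hu
    positivity
  refine le_of_le_of_eq (h x (1 - x) (by linarith) (by linarith)) ?_
  ring

theorem tp3_00_0_c1 {x : ℝ} (h0 : 0 ≤ x) (h1 : x ≤ 1) : 0 ≤ (1142009 / 750760) * x - (1591209 / 750760) * x ^ 2 + (210529 / 187690) * x ^ 3 + (216 / 137) * x ^ 4 := by
  have h : ∀ s u : ℝ, 0 ≤ s → 0 ≤ u → 0 ≤ (1142009 / 750760) * s * u ^ 3 + (917409 / 375380) * s ^ 2 * u ^ 2 + (1585 / 1096) * s ^ 3 * u + (21 / 10) * s ^ 4 := by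
    intro s u hs hu
    positivity
  refine le_of_le_of_eq (h x (1 - x) (by linarith) (by linarith)) ?_
  ring

theorem tp3_00_0_c2 {x : ℝ} (h0 : 0 ≤ x) (h1 : x ≤ 1) : 0 ≤ (356257 / 375380) * x - (336723 / 375380) * x ^ 2 - (410903 / 187690) * x ^ 3 + (1161 / 274) * x ^ 4 := by
  have h : ∀ s u : ℝ, 0 ≤ s → 0 ≤ u → 0 ≤ (356257 / 375380) * s * u ^ 4 + (217661 / 75076) * s ^ 2 * u ^ 3 + (305567 / 375380) * s ^ 3 * u ^ 2 + (2641 / 2740) * s ^ 4 * u + (21 / 10) * s ^ 5 := by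
    intro s u hs hu
    positivity
  refine le_of_le_of_eq (h x (1 - x) (by linarith) (by linarith)) ?_
  ring

theorem tp3_00_0 {x w : ℝ} (h0 : 0 ≤ x) (h1 : x ≤ 1) (h2 : 0 ≤ w) (h3 : w ≤ 1) :
    0 ≤ Tp (135 / 137) (39 / 10) 0 0 (27 / 20) (19 / 25) (11 / 20) (51 / 100) x w 0 := by
  have hp : 0 ≤ w := by linarith
  have hr : 0 ≤ (1 - w) := by linarith
  have b0 := tp3_00_0_c0 h0 h1
  have m0 : 0 ≤ 1 * (1 - w) ^ 2 := by positivity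
  have b1 := tp3_00_0_c1 h0 h1
  have m1 : 0 ≤ 2 * w * (1 - w) := by positivity
  have b2 := tp3_00_0_c2 h0 h1
  have m2 : 0 ≤ 1 * w ^ 2 := by positivity
  have e : Tp (135 / 137) (39 / 10) 0 0 (27 / 20) (19 / 25) (11 / 20) (51 / 100) x w 0 = (1 * (1 - w) ^ 2) * ((21 / 20) - (564343 / 187690) * x + (265803 / 375380) * x ^ 2 + (831961 / 187690) * x ^ 3 - (297 / 274) * x ^ 4) +
      (2 * w * (1 - w)) * ((1142009 / 750760) * x - (1591209 / 750760) * x ^ 2 + (210529 / 187690) * x ^ 3 + (216 / 137) * x ^ 4) +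
      (1 * w ^ 2) * ((356257 / 375380) * x - (336723 / 375380) * x ^ 2 - (410903 / 187690) * x ^ 3 + (1161 / 274) * x ^ 4) := by
    unfold Tp
    push_cast
    ring
  rw [e]
  exact add_nonneg (add_nonneg (mul_nonneg m0 b0) (mul_nonneg m1 b1)) (mul_nonneg m2 b2)

theorem tp3_00 {x w : ℝ} (h0 : 0 ≤ x) (h1 : x ≤ 1) (h2 : 0 ≤ w) (h3 : w ≤ 1) :
    0 ≤ Tp (135 / 137) (39 / 10) 0 0 (27 / 20) (19 / 25) (11 / 20) (51 / 100) x w 0 := by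
  exact tp3_00_0 h0 h1 h2 h3

theorem tp3_01_0_c0 {x : ℝ} (h0 : 0 ≤ x) (h1 : x ≤ 1) : 0 ≤ (13911 / 13700) - (10178 / 3425) * x + (10161 / 13700) * x ^ 2 + (3013 / 685) * x ^ 3 - (297 / 274) * x ^ 4 := by
  have h : ∀ s u : ℝ, 0 ≤ s → 0 ≤ u → 0 ≤ (13911 / 13700) * u ^ 9 + (84487 / 13700) * s * u ^ 8 + (185261 / 13700) * s ^ 2 * u ^ 7 + (6399 / 548) * s ^ 3 * u ^ 6 + (6601 / 2740) * s ^ 4 * u ^ 5 + (88231 / 13700) * s ^ 5 * u ^ 4 + (300987 / 13700) * s ^ 6 * u ^ 3 + (329641 / 13700) * s ^ 7 * u ^ 2 + (7897 / 685) * s ^ 8 * u + (21 / 10) * s ^ 9 := by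
    intro s u hs hu
    positivity
  refine le_of_le_of_eq (h x (1 - x) (by linarith) (by linarith)) ?_
  ring

theorem tp3_01_0_c1 {x : ℝ} (h0 : 0 ≤ x) (h1 : x ≤ 1) : 0 ≤ (2797 / 8220) - (13583 / 13700) * x - (439 / 3425) * x ^ 2 + (32758 / 10275) * x ^ 3 - (423 / 1370) * x ^ 4 := by
  have h : ∀ s u : ℝ, 0 ≤ s → 0 ≤ u → 0 ≤ (2797 / 8220) * u ^ 8 + (71131 / 41100) * s * u ^ 7 + (101069 / 41100) * s ^ 2 * u ^ 6 + (5371 / 8220) * s ^ 3 * u ^ 5 + (23237 / 8220) * s ^ 4 * u ^ 4 + (102229 / 8220) * s ^ 5 * u ^ 3 + (230337 / 13700) * s ^ 6 * u ^ 2 + (133143 / 13700) * s ^ 7 * u + (21 / 10) * s ^ 8 := by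
    intro s u hs hu
    positivity
  refine le_of_le_of_eq (h x (1 - x) (by linarith) (by linarith)) ?_
  ring

theorem tp3_01_0_c2 {x : ℝ} (h0 : 0 ≤ x) (h1 : x ≤ 1) : 0 ≤ (37 / 20550) + (3241 / 10275) * x - (13591 / 20550) * x ^ 2 + (20321 / 10275) * x ^ 3 + (639 / 1370) * x ^ 4 := by
  have h : ∀ s u : ℝ, 0 ≤ s → 0 ≤ u → 0 ≤ (37 / 20550) * u ^ 5 + (6667 / 20550) * s * u ^ 4 + (12707 / 20550) * s ^ 2 * u ^ 3 + (39131 / 20550) * s ^ 3 * u ^ 2 + (25403 / 6850) * s ^ 4 * u + (21 / 10) * s ^ 5 := by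
    intro s u hs hu
    positivity
  refine le_of_le_of_eq (h x (1 - x) (by linarith) (by linarith)) ?_
  ring

theorem tp3_01_0_c3 {x : ℝ} (h0 : 0 ≤ x) (h1 : x ≤ 1) : 0 ≤ (13001 / 13700) * x - (11753 / 13700) * x ^ 2 + (2628 / 3425) * x ^ 3 + (1701 / 1370) * x ^ 4 := by
  have h : ∀ s u : ℝ, 0 ≤ s → 0 ≤ u → 0 ≤ (13001 / 13700) * s * u ^ 4 + (40251 / 13700) * s ^ 2 * u ^ 3 + (53259 / 13700) * s ^ 3 * u ^ 2 + (54779 / 13700) * s ^ 4 * u + (21 / 10) * s ^ 5 := by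
    intro s u hs hu
    positivity
  refine le_of_le_of_eq (h x (1 - x) (by linarith) (by linarith)) ?_
  ring

theorem tp3_01_0 {x w : ℝ} (h0 : 0 ≤ x) (h1 : x ≤ 1) (h2 : 0 ≤ w) (h3 : w ≤ 1) :
    0 ≤ Tp (135 / 137) (39 / 10) 0 0 (27 / 20) (19 / 25) (11 / 20) (51 / 100) x w 1 := by
  have hp : 0 ≤ w := by linarith
  have hr : 0 ≤ (1 - w) := by linarith
  have b0 := tp3_01_0_c0 h0 h1
  have m0 : 0 ≤ 1 * (1 - w) ^ 3 := by positivity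
  have b1 := tp3_01_0_c1 h0 h1
  have m1 : 0 ≤ 3 * w * (1 - w) ^ 2 := by positivity
  have b2 := tp3_01_0_c2 h0 h1
  have m2 : 0 ≤ 3 * w ^ 2 * (1 - w) := by positivity
  have b3 := tp3_01_0_c3 h0 h1
  have m3 : 0 ≤ 1 * w ^ 3 := by positivity
  have e : Tp (135 / 137) (39 / 10) 0 0 (27 / 20) (19 / 25) (11 / 20) (51 / 100) x w 1 = (1 * (1 - w) ^ 3) * ((13911 / 13700) - (10178 / 3425) * x + (10161 / 13700) * x ^ 2 + (3013 / 685) * x ^ 3 - (297 / 274) * x ^ 4) +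
      (3 * w * (1 - w) ^ 2) * ((2797 / 8220) - (13583 / 13700) * x - (439 / 3425) * x ^ 2 + (32758 / 10275) * x ^ 3 - (423 / 1370) * x ^ 4) +
      (3 * w ^ 2 * (1 - w)) * ((37 / 20550) + (3241 / 10275) * x - (13591 / 20550) * x ^ 2 + (20321 / 10275) * x ^ 3 + (639 / 1370) * x ^ 4) +
      (1 * w ^ 3) * ((13001 / 13700) * x - (11753 / 13700) * x ^ 2 + (2628 / 3425) * x ^ 3 + (1701 / 1370) * x ^ 4) := by
    unfold Tp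
    push_cast
    ring
  rw [e]
  exact add_nonneg (add_nonneg (add_nonneg (mul_nonneg m0 b0) (mul_nonneg m1 b1)) (mul_nonneg m2 b2)) (mul_nonneg m3 b3)

theorem tp3_01 {x w : ℝ} (h0 : 0 ≤ x) (h1 : x ≤ 1) (h2 : 0 ≤ w) (h3 : w ≤ 1) :
    0 ≤ Tp (135 / 137) (39 / 10) 0 0 (27 / 20) (19 / 25) (11 / 20) (51 / 100) x w 1 := by
  exact tp3_01_0 h0 h1 h2 h3

theorem tp3_10_0_c0 {x : ℝ} (h0 : 0 ≤ x) (h1 : x ≤ 1) : 0 ≤ (21 / 20) - 3 * x + (13 / 20) * x ^ 2 + (9 / 2) * x ^ 3 - (11 / 10) * x ^ 4 := by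
  have h : ∀ s u : ℝ, 0 ≤ s → 0 ≤ u → 0 ≤ (21 / 20) * u ^ 9 + (129 / 20) * s * u ^ 8 + (289 / 20) * s ^ 2 * u ^ 7 + (53 / 4) * s ^ 3 * u ^ 6 + (77 / 20) * s ^ 4 * u ^ 5 + (141 / 20) * s ^ 5 * u ^ 4 + (439 / 20) * s ^ 6 * u ^ 3 + (479 / 20) * s ^ 7 * u ^ 2 + (23 / 2) * s ^ 8 * u + (21 / 10) * s ^ 9 := by
    intro s u hs hu
    positivity
  refine le_of_le_of_eq (h x (1 - x) (by linarith) (by linarith)) ?_
  ring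

theorem tp3_10_0_c1 {x : ℝ} (h0 : 0 ≤ x) (h1 : x ≤ 1) : 0 ≤ (61 / 40) * x - (17 / 8) * x ^ 2 + (11 / 10) * x ^ 3 + (8 / 5) * x ^ 4 := by
  have h : ∀ s u : ℝ, 0 ≤ s → 0 ≤ u → 0 ≤ (61 / 40) * s * u ^ 3 + (49 / 20) * s ^ 2 * u ^ 2 + (57 / 40) * s ^ 3 * u + (21 / 10) * s ^ 4 := by
    intro s u hs hu
    positivity
  refine le_of_le_of_eq (h x (1 - x) (by linarith) (by linarith)) ?_
  ring

theorem tp3_10_0_c2 {x : ℝ} (h0 : 0 ≤ x) (h1 : x ≤ 1) : 0 ≤ (19 / 20) * x - (17 / 20) * x ^ 2 - (23 / 10) * x ^ 3 + (43 / 10) * x ^ 4 := by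
  have h : ∀ s u : ℝ, 0 ≤ s → 0 ≤ u → 0 ≤ (19 / 20) * s * u ^ 4 + (59 / 20) * s ^ 2 * u ^ 3 + (17 / 20) * s ^ 3 * u ^ 2 + (19 / 20) * s ^ 4 * u + (21 / 10) * s ^ 5 := by
    intro s u hs hu
    positivity
  refine le_of_le_of_eq (h x (1 - x) (by linarith) (by linarith)) ?_
  ring

theorem tp3_10_0 {x w : ℝ} (h0 : 0 ≤ x) (h1 : x ≤ 1) (h2 : 0 ≤ w) (h3 : w ≤ 1) :
    0 ≤ Tp 1 (39 / 10) 0 0 (27 / 20) (19 / 25) (11 / 20) (51 / 100) x w 0 := by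
  have hp : 0 ≤ w := by linarith
  have hr : 0 ≤ (1 - w) := by linarith
  have b0 := tp3_10_0_c0 h0 h1
  have m0 : 0 ≤ 1 * (1 - w) ^ 2 := by positivity
  have b1 := tp3_10_0_c1 h0 h1
  have m1 : 0 ≤ 2 * w * (1 - w) := by positivity
  have b2 := tp3_10_0_c2 h0 h1
  have m2 : 0 ≤ 1 * w ^ 2 := by positivity
  have e : Tp 1 (39 / 10) 0 0 (27 / 20) (19 / 25) (11 / 20) (51 / 100) x w 0 = (1 * (1 - w) ^ 2) * ((21 / 20) - 3 * x + (13 / 20) * x ^ 2 + (9 / 2) * x ^ 3 - (11 / 10) * x ^ 4) +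
      (2 * w * (1 - w)) * ((61 / 40) * x - (17 / 8) * x ^ 2 + (11 / 10) * x ^ 3 + (8 / 5) * x ^ 4) +
      (1 * w ^ 2) * ((19 / 20) * x - (17 / 20) * x ^ 2 - (23 / 10) * x ^ 3 + (43 / 10) * x ^ 4) := by
    unfold Tp
    push_cast
    ring
  rw [e]
  exact add_nonneg (add_nonneg (mul_nonneg m0 b0) (mul_nonneg m1 b1)) (mul_nonneg m2 b2)

theorem tp3_10 {x w : ℝ} (h0 : 0 ≤ x) (h1 : x ≤ 1) (h2 : 0 ≤ w) (h3 : w ≤ 1) :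
    0 ≤ Tp 1 (39 / 10) 0 0 (27 / 20) (19 / 25) (11 / 20) (51 / 100) x w 0 := by
  exact tp3_10_0 h0 h1 h2 h3

theorem tp3_11_0_c0 {x : ℝ} (h0 : 0 ≤ x) (h1 : x ≤ 1) : 0 ≤ (103 / 100) - (149 / 50) * x + (67 / 100) * x ^ 2 + (112 / 25) * x ^ 3 - (11 / 10) * x ^ 4 := by
  have h : ∀ s u : ℝ, 0 ≤ s → 0 ≤ u → 0 ≤ (103 / 100) * u ^ 9 + (629 / 100) * s * u ^ 8 + (1391 / 100) * s ^ 2 * u ^ 7 + (49 / 4) * s ^ 3 * u ^ 6 + (11 / 4) * s ^ 4 * u ^ 5 + (633 / 100) * s ^ 5 * u ^ 4 + (2169 / 100) * s ^ 6 * u ^ 3 + (2391 / 100) * s ^ 7 * u ^ 2 + (23 / 2) * s ^ 8 * u + (21 / 10) * s ^ 9 := by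
    intro s u hs hu
    positivity
  refine le_of_le_of_eq (h x (1 - x) (by linarith) (by linarith)) ?_
  ring

theorem tp3_11_0_c1 {x : ℝ} (h0 : 0 ≤ x) (h1 : x ≤ 1) : 0 ≤ (7 / 20) - (299 / 300) * x - (9 / 50) * x ^ 2 + (81 / 25) * x ^ 3 - (47 / 150) * x ^ 4 := by
  have h : ∀ s u : ℝ, 0 ≤ s → 0 ≤ u → 0 ≤ (7 / 20) * u ^ 8 + (541 / 300) * s * u ^ 7 + (793 / 300) * s ^ 2 * u ^ 6 + (83 / 100) * s ^ 3 * u ^ 5 + (841 / 300) * s ^ 4 * u ^ 4 + (3679 / 300) * s ^ 5 * u ^ 3 + (1669 / 100) * s ^ 6 * u ^ 2 + (969 / 100) * s ^ 7 * u + (21 / 10) * s ^ 8 := by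
    intro s u hs hu
    positivity
  refine le_of_le_of_eq (h x (1 - x) (by linarith) (by linarith)) ?_
  ring

theorem tp3_11_0_c2 {x : ℝ} (h0 : 0 ≤ x) (h1 : x ≤ 1) : 0 ≤ (1 / 150) + (47 / 150) * x - (52 / 75) * x ^ 2 + 2 * x ^ 3 + (71 / 150) * x ^ 4 := by
  have h : ∀ s u : ℝ, 0 ≤ s → 0 ≤ u → 0 ≤ (1 / 150) * u ^ 5 + (26 / 75) * s * u ^ 4 + (47 / 75) * s ^ 2 * u ^ 3 + (28 / 15) * s ^ 3 * u ^ 2 + (92 / 25) * s ^ 4 * u + (21 / 10) * s ^ 5 := by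
    intro s u hs hu
    positivity
  refine le_of_le_of_eq (h x (1 - x) (by linarith) (by linarith)) ?_
  ring

theorem tp3_11_0_c3 {x : ℝ} (h0 : 0 ≤ x) (h1 : x ≤ 1) : 0 ≤ (19 / 20) * x - (87 / 100) * x ^ 2 + (19 / 25) * x ^ 3 + (63 / 50) * x ^ 4 := by
  have h : ∀ s u : ℝ, 0 ≤ s → 0 ≤ u → 0 ≤ (19 / 20) * s * u ^ 4 + (293 / 100) * s ^ 2 * u ^ 3 + (77 / 20) * s ^ 3 * u ^ 2 + (397 / 100) * s ^ 4 * u + (21 / 10) * s ^ 5 := by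
    intro s u hs hu
    positivity
  refine le_of_le_of_eq (h x (1 - x) (by linarith) (by linarith)) ?_
  ring

theorem tp3_11_0 {x w : ℝ} (h0 : 0 ≤ x) (h1 : x ≤ 1) (h2 : 0 ≤ w) (h3 : w ≤ 1) :
    0 ≤ Tp 1 (39 / 10) 0 0 (27 / 20) (19 / 25) (11 / 20) (51 / 100) x w 1 := by
  have hp : 0 ≤ w := by linarith
  have hr : 0 ≤ (1 - w) := by linarith
  have b0 := tp3_11_0_c0 h0 h1
  have m0 : 0 ≤ 1 * (1 - w) ^ 3 := by positivity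
  have b1 := tp3_11_0_c1 h0 h1
  have m1 : 0 ≤ 3 * w * (1 - w) ^ 2 := by positivity
  have b2 := tp3_11_0_c2 h0 h1
  have m2 : 0 ≤ 3 * w ^ 2 * (1 - w) := by positivity
  have b3 := tp3_11_0_c3 h0 h1
  have m3 : 0 ≤ 1 * w ^ 3 := by positivity
  have e : Tp 1 (39 / 10) 0 0 (27 / 20) (19 / 25) (11 / 20) (51 / 100) x w 1 = (1 * (1 - w) ^ 3) * ((103 / 100) - (149 / 50) * x + (67 / 100) * x ^ 2 + (112 / 25) * x ^ 3 - (11 / 10) * x ^ 4) +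
      (3 * w * (1 - w) ^ 2) * ((7 / 20) - (299 / 300) * x - (9 / 50) * x ^ 2 + (81 / 25) * x ^ 3 - (47 / 150) * x ^ 4) +
      (3 * w ^ 2 * (1 - w)) * ((1 / 150) + (47 / 150) * x - (52 / 75) * x ^ 2 + 2 * x ^ 3 + (71 / 150) * x ^ 4) +
      (1 * w ^ 3) * ((19 / 20) * x - (87 / 100) * x ^ 2 + (19 / 25) * x ^ 3 + (63 / 50) * x ^ 4) := by
    unfold Tp
    push_cast
    ring
  rw [e]
  exact add_nonneg (add_nonneg (add_nonneg (mul_nonneg m0 b0) (mul_nonneg m1 b1)) (mul_nonneg m2 b2)) (mul_nonneg m3 b3)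

theorem tp3_11 {x w : ℝ} (h0 : 0 ≤ x) (h1 : x ≤ 1) (h2 : 0 ≤ w) (h3 : w ≤ 1) :
    0 ≤ Tp 1 (39 / 10) 0 0 (27 / 20) (19 / 25) (11 / 20) (51 / 100) x w 1 := by
  exact tp3_11_0 h0 h1 h2 h3

theorem Tp3 {a x w Y : ℝ} (ha : 135 / 137 ≤ a) (ha1 : a ≤ 1) (hx : 0 ≤ x) (hx1 : x ≤ 1) (hw : 0 ≤ w) (hw1 : w ≤ 1)
    (hY : 0 ≤ Y) (hY1 : Y ≤ 1) : 0 ≤ Tp a (39 / 10) 0 0 (27 / 20) (19 / 25) (11 / 20) (51 / 100) x w Y := by
  have e : Tp a (39 / 10) 0 0 (27 / 20) (19 / 25) (11 / 20) (51 / 100) x w Y = (1 - a) / (1 - (135 / 137)) * ((1 - Y) * Tp (135 / 137) (39 / 10) 0 0 (27 / 20) (19 / 25) (11 / 20) (51 / 100) x w 0 + Y * Tp (135 / 137) (39 / 10) 0 0 (27 / 20) (19 / 25) (11 / 20) (51 / 100) x w 1) +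
      (a - (135 / 137)) / (1 - (135 / 137)) * ((1 - Y) * Tp 1 (39 / 10) 0 0 (27 / 20) (19 / 25) (11 / 20) (51 / 100) x w 0 + Y * Tp 1 (39 / 10) 0 0 (27 / 20) (19 / 25) (11 / 20) (51 / 100) x w 1) +
      (1 - Y) * ((1 - x) ^ 2 * x) * ((1 - a) * (a - (135 / 137))) := by
    unfold Tp
    push_cast
    ring
  rw [e]
  have b1 := tp3_00 hx hx1 hw hw1
  have b2 := tp3_01 hx hx1 hw hw1
  have b3 := tp3_10 hx hx1 hw hw1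
  have b4 := tp3_11 hx hx1 hw hw1
  have c1 : 0 ≤ 1 - Y := by linarith
  have c2 : 0 ≤ 1 - a := by linarith
  have c3 : 0 ≤ a - (135 / 137) := by linarith
  have c4 : 0 ≤ 1 - x := by linarith
  have c5 : (0 : ℝ) < 1 - (135 / 137) := by norm_num
  positivity

end NullQ
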