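import Pool.Agent.Lib.H74Q.S2
import Pool.Agent.Lib.H74Q.N1
import Pool.Agent.Lib.H74Q.N2
import Pool.Agent.Lib.H74Q.N3

set_option autoImplicit false

/-!
The four bounds for `R`.
-/

open MeasureTheory Filter Topology Set

namespace NullQ

variable {z dz t : ℝ → ℝ} {a s : ℝ}

theorem s6_gam (ha : -1 ≤ a) (ha1 : a ≤ 1) {x : ℝ} (h0 : 0 ≤ x) (h1 : x ≤ 1) :
    0 ≤ (2 - a) + (2 * a - 1) * x - a * x ^ 2 := by
  have e : (2 - a) + (2 * a - 1) * x - a * x ^ 2 =
      ((1 + a) / 2) * (1 + x * (1 - x)) + ((1 - a) / 2) * (3 * (1 - x) + x ^ 2) := by ring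
  rw [e]
  have h2 : 0 ≤ x * (1 - x) := mul_nonneg h0 (by linarith)
  exact add_nonneg (mul_nonneg (by linarith) (by linarith))
    (mul_nonneg (by linarith) (by nlinarith [sq_nonneg x]))

theorem s6_pt (ha : -1 ≤ a) (ha1 : a ≤ 1) {x w Y : ℝ} (h0 : 0 ≤ x) (h1 : x ≤ 1) (hw : 0 ≤ w)
    (hw1 : w ≤ (1 - x) * (1 + a * x)) (hY : 0 ≤ Y) (hY1 : Y ≤ 1) :
    (1 - gg a x) * (1 - (1 - x) * w) + (1 - Y) * (gg a x - (1 - x) * w) * x * ((1 + a) - 3 * w) ≤
      x ^ 2 * (1 - a / 2 + a / 2 * x) + 3 * (x + a / 2 * x ^ 2) * (1 - x) := by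
  have hg := s6_gam ha ha1 h0 h1
  have hp : 0 ≤ 1 - (1 - x) * (1 + a * x) := by
    have e : 1 - (1 - x) * (1 + a * x) = x * ((1 - a) * (1 - x) + x) := by ring
    rw [e]
    exact mul_nonneg h0 (add_nonneg (mul_nonneg (by linarith) (by linarith)) h0)
  have e : x ^ 2 * (1 - a / 2 + a / 2 * x) + 3 * (x + a / 2 * x ^ 2) * (1 - x) -
      ((1 - gg a x) * (1 - (1 - x) * w) + (1 - Y) * (gg a x - (1 - x) * w) * x * ((1 + a) - 3 * w)) =
      x * (1 - x) * (Y * ((1 + a) + ((2 - a) + (2 * a - 1) * x - a * x ^ 2) * w) +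
        (1 - Y) * ((1 + a) * (1 - (1 - x) * (1 + a * x)) +
          w * (((2 - a) + (2 * a - 1) * x - a * x ^ 2) + (1 + a) + 3 * ((1 - x) * (1 + a * x) - w)))) := by
    unfold gg
    ring
  have h2 : 0 ≤ Y * ((1 + a) + ((2 - a) + (2 * a - 1) * x - a * x ^ 2) * w) :=
    mul_nonneg hY (add_nonneg (by linarith) (mul_nonneg hg hw))
  have h3 : 0 ≤ (1 - Y) * ((1 + a) * (1 - (1 - x) * (1 + a * x)) +
      w * (((2 - a) + (2 * a - 1) * x - a * x ^ 2) + (1 + a) + 3 * ((1 - x) * (1 + a * x) - w))) :=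
    mul_nonneg (by linarith) (add_nonneg (mul_nonneg (by linarith) hp)
      (mul_nonneg hw (by linarith)))
  have h4 : 0 ≤ x * (1 - x) := mul_nonneg h0 (by linarith)
  have h5 := mul_nonneg h4 (add_nonneg h2 h3)
  linarith

/-- Chunk S6 (S/M). `A = 1`, `ν = 3`, no certificate needed: pointwise `(1-z) (density of κ + 3 density of β - Rd) >= 0`. With `w = 2 W/(1-z)`, `0 <= w <= (1-z)(1+az)` (`WW_le`), `Y = t 0/t ∈ [0,1]`:
`z^2 (1-a/2+a z/2) + 3 (z + a z^2/2) (1-z) - (1-z) Rd = z (z (1+a) (1-z) (1-a+a z) + w (1-z) (γ' + (1-Y) ((1+a) + 3 ((1-z)(1+az) - w))) + Y ..)`, `γ' = (2-a)+(2a-1)z-az^2 >= 0`: precisely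
`(1-z) Rd / z = γ' (1 - (1-z) w) + (1-Y) (1-z) ((1-z)(1+az) - w) ((1+a) - 3 w)`, and `(1-Y) (1-z) p ((1+a) - 3 w) <= (1-z) ((1-z)(1+az) (1+a) - w (..))`; it is enough to treat `Y = 0` and `Y = 1` (the expression is affine in `Y`). -/
theorem node0 (h : ZT z dz t) (ha : -1 ≤ a) (ha1 : a ≤ 1) (hs : 0 ≤ s) :
    RR a z t s ≤ kap a z s + 3 * bet a z s := by
  have hkc : ContinuousOn (fun r => z r ^ 2 * (1 - a / 2 + a / 2 * z r) / (1 - z r)) (Ici 0) := by
    refine ContinuousOn.div ((h.zc.pow 2).mul (continuousOn_const.add (continuousOn_const.mul h.zc)))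
      (continuousOn_const.sub h.zc) ?_
    intro r hr
    have := h.z1 r hr
    linarith
  have hbc : ContinuousOn (fun r => z r + a / 2 * z r ^ 2) (Ici 0) :=
    h.zc.add (continuousOn_const.mul (h.zc.pow 2))
  have key := NullPen.nonneg_of_der (F := fun r => kap a z r + 3 * bet a z r - RR a z t r)
    (F' := fun r => z r ^ 2 * (1 - a / 2 + a / 2 * z r) / (1 - z r) + 3 * (z r + a / 2 * z r ^ 2) -
      Rd a z t r)
    (((NullPen.g1_int_cont hkc).add (continuousOn_const.mul (NullPen.g1_int_cont hbc))).sub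
      (NullPen.g1_int_cont (Rd_cont h a)))
    (fun r hr => ((NullPen.g1_int_der hkc hr).add ((NullPen.g1_int_der hbc hr).const_mul 3)).sub
      (NullPen.g1_int_der (Rd_cont h a) hr))
    (fun r hr => by
      have h0 := h.z0 r hr.le
      have h1 := h.z1 r hr.le
      have h2 := WW_nonneg h ha hr.le
      have h3 := WW_le h ha ha1 hr.le
      have ht := t_pos h hr.le
      have ht0 := h.t0
      have ht1 := t_ge h hr.le
      have hY : 0 ≤ t 0 / t r := div_nonneg ht0.le ht.le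
      have hY1 : t 0 / t r ≤ 1 := (div_le_one ht).2 (by linarith)
      have hx : 0 < 1 - z r := by linarith
      obtain ⟨w, hw⟩ : ∃ w, w = 2 * WW a z t r / (1 - z r) := ⟨_, rfl⟩
      have hw2 : 2 * WW a z t r = (1 - z r) * w := by
        rw [hw]
        field_simp
      have hw0 : 0 ≤ w := by
        rw [hw]
        exact div_nonneg (by linarith) hx.le
      have hw1 : w ≤ (1 - z r) * (1 + a * z r) := by
        rw [hw, div_le_iff₀ hx]
        unfold gg at h3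
        linarith
      have h4 := s6_pt ha ha1 h0 h1.le hw0 hw1 hY hY1
      have h5 : Rd a z t r = ((1 - gg a (z r)) * (1 - (1 - z r) * w) +
          (1 - t 0 / t r) * (gg a (z r) - (1 - z r) * w) * z r * ((1 + a) - 3 * w)) / (1 - z r) := by
        unfold Rd
        have h6 : 3 * (2 * WW a z t r) / (1 - z r) = 3 * w := by
          rw [hw]
          ring
        rw [h6, hw2]
      rw [h5]
      have h7 : z r ^ 2 * (1 - a / 2 + a / 2 * z r) / (1 - z r) + 3 * (z r + a / 2 * z r ^ 2) =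
          (z r ^ 2 * (1 - a / 2 + a / 2 * z r) + 3 * (z r + a / 2 * z r ^ 2) * (1 - z r)) / (1 - z r) := by
        field_simp
      rw [h7, ← sub_div]
      exact div_nonneg (by linarith) hx.le)
    (by
      show 0 ≤ kap a z 0 + 3 * bet a z 0 - RR a z t 0
      unfold kap bet RR
      rw [intervalIntegral.integral_same, intervalIntegral.integral_same, intervalIntegral.integral_same]
      norm_num) hs
  linarith

theorem node1 (h : ZT z dz t) (ha : 5 / 7 ≤ a) (ha1 : a ≤ 1) (hs : 0 ≤ s) :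
    RR a z t s ≤ 8 / 5 * kap a z s + 6 / 5 * bet a z s + 1 / 20 * t 0 := by
  refine cert h (by linarith) ha1 3 (al := 7 / 25) (be := 9 / 50) (c := 1 / 20) (γ := 0) (by norm_num) ?_ ?_ ?_ hs
  · intro x q Y hx hxq hq hY hY1
    have h1 : 0 ≤ (7 / 25 - 9 / 50 * Y) * q - 2 * (1 / 20) * x := by
      nlinarith [mul_nonneg (sub_nonneg.2 hY1) (hx.trans hxq)]
    have h2 : 0 ≤ q ^ (3 + 1) := pow_nonneg (hx.trans hxq) _
    have := mul_nonneg h2 h1
    linarith
  · intro x hx hx1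
    nlinarith
  · intro x w Y hx hx1 hw hw1 hY hY1
    exact Tp1 ha ha1 hx hx1 hw hw1 hY hY1

theorem node2 (h : ZT z dz t) (ha : 53 / 57 ≤ a) (ha1 : a ≤ 1) (hs : 0 ≤ s) :
    RR a z t s ≤ 51 / 20 * kap a z s + 1 / 2 * bet a z s + 7 / 50 * t 0 := by
  refine cert h (by linarith) ha1 2 (al := 69 / 100) (be := 41 / 100) (c := 7 / 50) (γ := 0) (by norm_num) ?_ ?_ ?_ hs
  · intro x q Y hx hxq hq hY hY1
    have h1 : 0 ≤ (69 / 100 - 41 / 100 * Y) * q - 2 * (7 / 50) * x := by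
      nlinarith [mul_nonneg (sub_nonneg.2 hY1) (hx.trans hxq)]
    have h2 : 0 ≤ q ^ (2 + 1) := pow_nonneg (hx.trans hxq) _
    have := mul_nonneg h2 h1
    linarith
  · intro x hx hx1
    nlinarith
  · intro x w Y hx hx1 hw hw1 hY hY1
    exact Tp2 ha ha1 hx hx1 hw hw1 hY hY1

theorem node3 (h : ZT z dz t) (ha : 135 / 137 ≤ a) (ha1 : a ≤ 1) (hs : 0 ≤ s) :
    RR a z t s ≤ 39 / 10 * kap a z s + 11 / 20 * t 0 := by
  have h1 := cert h (by linarith) ha1 0 (al := 27 / 20) (be := 19 / 25) (c := 11 / 20) (γ := 51 / 100) (A := 39 / 10) (ν := 0)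
    (δ := 11 / 20) (by norm_num) ?_ ?_ ?_ hs
  · linarith
  · intro x q Y hx hxq hq hY hY1
    have h0 : 0 ≤ q := hx.trans hxq
    have h1 : 0 ≤ (27 / 20 - 19 / 25 * Y) * q - 2 * (11 / 20) * x + 51 / 100 * Y := by
      nlinarith [mul_nonneg (sub_nonneg.2 hY1) h0, mul_nonneg hY (sub_nonneg.2 hq)]
    have := mul_nonneg h0 h1
    nlinarith
  · intro x hx hx1
    nlinarith
  · intro x w Y hx hx1 hw hw1 hY hY1
    exact Tp3 ha ha1 hx hx1 hw hw1 hY hY1

end NullQ
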