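import Pool.Agent.Lib.H74Q.B3
import Pool.Agent.Lib.H74Q.S4
import Pool.Agent.Lib.H74Q.S6
import Pool.Agent.Lib.H74Q.Jd

set_option autoImplicit false

/-!
Chunk NA (M). The quadratic form along one generator, for the parameter `a`; notation `t1 = ta + b`, `t2 = ta - b`.
Proof. `t1 r = t1 0 + .. `: `p/q = t1/t2 = 1 + (t1 0 - t2 0)/t2` on `[0,S]` (`p_eq`, `q_eq`, `t1 - t2 = 2 b`; `t2 > 0`), so `quad_le` (`zt2`, `t1 0 >= 0`) gives `∫ (p/q) cst2 <= (3/4) t1 0 + (1/4) t2 0 + RR2 + t1 0 (1+a)^2/36`; same with `p, q` exchanged.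
Then `2 f1^2 (..) + 2 f2^2 (..) = (t1 0 + t2 0) X + b (f1^2 - f2^2) + 2 (RR2 + ..) f1^2 + 2 (RR1 + ..) f2^2`, and `t1 0 + t2 0 = t - 2 κ` with `t = 2 ta S - 2 S - 2 β` (`t_eq` for `t1` and `t2`, added). `nodes_of`: `node0`..`node3`.
-/

open MeasureTheory Filter Topology Set

namespace NullQ

variable {K : ℝ} {m p q dp dq : ℝ → ℝ}

theorem nodes_of {z dz t : ℝ → ℝ} (h : ZT z dz t) {a S : ℝ} (ha : -1 ≤ a) (ha1 : a ≤ 1) (hS : 0 ≤ S) :
    Nodes a (kap a z S) (bet a z S) (t 0) (RR a z t S) := by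
  exact ⟨node0 h ha ha1 hS, fun h5 => node1 h h5 ha1 hS, fun h5 => node2 h h5 ha1 hS, fun h5 => node3 h h5 ha1 hS⟩

theorem tsum_eq (h : Ry K m p q dp dq) (a : ℝ) {S : ℝ} (hS : 0 ≤ S) :
    2 * taf p q S - 2 * S - 2 * bet a (zf p q) S = (taf p q 0 + bf p q) + (taf p q 0 - bf p q) + 2 * kap a (zf p q) S := by
  have h1 := t_eq (zt1 h) a hS
  have h2 := t_eq (zt2 h) a hS
  linarith

theorem na_int1 (h : Ry K m p q dp dq) {a : ℝ} (ha : -1 ≤ a) (ha1 : a ≤ 1) {S : ℝ} (hS : 0 ≤ S) :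
    ∫ r in (0 : ℝ)..S, p r / q r * cst a (zf p q) (fun s => taf p q s - bf p q) r ≤
      3 / 4 * (taf p q 0 + bf p q) + 1 / 4 * (taf p q 0 - bf p q) +
        RR a (zf p q) (fun s => taf p q s - bf p q) S + (taf p q 0 + bf p q) * (1 + a) ^ 2 / 36 := by
  have h1 := quad_le (zt2 h) ha ha1 (b3_tp h).le hS
  have e : ∫ r in (0 : ℝ)..S, p r / q r * cst a (zf p q) (fun s => taf p q s - bf p q) r =
      ∫ r in (0 : ℝ)..S, (1 + ((taf p q 0 + bf p q) - (fun s => taf p q s - bf p q) 0) /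
        (fun s => taf p q s - bf p q) r) * cst a (zf p q) (fun s => taf p q s - bf p q) r := by
    refine intervalIntegral.integral_congr fun r hr => ?_
    rw [uIcc_of_le hS] at hr
    have ht := t_pos (zt2 h) hr.1
    have hth := th_pos h hr.1
    have h2 : p r / q r = 1 + ((taf p q 0 + bf p q) - (taf p q 0 - bf p q)) / (taf p q r - bf p q) := by
      rw [p_eq h hr.1, q_eq h hr.1]
      have ht' : taf p q r - bf p q ≠ 0 := ht.ne'
      field_simp
      ring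
    show p r / q r * cst a (zf p q) (fun s => taf p q s - bf p q) r =
      (1 + ((taf p q 0 + bf p q) - (taf p q 0 - bf p q)) / (taf p q r - bf p q)) *
        cst a (zf p q) (fun s => taf p q s - bf p q) r
    rw [h2]
  rw [e]
  exact h1

theorem na_int2 (h : Ry K m p q dp dq) {a : ℝ} (ha : -1 ≤ a) (ha1 : a ≤ 1) {S : ℝ} (hS : 0 ≤ S) :
    ∫ r in (0 : ℝ)..S, q r / p r * cst a (zf p q) (fun s => taf p q s + bf p q) r ≤
      3 / 4 * (taf p q 0 - bf p q) + 1 / 4 * (taf p q 0 + bf p q) +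
        RR a (zf p q) (fun s => taf p q s + bf p q) S + (taf p q 0 - bf p q) * (1 + a) ^ 2 / 36 := by
  have h1 := quad_le (zt1 h) ha ha1 (b3_tq h).le hS
  have e : ∫ r in (0 : ℝ)..S, q r / p r * cst a (zf p q) (fun s => taf p q s + bf p q) r =
      ∫ r in (0 : ℝ)..S, (1 + ((taf p q 0 - bf p q) - (fun s => taf p q s + bf p q) 0) /
        (fun s => taf p q s + bf p q) r) * cst a (zf p q) (fun s => taf p q s + bf p q) r := by
    refine intervalIntegral.integral_congr fun r hr => ?_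
    rw [uIcc_of_le hS] at hr
    have ht := t_pos (zt1 h) hr.1
    have hth := th_pos h hr.1
    have h2 : q r / p r = 1 + ((taf p q 0 - bf p q) - (taf p q 0 + bf p q)) / (taf p q r + bf p q) := by
      rw [p_eq h hr.1, q_eq h hr.1]
      have ht' : taf p q r + bf p q ≠ 0 := ht.ne'
      field_simp
      ring
    show q r / p r * cst a (zf p q) (fun s => taf p q s + bf p q) r =
      (1 + ((taf p q 0 - bf p q) - (taf p q 0 + bf p q)) / (taf p q r + bf p q)) *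
        cst a (zf p q) (fun s => taf p q s + bf p q) r
    rw [h2]
  rw [e]
  exact h1

theorem quad_sum (h : Ry K m p q dp dq) {a : ℝ} (ha : -1 ≤ a) (ha1 : a ≤ 1) (f1 f2 : ℝ) {S : ℝ} (hS : 0 ≤ S) :
    2 * f1 ^ 2 * (∫ r in (0 : ℝ)..S, p r / q r * cst a (zf p q) (fun s => taf p q s - bf p q) r)
      + 2 * f2 ^ 2 * (∫ r in (0 : ℝ)..S, q r / p r * cst a (zf p q) (fun s => taf p q s + bf p q) r)
    ≤ (2 * taf p q S - 2 * S - 2 * bet a (zf p q) S) * (f1 ^ 2 + f2 ^ 2) + bf p q * (f1 ^ 2 - f2 ^ 2)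
      + 2 * ((RR a (zf p q) (fun s => taf p q s - bf p q) S - kap a (zf p q) S + (taf p q 0 + bf p q) * (1 + a) ^ 2 / 36) * f1 ^ 2
        + (RR a (zf p q) (fun s => taf p q s + bf p q) S - kap a (zf p q) S + (taf p q 0 - bf p q) * (1 + a) ^ 2 / 36) * f2 ^ 2) := by
  have h1 := na_int1 h ha ha1 hS
  have h2 := na_int2 h ha ha1 hS
  have h3 := mul_le_mul_of_nonneg_left h1 (mul_nonneg (by norm_num : (0 : ℝ) ≤ 2) (sq_nonneg f1))
  have h4 := mul_le_mul_of_nonneg_left h2 (mul_nonneg (by norm_num : (0 : ℝ) ≤ 2) (sq_nonneg f2))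
  rw [tsum_eq h a hS]
  linarith

end NullQ
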