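import Pool.Agent.Lib.H74Q.S1

set_option autoImplicit false

/-!
Chunk S2 (M). The certificate lemma: a polynomial `S` with `∂_z S >= 0` and `Tp >= 0` gives a bound for `R`.
Proof. With `q = 1 - 2 W`, `Y = t 0 / t`, `x = z`: `F s = t S(z, q, Y) = z (t (al q^(m+2) - c z q^(m+1)) - be (t 0) q^(m+2) + γ (t 0) q)` is continuous on `[0,∞)`. For `s > 0` (`q' = -2 P/t`, `t' = 1/(1-z)`, `P = π/(1-z)`,
`π = g - 2 W`): `F' = z' t (q^(m+1) ((al - be Y) q - 2 c z) + γ q Y) + (1/(1-z)) B`, `B = z (al q^(m+2) - c z q^(m+1) - 2 π ((m+2) (al - be Y) q^(m+1) - c (m+1) z q^m + γ Y))`. The first term is `<= 0` (`hSz`: `z <= 1 - g <= q <= 1`,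
`gg_le`, `WW_le`). With `w = 2 W/(1-z)` (`0 <= w <= 1` as `2 W <= g <= 1 - z`), `q = 1 - (1-z) w`, `π = (1-z)((1-z)(1+az) - w)`: `z Tp = A z^2 (1 - a/2 + a z/2) + ν (z + a z^2/2)(1-z) - (1-z) Rd - B >= 0`
(`1 - g = z ((2-a) + (2a-1) z - a z^2)`). So `F' <= A (density of κ) + ν (density of β) - Rd`, a continuous function, and `F s - F 0 <= A κ + ν β - R` (`intervalIntegral.sub_le_integral_of_hasDeriv_right_of_le`).
Finally `F s >= 0` (`q^(m+1) ((al - be Y) q - c z) + γ q Y >= 0` by `hSz` and `c z >= 0`) and `F 0 = t 0 * z0 (al - be + γ - c z0) <= δ t 0` (`W 0 = 0`, `hF0`).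
-/

open MeasureTheory Filter Topology Set

namespace NullQ

variable {z dz t : ℝ → ℝ} {a s : ℝ}

/-- The function `F = t S(z, q, Y)`. -/
noncomputable def s2_F (a : ℝ) (z t : ℝ → ℝ) (m : ℕ) (al be c γ : ℝ) (s : ℝ) : ℝ :=
  z s * (t s * (al * (1 - 2 * WW a z t s) ^ (m + 2) - c * z s * (1 - 2 * WW a z t s) ^ (m + 1))
    - be * t 0 * (1 - 2 * WW a z t s) ^ (m + 2) + γ * t 0 * (1 - 2 * WW a z t s))

/-- The bound for the derivative. -/
noncomputable def s2_phi (a : ℝ) (z t : ℝ → ℝ) (A ν : ℝ) (s : ℝ) : ℝ :=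
  A * (z s ^ 2 * (1 - a / 2 + a / 2 * z s) / (1 - z s)) + ν * (z s + a / 2 * z s ^ 2) - Rd a z t s

theorem s2_F_cont (h : ZT z dz t) (a : ℝ) (m : ℕ) (al be c γ : ℝ) :
    ContinuousOn (s2_F a z t m al be c γ) (Ici 0) := by
  have hW := WW_cont h a
  have hz := h.zc
  have ht := h.tc
  unfold s2_F
  fun_prop

theorem s2_kd_cont (h : ZT z dz t) (a : ℝ) :
    ContinuousOn (fun s => z s ^ 2 * (1 - a / 2 + a / 2 * z s) / (1 - z s)) (Ici 0) := by
  have hz := h.zc
  apply ContinuousOn.div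
  · fun_prop
  · fun_prop
  · intro s hs
    have := h.z1 s hs
    intro h0
    linarith

theorem s2_bd_cont (h : ZT z dz t) (a : ℝ) :
    ContinuousOn (fun s => z s + a / 2 * z s ^ 2) (Ici 0) := by
  have hz := h.zc
  fun_prop

theorem s2_phi_cont (h : ZT z dz t) (a A ν : ℝ) :
    ContinuousOn (s2_phi a z t A ν) (Ici 0) := by
  have h1 := s2_kd_cont h a
  have h2 := s2_bd_cont h a
  have h3 := Rd_cont h a
  unfold s2_phi
  exact ((continuousOn_const.mul h1).add (continuousOn_const.mul h2)).sub h3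

theorem s2_int (h : ZT z dz t) (a A ν : ℝ) (hs : 0 ≤ s) :
    ∫ r in (0 : ℝ)..s, s2_phi a z t A ν r = A * kap a z s + ν * bet a z s - RR a z t s := by
  have h1 := s2_kd_cont h a
  have h2 := s2_bd_cont h a
  have h3 := Rd_cont h a
  have hsub : uIcc (0 : ℝ) s ⊆ Ici 0 := by
    rw [uIcc_of_le hs]
    exact Icc_subset_Ici_self
  have i1 : IntervalIntegrable (fun s => z s ^ 2 * (1 - a / 2 + a / 2 * z s) / (1 - z s)) volume 0 s :=
    (h1.mono hsub).intervalIntegrable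
  have i2 : IntervalIntegrable (fun s => z s + a / 2 * z s ^ 2) volume 0 s :=
    (h2.mono hsub).intervalIntegrable
  have i3 : IntervalIntegrable (Rd a z t) volume 0 s := (h3.mono hsub).intervalIntegrable
  unfold s2_phi kap bet RR
  rw [intervalIntegral.integral_sub ((i1.const_mul A).add (i2.const_mul ν)) i3,
    intervalIntegral.integral_add (i1.const_mul A) (i2.const_mul ν),
    intervalIntegral.integral_const_mul, intervalIntegral.integral_const_mul]

/-- The derivative of `F`. -/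
theorem s2_F_der (h : ZT z dz t) (a : ℝ) (m : ℕ) (al be c γ : ℝ) (hs : 0 < s) :
    HasDerivAt (s2_F a z t m al be c γ)
      (dz s * (t s * ((1 - 2 * WW a z t s) ^ (m + 1) *
          ((al - be * (t 0 / t s)) * (1 - 2 * WW a z t s) - 2 * c * z s)
          + γ * (1 - 2 * WW a z t s) * (t 0 / t s)))
        + (1 / (1 - z s)) * (z s * (al * (1 - 2 * WW a z t s) ^ (m + 2)
          - c * z s * (1 - 2 * WW a z t s) ^ (m + 1)
          - 2 * (gg a (z s) - 2 * WW a z t s) *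
            (((m : ℝ) + 2) * (al - be * (t 0 / t s)) * (1 - 2 * WW a z t s) ^ (m + 1)
              - c * ((m : ℝ) + 1) * z s * (1 - 2 * WW a z t s) ^ m + γ * (t 0 / t s))))) s := by
  have hW := WW_der h a hs
  have hz := h.zd s hs
  have ht := h.td s hs
  have htp := t_pos h hs.le
  have hz1 := h.z1 s hs.le
  have h1z : (1 - z s) ≠ 0 := by
    intro h0
    linarith
  have hq : HasDerivAt (fun s => 1 - 2 * WW a z t s) (-(2 * (PP a z t s / t s))) s := by
    have := (hW.const_mul 2).const_sub 1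
    exact this
  have hq2 := hq.pow (m + 2)
  have hq1 := hq.pow (m + 1)
  have hmain := hz.mul ((((ht.mul ((hq2.const_mul al).sub ((hz.const_mul c).mul hq1))).sub
    (hq2.const_mul (be * t 0))).add (hq.const_mul (γ * t 0))))
  have heq : s2_F a z t m al be c γ = (z * ((((t * ((fun y => al * ((fun s => 1 - 2 * WW a z t s) ^ (m + 2)) y)
      - ((fun y => c * z y) * ((fun s => 1 - 2 * WW a z t s) ^ (m + 1))))) -
      (fun y => be * t 0 * ((fun s => 1 - 2 * WW a z t s) ^ (m + 2)) y))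
      + (fun y => γ * t 0 * (1 - 2 * WW a z t y))))) := by
    funext y
    simp only [s2_F, Pi.mul_apply, Pi.sub_apply, Pi.add_apply, Pi.pow_apply]
  rw [heq]
  refine hmain.congr_deriv ?_
  simp only [Pi.mul_apply, Pi.sub_apply, Pi.add_apply, Pi.pow_apply]
  unfold PP
  have e2 : (m + 2 - 1) = m + 1 := by omega
  have e1 : (m + 1 - 1) = m := by omega
  rw [e2, e1]
  push_cast
  have htne := htp.ne'
  field_simp
  ring

theorem s2_der_le (h : ZT z dz t) (ha : -1 ≤ a) (ha1 : a ≤ 1) (m : ℕ) {al be c γ A ν : ℝ}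
    (hSz : ∀ x q Y : ℝ, 0 ≤ x → x ≤ q → q ≤ 1 → 0 ≤ Y → Y ≤ 1 →
      0 ≤ q ^ (m + 1) * ((al - be * Y) * q - 2 * c * x) + γ * q * Y)
    (hT : ∀ x w Y : ℝ, 0 ≤ x → x ≤ 1 → 0 ≤ w → w ≤ 1 → 0 ≤ Y → Y ≤ 1 → 0 ≤ Tp a A ν m al be c γ x w Y)
    (hs : 0 < s) :
    (dz s * (t s * ((1 - 2 * WW a z t s) ^ (m + 1) *
          ((al - be * (t 0 / t s)) * (1 - 2 * WW a z t s) - 2 * c * z s)
          + γ * (1 - 2 * WW a z t s) * (t 0 / t s)))
        + (1 / (1 - z s)) * (z s * (al * (1 - 2 * WW a z t s) ^ (m + 2)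
          - c * z s * (1 - 2 * WW a z t s) ^ (m + 1)
          - 2 * (gg a (z s) - 2 * WW a z t s) *
            (((m : ℝ) + 2) * (al - be * (t 0 / t s)) * (1 - 2 * WW a z t s) ^ (m + 1)
              - c * ((m : ℝ) + 1) * z s * (1 - 2 * WW a z t s) ^ m + γ * (t 0 / t s)))))
      ≤ s2_phi a z t A ν s := by
  have htp := t_pos h hs.le
  have ht0 := h.t0
  have htge := t_ge h hs.le
  have hz1 := h.z1 s hs.le
  have hz0 := h.z0 s hs.le
  have h1z : 0 < 1 - z s := by linarith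
  have hW0 := WW_nonneg h ha hs.le
  have hWg := WW_le h ha ha1 hs.le
  have hgle := gg_le ha ha1 hz0 hz1.le
  have hY0 : 0 ≤ t 0 / t s := by positivity
  have hY1 : t 0 / t s ≤ 1 := by
    rw [div_le_one htp]
    linarith
  have hq1 : 1 - 2 * WW a z t s ≤ 1 := by linarith
  have hqx : z s ≤ 1 - 2 * WW a z t s := by linarith
  have hA := hSz (z s) (1 - 2 * WW a z t s) (t 0 / t s) hz0 hqx hq1 hY0 hY1
  have hfirst : dz s * (t s * ((1 - 2 * WW a z t s) ^ (m + 1) *
          ((al - be * (t 0 / t s)) * (1 - 2 * WW a z t s) - 2 * c * z s)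
          + γ * (1 - 2 * WW a z t s) * (t 0 / t s))) ≤ 0 :=
    mul_nonpos_of_nonpos_of_nonneg (h.zm s hs) (mul_nonneg htp.le hA)
  set w := 2 * WW a z t s / (1 - z s) with hw
  have hw0 : 0 ≤ w := by positivity
  have hw1 : w ≤ 1 := by
    rw [hw, div_le_one h1z]
    linarith
  have hB := hT (z s) w (t 0 / t s) hz0 hz1.le hw0 hw1 hY0 hY1
  have hzB := mul_nonneg hz0 hB
  have hww : (1 - z s) * w = 2 * WW a z t s := by
    rw [hw]
    field_simp
  have hww' : (1 - z s) * ((1 - z s) * (1 + a * z s) - w) = gg a (z s) - 2 * WW a z t s := by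
    unfold gg
    rw [← hww]
    ring
  unfold Tp at hzB
  rw [hww', hww] at hzB
  have hsecond : (1 / (1 - z s)) * (z s * (al * (1 - 2 * WW a z t s) ^ (m + 2)
          - c * z s * (1 - 2 * WW a z t s) ^ (m + 1)
          - 2 * (gg a (z s) - 2 * WW a z t s) *
            (((m : ℝ) + 2) * (al - be * (t 0 / t s)) * (1 - 2 * WW a z t s) ^ (m + 1)
              - c * ((m : ℝ) + 1) * z s * (1 - 2 * WW a z t s) ^ m + γ * (t 0 / t s))))
      ≤ s2_phi a z t A ν s := by
    rw [one_div, inv_mul_le_iff₀ h1z]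
    have hRd : (1 - z s) * Rd a z t s = (1 - gg a (z s)) * (1 - 2 * WW a z t s) +
        (1 - t 0 / t s) * (gg a (z s) - 2 * WW a z t s) * z s * ((1 + a) - 3 * w) := by
      unfold Rd
      rw [mul_div_cancel₀ _ h1z.ne', hw, mul_div_assoc 3]
    have hphi : (1 - z s) * s2_phi a z t A ν s =
        A * (z s ^ 2 * (1 - a / 2 + a / 2 * z s)) + ν * ((1 - z s) * (z s + a / 2 * z s ^ 2))
          - ((1 - gg a (z s)) * (1 - 2 * WW a z t s) +
        (1 - t 0 / t s) * (gg a (z s) - 2 * WW a z t s) * z s * ((1 + a) - 3 * w)) := by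
      rw [← hRd]
      unfold s2_phi
      field_simp
    rw [hphi]
    have hg : 1 - gg a (z s) = z s * ((2 - a) + (2 * a - 1) * z s - a * z s ^ 2) := by
      unfold gg
      ring
    rw [hg]
    nlinarith [hzB]
  linarith

theorem cert (h : ZT z dz t) (ha : -1 ≤ a) (ha1 : a ≤ 1) (m : ℕ) {al be c γ A ν δ : ℝ} (hc : 0 ≤ c)
    (hSz : ∀ x q Y : ℝ, 0 ≤ x → x ≤ q → q ≤ 1 → 0 ≤ Y → Y ≤ 1 →
      0 ≤ q ^ (m + 1) * ((al - be * Y) * q - 2 * c * x) + γ * q * Y)
    (hF0 : ∀ x : ℝ, 0 ≤ x → x ≤ 1 → x * (al - be + γ - c * x) ≤ δ)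
    (hT : ∀ x w Y : ℝ, 0 ≤ x → x ≤ 1 → 0 ≤ w → w ≤ 1 → 0 ≤ Y → Y ≤ 1 → 0 ≤ Tp a A ν m al be c γ x w Y)
    (hs : 0 ≤ s) : RR a z t s ≤ A * kap a z s + ν * bet a z s + δ * t 0 := by
  have hcont := s2_F_cont h a m al be c γ
  have hpc := s2_phi_cont h a A ν
  have key : s2_F a z t m al be c γ s - s2_F a z t m al be c γ 0 ≤
      ∫ r in (0 : ℝ)..s, s2_phi a z t A ν r := by
    apply intervalIntegral.sub_le_integral_of_hasDeriv_right_of_le hs
      (hcont.mono Icc_subset_Ici_self)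
      (fun x hx => (s2_F_der h a m al be c γ hx.1).hasDerivWithinAt)
      ((hpc.mono Icc_subset_Ici_self).integrableOn_Icc)
      (fun x hx => s2_der_le h ha ha1 m hSz hT hx.1)
  rw [s2_int h a A ν hs] at key
  have ht0 := h.t0
  have hz00 := h.z0 0 le_rfl
  have hz01 := h.z1 0 le_rfl
  have hF0' : s2_F a z t m al be c γ 0 ≤ δ * t 0 := by
    have := hF0 (z 0) hz00 hz01.le
    unfold s2_F
    rw [WW_zero]
    simp only [mul_zero, sub_zero, one_pow, mul_one]
    nlinarith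
  have hFs : 0 ≤ s2_F a z t m al be c γ s := by
    have htp := t_pos h hs
    have htge := t_ge h hs
    have hz1 := h.z1 s hs
    have hz0 := h.z0 s hs
    have hW0 := WW_nonneg h ha hs
    have hWg := WW_le h ha ha1 hs
    have hgle := gg_le ha ha1 hz0 hz1.le
    have hY0 : 0 ≤ t 0 / t s := by positivity
    have hY1 : t 0 / t s ≤ 1 := by
      rw [div_le_one htp]
      linarith
    have hq1 : 1 - 2 * WW a z t s ≤ 1 := by linarith
    have hqx : z s ≤ 1 - 2 * WW a z t s := by linarith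
    have hq0 : 0 ≤ 1 - 2 * WW a z t s := by linarith
    have hA := hSz (z s) (1 - 2 * WW a z t s) (t 0 / t s) hz0 hqx hq1 hY0 hY1
    have hcz : 0 ≤ c * z s * (1 - 2 * WW a z t s) ^ (m + 1) := by positivity
    have hEq : s2_F a z t m al be c γ s = z s * (t s * (((1 - 2 * WW a z t s) ^ (m + 1) *
          ((al - be * (t 0 / t s)) * (1 - 2 * WW a z t s) - 2 * c * z s)
          + γ * (1 - 2 * WW a z t s) * (t 0 / t s)) + c * z s * (1 - 2 * WW a z t s) ^ (m + 1))) := by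
      unfold s2_F
      have htne := htp.ne'
      field_simp
      ring
    rw [hEq]
    apply mul_nonneg hz0 (mul_nonneg htp.le (add_nonneg hA hcz))
  linarith

end NullQ
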