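import Pool.Agent.Lib.H74Q.S1

set_option autoImplicit false

/-!
Chunk S3 (S/M). Bound for `K = ∫ (3 P^2 + 2 G P)/t`.
Proof. `3 P + 2 G = 3 + (1+a) z - 6 W/(1-z)`, so `cst / t = W' (3 + (1+a) z - 6 W/(1-z))`. With `F = 3 W - 3 W^2/(1-z) + (1+a) z W + (1+a)^2 (1-z)^3/36`:
`F' - cst/t = z' ((1+a) W - 3 W^2/(1-z)^2 - (1+a)^2 (1-z)^2/12) >= 0` (`z' <= 0`, the bracket is `-3 (W/(1-z) - (1+a)(1-z)/6)^2`). So `∫ cst/t <= F s - F 0 <= F s` (`F 0 = (1+a)^2 (1-z 0)^3/36 >= 0`), and for all `W`, with `m = 1 + a`, `0 <= m <= 2`: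
`F <= (1-z)(3 + m z)^2/12 + m^2 (1-z)^3/36 <= 3/4 + m^2/36`: the difference (left minus right) is `z (-(3-m)^2/12 + (m (m-3)/6) z - (m^2/9) z^2) <= 0`.
-/

open MeasureTheory Filter Topology Set

namespace NullQ

variable {z dz t : ℝ → ℝ} {a s : ℝ}

/-- The comparison function. -/
noncomputable def s3F (a : ℝ) (z t : ℝ → ℝ) (s : ℝ) : ℝ :=
  3 * WW a z t s - 3 * (WW a z t s ^ 2 / (1 - z s)) + (1 + a) * (z s * WW a z t s) +
    (1 + a) ^ 2 / 36 * (1 - z s) ^ 3

theorem s3_cont (h : ZT z dz t) : ContinuousOn (s3F a z t) (Ici 0) := by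
  have hW := WW_cont h a
  have h1 : ContinuousOn (fun s => 1 - z s) (Ici 0) := continuousOn_const.sub h.zc
  have h2 : ∀ s ∈ Ici (0 : ℝ), 1 - z s ≠ 0 := fun s hs => by
    have := h.z1 s hs
    linarith
  unfold s3F
  exact (((continuousOn_const.mul hW).sub (continuousOn_const.mul ((hW.pow 2).div h1 h2))).add
    (continuousOn_const.mul (h.zc.mul hW))).add (continuousOn_const.mul (h1.pow 3))

theorem s3_der (h : ZT z dz t) (hs : 0 < s) : HasDerivAt (s3F a z t)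
    (cst a z t s / t s + (-dz s) * (3 * (WW a z t s / (1 - z s) - (1 + a) * (1 - z s) / 6) ^ 2)) s := by
  have h0 : 1 - z s ≠ 0 := by
    have := h.z1 s hs.le
    linarith
  have ht : t s ≠ 0 := (t_pos h hs.le).ne'
  have hW := WW_der h a hs
  have hz := h.zd s hs
  have h1 : HasDerivAt (fun s => 1 - z s) (-dz s) s := by
    simpa using hz.const_sub 1
  have h3 := (((hW.const_mul 3).sub (((hW.pow 2).div h1 h0).const_mul 3)).add
    ((hz.mul hW).const_mul (1 + a))).add ((h1.pow 3).const_mul ((1 + a) ^ 2 / 36))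
  refine h3.congr_deriv ?_
  unfold cst
  have hP : PP a z t s = (1 - z s) * (1 + a * z s) - 2 * WW a z t s / (1 - z s) := by
    unfold PP gg
    field_simp
  rw [hP]
  simp only [Pi.pow_apply, Nat.cast_ofNat]
  field_simp
  ring

theorem K_le (h : ZT z dz t) (ha : -1 ≤ a) (ha1 : a ≤ 1) (hs : 0 ≤ s) :
    ∫ r in (0 : ℝ)..s, cst a z t r / t r ≤ 3 / 4 + (1 + a) ^ 2 / 36 := by
  have hc : ContinuousOn (fun r => cst a z t r / t r) (Ici 0) :=
    (cst_cont h a).div h.tc fun r hr => (t_pos h hr).ne'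
  have hmono := NullPen.g1_mono (F := fun s => s3F a z t s - ∫ r in (0 : ℝ)..s, cst a z t r / t r)
    (F' := fun s => (cst a z t s / t s + (-dz s) * (3 * (WW a z t s / (1 - z s) -
      (1 + a) * (1 - z s) / 6) ^ 2)) - cst a z t s / t s)
    ((s3_cont h).sub (NullPen.g1_int_cont hc)) (fun r hr => (s3_der h hr).sub
      (NullPen.g1_int_der hc hr)) (by
      intro r hr
      have h1 := h.zm r hr
      have h2 : 0 ≤ (-dz r) * (3 * (WW a z t r / (1 - z r) - (1 + a) * (1 - z r) / 6) ^ 2) :=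
        mul_nonneg (by linarith) (by positivity)
      linarith)
  have h1 := hmono (by simp : (0 : ℝ) ∈ Ici 0) hs hs
  simp only [intervalIntegral.integral_same, sub_zero] at h1
  have hF0 : 0 ≤ s3F a z t 0 := by
    unfold s3F
    rw [WW_zero]
    have h2 := h.z1 0 le_rfl
    have h3 : 0 ≤ (1 - z 0) ^ 3 := pow_nonneg (by linarith) 3
    have h4 : 0 ≤ (1 + a) ^ 2 / 36 * (1 - z 0) ^ 3 := mul_nonneg (by positivity) h3
    simpa using h4
  have hz0 := h.z0 s hs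
  have hz1 := h.z1 s hs
  have hpos : 0 < 1 - z s := by linarith
  have hFs : s3F a z t s ≤ 3 / 4 + (1 + a) ^ 2 / 36 := by
    unfold s3F
    set W := WW a z t s
    set x := z s
    have h5 : 3 * W - 3 * (W ^ 2 / (1 - x)) + (1 + a) * (x * W) ≤
        (1 - x) * (3 + (1 + a) * x) ^ 2 / 12 := by
      have h6 : (1 - x) * (3 + (1 + a) * x) ^ 2 / 12 -
          (3 * W - 3 * (W ^ 2 / (1 - x)) + (1 + a) * (x * W)) =
          3 * (W - (1 - x) * (3 + (1 + a) * x) / 6) ^ 2 / (1 - x) := by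
        field_simp
        ring
      have h7 : 0 ≤ 3 * (W - (1 - x) * (3 + (1 + a) * x) / 6) ^ 2 / (1 - x) := by positivity
      linarith
    have h8 : (1 - x) * (3 + (1 + a) * x) ^ 2 / 12 + (1 + a) ^ 2 / 36 * (1 - x) ^ 3 -
        (3 / 4 + (1 + a) ^ 2 / 36) = -(x * ((3 - (1 + a)) ^ 2 / 12 + ((1 + a) * (3 - (1 + a)) / 6) * x +
          ((1 + a) ^ 2 / 9) * x ^ 2)) := by ring
    have h9 : 0 ≤ (1 + a) * (3 - (1 + a)) := mul_nonneg (by linarith) (by linarith)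
    have h10 : 0 ≤ x * ((3 - (1 + a)) ^ 2 / 12 + ((1 + a) * (3 - (1 + a)) / 6) * x +
          ((1 + a) ^ 2 / 9) * x ^ 2) := by positivity
    linarith
  linarith

end NullQ
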