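import Pool.Agent.Lib.H74P.Stmt

set_option autoImplicit false

/-!
Null hypersurfaces crossed by matter but not by gravitational radiation: definitions.
-/

open MeasureTheory Filter Topology
open scoped ContDiff

namespace NullPen
namespace MatterData

variable (D : MatterData)

/-- No gravitational radiation crosses `N`: the component `C(L, X, L, Y)` of the Weyl tensor vanishes, so Sachs' equation for the
null second fundamental form reads `chi' = chi g⁻¹ chi - (e / 2) g`, `e = G(L, L)`. -/
def NoRadiation : Prop := ∀ s, 0 < s → ∀ n : S2, ∀ i j, HasDerivAt (fun t => D.chi t n i j)
  ((∑ k, ∑ l, D.chi s n i k * D.gi s n k l * D.chi s n l j) - D.e s n / 2 * D.g s n i j) s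

/-- `N` is a regular null hypersurface, crossed by arbitrary matter but not by gravitational radiation, which starts at a trapped or
marginally trapped surface and extends to null infinity. -/
structure Quiet : Prop where
  null : D.IsNull
  free : D.NoRadiation
  flat : D.AsympFlat
  trapped : ∀ n : S2, D.θ 0 n ≤ 0

end MatterData
end NullPen
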